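import Mathlib
import Pool.Agent.TH689.LXDefs

/-!
# Static proofs of unsatisfiability

The definitions used by the statement of the lower bound.
-/

set_option autoImplicit false

namespace Pool.Agent.TH689.LX

open Pool.Agent.H538R2.SB

/-- the indicator function of the assignments which falsify the clause `C` -/
noncomputable def isFalse {n : ℕ} (C : Clause n) (x : Asg n) : ℝ := if FalseAt C x then 1 else 0

/-- A static proof that the CNF formula `F` is unsatisfiable, with a library of functions `G j` with
values in `[0, 1]`: arbitrary real multipliers `mult C j` and nonnegative coefficients `coeff j` with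
`∑ C ∈ F, ∑ j, mult C j * G j * [C is false] = 1 + ∑ j, coeff j * G j`. (At an assignment which
satisfies `F` the left hand side is `0` and the right hand side is positive.) -/
structure StaticProof {n N : ℕ} (G : Fin N → Asg n → ℝ) (F : Finset (Clause n)) where
  mult : Clause n → Fin N → ℝ
  coeff : Fin N → ℝ
  coeff_nonneg : ∀ j, 0 ≤ coeff j
  identity : ∀ x, ∑ C ∈ F, ∑ j, mult C j * (G j x * isFalse C x) = 1 + ∑ j, coeff j * G j x

/-- the size: the sum of the absolute values of all coefficients -/
noncomputable def StaticProof.size {n N : ℕ} {G : Fin N → Asg n → ℝ} {F : Finset (Clause n)}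
    (P : StaticProof G F) : ℝ := ∑ C ∈ F, ∑ j, |P.mult C j| + ∑ j, P.coeff j

/-- The mass: the average over all assignments of the sum of the absolute values of the terms on
the left hand side. It is at least `1`, and large if there are many cancellations. -/
noncomputable def StaticProof.mass {n N : ℕ} {G : Fin N → Asg n → ℝ} {F : Finset (Clause n)}
    (P : StaticProof G F) : ℝ :=
  (∑ x, ∑ C ∈ F, ∑ j, |P.mult C j| * (G j x * isFalse C x)) / 2 ^ n

end Pool.Agent.TH689.LX
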