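import Mathlib
import Pool.Agent.TH689.LXDefs

/-!
# Mixed-integer convex programming relaxations which may be wrong

The definitions used by the statement of the lower bound for randomized relaxations.
-/

set_option autoImplicit false

namespace Pool.Agent.TH689.RX

open Pool.Agent.H538R2.SB

/-- A scheme of mixed-integer convex programming relaxations of the satisfiability problem for
formulas with `n` variables. A constraint says that the image of the vector `u` of real variables
under an affine map to `ℝ ^ D` lies in a convex set, which may be any convex set. There are `s`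
constraints and an affine space, which are common to all formulas, `r` constraints for every clause
of the formula, and `k` affine functions whose values have to be `0` or `1` (binary variables).
Every assignment `x` has a vector `point x`. Nothing is assumed about these vectors. -/
structure Scheme (n k s r D : ℕ) where
  /-- number of real variables -/
  d : ℕ
  /-- an affine space, for instance the solutions of any number of linear equations -/
  space : AffineSubspace ℝ (Fin d → ℝ)
  /-- binary variables -/
  bin : Fin k → ((Fin d → ℝ) →ᵃ[ℝ] ℝ)
  map : Fin s → ((Fin d → ℝ) →ᵃ[ℝ] (Fin D → ℝ))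
  set : Fin s → Set (Fin D → ℝ)
  set_convex : ∀ i, Convex ℝ (set i)
  clauseMap : Clause n → Fin r → ((Fin d → ℝ) →ᵃ[ℝ] (Fin D → ℝ))
  clauseSet : Clause n → Fin r → Set (Fin D → ℝ)
  clauseSet_convex : ∀ C i, Convex ℝ (clauseSet C i)
  /-- the vector of an assignment -/
  point : Asg n → Fin d → ℝ

variable {n k s r D : ℕ}

/-- The scheme is correct at the assignment `x`: its vector satisfies the common constraints, the
integrality constraints, and the constraints of all clauses which are true at `x`. So for every
formula which is satisfied by `x` the vector of `x` is a solution. -/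
def Scheme.CorrectAt (P : Scheme n k s r D) (x : Asg n) : Prop :=
  P.point x ∈ P.space ∧ (∀ i, P.bin i (P.point x) = 0 ∨ P.bin i (P.point x) = 1) ∧
    (∀ i, P.map i (P.point x) ∈ P.set i) ∧
    ∀ C i, ¬ FalseAt C x → P.clauseMap C i (P.point x) ∈ P.clauseSet C i

/-- The vector `u` satisfies the `i`-th constraint of the clause `C` up to an error `δ`: its image
is `(1 - θ) a + θ b` for some `θ ≤ δ`, where `a` belongs to the convex set of this constraint and
`b` to the convex hull of the images of the vectors of the assignments at which the scheme is
correct. -/
def Scheme.Near (P : Scheme n k s r D) (C : Clause n) (i : Fin r) (δ : ℝ)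
    (u : Fin P.d → ℝ) : Prop :=
  ∃ θ : ℝ, 0 ≤ θ ∧ θ ≤ δ ∧ ∃ a ∈ P.clauseSet C i,
    ∃ b ∈ convexHull ℝ ((fun x => P.clauseMap C i (P.point x)) '' {x | P.CorrectAt x}),
      P.clauseMap C i u = (1 - θ) • a + θ • b

/-- `u` is a solution of the relaxation of the formula `F`, up to an error `δ` in the constraints
of the clauses -/
def Scheme.Solves (P : Scheme n k s r D) (F : Finset (Clause n)) (δ : ℝ)
    (u : Fin P.d → ℝ) : Prop :=
  u ∈ P.space ∧ (∀ i, P.bin i u = 0 ∨ P.bin i u = 1) ∧ (∀ i, P.map i u ∈ P.set i) ∧
    ∀ C ∈ F, ∀ i, P.Near C i δ u

/-- The relaxation claims that `F` is not satisfiable: it has no solution, even if an error `δ` is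
allowed in the constraints of the clauses; or it has no such solution for which the value of some
affine objective function is at most `δ`, where the value of the objective function at the vector
of any assignment at which the scheme is correct is the number of falsified clauses of `F`. -/
def Scheme.Refutes (P : Scheme n k s r D) (F : Finset (Clause n)) (δ : ℝ) : Prop :=
  (∀ u, ¬ P.Solves F δ u) ∨
    ∃ f : (Fin P.d → ℝ) →ᵃ[ℝ] ℝ, (∀ x, P.CorrectAt x → f (P.point x) = LX.falsified F x) ∧
      ∀ u, P.Solves F δ u → δ < f u

/-- the fraction of the assignments at which the scheme is correct -/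
noncomputable def Scheme.correctRate (P : Scheme n k s r D) : ℝ :=
  ({x : Asg n | P.CorrectAt x}.ncard : ℝ) / 2 ^ n

/-- the fraction of the formulas of a list which are refuted -/
noncomputable def Scheme.refutedRate (P : Scheme n k s r D) {M : ℕ}
    (F : Fin M → Finset (Clause n)) (δ : ℝ) : ℝ :=
  ({i : Fin M | P.Refutes (F i) δ}.ncard : ℝ) / M

end Pool.Agent.TH689.RX
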