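import Mathlib
import Pool.Agent.TH689.RXDefs
import Pool.Agent.TH689.CXDual
import Pool.Agent.TH689.LVDefs

/-!
The multipliers of a refutation by a convex relaxation.
-/

set_option autoImplicit false

namespace Pool.Agent.TH689.RX

open Finset Pool.Agent.H538R2.SB Pool.Agent.TH689.LX Pool.Agent.TH689.CX

lemma isFalse_bd {n : ℕ} (C : Clause n) (x : Asg n) : 0 ≤ LX.isFalse C x ∧ LX.isFalse C x ≤ 1 := by
  unfold LX.isFalse
  split_ifs <;> norm_num

/-- the images of the points under an affine map -/
lemma map_comb {X : Type*} [Fintype X] {d D : ℕ} (p : X → Fin d → ℝ) (α : X → ℝ)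
    (hα : ∑ x, α x = 1) (f : (Fin d → ℝ) →ᵃ[ℝ] (Fin D → ℝ)) :
    f (∑ x, α x • p x) = ∑ x, α x • f (p x) := by
  rw [← Finset.affineCombination_eq_linear_combination Finset.univ p α hα,
    Finset.map_affineCombination _ _ _ hα,
    Finset.affineCombination_eq_linear_combination Finset.univ _ α hα]
  rfl

lemma map_comb_real {X : Type*} [Fintype X] {d : ℕ} (p : X → Fin d → ℝ) (α : X → ℝ)
    (hα : ∑ x, α x = 1) (f : (Fin d → ℝ) →ᵃ[ℝ] ℝ) :
    f (∑ x, α x • p x) = ∑ x, α x * f (p x) := by
  rw [← Finset.affineCombination_eq_linear_combination Finset.univ p α hα,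
    Finset.map_affineCombination _ _ _ hα,
    Finset.affineCombination_eq_linear_combination Finset.univ _ α hα]
  rfl

/-- the index set of the constraints of the relaxation of `F` -/
abbrev Con (n s r : ℕ) (F : Finset (Clause n)) : Type := Fin s ⊕ ({C // C ∈ F} × Fin r)

/-- the images of the points -/
def vec {n k s r D : ℕ} (P : Scheme n k s r D) (F : Finset (Clause n)) :
    Con n s r F → Asg n → Fin D → ℝ :=
  Sum.elim (fun i x => P.map i (P.point x)) (fun p x => P.clauseMap p.1.1 p.2 (P.point x))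

/-- the assignments which falsify the clause of a constraint -/
noncomputable def badf {n s r : ℕ} (F : Finset (Clause n)) : Con n s r F → Asg n → ℝ :=
  Sum.elim (fun _ _ => 0) (fun p x => LX.isFalse p.1.1 x)

lemma badf_bd {n s r : ℕ} (F : Finset (Clause n)) (k : Con n s r F) (x : Asg n) :
    0 ≤ badf F k x ∧ badf F k x ≤ 1 := by
  rcases k with i | p
  · simp [badf]
  · exact isFalse_bd _ _

/-- the value of a bit -/
def bval (b : Bool) : ℝ := if b then 1 else 0

/-- the correct assignments whose points have the binary part `b` -/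
def Pat {n k s r D : ℕ} (P : Scheme n k s r D) (b : Fin k → Bool) (x : Asg n) : Prop :=
  P.CorrectAt x ∧ ∀ i, P.bin i (P.point x) = bval (b i)

theorem solves_of {n k s r D : ℕ} (P : Scheme n k s r D) (F : Finset (Clause n)) {δ : ℝ}
    (hδ1 : δ < 1) (b : Fin k → Bool) [Fintype {x // Pat P b x}] (x₀ : {x // Pat P b x})
    (α : {x // Pat P b x} → ℝ)
    (l : Con n s r F → {x // Pat P b x} → ℝ) (h1 : ∑ x, α x = 1)
    (h2 : ∀ k x, 0 ≤ l k x) (h3 : ∀ k, ∑ x, l k x = 1)
    (h4 : ∀ k j, ∑ x, vec P F k x.1 j * α x = ∑ x, vec P F k x.1 j * l k x)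
    (h5 : ∀ k, ∑ x, badf F k x.1 * l k x ≤ δ) :
    P.Solves F δ (∑ x, α x • P.point x.1) := by
  classical
  have h4' : ∀ k, ∑ x, α x • vec P F k x.1 = ∑ x, l k x • vec P F k x.1 := by
    intro k
    funext j
    have := h4 k j
    simp only [Finset.sum_apply, Pi.smul_apply, smul_eq_mul]
    simp only [mul_comm (α _), mul_comm (l k _)]
    exact this
  refine ⟨?_, ?_, ?_, ?_⟩
  · rw [← Finset.affineCombination_eq_linear_combination Finset.univ
      (fun x : {x // Pat P b x} => P.point x.1) α h1]
    have h6 := affineCombination_mem_affineSpan (k := ℝ) h1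
      (fun x : {x // Pat P b x} => P.point x.1)
    have h7 : affineSpan ℝ (Set.range fun x : {x // Pat P b x} => P.point x.1) ≤ P.space := by
      rw [affineSpan_le]
      rintro _ ⟨x, rfl⟩
      exact x.2.1.1
    exact h7 h6
  · intro i
    have h6 : P.bin i (∑ x, α x • P.point x.1) = bval (b i) := by
      rw [map_comb_real (fun x : {x // Pat P b x} => P.point x.1) α h1 (P.bin i)]
      have h7 : ∀ x : {x // Pat P b x}, α x * P.bin i (P.point x.1) = α x * bval (b i) :=
        fun x => by rw [x.2.2 i]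
      rw [Finset.sum_congr rfl (fun x _ => h7 x), ← Finset.sum_mul, h1, one_mul]
    rw [h6]
    unfold bval
    split_ifs
    · exact Or.inr rfl
    · exact Or.inl rfl
  · intro i
    rw [map_comb (fun x : {x // Pat P b x} => P.point x.1) α h1 (P.map i)]
    have h6 := h4' (Sum.inl i)
    simp only [vec, Sum.elim_inl] at h6
    rw [h6]
    exact (P.set_convex i).sum_mem (fun x _ => h2 _ x) (h3 _) (fun x _ => x.2.1.2.2.1 i)
  · intro C hC i
    set k : Con n s r F := Sum.inr (⟨C, hC⟩, i) with hk
    have h6 := h4' k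
    have h7 := h5 k
    simp only [hk, vec, Sum.elim_inr] at h6
    simp only [hk, badf, Sum.elim_inr] at h7
    have hmem : ∀ x : {x // Pat P b x}, P.clauseMap C i (P.point x.1) ∈
        (fun x => P.clauseMap C i (P.point x)) '' {x | P.CorrectAt x} :=
      fun x => ⟨x.1, x.2.1, rfl⟩
    set θ : ℝ := ∑ x : {x // Pat P b x}, LX.isFalse C x.1 * l k x with hθ
    have hθ0 : 0 ≤ θ := Finset.sum_nonneg (fun x _ => mul_nonneg (isFalse_bd C x.1).1 (h2 _ _))
    have hθ1 : 0 < 1 - θ := by
      have : θ ≤ δ := h7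
      linarith
    have hsplit : ∑ x : {x // Pat P b x}, (1 - LX.isFalse C x.1) * l k x = 1 - θ := by
      have : ∑ x : {x // Pat P b x}, (1 - LX.isFalse C x.1) * l k x = ∑ x, l k x - θ := by
        rw [hθ, ← Finset.sum_sub_distrib]
        exact Finset.sum_congr rfl (fun x _ => by ring)
      rw [this, h3]
    have htrue : ∑ x : {x // Pat P b x}, ((1 - LX.isFalse C x.1) * l k x / (1 - θ))
          • P.clauseMap C i (P.point x.1) ∈ P.clauseSet C i := by
      have e1 : ∑ x : {x // Pat P b x}, ((1 - LX.isFalse C x.1) * l k x / (1 - θ))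
            • P.clauseMap C i (P.point x.1)
          = ∑ x ∈ (Finset.univ : Finset {x // Pat P b x}).filter (fun x => ¬ FalseAt C x.1),
            ((1 - LX.isFalse C x.1) * l k x / (1 - θ)) • P.clauseMap C i (P.point x.1) := by
        rw [Finset.sum_filter]
        apply Finset.sum_congr rfl
        intro x _
        by_cases hx : FalseAt C x.1
        · simp [LX.isFalse, hx]
        · simp [hx]
      rw [e1]
      apply (P.clauseSet_convex C i).sum_mem
      · intro x _
        exact div_nonneg (mul_nonneg (by have := (isFalse_bd C x.1).2; linarith) (h2 _ _)) hθ1.le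
      · have e2 : ∑ x ∈ (Finset.univ : Finset {x // Pat P b x}).filter (fun x => ¬ FalseAt C x.1),
            (1 - LX.isFalse C x.1) * l k x / (1 - θ)
            = ∑ x : {x // Pat P b x}, (1 - LX.isFalse C x.1) * l k x / (1 - θ) := by
          rw [Finset.sum_filter]
          apply Finset.sum_congr rfl
          intro x _
          by_cases hx : FalseAt C x.1
          · simp [LX.isFalse, hx]
          · simp [hx]
        rw [e2, ← Finset.sum_div, hsplit, div_self hθ1.ne']
      · intro x hx
        exact x.2.1.2.2.2 C i (Finset.mem_filter.1 hx).2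
    obtain ⟨p, hp, hθp⟩ : ∃ p ∈ convexHull ℝ ((fun x => P.clauseMap C i (P.point x)) ''
          {x | P.CorrectAt x}),
        θ • p = ∑ x : {x // Pat P b x}, (LX.isFalse C x.1 * l k x)
          • P.clauseMap C i (P.point x.1) := by
      rcases hθ0.eq_or_lt with h0 | hpos
      · refine ⟨P.clauseMap C i (P.point x₀.1), subset_convexHull _ _ (hmem x₀), ?_⟩
        rw [← h0, zero_smul]
        symm
        apply Finset.sum_eq_zero
        intro x _
        have h8 : ∀ x ∈ (Finset.univ : Finset {x // Pat P b x}), LX.isFalse C x.1 * l k x = 0 :=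
          (Finset.sum_eq_zero_iff_of_nonneg
            (fun x _ => mul_nonneg (isFalse_bd C x.1).1 (h2 _ _))).1 h0.symm
        rw [h8 x (Finset.mem_univ x), zero_smul]
      · refine ⟨∑ x : {x // Pat P b x}, (LX.isFalse C x.1 * l k x / θ)
          • P.clauseMap C i (P.point x.1), ?_, ?_⟩
        · apply (convex_convexHull ℝ _).sum_mem
          · intro x _
            exact div_nonneg (mul_nonneg (isFalse_bd C x.1).1 (h2 _ _)) hpos.le
          · rw [← Finset.sum_div, ← hθ, div_self hpos.ne']
          · intro x _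
            exact subset_convexHull _ _ (hmem x)
        · rw [Finset.smul_sum]
          apply Finset.sum_congr rfl
          intro x _
          rw [smul_smul]
          congr 1
          field_simp
    refine ⟨θ, hθ0, h7, _, htrue, p, hp, ?_⟩
    rw [map_comb (fun x : {x // Pat P b x} => P.point x.1) α h1 (P.clauseMap C i), h6, hθp,
      Finset.smul_sum, ← Finset.sum_add_distrib]
    apply Finset.sum_congr rfl
    intro x _
    rw [smul_smul, ← add_smul]
    congr 1
    field_simp
    ring

/-- The multipliers of a refutation, for one value of the binary part. -/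
theorem refutes_rep {n k s r D : ℕ} (P : Scheme n k s r D) (F : Finset (Clause n))
    {δ : ℝ} (hδ1 : δ < 1) (h : P.Refutes F δ) (b : Fin k → Bool) :
    ∃ (ρ : Con n s r F → ℝ) (ρ₀ w₀ : ℝ) (g : Con n s r F → Fin D → ℝ) (c : Con n s r F → ℝ),
      (∀ k, 0 ≤ ρ k) ∧ 0 ≤ ρ₀ ∧ 0 ≤ w₀ ∧ (∑ k, ρ k + ρ₀ ≤ 1) ∧ (w₀ = 0 ∨ ∃ x, Pat P b x) ∧
      (∀ x, Pat P b x → ∀ k, 0 ≤ ρ k * badf F k x + ∑ j, g k j * vec P F k x j + c k) ∧
      (∀ x, Pat P b x → ∑ k, ρ k * badf F k x + ρ₀ * falsified F x = δ + w₀
        + ∑ k, (ρ k * badf F k x + ∑ j, g k j * vec P F k x j + c k)) := by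
  classical
  by_cases hne : ∃ x, Pat P b x
  · obtain ⟨x₀, hx₀⟩ := hne
    rcases h with h | ⟨f, hf, hfu⟩
    · obtain ⟨ρ, ρ₀, w₀, w, g, c, h1, _, h3, h4, h5, h6, h7⟩ := duality (κ₀ := Empty)
        (X := {x // Pat P b x}) ⟨x₀, hx₀⟩ (fun k x => vec P F k x.1) (fun k x => badf F k x.1)
        (fun k x => badf_bd F k x.1) (fun k => k.elim) δ (by
          intro α l e1 e2 e3 e4 e5 _
          exact h _ (solves_of P F hδ1 b ⟨x₀, hx₀⟩ α l e1 e2 e3 e4 e5))
      refine ⟨ρ, 0, w₀, g, c, h1, le_rfl, h3, ?_, Or.inr ⟨x₀, hx₀⟩, ?_, ?_⟩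
      · simp only [Finset.univ_eq_empty, Finset.sum_empty, add_zero] at h5
        linarith
      · intro x hx k
        rw [← h7 k ⟨x, hx⟩]
        exact h4 k _
      · intro x hx
        have := h6 ⟨x, hx⟩
        simp only [Finset.univ_eq_empty, Finset.sum_empty, add_zero] at this
        rw [zero_mul, add_zero, this]
        congr 1
        exact Finset.sum_congr rfl (fun k _ => h7 k ⟨x, hx⟩)
    · obtain ⟨ρ, ρ₀, w₀, w, g, c, h1, h2, h3, h4, h5, h6, h7⟩ := duality (κ₀ := Unit)
        (X := {x // Pat P b x}) ⟨x₀, hx₀⟩ (fun k x => vec P F k x.1) (fun k x => badf F k x.1)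
        (fun k x => badf_bd F k x.1) (fun _ x => (falsified F x.1 : ℝ)) δ (by
          intro α l e1 e2 e3 e4 e5 e6
          have h8 := hfu _ (solves_of P F hδ1 b ⟨x₀, hx₀⟩ α l e1 e2 e3 e4 e5)
          rw [map_comb_real (fun x : {x // Pat P b x} => P.point x.1) α e1 f] at h8
          have h9 := e6 ()
          have h10 : ∑ x : {x // Pat P b x}, α x * f (P.point x.1)
              = ∑ x : {x // Pat P b x}, (falsified F x.1 : ℝ) * α x := by
            apply Finset.sum_congr rfl
            intro x _
            rw [hf x.1 x.2.1, mul_comm]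
          rw [h10] at h8
          linarith)
      refine ⟨ρ, ρ₀ (), w₀, g, c, h1, h2 (), h3, ?_, Or.inr ⟨x₀, hx₀⟩, ?_, ?_⟩
      · simp only [Finset.univ_unique, Finset.sum_singleton] at h5
        exact h5.le
      · intro x hx k
        rw [← h7 k ⟨x, hx⟩]
        exact h4 k _
      · intro x hx
        have := h6 ⟨x, hx⟩
        simp only [Finset.univ_unique, Finset.sum_singleton] at this
        refine Eq.trans this ?_
        congr 1
        exact Finset.sum_congr rfl (fun k _ => h7 k ⟨x, hx⟩)
  · push Not at hne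
    refine ⟨fun _ => 0, 0, 0, fun _ _ => 0, fun _ => 0, fun _ => le_rfl, le_rfl, le_rfl, ?_,
      Or.inl rfl, ?_, ?_⟩
    · simp
    · intro x hx
      exact absurd hx (hne x)
    · intro x hx
      exact absurd hx (hne x)

end Pool.Agent.TH689.RX
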