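import Mathlib
import Pool.Agent.TH689.LXDefs

/-!
# Mixed-integer convex programming relaxations of the satisfiability problem

The definitions used by the statement of the lower bound.
-/

set_option autoImplicit false

namespace Pool.Agent.TH689.CX

open Pool.Agent.H538R2.SB

/-- A scheme of mixed-integer convex programming relaxations of the satisfiability problem for
formulas with `n` variables. A constraint says that the image of the vector `u` of real variables
under an affine map to `ℝ ^ D` lies in a convex set, which may be any convex set. There are `s`
constraints and an affine space, which are common to all formulas, `r` constraints for every clause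
of the formula, and `k` affine functions whose values have to be `0` or `1` (binary variables).
Every assignment `x` is represented by a vector `point x`, which satisfies the common constraints,
the constraints of all clauses which are true at `x`, and the integrality constraints. -/
structure ConvexRelaxation (n k s r D : ℕ) where
  /-- number of real variables -/
  d : ℕ
  /-- an affine space, for instance the solutions of any number of linear equations -/
  space : AffineSubspace ℝ (Fin d → ℝ)
  /-- binary variables -/
  bin : Fin k → ((Fin d → ℝ) →ᵃ[ℝ] ℝ)
  map : Fin s → ((Fin d → ℝ) →ᵃ[ℝ] (Fin D → ℝ))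
  set : Fin s → Set (Fin D → ℝ)
  set_convex : ∀ i, Convex ℝ (set i)
  clauseMap : Clause n → Fin r → ((Fin d → ℝ) →ᵃ[ℝ] (Fin D → ℝ))
  clauseSet : Clause n → Fin r → Set (Fin D → ℝ)
  clauseSet_convex : ∀ C i, Convex ℝ (clauseSet C i)
  /-- the vector which represents an assignment -/
  point : Asg n → Fin d → ℝ
  point_mem : ∀ x, point x ∈ space
  bin_point : ∀ x i, bin i (point x) = 0 ∨ bin i (point x) = 1
  map_mem : ∀ x i, map i (point x) ∈ set i
  clauseMap_mem : ∀ C x i, ¬ FalseAt C x → clauseMap C i (point x) ∈ clauseSet C i

/-- The vector `u` satisfies the `i`-th constraint of the clause `C` up to an error `δ`: its image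
is `(1 - θ) a + θ b` for some `θ ≤ δ`, where `a` belongs to the convex set of this constraint and
`b` to the convex hull of the images of the vectors of the assignments. -/
def ConvexRelaxation.Near {n k s r D : ℕ} (P : ConvexRelaxation n k s r D) (C : Clause n)
    (i : Fin r) (δ : ℝ) (u : Fin P.d → ℝ) : Prop :=
  ∃ θ : ℝ, 0 ≤ θ ∧ θ ≤ δ ∧ ∃ a ∈ P.clauseSet C i,
    ∃ b ∈ convexHull ℝ (Set.range fun x => P.clauseMap C i (P.point x)),
      P.clauseMap C i u = (1 - θ) • a + θ • b

/-- `u` is a solution of the relaxation of the formula `F`, up to an error `δ` in the constraints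
of the clauses -/
def ConvexRelaxation.Solves {n k s r D : ℕ} (P : ConvexRelaxation n k s r D)
    (F : Finset (Clause n)) (δ : ℝ) (u : Fin P.d → ℝ) : Prop :=
  u ∈ P.space ∧ (∀ i, P.bin i u = 0 ∨ P.bin i u = 1) ∧ (∀ i, P.map i u ∈ P.set i) ∧
    ∀ C ∈ F, ∀ i, P.Near C i δ u

/-- The relaxation shows that `F` is not satisfiable: it has no solution, even if an error `δ` is
allowed in the constraints of the clauses; or it has no such solution for which the value of some
affine objective function is at most `δ`, where the value of the objective function at the vector
of any assignment is the number of falsified clauses of `F`. -/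
def ConvexRelaxation.Refutes {n k s r D : ℕ} (P : ConvexRelaxation n k s r D)
    (F : Finset (Clause n)) (δ : ℝ) : Prop :=
  (∀ u, ¬ P.Solves F δ u) ∨
    ∃ f : (Fin P.d → ℝ) →ᵃ[ℝ] ℝ, (∀ x, f (P.point x) = LX.falsified F x) ∧
      ∀ u, P.Solves F δ u → δ < f u

end Pool.Agent.TH689.CX
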