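import Mathlib
import Pool.Agent.TH689.CXRep

/-!
Mixed-integer linear relaxations which match the lower bound: `k` binary variables and `2 ^ l`
inequalities for formulas with `k + l` variables.
-/

set_option autoImplicit false

namespace Pool.Agent.TH689.CX

open Finset Pool.Agent.H538R2.SB Pool.Agent.TH689.LX

/-- an affine function as an affine map to `ℝ ^ 1` -/
noncomputable def aff {d : ℕ} (a : Fin d → ℝ) (c : ℝ) : (Fin d → ℝ) →ᵃ[ℝ] (Fin 1 → ℝ) :=
  (LinearMap.pi (fun _ => ∑ i, a i • LinearMap.proj i) : (Fin d → ℝ) →ₗ[ℝ] (Fin 1 → ℝ)).toAffineMap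
    + AffineMap.const ℝ (Fin d → ℝ) (fun _ => c)

lemma aff_apply {d : ℕ} (a : Fin d → ℝ) (c : ℝ) (u : Fin d → ℝ) (j : Fin 1) :
    aff a c u j = ∑ i, a i * u i + c := by
  simp [aff]

/-- the halfline -/
def half : Set (Fin 1 → ℝ) := {z | 0 ≤ z 0}

lemma mem_half (z : Fin 1 → ℝ) : z ∈ half ↔ 0 ≤ z 0 := Iff.rfl

lemma half_convex (t : ℝ) : Convex ℝ {z : Fin 1 → ℝ | t ≤ z 0} := by
  intro a ha b hb p q hp hq hpq
  simp only [Set.mem_ofPred_eq, Pi.add_apply, Pi.smul_apply, smul_eq_mul] at ha hb ⊢
  have h1 := mul_le_mul_of_nonneg_left ha hp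
  have h2 := mul_le_mul_of_nonneg_left hb hq
  have h3 : t = p * t + q * t := by rw [← add_mul, hpq, one_mul]
  linarith

lemma falseAt_iff {n : ℕ} (C : Clause n) (x : Asg n) : FalseAt C x ↔ ∀ v, (v, x v) ∉ C := by
  unfold FalseAt
  constructor
  · intro h v hv
    exact h _ hv rfl
  · rintro h ⟨v, b⟩ hl he
    simp only at he
    apply h v
    rw [he]
    exact hl

/-- the affine space of the vectors for which the sum of the last entries is `1` -/
def spc (k N : ℕ) : AffineSubspace ℝ (Fin (k + N) → ℝ) where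
  carrier := {u | ∑ j, u (Fin.natAdd k j) = 1}
  smul_vsub_vadd_mem' := by
    intro c p₁ p₂ p₃ h₁ h₂ h₃
    simp only [Set.mem_ofPred_eq] at h₁ h₂ h₃ ⊢
    simp only [vsub_eq_sub, vadd_eq_add, Pi.add_apply, Pi.smul_apply, Pi.sub_apply,
      smul_eq_mul, Finset.sum_add_distrib, ← Finset.mul_sum, Finset.sum_sub_distrib, h₁, h₂, h₃]
    ring

lemma mem_spc {k N : ℕ} (u : Fin (k + N) → ℝ) : u ∈ spc k N ↔ ∑ j, u (Fin.natAdd k j) = 1 :=
  Iff.rfl

/-- membership as a number -/
noncomputable def isin {n : ℕ} (C : Clause n) (l : Fin n × Bool) : ℝ := if l ∈ C then 1 else 0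

lemma isin_nonneg {n : ℕ} (C : Clause n) (l : Fin n × Bool) : 0 ≤ isin C l := by
  unfold isin; split_ifs <;> norm_num

open Classical in
/-- the literals of the second block are false -/
noncomputable def fr {k l : ℕ} (C : Clause (k + l)) (y : Fin l → Bool) : ℝ :=
  if ∀ t, (Fin.natAdd k t, y t) ∉ C then 1 else 0

lemma fr_bd {k l : ℕ} (C : Clause (k + l)) (y : Fin l → Bool) : 0 ≤ fr C y ∧ fr C y ≤ 1 := by
  unfold fr
  split_ifs <;> norm_num

/-- an equivalence -/
noncomputable def eqv (l : ℕ) : (Fin l → Bool) ≃ Fin (2 ^ l) :=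
  Fintype.equivOfCardEq (by simp)

/-- the coefficients of the constraint of a clause -/
noncomputable def coef {k l : ℕ} (C : Clause (k + l)) : Fin (k + 2 ^ l) → ℝ :=
  Fin.append (fun i => isin C (Fin.castAdd l i, true) - isin C (Fin.castAdd l i, false))
    (fun j => - fr C ((eqv l).symm j))

/-- the constant term of the constraint of a clause -/
noncomputable def cons {k l : ℕ} (C : Clause (k + l)) : ℝ :=
  ∑ i : Fin k, isin C (Fin.castAdd l i, false)

lemma coef_eq {k l : ℕ} (C : Clause (k + l)) (u : Fin (k + 2 ^ l) → ℝ) :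
    ∑ i, coef C i * u i + cons C
      = ∑ i : Fin k, (isin C (Fin.castAdd l i, true) * u (Fin.castAdd _ i)
          + isin C (Fin.castAdd l i, false) * (1 - u (Fin.castAdd _ i)))
        - ∑ j, fr C ((eqv l).symm j) * u (Fin.natAdd k j) := by
  rw [Fin.sum_univ_add]
  simp only [coef, cons, Fin.append_left, Fin.append_right]
  have h1 : ∑ j, -fr C ((eqv l).symm j) * u (Fin.natAdd k j)
      = - ∑ j, fr C ((eqv l).symm j) * u (Fin.natAdd k j) := by
    rw [← Finset.sum_neg_distrib]
    exact Finset.sum_congr rfl (fun j _ => by ring)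
  rw [h1]
  have h2 : ∑ i : Fin k, (isin C (Fin.castAdd l i, true) * u (Fin.castAdd _ i)
          + isin C (Fin.castAdd l i, false) * (1 - u (Fin.castAdd _ i)))
      = ∑ i : Fin k, (isin C (Fin.castAdd l i, true) - isin C (Fin.castAdd l i, false))
          * u (Fin.castAdd _ i) + ∑ i : Fin k, isin C (Fin.castAdd l i, false) := by
    rw [← Finset.sum_add_distrib]
    exact Finset.sum_congr rfl (fun j _ => by ring)
  rw [h2]
  ring

lemma lit_eq {k l : ℕ} (C : Clause (k + l)) (u : Fin (k + 2 ^ l) → ℝ) (β : Fin k → Bool)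
    (hβ : ∀ i, u (Fin.castAdd _ i) = bval (β i)) :
    ∑ i : Fin k, (isin C (Fin.castAdd l i, true) * u (Fin.castAdd _ i)
          + isin C (Fin.castAdd l i, false) * (1 - u (Fin.castAdd _ i)))
      = ∑ i : Fin k, isin C (Fin.castAdd l i, β i) := by
  apply Finset.sum_congr rfl
  intro i _
  rw [hβ i]
  cases h : β i <;> simp [bval]

/-- the vector of an assignment -/
noncomputable def pnt {k l : ℕ} (x : Asg (k + l)) : Fin (k + 2 ^ l) → ℝ :=
  Fin.append (fun i => bval (x (Fin.castAdd l i)))
    (fun j => if eqv l (fun t => x (Fin.natAdd k t)) = j then 1 else 0)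

lemma pnt_left {k l : ℕ} (x : Asg (k + l)) (i : Fin k) :
    pnt x (Fin.castAdd _ i) = bval (x (Fin.castAdd l i)) := by
  simp [pnt]

lemma pnt_right {k l : ℕ} (x : Asg (k + l)) (j : Fin (2 ^ l)) :
    pnt x (Fin.natAdd k j) = if eqv l (fun t => x (Fin.natAdd k t)) = j then 1 else 0 := by
  simp [pnt]

lemma pnt_val {k l : ℕ} (C : Clause (k + l)) (x : Asg (k + l)) :
    ∑ i, coef C i * pnt x i + cons C
      = ∑ i : Fin k, isin C (Fin.castAdd l i, x (Fin.castAdd l i))
        - fr C (fun t => x (Fin.natAdd k t)) := by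
  rw [coef_eq, lit_eq C (pnt x) (fun i => x (Fin.castAdd l i)) (pnt_left x)]
  congr 1
  simp only [pnt_right]
  rw [Finset.sum_eq_single (eqv l (fun t => x (Fin.natAdd k t)))]
  · rw [if_pos rfl, mul_one, Equiv.symm_apply_apply]
  · intro j _ hj
    rw [if_neg (Ne.symm hj), mul_zero]
  · intro h
    exact absurd (Finset.mem_univ _) h

/-- The relaxation. -/
noncomputable def relax (k l : ℕ) : ConvexRelaxation (k + l) k (2 ^ l) 1 1 where
  d := k + 2 ^ l
  space := spc k (2 ^ l)
  bin := fun i => (LinearMap.proj (Fin.castAdd (2 ^ l) i)).toAffineMap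
  map := fun j => aff (Pi.single (Fin.natAdd k j) 1) 0
  set := fun _ => half
  set_convex := fun _ => half_convex 0
  clauseMap := fun C _ => aff (coef C) (cons C)
  clauseSet := fun _ _ => half
  clauseSet_convex := fun _ _ => half_convex 0
  point := pnt
  point_mem := by
    intro x
    rw [mem_spc]
    simp only [pnt_right]
    rw [Finset.sum_ite_eq]
    simp
  bin_point := by
    intro x i
    simp only [LinearMap.coe_toAffineMap, LinearMap.proj_apply]
    rw [pnt_left]
    unfold bval
    split_ifs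
    · exact Or.inr rfl
    · exact Or.inl rfl
  map_mem := by
    intro x j
    rw [mem_half, aff_apply, add_zero, Finset.sum_eq_single (Fin.natAdd k j)]
    · rw [Pi.single_eq_same, one_mul, pnt_right]
      split_ifs <;> norm_num
    · intro i _ hi
      rw [Pi.single_eq_of_ne hi, zero_mul]
    · intro h
      exact absurd (Finset.mem_univ _) h
  clauseMap_mem := by
    intro C x _ hx
    rw [mem_half, aff_apply, pnt_val]
    rw [falseAt_iff] at hx
    push Not at hx
    obtain ⟨v, hv⟩ := hx
    have hfr := (fr_bd C (fun t => x (Fin.natAdd k t)))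
    have hnn : ∀ i : Fin k, 0 ≤ isin C (Fin.castAdd l i, x (Fin.castAdd l i)) :=
      fun i => isin_nonneg _ _
    revert hv
    refine Fin.addCases (fun i => ?_) (fun t => ?_) v
    · intro hv
      have h1 := Finset.single_le_sum
        (f := fun i : Fin k => isin C (Fin.castAdd l i, x (Fin.castAdd l i)))
        (fun i _ => hnn i) (Finset.mem_univ i)
      have h2 : isin C (Fin.castAdd l i, x (Fin.castAdd l i)) = 1 := if_pos hv
      simp only [h2] at h1
      linarith [hfr.2]
    · intro hv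
      have h2 : fr C (fun t => x (Fin.natAdd k t)) = 0 := by
        apply if_neg
        intro h
        exact h t hv
      rw [h2, sub_zero]
      exact Finset.sum_nonneg (fun i _ => hnn i)

/-- `k` binary variables and `2 ^ l` inequalities suffice for formulas with `k + l` variables. -/
theorem cx_upper (k l : ℕ) : ∃ P : ConvexRelaxation (k + l) k (2 ^ l) 1 1,
    ∀ F : Finset (Clause (k + l)), (∀ x, ∃ C ∈ F, FalseAt C x) → ∀ δ : ℝ, 0 ≤ δ →
      F.card * δ < 1 → P.Refutes F δ := by
  classical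
  refine ⟨relax k l, ?_⟩
  intro F hF δ hδ0 hδ
  left
  suffices hmain : ∀ u : Fin (k + 2 ^ l) → ℝ, ¬ (relax k l).Solves F δ u from hmain
  rintro u ⟨hsp, hbin, hmap, hcl⟩
  have hsum : ∑ j, u (Fin.natAdd k j) = 1 := hsp
  have hnn : ∀ j, 0 ≤ u (Fin.natAdd k j) := by
    intro j
    have h1 : 0 ≤ aff (Pi.single (Fin.natAdd k j) 1) 0 u 0 := hmap j
    rw [aff_apply, add_zero, Finset.sum_eq_single (Fin.natAdd k j)] at h1
    · rwa [Pi.single_eq_same, one_mul] at h1
    · intro i _ hi
      rw [Pi.single_eq_of_ne hi, zero_mul]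
    · intro h
      exact absurd (Finset.mem_univ _) h
  have hβ : ∀ i : Fin k, ∃ b : Bool, u (Fin.castAdd _ i) = bval b := by
    intro i
    have h1 : u (Fin.castAdd (2 ^ l) i) = 0 ∨ u (Fin.castAdd (2 ^ l) i) = 1 := hbin i
    rcases h1 with h1 | h1
    · exact ⟨false, by rw [h1]; rfl⟩
    · exact ⟨true, by rw [h1]; rfl⟩
  choose β hβ using hβ
  -- the clauses whose first block is false
  have hclause : ∀ C ∈ F, (∀ i : Fin k, (Fin.castAdd l i, β i) ∉ C) →
      ∑ j, fr C ((eqv l).symm j) * u (Fin.natAdd k j) ≤ δ := by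
    intro C hC hfalse
    obtain ⟨θ, hθ0, hθδ, a, ha, p, hp, hap⟩ := hcl C hC 0
    have h1 : aff (coef C) (cons C) u = (1 - θ) • a + θ • p := hap
    have h2 := congrFun h1 0
    rw [aff_apply, coef_eq, lit_eq C u β hβ] at h2
    have h3 : ∑ i : Fin k, isin C (Fin.castAdd l i, β i) = 0 :=
      Finset.sum_eq_zero (fun i _ => if_neg (hfalse i))
    have ha0 : 0 ≤ a 0 := ha
    have hp1 : -1 ≤ p 0 := by
      have h4 : convexHull ℝ (Set.range fun x => aff (coef C) (cons C) (pnt x))
          ⊆ {z : Fin 1 → ℝ | -1 ≤ z 0} := by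
        apply convexHull_min _ (half_convex (-1))
        rintro _ ⟨x, rfl⟩
        change -1 ≤ aff (coef C) (cons C) (pnt x) 0
        rw [aff_apply, pnt_val]
        have h5 := (fr_bd C (fun t => x (Fin.natAdd k t))).2
        have h6 : 0 ≤ ∑ i : Fin k, isin C (Fin.castAdd l i, x (Fin.castAdd l i)) :=
          Finset.sum_nonneg (fun i _ => isin_nonneg _ _)
        linarith
      exact h4 hp
    rw [h3, zero_sub] at h2
    simp only [Pi.add_apply, Pi.smul_apply, smul_eq_mul] at h2
    by_cases hθ1 : θ ≤ 1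
    · have h5 := mul_nonneg (sub_nonneg.2 hθ1) ha0
      have h6 := mul_le_mul_of_nonneg_left hp1 hθ0
      linarith
    · push Not at hθ1
      have h7 : ∑ j, fr C ((eqv l).symm j) * u (Fin.natAdd k j) ≤ ∑ j, u (Fin.natAdd k j) :=
        Finset.sum_le_sum (fun j _ => mul_le_of_le_one_left (hnn j) (fr_bd _ _).2)
      linarith
  have hcover : ∀ j : Fin (2 ^ l), u (Fin.natAdd k j) ≤ ∑ C ∈ F,
      if (∀ i : Fin k, (Fin.castAdd l i, β i) ∉ C)
        then fr C ((eqv l).symm j) * u (Fin.natAdd k j) else 0 := by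
    intro j
    obtain ⟨C, hC, hCf⟩ := hF (Fin.append β ((eqv l).symm j))
    rw [falseAt_iff] at hCf
    have h1 : ∀ i : Fin k, (Fin.castAdd l i, β i) ∉ C := by
      intro i
      have := hCf (Fin.castAdd l i)
      rwa [Fin.append_left] at this
    have h2 : fr C ((eqv l).symm j) = 1 := by
      apply if_pos
      intro t
      have := hCf (Fin.natAdd k t)
      rwa [Fin.append_right] at this
    have h3 := Finset.single_le_sum (f := fun C => if (∀ i : Fin k, (Fin.castAdd l i, β i) ∉ C)
        then fr C ((eqv l).symm j) * u (Fin.natAdd k j) else 0) (s := F) (by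
          intro C _
          split_ifs
          · exact mul_nonneg (fr_bd _ _).1 (hnn j)
          · exact le_rfl) hC
    simp only [if_pos h1, h2, one_mul] at h3
    exact h3
  have h1 : (1 : ℝ) ≤ F.card * δ := by
    calc (1 : ℝ) = ∑ j, u (Fin.natAdd k j) := hsum.symm
      _ ≤ ∑ j, ∑ C ∈ F, (if (∀ i : Fin k, (Fin.castAdd l i, β i) ∉ C)
            then fr C ((eqv l).symm j) * u (Fin.natAdd k j) else 0) :=
          Finset.sum_le_sum (fun j _ => hcover j)
      _ = ∑ C ∈ F, ∑ j, (if (∀ i : Fin k, (Fin.castAdd l i, β i) ∉ C)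
            then fr C ((eqv l).symm j) * u (Fin.natAdd k j) else 0) := Finset.sum_comm
      _ ≤ ∑ C ∈ F, δ := by
          apply Finset.sum_le_sum
          intro C hC
          by_cases h : ∀ i : Fin k, (Fin.castAdd l i, β i) ∉ C
          · simp only [if_pos h]
            exact hclause C hC h
          · simp only [if_neg h, Finset.sum_const_zero]
            exact hδ0
      _ = F.card * δ := by rw [Finset.sum_const, nsmul_eq_mul]
  linarith

end Pool.Agent.TH689.CX
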