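import Mathlib
import Pool.Agent.TH689.LXRestore

/-!
The pairing of the pseudo-density with a product function whose factors force a collision on a set
of fixed coordinates is small in absolute value.
-/

set_option autoImplicit false
set_option linter.unusedSectionVars false

namespace Pool.Agent.TH689.LX

open Finset

variable {ι V : Type*} [Fintype ι] [DecidableEq ι] [Fintype V] [DecidableEq V] {H : ℕ}

lemma piece_good_abs (hH : 1 ≤ H) {f : (ι → V) → ℝ} (hf : ∀ x, 0 ≤ f x) {I : Finset ι} {α : ι → V}
    (hsupp : ∀ x, f x ≠ 0 → ∀ i ∈ I, x i = α i) {r l : ℝ} (hr : 0 ≤ r) (hl : 0 ≤ l)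
    (hdense : ∀ S ⊆ Iᶜ, ∀ x₀ : ι → V, (∑ x', if (∀ i ∈ S, x' i = x₀ i) then f x' else 0)
      ≤ (r ^ S.card) ^ 2 * ∑ x, f x)
    {m₀ : ℕ} (hI : I.card + m₀ ≤ H + 1) (hlr : l * r ≤ 1)
    {y : ι → V → Fin H} (hy : Good f I l y) (hIH : I.card ≤ H)
    (hζ0 : dens I (fun i => y i (α i)) = 0) :
    |∑ x, f x * ell (comp y x)| ≤ farE (Fintype.card ι) H m₀ (l * r) * ∑ x, f x := by
  set K := Fintype.card ι with hK
  set F : ℝ := ∑ x, f x with hF
  have hF0 : 0 ≤ F := Finset.sum_nonneg (fun x _ => hf x)
  have hlr0 : 0 ≤ l * r := by positivity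
  set ζ : ι → Fin H := fun i => y i (α i) with hζ
  have h1 : ∑ x, f x * ell (comp y x)
      = ∑ S ∈ (Iᶜ).powerset, chaos f (fun z => part I S (mix I ζ z)) y := by
    unfold chaos
    rw [Finset.sum_comm]
    apply Finset.sum_congr rfl
    intro x _
    rw [← Finset.mul_sum, ell_eq I]
    by_cases hx : f x = 0
    · rw [hx, zero_mul, zero_mul]
    · congr 1
      apply Finset.sum_congr rfl
      intro S _
      congr 1
      funext i
      unfold mix comp
      split_ifs with h
      · rw [hζ]; simp only; rw [hsupp x hx i h]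
      · rfl
  have hempty : (∅ : Finset ι) ∈ (Iᶜ).powerset := Finset.empty_mem_powerset _
  have h2 : chaos f (fun z => part I ∅ (mix I ζ z)) y = 0 := by
    unfold chaos
    apply Finset.sum_eq_zero
    intro x _
    show f x * part I ∅ (mix I ζ (comp y x)) = 0
    rw [part_empty hIH, dens_congr (z' := ζ) (fun i hi => by simp [mix, hi]), hζ0, mul_zero]
  rw [h1, ← Finset.add_sum_erase _ _ hempty, h2, zero_add]
  have h3 : ∀ S ∈ (Iᶜ).powerset.erase ∅, |chaos f (fun z => part I S (mix I ζ z)) y|
      ≤ (4 * H : ℝ) ^ K * (l * r) ^ m₀ * F := by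
    intro S hS
    obtain ⟨hS1, hS2⟩ := Finset.mem_erase.1 hS
    have h4 := hy S hS2 (Finset.nonempty_iff_ne_empty.2 hS1) ζ
    have h5 := energy_sqrt_le hf hr (hdense S (Finset.mem_powerset.1 hS2))
    refine h4.trans ?_
    calc l ^ S.card * mb I S ζ * Real.sqrt (energy S f)
        ≤ l ^ S.card * mb I S ζ * (r ^ S.card * F) :=
          mul_le_mul_of_nonneg_left h5 (mul_nonneg (by positivity) (mb_nonneg _ _ _))
      _ = ((l * r) ^ S.card * mb I S ζ) * F := by rw [mul_pow]; ring
      _ ≤ _ := by
          apply mul_le_mul_of_nonneg_right _ hF0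
          unfold mb
          split_ifs with h
          · rw [hζ0]
            simp only [mul_zero]
            positivity
          · have h7 : m₀ ≤ S.card := by omega
            have h8 : (l * r) ^ S.card ≤ (l * r) ^ m₀ := pow_le_pow_of_le_one hlr0 hlr h7
            rw [mul_comm, ← hK]
            exact mul_le_mul_of_nonneg_left h8 (by positivity)
  refine (Finset.abs_sum_le_sum_abs _ _).trans ((Finset.sum_le_sum h3).trans ?_)
  rw [Finset.sum_const, nsmul_eq_mul]
  have h6 : (((Iᶜ).powerset.erase ∅).card : ℝ) ≤ 2 ^ K := by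
    have h7 : ((Iᶜ).powerset.erase ∅).card ≤ (Iᶜ).powerset.card :=
      Finset.card_le_card (Finset.erase_subset _ _)
    rw [Finset.card_powerset] at h7
    have h8 : 2 ^ (Iᶜ).card ≤ 2 ^ K := Nat.pow_le_pow_right (by norm_num) (Finset.card_le_univ _)
    exact_mod_cast h7.trans h8
  unfold farE
  calc (((Iᶜ).powerset.erase ∅).card : ℝ) * ((4 * H : ℝ) ^ K * (l * r) ^ m₀ * F)
      ≤ 2 ^ K * ((4 * H : ℝ) ^ K * (l * r) ^ m₀ * F) :=
        mul_le_mul_of_nonneg_right h6 (by positivity)
    _ = _ := by ring

open Classical in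
/-- the pairing for one piece -/
theorem piece_bound_abs (hH : 1 ≤ H) (hV : 1 ≤ Fintype.card V)
    {f : (ι → V) → ℝ} (hf : ∀ x, 0 ≤ f x) {I : Finset ι} {α : ι → V}
    (hsupp : ∀ x, f x ≠ 0 → ∀ i ∈ I, x i = α i) {r l : ℝ} (hr : 0 ≤ r) (hl : 0 ≤ l)
    (hdense : ∀ S ⊆ Iᶜ, ∀ x₀ : ι → V, (∑ x', if (∀ i ∈ S, x' i = x₀ i) then f x' else 0)
      ≤ (r ^ S.card) ^ 2 * ∑ x, f x)
    {m₀ : ℕ} (hI : I.card + m₀ ≤ H + 1) (hlr : l * r ≤ 1) (hIH : I.card ≤ H)
    {g : (ι → V → Fin H) → ℝ} (hg0 : ∀ y, 0 ≤ g y) (hg1 : ∀ y, g y ≤ 1)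
    (hgs : ∀ y, g y ≠ 0 → dens I (fun i => y i (α i)) = 0) :
    |∑ y, g y * ∑ x, f x * ell (comp y x)|
      ≤ (∑ x, f x) * (farE (Fintype.card ι) H m₀ (l * r) * ∑ y, g y
      + (4 * H : ℝ) ^ Fintype.card ι * (tailB (Fintype.card ι) H (Fintype.card V) l
        * (Fintype.card (ι → V → Fin H) : ℝ))) := by
  set K := Fintype.card ι with hK
  set F : ℝ := ∑ x, f x with hF
  have hF0 : 0 ≤ F := Finset.sum_nonneg (fun x _ => hf x)
  have hE0 : 0 ≤ farE K H m₀ (l * r) := by unfold farE; positivity
  have h1 : ∀ y, |g y * ∑ x, f x * ell (comp y x)| ≤ g y * (farE K H m₀ (l * r) * F)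
      + (if Good f I l y then 0 else (4 * H : ℝ) ^ K * F) := by
    intro y
    rw [abs_mul, abs_of_nonneg (hg0 y)]
    by_cases hgy : g y = 0
    · rw [hgy, zero_mul, zero_mul, zero_add]
      split_ifs
      · exact le_rfl
      · positivity
    by_cases hy : Good f I l y
    · rw [if_pos hy, add_zero]
      exact mul_le_mul_of_nonneg_left
        (piece_good_abs hH hf hsupp hr hl hdense hI hlr hy hIH (hgs y hgy)) (hg0 y)
    · rw [if_neg hy]
      have h2 : |∑ x, f x * ell (comp y x)| ≤ (4 * H : ℝ) ^ K * F := by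
        calc |∑ x, f x * ell (comp y x)| ≤ ∑ x, |f x * ell (comp y x)| :=
              Finset.abs_sum_le_sum_abs _ _
          _ ≤ ∑ x, (4 * H : ℝ) ^ K * f x := by
              apply Finset.sum_le_sum
              intro x _
              rw [abs_mul, abs_of_nonneg (hf x), mul_comm]
              exact mul_le_mul_of_nonneg_right (ell_abs_le hH _) (hf x)
          _ = _ := by rw [← Finset.mul_sum]
      have h4 : 0 ≤ (4 * H : ℝ) ^ K * F := by positivity
      have h6 : g y * |∑ x, f x * ell (comp y x)| ≤ 1 * ((4 * H : ℝ) ^ K * F) :=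
        mul_le_mul (hg1 y) h2 (abs_nonneg _) zero_le_one
      have h7 : 0 ≤ g y * (farE K H m₀ (l * r) * F) :=
        mul_nonneg (hg0 y) (mul_nonneg hE0 hF0)
      linarith
  refine (Finset.abs_sum_le_sum_abs _ _).trans ((Finset.sum_le_sum (fun y _ => h1 y)).trans ?_)
  rw [Finset.sum_add_distrib, ← Finset.sum_mul]
  have h3 : ∑ y : ι → V → Fin H, (if Good f I l y then (0 : ℝ) else (4 * H : ℝ) ^ K * F)
      = ((Finset.univ.filter (fun y : ι → V → Fin H => ¬ Good f I l y)).card : ℝ)
        * ((4 * H : ℝ) ^ K * F) := by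
    rw [← nsmul_eq_mul, ← Finset.sum_const, Finset.sum_filter]
    apply Finset.sum_congr rfl
    intro y _
    by_cases hy : Good f I l y <;> simp [hy]
  rw [h3]
  have h4 := mul_le_mul_of_nonneg_right (bad_card hH hV f I l hl)
    (show 0 ≤ (4 * H : ℝ) ^ K * F by positivity)
  have h5 : tailB (Fintype.card ι) H (Fintype.card V) l * (Fintype.card (ι → V → Fin H) : ℝ)
      * ((4 * H : ℝ) ^ K * F)
      = F * ((4 * H : ℝ) ^ K * (tailB K H (Fintype.card V) l
        * (Fintype.card (ι → V → Fin H) : ℝ))) := by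
    rw [hK]; ring
  rw [h5] at h4
  have h6 : (∑ y, g y) * (farE K H m₀ (l * r) * F) = F * (farE K H m₀ (l * r) * ∑ y, g y) := by
    ring
  rw [h6]
  calc _ ≤ F * (farE K H m₀ (l * r) * ∑ y, g y) + F * ((4 * H : ℝ) ^ K *
        (tailB K H (Fintype.card V) l * (Fintype.card (ι → V → Fin H) : ℝ))) := by linarith
    _ = _ := by ring

/-- The pairing of the pseudo-density with a product function which forces a collision. -/
theorem restore_abs (hH : 1 ≤ H) (hV : 1 ≤ Fintype.card V) {r l : ℝ} (hr : 0 < r) (hr1 : r ≤ 1)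
    (hl : 0 ≤ l) {m₀ D : ℕ} (hD : D + m₀ ≤ H + 1) (hm₀ : 1 ≤ m₀) (hlr : l * r ≤ 1)
    (hrq : 1 ≤ r ^ 2 * Fintype.card V)
    {i₀ j₀ : ι} (hij : i₀ ≠ j₀) (a₀ b₀ : V)
    {g : (ι → V → Fin H) → ℝ} (hg0 : ∀ y, 0 ≤ g y) (hg1 : ∀ y, g y ≤ 1)
    (hgs : ∀ y, g y ≠ 0 → y i₀ a₀ = y j₀ b₀) :
    ∀ (M : ℕ) (f : (ι → V) → ℝ), (∀ x, 0 ≤ f x) → (∀ x, f x ≤ 1) →
      (∀ x, f x ≠ 0 → x i₀ = a₀ ∧ x j₀ = b₀) →
      (Finset.univ.filter (fun x => f x ≠ 0)).card ≤ M →
    |∑ y, g y * ∑ x, f x * ell (comp y x)| ≤
      ((∑ x, f x) * (farE (Fintype.card ι) H m₀ (l * r) * ∑ y, g y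
      + (4 * H : ℝ) ^ Fintype.card ι * (tailB (Fintype.card ι) H (Fintype.card V) l
        * (Fintype.card (ι → V → Fin H) : ℝ)))
      + (4 * H : ℝ) ^ Fintype.card ι * (∑ y, g y)
        * ((Fintype.card V : ℝ) ^ Fintype.card ι / (r ^ 2 * Fintype.card V) ^ D)) := by
  classical
  intro M
  set K := Fintype.card ι with hK
  set q : ℝ := (Fintype.card V : ℝ) with hq
  set Y : ℝ := (Fintype.card (ι → V → Fin H) : ℝ) with hY
  set A : ℝ := farE K H m₀ (l * r) * ∑ y, g y
      + (4 * H : ℝ) ^ K * (tailB K H (Fintype.card V) l * Y) with hA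
  have hq1 : 1 ≤ q := by rw [hq]; exact_mod_cast hV
  have hT0 : 0 ≤ tailB K H (Fintype.card V) l := by unfold tailB; positivity
  have hA0 : 0 ≤ A := by
    have h1 : 0 ≤ farE K H m₀ (l * r) := by unfold farE; positivity
    have h2 : 0 ≤ ∑ y, g y := Finset.sum_nonneg (fun y _ => hg0 y)
    have h3 : 0 ≤ Y := by positivity
    positivity
  have hrq0 : 0 < r ^ 2 * q := by positivity
  induction M with
  | zero =>
    intro f hf0 _ _ hM
    have hz : ∀ x, f x = 0 := by
      intro x
      by_contra hx
      have h1 : x ∈ Finset.univ.filter (fun x => f x ≠ 0) :=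
        Finset.mem_filter.2 ⟨Finset.mem_univ _, hx⟩
      have h2 := Finset.card_pos.2 ⟨x, h1⟩
      omega
    simp only [hz, Finset.sum_const_zero, zero_mul, mul_zero, zero_add, abs_zero]
    have h2 : 0 ≤ ∑ y, g y := Finset.sum_nonneg (fun y _ => hg0 y)
    positivity
  | succ M ih =>
    intro f hf0 hf1 hfs hM
    have hF0 : 0 ≤ ∑ x, f x := Finset.sum_nonneg (fun x _ => hf0 x)
    have hG : 0 ≤ ∑ y, g y := Finset.sum_nonneg (fun y _ => hg0 y)
    by_cases hsmall : ∑ x, f x ≤ q ^ K / (r ^ 2 * q) ^ D
    · -- small total mass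
      have h1 : ∀ y : ι → V → Fin H, |g y * ∑ x, f x * ell (comp y x)|
          ≤ g y * ((4 * H : ℝ) ^ K * ∑ x, f x) := by
        intro y
        have h2 : |∑ x, f x * ell (comp y x)| ≤ (4 * H : ℝ) ^ K * ∑ x, f x := by
          calc |∑ x, f x * ell (comp y x)| ≤ ∑ x, |f x * ell (comp y x)| :=
                Finset.abs_sum_le_sum_abs _ _
            _ ≤ ∑ x, (4 * H : ℝ) ^ K * f x := by
                apply Finset.sum_le_sum
                intro x _
                rw [abs_mul, abs_of_nonneg (hf0 x), mul_comm]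
                exact mul_le_mul_of_nonneg_right (ell_abs_le hH _) (hf0 x)
            _ = _ := by rw [← Finset.mul_sum]
        rw [abs_mul, abs_of_nonneg (hg0 y)]
        exact mul_le_mul_of_nonneg_left h2 (hg0 y)
      refine (Finset.abs_sum_le_sum_abs _ _).trans ((Finset.sum_le_sum (fun y _ => h1 y)).trans ?_)
      rw [← Finset.sum_mul]
      have h3 : (4 * H : ℝ) ^ K * (∑ y, g y) * ∑ x, f x
          ≤ (4 * H : ℝ) ^ K * (∑ y, g y) * (q ^ K / (r ^ 2 * q) ^ D) :=
        mul_le_mul_of_nonneg_left hsmall (by positivity)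
      have h4 : 0 ≤ (∑ x, f x) * A := mul_nonneg hF0 hA0
      have h5 : (∑ y, g y) * ((4 * H : ℝ) ^ K * ∑ x, f x)
          = (4 * H : ℝ) ^ K * (∑ y, g y) * ∑ x, f x := by ring
      rw [h5]
      linarith
    · push Not at hsmall
      have hFpos : 0 < ∑ x, f x := lt_of_le_of_lt (by positivity) hsmall
      -- the maximal set of fixed coordinates
      set Pr : Finset ι → Prop := fun I => i₀ ∈ I ∧ j₀ ∈ I ∧ ∃ α : ι → V,
        (r ^ I.card) ^ 2 * ∑ x, f x ≤ ∑ x, (if (∀ i ∈ I, x i = α i) then f x else 0) with hPr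
      have hne : (Finset.univ.filter (fun I : Finset ι => Pr I)).Nonempty := by
        refine ⟨{i₀, j₀}, Finset.mem_filter.2 ⟨Finset.mem_univ _, by simp, by simp,
          fun i => if i = i₀ then a₀ else b₀, ?_⟩⟩
        have h1 : ∑ x, (if (∀ i ∈ ({i₀, j₀} : Finset ι), x i = (if i = i₀ then a₀ else b₀))
            then f x else 0) = ∑ x, f x := by
          apply Finset.sum_congr rfl
          intro x _
          by_cases hx : f x = 0
          · rw [hx]; split_ifs <;> rfl
          · rw [if_pos]
            obtain ⟨h2, h3⟩ := hfs x hx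
            intro i hi
            rw [Finset.mem_insert, Finset.mem_singleton] at hi
            rcases hi with rfl | rfl
            · rw [if_pos rfl]; exact h2
            · rw [if_neg (Ne.symm hij)]; exact h3
        rw [h1]
        have h2 : (r ^ ({i₀, j₀} : Finset ι).card) ^ 2 ≤ 1 := by
          have h3 : r ^ ({i₀, j₀} : Finset ι).card ≤ 1 := pow_le_one₀ hr.le hr1
          exact pow_le_one₀ (by positivity) h3
        calc _ ≤ 1 * ∑ x, f x := mul_le_mul_of_nonneg_right h2 hF0
          _ = _ := one_mul _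
      obtain ⟨I, hI, hmax⟩ := Finset.exists_max_image _ Finset.card hne
      obtain ⟨hi₀, hj₀, α, hα⟩ := (Finset.mem_filter.1 hI).2
      set f₁ : (ι → V) → ℝ := fun x => if (∀ i ∈ I, x i = α i) then f x else 0 with hf₁
      set f₂ : (ι → V) → ℝ := fun x => if (∀ i ∈ I, x i = α i) then 0 else f x with hf₂
      have hf₁0 : ∀ x, 0 ≤ f₁ x := by
        intro x; simp only [hf₁]; split_ifs; exacts [hf0 x, le_rfl]
      have hf₂0 : ∀ x, 0 ≤ f₂ x := by
        intro x; simp only [hf₂]; split_ifs; exacts [le_rfl, hf0 x]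
      have hf₂1 : ∀ x, f₂ x ≤ 1 := by
        intro x; simp only [hf₂]; split_ifs; exacts [zero_le_one, hf1 x]
      have hf₂s : ∀ x, f₂ x ≠ 0 → x i₀ = a₀ ∧ x j₀ = b₀ := by
        intro x hx
        apply hfs
        intro h
        apply hx
        simp only [hf₂, h, ite_self]
      have hadd : ∀ x, f x = f₁ x + f₂ x := by
        intro x; simp only [hf₁, hf₂]; split_ifs <;> simp
      have hα' : (r ^ I.card) ^ 2 * ∑ x, f x ≤ ∑ x, f₁ x := hα
      have hF₁pos : 0 < ∑ x, f₁ x := lt_of_lt_of_le (by positivity) hα'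
      obtain ⟨x₁, _, hx₁⟩ : ∃ x ∈ (Finset.univ : Finset (ι → V)), f₁ x ≠ 0 := by
        by_contra hcon
        push Not at hcon
        rw [Finset.sum_eq_zero hcon] at hF₁pos
        exact lt_irrefl _ hF₁pos
      have hx₁I : ∀ i ∈ I, x₁ i = α i := by
        by_contra hcon
        apply hx₁
        simp only [hf₁]
        rw [if_neg hcon]
      have hαab : α i₀ = a₀ ∧ α j₀ = b₀ := by
        have h1 : f x₁ ≠ 0 := by
          intro h
          apply hx₁
          simp only [hf₁, h, ite_self]
        obtain ⟨h2, h3⟩ := hfs x₁ h1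
        rw [← hx₁I i₀ hi₀, ← hx₁I j₀ hj₀]
        exact ⟨h2, h3⟩
      -- the size of I
      have hIc : I.card < D := by
        by_contra hcon
        push Not at hcon
        have h1 : ∑ x, f₁ x ≤ ((Finset.univ.filter
            (fun x : ι → V => ∀ i ∈ I, x i = α i)).card : ℝ) := by
          rw [← mul_one ((Finset.card _ : ℕ) : ℝ), ← nsmul_eq_mul, ← Finset.sum_const,
            Finset.sum_filter]
          apply Finset.sum_le_sum
          intro x _
          simp only [hf₁]
          split_ifs
          · exact hf1 x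
          · exact le_rfl
        have h2 : ((Finset.univ.filter (fun x : ι → V => ∀ i ∈ I, x i = α i)).card : ℝ)
            * q ^ I.card = q ^ K := by
          rw [hq, hK]
          exact_mod_cast card_fix I α
        have h3 : (r ^ I.card) ^ 2 * (∑ x, f x) * q ^ I.card ≤ q ^ K := by
          rw [← h2]
          exact mul_le_mul_of_nonneg_right (hα'.trans h1) (by positivity)
        have h4 : (r ^ 2 * q) ^ I.card * ∑ x, f x ≤ q ^ K := by
          calc (r ^ 2 * q) ^ I.card * ∑ x, f x = (r ^ I.card) ^ 2 * (∑ x, f x) * q ^ I.card := by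
                rw [mul_pow]; ring
            _ ≤ _ := h3
        have h5 : (r ^ 2 * q) ^ D ≤ (r ^ 2 * q) ^ I.card := pow_le_pow_right₀ hrq hcon
        have h6 : (r ^ 2 * q) ^ D * ∑ x, f x ≤ q ^ K :=
          (mul_le_mul_of_nonneg_right h5 hF0).trans h4
        have h7 : ∑ x, f x ≤ q ^ K / (r ^ 2 * q) ^ D := by
          rw [le_div_iff₀ (by positivity), mul_comm]
          exact h6
        exact absurd h7 (not_le.2 hsmall)
      -- density
      have hdense : ∀ S ⊆ Iᶜ, ∀ x₀ : ι → V,
          (∑ x', if (∀ i ∈ S, x' i = x₀ i) then f₁ x' else 0) ≤ (r ^ S.card) ^ 2 * ∑ x, f₁ x := by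
        intro S hS x₀
        rcases S.eq_empty_or_nonempty with rfl | hSne
        · simp
        · by_contra hcon
          push Not at hcon
          have hd : Disjoint I S := by
            rw [Finset.disjoint_left]
            intro i hi hi'
            have := hS hi'
            rw [Finset.mem_compl] at this
            exact this hi
          have hP : Pr (I ∪ S) := by
            refine ⟨Finset.mem_union_left _ hi₀, Finset.mem_union_left _ hj₀,
              fun i => if i ∈ I then α i else x₀ i, ?_⟩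
            have e1 : ∀ x' : ι → V, (if (∀ i ∈ I ∪ S, x' i = if i ∈ I then α i else x₀ i)
                then f x' else 0) = (if (∀ i ∈ S, x' i = x₀ i) then f₁ x' else 0) := by
              intro x'
              have e2 : (∀ i ∈ I ∪ S, x' i = if i ∈ I then α i else x₀ i)
                  ↔ (∀ i ∈ S, x' i = x₀ i) ∧ (∀ i ∈ I, x' i = α i) := by
                constructor
                · intro h
                  refine ⟨fun i hi => ?_, fun i hi => ?_⟩
                  · have hiI : i ∉ I := fun h' => Finset.disjoint_left.1 hd h' hi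
                    have := h i (Finset.mem_union_right _ hi)
                    rwa [if_neg hiI] at this
                  · have := h i (Finset.mem_union_left _ hi)
                    rwa [if_pos hi] at this
                · rintro ⟨h1, h2⟩ i hi
                  split_ifs with hiI
                  · exact h2 i hiI
                  · rcases Finset.mem_union.1 hi with h | h
                    · exact absurd h hiI
                    · exact h1 i h
              simp only [e2, hf₁]
              by_cases hS' : ∀ i ∈ S, x' i = x₀ i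
              · by_cases hI' : ∀ i ∈ I, x' i = α i
                · rw [if_pos ⟨hS', hI'⟩, if_pos hS', if_pos hI']
                · rw [if_neg (fun h => hI' h.2), if_pos hS', if_neg hI']
              · rw [if_neg (fun h => hS' h.1), if_neg hS']
            rw [Finset.sum_congr rfl (fun x' _ => e1 x')]
            rw [Finset.card_union_of_disjoint hd]
            calc (r ^ (I.card + S.card)) ^ 2 * ∑ x, f x
                = (r ^ S.card) ^ 2 * ((r ^ I.card) ^ 2 * ∑ x, f x) := by rw [pow_add]; ring
              _ ≤ (r ^ S.card) ^ 2 * ∑ x, f₁ x := mul_le_mul_of_nonneg_left hα' (by positivity)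
              _ ≤ _ := hcon.le
          have h1 := hmax (I ∪ S) (Finset.mem_filter.2 ⟨Finset.mem_univ _, hP⟩)
          rw [Finset.card_union_of_disjoint hd] at h1
          have := Finset.card_pos.2 hSne
          omega
      have hpiece := piece_bound_abs (V := V) hH hV hf₁0 (I := I) (α := α)
        (by
          intro x hx i hi
          simp only [hf₁] at hx
          by_contra hcon
          apply hx
          rw [if_neg]
          intro h
          exact hcon (h i hi))
        hr.le hl hdense (m₀ := m₀) (by omega) hlr (by omega) hg0 hg1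
        (by
          intro y hy
          unfold dens
          rw [if_neg]
          intro hinj
          apply hij
          apply hinj (Finset.mem_coe.2 hi₀) (Finset.mem_coe.2 hj₀)
          simp only [hαab.1, hαab.2]
          exact hgs y hy)
      have hrest := ih f₂ hf₂0 hf₂1 hf₂s (by
        have hsub : (Finset.univ.filter (fun x => f₂ x ≠ 0))
            ⊂ (Finset.univ.filter (fun x => f x ≠ 0)) := by
          rw [Finset.ssubset_iff_of_subset]
          · refine ⟨x₁, ?_, ?_⟩
            · refine Finset.mem_filter.2 ⟨Finset.mem_univ _, ?_⟩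
              intro h
              apply hx₁
              simp only [hf₁, h, ite_self]
            · intro h
              have h' := (Finset.mem_filter.1 h).2
              apply h'
              simp only [hf₂]
              rw [if_pos hx₁I]
          · intro x hx
            have hx' := (Finset.mem_filter.1 hx).2
            refine Finset.mem_filter.2 ⟨Finset.mem_univ _, ?_⟩
            intro h
            apply hx'
            simp only [hf₂, h, ite_self]
        have := Finset.card_lt_card hsub
        omega)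
      have hsumF : ∑ x, f x = ∑ x, f₁ x + ∑ x, f₂ x := by
        rw [← Finset.sum_add_distrib]
        exact Finset.sum_congr rfl (fun x _ => hadd x)
      have hsumL : ∑ y, g y * ∑ x, f x * ell (comp y x)
          = ∑ y, g y * ∑ x, f₁ x * ell (comp y x) + ∑ y, g y * ∑ x, f₂ x * ell (comp y x) := by
        rw [← Finset.sum_add_distrib]
        apply Finset.sum_congr rfl
        intro y _
        rw [← mul_add, ← Finset.sum_add_distrib]
        congr 1
        apply Finset.sum_congr rfl
        intro x _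
        rw [hadd x]; ring
      rw [hsumL, hsumF]
      refine (abs_add_le _ _).trans ?_
      have e : (∑ x, f₁ x + ∑ x, f₂ x) * A = (∑ x, f₁ x) * A + (∑ x, f₂ x) * A := by ring
      rw [e]
      linarith

end Pool.Agent.TH689.LX
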