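import Mathlib
import Pool.Agent.TH689.LXRestore

/-!
The pairing of the pseudo-density with arbitrary product functions, refined error terms.
-/

set_option autoImplicit false
set_option linter.unusedSectionVars false

namespace Pool.Agent.TH689.LX

open Finset

variable {ι V : Type*} [Fintype ι] [DecidableEq ι] [Fintype V] [DecidableEq V] {H : ℕ}

/-- The pairing of the pseudo-density with a product function. -/
theorem restore_two (hH : 1 ≤ H) (hV : 1 ≤ Fintype.card V) {r l : ℝ} (hr : 0 < r) (hl : 0 ≤ l)
    {m₀ D : ℕ} (hD : D + m₀ ≤ H + 1) (hm₀ : 1 ≤ m₀) (hlr : l * r ≤ 1)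
    (hsm : (1 + 2 * H * (l * r)) ^ Fintype.card ι ≤ 2)
    (hrq : 1 ≤ r ^ 2 * Fintype.card V)
    {g : (ι → V → Fin H) → ℝ} (hg0 : ∀ y, 0 ≤ g y) (hg1 : ∀ y, g y ≤ 1) :
    ∀ (M : ℕ) (f : (ι → V) → ℝ), (∀ x, 0 ≤ f x) → (∀ x, f x ≤ 1) →
      (Finset.univ.filter (fun x => f x ≠ 0)).card ≤ M →
    -((∑ x, f x) * (farE (Fintype.card ι) H m₀ (l * r) * ∑ y, g y
      + (4 * H : ℝ) ^ Fintype.card ι * (tailB (Fintype.card ι) H (Fintype.card V) l
        * (Fintype.card (ι → V → Fin H) : ℝ)))
      + (4 * H : ℝ) ^ Fintype.card ι * (∑ y, g y)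
        * ((Fintype.card V : ℝ) ^ Fintype.card ι / (r ^ 2 * Fintype.card V) ^ D))
      ≤ ∑ y, g y * ∑ x, f x * ell (comp y x) := by
  classical
  intro M
  set K := Fintype.card ι with hK
  set q : ℝ := (Fintype.card V : ℝ) with hq
  set Y : ℝ := (Fintype.card (ι → V → Fin H) : ℝ) with hY
  set A : ℝ := farE K H m₀ (l * r) * ∑ y, g y
      + (4 * H : ℝ) ^ K * (tailB K H (Fintype.card V) l * Y) with hA
  have hq1 : 1 ≤ q := by rw [hq]; exact_mod_cast hV
  have hT0 : 0 ≤ tailB K H (Fintype.card V) l := by unfold tailB; positivity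
  have hA0 : 0 ≤ A := by
    have h1 : 0 ≤ farE K H m₀ (l * r) := by unfold farE; positivity
    have h2 : 0 ≤ ∑ y, g y := Finset.sum_nonneg (fun y _ => hg0 y)
    have h3 : 0 ≤ Y := by positivity
    positivity
  have hrq0 : 0 < r ^ 2 * q := by positivity
  induction M with
  | zero =>
    intro f hf0 _ hM
    have hz : ∀ x, f x = 0 := by
      intro x
      by_contra hx
      have h1 : x ∈ Finset.univ.filter (fun x => f x ≠ 0) :=
        Finset.mem_filter.2 ⟨Finset.mem_univ _, hx⟩
      have h2 := Finset.card_pos.2 ⟨x, h1⟩
      omega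
    simp only [hz, Finset.sum_const_zero, zero_mul, mul_zero, zero_add]
    rw [neg_nonpos]
    have h2 : 0 ≤ ∑ y, g y := Finset.sum_nonneg (fun y _ => hg0 y)
    positivity
  | succ M ih =>
    intro f hf0 hf1 hM
    have hF0 : 0 ≤ ∑ x, f x := Finset.sum_nonneg (fun x _ => hf0 x)
    by_cases hsmall : ∑ x, f x ≤ q ^ K / (r ^ 2 * q) ^ D
    · -- small total mass
      have h1 : ∀ y : ι → V → Fin H, -(g y * ((4 * H : ℝ) ^ K * ∑ x, f x))
          ≤ g y * ∑ x, f x * ell (comp y x) := by
        intro y
        have h2 : |∑ x, f x * ell (comp y x)| ≤ (4 * H : ℝ) ^ K * ∑ x, f x := by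
          calc |∑ x, f x * ell (comp y x)| ≤ ∑ x, |f x * ell (comp y x)| :=
                Finset.abs_sum_le_sum_abs _ _
            _ ≤ ∑ x, (4 * H : ℝ) ^ K * f x := by
                apply Finset.sum_le_sum
                intro x _
                rw [abs_mul, abs_of_nonneg (hf0 x), mul_comm]
                exact mul_le_mul_of_nonneg_right (ell_abs_le hH _) (hf0 x)
            _ = _ := by rw [← Finset.mul_sum]
        have h3 := (abs_le.1 h2).1
        have h4 : 0 ≤ (4 * H : ℝ) ^ K * ∑ x, f x := by positivity
        have h5 : g y * (-((4 * H : ℝ) ^ K * ∑ x, f x)) ≤ g y * ∑ x, f x * ell (comp y x) :=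
          mul_le_mul_of_nonneg_left h3 (hg0 y)
        linarith
      have h2 := Finset.sum_le_sum (fun y (_ : y ∈ (Finset.univ : Finset (ι → V → Fin H))) => h1 y)
      rw [Finset.sum_neg_distrib, ← Finset.sum_mul] at h2
      refine le_trans ?_ h2
      have hG : 0 ≤ ∑ y, g y := Finset.sum_nonneg (fun y _ => hg0 y)
      have h3 : (4 * H : ℝ) ^ K * (∑ y, g y) * ∑ x, f x
          ≤ (4 * H : ℝ) ^ K * (∑ y, g y) * (q ^ K / (r ^ 2 * q) ^ D) :=
        mul_le_mul_of_nonneg_left hsmall (by positivity)
      have h4 : 0 ≤ (∑ x, f x) * A := mul_nonneg hF0 hA0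
      have h5 : (∑ y, g y) * ((4 * H : ℝ) ^ K * ∑ x, f x)
          = (4 * H : ℝ) ^ K * (∑ y, g y) * ∑ x, f x := by ring
      rw [h5]
      linarith
    · push Not at hsmall
      have hFpos : 0 < ∑ x, f x := lt_of_le_of_lt (by positivity) hsmall
      -- the maximal set of fixed coordinates
      set Pr : Finset ι → Prop := fun I => ∃ α : ι → V,
        (r ^ I.card) ^ 2 * ∑ x, f x ≤ ∑ x, (if (∀ i ∈ I, x i = α i) then f x else 0) with hPr
      have hne : (Finset.univ.filter (fun I : Finset ι => Pr I)).Nonempty := by
        obtain ⟨v₀⟩ : Nonempty V := Fintype.card_pos_iff.1 hV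
        refine ⟨∅, Finset.mem_filter.2 ⟨Finset.mem_univ _, fun _ => v₀, ?_⟩⟩
        simp
      obtain ⟨I, hI, hmax⟩ := Finset.exists_max_image _ Finset.card hne
      obtain ⟨α, hα⟩ := (Finset.mem_filter.1 hI).2
      set f₁ : (ι → V) → ℝ := fun x => if (∀ i ∈ I, x i = α i) then f x else 0 with hf₁
      set f₂ : (ι → V) → ℝ := fun x => if (∀ i ∈ I, x i = α i) then 0 else f x with hf₂
      have hf₁0 : ∀ x, 0 ≤ f₁ x := by
        intro x; simp only [hf₁]; split_ifs; exacts [hf0 x, le_rfl]
      have hf₂0 : ∀ x, 0 ≤ f₂ x := by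
        intro x; simp only [hf₂]; split_ifs; exacts [le_rfl, hf0 x]
      have hf₂1 : ∀ x, f₂ x ≤ 1 := by
        intro x; simp only [hf₂]; split_ifs; exacts [zero_le_one, hf1 x]
      have hadd : ∀ x, f x = f₁ x + f₂ x := by
        intro x; simp only [hf₁, hf₂]; split_ifs <;> simp
      have hα' : (r ^ I.card) ^ 2 * ∑ x, f x ≤ ∑ x, f₁ x := hα
      have hF₁pos : 0 < ∑ x, f₁ x := lt_of_lt_of_le (by positivity) hα'
      -- the size of I
      have hIc : I.card < D := by
        by_contra hcon
        push Not at hcon
        have h1 : ∑ x, f₁ x ≤ ((Finset.univ.filter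
            (fun x : ι → V => ∀ i ∈ I, x i = α i)).card : ℝ) := by
          rw [← mul_one ((Finset.card _ : ℕ) : ℝ), ← nsmul_eq_mul, ← Finset.sum_const,
            Finset.sum_filter]
          apply Finset.sum_le_sum
          intro x _
          simp only [hf₁]
          split_ifs
          · exact hf1 x
          · exact le_rfl
        have h2 : ((Finset.univ.filter (fun x : ι → V => ∀ i ∈ I, x i = α i)).card : ℝ)
            * q ^ I.card = q ^ K := by
          rw [hq, hK]
          exact_mod_cast card_fix I α
        have h3 : (r ^ I.card) ^ 2 * (∑ x, f x) * q ^ I.card ≤ q ^ K := by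
          rw [← h2]
          exact mul_le_mul_of_nonneg_right (hα'.trans h1) (by positivity)
        have h4 : (r ^ 2 * q) ^ I.card * ∑ x, f x ≤ q ^ K := by
          calc (r ^ 2 * q) ^ I.card * ∑ x, f x = (r ^ I.card) ^ 2 * (∑ x, f x) * q ^ I.card := by
                rw [mul_pow]; ring
            _ ≤ _ := h3
        have h5 : (r ^ 2 * q) ^ D ≤ (r ^ 2 * q) ^ I.card := pow_le_pow_right₀ hrq hcon
        have h6 : (r ^ 2 * q) ^ D * ∑ x, f x ≤ q ^ K :=
          (mul_le_mul_of_nonneg_right h5 hF0).trans h4
        have h7 : ∑ x, f x ≤ q ^ K / (r ^ 2 * q) ^ D := by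
          rw [le_div_iff₀ (by positivity), mul_comm]
          exact h6
        exact absurd h7 (not_le.2 hsmall)
      -- density
      have hdense : ∀ S ⊆ Iᶜ, ∀ x₀ : ι → V,
          (∑ x', if (∀ i ∈ S, x' i = x₀ i) then f₁ x' else 0) ≤ (r ^ S.card) ^ 2 * ∑ x, f₁ x := by
        intro S hS x₀
        rcases S.eq_empty_or_nonempty with rfl | hSne
        · simp
        · by_contra hcon
          push Not at hcon
          have hd : Disjoint I S := by
            rw [Finset.disjoint_left]
            intro i hi hi'
            have := hS hi'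
            rw [Finset.mem_compl] at this
            exact this hi
          have hP : Pr (I ∪ S) := by
            refine ⟨fun i => if i ∈ I then α i else x₀ i, ?_⟩
            have e1 : ∀ x' : ι → V, (if (∀ i ∈ I ∪ S, x' i = if i ∈ I then α i else x₀ i)
                then f x' else 0) = (if (∀ i ∈ S, x' i = x₀ i) then f₁ x' else 0) := by
              intro x'
              have e2 : (∀ i ∈ I ∪ S, x' i = if i ∈ I then α i else x₀ i)
                  ↔ (∀ i ∈ S, x' i = x₀ i) ∧ (∀ i ∈ I, x' i = α i) := by
                constructor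
                · intro h
                  refine ⟨fun i hi => ?_, fun i hi => ?_⟩
                  · have hiI : i ∉ I := fun h' => Finset.disjoint_left.1 hd h' hi
                    have := h i (Finset.mem_union_right _ hi)
                    rwa [if_neg hiI] at this
                  · have := h i (Finset.mem_union_left _ hi)
                    rwa [if_pos hi] at this
                · rintro ⟨h1, h2⟩ i hi
                  split_ifs with hiI
                  · exact h2 i hiI
                  · rcases Finset.mem_union.1 hi with h | h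
                    · exact absurd h hiI
                    · exact h1 i h
              simp only [e2, hf₁]
              by_cases hS' : ∀ i ∈ S, x' i = x₀ i
              · by_cases hI' : ∀ i ∈ I, x' i = α i
                · rw [if_pos ⟨hS', hI'⟩, if_pos hS', if_pos hI']
                · rw [if_neg (fun h => hI' h.2), if_pos hS', if_neg hI']
              · rw [if_neg (fun h => hS' h.1), if_neg hS']
            rw [Finset.sum_congr rfl (fun x' _ => e1 x')]
            rw [Finset.card_union_of_disjoint hd]
            calc (r ^ (I.card + S.card)) ^ 2 * ∑ x, f x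
                = (r ^ S.card) ^ 2 * ((r ^ I.card) ^ 2 * ∑ x, f x) := by rw [pow_add]; ring
              _ ≤ (r ^ S.card) ^ 2 * ∑ x, f₁ x := mul_le_mul_of_nonneg_left hα' (by positivity)
              _ ≤ _ := hcon.le
          have h1 := hmax (I ∪ S) (Finset.mem_filter.2 ⟨Finset.mem_univ _, hP⟩)
          rw [Finset.card_union_of_disjoint hd] at h1
          have := Finset.card_pos.2 hSne
          omega
      have hpiece := piece_bound (V := V) hH hV hf₁0 (I := I) (α := α)
        (by
          intro x hx i hi
          simp only [hf₁] at hx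
          by_contra hcon
          apply hx
          rw [if_neg]
          intro h
          exact hcon (h i hi))
        hr.le hl hdense (m₀ := m₀) (by omega) hlr hsm (by omega) hg0 hg1
      have hrest := ih f₂ hf₂0 hf₂1 (by
        obtain ⟨x₁, _, hx₁⟩ : ∃ x ∈ (Finset.univ : Finset (ι → V)), f₁ x ≠ 0 := by
          by_contra hcon
          push Not at hcon
          rw [Finset.sum_eq_zero hcon] at hF₁pos
          exact lt_irrefl _ hF₁pos
        have hsub : (Finset.univ.filter (fun x => f₂ x ≠ 0))
            ⊂ (Finset.univ.filter (fun x => f x ≠ 0)) := by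
          rw [Finset.ssubset_iff_of_subset]
          · refine ⟨x₁, ?_, ?_⟩
            · refine Finset.mem_filter.2 ⟨Finset.mem_univ _, ?_⟩
              intro h
              apply hx₁
              simp only [hf₁, h, ite_self]
            · intro h
              have h' := (Finset.mem_filter.1 h).2
              apply h'
              simp only [hf₂]
              rw [if_pos]
              by_contra hcon
              apply hx₁
              simp only [hf₁]
              rw [if_neg hcon]
          · intro x hx
            have hx' := (Finset.mem_filter.1 hx).2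
            refine Finset.mem_filter.2 ⟨Finset.mem_univ _, ?_⟩
            intro h
            apply hx'
            simp only [hf₂, h, ite_self]
        have := Finset.card_lt_card hsub
        omega)
      have hsumF : ∑ x, f x = ∑ x, f₁ x + ∑ x, f₂ x := by
        rw [← Finset.sum_add_distrib]
        exact Finset.sum_congr rfl (fun x _ => hadd x)
      have hsumL : ∑ y, g y * ∑ x, f x * ell (comp y x)
          = ∑ y, g y * ∑ x, f₁ x * ell (comp y x) + ∑ y, g y * ∑ x, f₂ x * ell (comp y x) := by
        rw [← Finset.sum_add_distrib]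
        apply Finset.sum_congr rfl
        intro y _
        rw [← mul_add, ← Finset.sum_add_distrib]
        congr 1
        apply Finset.sum_congr rfl
        intro x _
        rw [hadd x]; ring
      rw [hsumL, hsumF]
      have e : (∑ x, f₁ x + ∑ x, f₂ x) * A = (∑ x, f₁ x) * A + (∑ x, f₂ x) * A := by ring
      rw [e]
      linarith

end Pool.Agent.TH689.LX
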