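import Mathlib
import Pool.Agent.TH689.LXRank
import Pool.Agent.TH689.LYRestore
import Pool.Agent.TH689.LVPiece

/-!
Representations of constants with signed multiples of collisions.
-/

set_option autoImplicit false
set_option linter.unusedSectionVars false

namespace Pool.Agent.TH689.LX

open Finset

variable {K H : ℕ} {V : Type*} [Fintype V] [DecidableEq V]

/-- a nonnegative function of `y` times a nonnegative function of `x` -/
theorem pos_rank (hH : 1 ≤ H) (hV : 1 ≤ Fintype.card V) {r l : ℝ} (hr : 0 < r) (hl : 0 ≤ l)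
    {m₀ D : ℕ} (hD : D + m₀ ≤ H + 1) (hm₀ : 1 ≤ m₀) (hlr : l * r ≤ 1)
    (hsm : (1 + 2 * H * (l * r)) ^ K ≤ 2)
    (hrq : 1 ≤ r ^ 2 * Fintype.card V)
    (u : (Fin K → V → Fin H) → ℝ) (v : (Fin K → V) → ℝ) (hu : ∀ y, 0 ≤ u y) (hv : ∀ x, 0 ≤ v x)
    (hv1 : ∀ x, v x ≤ 1) {U : ℝ} (hU : ∀ y, u y ≤ U) :
    -((∑ x, v x) * (farE K H m₀ (l * r) * ∑ y, u y
      + U * ((4 * H : ℝ) ^ K * (tailB K H (Fintype.card V) l
        * (Fintype.card (Fin K → V → Fin H) : ℝ))))
      + (4 * H : ℝ) ^ K * (∑ y, u y)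
        * ((Fintype.card V : ℝ) ^ K / (r ^ 2 * Fintype.card V) ^ D))
      ≤ ∑ y, u y * ∑ x, v x * ell (comp y x) := by
  classical
  obtain ⟨v₀⟩ : Nonempty V := Fintype.card_pos_iff.1 hV
  have hneY : Nonempty (Fin K → V → Fin H) := ⟨fun _ _ => ⟨0, hH⟩⟩
  obtain ⟨y₀⟩ := hneY
  have hU0 : 0 ≤ U := (hu y₀).trans (hU y₀)
  rcases hU0.eq_or_lt with hU0' | hUpos
  · have hz : ∀ y, u y = 0 := fun y => le_antisymm ((hU y).trans hU0'.symm.le) (hu y)
    simp only [hz, Finset.sum_const_zero, zero_mul, mul_zero, ← hU0', add_zero, neg_zero, le_refl]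
  have h1 := restore_two (ι := Fin K) (V := V) hH hV hr hl hD hm₀ hlr
    (by rw [Fintype.card_fin]; exact hsm) hrq
    (g := fun y => u y / U) (fun y => div_nonneg (hu y) hUpos.le)
    (fun y => by rw [div_le_one hUpos]; exact hU y)
    (Finset.univ.filter (fun x => v x ≠ 0)).card v hv hv1 le_rfl
  rw [Fintype.card_fin] at h1
  have e1 : ∑ y, u y / U * ∑ x, v x * ell (comp y x)
      = (∑ y, u y * ∑ x, v x * ell (comp y x)) / U := by
    rw [Finset.sum_div]
    apply Finset.sum_congr rfl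
    intro y _
    ring
  have e3 : ∑ y, u y / U = (∑ y, u y) / U := by rw [Finset.sum_div]
  rw [e1, e3] at h1
  have h2 := mul_le_mul_of_nonneg_right h1 hUpos.le
  rw [div_mul_cancel₀ _ hUpos.ne'] at h2
  refine le_trans (le_of_eq ?_) h2
  field_simp

/-- a signed function of `y` times a nonnegative function of `x` which force a collision -/
theorem signed_rank (hH : 1 ≤ H) (hV : 1 ≤ Fintype.card V) {r l : ℝ} (hr : 0 < r) (hr1 : r ≤ 1)
    (hl : 0 ≤ l) {m₀ D : ℕ} (hD : D + m₀ ≤ H + 1) (hm₀ : 1 ≤ m₀) (hlr : l * r ≤ 1)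
    (hrq : 1 ≤ r ^ 2 * Fintype.card V)
    {i₀ j₀ : Fin K} (hij : i₀ ≠ j₀) (a₀ b₀ : V)
    (u : (Fin K → V → Fin H) → ℝ) (v : (Fin K → V) → ℝ) (hus : ∀ y, u y ≠ 0 → y i₀ a₀ = y j₀ b₀)
    (hv : ∀ x, 0 ≤ v x) (hv1 : ∀ x, v x ≤ 1) (hvs : ∀ x, v x ≠ 0 → x i₀ = a₀ ∧ x j₀ = b₀)
    {U : ℝ} (hU : ∀ y, |u y| ≤ U) :
    |∑ y, u y * ∑ x, v x * ell (comp y x)| ≤
      (∑ x, v x) * (farE K H m₀ (l * r) * ∑ y, |u y|
      + 2 * U * ((4 * H : ℝ) ^ K * (tailB K H (Fintype.card V) l
        * (Fintype.card (Fin K → V → Fin H) : ℝ))))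
      + (4 * H : ℝ) ^ K * (∑ y, |u y|)
        * ((Fintype.card V : ℝ) ^ K / (r ^ 2 * Fintype.card V) ^ D) := by
  classical
  obtain ⟨v₀⟩ : Nonempty V := Fintype.card_pos_iff.1 hV
  have hneY : Nonempty (Fin K → V → Fin H) := ⟨fun _ _ => ⟨0, hH⟩⟩
  obtain ⟨y₀⟩ := hneY
  have hU0 : 0 ≤ U := (abs_nonneg _).trans (hU y₀)
  rcases hU0.eq_or_lt with hU0' | hUpos
  · have hz : ∀ y, u y = 0 := fun y =>
      abs_eq_zero.1 (le_antisymm ((hU y).trans hU0'.symm.le) (abs_nonneg _))
    simp only [hz, Finset.sum_const_zero, zero_mul, mul_zero, ← hU0', add_zero, abs_zero, le_refl]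
  -- one sign
  have key : ∀ g : (Fin K → V → Fin H) → ℝ, (∀ y, 0 ≤ g y) → (∀ y, g y ≤ U) →
      (∀ y, g y ≠ 0 → y i₀ a₀ = y j₀ b₀) →
      |∑ y, g y * ∑ x, v x * ell (comp y x)| ≤
      (∑ x, v x) * (farE K H m₀ (l * r) * ∑ y, g y
      + U * ((4 * H : ℝ) ^ K * (tailB K H (Fintype.card V) l
        * (Fintype.card (Fin K → V → Fin H) : ℝ))))
      + (4 * H : ℝ) ^ K * (∑ y, g y)
        * ((Fintype.card V : ℝ) ^ K / (r ^ 2 * Fintype.card V) ^ D) := by
    intro g hg0 hgU hgs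
    have h1 := restore_abs (ι := Fin K) (V := V) hH hV hr hr1 hl hD hm₀ hlr hrq hij a₀ b₀
      (g := fun y => g y / U) (fun y => div_nonneg (hg0 y) hUpos.le)
      (fun y => by rw [div_le_one hUpos]; exact hgU y)
      (fun y hy => hgs y (by intro h; apply hy; simp only [h, zero_div]))
      (Finset.univ.filter (fun x => v x ≠ 0)).card v hv hv1 hvs le_rfl
    rw [Fintype.card_fin] at h1
    have e1 : ∑ y, g y / U * ∑ x, v x * ell (comp y x)
        = (∑ y, g y * ∑ x, v x * ell (comp y x)) / U := by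
      rw [Finset.sum_div]
      apply Finset.sum_congr rfl
      intro y _
      ring
    have e3 : ∑ y, g y / U = (∑ y, g y) / U := by rw [Finset.sum_div]
    rw [e1, e3, abs_div, abs_of_pos hUpos] at h1
    have h2 := mul_le_mul_of_nonneg_right h1 hUpos.le
    rw [div_mul_cancel₀ _ hUpos.ne'] at h2
    refine h2.trans (le_of_eq ?_)
    field_simp
  have hp := key (fun y => max (u y) 0) (fun y => le_max_right _ _)
    (fun y => max_le ((le_abs_self _).trans (hU y)) hU0)
    (fun y hy => hus y (by intro h; apply hy; simp [h]))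
  have hm := key (fun y => max (-u y) 0) (fun y => le_max_right _ _)
    (fun y => max_le ((neg_le_abs _).trans (hU y)) hU0)
    (fun y hy => hus y (by intro h; apply hy; simp [h]))
  have h1 : ∀ y, u y = max (u y) 0 - max (-u y) 0 := by
    intro y
    rcases le_total 0 (u y) with h | h
    · rw [max_eq_left h, max_eq_right (by linarith)]; ring
    · rw [max_eq_right h, max_eq_left (by linarith)]; ring
  have h2 : ∀ y, |u y| = max (u y) 0 + max (-u y) 0 := by
    intro y
    rcases le_total 0 (u y) with h | h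
    · rw [max_eq_left h, max_eq_right (by linarith), abs_of_nonneg h]; ring
    · rw [max_eq_right h, max_eq_left (by linarith), abs_of_nonpos h]; ring
  have h3 : ∑ y, u y * ∑ x, v x * ell (comp y x)
      = ∑ y, max (u y) 0 * ∑ x, v x * ell (comp y x)
        - ∑ y, max (-u y) 0 * ∑ x, v x * ell (comp y x) := by
    rw [← Finset.sum_sub_distrib]
    apply Finset.sum_congr rfl
    intro y _
    rw [← sub_mul, ← h1]
  have h4 : ∑ y, |u y| = ∑ y, max (u y) 0 + ∑ y, max (-u y) 0 := by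
    rw [← Finset.sum_add_distrib]
    exact Finset.sum_congr rfl (fun y _ => h2 y)
  rw [h3]
  refine (abs_sub _ _).trans ?_
  rw [h4]
  refine (add_le_add hp hm).trans (le_of_eq ?_)
  ring

/-- the indicator function of the values `e.2` at the blocks `e.1` -/
def hit (e : (Fin K × Fin K) × (V × V)) (x : Fin K → V) : ℝ :=
  if x e.1.1 = e.2.1 ∧ x e.1.2 = e.2.2 then 1 else 0

lemma hit_nonneg (e : (Fin K × Fin K) × (V × V)) (x : Fin K → V) : 0 ≤ hit e x := by
  unfold hit; split_ifs <;> norm_num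

lemma hit_le_one (e : (Fin K × Fin K) × (V × V)) (x : Fin K → V) : hit e x ≤ 1 := by
  unfold hit; split_ifs <;> norm_num

/-- representations of the constant `1` -/
theorem factor_bound_signed (hH : 2 ≤ H) (hV : 1 ≤ Fintype.card V) {r l : ℝ} (hr : 0 < r)
    (hr1 : r ≤ 1) (hl : 0 ≤ l) {m₀ D : ℕ} (hD : D + m₀ ≤ H + 1) (hm₀ : 1 ≤ m₀) (hlr : l * r ≤ 1)
    (hsm : (1 + 2 * H * (l * r)) ^ K ≤ 2)
    (hrq : 1 ≤ r ^ 2 * Fintype.card V) {B T : ℝ} {κ : Type} [Fintype κ]
    (w : κ → (Fin K → V) → ℝ) (hw0 : ∀ j x, 0 ≤ w j x) (hw1 : ∀ j x, w j x ≤ 1)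
    (lam : (Fin K × Fin K) × (V × V) → κ → (Fin K → V → Fin H) → ℝ)
    (hlam : ∀ e j y, lam e j y ≠ 0 → e.1.1 ≠ e.1.2 ∧ y e.1.1 e.2.1 = y e.1.2 e.2.2)
    (u : κ → (Fin K → V → Fin H) → ℝ) (hu : ∀ j y, 0 ≤ u j y)
    (hfac : ∀ y x, ∑ e, ∑ j, lam e j y * (w j x * hit e x) = 1 + ∑ j, u j y * w j x)
    (hmass : ∀ y, ∑ x, ∑ e, ∑ j, |lam e j y| * (w j x * hit e x)
      ≤ B * (Fintype.card (Fin K → V) : ℝ))
    (hsize : ∀ y, ∑ e, ∑ j, |lam e j y| + ∑ j, u j y ≤ T) :
    1 ≤ 2 * (B * farE K H m₀ (l * r))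
      + (2 * (Fintype.card ((Fin K × Fin K) × (V × V)) : ℝ) + 1) * Fintype.card κ
        * (T * ((4 * H : ℝ) ^ K * tailB K H (Fintype.card V) l))
      + T * ((4 * H : ℝ) ^ K * (1 / (r ^ 2 * Fintype.card V) ^ D)) := by
  classical
  set Y : ℝ := (Fintype.card (Fin K → V → Fin H) : ℝ) with hY
  set X : ℝ := (Fintype.card (Fin K → V) : ℝ) with hX
  obtain ⟨v₀⟩ : Nonempty V := Fintype.card_pos_iff.1 hV
  have hneX : Nonempty (Fin K → V) := ⟨fun _ => v₀⟩
  have hneY : Nonempty (Fin K → V → Fin H) := ⟨fun _ _ => ⟨0, by omega⟩⟩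
  have hYpos : 0 < Y := by rw [hY]; exact_mod_cast Fintype.card_pos
  have hXpos : 0 < X := by rw [hX]; exact_mod_cast Fintype.card_pos
  have hXq : X = (Fintype.card V : ℝ) ^ K := by
    rw [hX, Fintype.card_fun, Fintype.card_fin]; push_cast; rfl
  have hfar0 : 0 ≤ farE K H m₀ (l * r) := by unfold farE; positivity
  have htail0 : 0 ≤ tailB K H (Fintype.card V) l := by unfold tailB; positivity
  set θ : ℝ := (4 * H : ℝ) ^ K * (tailB K H (Fintype.card V) l * Y) with hθ
  have hθ0 : 0 ≤ θ := by positivity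
  have hrqD : 0 < (r ^ 2 * (Fintype.card V : ℝ)) ^ D := by
    apply pow_pos
    exact lt_of_lt_of_le one_pos hrq
  set ρ : ℝ := (4 * H : ℝ) ^ K * ((Fintype.card V : ℝ) ^ K / (r ^ 2 * Fintype.card V) ^ D) with hρ
  have hρ0 : 0 ≤ ρ := by positivity
  have hT0 : 0 ≤ T := by
    obtain ⟨y⟩ := hneY
    refine le_trans ?_ (hsize y)
    apply add_nonneg
    · exact Finset.sum_nonneg (fun e _ => Finset.sum_nonneg (fun j _ => abs_nonneg _))
    · exact Finset.sum_nonneg (fun j _ => hu j y)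
  -- total pairing with 1
  have htot : ∑ y : Fin K → V → Fin H, ∑ x : Fin K → V, ell (comp y x) = X * Y := by
    rw [Finset.sum_comm]
    have h1 : ∀ x : Fin K → V, ∑ y : Fin K → V → Fin H, ell (comp y x) = Y := by
      intro x
      have h2 := sum_comp x (fun z : Fin K → Fin H => ell z)
      rw [sum_ell (by omega), Fintype.card_fin, Fintype.card_fin] at h2
      have hHK : (0 : ℝ) < (H : ℝ) ^ K := by
        apply pow_pos
        exact_mod_cast (by omega : 0 < H)
      have h3 : (H : ℝ) ^ K * ∑ y : Fin K → V → Fin H, ell (comp y x) = (H : ℝ) ^ K * Y := by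
        rw [h2]; ring
      exact mul_left_cancel₀ hHK.ne' h3
    rw [Finset.sum_congr rfl (fun x _ => h1 x), Finset.sum_const, Finset.card_univ, nsmul_eq_mul]
  -- the two sides
  set cp : ((Fin K × Fin K) × (V × V)) × κ → (Fin K → V → Fin H) → ℝ :=
    fun p y => lam p.1 p.2 y with hcp
  set vp : ((Fin K × Fin K) × (V × V)) × κ → (Fin K → V) → ℝ :=
    fun p x => w p.2 x * hit p.1 x with hvp
  have hvp0 : ∀ p x, 0 ≤ vp p x := fun p x => mul_nonneg (hw0 _ _) (hit_nonneg _ _)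
  have hvp1 : ∀ p x, vp p x ≤ 1 := fun p x =>
    mul_le_one₀ (hw1 _ _) (hit_nonneg _ _) (hit_le_one _ _)
  have hfac' : ∀ y x, ∑ p, cp p y * vp p x = 1 + ∑ j, u j y * w j x := by
    intro y x
    rw [← hfac y x, Fintype.sum_prod_type]
  have hmass' : ∀ y, ∑ x, ∑ p, |cp p y| * vp p x ≤ B * X := by
    intro y
    refine le_trans (le_of_eq ?_) (hmass y)
    apply Finset.sum_congr rfl
    intro x _
    rw [Fintype.sum_prod_type]
  have hsize' : ∀ y, ∑ p, |cp p y| + ∑ j, u j y ≤ T := by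
    intro y
    refine le_trans (le_of_eq ?_) (hsize y)
    rw [Fintype.sum_prod_type]
  have hmassu : ∀ y, ∑ x, ∑ j, u j y * w j x ≤ B * X := by
    intro y
    refine le_trans ?_ (hmass' y)
    apply Finset.sum_le_sum
    intro x _
    have h1 : ∑ j, u j y * w j x = ∑ p, cp p y * vp p x - 1 := by rw [hfac']; ring
    have h2 : ∑ p, cp p y * vp p x ≤ ∑ p, |cp p y| * vp p x := by
      apply Finset.sum_le_sum
      intro p _
      exact mul_le_mul_of_nonneg_right (le_abs_self _) (hvp0 p x)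
    linarith
  have hL : ∑ y : Fin K → V → Fin H, ∑ x : Fin K → V,
      (∑ p, cp p y * vp p x) * ell (comp y x)
      = ∑ p, ∑ y, cp p y * ∑ x, vp p x * ell (comp y x) := by
    rw [Finset.sum_comm (s := (Finset.univ : Finset (((Fin K × Fin K) × (V × V)) × κ)))]
    apply Finset.sum_congr rfl
    intro y _
    simp only [Finset.sum_mul, Finset.mul_sum]
    rw [Finset.sum_comm]
    apply Finset.sum_congr rfl
    intro p _
    apply Finset.sum_congr rfl
    intro x _
    ring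
  have hR : ∑ y : Fin K → V → Fin H, ∑ x : Fin K → V,
      (∑ p, cp p y * vp p x) * ell (comp y x)
      = X * Y + ∑ j, ∑ y, u j y * ∑ x, w j x * ell (comp y x) := by
    rw [← htot, Finset.sum_comm (s := (Finset.univ : Finset κ)), ← Finset.sum_add_distrib]
    apply Finset.sum_congr rfl
    intro y _
    have h1 : ∑ j, u j y * ∑ x, w j x * ell (comp y x)
        = ∑ x, (∑ j, u j y * w j x) * ell (comp y x) := by
      simp only [Finset.sum_mul, Finset.mul_sum]
      rw [Finset.sum_comm]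
      apply Finset.sum_congr rfl
      intro x _
      apply Finset.sum_congr rfl
      intro j _
      ring
    rw [h1, ← Finset.sum_add_distrib]
    apply Finset.sum_congr rfl
    intro x _
    rw [hfac' y x]
    ring
  have hsumv : ∀ v : (Fin K → V) → ℝ, (∀ x, v x ≤ 1) → ∑ x, v x ≤ X := by
    intro v hv
    calc ∑ x, v x ≤ ∑ _x : Fin K → V, (1 : ℝ) := Finset.sum_le_sum (fun x _ => hv x)
      _ = X := by rw [Finset.sum_const, Finset.card_univ, nsmul_eq_mul, mul_one]
  -- the left hand side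
  have hLp : ∀ p, ∑ y, cp p y * ∑ x, vp p x * ell (comp y x)
      ≤ farE K H m₀ (l * r) * ((∑ x, vp p x) * ∑ y, |cp p y|) + X * (2 * T * θ)
        + ρ * ∑ y, |cp p y| := by
    intro p
    have hE : 0 ≤ farE K H m₀ (l * r) * ((∑ x, vp p x) * ∑ y, |cp p y|) + X * (2 * T * θ)
        + ρ * ∑ y, |cp p y| := by
      have h1 : 0 ≤ ∑ x, vp p x := Finset.sum_nonneg (fun x _ => hvp0 p x)
      have h2 : 0 ≤ ∑ y, |cp p y| := Finset.sum_nonneg (fun y _ => abs_nonneg _)
      positivity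
    by_cases hp : p.1.1.1 = p.1.1.2
    · have hz : ∀ y, cp p y = 0 := by
        intro y
        by_contra hcon
        exact (hlam p.1 p.2 y hcon).1 hp
      simp only [hz, zero_mul, Finset.sum_const_zero] at hE ⊢
      exact hE
    · have h1 := signed_rank (K := K) (H := H) (V := V) (by omega) hV hr hr1 hl hD hm₀ hlr hrq
        (i₀ := p.1.1.1) (j₀ := p.1.1.2) hp p.1.2.1 p.1.2.2 (cp p) (vp p)
        (fun y hy => (hlam p.1 p.2 y hy).2) (hvp0 p) (hvp1 p)
        (by
          intro x hx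
          by_contra hcon
          apply hx
          simp only [hvp, hit]
          rw [if_neg hcon, mul_zero])
        (U := T) (fun y => by
          refine le_trans ?_ (hsize' y)
          have h2 : |cp p y| ≤ ∑ p, |cp p y| :=
            Finset.single_le_sum (f := fun p => |cp p y|) (fun p _ => abs_nonneg _)
              (Finset.mem_univ p)
          have h3 : 0 ≤ ∑ j, u j y := Finset.sum_nonneg (fun j _ => hu j y)
          linarith)
      refine (le_abs_self _).trans (h1.trans ?_)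
      have h2 : (∑ x, vp p x) * (2 * T * θ) ≤ X * (2 * T * θ) :=
        mul_le_mul_of_nonneg_right (hsumv _ (hvp1 p)) (by positivity)
      have e1 : (∑ x, vp p x) * (farE K H m₀ (l * r) * ∑ y, |cp p y|
          + 2 * T * ((4 * H : ℝ) ^ K * (tailB K H (Fintype.card V) l * Y)))
          + (4 * H : ℝ) ^ K * (∑ y, |cp p y|)
            * ((Fintype.card V : ℝ) ^ K / (r ^ 2 * Fintype.card V) ^ D)
          = farE K H m₀ (l * r) * ((∑ x, vp p x) * ∑ y, |cp p y|) + (∑ x, vp p x) * (2 * T * θ)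
            + ρ * ∑ y, |cp p y| := by
        rw [hθ, hρ]; ring
      rw [e1]
      linarith
  have hRj : ∀ j, -(farE K H m₀ (l * r) * ((∑ x, w j x) * ∑ y, u j y) + X * (T * θ)
        + ρ * ∑ y, u j y) ≤ ∑ y, u j y * ∑ x, w j x * ell (comp y x) := by
    intro j
    have h1 := pos_rank (K := K) (H := H) (V := V) (by omega) hV hr hl hD hm₀ hlr hsm hrq
      (u j) (w j) (hu j) (hw0 j) (hw1 j) (U := T) (fun y => by
          refine le_trans ?_ (hsize' y)
          have h2 : u j y ≤ ∑ j, u j y :=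
            Finset.single_le_sum (f := fun j => u j y) (fun j _ => hu j y) (Finset.mem_univ j)
          have h3 : 0 ≤ ∑ p, |cp p y| := Finset.sum_nonneg (fun j _ => abs_nonneg _)
          linarith)
    refine le_trans ?_ h1
    rw [neg_le_neg_iff]
    have h2 : (∑ x, w j x) * (T * θ) ≤ X * (T * θ) :=
      mul_le_mul_of_nonneg_right (hsumv _ (hw1 j)) (by positivity)
    have e1 : (∑ x, w j x) * (farE K H m₀ (l * r) * ∑ y, u j y
        + T * ((4 * H : ℝ) ^ K * (tailB K H (Fintype.card V) l * Y)))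
        + (4 * H : ℝ) ^ K * (∑ y, u j y)
          * ((Fintype.card V : ℝ) ^ K / (r ^ 2 * Fintype.card V) ^ D)
        = farE K H m₀ (l * r) * ((∑ x, w j x) * ∑ y, u j y) + (∑ x, w j x) * (T * θ)
          + ρ * ∑ y, u j y := by
      rw [hθ, hρ]; ring
    rw [e1]
    linarith
  have hLtot := Finset.sum_le_sum
    (fun p (_ : p ∈ (Finset.univ : Finset (((Fin K × Fin K) × (V × V)) × κ))) => hLp p)
  have hRtot := Finset.sum_le_sum (fun j (_ : j ∈ (Finset.univ : Finset κ)) => hRj j)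
  rw [← hL, hR, Finset.sum_add_distrib, Finset.sum_add_distrib, ← Finset.mul_sum, Finset.sum_const,
    Finset.card_univ, nsmul_eq_mul, ← Finset.mul_sum] at hLtot
  rw [Finset.sum_neg_distrib, Finset.sum_add_distrib, Finset.sum_add_distrib, ← Finset.mul_sum,
    Finset.sum_const, Finset.card_univ, nsmul_eq_mul, ← Finset.mul_sum] at hRtot
  -- the masses
  have hm1 : ∑ p, (∑ x, vp p x) * ∑ y, |cp p y| ≤ B * X * Y := by
    have h1 : ∑ p, (∑ x, vp p x) * ∑ y, |cp p y|
        = ∑ y : Fin K → V → Fin H, ∑ x, ∑ p, |cp p y| * vp p x := by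
      rw [Finset.sum_congr rfl (fun y _ => Finset.sum_comm), Finset.sum_comm]
      apply Finset.sum_congr rfl
      intro p _
      rw [mul_comm, Finset.sum_mul]
      apply Finset.sum_congr rfl
      intro y _
      rw [Finset.mul_sum]
    rw [h1]
    calc ∑ y : Fin K → V → Fin H, ∑ x, ∑ p, |cp p y| * vp p x
        ≤ ∑ _y : Fin K → V → Fin H, B * X := Finset.sum_le_sum (fun y _ => hmass' y)
      _ = _ := by rw [Finset.sum_const, Finset.card_univ, nsmul_eq_mul]; ring
  have hm2 : ∑ j, (∑ x, w j x) * ∑ y, u j y ≤ B * X * Y := by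
    have h1 : ∑ j, (∑ x, w j x) * ∑ y, u j y
        = ∑ y : Fin K → V → Fin H, ∑ x, ∑ j, u j y * w j x := by
      rw [Finset.sum_congr rfl (fun y _ => Finset.sum_comm), Finset.sum_comm]
      apply Finset.sum_congr rfl
      intro p _
      rw [mul_comm, Finset.sum_mul]
      apply Finset.sum_congr rfl
      intro y _
      rw [Finset.mul_sum]
    rw [h1]
    calc ∑ y : Fin K → V → Fin H, ∑ x, ∑ j, u j y * w j x
        ≤ ∑ _y : Fin K → V → Fin H, B * X := Finset.sum_le_sum (fun y _ => hmassu y)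
      _ = _ := by rw [Finset.sum_const, Finset.card_univ, nsmul_eq_mul]; ring
  have hs1 : ∑ p, ∑ y, |cp p y| + ∑ j, ∑ y, u j y ≤ Y * T := by
    rw [Finset.sum_comm, Finset.sum_comm (s := (Finset.univ : Finset κ)),
      ← Finset.sum_add_distrib]
    calc ∑ y : Fin K → V → Fin H, (∑ p, |cp p y| + ∑ j, u j y)
        ≤ ∑ _y : Fin K → V → Fin H, T := Finset.sum_le_sum (fun y _ => hsize' y)
      _ = _ := by rw [Finset.sum_const, Finset.card_univ, nsmul_eq_mul]
  have hm1' := mul_le_mul_of_nonneg_left hm1 hfar0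
  have hm2' := mul_le_mul_of_nonneg_left hm2 hfar0
  have hs1' := mul_le_mul_of_nonneg_left hs1 hρ0
  have hcardP : (Fintype.card (((Fin K × Fin K) × (V × V)) × κ) : ℝ)
      = (Fintype.card ((Fin K × Fin K) × (V × V)) : ℝ) * Fintype.card κ := by
    rw [Fintype.card_prod]; push_cast; rfl
  rw [hcardP] at hLtot
  have hfinal : X * Y ≤ (2 * (B * farE K H m₀ (l * r))
      + (2 * (Fintype.card ((Fin K × Fin K) × (V × V)) : ℝ) + 1) * Fintype.card κ
        * (T * ((4 * H : ℝ) ^ K * tailB K H (Fintype.card V) l))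
      + T * ((4 * H : ℝ) ^ K * (1 / (r ^ 2 * Fintype.card V) ^ D))) * (X * Y) := by
    have e : (2 * (B * farE K H m₀ (l * r))
      + (2 * (Fintype.card ((Fin K × Fin K) × (V × V)) : ℝ) + 1) * Fintype.card κ
        * (T * ((4 * H : ℝ) ^ K * tailB K H (Fintype.card V) l))
      + T * ((4 * H : ℝ) ^ K * (1 / (r ^ 2 * Fintype.card V) ^ D))) * (X * Y)
      = farE K H m₀ (l * r) * (B * X * Y) + farE K H m₀ (l * r) * (B * X * Y)
        + ((Fintype.card ((Fin K × Fin K) × (V × V)) : ℝ) * Fintype.card κ * (X * (2 * T * θ))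
        + Fintype.card κ * (X * (T * θ))) + ρ * (Y * T) := by
      rw [hθ, hρ, ← hXq]; ring
    rw [e]
    have e2 : ρ * (∑ p, ∑ y, |cp p y| + ∑ j, ∑ y, u j y)
        = ρ * ∑ p, ∑ y, |cp p y| + ρ * ∑ j, ∑ y, u j y := by ring
    rw [e2] at hs1'
    linarith
  have hXY : 0 < X * Y := mul_pos hXpos hYpos
  have h1 : 1 * (X * Y) ≤ _ := (one_mul (X * Y)).le.trans hfinal
  exact le_of_mul_le_mul_right h1 hXY

end Pool.Agent.TH689.LX
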