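import Mathlib
import Pool.Agent.TH689.LXCnf
import Pool.Agent.TH689.LVDefs
import Pool.Agent.TH689.LVRank

/-!
Static proofs for the formulas which say that no two blocks get the same colour.
-/

set_option autoImplicit false
set_option linter.unusedSectionVars false

namespace Pool.Agent.TH689.LX

open Finset Pool.Agent.H538R2.SB

variable {n K b H : ℕ}

/-- the assignment with given blocks; the other variables have the same values as in `z` -/
def glue (z : Asg n) (x : Fin K → Fin b → Bool) : Asg n := fun v =>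
  if hv : (v : ℕ) < K * b then
    x (finProdFinEquiv.symm ⟨v, hv⟩).1 (finProdFinEquiv.symm ⟨v, hv⟩).2 else z v

lemma blocks_glue (h : K * b ≤ n) (z : Asg n) (x : Fin K → Fin b → Bool) :
    blocks h (glue z x) = x := by
  funext i j
  unfold blocks glue pos
  have hv : ((Fin.castLE h (finProdFinEquiv (i, j)) : Fin n) : ℕ) < K * b := by
    rw [Fin.val_castLE]; exact (finProdFinEquiv (i, j)).2
  rw [dif_pos hv]
  have e : (⟨((Fin.castLE h (finProdFinEquiv (i, j)) : Fin n) : ℕ), hv⟩ : Fin (K * b))
      = finProdFinEquiv (i, j) := by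
    apply Fin.ext
    rfl
  rw [e, Equiv.symm_apply_apply]

lemma glue_blocks (h : K * b ≤ n) (z : Asg n) (x : Fin K → Fin b → Bool) :
    glue (glue z x) (blocks h z) = z := by
  funext v
  by_cases hv : (v : ℕ) < K * b
  · unfold glue blocks pos
    rw [dif_pos hv]
    congr 1
    apply Fin.ext
    rw [Fin.val_castLE, Prod.mk.eta, Equiv.apply_symm_apply]
  · unfold glue
    rw [dif_neg hv, dif_neg hv]

/-- averages over all assignments and over the blocks -/
lemma sum_glue (h : K * b ≤ n) (φ : Asg n → ℝ) :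
    ∑ z : Asg n, ∑ x : Fin K → Fin b → Bool, φ (glue z x)
      = (Fintype.card (Fin K → Fin b → Bool) : ℝ) * ∑ X, φ X := by
  let e : (Asg n × (Fin K → Fin b → Bool)) ≃ (Asg n × (Fin K → Fin b → Bool)) :=
    { toFun := fun p => (glue p.1 p.2, blocks h p.1)
      invFun := fun p => (glue p.1 p.2, blocks h p.1)
      left_inv := by
        rintro ⟨z, x⟩
        simp only [glue_blocks, blocks_glue]
      right_inv := by
        rintro ⟨z, x⟩
        simp only [glue_blocks, blocks_glue] }
  have h1 : ∑ p : Asg n × (Fin K → Fin b → Bool), φ (glue p.1 p.2)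
      = ∑ p : Asg n × (Fin K → Fin b → Bool), φ p.1 := by
    rw [← Equiv.sum_comp e (fun p => φ p.1)]
    rfl
  rw [Fintype.sum_prod_type, Fintype.sum_prod_type] at h1
  rw [h1, Finset.mul_sum]
  apply Finset.sum_congr rfl
  intro X _
  simp only
  rw [Finset.sum_const, Finset.card_univ, nsmul_eq_mul]

/-- some values of the other variables are not worse than the average -/
lemma exists_glue (h : K * b ≤ n) (φ : Asg n → ℝ) {B : ℝ} (hB : ∑ X, φ X ≤ B * 2 ^ n) :
    ∃ z : Asg n, ∑ x : Fin K → Fin b → Bool, φ (glue z x)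
      ≤ B * (Fintype.card (Fin K → Fin b → Bool) : ℝ) := by
  by_contra hcon
  push Not at hcon
  have h1 : ∑ _z : Asg n, B * (Fintype.card (Fin K → Fin b → Bool) : ℝ)
      < ∑ z : Asg n, ∑ x : Fin K → Fin b → Bool, φ (glue z x) :=
    Finset.sum_lt_sum_of_nonempty ⟨fun _ => false, Finset.mem_univ _⟩ (fun z _ => hcon z)
  rw [sum_glue h, Finset.sum_const, Finset.card_univ, nsmul_eq_mul, Fintype.card_fun,
    Fintype.card_bool, Fintype.card_fin] at h1
  push_cast at h1
  have h2 := mul_le_mul_of_nonneg_left hB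
    (show (0 : ℝ) ≤ (Fintype.card (Fin K → Fin b → Bool) : ℝ) by positivity)
  have h3 : ((Fintype.card (Fin K → Fin b → Bool) : ℕ) : ℝ) * (B * 2 ^ n)
      = 2 ^ n * (B * (Fintype.card (Fin K → Fin b → Bool) : ℝ)) := by ring
  linarith

lemma isFalse_cl (h : K * b ≤ n) (e : (Fin K × Fin K) × ((Fin b → Bool) × (Fin b → Bool)))
    (z : Asg n) (x : Fin K → Fin b → Bool) : isFalse (cl h e) (glue z x) = hit e x := by
  unfold isFalse hit
  have h1 := falseAt_cl h e (glue z x)
  rw [blocks_glue] at h1
  by_cases h2 : x e.1.1 = e.2.1 ∧ x e.1.2 = e.2.2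
  · rw [if_pos h2, if_pos (h1.2 h2)]
  · rw [if_neg h2, if_neg (fun h3 => h2 (h1.1 h3))]

open Classical in
/-- representatives of the clauses of the formula -/
noncomputable def reps (h : K * b ≤ n) (y : Fin K → (Fin b → Bool) → Fin H) :
    Finset ((Fin K × Fin K) × ((Fin b → Bool) × (Fin b → Bool))) :=
  (form h y).attach.image (fun C => Classical.choose (Finset.mem_image.1 C.2))

lemma mem_reps (h : K * b ≤ n) (y : Fin K → (Fin b → Bool) → Fin H)
    {e : (Fin K × Fin K) × ((Fin b → Bool) × (Fin b → Bool))} (he : e ∈ reps h y) :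
    e.1.1 ≠ e.1.2 ∧ y e.1.1 e.2.1 = y e.1.2 e.2.2 := by
  classical
  obtain ⟨C, _, rfl⟩ := Finset.mem_image.1 he
  have h1 := (Classical.choose_spec (Finset.mem_image.1 C.2)).1
  have h2 := (Finset.mem_filter.1 h1).2
  exact ⟨ne_of_lt h2.1, h2.2⟩

lemma sum_reps (h : K * b ≤ n) (y : Fin K → (Fin b → Bool) → Fin H) (φ : Clause n → ℝ) :
    ∑ e ∈ reps h y, φ (cl h e) = ∑ C ∈ form h y, φ C := by
  classical
  unfold reps
  rw [Finset.sum_image]
  · rw [← Finset.sum_attach (form h y)]
    apply Finset.sum_congr rfl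
    intro C _
    rw [(Classical.choose_spec (Finset.mem_image.1 C.2)).2]
  · intro C _ C' _ hCC'
    have h1 := (Classical.choose_spec (Finset.mem_image.1 C.2)).2
    have h2 := (Classical.choose_spec (Finset.mem_image.1 C'.2)).2
    apply Subtype.ext
    rw [← h1, ← h2]
    exact congrArg (cl h) hCC'

/-- the finite form of the lower bound -/
theorem signed_finite {N : ℕ} (hb : 0 < b) (hKb : K * b ≤ n) (hH : 2 ≤ H) {r l : ℝ}
    (hr : 0 < r) (hr1 : r ≤ 1) (hl : 0 ≤ l) {m₀ D : ℕ} (hD : D + m₀ ≤ H + 1) (hm₀ : 1 ≤ m₀)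
    (hlr : l * r ≤ 1) (hsm : (1 + 2 * H * (l * r)) ^ K ≤ 2)
    (hrq : 1 ≤ r ^ 2 * ((2 ^ b : ℕ) : ℝ)) {B T : ℝ}
    (G : Fin N → Asg n → ℝ) (hG0 : ∀ j x, 0 ≤ G j x) (hG1 : ∀ j x, G j x ≤ 1)
    (hrep : ∀ y : Fin K → (Fin b → Bool) → Fin H, ∃ (μ : Clause n → Fin N → ℝ) (u : Fin N → ℝ),
      (∀ j, 0 ≤ u j) ∧
      (∀ x, ∑ C ∈ form hKb y, ∑ j, μ C j * (G j x * isFalse C x) = 1 + ∑ j, u j * G j x) ∧
      (∑ x, ∑ C ∈ form hKb y, ∑ j, |μ C j| * (G j x * isFalse C x) ≤ B * 2 ^ n) ∧
      ∑ C ∈ form hKb y, ∑ j, |μ C j| + ∑ j, u j ≤ T) :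
    1 ≤ 2 * (B * farE K H m₀ (l * r))
      + (2 * ((K ^ 2 * (2 ^ b) ^ 2 : ℕ) : ℝ) + 1) * ((N * 2 ^ n : ℕ) : ℝ)
        * (T * ((4 * H : ℝ) ^ K * tailB K H (2 ^ b) l))
      + T * ((4 * H : ℝ) ^ K * (1 / (r ^ 2 * ((2 ^ b : ℕ) : ℝ)) ^ D)) := by
  classical
  have hq : Fintype.card (Fin b → Bool) = 2 ^ b := by
    rw [Fintype.card_fun, Fintype.card_bool, Fintype.card_fin]
  have hV : 1 ≤ Fintype.card (Fin b → Bool) := by rw [hq]; exact Nat.one_le_two_pow
  choose μ u hu hfac hmass hsize using hrep
  choose z hz using fun y => exists_glue (K := K) (b := b) hKb _ (hmass y)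
  -- the sum over the representatives
  have hsumE : ∀ (y : Fin K → (Fin b → Bool) → Fin H) (φ : Clause n → ℝ),
      ∑ e, (if e ∈ reps hKb y then φ (cl hKb e) else 0) = ∑ C ∈ form hKb y, φ C := by
    intro y φ
    rw [← sum_reps hKb y φ, Finset.sum_ite_mem, Finset.univ_inter]
  have hsumK : ∀ (y : Fin K → (Fin b → Bool) → Fin H) (φ : Fin N → Asg n → ℝ),
      ∑ k : Fin N × Asg n, (if k.2 = z y then φ k.1 k.2 else 0) = ∑ j, φ j (z y) := by
    intro y φ
    rw [Fintype.sum_prod_type]
    apply Finset.sum_congr rfl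
    intro j _
    rw [Finset.sum_ite_eq' Finset.univ (z y), if_pos (Finset.mem_univ _)]
  have hmain := factor_bound_signed (K := K) (H := H) (V := Fin b → Bool) hH hV hr hr1 hl hD hm₀
    hlr hsm (by rw [hq]; exact hrq) (B := B) (T := T) (κ := Fin N × Asg n)
    (fun k x => G k.1 (glue k.2 x)) (fun k x => hG0 _ _) (fun k x => hG1 _ _)
    (fun e k y => if e ∈ reps hKb y then (if k.2 = z y then μ y (cl hKb e) k.1 else 0) else 0)
    (by
      intro e k y hne
      by_cases he : e ∈ reps hKb y
      · exact mem_reps hKb y he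
      · exact absurd (if_neg he) hne)
    (fun k y => if k.2 = z y then u y k.1 else 0)
    (by
      intro k y
      split_ifs
      · exact hu y _
      · exact le_rfl)
    (by
      intro y x
      have h1 : ∑ j : Fin N × Asg n, (if j.2 = z y then u y j.1 else 0) * G j.1 (glue j.2 x)
          = ∑ j, u y j * G j (glue (z y) x) := by
        rw [← hsumK y (fun j z' => u y j * G j (glue z' x))]
        apply Finset.sum_congr rfl
        intro k _
        split_ifs
        · rfl
        · rw [zero_mul]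
      rw [h1, ← hfac y (glue (z y) x), ← hsumE y]
      apply Finset.sum_congr rfl
      intro e _
      by_cases he : e ∈ reps hKb y
      · simp only [if_pos he]
        rw [← hsumK y (fun j z' => μ y (cl hKb e) j * (G j (glue z' x)
          * isFalse (cl hKb e) (glue z' x)))]
        apply Finset.sum_congr rfl
        intro k _
        rw [isFalse_cl]
        split_ifs
        · rfl
        · rw [zero_mul]
      · simp only [if_neg he, zero_mul, Finset.sum_const_zero])
    (by
      intro y
      refine le_trans (le_of_eq ?_) (hz y)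
      apply Finset.sum_congr rfl
      intro x _
      rw [← hsumE y]
      apply Finset.sum_congr rfl
      intro e _
      by_cases he : e ∈ reps hKb y
      · simp only [if_pos he]
        rw [← hsumK y (fun j z' => |μ y (cl hKb e) j| * (G j (glue z' x)
          * isFalse (cl hKb e) (glue z' x)))]
        apply Finset.sum_congr rfl
        intro k _
        rw [isFalse_cl]
        split_ifs
        · rfl
        · rw [abs_zero, zero_mul]
      · simp only [if_neg he, abs_zero, zero_mul, Finset.sum_const_zero])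
    (by
      intro y
      refine le_trans (le_of_eq ?_) (hsize y)
      congr 1
      · rw [← hsumE y]
        apply Finset.sum_congr rfl
        intro e _
        by_cases he : e ∈ reps hKb y
        · simp only [if_pos he]
          rw [← hsumK y (fun j _ => |μ y (cl hKb e) j|)]
          apply Finset.sum_congr rfl
          intro k _
          split_ifs
          · rfl
          · rw [abs_zero]
        · simp only [if_neg he, abs_zero, Finset.sum_const_zero]
      · rw [← hsumK y (fun j _ => u y j)])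
  rw [hq] at hmain
  have e1 : (Fintype.card ((Fin K × Fin K) × ((Fin b → Bool) × (Fin b → Bool))))
      = K ^ 2 * (2 ^ b) ^ 2 := by
    simp only [Fintype.card_prod, Fintype.card_fin, hq]
    ring
  have e2 : Fintype.card (Fin N × Asg n) = N * 2 ^ n := by
    simp only [Asg, Fintype.card_prod, Fintype.card_fin, Fintype.card_fun, Fintype.card_bool]
  rw [e1, e2] at hmain
  exact hmain

end Pool.Agent.TH689.LX
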