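import Mathlib
import Pool.Agent.TH689.LXPiece

/-!
Numerical estimates for the choice of the parameters.
-/

set_option autoImplicit false

namespace Pool.Agent.TH689.RX

open Finset Pool.Agent.TH689.LX

/-- the parameters -/
structure Par (L n a b K m₀ g ν : ℕ) : Prop where
  hL : 8 ≤ L
  hg : 15 ≤ g
  hng : n < 2 ^ g
  hn : 256 * L ^ 2 ≤ n
  hb : b = 2 * L * a
  ha : 1920 ≤ a
  hag : 16 * L * g ≤ a
  hKb : K * b ≤ n
  hnK : n < b * (K + 1)
  hcb : 4 * (256 * L ^ 2) * b ≤ n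
  hm₀ : L * m₀ ≤ K
  hKL : K < L * (m₀ + 1)
  hν : 4 * ν ≤ a
  hν' : a < 4 * (ν + 1)

/-- inequalities between real numbers, with `i = 1 / L` -/
structure RPar (i n a b K m₀ g : ℝ) : Prop where
  i0 : 0 < i
  i1 : i ≤ 1 / 8
  n0 : 16384 ≤ n
  g15 : 15 ≤ g
  a0 : 1920 ≤ a
  ga : 128 * g ≤ a
  ab : 16 * a ≤ b
  K0 : 0 ≤ K
  m0 : 0 ≤ m₀
  bt : 1024 * b ≤ n * i ^ 2
  tL : 8 * (n * i ^ 2) ≤ n * i
  tn : n * i ^ 2 ≤ n
  aK1 : a * K ≤ (1 / 2) * (n * i)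
  aK2 : (1 / 2) * i * (n - b) ≤ a * K
  gK : g * K ≤ (1 / 16) * i * (a * K)
  bK : b * K ≤ n
  nKb : n - b ≤ b * K
  mK : m₀ ≤ K * i
  Km : K * i - 1 ≤ m₀
  iK : 1 ≤ K * i
  b2a : b - 2 * a = b * (1 - i)

lemma Par.toR {L n a b K m₀ g ν : ℕ} (h : Par L n a b K m₀ g ν) :
    RPar (1 / (L : ℝ)) n a b K m₀ g := by
  obtain ⟨hL, hg, hng, hn, hb, ha, hag, hKb, hnK, hcb, hm₀, hKL, hν, hν'⟩ := h
  have hLR : (8 : ℝ) ≤ L := by exact_mod_cast hL
  have hLR0 : (0 : ℝ) < L := by linarith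
  have hbR : (b : ℝ) = 2 * L * a := by rw [hb]; push_cast; ring
  have hnR0 : (0 : ℝ) ≤ n := by positivity
  have hK0 : (0 : ℝ) ≤ K := by positivity
  have hKbR : (K : ℝ) * b ≤ n := by exact_mod_cast hKb
  have hnKR : (n : ℝ) - b ≤ b * K := by
    have h3 : (n : ℝ) ≤ b * (K + 1) := by exact_mod_cast hnK.le
    linarith
  have hLsq : 64 ≤ L ^ 2 := by
    calc 64 = 8 ^ 2 := by norm_num
      _ ≤ L ^ 2 := Nat.pow_le_pow_left hL 2
  have hbn : 1024 * ((L : ℝ) ^ 2 * b) ≤ n := by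
    have h3 : ((4 * (256 * L ^ 2) * b : ℕ) : ℝ) ≤ n := by exact_mod_cast hcb
    have h4 : ((4 * (256 * L ^ 2) * b : ℕ) : ℝ) = 1024 * ((L : ℝ) ^ 2 * b) := by
      push_cast; ring
    linarith
  have h1L : 1 / (L : ℝ) ≤ 1 / 8 := one_div_le_one_div_of_le (by norm_num) hLR
  have h1L0 : 0 < 1 / (L : ℝ) := by positivity
  have h16384 : 16384 ≤ n := by omega
  have hag128 : 128 * g ≤ a := (Nat.mul_le_mul_right g (by omega)).trans hag
  have h16a : 16 * a ≤ b := by rw [hb]; exact Nat.mul_le_mul_right a (by omega)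
  have hbpos : 0 < b := by omega
  have hK4 : L ≤ K := by
    by_contra hcon
    push Not at hcon
    have h3 : b * (K + 1) ≤ b * L := Nat.mul_le_mul_left _ hcon
    have h4 : b * L ≤ 4 * (256 * L ^ 2) * b := by
      have : L ≤ L ^ 2 := Nat.le_self_pow (by norm_num) L
      calc b * L = L * b := by ring
        _ ≤ 4 * (256 * L ^ 2) * b := Nat.mul_le_mul_right _ (by omega)
    omega
  have hKR : (L : ℝ) ≤ K := by exact_mod_cast hK4
  have hLi : (L : ℝ) * (1 / L) = 1 := by field_simp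
  have haK : (a : ℝ) * K = (1 / 2) * (1 / L) * (b * K) := by
    rw [hbR]; field_simp
  refine ⟨h1L0, h1L, by exact_mod_cast h16384, by exact_mod_cast hg, by exact_mod_cast ha,
    by exact_mod_cast hag128, by exact_mod_cast h16a, hK0, by positivity, ?_, ?_, ?_, ?_, ?_, ?_,
    ?_, hnKR, ?_, ?_, ?_, ?_⟩
  · have h3 : (n : ℝ) * (1 / L) ^ 2 = n / L ^ 2 := by rw [one_div, inv_pow]; rfl
    rw [h3, le_div_iff₀ (by positivity)]
    linarith
  · have h3 : 8 * (1 / (L : ℝ)) ^ 2 ≤ 1 / L := by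
      have : 8 * (1 / (L : ℝ)) ^ 2 = (8 * (1 / L)) * (1 / L) := by ring
      rw [this]
      calc (8 * (1 / (L : ℝ))) * (1 / L) ≤ 1 * (1 / L) :=
            mul_le_mul_of_nonneg_right (by linarith) h1L0.le
        _ = _ := one_mul _
    calc 8 * ((n : ℝ) * (1 / (L : ℝ)) ^ 2) = (n : ℝ) * (8 * (1 / (L : ℝ)) ^ 2) := by ring
      _ ≤ (n : ℝ) * (1 / (L : ℝ)) := mul_le_mul_of_nonneg_left h3 hnR0
  · calc (n : ℝ) * (1 / (L : ℝ)) ^ 2 ≤ n * 1 := by
          apply mul_le_mul_of_nonneg_left _ hnR0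
          exact pow_le_one₀ h1L0.le (by linarith)
      _ = n := mul_one _
  · rw [haK]
    have h3 : (b : ℝ) * K ≤ n := by linarith
    calc (1 / 2) * (1 / (L : ℝ)) * (b * K) ≤ (1 / 2) * (1 / (L : ℝ)) * n :=
          mul_le_mul_of_nonneg_left h3 (by positivity)
      _ = _ := by ring
  · rw [haK]
    exact mul_le_mul_of_nonneg_left hnKR (by positivity)
  · have hagR : 16 * (L : ℝ) * g ≤ a := by exact_mod_cast hag
    have h3 : (g : ℝ) ≤ (1 / 16) * (1 / L) * a := by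
      have : (1 / 16) * (1 / (L : ℝ)) * (16 * L * g) = g := by field_simp
      rw [← this]
      exact mul_le_mul_of_nonneg_left hagR (by positivity)
    calc (g : ℝ) * K ≤ ((1 / 16) * (1 / L) * a) * K := mul_le_mul_of_nonneg_right h3 hK0
      _ = _ := by ring
  · linarith
  · rw [mul_one_div, le_div_iff₀ hLR0]
    have : (L : ℝ) * m₀ ≤ K := by exact_mod_cast hm₀
    linarith
  · have h6 : (K : ℝ) ≤ L * (m₀ + 1) := by exact_mod_cast hKL.le
    have h7 : (K : ℝ) * (1 / L) ≤ L * (m₀ + 1) * (1 / L) :=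
      mul_le_mul_of_nonneg_right h6 h1L0.le
    have h8 : (L : ℝ) * (m₀ + 1) * (1 / L) = m₀ + 1 := by field_simp
    linarith
  · have h10 : (L : ℝ) * (1 / L) ≤ K * (1 / L) := mul_le_mul_of_nonneg_right hKR h1L0.le
    linarith
  · rw [hbR]; field_simp

/-- the exponent of the far part -/
lemma RPar.far {i n a b K m₀ g : ℝ} (h : RPar i n a b K m₀ g) {ν : ℝ} (hν : 4 * ν ≤ a) :
    2 * g + ((K + (g + 2) * K) + (-((a - ν) * m₀))) ≤ -(n * i ^ 2 / 8) - 2 := by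
  obtain ⟨i0, i1, n0, g15, a0, ga, ab, K0, m0, bt, tL, tn, aK1, aK2, gK, bK, nKb, mK, Km, iK,
    b2a⟩ := h
  have h7 : (3 / 4) * a * (K * i - 1) ≤ (a - ν) * m₀ :=
    mul_le_mul (by linarith) Km (by linarith) (by linarith)
  have h8 : K + (g + 2) * K ≤ 2 * (g * K) := by
    have : 3 * K ≤ g * K := mul_le_mul_of_nonneg_right (by linarith) K0
    linarith
  have h9 : (3 / 4) * a * (K * i - 1) = (3 / 4) * i * (a * K) - (3 / 4) * a := by ring
  have h10 : (3 / 4) * i * (a * K) - 2 * (g * K) ≥ (5 / 8) * i * (a * K) := by linarith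
  have h11 : (5 / 8) * i * ((1 / 2) * i * (n - b)) ≤ (5 / 8) * i * (a * K) :=
    mul_le_mul_of_nonneg_left aK2 (by linarith)
  have h12 : (5 / 8) * i * ((1 / 2) * i * (n - b))
      = (5 / 16) * (n * i ^ 2) - (5 / 16) * (i ^ 2 * b) := by ring
  have h13 : i ^ 2 * b ≤ b := by
    have : i ^ 2 ≤ 1 := pow_le_one₀ i0.le (by linarith)
    calc i ^ 2 * b ≤ 1 * b := mul_le_mul_of_nonneg_right this (by linarith)
      _ = b := one_mul _
  linarith

/-- the exponent of the tail -/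
lemma RPar.tail {i n a b K m₀ g : ℝ} (h : RPar i n a b K m₀ g) {w x : ℝ}
    (hx : w + 16 * n ≤ x) :
    (w + 1) + (2 * g + (((g + 2) * K) + ((K + g * K)
      + ((1 + -x) + (g + (b + g) * K))))) ≤ -(n * i ^ 2 / 8) - 2 := by
  obtain ⟨i0, i1, n0, g15, a0, ga, ab, K0, m0, bt, tL, tn, aK1, aK2, gK, bK, nKb, mK, Km, iK,
    b2a⟩ := h
  have hgn : g * K ≤ n := by
    have h3 : g * K ≤ b * K := mul_le_mul_of_nonneg_right (by linarith) K0
    linarith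
  have h9 : 3 * K ≤ g * K := mul_le_mul_of_nonneg_right (by linarith) K0
  have h10 : g ≤ n := by linarith
  have e1 : (b + g) * K = b * K + g * K := by ring
  have e2 : (g + 2) * K = g * K + 2 * K := by ring
  rw [e1, e2]
  linarith

/-- the exponent of the main term -/
lemma RPar.main {i n a b K m₀ g : ℝ} (h : RPar i n a b K m₀ g) :
    (1 - 8 * i) * n + 2 ≤ -(n * i ^ 2 / 8) - 1
      - (2 * g + (((g + 2) * K) + -((b - 2 * a) * (K - 2 * m₀)))) := by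
  obtain ⟨i0, i1, n0, g15, a0, ga, ab, K0, m0, bt, tL, tn, aK1, aK2, gK, bK, nKb, mK, Km, iK,
    b2a⟩ := h
  have hb0 : 0 ≤ b := by linarith
  have hD1 : K * (1 - 2 * i) ≤ K - 2 * m₀ := by
    have : K * (1 - 2 * i) = K - 2 * (K * i) := by ring
    linarith
  have hbD : b * K * (1 - 3 * i) ≤ (b - 2 * a) * (K - 2 * m₀) := by
    rw [b2a]
    calc b * K * (1 - 3 * i) ≤ b * K * ((1 - i) * (1 - 2 * i)) := by
          apply mul_le_mul_of_nonneg_left _ (by positivity)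
          have : (1 - i) * (1 - 2 * i) = 1 - 3 * i + 2 * i ^ 2 := by ring
          rw [this]
          have : 0 ≤ 2 * i ^ 2 := by positivity
          linarith
      _ = b * (1 - i) * (K * (1 - 2 * i)) := by ring
      _ ≤ b * (1 - i) * (K - 2 * m₀) := by
          apply mul_le_mul_of_nonneg_left hD1
          apply mul_nonneg hb0
          linarith
  have hbK2 : (n - b) * (1 - 3 * i) ≤ b * K * (1 - 3 * i) :=
    mul_le_mul_of_nonneg_right nKb (by linarith)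
  have h3b : n * (1 - 3 * i) - b ≤ (n - b) * (1 - 3 * i) := by
    have : 0 ≤ b * (3 * i) := by positivity
    linarith
  have h9 : 3 * K ≤ g * K := mul_le_mul_of_nonneg_right (by linarith) K0
  have h10 : (1 / 16) * i * (a * K) ≤ 1 * (a * K) := by
    apply mul_le_mul_of_nonneg_right _ (mul_nonneg (by linarith) K0)
    linarith
  have e2 : (g + 2) * K = g * K + 2 * K := by ring
  have e3 : (1 - 8 * i) * n + 2 = n * (1 - 3 * i) - 5 * (n * i) + 2 := by ring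
  rw [e3, e2]
  linarith

lemma pow4H_le {H K g : ℕ} (hH : (H : ℝ) ≤ 2 ^ g) :
    (4 * (H : ℝ)) ^ K ≤ (2 : ℝ) ^ (((g : ℝ) + 2) * K : ℝ) := by
  have h3 : (4 * (H : ℝ)) ≤ 2 ^ (g + 2) := by
    rw [pow_add]; linarith
  calc (4 * (H : ℝ)) ^ K ≤ (2 ^ (g + 2)) ^ K := pow_le_pow_left₀ (by positivity) h3 _
    _ = (2 : ℝ) ^ (((g : ℝ) + 2) * K : ℝ) := by
        rw [← pow_mul, ← Real.rpow_natCast]
        congr 1
        push_cast
        ring

lemma Ksq_le {K g : ℕ} (hK : (K : ℝ) ≤ 2 ^ g) : (K : ℝ) ^ 2 ≤ (2 : ℝ) ^ (2 * (g : ℝ)) := by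
  calc (K : ℝ) ^ 2 ≤ (2 ^ g) ^ 2 := pow_le_pow_left₀ (by positivity) hK _
    _ = (2 : ℝ) ^ (2 * (g : ℝ)) := by
        rw [← pow_mul, ← Real.rpow_natCast]
        congr 1
        push_cast
        ring

lemma quarter (x : ℝ) : (2 : ℝ) ^ (x - 2 : ℝ) = (2 : ℝ) ^ x / 4 := by
  rw [Real.rpow_sub (by norm_num)]
  norm_num

/-- the far part -/
lemma far_num {a K H m₀ g ν : ℕ} {b n i : ℝ} (h : RPar i n a b K m₀ g) (hν : 4 * ν ≤ a)
    (hK : (K : ℝ) ≤ 2 ^ g) (hH : (H : ℝ) ≤ 2 ^ g) {t : ℝ} (ht : t = (1 / 2 : ℝ) ^ (a - ν)) :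
    (K : ℝ) ^ 2 * farE K H m₀ t ≤ (2 : ℝ) ^ (-(n * i ^ 2 / 8)) / 4 := by
  have h3 : t ^ m₀ = (2 : ℝ) ^ (-(((a : ℝ) - ν) * m₀) : ℝ) := by
    rw [ht, ← pow_mul, one_div, inv_pow, Real.rpow_neg (by norm_num), ← Real.rpow_natCast]
    congr 2
    push_cast [Nat.cast_sub (show ν ≤ a by omega)]
    ring
  have h4 : (2 : ℝ) ^ K = (2 : ℝ) ^ (K : ℝ) := (Real.rpow_natCast _ _).symm
  have hνR : 4 * (ν : ℝ) ≤ a := by exact_mod_cast hν
  unfold farE
  calc (K : ℝ) ^ 2 * (2 ^ K * (4 * (H : ℝ)) ^ K * t ^ m₀)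
      ≤ (2 : ℝ) ^ (2 * (g : ℝ)) * ((2 : ℝ) ^ (K : ℝ) * (2 : ℝ) ^ (((g : ℝ) + 2) * K : ℝ)
        * (2 : ℝ) ^ (-(((a : ℝ) - ν) * m₀) : ℝ)) := by
        rw [h3, h4]
        apply mul_le_mul (Ksq_le hK) _ (by positivity) (by positivity)
        apply mul_le_mul_of_nonneg_right _ (by positivity)
        exact mul_le_mul_of_nonneg_left (pow4H_le hH) (by positivity)
    _ = (2 : ℝ) ^ (2 * (g : ℝ) + ((K : ℝ) + ((g : ℝ) + 2) * K + (-(((a : ℝ) - ν) * m₀)))) := by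
        rw [← Real.rpow_add (by norm_num), ← Real.rpow_add (by norm_num),
          ← Real.rpow_add (by norm_num)]
    _ ≤ (2 : ℝ) ^ (-(n * i ^ 2 / 8) - 2 : ℝ) :=
        Real.rpow_le_rpow_of_exponent_le (by norm_num) (h.far hνR)
    _ = _ := quarter _

lemma exp_le_two (l : ℝ) : Real.exp (-(l ^ 2 / 2)) ≤ (2 : ℝ) ^ (-(l ^ 2 / 2) : ℝ) := by
  rw [Real.exp_neg, Real.rpow_neg (by norm_num)]
  apply inv_anti₀ (by positivity)
  rw [← Real.exp_one_rpow]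
  apply Real.rpow_le_rpow (by norm_num) _ (by positivity)
  have := Real.exp_one_gt_d9
  linarith

/-- the tail -/
lemma tail_num {a b K H m₀ g N w : ℕ} {n i : ℝ} (h : RPar i n a b K m₀ g)
    (hK : (K : ℝ) ≤ 2 ^ g) (hH : (H : ℝ) ≤ 2 ^ g) (hN : N ≤ 2 ^ w) {l : ℝ}
    (hl : (w : ℝ) + 16 * n ≤ l ^ 2 / 2) :
    ((N + 1 : ℕ) : ℝ) * ((K : ℝ) ^ 2 * ((4 * H : ℝ) ^ K * tailB K H (2 ^ b) l))
      ≤ (2 : ℝ) ^ (-(n * i ^ 2 / 8)) / 4 := by
  have h3 : (2 : ℝ) ^ K = (2 : ℝ) ^ (K : ℝ) := (Real.rpow_natCast _ _).symm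
  have h4 : (H : ℝ) ^ K ≤ (2 : ℝ) ^ ((g : ℝ) * K) := by
    calc (H : ℝ) ^ K ≤ (2 ^ g) ^ K := pow_le_pow_left₀ (by positivity) hH _
      _ = _ := by rw [← pow_mul, ← Real.rpow_natCast]; push_cast; rfl
  have h5 : (K : ℝ) ≤ (2 : ℝ) ^ (g : ℝ) := by rw [Real.rpow_natCast]; exact hK
  have h6 : ((2 ^ b * H : ℕ) : ℝ) ^ K ≤ (2 : ℝ) ^ (((b : ℝ) + g) * K) := by
    have h7 : ((2 ^ b * H : ℕ) : ℝ) ≤ 2 ^ (b + g) := by
      push_cast
      rw [pow_add]
      exact mul_le_mul_of_nonneg_left hH (by positivity)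
    calc ((2 ^ b * H : ℕ) : ℝ) ^ K ≤ (2 ^ (b + g)) ^ K := pow_le_pow_left₀ (by positivity) h7 _
      _ = _ := by rw [← pow_mul, ← Real.rpow_natCast]; push_cast; rfl
  have h7 : ((N + 1 : ℕ) : ℝ) ≤ (2 : ℝ) ^ ((w : ℝ) + 1) := by
    have h8 : N + 1 ≤ 2 ^ (w + 1) := by
      have : 1 ≤ 2 ^ w := Nat.one_le_two_pow
      rw [pow_succ]; omega
    have h9 : ((N + 1 : ℕ) : ℝ) ≤ ((2 ^ (w + 1) : ℕ) : ℝ) := by exact_mod_cast h8
    refine h9.trans (le_of_eq ?_)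
    push_cast
    rw [← Real.rpow_natCast]
    push_cast
    rfl
  have h0 := h.tail hl
  clear hl hN h
  unfold tailB
  calc ((N + 1 : ℕ) : ℝ) * ((K : ℝ) ^ 2 * ((4 * H : ℝ) ^ K *
        (2 ^ K * (H : ℝ) ^ K * (2 * Real.exp (-(l ^ 2 / 2)) * (K * ((2 ^ b * H : ℕ) : ℝ) ^ K)))))
      ≤ (2 : ℝ) ^ ((w : ℝ) + 1) * ((2 : ℝ) ^ (2 * (g : ℝ)) * ((2 : ℝ) ^ (((g : ℝ) + 2) * K : ℝ) *
        ((2 : ℝ) ^ (K : ℝ) * (2 : ℝ) ^ ((g : ℝ) * K) * (2 * (2 : ℝ) ^ (-(l ^ 2 / 2) : ℝ)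
        * ((2 : ℝ) ^ (g : ℝ) * (2 : ℝ) ^ (((b : ℝ) + g) * K)))))) := by
        rw [h3]
        apply mul_le_mul h7 _ (by positivity) (by positivity)
        apply mul_le_mul (Ksq_le hK) _ (by positivity) (by positivity)
        apply mul_le_mul (pow4H_le hH) _ (by positivity) (by positivity)
        apply mul_le_mul
        · exact mul_le_mul_of_nonneg_left h4 (by positivity)
        · apply mul_le_mul
          · exact mul_le_mul_of_nonneg_left (exp_le_two l) (by norm_num)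
          · exact mul_le_mul h5 h6 (by positivity) (by positivity)
          · positivity
          · positivity
        · positivity
        · positivity
    _ = (2 : ℝ) ^ (((w : ℝ) + 1) + (2 * (g : ℝ) + (((g : ℝ) + 2) * K + (((K : ℝ) + g * K)
        + ((1 + -(l ^ 2 / 2)) + (g + ((b : ℝ) + g) * K)))))) := by
        simp only [Real.rpow_add (show (0 : ℝ) < 2 by norm_num), Real.rpow_one]
    _ ≤ (2 : ℝ) ^ (-(n * i ^ 2 / 8) - 2 : ℝ) :=
        Real.rpow_le_rpow_of_exponent_le (by norm_num) h0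
    _ = _ := quarter _

/-- smallness of the influence of the exceptional points -/
lemma small_num {a K H g ν : ℕ} (hga : 128 * g ≤ a) (hg : 1 ≤ g) (hν : 4 * ν ≤ a)
    (hK : (K : ℝ) ≤ 2 ^ g) (hH : (H : ℝ) ≤ 2 ^ g) {t : ℝ} (ht : t = (1 / 2 : ℝ) ^ (a - ν)) :
    (1 + 2 * H * t) ^ K ≤ 2 := by
  have ht0 : 0 ≤ t := by rw [ht]; positivity
  have h3 : 2 * (H : ℝ) * t * K ≤ 1 / 2 := by
    calc 2 * (H : ℝ) * t * K ≤ 2 * 2 ^ g * t * 2 ^ g := by
          apply mul_le_mul _ hK (by positivity) (mul_nonneg (by positivity) ht0)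
          apply mul_le_mul_of_nonneg_right _ ht0
          exact mul_le_mul_of_nonneg_left hH (by norm_num)
      _ = (4 * (2 ^ g) ^ 2) * t / 2 := by ring
      _ ≤ 1 / 2 := by
          have h4 : 4 * ((2 : ℝ) ^ g) ^ 2 * (1 / 2 : ℝ) ^ (a - ν) ≤ 1 := by
            have h5 : 4 * ((2 : ℝ) ^ g) ^ 2 ≤ 2 ^ (a - ν) := by
              have h6 : 4 * (2 ^ g) ^ 2 ≤ 2 ^ (a - ν) := by
                calc 4 * (2 ^ g) ^ 2 = 2 ^ (2 + g * 2) := by
                      rw [← pow_mul, pow_add]; norm_num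
                  _ ≤ 2 ^ (a - ν) := Nat.pow_le_pow_right (by norm_num) (by omega)
              exact_mod_cast h6
            have h6 : (2 : ℝ) ^ (a - ν) * (1 / 2 : ℝ) ^ (a - ν) = 1 := by
              rw [← mul_pow]; norm_num
            calc 4 * ((2 : ℝ) ^ g) ^ 2 * (1 / 2 : ℝ) ^ (a - ν)
                ≤ 2 ^ (a - ν) * (1 / 2 : ℝ) ^ (a - ν) :=
                  mul_le_mul_of_nonneg_right h5 (by positivity)
              _ = 1 := h6
          rw [ht]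
          linarith
  have h4 : (1 + 2 * (H : ℝ) * t) ≤ Real.exp (2 * (H : ℝ) * t) := by
    have := Real.add_one_le_exp (2 * (H : ℝ) * t)
    linarith
  calc (1 + 2 * (H : ℝ) * t) ^ K ≤ (Real.exp (2 * (H : ℝ) * t)) ^ K :=
        pow_le_pow_left₀ (by positivity) h4 _
    _ = Real.exp (K * (2 * (H : ℝ) * t)) := by rw [← Real.exp_nat_mul]
    _ ≤ Real.exp (1 / 2) := by
        apply Real.exp_le_exp.2
        calc (K : ℝ) * (2 * (H : ℝ) * t) = 2 * (H : ℝ) * t * K := by ring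
          _ ≤ _ := h3
    _ ≤ 2 := by
        have h3 : Real.exp (1 / 2) ^ 2 ≤ 2 ^ 2 := by
          rw [← Real.exp_nat_mul]
          have : ((2 : ℕ) : ℝ) * (1 / 2) = 1 := by norm_num
          rw [this]
          have := Real.exp_one_lt_d9
          linarith
        exact le_of_sq_le_sq h3 (by norm_num)

/-- the size of the classes -/
lemma class_num {n b K H g : ℕ} (hgb : g + 2 ≤ n) (hb : 0 < b) (hn : 1 ≤ n) (hKb : K * b ≤ n)
    (hHK : H ≤ K) (hKn : K ≤ n) (hH : (H : ℝ) ≤ 2 ^ g) :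
    2 * (4 * H : ℝ) ^ K * (((2 ^ b : ℕ) : ℝ) + 1) ^ (K * H) ≤ 2 ^ (4 * n ^ 2) := by
  have h3 : ((2 ^ b : ℕ) : ℝ) + 1 ≤ 2 ^ (b + 1) := by
    push_cast
    rw [pow_succ]
    have : (1 : ℝ) ≤ 2 ^ b := one_le_pow₀ (by norm_num)
    linarith
  have h4 : (((2 ^ b : ℕ) : ℝ) + 1) ^ (K * H) ≤ 2 ^ ((b + 1) * (K * H)) := by
    calc (((2 ^ b : ℕ) : ℝ) + 1) ^ (K * H) ≤ (2 ^ (b + 1)) ^ (K * H) :=
          pow_le_pow_left₀ (by positivity) h3 _
      _ = _ := by rw [← pow_mul]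
  have h5 : (4 * (H : ℝ)) ^ K ≤ 2 ^ ((g + 2) * K) := by
    have h3 : (4 * (H : ℝ)) ≤ 2 ^ (g + 2) := by
      rw [pow_add]; linarith
    calc (4 * (H : ℝ)) ^ K ≤ (2 ^ (g + 2)) ^ K := pow_le_pow_left₀ (by positivity) h3 _
      _ = _ := by rw [← pow_mul]
  have h6 : 1 + (g + 2) * K + (b + 1) * (K * H) ≤ 4 * n ^ 2 := by
    have h7 : (b + 1) * (K * H) ≤ 2 * (K * b) * H := by
      calc (b + 1) * (K * H) ≤ (2 * b) * (K * H) := Nat.mul_le_mul_right _ (by omega)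
        _ = 2 * (K * b) * H := by ring
    have h8 : 2 * (K * b) * H ≤ 2 * n * n :=
      Nat.mul_le_mul (Nat.mul_le_mul_left _ hKb) (hHK.trans hKn)
    have h9 : (g + 2) * K ≤ n * K := Nat.mul_le_mul_right _ hgb
    have h10 : n * K ≤ n * n := Nat.mul_le_mul_left _ hKn
    have h11 : 1 ≤ n * n := Nat.mul_pos (by omega) (by omega)
    have h12 : n ^ 2 = n * n := by ring
    rw [h12]
    have h13 : 2 * n * n = 2 * (n * n) := by ring
    rw [h13] at h8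
    omega
  calc (2 * (4 * H : ℝ) ^ K * (((2 ^ b : ℕ) : ℝ) + 1) ^ (K * H))
      ≤ 2 * 2 ^ ((g + 2) * K) * 2 ^ ((b + 1) * (K * H)) := by
        apply mul_le_mul _ h4 (by positivity) (by positivity)
        exact mul_le_mul_of_nonneg_left h5 (by norm_num)
    _ = 2 ^ (1 + (g + 2) * K + (b + 1) * (K * H)) := by
        rw [pow_add, pow_add, pow_one]
    _ ≤ 2 ^ (4 * n ^ 2) := pow_le_pow_right₀ (by norm_num) h6

end Pool.Agent.TH689.RX
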