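import Mathlib
import Pool.Agent.TH689.RXNum

/-!
The choice of the parameters.
-/

set_option autoImplicit false

namespace Pool.Agent.TH689.RX

/-- the parameters for given `n` and `m` -/
theorem choose_par (L : ℕ) (hL : 8 ≤ L) (n m : ℕ) (hn : 256 * L ^ 2 ≤ n)
    (hm1 : n ^ (256 * L ^ 2) ≤ m) (hm2 : m ^ (256 * L ^ 2) ≤ 2 ^ n) :
    ∃ K b H m₀ D a g ν : ℕ, Par L n a b K m₀ g ν ∧ H + m₀ = K ∧ D + 2 * m₀ = K ∧ 1 ≤ m₀ ∧
      2 ≤ H ∧ 0 < b ∧ 3 ≤ K ∧ K ≤ n ∧ K ≤ 2 ^ g ∧ H ≤ 2 ^ g ∧ g + 2 ≤ n ∧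
      K ^ 2 * (2 ^ b) ^ 2 ≤ m ∧ 2 * b ≤ Nat.log 2 m ∧ n ≤ L * Nat.log 2 m * m₀ ∧ 2 * a ≤ b ∧
      ∀ w, w ^ (256 * L ^ 2) ≤ m → 2 * (w + 16 * n) ≤ (2 ^ ν) ^ 2 := by
  obtain ⟨c, hc⟩ : ∃ c, c = 256 * L ^ 2 := ⟨_, rfl⟩
  rw [← hc] at hn hm1 hm2 ⊢
  have hLsq : 64 ≤ L ^ 2 := by
    calc 64 = 8 ^ 2 := by norm_num
      _ ≤ L ^ 2 := Nat.pow_le_pow_left hL 2
  have hc0 : 16384 ≤ c := by omega
  obtain ⟨g, hg⟩ : ∃ g, g = Nat.log 2 n + 1 := ⟨_, rfl⟩
  obtain ⟨μ, hμ⟩ : ∃ μ, μ = Nat.log 2 m := ⟨_, rfl⟩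
  rw [← hμ]
  have hn0 : 16384 ≤ n := hc0.trans hn
  have hlog : 14 ≤ Nat.log 2 n := by
    rw [Nat.le_log_iff_pow_le (by norm_num) (by omega)]
    omega
  have hg15 : 15 ≤ g := by omega
  have hng : n < 2 ^ g := by
    rw [hg]; exact Nat.lt_pow_succ_log_self (by norm_num) n
  have hm0 : m ≠ 0 := by
    have : 0 < n ^ c := Nat.pow_pos (by omega)
    omega
  have hμm : 2 ^ μ ≤ m := by rw [hμ]; exact Nat.pow_log_le_self 2 hm0
  have hmμ : m < 2 ^ (μ + 1) := by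
    rw [hμ]; exact Nat.lt_pow_succ_log_self (by norm_num) m
  have hLpos : 0 < L := by omega
  -- the size conditions
  have h1 : c * g ≤ 2 * μ := by
    have h2 : Nat.log 2 n * c ≤ μ := by
      rw [hμ, Nat.le_log_iff_pow_le (by norm_num) hm0]
      calc 2 ^ (Nat.log 2 n * c) = (2 ^ Nat.log 2 n) ^ c := by rw [pow_mul]
        _ ≤ n ^ c := Nat.pow_le_pow_left (Nat.pow_log_le_self 2 (by omega)) _
        _ ≤ m := hm1
    have h3 : g ≤ 2 * Nat.log 2 n := by omega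
    calc c * g ≤ c * (2 * Nat.log 2 n) := Nat.mul_le_mul_left _ h3
      _ = 2 * (Nat.log 2 n * c) := by ring
      _ ≤ 2 * μ := Nat.mul_le_mul_left _ h2
  have h2 : c * μ ≤ n := by
    have h3 : 2 ^ (μ * c) ≤ 2 ^ n := by
      calc 2 ^ (μ * c) = (2 ^ μ) ^ c := by rw [pow_mul]
        _ ≤ m ^ c := Nat.pow_le_pow_left hμm _
        _ ≤ 2 ^ n := hm2
    have := (Nat.pow_le_pow_iff_right (by norm_num : 1 < 2)).1 h3
    linarith
  clear hlog hg hm1 hm2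
  obtain ⟨a, ha⟩ : ∃ a, a = μ / (8 * L) := ⟨_, rfl⟩
  have h8L : 0 < 8 * L := by omega
  have haμ : 8 * L * a ≤ μ := by rw [ha]; exact Nat.mul_div_le _ _
  have hμa : μ < 8 * L * (a + 1) := by rw [ha]; exact Nat.lt_mul_div_succ _ h8L
  clear ha
  have hag : 16 * L * g ≤ a := by
    have h3 : 16 * L * (16 * L * g) < 16 * L * (a + 1) := by
      calc 16 * L * (16 * L * g) = c * g := by rw [hc]; ring
        _ ≤ 2 * μ := h1
        _ < 2 * (8 * L * (a + 1)) := by omega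
        _ = 16 * L * (a + 1) := by ring
    have := lt_of_mul_lt_mul_left h3 (by positivity)
    omega
  have ha128 : 128 * g ≤ a := (Nat.mul_le_mul_right g (by omega)).trans hag
  have ha1920 : 1920 ≤ a := by omega
  obtain ⟨b, hb⟩ : ∃ b, b = 2 * L * a := ⟨_, rfl⟩
  have hbpos : 0 < b := by rw [hb]; exact Nat.mul_pos (by omega) (by omega)
  have h4b : 4 * b ≤ μ := by
    calc 4 * b = 8 * L * a := by rw [hb]; ring
      _ ≤ μ := haμ
  have h16a : 16 * a ≤ b := by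
    rw [hb]; exact Nat.mul_le_mul_right a (by omega)
  obtain ⟨K, hK⟩ : ∃ K, K = n / b := ⟨_, rfl⟩
  have hKb : K * b ≤ n := by rw [hK]; exact Nat.div_mul_le_self n b
  have hKn : K ≤ n := by rw [hK]; exact Nat.div_le_self _ _
  have hnK : n < b * (K + 1) := by rw [hK]; exact Nat.lt_mul_div_succ n hbpos
  have h4cb : 4 * c * b ≤ n := by
    calc 4 * c * b = c * (4 * b) := by ring
      _ ≤ c * μ := Nat.mul_le_mul_left _ h4b
      _ ≤ n := h2
  have hK4c : 4 * c ≤ K := by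
    rw [hK, Nat.le_div_iff_mul_le hbpos]; exact h4cb
  have hLc : L ≤ c := by
    rw [hc]
    calc L ≤ L ^ 2 := Nat.le_self_pow (by norm_num) L
      _ ≤ 256 * L ^ 2 := by omega
  clear hK
  obtain ⟨m₀, hm₀⟩ : ∃ m₀, m₀ = K / L := ⟨_, rfl⟩
  have hm₀1 : 1 ≤ m₀ := by
    rw [hm₀, Nat.le_div_iff_mul_le hLpos]; omega
  have hLm : L * m₀ ≤ K := by rw [hm₀]; exact Nat.mul_div_le K L
  have hKL : K < L * (m₀ + 1) := by rw [hm₀]; exact Nat.lt_mul_div_succ K hLpos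
  have h8m : 8 * m₀ ≤ K := (Nat.mul_le_mul_right _ hL).trans hLm
  clear hm₀
  have hK2g : K < 2 ^ g := lt_of_le_of_lt hKn hng
  obtain ⟨ν, hν⟩ : ∃ ν, ν = a / 4 := ⟨_, rfl⟩
  have hνa : 4 * ν ≤ a := by rw [hν]; exact Nat.mul_div_le _ _
  have hνa' : a < 4 * (ν + 1) := by rw [hν]; exact Nat.lt_mul_div_succ _ (by norm_num)
  refine ⟨K, b, K - m₀, m₀, K - 2 * m₀, a, g, ν,
    ⟨hL, hg15, hng, by rw [← hc]; exact hn, hb, ha1920, hag, hKb, hnK, by rw [← hc]; exact h4cb,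
      hLm, hKL, hνa, hνa'⟩,
    by omega, by omega, hm₀1, by omega, hbpos, by omega, hKn, hK2g.le, by omega, ?_, ?_,
    by omega, ?_, by omega, ?_⟩
  · have h11 : b ≤ 4 * c * b := Nat.le_mul_of_pos_left _ (by omega)
    omega
  · calc K ^ 2 * (2 ^ b) ^ 2 ≤ (2 ^ g) ^ 2 * (2 ^ b) ^ 2 :=
          Nat.mul_le_mul_right _ (Nat.pow_le_pow_left hK2g.le _)
      _ = 2 ^ (g * 2 + b * 2) := by rw [← pow_mul, ← pow_mul, ← pow_add]
      _ ≤ 2 ^ μ := Nat.pow_le_pow_right (by norm_num) (by omega)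
      _ ≤ m := hμm
  · calc n ≤ b * (K + 1) := hnK.le
      _ ≤ b * (2 * (L * (2 * m₀))) := by
          apply Nat.mul_le_mul_left
          have : L * (m₀ + 1) ≤ L * (2 * m₀) := Nat.mul_le_mul_left _ (by omega)
          omega
      _ = L * (4 * b) * m₀ := by ring
      _ ≤ L * μ * m₀ := Nat.mul_le_mul_right _ (Nat.mul_le_mul_left _ h4b)
  · intro w hw
    clear h4cb hK4c hLm hKL hKb hnK
    obtain ⟨e, he⟩ : ∃ e, e = (μ + 1) / c + 1 := ⟨_, rfl⟩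
    have hwe : w < 2 ^ e := by
      by_contra hcon
      push Not at hcon
      have h3 : 2 ^ (e * c) ≤ w ^ c := by
        rw [pow_mul]
        exact Nat.pow_le_pow_left hcon _
      have h4 : μ + 1 < c * e := by
        rw [he]
        exact Nat.lt_mul_div_succ (μ + 1) (by omega)
      have h5 : 2 ^ (μ + 1) ≤ 2 ^ (e * c) := Nat.pow_le_pow_right (by norm_num) (by linarith)
      omega
    have h10 : e ≤ a / 8 := by
      have h11 : (μ + 1) / c ≤ a / 16 := by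
        have h12 : μ + 1 ≤ 8 * L * (a + 1) := hμa
        have h13 : 8 * L * (a + 1) ≤ 16 * L * a := by
          calc 8 * L * (a + 1) ≤ 8 * L * (2 * a) := Nat.mul_le_mul_left _ (by omega)
            _ = 16 * L * a := by ring
        have h14 : (μ + 1) / c ≤ (16 * L * a) / c := Nat.div_le_div_right (by omega)
        refine h14.trans ?_
        have h15 : c = 16 * L * (16 * L) := by rw [hc]; ring
        rw [h15, Nat.mul_div_mul_left _ _ (by omega : 0 < 16 * L)]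
        exact Nat.div_le_div_left (by omega) (by norm_num)
      omega
    have h11 : g + 5 ≤ a / 8 := by omega
    have h12 : w < 2 ^ (a / 8) := lt_of_lt_of_le hwe (Nat.pow_le_pow_right (by norm_num) h10)
    have h13 : 32 * n ≤ 2 ^ (a / 8) := by
      calc 32 * n ≤ 32 * 2 ^ g := Nat.mul_le_mul_left _ hng.le
        _ = 2 ^ (g + 5) := by rw [pow_add]; norm_num; ring
        _ ≤ _ := Nat.pow_le_pow_right (by norm_num) h11
    calc 2 * (w + 16 * n) ≤ 4 * 2 ^ (a / 8) := by omega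
      _ = 2 ^ (2 + a / 8) := by rw [pow_add]; norm_num
      _ ≤ 2 ^ (ν * 2) := Nat.pow_le_pow_right (by norm_num) (by omega)
      _ = (2 ^ ν) ^ 2 := by rw [pow_mul]

end Pool.Agent.TH689.RX
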