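import Mathlib
import Pool.Agent.TH689.RXPar

/-!
The parameters of the lower bounds, with the inequalities which are used.
-/

set_option autoImplicit false

namespace Pool.Agent.TH689.LX

open Finset Pool.Agent.TH689.RX

/-- the parameters for given `n` and `m` -/
theorem setup (L : ℕ) (hL : 8 ≤ L) (n m : ℕ) (hn : 256 * L ^ 2 ≤ n)
    (hm1 : n ^ (256 * L ^ 2) ≤ m) (hm2 : m ^ (256 * L ^ 2) ≤ 2 ^ n) :
    ∃ (K b H m₀ D : ℕ) (r l : ℝ), 0 < b ∧ K * b ≤ n ∧ 2 ≤ H ∧ 0 < r ∧ r ≤ 1 ∧ 0 ≤ l ∧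
      D + m₀ ≤ H + 1 ∧ 1 ≤ m₀ ∧ H + m₀ = K ∧ l * r ≤ 1 ∧
      (1 + 2 * H * (l * r)) ^ K ≤ 2 ∧ 1 ≤ r ^ 2 * ((2 ^ b : ℕ) : ℝ) ∧
      K ^ 2 * (2 ^ b) ^ 2 ≤ m ∧ 2 * b ≤ Nat.log 2 m ∧ n ≤ L * Nat.log 2 m * m₀ ∧
      (6 : ℝ) ≤ (K : ℝ) ^ 2 ∧
      (K : ℝ) ^ 2 * farE K H m₀ (l * r) ≤ (2 : ℝ) ^ (-(n / (8 * L ^ 2 : ℝ))) / 4 ∧
      (∀ w N : ℕ, w ^ (256 * L ^ 2) ≤ m → N ≤ 2 ^ w →
        ((N + 1 : ℕ) : ℝ) * ((K : ℝ) ^ 2 * ((4 * H : ℝ) ^ K * tailB K H (2 ^ b) l))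
          ≤ (2 : ℝ) ^ (-(n / (8 * L ^ 2 : ℝ))) / 4) ∧
      1 ≤ (2 : ℝ) ^ ((1 - 8 / (L : ℝ)) * n) ∧ (2 : ℝ) ^ ((1 - 8 / (L : ℝ)) * n) ≤ 2 ^ n ∧
      0 ≤ (4 * H : ℝ) ^ K * tailB K H (2 ^ b) l ∧
      0 ≤ (4 * H : ℝ) ^ K * (1 / (r ^ 2 * ((2 ^ b : ℕ) : ℝ)) ^ D) ∧
      ((2 : ℝ) ^ ((1 - 8 / (L : ℝ)) * n) + 1) * ((K : ℝ) ^ 2 * ((4 * H : ℝ) ^ K
          * (1 / (r ^ 2 * ((2 ^ b : ℕ) : ℝ)) ^ D)))
        < (2 : ℝ) ^ (-(n / (8 * L ^ 2 : ℝ))) / 2 := by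
  obtain ⟨K, b, H, m₀, D, a, g, ν, hPar, hHm, hDm, hm₀1, hH2, hbpos, hK3, hKn, hK2g, hH2g, hgn,
    hKbm, h2bμ, hnm₀, h2ab, hwν⟩ := choose_par L hL n m hn hm1 hm2
  have hRP := hPar.toR
  have hga : 128 * g ≤ a := by exact_mod_cast hRP.ga
  obtain ⟨-, hg15, -, -, -, -, -, hKb, -, -, -, -, hν, -⟩ := hPar
  have hK2gR : (K : ℝ) ≤ 2 ^ g := by exact_mod_cast hK2g
  have hHR : (H : ℝ) ≤ 2 ^ g := by exact_mod_cast hH2g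
  have hLR : (8 : ℝ) ≤ L := by exact_mod_cast hL
  have hLpos : (0 : ℝ) < L := by linarith
  have hδeq : (n : ℝ) / (8 * L ^ 2 : ℝ) = (n : ℝ) * (1 / (L : ℝ)) ^ 2 / 8 := by
    field_simp
  rw [hδeq]
  obtain ⟨r, hr⟩ : ∃ r : ℝ, r = (1 / 2 : ℝ) ^ a := ⟨_, rfl⟩
  have hr0 : 0 < r := by rw [hr]; positivity
  have hr1 : r ≤ 1 := by rw [hr]; exact pow_le_one₀ (by norm_num) (by norm_num)
  have hra : r * 2 ^ a = 1 := by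
    rw [hr, ← mul_pow]; norm_num
  obtain ⟨l, hl⟩ : ∃ l : ℝ, l = (2 : ℝ) ^ ν := ⟨_, rfl⟩
  have hl0 : 0 ≤ l := by rw [hl]; positivity
  have hlr : l * r = (1 / 2 : ℝ) ^ (a - ν) := by
    have e2 : a = (a - ν) + ν := by omega
    have e3 : (1 / 2 : ℝ) ^ ν * 2 ^ ν = 1 := by rw [← mul_pow]; norm_num
    calc l * r = 2 ^ ν * (1 / 2 : ℝ) ^ ((a - ν) + ν) := by rw [← e2, hl, hr]
      _ = (1 / 2 : ℝ) ^ (a - ν) * ((1 / 2 : ℝ) ^ ν * 2 ^ ν) := by rw [pow_add]; ring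
      _ = _ := by rw [e3, mul_one]
  have hlr1 : l * r ≤ 1 := by rw [hlr]; exact pow_le_one₀ (by norm_num) (by norm_num)
  have hsm : (1 + 2 * H * (l * r)) ^ K ≤ 2 := small_num hga (by omega) hν hK2gR hHR hlr
  have hrq : (r ^ 2 * ((2 ^ b : ℕ) : ℝ)) = 2 ^ (b - 2 * a) := by
    have e2 : ((2 ^ b : ℕ) : ℝ) = 2 ^ (b - 2 * a) * (2 ^ a) ^ 2 := by
      push_cast
      rw [← pow_mul, ← pow_add]
      congr 1
      omega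
    rw [e2]
    calc r ^ 2 * (2 ^ (b - 2 * a) * (2 ^ a) ^ 2) = 2 ^ (b - 2 * a) * (r * 2 ^ a) ^ 2 := by ring
      _ = _ := by rw [hra]; ring
  have hrq1 : 1 ≤ r ^ 2 * ((2 ^ b : ℕ) : ℝ) := by
    rw [hrq]; exact one_le_pow₀ (by norm_num)
  have hfar := far_num (m₀ := m₀) hRP hν hK2gR hHR hlr
  have hmainE : (K : ℝ) ^ 2 * ((4 * H : ℝ) ^ K * (1 / (r ^ 2 * ((2 ^ b : ℕ) : ℝ)) ^ D))
      ≤ (2 : ℝ) ^ (2 * (g : ℝ) + (((g : ℝ) + 2) * K + -(((b : ℝ) - 2 * a) * (K - 2 * m₀)))) := by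
    have hDR : (D : ℝ) = K - 2 * m₀ := by
      have : ((D + 2 * m₀ : ℕ) : ℝ) = K := by exact_mod_cast hDm
      push_cast at this
      linarith
    have h3 : (1 / (r ^ 2 * ((2 ^ b : ℕ) : ℝ)) ^ D)
        = (2 : ℝ) ^ (-(((b : ℝ) - 2 * a) * (K - 2 * m₀))) := by
      rw [hrq, ← pow_mul, one_div, Real.rpow_neg (by norm_num), ← Real.rpow_natCast, ← hDR]
      congr 2
      push_cast [Nat.cast_sub h2ab]
      ring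
    rw [h3, Real.rpow_add (by norm_num), Real.rpow_add (by norm_num)]
    apply mul_le_mul (Ksq_le hK2gR) _ (by positivity) (by positivity)
    exact mul_le_mul_of_nonneg_right (pow4H_le hHR) (by positivity)
  have hτ0 : 0 ≤ (4 * H : ℝ) ^ K * tailB K H (2 ^ b) l := by
    unfold tailB
    positivity
  have hκ0 : 0 ≤ (4 * H : ℝ) ^ K * (1 / (r ^ 2 * ((2 ^ b : ℕ) : ℝ)) ^ D) := by
    have : 0 < r ^ 2 * ((2 ^ b : ℕ) : ℝ) := lt_of_lt_of_le one_pos hrq1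
    positivity
  have hT₀1 : 1 ≤ (2 : ℝ) ^ ((1 - 8 / (L : ℝ)) * n) := by
    apply Real.one_le_rpow (by norm_num)
    apply mul_nonneg _ (by positivity)
    have : 8 / (L : ℝ) ≤ 1 := by rw [div_le_one hLpos]; exact hLR
    linarith
  refine ⟨K, b, H, m₀, D, r, l, hbpos, hKb, hH2, hr0, hr1, hl0, by omega, hm₀1, hHm, hlr1, hsm,
    hrq1, hKbm, h2bμ, hnm₀, ?_, hfar, ?_, hT₀1, ?_, hτ0, hκ0, ?_⟩
  · have h3 : (3 : ℝ) ≤ K := by exact_mod_cast hK3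
    have h4 : (3 : ℝ) * 3 ≤ K * K := mul_le_mul h3 h3 (by norm_num) (by linarith)
    rw [sq]
    linarith
  · intro w N hw hN
    have hlw : (w : ℝ) + 16 * n ≤ l ^ 2 / 2 := by
      have h9 := hwν w hw
      have h10 : ((2 * (w + 16 * n) : ℕ) : ℝ) ≤ (((2 ^ ν) ^ 2 : ℕ) : ℝ) := by exact_mod_cast h9
      push_cast at h10
      rw [hl]
      linarith
    exact tail_num hRP hK2gR hHR hN hlw
  · rw [← Real.rpow_natCast]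
    apply Real.rpow_le_rpow_of_exponent_le (by norm_num)
    have : 0 ≤ 8 / (L : ℝ) * n := by positivity
    linarith
  · clear hτ0 hfar hsm
    obtain ⟨T₀, hT₀⟩ : ∃ T₀ : ℝ, T₀ = (2 : ℝ) ^ ((1 - 8 / (L : ℝ)) * n) := ⟨_, rfl⟩
    rw [← hT₀] at hT₀1 ⊢
    refine lt_of_le_of_lt (mul_le_mul_of_nonneg_left hmainE (by linarith)) ?_
    obtain ⟨E2, hE2⟩ : ∃ E2 : ℝ, E2 = 2 * (g : ℝ) + (((g : ℝ) + 2) * K
      + -(((b : ℝ) - 2 * a) * (K - 2 * m₀))) := ⟨_, rfl⟩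
    rw [← hE2]
    have hbig : 4 * T₀ ≤ (2 : ℝ) ^ (-((n : ℝ) * (1 / (L : ℝ)) ^ 2 / 8) - 1 - E2 : ℝ) := by
      have e1 : 4 * T₀ = (2 : ℝ) ^ ((1 - 8 * (1 / (L : ℝ))) * n + 2) := by
        rw [Real.rpow_add (by norm_num), hT₀, mul_one_div]
        norm_num
        ring
      rw [e1]
      apply Real.rpow_le_rpow_of_exponent_le (by norm_num)
      rw [hE2]
      exact hRP.main
    have e1 : (2 : ℝ) ^ (-((n : ℝ) * (1 / (L : ℝ)) ^ 2 / 8) - 1 - E2 : ℝ)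
        = ((2 : ℝ) ^ (-((n : ℝ) * (1 / (L : ℝ)) ^ 2 / 8)) / 2) / (2 : ℝ) ^ E2 := by
      rw [Real.rpow_sub (by norm_num), Real.rpow_sub (by norm_num), Real.rpow_one]
    rw [e1] at hbig
    have hE2pos : (0 : ℝ) < (2 : ℝ) ^ E2 := by positivity
    rw [le_div_iff₀ hE2pos] at hbig
    refine lt_of_lt_of_le ?_ hbig
    exact mul_lt_mul_of_pos_right (by linarith) hE2pos

end Pool.Agent.TH689.LX
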