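import Mathlib
import Pool.Agent.TH689.LVStatic
import Pool.Agent.TH689.LWSetup

/-!
Choice of the parameters for the lower bound for static proofs.
-/

set_option autoImplicit false

namespace Pool.Agent.TH689.LX

open Finset Filter Pool.Agent.H538R2.SB

/-- the choice of the parameters -/
theorem signed_param (L : ℕ) (hL : 8 ≤ L) (n m w N₀ : ℕ) (hn : 256 * L ^ 2 ≤ n)
    (hm1 : n ^ (256 * L ^ 2) ≤ m) (hm2 : m ^ (256 * L ^ 2) ≤ 2 ^ n) (hw : w ^ (256 * L ^ 2) ≤ m)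
    (hN₀ : 3 * m * (N₀ * 2 ^ n * 2 ^ n) ≤ 2 ^ w) (G : Fin N₀ → Asg n → ℝ)
    (hG0 : ∀ j x, 0 ≤ G j x) (hG1 : ∀ j x, G j x ≤ 1) :
    ∃ F : Finset (Clause n), F.card ≤ m ∧ (∀ C ∈ F, 2 ^ C.card ≤ m) ∧
      (∀ x, n ≤ L * Nat.log 2 m * falsified F x) ∧
      ∀ (μ : Clause n → Fin N₀ → ℝ) (u : Fin N₀ → ℝ), (∀ j, 0 ≤ u j) →
        (∀ x, ∑ C ∈ F, ∑ j, μ C j * (G j x * isFalse C x) = 1 + ∑ j, u j * G j x) →
        (∑ x, ∑ C ∈ F, ∑ j, |μ C j| * (G j x * isFalse C x)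
          ≤ (2 : ℝ) ^ (n / (8 * L ^ 2 : ℝ)) * 2 ^ n) →
        (2 : ℝ) ^ ((1 - 8 / (L : ℝ)) * n) ≤ ∑ C ∈ F, ∑ j, |μ C j| + ∑ j, u j := by
  obtain ⟨N, hNdef⟩ : ∃ N, N = 3 * m * (N₀ * 2 ^ n * 2 ^ n) := ⟨_, rfl⟩
  rw [← hNdef] at hN₀
  obtain ⟨K, b, H, m₀, D, r, l, hbpos, hKb, hH2, hr0, hr1, hl0, hD, hm₀1, hHm, hlr1, hsm, hrq1,
    hKbm, h2bμ, hnm₀, hK2, hfar, htail, hT₀1, hT₀n, hτ0, hκ0, hfinal⟩ := setup L hL n m hn hm1 hm2
  have htail' := htail w N hw hN₀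
  clear htail
  have hm0 : m ≠ 0 := by
    have : 0 < n ^ (256 * L ^ 2) := Nat.pow_pos (by
      have : 8 ^ 2 ≤ L ^ 2 := Nat.pow_le_pow_left hL 2
      omega)
    omega
  have hμm : 2 ^ (Nat.log 2 m) ≤ m := Nat.pow_log_le_self 2 hm0
  obtain ⟨δ₀, hδ₀⟩ : ∃ δ₀ : ℝ, δ₀ = (2 : ℝ) ^ (-(n / (8 * L ^ 2 : ℝ))) := ⟨_, rfl⟩
  have hδinv : (2 : ℝ) ^ (n / (8 * L ^ 2 : ℝ)) = 1 / δ₀ := by
    rw [hδ₀, Real.rpow_neg (by norm_num), one_div, inv_inv]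
  have hδ₀0 : 0 < δ₀ := by rw [hδ₀]; positivity
  have hδ₀1 : δ₀ ≤ 1 := by
    rw [hδ₀]
    apply Real.rpow_le_one_of_one_le_of_nonpos (by norm_num)
    rw [neg_nonpos]
    positivity
  rw [← hδ₀] at hfar htail' hfinal
  rw [hδinv]
  obtain ⟨T₀, hT₀⟩ : ∃ T₀ : ℝ, T₀ = (2 : ℝ) ^ ((1 - 8 / (L : ℝ)) * n) := ⟨_, rfl⟩
  rw [← hT₀] at hT₀1 hT₀n hfinal ⊢
  -- the formulas
  by_contra hcon
  push Not at hcon
  have hrep : ∀ y : Fin K → (Fin b → Bool) → Fin H,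
      ∃ (μ : Clause n → Fin N₀ → ℝ) (u : Fin N₀ → ℝ),
      (∀ j, 0 ≤ u j) ∧
      (∀ x, ∑ C ∈ form hKb y, ∑ j, μ C j * (G j x * isFalse C x) = 1 + ∑ j, u j * G j x) ∧
      (∑ x, ∑ C ∈ form hKb y, ∑ j, |μ C j| * (G j x * isFalse C x) ≤ (1 / δ₀) * 2 ^ n) ∧
      ∑ C ∈ form hKb y, ∑ j, |μ C j| + ∑ j, u j ≤ T₀ := by
    intro y
    obtain ⟨ξ, u, h3, h4, h5, h6⟩ := hcon (form hKb y) ((form_card hKb y).trans hKbm)
      (by
        intro C hC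
        refine (Nat.pow_le_pow_right (by norm_num) (form_width hKb y hC)).trans ?_
        exact (Nat.pow_le_pow_right (by norm_num) h2bμ).trans hμm)
      (by
        intro x
        have h3 : m₀ ≤ falsified (form hKb y) x := by
          rw [falsified_form hbpos]
          have := viol_ge (comp y (blocks hKb x))
          omega
        exact hnm₀.trans (Nat.mul_le_mul_left _ h3))
    exact ⟨ξ, u, h3, h4, h5, h6.le⟩
  have hfin := signed_finite (n := n) (K := K) (b := b) (H := H) (N := N₀) hbpos hKb hH2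
    hr0 hr1 hl0 (m₀ := m₀) (D := D) hD hm₀1 hlr1 hsm hrq1 (B := 1 / δ₀) (T := T₀) G hG0 hG1 hrep
  clear hrep hcon hsm
  have hfar0 : 0 ≤ farE K H m₀ (l * r) := by
    have : 0 ≤ l * r := mul_nonneg hl0 hr0.le
    unfold farE; positivity
  generalize farE K H m₀ (l * r) = φ at *
  generalize (4 * H : ℝ) ^ K * tailB K H (2 ^ b) l = τ at *
  generalize (4 * H : ℝ) ^ K * (1 / (r ^ 2 * ((2 ^ b : ℕ) : ℝ)) ^ D) = κ at *
  clear hrq1 hlr1 hr0 hr1 hl0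
  have hterm1 : 2 * (1 / δ₀ * φ) ≤ 1 / 4 := by
    have h3 : 2 * φ ≤ δ₀ / 4 := by
      refine le_trans ?_ hfar
      exact mul_le_mul_of_nonneg_right (by linarith) hfar0
    have e1 : 2 * (1 / δ₀ * φ) = (2 * φ) / δ₀ := by ring
    rw [e1, div_le_iff₀ hδ₀0]
    linarith
  have hterm2 : (2 * ((K ^ 2 * (2 ^ b) ^ 2 : ℕ) : ℝ) + 1) * ((N₀ * 2 ^ n : ℕ) : ℝ) * (T₀ * τ)
      ≤ 1 / 4 := by
    have h3 : 2 * ((K ^ 2 * (2 ^ b) ^ 2 : ℕ) : ℝ) + 1 ≤ 3 * m := by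
      have : 2 * (K ^ 2 * (2 ^ b) ^ 2) + 1 ≤ 3 * m := by omega
      exact_mod_cast this
    have h4 : (2 * ((K ^ 2 * (2 ^ b) ^ 2 : ℕ) : ℝ) + 1) * ((N₀ * 2 ^ n : ℕ) : ℝ) * T₀
        ≤ ((N + 1 : ℕ) : ℝ) := by
      calc (2 * ((K ^ 2 * (2 ^ b) ^ 2 : ℕ) : ℝ) + 1) * ((N₀ * 2 ^ n : ℕ) : ℝ) * T₀
          ≤ (3 * m) * ((N₀ * 2 ^ n : ℕ) : ℝ) * 2 ^ n := by
            apply mul_le_mul _ hT₀n (by linarith) (by positivity)
            exact mul_le_mul_of_nonneg_right h3 (by positivity)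
        _ = (N : ℝ) := by rw [hNdef]; push_cast; ring
        _ ≤ ((N + 1 : ℕ) : ℝ) := by push_cast; linarith
    calc (2 * ((K ^ 2 * (2 ^ b) ^ 2 : ℕ) : ℝ) + 1) * ((N₀ * 2 ^ n : ℕ) : ℝ) * (T₀ * τ)
        = ((2 * ((K ^ 2 * (2 ^ b) ^ 2 : ℕ) : ℝ) + 1) * ((N₀ * 2 ^ n : ℕ) : ℝ) * T₀) * τ := by ring
      _ ≤ ((N + 1 : ℕ) : ℝ) * τ := mul_le_mul_of_nonneg_right h4 hτ0
      _ ≤ ((N + 1 : ℕ) : ℝ) * ((K : ℝ) ^ 2 * τ) := by
          apply mul_le_mul_of_nonneg_left _ (by positivity)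
          have : 1 * τ ≤ (K : ℝ) ^ 2 * τ := mul_le_mul_of_nonneg_right (by linarith) hτ0
          linarith
      _ ≤ δ₀ / 4 := htail'
      _ ≤ 1 / 4 := by linarith
  have h5 : 1 / 2 ≤ T₀ * κ := by linarith
  have h6 : T₀ * κ ≤ (T₀ + 1) * ((K : ℝ) ^ 2 * κ) := by
    apply mul_le_mul (by linarith) _ hκ0 (by linarith)
    have : 1 * κ ≤ (K : ℝ) ^ 2 * κ := mul_le_mul_of_nonneg_right (by linarith) hκ0
    linarith
  linarith

/-- Static proofs with a library of functions with values between 0 and 1. -/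
theorem signed_main (ε : ℝ) (hε : 0 < ε) : ∃ c : ℕ, 1 ≤ c ∧ ∀ n m w N : ℕ, c ≤ n → n ^ c ≤ m →
    m ^ c ≤ 2 ^ n → w ^ c ≤ m → N ≤ 2 ^ w →
    ∀ G : Fin N → Asg n → ℝ, (∀ j x, 0 ≤ G j x ∧ G j x ≤ 1) →
    ∃ F : Finset (Clause n), F.card ≤ m ∧ (∀ C ∈ F, 2 ^ C.card ≤ m) ∧
      (∀ x, n ≤ c * Nat.log 2 m * falsified F x) ∧
      ∀ (μ : Clause n → Fin N → ℝ) (u : Fin N → ℝ), (∀ j, 0 ≤ u j) →
        (∀ x, ∑ C ∈ F, ∑ j, μ C j * (G j x * isFalse C x) = 1 + ∑ j, u j * G j x) →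
        (∑ x, ∑ C ∈ F, ∑ j, |μ C j| * (G j x * isFalse C x)
          ≤ (2 : ℝ) ^ ((n : ℝ) / c) * 2 ^ n) →
        (2 : ℝ) ^ ((1 - ε) * n) ≤ ∑ C ∈ F, ∑ j, |μ C j| + ∑ j, u j := by
  obtain ⟨L, hL8, hLε⟩ : ∃ L : ℕ, 8 ≤ L ∧ 8 / (L : ℝ) ≤ ε := by
    obtain ⟨L, hL⟩ := exists_nat_gt (8 / ε)
    refine ⟨L + 8, by omega, ?_⟩
    rw [div_le_iff₀ (by positivity)]
    rw [div_lt_iff₀ hε] at hL
    push_cast
    linarith
  have hLsq : 64 ≤ L ^ 2 := by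
    calc 64 = 8 ^ 2 := by norm_num
      _ ≤ L ^ 2 := Nat.pow_le_pow_left hL8 2
  refine ⟨4 * (256 * L ^ 2), by omega, ?_⟩
  intro n m w N hn hm1 hm2 hw hN G hG
  set c₁ := 256 * L ^ 2 with hc₁
  have hc₁1 : 16384 ≤ c₁ := by omega
  have hm0 : 0 < m := lt_of_lt_of_le (Nat.pow_pos (by omega)) hm1
  have hm1' : n ^ c₁ ≤ m := (Nat.pow_le_pow_right (by omega) (by omega)).trans hm1
  have hm2' : m ^ c₁ ≤ 2 ^ n := (Nat.pow_le_pow_right (by omega) (by omega)).trans hm2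
  have hmn : m ≤ 2 ^ n := by
    calc m = m ^ 1 := (pow_one m).symm
      _ ≤ m ^ c₁ := Nat.pow_le_pow_right (by omega) (by omega)
      _ ≤ 2 ^ n := hm2'
  set w₁ := w + 3 * n + 2 with hw₁
  have hN1 : 3 * m * (N * 2 ^ n * 2 ^ n) ≤ 2 ^ w₁ := by
    calc 3 * m * (N * 2 ^ n * 2 ^ n) ≤ 4 * 2 ^ n * (2 ^ w * 2 ^ n * 2 ^ n) := by
          apply Nat.mul_le_mul (Nat.mul_le_mul (by norm_num) hmn)
          exact Nat.mul_le_mul_right _ (Nat.mul_le_mul_right _ hN)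
      _ = 2 ^ w₁ := by rw [hw₁]; ring
  have hw₁m : w₁ ^ c₁ ≤ m := by
    set v := max w 1 with hv
    have hv1 : 1 ≤ v := le_max_right _ _
    have hvm : v ^ (4 * c₁) ≤ m := by
      rcases max_choice w 1 with h | h
      · rw [hv, h]; exact hw
      · rw [hv, h, one_pow]; exact hm0
    have h1 : w₁ ≤ n ^ 2 * v := by
      have h2 : w₁ ≤ 6 * (n * v) := by
        have h3 : w ≤ v := le_max_left _ _
        have h4 : v ≤ n * v := Nat.le_mul_of_pos_left _ (by omega)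
        have h5 : n ≤ n * v := Nat.le_mul_of_pos_right _ (by omega)
        omega
      calc w₁ ≤ 6 * (n * v) := h2
        _ ≤ n * (n * v) := Nat.mul_le_mul_right _ (by omega)
        _ = n ^ 2 * v := by ring
    have h2 : (w₁ ^ c₁) ^ 4 ≤ m ^ 4 := by
      calc (w₁ ^ c₁) ^ 4 ≤ ((n ^ 2 * v) ^ c₁) ^ 4 :=
            Nat.pow_le_pow_left (Nat.pow_le_pow_left h1 _) _
        _ = (n ^ (4 * c₁)) ^ 2 * v ^ (4 * c₁) := by
            rw [mul_pow, mul_pow, ← pow_mul, ← pow_mul, ← pow_mul, ← pow_mul]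
            congr 1
            · congr 1; ring
            · congr 1; ring
        _ ≤ m ^ 2 * m := Nat.mul_le_mul (Nat.pow_le_pow_left hm1 _) hvm
        _ = m ^ 3 := by ring
        _ ≤ m ^ 4 := Nat.pow_le_pow_right hm0 (by norm_num)
    exact (Nat.pow_le_pow_iff_left (by norm_num : (4 : ℕ) ≠ 0)).1 h2
  obtain ⟨F, h1, h2, h3, h4⟩ := signed_param L hL8 n m w₁ N (by omega) hm1' hm2' hw₁m hN1 G
    (fun j x => (hG j x).1) (fun j x => (hG j x).2)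
  refine ⟨F, h1, h2, ?_, ?_⟩
  · intro x
    refine (h3 x).trans ?_
    apply Nat.mul_le_mul_right
    apply Nat.mul_le_mul_right
    have : L ≤ L ^ 2 := Nat.le_self_pow (by norm_num) L
    omega
  · intro μ u hu hid hmass
    have h5 := h4 μ u hu hid (by
      refine hmass.trans ?_
      apply mul_le_mul_of_nonneg_right _ (by positivity)
      apply Real.rpow_le_rpow_of_exponent_le (by norm_num)
      apply div_le_div_of_nonneg_left (by positivity)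
      · have : (8 : ℝ) ≤ L := by exact_mod_cast hL8
        positivity
      · rw [hc₁]
        push_cast
        have : (0 : ℝ) ≤ (L : ℝ) ^ 2 := by positivity
        linarith)
    refine le_trans ?_ h5
    apply Real.rpow_le_rpow_of_exponent_le (by norm_num)
    apply mul_le_mul_of_nonneg_right _ (by positivity)
    linarith

end Pool.Agent.TH689.LX
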