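import Mathlib
import Pool.Agent.TH689.LVFinal

/-!
Static proofs: the lower bound in terms of size and mass, and exhaustive search as a static proof.
-/

set_option autoImplicit false

namespace Pool.Agent.TH689.LX

open Finset Pool.Agent.H538R2.SB

theorem static_proofs (ε : ℝ) (hε : 0 < ε) : ∃ c : ℕ, 1 ≤ c ∧ ∀ n m w N : ℕ, c ≤ n → n ^ c ≤ m →
    m ^ c ≤ 2 ^ n → w ^ c ≤ m → N ≤ 2 ^ w →
    ∀ G : Fin N → Asg n → ℝ, (∀ j x, 0 ≤ G j x ∧ G j x ≤ 1) →
    ∃ F : Finset (Clause n), F.card ≤ m ∧ (∀ C ∈ F, 2 ^ C.card ≤ m) ∧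
      (∀ x, n ≤ c * Nat.log 2 m * falsified F x) ∧
      ∀ P : StaticProof G F, P.mass ≤ (2 : ℝ) ^ ((n : ℝ) / c) →
        (2 : ℝ) ^ ((1 - ε) * n) ≤ P.size := by
  obtain ⟨c, hc, hmain⟩ := signed_main ε hε
  refine ⟨c, hc, ?_⟩
  intro n m w N h1 h2 h3 h4 h5 G hG
  obtain ⟨F, h6, h7, h8, h9⟩ := hmain n m w N h1 h2 h3 h4 h5 G hG
  refine ⟨F, h6, h7, h8, ?_⟩
  intro P hP
  refine h9 P.mult P.coeff P.coeff_nonneg P.identity ?_
  unfold StaticProof.mass at hP
  rwa [div_le_iff₀ (by positivity)] at hP

theorem static_upper (n : ℕ) : ∃ G : Fin (2 ^ n) → Asg n → ℝ, (∀ j x, 0 ≤ G j x ∧ G j x ≤ 1) ∧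
    ∀ F : Finset (Clause n), (∀ x, ∃ C ∈ F, FalseAt C x) →
      ∃ P : StaticProof G F, P.mass ≤ 1 ∧ P.size ≤ 2 ^ n := by
  classical
  let f : Fin (2 ^ n) ≃ Asg n := Fintype.equivOfCardEq (by simp)
  refine ⟨fun j x => if x = f j then 1 else 0, ?_, ?_⟩
  · intro j x
    simp only
    split_ifs <;> norm_num
  · intro F hF
    choose C hC hCf using hF
    have hid : ∀ x, ∑ D ∈ F, ∑ j, (if D = C (f j) then (1 : ℝ) else 0)
        * ((if x = f j then 1 else 0) * isFalse D x) = 1 := by
      intro x
      have h1 : ∀ D, ∑ j, (if D = C (f j) then (1 : ℝ) else 0)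
          * ((if x = f j then 1 else 0) * isFalse D x) = if D = C x then 1 else 0 := by
        intro D
        rw [Finset.sum_eq_single (f.symm x)]
        · rw [Equiv.apply_symm_apply, if_pos rfl, one_mul]
          split_ifs with hD
          · rw [hD]
            unfold isFalse
            rw [if_pos (hCf x), one_mul]
          · rw [zero_mul]
        · intro j _ hj
          have h2 : ¬ (x = f j) := fun h => hj (by rw [h, Equiv.symm_apply_apply])
          rw [if_neg h2, zero_mul, mul_zero]
        · intro h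
          exact absurd (Finset.mem_univ _) h
      rw [Finset.sum_congr rfl (fun D _ => h1 D), Finset.sum_ite_eq' F (C x), if_pos (hC x)]
    refine ⟨⟨fun D j => if D = C (f j) then 1 else 0, fun _ => 0, fun _ => le_rfl, ?_⟩, ?_, ?_⟩
    · intro x
      rw [hid x]
      simp
    · unfold StaticProof.mass
      have h1 : ∀ x, ∑ D ∈ F, ∑ j, |(if D = C (f j) then (1 : ℝ) else 0)|
          * ((if x = f j then 1 else 0) * isFalse D x) = 1 := by
        intro x
        refine Eq.trans ?_ (hid x)
        apply Finset.sum_congr rfl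
        intro D _
        apply Finset.sum_congr rfl
        intro j _
        congr 1
        split_ifs <;> simp
      simp only [h1, Finset.sum_const, Finset.card_univ, Fintype.card_fun, Fintype.card_bool,
        Fintype.card_fin, nsmul_eq_mul, mul_one]
      push_cast
      rw [div_self (by positivity)]
    · unfold StaticProof.size
      simp only [Finset.sum_const_zero, add_zero]
      have h1 : ∑ D ∈ F, ∑ j : Fin (2 ^ n), |(if D = C (f j) then (1 : ℝ) else 0)|
          = ∑ _j : Fin (2 ^ n), (1 : ℝ) := by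
        rw [Finset.sum_comm]
        apply Finset.sum_congr rfl
        intro j _
        have h2 : ∀ D, |(if D = C (f j) then (1 : ℝ) else 0)| = if D = C (f j) then 1 else 0 := by
          intro D
          split_ifs <;> simp
        rw [Finset.sum_congr rfl (fun D _ => h2 D), Finset.sum_ite_eq' F (C (f j)),
          if_pos (hC (f j))]
      rw [h1, Finset.sum_const, Finset.card_univ, Fintype.card_fin, nsmul_eq_mul, mul_one]
      push_cast
      exact le_rfl

end Pool.Agent.TH689.LX
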