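import Mathlib
import Pool.Agent.TH689.LXRank
import Pool.Agent.TH689.LYRestore

/-!
Sparse nonnegative factorizations, with a large library of column functions, of the matrix of the
numbers of collisions.
-/

set_option autoImplicit false
set_option linter.unusedSectionVars false

namespace Pool.Agent.TH689.LX

open Finset

variable {K H : ℕ} {V : Type*} [Fintype V] [DecidableEq V]

theorem rank_one_two (hH : 1 ≤ H) (hV : 1 ≤ Fintype.card V) {r l : ℝ} (hr : 0 < r) (hl : 0 ≤ l)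
    {m₀ D : ℕ} (hD : D + m₀ ≤ H + 1) (hm₀ : 1 ≤ m₀) (hlr : l * r ≤ 1)
    (hsm : (1 + 2 * H * (l * r)) ^ K ≤ 2)
    (hrq : 1 ≤ r ^ 2 * Fintype.card V)
    (u : (Fin K → V → Fin H) → ℝ) (v : (Fin K → V) → ℝ) (hu : ∀ y, 0 ≤ u y) (hv : ∀ x, 0 ≤ v x)
    (W : ℝ) (hW : ∀ x, v x ≤ W) (hbd : ∀ y, u y * W ≤ (K : ℝ) ^ 2) :
    -(farE K H m₀ (l * r) * ((∑ x, v x) * ∑ y, u y)
      + (K : ℝ) ^ 2 * ((Fintype.card (Fin K → V) : ℝ) * (Fintype.card (Fin K → V → Fin H) : ℝ)
        * ((4 * H : ℝ) ^ K * tailB K H (Fintype.card V) l))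
      + (∑ y, u y * W) * ((4 * H : ℝ) ^ K * ((Fintype.card (Fin K → V) : ℝ)
        / (r ^ 2 * Fintype.card V) ^ D)))
      ≤ ∑ y, u y * ∑ x, v x * ell (comp y x) := by
  classical
  set Y : ℝ := (Fintype.card (Fin K → V → Fin H) : ℝ) with hY
  set X : ℝ := (Fintype.card (Fin K → V) : ℝ) with hX
  have hXq : X = (Fintype.card V : ℝ) ^ K := by
    rw [hX, Fintype.card_fun, Fintype.card_fin]; push_cast; rfl
  have hfar0 : 0 ≤ farE K H m₀ (l * r) := by unfold farE; positivity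
  have hT0 : 0 ≤ tailB K H (Fintype.card V) l := by unfold tailB; positivity
  have hsv : 0 ≤ ∑ x, v x := Finset.sum_nonneg (fun x _ => hv x)
  have hsu : 0 ≤ ∑ y, u y := Finset.sum_nonneg (fun y _ => hu y)
  have hrqD : 0 < (r ^ 2 * (Fintype.card V : ℝ)) ^ D := by
    apply pow_pos
    exact lt_of_lt_of_le one_pos hrq
  obtain ⟨v₀⟩ : Nonempty V := Fintype.card_pos_iff.1 hV
  have hneY : Nonempty (Fin K → V → Fin H) := ⟨fun _ _ => ⟨0, hH⟩⟩
  have hW0 : 0 ≤ W := (hv (fun _ => v₀)).trans (hW _)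
  have huW : 0 ≤ ∑ y, u y * W := Finset.sum_nonneg (fun y _ => mul_nonneg (hu y) hW0)
  have hRHS : 0 ≤ farE K H m₀ (l * r) * ((∑ x, v x) * ∑ y, u y)
      + (K : ℝ) ^ 2 * (X * Y * ((4 * H : ℝ) ^ K * tailB K H (Fintype.card V) l))
      + (∑ y, u y * W) * ((4 * H : ℝ) ^ K * (X / (r ^ 2 * Fintype.card V) ^ D)) := by
    positivity
  obtain ⟨y₁, _, hy₁⟩ := Finset.exists_max_image (Finset.univ : Finset (Fin K → V → Fin H)) u
    Finset.univ_nonempty
  rcases hW0.eq_or_lt with hW0' | hWpos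
  · have : ∀ x, v x = 0 := fun x => le_antisymm ((hW x).trans hW0'.symm.le) (hv x)
    have h0 : ∑ y, u y * ∑ x, v x * ell (comp y x) = 0 := by simp [this]
    rw [h0]
    linarith
  rcases (hu y₁).eq_or_lt with hu0 | hupos
  · have : ∀ y, u y = 0 := fun y =>
      le_antisymm ((hy₁ y (Finset.mem_univ _)).trans hu0.symm.le) (hu y)
    have h0 : ∑ y, u y * ∑ x, v x * ell (comp y x) = 0 := by simp [this]
    rw [h0]
    linarith
  set U := u y₁ with hU
  have hUW : U * W ≤ (K : ℝ) ^ 2 := hbd y₁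
  have h1 := restore_two (ι := Fin K) (V := V) hH hV hr hl hD hm₀ hlr
    (by rw [Fintype.card_fin]; exact hsm) hrq
    (g := fun y => u y / U) (fun y => div_nonneg (hu y) hupos.le)
    (fun y => by rw [div_le_one hupos]; exact hy₁ y (Finset.mem_univ _))
    (Finset.univ.filter (fun x => v x / W ≠ 0)).card (fun x => v x / W)
    (fun x => div_nonneg (hv x) hWpos.le)
    (fun x => by rw [div_le_one hWpos]; exact hW x) le_rfl
  rw [Fintype.card_fin] at h1
  have e1 : ∑ y, u y / U * ∑ x, v x / W * ell (comp y x)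
      = (∑ y, u y * ∑ x, v x * ell (comp y x)) / (U * W) := by
    rw [Finset.sum_div]
    apply Finset.sum_congr rfl
    intro y _
    have : ∑ x, v x / W * ell (comp y x) = (∑ x, v x * ell (comp y x)) / W := by
      rw [Finset.sum_div]
      apply Finset.sum_congr rfl
      intro x _
      ring
    rw [this]
    ring
  have e2 : ∑ x, v x / W = (∑ x, v x) / W := by rw [Finset.sum_div]
  have e3 : ∑ y, u y / U = (∑ y, u y) / U := by rw [Finset.sum_div]
  rw [e1, e2, e3, ← hY] at h1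
  have hUWpos : 0 < U * W := mul_pos hupos hWpos
  have h2 := mul_le_mul_of_nonneg_right h1 hUWpos.le
  rw [div_mul_cancel₀ _ hUWpos.ne'] at h2
  refine le_trans ?_ h2
  have hWX : (∑ x, v x) ≤ X * W := by
    calc ∑ x, v x ≤ ∑ _x : Fin K → V, W := Finset.sum_le_sum (fun x _ => hW x)
      _ = X * W := by rw [Finset.sum_const, Finset.card_univ, nsmul_eq_mul]
  have e4 : -((∑ x, v x) / W * (farE K H m₀ (l * r) * ((∑ y, u y) / U)
      + (4 * (H : ℝ)) ^ K * (tailB K H (Fintype.card V) l * Y))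
      + (4 * (H : ℝ)) ^ K * ((∑ y, u y) / U) * ((Fintype.card V : ℝ) ^ K
        / (r ^ 2 * (Fintype.card V : ℝ)) ^ D)) * (U * W)
      = -(farE K H m₀ (l * r) * ((∑ x, v x) * ∑ y, u y)
        + (∑ x, v x) * U * ((4 * (H : ℝ)) ^ K * (tailB K H (Fintype.card V) l * Y))
        + ((∑ y, u y) * W) * ((4 * (H : ℝ)) ^ K * (X
        / (r ^ 2 * (Fintype.card V : ℝ)) ^ D))) := by
    rw [hXq]
    field_simp
  rw [e4]
  have h3 : (∑ x, v x) * U * ((4 * (H : ℝ)) ^ K * (tailB K H (Fintype.card V) l * Y))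
      ≤ (K : ℝ) ^ 2 * X * ((4 * (H : ℝ)) ^ K * (tailB K H (Fintype.card V) l * Y)) := by
    apply mul_le_mul_of_nonneg_right _ (by positivity)
    calc (∑ x, v x) * U ≤ (X * W) * U := mul_le_mul_of_nonneg_right hWX hupos.le
      _ = X * (U * W) := by ring
      _ ≤ X * (K : ℝ) ^ 2 := mul_le_mul_of_nonneg_left hUW (by positivity)
      _ = _ := by ring
  have e5 : (K : ℝ) ^ 2 * (X * Y * ((4 * H : ℝ) ^ K * tailB K H (Fintype.card V) l))
      = (K : ℝ) ^ 2 * X * ((4 * (H : ℝ)) ^ K * (tailB K H (Fintype.card V) l * Y)) := by ring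
  rw [e5, ← Finset.sum_mul]
  linarith

/-- sparse nonnegative factorizations -/
theorem factor_bound_two (hH : 2 ≤ H) (hV : 1 ≤ Fintype.card V) {r l : ℝ} (hr : 0 < r)
    (hl : 0 ≤ l) {m₀ D : ℕ} (hD : D + m₀ ≤ H + 1) (hm₀ : 1 ≤ m₀) (hlr : l * r ≤ 1)
    (hsm : (1 + 2 * H * (l * r)) ^ K ≤ 2)
    (hrq : 1 ≤ r ^ 2 * Fintype.card V) {δ : ℝ} (hδ : 0 ≤ δ) {R : ℕ} {T : ℝ}
    (u : Fin R → (Fin K → V → Fin H) → ℝ) (v : Fin R → (Fin K → V) → ℝ)
    (hu : ∀ j y, 0 ≤ u j y) (hv : ∀ j x, 0 ≤ v j x)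
    (hsparse : ∀ y, ((Finset.univ.filter (fun j => u j y ≠ 0)).card : ℝ) ≤ T)
    (hfac : ∀ y x, (viol (comp y x) : ℝ) - δ = ∑ j, u j y * v j x) :
    δ ≤ (K : ℝ) ^ 2 * farE K H m₀ (l * r)
      + R * ((K : ℝ) ^ 2 * ((4 * H : ℝ) ^ K * tailB K H (Fintype.card V) l))
      + T * ((K : ℝ) ^ 2 * ((4 * H : ℝ) ^ K * (1 / (r ^ 2 * Fintype.card V) ^ D))) := by
  classical
  set Y : ℝ := (Fintype.card (Fin K → V → Fin H) : ℝ) with hY
  set X : ℝ := (Fintype.card (Fin K → V) : ℝ) with hX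
  obtain ⟨v₀⟩ : Nonempty V := Fintype.card_pos_iff.1 hV
  have hneX : Nonempty (Fin K → V) := ⟨fun _ => v₀⟩
  have hneY : Nonempty (Fin K → V → Fin H) := ⟨fun _ _ => ⟨0, by omega⟩⟩
  have hYpos : 0 < Y := by rw [hY]; exact_mod_cast Fintype.card_pos
  have hXpos : 0 < X := by rw [hX]; exact_mod_cast Fintype.card_pos
  have hfar0 : 0 ≤ farE K H m₀ (l * r) := by unfold farE; positivity
  have hrqD : 0 < (r ^ 2 * (Fintype.card V : ℝ)) ^ D := by
    apply pow_pos
    exact lt_of_lt_of_le one_pos hrq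
  -- the total pairing
  have htot : ∑ x : Fin K → V, ∑ y : Fin K → V → Fin H,
      ell (comp y x) * ((viol (comp y x) : ℝ) - δ) = -(δ * (X * Y)) := by
    have h1 : ∀ x : Fin K → V, ∑ y : Fin K → V → Fin H,
        ell (comp y x) * ((viol (comp y x) : ℝ) - δ) = -(δ * Y) := by
      intro x
      have h2 := sum_comp x (fun z : Fin K → Fin H => ell z * ((viol z : ℝ) - δ))
      rw [sum_ell_viol hH, Fintype.card_fin, Fintype.card_fin] at h2
      have hHK : (0 : ℝ) < (H : ℝ) ^ K := by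
        apply pow_pos
        exact_mod_cast (by omega : 0 < H)
      have h3 : (H : ℝ) ^ K * ∑ y : Fin K → V → Fin H,
          ell (comp y x) * ((viol (comp y x) : ℝ) - δ) = (H : ℝ) ^ K * (-(δ * Y)) := by
        rw [h2]; ring
      exact mul_left_cancel₀ hHK.ne' h3
    rw [Finset.sum_congr rfl (fun x _ => h1 x), Finset.sum_const, Finset.card_univ, nsmul_eq_mul]
    ring
  have hsplit : ∑ x : Fin K → V, ∑ y : Fin K → V → Fin H,
      ell (comp y x) * ((viol (comp y x) : ℝ) - δ)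
      = ∑ j, ∑ y, u j y * ∑ x, v j x * ell (comp y x) := by
    rw [Finset.sum_comm]
    rw [Finset.sum_comm (s := (Finset.univ : Finset (Fin R)))]
    apply Finset.sum_congr rfl
    intro y _
    simp only [hfac, Finset.mul_sum]
    rw [Finset.sum_comm]
    apply Finset.sum_congr rfl
    intro j _
    apply Finset.sum_congr rfl
    intro x _
    ring
  have hbd : ∀ j y x, u j y * v j x ≤ (K : ℝ) ^ 2 := by
    intro j y x
    have h1 : u j y * v j x ≤ ∑ j, u j y * v j x :=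
      Finset.single_le_sum (f := fun j => u j y * v j x)
        (fun j _ => mul_nonneg (hu j y) (hv j x)) (Finset.mem_univ j)
    rw [← hfac] at h1
    have h2 : (viol (comp y x) : ℝ) ≤ (K : ℝ) ^ 2 := by exact_mod_cast viol_le (comp y x)
    linarith
  have hmax : ∀ j, ∃ x₁, ∀ x, v j x ≤ v j x₁ := by
    intro j
    obtain ⟨x₁, _, hx₁⟩ := Finset.exists_max_image (Finset.univ : Finset (Fin K → V)) (v j)
      Finset.univ_nonempty
    exact ⟨x₁, fun x => hx₁ x (Finset.mem_univ _)⟩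
  choose x₁ hx₁ using hmax
  set E₃ : ℝ := (4 * H : ℝ) ^ K * (X / (r ^ 2 * Fintype.card V) ^ D) with hE₃
  have hE₃0 : 0 ≤ E₃ := by positivity
  have hlow : ∀ j ∈ (Finset.univ : Finset (Fin R)),
      -(farE K H m₀ (l * r) * ((∑ x, v j x) * ∑ y, u j y)
      + (K : ℝ) ^ 2 * (X * Y * ((4 * H : ℝ) ^ K * tailB K H (Fintype.card V) l))
      + (∑ y, u j y * v j (x₁ j)) * E₃)
      ≤ ∑ y, u j y * ∑ x, v j x * ell (comp y x) := fun j _ =>
    rank_one_two (by omega) hV hr hl hD hm₀ hlr hsm hrq (u j) (v j) (hu j) (hv j) (v j (x₁ j))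
      (hx₁ j) (fun y => hbd j y (x₁ j))
  have h1 := Finset.sum_le_sum hlow
  rw [← hsplit, htot, Finset.sum_neg_distrib, Finset.sum_add_distrib, Finset.sum_add_distrib,
    ← Finset.mul_sum, Finset.sum_const, Finset.card_univ, Fintype.card_fin, nsmul_eq_mul,
    ← Finset.sum_mul] at h1
  have h2 : ∑ j, (∑ x, v j x) * ∑ y, u j y ≤ (K : ℝ) ^ 2 * (X * Y) := by
    have h3 : ∑ j, (∑ x, v j x) * ∑ y, u j y
        = ∑ x : Fin K → V, ∑ y : Fin K → V → Fin H, ((viol (comp y x) : ℝ) - δ) := by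
      simp only [hfac]
      rw [Finset.sum_congr rfl (fun x _ => Finset.sum_comm), Finset.sum_comm]
      apply Finset.sum_congr rfl
      intro j _
      rw [Finset.sum_mul]
      apply Finset.sum_congr rfl
      intro x _
      rw [Finset.mul_sum]
      apply Finset.sum_congr rfl
      intro y _
      ring
    rw [h3]
    calc ∑ x : Fin K → V, ∑ y : Fin K → V → Fin H, ((viol (comp y x) : ℝ) - δ)
        ≤ ∑ _x : Fin K → V, ∑ _y : Fin K → V → Fin H, (K : ℝ) ^ 2 := by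
          apply Finset.sum_le_sum
          intro x _
          apply Finset.sum_le_sum
          intro y _
          have : (viol (comp y x) : ℝ) ≤ (K : ℝ) ^ 2 := by exact_mod_cast viol_le (comp y x)
          linarith
      _ = _ := by
          rw [Finset.sum_const, Finset.sum_const, Finset.card_univ, Finset.card_univ,
            nsmul_eq_mul, nsmul_eq_mul]
          ring
  have h3 : farE K H m₀ (l * r) * ∑ j, (∑ x, v j x) * ∑ y, u j y
      ≤ farE K H m₀ (l * r) * ((K : ℝ) ^ 2 * (X * Y)) := mul_le_mul_of_nonneg_left h2 hfar0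
  have h5 : ∑ j, ∑ y, u j y * v j (x₁ j) ≤ Y * (T * (K : ℝ) ^ 2) := by
    rw [Finset.sum_comm]
    calc ∑ y, ∑ j, u j y * v j (x₁ j) ≤ ∑ _y : Fin K → V → Fin H, T * (K : ℝ) ^ 2 := by
          apply Finset.sum_le_sum
          intro y _
          have h6 : ∑ j, u j y * v j (x₁ j)
              = ∑ j ∈ Finset.univ.filter (fun j => u j y ≠ 0), u j y * v j (x₁ j) := by
            rw [Finset.sum_filter]
            apply Finset.sum_congr rfl
            intro j _
            by_cases hj : u j y = 0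
            · simp [hj]
            · rw [if_pos hj]
          rw [h6]
          calc ∑ j ∈ Finset.univ.filter (fun j => u j y ≠ 0), u j y * v j (x₁ j)
              ≤ ∑ _j ∈ Finset.univ.filter (fun j => u j y ≠ 0), (K : ℝ) ^ 2 :=
                Finset.sum_le_sum (fun j _ => hbd j y (x₁ j))
            _ = ((Finset.univ.filter (fun j => u j y ≠ 0)).card : ℝ) * (K : ℝ) ^ 2 := by
                rw [Finset.sum_const, nsmul_eq_mul]
            _ ≤ _ := mul_le_mul_of_nonneg_right (hsparse y) (by positivity)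
      _ = _ := by rw [Finset.sum_const, Finset.card_univ, nsmul_eq_mul]
  have h6 := mul_le_mul_of_nonneg_right h5 hE₃0
  have h4 : δ * (X * Y) ≤ ((K : ℝ) ^ 2 * farE K H m₀ (l * r)
      + R * ((K : ℝ) ^ 2 * ((4 * H : ℝ) ^ K * tailB K H (Fintype.card V) l))
      + T * ((K : ℝ) ^ 2 * ((4 * H : ℝ) ^ K * (1 / (r ^ 2 * Fintype.card V) ^ D)))) * (X * Y) := by
    have e : ((K : ℝ) ^ 2 * farE K H m₀ (l * r)
      + R * ((K : ℝ) ^ 2 * ((4 * H : ℝ) ^ K * tailB K H (Fintype.card V) l))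
      + T * ((K : ℝ) ^ 2 * ((4 * H : ℝ) ^ K * (1 / (r ^ 2 * Fintype.card V) ^ D)))) * (X * Y)
      = farE K H m₀ (l * r) * ((K : ℝ) ^ 2 * (X * Y))
        + R * ((K : ℝ) ^ 2 * (X * Y * ((4 * H : ℝ) ^ K * tailB K H (Fintype.card V) l)))
        + Y * (T * (K : ℝ) ^ 2) * E₃ := by
      rw [hE₃]; ring
    rw [e]
    linarith
  exact le_of_mul_le_mul_right h4 (mul_pos hXpos hYpos)

end Pool.Agent.TH689.LX
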