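import Mathlib
import Pool.Agent.TH689.LXCnf
import Pool.Agent.TH689.LYRank

/-!
Representations of the number of falsified clauses by few functions of a library.
-/

set_option autoImplicit false
set_option linter.unusedSectionVars false

namespace Pool.Agent.TH689.LX

open Finset Pool.Agent.H538R2.SB

/-- the finite form of the lower bound -/
theorem static_finite {n K b H N : ℕ} (hb : 0 < b) (hKb : K * b ≤ n) (hH : 2 ≤ H) {r l : ℝ}
    (hr : 0 < r) (hl : 0 ≤ l) {m₀ D : ℕ} (hD : D + m₀ ≤ H + 1) (hm₀ : 1 ≤ m₀) (hlr : l * r ≤ 1)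
    (hsm : (1 + 2 * H * (l * r)) ^ K ≤ 2)
    (hrq : 1 ≤ r ^ 2 * ((2 ^ b : ℕ) : ℝ)) {δ T : ℝ} (hδ : 0 ≤ δ)
    (g : Fin N → Asg n → ℝ) (hg : ∀ j x, 0 ≤ g j x)
    (hrep : ∀ y : Fin K → (Fin b → Bool) → Fin H, ∃ (A : Finset (Fin N)) (u : Fin N → ℝ) (δ' : ℝ),
      (∀ j ∈ A, 0 ≤ u j) ∧ δ ≤ δ' ∧
      (∀ x, (falsified (form hKb y) x : ℝ) = δ' + ∑ j ∈ A, u j * g j x) ∧ (A.card : ℝ) ≤ T) :
    δ ≤ (K : ℝ) ^ 2 * farE K H m₀ (l * r)
      + ((N + 1 : ℕ) : ℝ) * ((K : ℝ) ^ 2 * ((4 * H : ℝ) ^ K * tailB K H (2 ^ b) l))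
      + (T + 1) * ((K : ℝ) ^ 2 * ((4 * H : ℝ) ^ K * (1 / (r ^ 2 * ((2 ^ b : ℕ) : ℝ)) ^ D))) := by
  classical
  have hq : Fintype.card (Fin b → Bool) = 2 ^ b := by
    rw [Fintype.card_fun, Fintype.card_bool, Fintype.card_fin]
  have hV : 1 ≤ Fintype.card (Fin b → Bool) := by rw [hq]; exact Nat.one_le_two_pow
  choose A u δ' hu hδ' hfac hT using hrep
  have := factor_bound_two (K := K) (H := H) (V := Fin b → Bool) hH hV hr hl hD hm₀ hlr hsm
    (by rw [hq]; exact hrq) hδ (R := N + 1) (T := T + 1)
    (fun j y => Fin.cases (δ' y - δ) (fun i => if i ∈ A y then u y i else 0) j)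
    (fun j x => Fin.cases (1 : ℝ) (fun i => g i (unblock x)) j)
    (by
      intro j y
      refine Fin.cases ?_ (fun i => ?_) j
      · have := hδ' y
        simp only [Fin.cases_zero]
        linarith
      · simp only [Fin.cases_succ]
        split_ifs with h
        · exact hu y i h
        · exact le_rfl)
    (by
      intro j x
      refine Fin.cases ?_ (fun i => ?_) j
      · exact zero_le_one
      · simp only [Fin.cases_succ]
        exact hg i _)
    (by
      intro y
      have h1 : (Finset.univ.filter (fun j : Fin (N + 1) =>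
          (Fin.cases (δ' y - δ) (fun i => if i ∈ A y then u y i else 0) j : ℝ) ≠ 0))
          ⊆ insert 0 ((A y).image Fin.succ) := by
        intro j hj
        have hj' := (Finset.mem_filter.1 hj).2
        revert hj'
        refine Fin.cases ?_ (fun i => ?_) j
        · intro _
          exact Finset.mem_insert_self _ _
        · intro h
          simp only [Fin.cases_succ] at h
          apply Finset.mem_insert_of_mem
          apply Finset.mem_image_of_mem
          by_contra hcon
          rw [if_neg hcon] at h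
          exact h rfl
      have h2 : (Finset.univ.filter (fun j : Fin (N + 1) =>
          (Fin.cases (δ' y - δ) (fun i => if i ∈ A y then u y i else 0) j : ℝ) ≠ 0)).card
          ≤ (A y).card + 1 :=
        (Finset.card_le_card h1).trans ((Finset.card_insert_le _ _).trans
          (Nat.add_le_add_right Finset.card_image_le _))
      have h3 := hT y
      have h4 : (((Finset.univ.filter (fun j : Fin (N + 1) =>
          (Fin.cases (δ' y - δ) (fun i => if i ∈ A y then u y i else 0) j : ℝ) ≠ 0)).card : ℕ) : ℝ)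
          ≤ (A y).card + 1 := by exact_mod_cast h2
      exact h4.trans (by linarith))
    (by
      intro y x
      have h1 := hfac y (unblock x)
      rw [falsified_form hb, blocks_unblock] at h1
      rw [Fin.sum_univ_succ]
      simp only [Fin.cases_zero, Fin.cases_succ, ite_mul, zero_mul]
      rw [Finset.sum_ite_mem, Finset.univ_inter]
      linarith)
  rw [hq] at this
  exact this

end Pool.Agent.TH689.LX
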