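import Mathlib
import Pool.Agent.TH689.LYStatic
import Pool.Agent.TH689.LWSetup

/-!
Choice of the parameters for the lower bound for libraries of nonnegative functions.
-/

set_option autoImplicit false

namespace Pool.Agent.TH689.LX

open Finset Filter Pool.Agent.H538R2.SB

/-- the choice of the parameters -/
theorem static_param (L : ℕ) (hL : 8 ≤ L) (n m w N : ℕ) (hn : 256 * L ^ 2 ≤ n)
    (hm1 : n ^ (256 * L ^ 2) ≤ m) (hm2 : m ^ (256 * L ^ 2) ≤ 2 ^ n) (hw : w ^ (256 * L ^ 2) ≤ m)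
    (hN : N ≤ 2 ^ w) (G : Fin N → Asg n → ℝ) (hG : ∀ j x, 0 ≤ G j x) :
    ∃ F : Finset (Clause n), F.card ≤ m ∧ (∀ C ∈ F, 2 ^ C.card ≤ m) ∧
      (∀ x, n ≤ L * Nat.log 2 m * falsified F x) ∧
      ∀ (A : Finset (Fin N)) (u : Fin N → ℝ) (δ : ℝ), (∀ j ∈ A, 0 ≤ u j) →
        (2 : ℝ) ^ (-(n / (8 * L ^ 2 : ℝ))) ≤ δ →
        (∀ x, (falsified F x : ℝ) = δ + ∑ j ∈ A, u j * G j x) →
        (2 : ℝ) ^ ((1 - 8 / (L : ℝ)) * n) ≤ A.card := by
  obtain ⟨K, b, H, m₀, D, r, l, hbpos, hKb, hH2, hr0, hr1, hl0, hD, hm₀1, hHm, hlr1, hsm, hrq1,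
    hKbm, h2bμ, hnm₀, hK2, hfar, htail, hT₀1, hT₀n, hτ0, hκ0, hfinal⟩ := setup L hL n m hn hm1 hm2
  have htail' := htail w N hw hN
  clear htail
  have hm0 : m ≠ 0 := by
    have : 0 < n ^ (256 * L ^ 2) := Nat.pow_pos (by
      have : 8 ^ 2 ≤ L ^ 2 := Nat.pow_le_pow_left hL 2
      omega)
    omega
  have hμm : 2 ^ (Nat.log 2 m) ≤ m := Nat.pow_log_le_self 2 hm0
  obtain ⟨δ₀, hδ₀⟩ : ∃ δ₀ : ℝ, δ₀ = (2 : ℝ) ^ (-(n / (8 * L ^ 2 : ℝ))) := ⟨_, rfl⟩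
  have hδ₀0 : 0 < δ₀ := by rw [hδ₀]; positivity
  rw [← hδ₀] at hfar htail' hfinal ⊢
  obtain ⟨T₀, hT₀⟩ : ∃ T₀ : ℝ, T₀ = (2 : ℝ) ^ ((1 - 8 / (L : ℝ)) * n) := ⟨_, rfl⟩
  rw [← hT₀] at hT₀1 hT₀n hfinal ⊢
  -- the formulas
  by_contra hcon
  push Not at hcon
  have hrep : ∀ y : Fin K → (Fin b → Bool) → Fin H,
      ∃ (A : Finset (Fin N)) (u : Fin N → ℝ) (δ' : ℝ),
      (∀ j ∈ A, 0 ≤ u j) ∧ δ₀ ≤ δ' ∧
      (∀ x, (falsified (form hKb y) x : ℝ) = δ' + ∑ j ∈ A, u j * G j x) ∧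
      (A.card : ℝ) ≤ T₀ := by
    intro y
    obtain ⟨A, u, δ', h3, h4, h5, h6⟩ := hcon (form hKb y) ((form_card hKb y).trans hKbm)
      (by
        intro C hC
        refine (Nat.pow_le_pow_right (by norm_num) (form_width hKb y hC)).trans ?_
        exact (Nat.pow_le_pow_right (by norm_num) h2bμ).trans hμm)
      (by
        intro x
        have h3 : m₀ ≤ falsified (form hKb y) x := by
          rw [falsified_form hbpos]
          have := viol_ge (comp y (blocks hKb x))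
          omega
        exact hnm₀.trans (Nat.mul_le_mul_left _ h3))
    exact ⟨A, u, δ', h3, h4, h5, h6.le⟩
  have hfin := static_finite (n := n) (K := K) (b := b) (H := H) (N := N) hbpos hKb hH2
    hr0 hl0 (m₀ := m₀) (D := D) hD hm₀1 hlr1 hsm hrq1 hδ₀0.le G hG hrep
  linarith

/-- Libraries of nonnegative functions. -/
theorem static_main (ε : ℝ) (hε : 0 < ε) : ∃ c : ℕ, 1 ≤ c ∧ ∀ n m w N : ℕ, c ≤ n → n ^ c ≤ m →
    m ^ c ≤ 2 ^ n → w ^ c ≤ m → N ≤ 2 ^ w →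
    ∀ G : Fin N → Asg n → ℝ, (∀ j x, 0 ≤ G j x) →
    ∃ F : Finset (Clause n), F.card ≤ m ∧ (∀ C ∈ F, 2 ^ C.card ≤ m) ∧
      (∀ x, n ≤ c * Nat.log 2 m * falsified F x) ∧
      ∀ (A : Finset (Fin N)) (u : Fin N → ℝ) (δ : ℝ), (∀ j ∈ A, 0 ≤ u j) →
        (2 : ℝ) ^ (-((n : ℝ) / c)) ≤ δ →
        (∀ x, (falsified F x : ℝ) = δ + ∑ j ∈ A, u j * G j x) →
        (2 : ℝ) ^ ((1 - ε) * n) ≤ A.card := by
  obtain ⟨L, hL8, hLε⟩ : ∃ L : ℕ, 8 ≤ L ∧ 8 / (L : ℝ) ≤ ε := by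
    obtain ⟨L, hL⟩ := exists_nat_gt (8 / ε)
    refine ⟨L + 8, by omega, ?_⟩
    rw [div_le_iff₀ (by positivity)]
    rw [div_lt_iff₀ hε] at hL
    push_cast
    linarith
  have hLsq : 64 ≤ L ^ 2 := by
    calc 64 = 8 ^ 2 := by norm_num
      _ ≤ L ^ 2 := Nat.pow_le_pow_left hL8 2
  refine ⟨256 * L ^ 2, by omega, ?_⟩
  intro n m w N hn hm1 hm2 hw hN G hG
  obtain ⟨F, h1, h2, h3, h4⟩ := static_param L hL8 n m w N hn hm1 hm2 hw hN G hG
  refine ⟨F, h1, h2, ?_, ?_⟩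
  · intro x
    refine (h3 x).trans ?_
    apply Nat.mul_le_mul_right
    apply Nat.mul_le_mul_right
    calc L ≤ L ^ 2 := Nat.le_self_pow (by norm_num) L
      _ ≤ 256 * L ^ 2 := by omega
  · intro A u δ hu hδ hrep
    have h5 := h4 A u δ hu (by
      refine le_trans ?_ hδ
      apply Real.rpow_le_rpow_of_exponent_le (by norm_num)
      rw [neg_le_neg_iff]
      apply div_le_div_of_nonneg_left (by positivity)
      · have : (8 : ℝ) ≤ L := by exact_mod_cast hL8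
        positivity
      · push_cast
        have : (0 : ℝ) ≤ (L : ℝ) ^ 2 := by positivity
        linarith) hrep
    refine le_trans ?_ h5
    apply Real.rpow_le_rpow_of_exponent_le (by norm_num)
    apply mul_le_mul_of_nonneg_right _ (by positivity)
    linarith

end Pool.Agent.TH689.LX
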