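import Mathlib
import Pool.Agent.TH689.BBFarkas
import Pool.Agent.TH689.LYFinal

/-!
Branch-and-bound with linear programming relaxations: from a refutation to a short representation of
the number of falsified clauses.
-/

set_option autoImplicit false

namespace Pool.Agent.TH689.BB

open Finset Pool.Agent.H538R2.SB Pool.Agent.TH689.LX

/-- the kinds of functions at one leaf -/
abbrev Kind (n s r N : ℕ) : Type := Option (Fin s ⊕ (Fin N ⊕ (Clause n ⊕ (Clause n × Fin r))))

/-- the index set of the library -/
abbrev Idx (n s r N h : ℕ) : Type := (Fin h → Option (Fin N)) × Kind n s r N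

/-- the indicator function of a false clause -/
noncomputable def isFalse {n : ℕ} (C : Clause n) (x : Asg n) : ℝ := if FalseAt C x then 1 else 0

lemma isFalse_nonneg {n : ℕ} (C : Clause n) (x : Asg n) : 0 ≤ isFalse C x := by
  unfold isFalse; split_ifs <;> norm_num

lemma sum_isFalse {n : ℕ} (F : Finset (Clause n)) (x : Asg n) :
    ∑ C ∈ F, isFalse C x = (falsified F x : ℝ) := by
  unfold isFalse falsified
  rw [← Finset.sum_filter, Finset.sum_const, nsmul_eq_mul, mul_one]

/-- the functions at one leaf, without the indicator function of the leaf -/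
noncomputable def kind {n s r N : ℕ} (P : Relaxation n s r) (cut : Fin N → (Fin P.d → ℝ) × ℝ)
    (o : Kind n s r N) (x : Asg n) : ℝ :=
  match o with
  | none => 1
  | some (Sum.inl i) => - excess (P.common i) (P.point x)
  | some (Sum.inr (Sum.inl j)) => max 0 (- excess (cut j) (P.point x))
  | some (Sum.inr (Sum.inr (Sum.inl C))) => isFalse C x
  | some (Sum.inr (Sum.inr (Sum.inr (C, i)))) =>
      isFalse C x - excess (P.ofClause C i) (P.point x)

lemma kind_nonneg {n s r N : ℕ} (P : Relaxation n s r) (cut : Fin N → (Fin P.d → ℝ) × ℝ)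
    (o : Kind n s r N) (x : Asg n) : 0 ≤ kind P cut o x := by
  rcases o with _ | (i | j | C | ⟨C, i⟩)
  · exact zero_le_one
  · have := P.common_le x i
    simp only [kind]
    linarith
  · exact le_max_left _ _
  · exact isFalse_nonneg C x
  · simp only [kind, isFalse]
    split_ifs with hC
    · have := P.ofClause_le_one C x i
      linarith
    · have := P.ofClause_le C x i hC
      linarith

open Classical in
/-- the library -/
noncomputable def lib {n s r N : ℕ} (P : Relaxation n s r) (cut : Fin N → (Fin P.d → ℝ) × ℝ)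
    (h : ℕ) (p : Idx n s r N h) (x : Asg n) : ℝ :=
  if (∀ k j, p.1 k = some j → excess (cut j) (P.point x) ≤ 0) then kind P cut p.2 x else 0

lemma lib_nonneg {n s r N : ℕ} (P : Relaxation n s r) (cut : Fin N → (Fin P.d → ℝ) × ℝ)
    (h : ℕ) (p : Idx n s r N h) (x : Asg n) : 0 ≤ lib P cut h p x := by
  unfold lib
  split_ifs
  · exact kind_nonneg P cut _ x
  · exact le_rfl

/-- enumeration of a small set -/
lemma exists_enum {N h : ℕ} (S : Finset (Fin N)) (hS : S.card ≤ h) :
    ∃ ρ : Fin h → Option (Fin N), ∀ j, j ∈ S ↔ ∃ k, ρ k = some j := by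
  classical
  let e := S.equivFin
  refine ⟨fun k => if hk : (k : ℕ) < S.card then some (e.symm ⟨k, hk⟩).1 else none, ?_⟩
  intro j
  constructor
  · intro hj
    refine ⟨⟨(e ⟨j, hj⟩ : ℕ), (e ⟨j, hj⟩).2.trans_le hS⟩, ?_⟩
    simp only
    rw [dif_pos (e ⟨j, hj⟩).2]
    simp
  · rintro ⟨k, hk⟩
    simp only at hk
    by_cases hk' : (k : ℕ) < S.card
    · rw [dif_pos hk'] at hk
      have := Option.some.inj hk
      rw [← this]
      exact (e.symm ⟨k, hk'⟩).2
    · rw [dif_neg hk'] at hk
      exact absurd hk (by simp)

/-- the representation at one leaf -/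
theorem leaf_rep {n s r N : ℕ} (P : Relaxation n s r)
    (cut : Fin N → (Fin P.d → ℝ) × ℝ) {F : Finset (Clause n)} {δ : ℝ} (leaf : Finset (Fin N))
    (hno : (∀ u, P.Solves F δ u → ∃ j ∈ leaf, 0 < excess (cut j) u) ∨
      ∃ f : (Fin P.d → ℝ) × ℝ, (∀ x, excess f (P.point x) = falsified F x) ∧
        ∀ u, P.Solves F δ u → excess f u ≤ δ → ∃ j ∈ leaf, 0 < excess (cut j) u)
    (x₀ : Asg n) (hx₀ : ∀ j ∈ leaf, excess (cut j) (P.point x₀) ≤ 0) :
    ∃ (v0 : ℝ) (v : Fin s → ℝ) (v' : Fin N → ℝ) (ν : Clause n → ℝ) (μ : Clause n → Fin r → ℝ),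
      0 ≤ v0 ∧ (∀ i, 0 ≤ v i) ∧ (∀ j, 0 ≤ v' j) ∧ (∀ C ∈ F, 0 ≤ ν C) ∧ (∀ C i, 0 ≤ μ C i) ∧
      ∀ x : Asg n, (falsified F x : ℝ) - δ
        = v0 + (∑ i, v i * (- excess (P.common i) (P.point x))
          + (∑ j ∈ leaf, v' j * (- excess (cut j) (P.point x))
          + (∑ C ∈ F, ν C * isFalse C x
          + ∑ C ∈ F, ∑ i, μ C i * (isFalse C x - excess (P.ofClause C i) (P.point x))))) := by
  classical
  obtain ⟨v0, v, v', μ, lam, hv0, hv, hv', hμ, hlam, hsum, hrep⟩ :
      ∃ (v0 : ℝ) (v : Fin s → ℝ) (v' : Fin N → ℝ) (μ : Clause n → Fin r → ℝ) (lam : ℝ),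
      0 ≤ v0 ∧ (∀ i, 0 ≤ v i) ∧ (∀ j, 0 ≤ v' j) ∧ (∀ C i, 0 ≤ μ C i) ∧ 0 ≤ lam ∧
      (∑ C ∈ F, ∑ i, μ C i + lam = 1) ∧
      ∀ x : Asg n, ∑ C ∈ F, ∑ i, μ C i * excess (P.ofClause C i) (P.point x)
          + lam * falsified F x
        = δ + (v0 + ∑ i, v i * (- excess (P.common i) (P.point x))
          + ∑ j ∈ leaf, v' j * (- excess (cut j) (P.point x))) := by
    rcases hno with hno | ⟨f, hf, hno⟩
    · obtain ⟨v0, v, v', μ, μ₀, hv0, hv, hv', hμ, hμ₀, hsum, hrep⟩ :=
        leaf_multipliers P cut (F := F) (δ := δ) leaf (κ₀ := Empty) (fun k => k.elim)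
          (fun u hu _ => hno u hu) x₀ hx₀
      refine ⟨v0, v, v', μ, 0, hv0, hv, hv', hμ, le_rfl, ?_, ?_⟩
      · rw [← hsum]
        simp
      · intro x
        rw [← hrep x]
        simp
    · obtain ⟨v0, v, v', μ, μ₀, hv0, hv, hv', hμ, hμ₀, hsum, hrep⟩ :=
        leaf_multipliers P cut (F := F) (δ := δ) leaf (κ₀ := Unit) (fun _ => f)
          (fun u hu h => hno u hu (h ())) x₀ hx₀
      refine ⟨v0, v, v', μ, μ₀ (), hv0, hv, hv', hμ, hμ₀ (), ?_, ?_⟩
      · rw [← hsum]
        simp
      · intro x
        rw [← hrep x]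
        simp [hf x]
  refine ⟨v0, v, v', fun C => 1 - lam - ∑ i, μ C i, μ, hv0, hv, hv', ?_, hμ, ?_⟩
  · intro C hC
    have h1 : ∑ i, μ C i ≤ ∑ C ∈ F, ∑ i, μ C i :=
      Finset.single_le_sum (f := fun C => ∑ i, μ C i)
        (fun C _ => Finset.sum_nonneg (fun i _ => hμ C i)) hC
    linarith
  · intro x
    have h1 := hrep x
    have h2 : ∑ C ∈ F, ∑ i, μ C i * (isFalse C x - excess (P.ofClause C i) (P.point x))
        = ∑ C ∈ F, (∑ i, μ C i) * isFalse C x
          - ∑ C ∈ F, ∑ i, μ C i * excess (P.ofClause C i) (P.point x) := by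
      rw [← Finset.sum_sub_distrib]
      apply Finset.sum_congr rfl
      intro C _
      rw [Finset.sum_mul, ← Finset.sum_sub_distrib]
      apply Finset.sum_congr rfl
      intro i _
      ring
    have h3 : ∑ C ∈ F, (1 - lam - ∑ i, μ C i) * isFalse C x
        = (1 - lam) * (falsified F x : ℝ) - ∑ C ∈ F, (∑ i, μ C i) * isFalse C x := by
      rw [← sum_isFalse, Finset.mul_sum, ← Finset.sum_sub_distrib]
      apply Finset.sum_congr rfl
      intro C _
      ring
    rw [h2, h3]
    linarith

open Classical in
/-- the kinds of functions used at a leaf -/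
noncomputable def usedKinds {n s r N : ℕ} (F : Finset (Clause n)) (leaf : Finset (Fin N)) :
    Finset (Kind n s r N) :=
  insert none (((Finset.univ : Finset (Fin s)).image (fun a => some (Sum.inl a)))
    ∪ ((leaf.image (fun j => some (Sum.inr (Sum.inl j))))
    ∪ ((F.image (fun C => some (Sum.inr (Sum.inr (Sum.inl C)))))
    ∪ ((F ×ˢ (Finset.univ : Finset (Fin r))).image
        (fun p => some (Sum.inr (Sum.inr (Sum.inr p))))))))

lemma usedKinds_card {n s r N : ℕ} (F : Finset (Clause n)) (leaf : Finset (Fin N)) :
    (usedKinds (s := s) (r := r) F leaf).card ≤ s + (leaf.card + (F.card + F.card * r)) + 1 := by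
  classical
  unfold usedKinds
  refine (Finset.card_insert_le _ _).trans (Nat.add_le_add_right ?_ 1)
  refine (Finset.card_union_le _ _).trans (Nat.add_le_add ?_ ?_)
  · refine Finset.card_image_le.trans ?_
    rw [Finset.card_univ, Fintype.card_fin]
  refine (Finset.card_union_le _ _).trans (Nat.add_le_add Finset.card_image_le ?_)
  refine (Finset.card_union_le _ _).trans (Nat.add_le_add Finset.card_image_le ?_)
  refine Finset.card_image_le.trans ?_
  rw [Finset.card_product, Finset.card_univ, Fintype.card_fin]

/-- a branch-and-bound refutation gives a short representation -/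
theorem refutes_rep {n s r N h t : ℕ} (P : Relaxation n s r)
    (cut : Fin N → (Fin P.d → ℝ) × ℝ) {F : Finset (Clause n)} {δ : ℝ}
    (hB : P.Refutes cut F t h δ) :
    ∃ (A : Finset (Idx n s r N h)) (u : Idx n s r N h → ℝ), (∀ p ∈ A, 0 ≤ u p) ∧
      (∀ x, (falsified F x : ℝ) = δ + ∑ p ∈ A, u p * lib P cut h p x) ∧
      A.card ≤ t * (s + (h + (F.card + F.card * r)) + 1) := by
  classical
  obtain ⟨leaf, hcard, huniq, hno⟩ := hB
  choose ρ hρ using fun i => exists_enum (leaf i) (hcard i)
  have hreg : ∀ i x, (∀ k j, ρ i k = some j → excess (cut j) (P.point x) ≤ 0) ↔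
      (∀ j ∈ leaf i, excess (cut j) (P.point x) ≤ 0) := by
    intro i x
    constructor
    · intro h j hj
      obtain ⟨k, hk⟩ := (hρ i j).1 hj
      exact h k j hk
    · intro h k j hk
      exact h j ((hρ i j).2 ⟨k, hk⟩)
  -- multipliers
  have hmult : ∀ i, ∃ c : Kind n s r N → ℝ, (∀ o, 0 ≤ c o) ∧
      (∀ o, o ∉ usedKinds F (leaf i) → c o = 0) ∧
      ∀ x, (∀ j ∈ leaf i, excess (cut j) (P.point x) ≤ 0) →
        (falsified F x : ℝ) - δ = ∑ o, c o * kind P cut o x := by
    intro i
    by_cases hne : ∃ x₀, ∀ j ∈ leaf i, excess (cut j) (P.point x₀) ≤ 0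
    · obtain ⟨x₀, hx₀⟩ := hne
      obtain ⟨v0, v, v', ν, μ, hv0, hv, hv', hν, hμ, hrep⟩ :=
        leaf_rep P cut (leaf i) (hno i) x₀ hx₀
      refine ⟨fun o => match o with
        | none => v0
        | some (Sum.inl a) => v a
        | some (Sum.inr (Sum.inl j)) => if j ∈ leaf i then v' j else 0
        | some (Sum.inr (Sum.inr (Sum.inl C))) => if C ∈ F then ν C else 0
        | some (Sum.inr (Sum.inr (Sum.inr (C, a)))) => if C ∈ F then μ C a else 0,
        ?_, ?_, ?_⟩
      · rintro (_ | (a | j | C | ⟨C, a⟩))
        · exact hv0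
        · exact hv a
        · simp only
          split_ifs
          · exact hv' j
          · exact le_rfl
        · simp only
          split_ifs with hC
          · exact hν C hC
          · exact le_rfl
        · simp only
          split_ifs
          · exact hμ C a
          · exact le_rfl
      · rintro (_ | (a | j | C | ⟨C, a⟩)) ho
        · exact absurd (Finset.mem_insert_self _ _) ho
        · exact absurd (Finset.mem_insert_of_mem (Finset.mem_union_left _
            (Finset.mem_image_of_mem _ (Finset.mem_univ a)))) ho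
        · simp only
          rw [if_neg]
          intro hj
          exact ho (Finset.mem_insert_of_mem (Finset.mem_union_right _ (Finset.mem_union_left _
            (Finset.mem_image_of_mem _ hj))))
        · simp only
          rw [if_neg]
          intro hC
          exact ho (Finset.mem_insert_of_mem (Finset.mem_union_right _ (Finset.mem_union_right _
            (Finset.mem_union_left _ (Finset.mem_image_of_mem _ hC)))))
        · simp only
          rw [if_neg]
          intro hC
          exact ho (Finset.mem_insert_of_mem (Finset.mem_union_right _ (Finset.mem_union_right _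
            (Finset.mem_union_right _ (Finset.mem_image_of_mem
              (fun p : Clause n × Fin r => (some (Sum.inr (Sum.inr (Sum.inr p))) : Kind n s r N))
              (Finset.mem_product.2 ⟨hC, Finset.mem_univ a⟩))))))
      · intro x hx
        rw [hrep x, Fintype.sum_option, Fintype.sum_sum_type, Fintype.sum_sum_type,
          Fintype.sum_sum_type, Fintype.sum_prod_type]
        simp only [kind, mul_one]
        congr 1
        congr 1
        congr 1
        · rw [← Finset.sum_subset (Finset.subset_univ (leaf i))]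
          · apply Finset.sum_congr rfl
            intro j hj
            rw [if_pos hj]
            congr 1
            have := hx j hj
            rw [max_eq_right]
            linarith
          · intro j _ hj
            rw [if_neg hj, zero_mul]
        congr 1
        · rw [← Finset.sum_subset (Finset.subset_univ F)]
          · apply Finset.sum_congr rfl
            intro C hC
            rw [if_pos hC]
          · intro C _ hC
            rw [if_neg hC, zero_mul]
        · rw [← Finset.sum_subset (Finset.subset_univ F)]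
          · apply Finset.sum_congr rfl
            intro C hC
            apply Finset.sum_congr rfl
            intro a _
            rw [if_pos hC]
          · intro C _ hC
            apply Finset.sum_eq_zero
            intro a _
            rw [if_neg hC, zero_mul]
    · refine ⟨fun _ => 0, fun _ => le_rfl, fun _ _ => rfl, ?_⟩
      intro x hx
      exact absurd ⟨x, hx⟩ hne
  choose c hc0 hcused hcrep using hmult
  refine ⟨(Finset.univ : Finset (Fin t)).biUnion
      (fun i => (usedKinds F (leaf i)).image (fun o => (ρ i, o))),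
    fun p => ∑ i, if ρ i = p.1 then c i p.2 else 0, ?_, ?_, ?_⟩
  · intro p _
    apply Finset.sum_nonneg
    intro i _
    split_ifs
    · exact hc0 i _
    · exact le_rfl
  · intro x
    obtain ⟨i₀, hi₀, hi₀u⟩ := huniq x
    -- extend the sum to all indices
    have h1 : ∑ p ∈ (Finset.univ : Finset (Fin t)).biUnion
        (fun i => (usedKinds F (leaf i)).image (fun o => (ρ i, o))),
        (∑ i, if ρ i = p.1 then c i p.2 else 0) * lib P cut h p x
        = ∑ p : Idx n s r N h, (∑ i, if ρ i = p.1 then c i p.2 else 0) * lib P cut h p x := by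
      apply Finset.sum_subset (Finset.subset_univ _)
      intro p _ hp
      have h2 : (∑ i, if ρ i = p.1 then c i p.2 else 0) = 0 := by
        apply Finset.sum_eq_zero
        intro i _
        split_ifs with hi
        · apply hcused
          intro ho
          apply hp
          rw [Finset.mem_biUnion]
          refine ⟨i, Finset.mem_univ _, Finset.mem_image.2 ⟨p.2, ho, ?_⟩⟩
          rw [hi]
        · rfl
      rw [h2, zero_mul]
    have h2 : ∑ p : Idx n s r N h, (∑ i, if ρ i = p.1 then c i p.2 else 0) * lib P cut h p x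
        = ∑ i, ∑ o, c i o * lib P cut h (ρ i, o) x := by
      simp only [Finset.sum_mul]
      rw [Finset.sum_comm]
      apply Finset.sum_congr rfl
      intro i _
      rw [Fintype.sum_prod_type]
      rw [Finset.sum_eq_single (ρ i)]
      · apply Finset.sum_congr rfl
        intro o _
        rw [if_pos rfl]
      · intro b _ hb
        apply Finset.sum_eq_zero
        intro o _
        rw [if_neg (fun e => hb e.symm), zero_mul]
      · intro hcon
        exact absurd (Finset.mem_univ _) hcon
    have h3 : ∑ i, ∑ o, c i o * lib P cut h (ρ i, o) x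
        = ∑ o, c i₀ o * kind P cut o x := by
      rw [Finset.sum_eq_single i₀]
      · apply Finset.sum_congr rfl
        intro o _
        unfold lib
        rw [if_pos ((hreg i₀ x).2 hi₀)]
      · intro i _ hi
        apply Finset.sum_eq_zero
        intro o _
        have : ¬ (∀ k j, ρ i k = some j → excess (cut j) (P.point x) ≤ 0) := by
          intro hcon
          exact hi (hi₀u i ((hreg i x).1 hcon))
        unfold lib
        rw [if_neg this, mul_zero]
      · intro hcon
        exact absurd (Finset.mem_univ _) hcon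
    rw [h1, h2, h3, ← hcrep i₀ x hi₀]
    ring
  · refine Finset.card_biUnion_le.trans ?_
    calc ∑ i : Fin t, ((usedKinds F (leaf i)).image (fun o => (ρ i, o))).card
        ≤ ∑ _i : Fin t, (s + (h + (F.card + F.card * r)) + 1) := by
          apply Finset.sum_le_sum
          intro i _
          refine Finset.card_image_le.trans ((usedKinds_card F (leaf i)).trans ?_)
          have := hcard i
          omega
      _ = _ := by rw [Finset.sum_const, Finset.card_univ, Fintype.card_fin, smul_eq_mul]

end Pool.Agent.TH689.BB
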