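import Mathlib
import Pool.Agent.TH689.BBBranch

/-!
The lower bound for branch-and-bound with linear programming relaxations.
-/

set_option autoImplicit false

namespace Pool.Agent.TH689.BB

open Finset Pool.Agent.H538R2.SB Pool.Agent.TH689.LX

lemma leaves_pos {n s r N h t : ℕ} {P : Relaxation n s r}
    {cut : Fin N → (Fin P.d → ℝ) × ℝ} {F : Finset (Clause n)} {δ : ℝ}
    (hB : P.Refutes cut F t h δ) : 1 ≤ t := by
  obtain ⟨leaf, _, huniq, _⟩ := hB
  obtain ⟨i, _⟩ := huniq (fun _ => false)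
  exact Nat.one_le_iff_ne_zero.2 (by rintro rfl; exact i.elim0)

/-- The lower bound for branch-and-bound with linear programming relaxations. -/
theorem bb_main (ε : ℝ) (hε : 0 < ε) : ∃ c : ℕ, 1 ≤ c ∧ ∀ n m h N s r : ℕ, c ≤ n → n ^ c ≤ m →
    m ^ c ≤ 2 ^ n → ((h + 1) * (Nat.log 2 N + 1)) ^ c ≤ m →
    ∀ (P : Relaxation n s r) (cut : Fin N → (Fin P.d → ℝ) × ℝ),
    ∃ F : Finset (Clause n), F.card ≤ m ∧ (∀ C ∈ F, 2 ^ C.card ≤ m) ∧
      (∀ x, n ≤ c * Nat.log 2 m * falsified F x) ∧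
      ∀ t : ℕ, P.Refutes cut F t h ((2 : ℝ) ^ (-((n : ℝ) / c))) →
        (2 : ℝ) ^ ((1 - ε) * n) ≤ t * (s + r + 1) := by
  classical
  obtain ⟨c₀, hc₀, hmain⟩ := static_main (ε / 2) (by linarith)
  obtain ⟨c₁, hc₁⟩ := exists_nat_ge (4 / ε)
  refine ⟨4 * c₀ + 5 + c₁, by omega, ?_⟩
  intro n m h N s r hn hm1 hm2 hv P cut
  set c := 4 * c₀ + 5 + c₁ with hc
  have hn8 : 9 ≤ n := by omega
  have hm0 : 0 < m := lt_of_lt_of_le (Nat.pow_pos (by omega)) hm1
  have hm1' : n ^ c₀ ≤ m := (Nat.pow_le_pow_right (by omega) (by omega)).trans hm1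
  have hm2' : m ^ c₀ ≤ 2 ^ n := (Nat.pow_le_pow_right (by omega) (by omega)).trans hm2
  -- the case of many inequalities
  by_cases hs : 2 ^ n ≤ s + r
  · obtain ⟨F, h1, h2, h3, _⟩ := hmain n m 0 0 (by omega) hm1' hm2'
      (by rw [Nat.zero_pow (by omega)]; exact Nat.zero_le _) (Nat.zero_le _)
      (fun j _ => j.elim0) (fun j => j.elim0)
    refine ⟨F, h1, h2, ?_, ?_⟩
    · intro x
      refine (h3 x).trans ?_
      apply Nat.mul_le_mul_right
      apply Nat.mul_le_mul_right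
      omega
    · intro t hB
      have ht : 1 ≤ t := leaves_pos hB
      have h4 : 2 ^ n ≤ t * (s + r + 1) := by
        calc 2 ^ n ≤ s + r + 1 := by omega
          _ ≤ t * (s + r + 1) := Nat.le_mul_of_pos_left _ (by omega)
      have h5 : ((2 ^ n : ℕ) : ℝ) ≤ ((t * (s + r + 1) : ℕ) : ℝ) := by exact_mod_cast h4
      push_cast at h5
      refine le_trans ?_ h5
      rw [← Real.rpow_natCast]
      apply Real.rpow_le_rpow_of_exponent_le (by norm_num)
      have : 0 ≤ ε * (n : ℝ) := by positivity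
      linarith
  push Not at hs
  set v := (h + 1) * (Nat.log 2 N + 1) with hvdef
  have hv1 : 1 ≤ v := Nat.mul_pos (by omega) (by omega)
  set w := v + 3 * n + 3 with hw
  have hcardI : Fintype.card (Idx n s r N h) ≤ 2 ^ w := by
    have h1 : Fintype.card (Idx n s r N h)
        = (N + 1) ^ h * (s + (N + (2 ^ (n * 2) + 2 ^ (n * 2) * r)) + 1) := by
      simp only [Idx, Kind, Clause, Fintype.card_prod, Fintype.card_fun, Fintype.card_option,
        Fintype.card_sum, Fintype.card_fin, Fintype.card_finset, Fintype.card_bool]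
    have h2 : N + 1 ≤ 2 ^ (Nat.log 2 N + 1) := by
      exact Nat.lt_pow_succ_log_self (by norm_num) N
    have h3 : s + (N + (2 ^ (n * 2) + 2 ^ (n * 2) * r)) + 1
        ≤ 2 ^ (Nat.log 2 N + 1 + (3 * n + 2)) := by
      have h4 : 2 ^ (n * 2) * r ≤ 2 ^ (n * 2) * 2 ^ n := Nat.mul_le_mul_left _ (by omega)
      have h5 : 2 ^ (n * 2) * 2 ^ n = 2 ^ (3 * n) := by rw [← pow_add]; congr 1; ring
      have h6 : 2 ^ (n * 2) ≤ 2 ^ (3 * n) := Nat.pow_le_pow_right (by norm_num) (by omega)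
      have h7 : 2 ^ n ≤ 2 ^ (3 * n) := Nat.pow_le_pow_right (by norm_num) (by omega)
      have h8 : s + (N + (2 ^ (n * 2) + 2 ^ (n * 2) * r)) + 1
          ≤ 2 ^ (Nat.log 2 N + 1) + 3 * 2 ^ (3 * n) := by omega
      have h9 : 2 ^ (Nat.log 2 N + 1) ≤ 2 ^ (Nat.log 2 N + 1 + 3 * n) :=
        Nat.pow_le_pow_right (by norm_num) (by omega)
      have h10 : 2 ^ (3 * n) ≤ 2 ^ (Nat.log 2 N + 1 + 3 * n) :=
        Nat.pow_le_pow_right (by norm_num) (by omega)
      have h11 : 2 ^ (Nat.log 2 N + 1 + (3 * n + 2)) = 4 * 2 ^ (Nat.log 2 N + 1 + 3 * n) := by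
        rw [← add_assoc, pow_add _ _ 2]; ring
      omega
    rw [h1]
    calc (N + 1) ^ h * (s + (N + (2 ^ (n * 2) + 2 ^ (n * 2) * r)) + 1)
        ≤ (2 ^ (Nat.log 2 N + 1)) ^ h * 2 ^ (Nat.log 2 N + 1 + (3 * n + 2)) :=
          Nat.mul_le_mul (Nat.pow_le_pow_left h2 _) h3
      _ = 2 ^ ((Nat.log 2 N + 1) * h + (Nat.log 2 N + 1 + (3 * n + 2))) := by
          rw [← pow_mul, ← pow_add]
      _ ≤ 2 ^ w := by
          apply Nat.pow_le_pow_right (by norm_num)
          have : v = (Nat.log 2 N + 1) * h + (Nat.log 2 N + 1) := by rw [hvdef]; ring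
          omega
  have hwm : w ^ c₀ ≤ m := by
    have h1 : w ≤ n ^ 2 * v := by
      have h2 : w ≤ 5 * (n * v) := by
        have : v ≤ n * v := Nat.le_mul_of_pos_left _ (by omega)
        have : n ≤ n * v := Nat.le_mul_of_pos_right _ (by omega)
        omega
      calc w ≤ 5 * (n * v) := h2
        _ ≤ n * (n * v) := Nat.mul_le_mul_right _ (by omega)
        _ = n ^ 2 * v := by ring
    have h2 : (w ^ c₀) ^ 4 ≤ m ^ 4 := by
      calc (w ^ c₀) ^ 4 ≤ ((n ^ 2 * v) ^ c₀) ^ 4 :=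
            Nat.pow_le_pow_left (Nat.pow_le_pow_left h1 _) _
        _ = (n ^ (4 * c₀)) ^ 2 * v ^ (4 * c₀) := by
            rw [mul_pow, mul_pow, ← pow_mul, ← pow_mul, ← pow_mul, ← pow_mul]
            congr 1
            · congr 1; ring
            · congr 1; ring
        _ ≤ (n ^ c) ^ 2 * v ^ c := by
            apply Nat.mul_le_mul
            · exact Nat.pow_le_pow_left (Nat.pow_le_pow_right (by omega) (by omega)) _
            · exact Nat.pow_le_pow_right hv1 (by omega)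
        _ ≤ m ^ 2 * m := Nat.mul_le_mul (Nat.pow_le_pow_left hm1 _) hv
        _ = m ^ 3 := by ring
        _ ≤ m ^ 4 := Nat.pow_le_pow_right hm0 (by norm_num)
    exact (Nat.pow_le_pow_iff_left (by norm_num : (4 : ℕ) ≠ 0)).1 h2
  have hhm : h + 1 ≤ m := by
    calc h + 1 ≤ v := Nat.le_mul_of_pos_right _ (by omega)
      _ = v ^ 1 := (pow_one v).symm
      _ ≤ v ^ c := Nat.pow_le_pow_right hv1 (by omega)
      _ ≤ m := hv
  let e : Idx n s r N h ≃ Fin (Fintype.card (Idx n s r N h)) := Fintype.equivFin _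
  obtain ⟨F, h1, h2, h3, h4⟩ := hmain n m w (Fintype.card (Idx n s r N h)) (by omega) hm1' hm2' hwm
    hcardI (fun j x => lib P cut h (e.symm j) x) (fun j x => lib_nonneg P cut h _ x)
  refine ⟨F, h1, h2, ?_, ?_⟩
  · intro x
    refine (h3 x).trans ?_
    apply Nat.mul_le_mul_right
    apply Nat.mul_le_mul_right
    omega
  · intro t hB
    have ht : 1 ≤ t := leaves_pos hB
    obtain ⟨A, u, hu, hrep, hA⟩ := refutes_rep P cut hB
    have h5 := h4 (A.map e.toEmbedding) (fun j => u (e.symm j)) ((2 : ℝ) ^ (-((n : ℝ) / c))) (by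
      intro j hj
      obtain ⟨p, hp, rfl⟩ := Finset.mem_map.1 hj
      simp only [Equiv.coe_toEmbedding, Equiv.symm_apply_apply]
      exact hu p hp) (by
      apply Real.rpow_le_rpow_of_exponent_le (by norm_num)
      rw [neg_le_neg_iff]
      apply div_le_div_of_nonneg_left (by positivity)
      · exact_mod_cast hc₀
      · exact_mod_cast (by omega : c₀ ≤ c)) (by
      intro x
      rw [hrep x, Finset.sum_map]
      simp only [Equiv.coe_toEmbedding, Equiv.symm_apply_apply])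
    rw [Finset.card_map] at h5
    -- the number of functions used
    have h6 : A.card ≤ t * ((s + r + 1) * (2 * m)) := by
      refine hA.trans (Nat.mul_le_mul_left _ ?_)
      have h7 : F.card * r ≤ m * r := Nat.mul_le_mul_right _ h1
      have h8 : s ≤ s * (2 * m) := Nat.le_mul_of_pos_right _ (by omega)
      calc s + (h + (F.card + F.card * r)) + 1 ≤ s + (h + (m + m * r)) + 1 := by omega
        _ ≤ s * (2 * m) + (m + (m + 2 * (m * r))) := by omega
        _ = (s + r + 1) * (2 * m) := by ring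
    have h7 : ((A.card : ℕ) : ℝ) ≤ ((t : ℝ) * (s + r + 1)) * (2 * m) := by
      have : ((A.card : ℕ) : ℝ) ≤ ((t * ((s + r + 1) * (2 * m)) : ℕ) : ℝ) := by exact_mod_cast h6
      push_cast at this
      linarith
    -- `2 m` is small
    have hc1 : (4 : ℝ) ≤ ε * c := by
      have h8 : 4 / ε ≤ (c : ℝ) := by
        refine hc₁.trans ?_
        exact_mod_cast (by omega : c₁ ≤ c)
      rw [div_le_iff₀ hε] at h8
      linarith
    have hcn : (c : ℝ) ≤ n := by exact_mod_cast hn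
    have hm3 : (m : ℝ) ≤ (2 : ℝ) ^ (ε / 4 * n) := by
      have h8 : (m : ℝ) ^ c ≤ ((2 : ℝ) ^ (ε / 4 * n)) ^ c := by
        have h9 : (m : ℝ) ^ c ≤ 2 ^ n := by exact_mod_cast hm2
        refine h9.trans ?_
        rw [← Real.rpow_natCast, ← Real.rpow_natCast, ← Real.rpow_mul (by norm_num)]
        apply Real.rpow_le_rpow_of_exponent_le (by norm_num)
        have h10 : (n : ℝ) * 4 ≤ n * (ε * c) := mul_le_mul_of_nonneg_left hc1 (by positivity)
        linarith
      exact (pow_le_pow_iff_left₀ (by positivity) (by positivity) (by omega : c ≠ 0)).1 h8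
    have h8 : (2 : ℝ) ≤ (2 : ℝ) ^ (ε / 4 * n) := by
      have h9 : (2 : ℝ) = (2 : ℝ) ^ (1 : ℝ) := (Real.rpow_one 2).symm
      rw [h9, ← Real.rpow_mul (by norm_num), one_mul]
      apply Real.rpow_le_rpow_of_exponent_le (by norm_num)
      have h10 : ε * (c : ℝ) ≤ ε * n := mul_le_mul_of_nonneg_left hcn hε.le
      linarith
    have h9 : (2 : ℝ) * m ≤ (2 : ℝ) ^ (ε / 2 * n) := by
      calc (2 : ℝ) * m ≤ (2 : ℝ) ^ (ε / 4 * n) * (2 : ℝ) ^ (ε / 4 * n) :=
            mul_le_mul h8 hm3 (by positivity) (by positivity)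
        _ = _ := by rw [← Real.rpow_add (by norm_num)]; congr 1; ring
    have h10 : (2 : ℝ) ^ ((1 - ε) * n) * (2 : ℝ) ^ (ε / 2 * n)
        ≤ ((t : ℝ) * (s + r + 1)) * (2 : ℝ) ^ (ε / 2 * n) := by
      rw [← Real.rpow_add (by norm_num)]
      have e1 : (1 - ε) * (n : ℝ) + ε / 2 * n = (1 - ε / 2) * n := by ring
      rw [e1]
      refine h5.trans (h7.trans ?_)
      exact mul_le_mul_of_nonneg_left h9 (by positivity)
    exact le_of_mul_le_mul_right h10 (by positivity)

end Pool.Agent.TH689.BB
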