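import Mathlib
import Pool.Agent.TH689.BBDefs

/-!
Exhaustive search as branch-and-bound with the linear programming relaxation in the unit cube.
-/

set_option autoImplicit false

namespace Pool.Agent.TH689.BB

open Finset Pool.Agent.H538R2.SB

/-- `u v` or `-u v`, at most `β` -/
def single {n : ℕ} (v : Fin n) (a β : ℝ) : (Fin n → ℝ) × ℝ := (fun k => if k = v then a else 0, β)

lemma excess_single {n : ℕ} (v : Fin n) (a β : ℝ) (u : Fin n → ℝ) :
    excess (single v a β) u = a * u v - β := by
  unfold excess single
  simp only [ite_mul, zero_mul, Finset.sum_ite_eq', Finset.mem_univ, if_true]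

/-- the inequality of a clause: at least one literal is true -/
noncomputable def atLeastOne {n : ℕ} (C : Clause n) : (Fin n → ℝ) × ℝ :=
  (fun k => ∑ l ∈ C, if l.1 = k then (if l.2 = true then -1 else 1) else 0,
    -1 + ∑ l ∈ C, if l.2 = true then (0 : ℝ) else 1)

lemma excess_atLeastOne {n : ℕ} (C : Clause n) (u : Fin n → ℝ) :
    excess (atLeastOne C) u = 1 - ∑ l ∈ C, (if l.2 = true then u l.1 else 1 - u l.1) := by
  unfold excess atLeastOne
  simp only [Finset.sum_mul]
  rw [Finset.sum_comm]
  have h1 : ∀ l ∈ C, ∑ k, (if l.1 = k then (if l.2 = true then (-1 : ℝ) else 1) else 0) * u k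
      = (if l.2 = true then (-1 : ℝ) else 1) * u l.1 := by
    intro l _
    simp only [ite_mul, zero_mul, Finset.sum_ite_eq, Finset.mem_univ, if_true]
  rw [Finset.sum_congr rfl h1]
  have h2 : ∑ l ∈ C, (if l.2 = true then u l.1 else 1 - u l.1)
      = ∑ l ∈ C, ((if l.2 = true then (0 : ℝ) else 1) - (if l.2 = true then (-1 : ℝ) else 1) * u l.1) := by
    apply Finset.sum_congr rfl
    intro l _
    split_ifs <;> ring
  rw [h2, Finset.sum_sub_distrib]
  ring

/-- the value of a Boolean -/
def val (b : Bool) : ℝ := if b = true then 1 else 0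

lemma lit_nonneg (b : Bool) (x : Bool) : 0 ≤ (if b = true then val x else 1 - val x) := by
  unfold val
  cases b <;> cases x <;> simp

lemma atLeastOne_le_one {n : ℕ} (C : Clause n) (x : Asg n) :
    excess (atLeastOne C) (fun v => val (x v)) ≤ 1 := by
  rw [excess_atLeastOne]
  have : 0 ≤ ∑ l ∈ C, (if l.2 = true then val (x l.1) else 1 - val (x l.1)) :=
    Finset.sum_nonneg (fun l _ => lit_nonneg l.2 (x l.1))
  linarith

lemma atLeastOne_le {n : ℕ} (C : Clause n) (x : Asg n) (h : ¬ FalseAt C x) :
    excess (atLeastOne C) (fun v => val (x v)) ≤ 0 := by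
  rw [excess_atLeastOne]
  unfold FalseAt at h
  push Not at h
  obtain ⟨l, hl, hlx⟩ := h
  have h1 : (if l.2 = true then val (x l.1) else 1 - val (x l.1))
      ≤ ∑ l ∈ C, (if l.2 = true then val (x l.1) else 1 - val (x l.1)) :=
    Finset.single_le_sum (f := fun l : Fin n × Bool =>
      (if l.2 = true then val (x l.1) else 1 - val (x l.1)))
      (fun l _ => lit_nonneg l.2 (x l.1)) hl
  have h2 : (if l.2 = true then val (x l.1) else 1 - val (x l.1)) = 1 := by
    rw [hlx]
    unfold val
    cases l.2 <;> simp
  linarith

lemma atLeastOne_false {n : ℕ} (C : Clause n) (x : Asg n) (h : FalseAt C x) :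
    excess (atLeastOne C) (fun v => val (x v)) = 1 := by
  rw [excess_atLeastOne]
  have h1 : ∑ l ∈ C, (if l.2 = true then val (x l.1) else 1 - val (x l.1)) = 0 := by
    apply Finset.sum_eq_zero
    intro l hl
    have h2 := h l hl
    revert h2
    unfold val
    cases x l.1 <;> cases l.2 <;> simp
  linarith

theorem bb_upper (n : ℕ) : ∃ (P : Relaxation n (2 * n) 1) (cut : Fin (2 * n) → (Fin P.d → ℝ) × ℝ),
    ∀ F : Finset (Clause n), (∀ x, ∃ C ∈ F, FalseAt C x) → P.Refutes cut F (2 ^ n) n (1 / 2) := by
  classical
  let e : Fin (2 * n) ≃ Fin n × Bool := Fintype.equivOfCardEq (by simp [mul_comm])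
  let P : Relaxation n (2 * n) 1 :=
    { d := n
      t := 0
      common := fun j => if (e j).2 = true then single (e j).1 1 1 else single (e j).1 (-1) 0
      equation := fun j => j.elim0
      ofClause := fun C _ => atLeastOne C
      point := fun x v => val (x v)
      common_le := by
        intro x j
        split_ifs
        · rw [excess_single]
          unfold val
          split_ifs <;> norm_num
        · rw [excess_single]
          unfold val
          split_ifs <;> norm_num
      equation_eq := fun x j => j.elim0
      ofClause_le := fun C x _ h => atLeastOne_le C x h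
      ofClause_le_one := fun C x _ => atLeastOne_le_one C x }
  let cut : Fin (2 * n) → (Fin P.d → ℝ) × ℝ := fun j =>
    if (e j).2 = true then single (e j).1 (-1) (-1) else single (e j).1 1 0
  refine ⟨P, cut, ?_⟩
  intro F hF
  let f : Fin (2 ^ n) ≃ Asg n := Fintype.equivOfCardEq (by simp)
  let leaf : Fin (2 ^ n) → Finset (Fin (2 * n)) := fun i =>
    Finset.univ.image (fun v : Fin n => e.symm (v, f i v))
  have hcutpt : ∀ (v : Fin n) (b : Bool) (x : Asg n),
      excess (cut (e.symm (v, b))) (P.point x) ≤ 0 ↔ x v = b := by
    intro v b x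
    simp only [cut, Equiv.apply_symm_apply]
    cases b
    · rw [if_neg (by simp), excess_single]
      show 1 * val (x v) - 0 ≤ 0 ↔ _
      unfold val
      cases x v
      · simp
      · simp
    · rw [if_pos rfl, excess_single]
      show -1 * val (x v) - -1 ≤ 0 ↔ _
      unfold val
      cases x v
      · simp
      · simp
  have hleaf : ∀ i x, (∀ j ∈ leaf i, excess (cut j) (P.point x) ≤ 0) ↔ x = f i := by
    intro i x
    constructor
    · intro h
      funext v
      exact (hcutpt v (f i v) x).1 (h _ (Finset.mem_image_of_mem _ (Finset.mem_univ v)))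
    · rintro rfl j hj
      obtain ⟨v, _, rfl⟩ := Finset.mem_image.1 hj
      exact (hcutpt v _ _).2 rfl
  refine ⟨leaf, ?_, ?_, ?_⟩
  · intro i
    refine Finset.card_image_le.trans ?_
    simp
  · intro x
    refine ⟨f.symm x, ?_, ?_⟩
    · exact (hleaf _ _).2 (by simp)
    · intro i hi
      have := (hleaf _ _).1 hi
      rw [this]
      simp
  · intro i
    left
    intro u hu
    by_contra hcon
    push Not at hcon
    obtain ⟨h1, _, h3⟩ := hu
    have hux : u = fun v => val (f i v) := by
      funext v
      have h4 := hcon (e.symm (v, f i v)) (Finset.mem_image_of_mem _ (Finset.mem_univ v))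
      have h5 := h1 (e.symm (v, true))
      have h6 := h1 (e.symm (v, false))
      simp only [cut, Equiv.apply_symm_apply] at h4
      simp only [P, Equiv.apply_symm_apply, if_true] at h5
      simp only [P, Equiv.apply_symm_apply] at h6
      rw [if_neg (by simp), excess_single] at h6
      rw [excess_single] at h5
      unfold val
      revert h4
      cases f i v
      · intro h4
        rw [if_neg (by simp), excess_single] at h4
        rw [if_neg (by simp)]
        linarith
      · intro h4
        rw [if_pos rfl, excess_single] at h4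
        rw [if_pos rfl]
        linarith
    obtain ⟨C, hC, hCf⟩ := hF (f i)
    have h4 := h3 C hC 0
    rw [hux] at h4
    have h5 := atLeastOne_false C (f i) hCf
    have h6 : excess (P.ofClause C 0) (fun v => val (f i v)) = 1 := h5
    rw [h6] at h4
    norm_num at h4

end Pool.Agent.TH689.BB
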