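import Mathlib
import Pool.Agent.H538R2.SBDefs

/-!
# Resolution refutations which come back to narrow clauses

Definitions for the lower bound for resolution refutations of unbounded depth in which no path
avoids the narrow clauses for a long time.
-/

namespace Pool.Agent.TH689.CK

open Pool.Agent.H538R2.SB

/-- A resolution refutation of the CNF formula `F`: a finite set `lines` of clauses containing the
empty clause, in which every clause either contains a clause of `F`, or follows by resolving two
clauses of smaller rank `rk` on a variable `v` (possibly followed by weakening).

Moreover `t C ≤ T` for all clauses `C`, and `t` decreases at every step from a clause to one of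
its two premises if this premise has more than `w` literals. So, if we walk from a clause to one of
its premises, to one of the premises of this premise, and so on, then we meet a clause with at most
`w` literals at least once in every `T + 1` consecutive steps (or come to an end). There is no
bound on the ranks, that is, on the length of these walks. -/
structure Refutation {n : ℕ} (F : Finset (Clause n)) (w T : ℕ) (lines : Finset (Clause n))
    (rk t : Clause n → ℕ) : Prop where
  last : ∅ ∈ lines
  step : ∀ C ∈ lines, (∃ D ∈ F, D ⊆ C) ∨
    ∃ v : Fin n, ∃ C₀ ∈ lines, ∃ C₁ ∈ lines,
      C₀ ⊆ insert (v, true) C ∧ C₁ ⊆ insert (v, false) C ∧ rk C₀ < rk C ∧ rk C₁ < rk C ∧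
      (w < C₀.card → t C₀ < t C) ∧ (w < C₁.card → t C₁ < t C)
  gap : ∀ C ∈ lines, t C ≤ T

end Pool.Agent.TH689.CK
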