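import Mathlib
import Pool.Agent.TH689.CKDefs
import Pool.Agent.H538R2.RDPlay

/-!
The adversary for resolution refutations which come back to narrow clauses.
-/

namespace Pool.Agent.TH689.CK

open Finset Pool.Agent.H538R2.SB

variable {n N : ℕ}

/-- the state of the adversary at the clause `C`: the assignment `x` falsifies `C`, the set `J` of
the closed blocks contains all blocks which are almost completely known, and the constraints inside
`J` are satisfied -/
structure Valid (blk : Fin n → Fin N) (E : Finset (Finset (Fin N)))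
    (good : Finset (Fin N) → Asg n → Prop) (κ K₀ : ℕ) (C : Clause n) (x : Asg n)
    (J : Finset (Fin N)) : Prop where
  fls : FalseAt C x
  card : J.card = K₀
  closed : ∀ β, (unk blk C β).card ≤ κ → β ∈ J
  sat : ∀ e ∈ E, e ⊆ J → good e x

variable {blk : Fin n → Fin N}

section play

variable {E : Finset (Finset (Fin N))} {good : Finset (Fin N) → Asg n → Prop}
  {F : Finset (Clause n)} {lines : Finset (Clause n)} {rk t : Clause n → ℕ}
  {κ g K₀ wmin B₁ w T : ℕ}

/-- one step of the play -/
theorem advance (hRef : Refutation F w T lines rk t)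
    (hgood : ∀ e x y, Agree blk e x y → good e x → good e y)
    (hF : ∀ D ∈ F, ∃ e ∈ E, (∀ x, FalseAt D x → ¬ good e x) ∧ ∀ v, blk v ∈ e → v ∈ cvars D)
    (hQ : ∀ (x : Asg n) (J : Finset (Fin N)) (β : Fin N) (U : Finset (Fin n)),
      J.card ≤ K₀ → β ∉ J → (∀ v ∈ U, blk v = β) → U.card = κ →
      ∃ x' : Asg n, (∀ v, v ∉ U → x' v = x v) ∧ ∀ e ∈ E, e ⊆ insert β J → β ∈ e → good e x')
    (hB₁ : ∀ β, (Finset.univ.filter (fun v => blk v = β)).card ≤ B₁)
    (hW : K₀ * (g + κ) + (N - K₀) * B₁ + wmin ≤ n)
    (hg : 1 ≤ g)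
    {C : Clause n} (hC : C ∈ lines) {x : Asg n} {J : Finset (Fin N)}
    (hV : Valid blk E good κ K₀ C x J) (hwide : ¬ wmin ≤ (cvars C).card) :
    ∃ C' ∈ lines, rk C' < rk C ∧ (w < C'.card → t C' < t C) ∧
      ((wmin ≤ (cvars C').card ∧ FalseAt C' x) ∨
       ∃ x' J', (cvars C').card < wmin ∧ Valid blk E good κ K₀ C' x' J' ∧
        g * hammingDist x x' + κ * ∑ β ∈ J'ᶜ, ((g + κ) - (unk blk C' β).card) ≤
          κ * (1 + ∑ β ∈ Jᶜ, ((g + κ) - (unk blk C β).card))) := by
  obtain ⟨hx, hJ, hcl, hsat⟩ := hV
  rcases hRef.step C hC with ⟨D, hD, hDC⟩ |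
      ⟨v, C₀, hC₀, C₁, hC₁, hs0, hs1, hr0, hr1, ht0, ht1⟩
  · exfalso
    obtain ⟨e, he, hbad, hvars⟩ := hF D hD
    have hDx : FalseAt D x := fun l hl => hx l (hDC hl)
    apply hbad x hDx
    apply hsat e he
    intro β hβ
    apply hcl
    have : unk blk C β = ∅ := by
      rw [Finset.eq_empty_iff_forall_notMem]
      intro w hw
      simp only [unk, Finset.mem_filter, Finset.mem_univ, true_and] at hw
      apply hw.2
      obtain ⟨b, hb⟩ := mem_cvars.1 (hvars w (by rw [hw.1]; exact hβ))
      exact mem_cvars.2 ⟨b, hDC hb⟩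
    rw [this]
    simp
  · obtain ⟨C', hC', hr', ht', hx', hstep⟩ : ∃ C' ∈ lines, rk C' < rk C ∧
        (w < C'.card → t C' < t C) ∧ FalseAt C' x ∧
        ∀ β, (unk blk C β).card ≤ (unk blk C' β).card + (if blk v = β then 1 else 0) := by
      by_cases hv : x v = true
      · exact ⟨C₁, hC₁, hr1, ht1, falseAt_step hs1 hx (by rw [hv]; decide), unk_step hs1⟩
      · exact ⟨C₀, hC₀, hr0, ht0, falseAt_step hs0 hx hv, unk_step hs0⟩
    refine ⟨C', hC', hr', ht', ?_⟩
    have hsum : ∑ β ∈ Jᶜ, ((g + κ) - (unk blk C' β).card)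
        ≤ ∑ β ∈ Jᶜ, ((g + κ) - (unk blk C β).card) + 1 := by
      calc ∑ β ∈ Jᶜ, ((g + κ) - (unk blk C' β).card)
          ≤ ∑ β ∈ Jᶜ, (((g + κ) - (unk blk C β).card) + (if blk v = β then 1 else 0)) := by
            apply Finset.sum_le_sum
            intro β _
            have := hstep β
            omega
        _ = ∑ β ∈ Jᶜ, ((g + κ) - (unk blk C β).card)
            + ∑ β ∈ Jᶜ, (if blk v = β then 1 else 0) := Finset.sum_add_distrib
        _ ≤ _ := by
            apply Nat.add_le_add_left
            rw [Finset.sum_ite_eq]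
            split_ifs <;> omega
    by_cases hwide' : wmin ≤ (cvars C').card
    · exact Or.inl ⟨hwide', hx'⟩
    right
    push Not at hwide'
    by_cases hcl' : ∀ β, (unk blk C' β).card ≤ κ → β ∈ J
    · refine ⟨x, J, hwide', ⟨hx', hJ, hcl', hsat⟩, ?_⟩
      rw [hammingDist_self, mul_zero, zero_add]
      apply Nat.mul_le_mul_left
      omega
    · push Not at hcl'
      obtain ⟨β, hβκ, hβJ⟩ := hcl'
      -- every closed block outside J is the block of v
      have huniq : ∀ γ, (unk blk C' γ).card ≤ κ → γ ∉ J → blk v = γ ∧ (unk blk C' γ).card = κ := by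
        intro γ hγ hγJ
        have h1 : ¬ (unk blk C γ).card ≤ κ := fun h => hγJ (hcl γ h)
        have h2 := hstep γ
        by_cases hvγ : blk v = γ
        · rw [if_pos hvγ] at h2
          exact ⟨hvγ, by omega⟩
        · rw [if_neg hvγ] at h2
          omega
      obtain ⟨hvβ, hβc⟩ := huniq β hβκ hβJ
      obtain ⟨β', hβ'J, hβ'⟩ := exists_fresh (blk := blk) hB₁ hW hwide' hJ
      have hne : β ≠ β' := by rintro rfl; exact hβJ hβ'J
      have hβJ' : β ∉ J.erase β' := fun h => hβJ (Finset.mem_of_mem_erase h)
      obtain ⟨x', hx'1, hx'2⟩ := hQ x (J.erase β') β (unk blk C' β)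
        ((Finset.card_erase_le).trans hJ.le) hβJ'
        (fun w hw => by
          simp only [unk, Finset.mem_filter, Finset.mem_univ, true_and] at hw
          exact hw.1) hβc
      set J' := insert β (J.erase β') with hJ'def
      have hJpos : 1 ≤ J.card := Finset.card_pos.2 ⟨β', hβ'J⟩
      have hJ' : J'.card = K₀ := by
        rw [hJ'def, Finset.card_insert_of_notMem hβJ', Finset.card_erase_of_mem hβ'J]
        omega
      have hfx' : FalseAt C' x' := by
        intro l hl
        rw [hx'1 l.1]
        · exact hx' l hl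
        · intro h
          simp only [unk, Finset.mem_filter, Finset.mem_univ, true_and] at h
          exact h.2 (mem_cvars.2 ⟨l.2, hl⟩)
      have hcl'' : ∀ γ, (unk blk C' γ).card ≤ κ → γ ∈ J' := by
        intro γ hγ
        by_cases hγJ : γ ∈ J
        · apply Finset.mem_insert_of_mem
          rw [Finset.mem_erase]
          refine ⟨?_, hγJ⟩
          rintro rfl
          omega
        · have := (huniq γ hγ hγJ).1
          rw [hJ'def, ← this, hvβ]
          exact Finset.mem_insert_self _ _
      have hsat' : ∀ e ∈ E, e ⊆ J' → good e x' := by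
        intro e he heJ'
        by_cases hβe : β ∈ e
        · exact hx'2 e he heJ' hβe
        · have heJ : e ⊆ J := by
            intro γ hγ
            rcases Finset.mem_insert.1 (heJ' hγ) with h | h
            · exact absurd (h ▸ hγ) hβe
            · exact Finset.mem_of_mem_erase h
          refine hgood e x x' ?_ (hsat e he heJ)
          intro w hw
          apply hx'1
          intro h
          simp only [unk, Finset.mem_filter, Finset.mem_univ, true_and] at h
          rw [h.1] at hw
          exact hβe hw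
      refine ⟨x', J', hwide', ⟨hfx', hJ', hcl'', hsat'⟩, ?_⟩
      -- the potential drops by g
      have hcompl : J'ᶜ = insert β' (Jᶜ.erase β) := by
        ext γ
        simp only [hJ'def, Finset.mem_compl, Finset.mem_insert, Finset.mem_erase, not_or,
          not_and, ne_eq]
        constructor
        · rintro ⟨h1, h2⟩
          by_cases h3 : γ = β'
          · exact Or.inl h3
          · exact Or.inr ⟨h1, fun h => h2 h3 h⟩
        · rintro (rfl | ⟨h1, h2⟩)
          · exact ⟨fun h => hne h.symm, fun h => absurd rfl h⟩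
          · exact ⟨h1, fun _ h => h2 h⟩
      have hβ'n : β' ∉ Jᶜ.erase β := by
        rw [Finset.mem_erase, Finset.mem_compl]
        rintro ⟨_, h⟩
        exact h hβ'J
      have hpot : ∑ γ ∈ J'ᶜ, ((g + κ) - (unk blk C' γ).card) + g
          = ∑ γ ∈ Jᶜ, ((g + κ) - (unk blk C' γ).card) := by
        rw [hcompl, Finset.sum_insert hβ'n]
        have h1 := Finset.sum_erase_add Jᶜ (fun γ => (g + κ) - (unk blk C' γ).card)
          (Finset.mem_compl.2 hβJ)
        rw [← h1, hβc]
        omega
      have hd1 : hammingDist x x' ≤ κ := by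
        rw [← hβc]
        unfold hammingDist
        apply Finset.card_le_card
        intro w hw
        simp only [Finset.mem_filter, Finset.mem_univ, true_and] at hw
        by_contra hnot
        exact hw (hx'1 w hnot).symm
      calc g * hammingDist x x' + κ * ∑ γ ∈ J'ᶜ, ((g + κ) - (unk blk C' γ).card)
          ≤ g * κ + κ * ∑ γ ∈ J'ᶜ, ((g + κ) - (unk blk C' γ).card) :=
            Nat.add_le_add_right (Nat.mul_le_mul_left _ hd1) _
        _ = κ * (∑ γ ∈ J'ᶜ, ((g + κ) - (unk blk C' γ).card) + g) := by ring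
        _ ≤ κ * (1 + ∑ β ∈ Jᶜ, ((g + κ) - (unk blk C β).card)) := by
            apply Nat.mul_le_mul_left
            rw [hpot]
            omega

/-- play until a wide clause or a narrow clause is met -/
theorem play (hRef : Refutation F w T lines rk t) (hg : 1 ≤ g)
    (hgood : ∀ e x y, Agree blk e x y → good e x → good e y)
    (hF : ∀ D ∈ F, ∃ e ∈ E, (∀ x, FalseAt D x → ¬ good e x) ∧ ∀ v, blk v ∈ e → v ∈ cvars D)
    (hQ : ∀ (x : Asg n) (J : Finset (Fin N)) (β : Fin N) (U : Finset (Fin n)),
      J.card ≤ K₀ → β ∉ J → (∀ v ∈ U, blk v = β) → U.card = κ →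
      ∃ x' : Asg n, (∀ v, v ∉ U → x' v = x v) ∧ ∀ e ∈ E, e ⊆ insert β J → β ∈ e → good e x')
    (hB₁ : ∀ β, (Finset.univ.filter (fun v => blk v = β)).card ≤ B₁)
    (hW : K₀ * (g + κ) + (N - K₀) * B₁ + wmin ≤ n) :
    ∀ m : ℕ, ∀ C ∈ lines, t C ≤ m → ∀ (x : Asg n) (J : Finset (Fin N)),
      Valid blk E good κ K₀ C x J → (cvars C).card < wmin →
      (∃ W ∈ lines, ∃ y : Asg n, wmin ≤ (cvars W).card ∧ FalseAt W y ∧
        g * hammingDist x y ≤ κ * (m + 1 + ∑ β ∈ Jᶜ, ((g + κ) - (unk blk C β).card))) ∨
      ∃ N' ∈ lines, rk N' < rk C ∧ N'.card ≤ w ∧ (cvars N').card < wmin ∧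
        ∃ x' J', Valid blk E good κ K₀ N' x' J' := by
  intro m
  induction m with
  | zero =>
    intro C hC hm x J hV hnw
    obtain ⟨C', hC', hr', ht', h⟩ := advance hRef hgood hF hQ hB₁ hW hg hC hV (not_le.2 hnw)
    rcases h with ⟨h1, h2⟩ | ⟨x', J', h1, h2, _⟩
    · exact Or.inl ⟨C', hC', x, h1, h2, by simp⟩
    · right
      have hw' : C'.card ≤ w := by
        by_contra hcon
        have := ht' (by omega)
        omega
      exact ⟨C', hC', hr', hw', h1, x', J', h2⟩
  | succ m ih =>
    intro C hC hm x J hV hnw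
    obtain ⟨C', hC', hr', ht', h⟩ := advance hRef hgood hF hQ hB₁ hW hg hC hV (not_le.2 hnw)
    rcases h with ⟨h1, h2⟩ | ⟨x', J', h1, h2, h3⟩
    · exact Or.inl ⟨C', hC', x, h1, h2, by simp⟩
    · by_cases hw' : C'.card ≤ w
      · exact Or.inr ⟨C', hC', hr', hw', h1, x', J', h2⟩
      · have ht1 := ht' (by omega)
        rcases ih C' hC' (by omega) x' J' h2 h1 with ⟨W, hW1, y, hW2, hW3, hW4⟩ |
          ⟨N', hN1, hN2, hN3⟩
        · left
          refine ⟨W, hW1, y, hW2, hW3, ?_⟩
          have htri : hammingDist x y ≤ hammingDist x x' + hammingDist x' y :=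
            hammingDist_triangle _ _ _
          calc g * hammingDist x y ≤ g * (hammingDist x x' + hammingDist x' y) :=
                Nat.mul_le_mul_left _ htri
            _ = g * hammingDist x x' + g * hammingDist x' y := by ring
            _ ≤ g * hammingDist x x'
                + κ * (m + 1 + ∑ β ∈ J'ᶜ, ((g + κ) - (unk blk C' β).card)) := by omega
            _ = (g * hammingDist x x' + κ * ∑ β ∈ J'ᶜ, ((g + κ) - (unk blk C' β).card))
                + κ * (m + 1) := by ring
            _ ≤ κ * (1 + ∑ β ∈ Jᶜ, ((g + κ) - (unk blk C β).card)) + κ * (m + 1) := by omega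
            _ = _ := by ring
        · exact Or.inr ⟨N', hN1, by omega, hN3⟩

/-- the potential of a clause is at most `n` -/
lemma pot_le (hb : ∀ β, g + κ ≤ (Finset.univ.filter (fun v => blk v = β)).card) (C : Clause n)
    (J : Finset (Fin N)) :
    ∑ β ∈ Jᶜ, ((g + κ) - (unk blk C β).card) ≤ n := by
  have h1 := sum_unk (blk := blk) C
  have h2 : ∑ β : Fin N, (Finset.univ.filter (fun v => blk v = β)).card = n := by
    rw [← Finset.card_eq_sum_card_fiberwise (f := blk) (s := Finset.univ) (t := Finset.univ)
      (fun _ _ => Finset.mem_univ _), Finset.card_univ, Fintype.card_fin]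
  have h3 : ∑ β ∈ Jᶜ, ((g + κ) - (unk blk C β).card) + ∑ β ∈ Jᶜ, (unk blk C β).card
      ≤ ∑ β ∈ Jᶜ, (Finset.univ.filter (fun v => blk v = β)).card := by
    rw [← Finset.sum_add_distrib]
    apply Finset.sum_le_sum
    intro β _
    have h4 := hb β
    have h5 : (unk blk C β).card ≤ (Finset.univ.filter (fun v => blk v = β)).card := by
      apply Finset.card_le_card
      intro v hv
      simp only [unk, Finset.mem_filter, Finset.mem_univ, true_and] at hv ⊢
      exact hv.1
    omega
  have h4 : ∑ β ∈ Jᶜ, (Finset.univ.filter (fun v => blk v = β)).card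
      ≤ ∑ β : Fin N, (Finset.univ.filter (fun v => blk v = β)).card :=
    Finset.sum_le_sum_of_subset (Finset.subset_univ _)
  omega

/-- Restart: at a clause at which the adversary has a valid state, every assignment which falsifies
the clause is close to one with a valid state. -/
lemma restart (hgood : ∀ e x y, Agree blk e x y → good e x → good e y)
    (hQ : ∀ (x : Asg n) (J : Finset (Fin N)) (β : Fin N) (U : Finset (Fin n)),
      J.card ≤ K₀ → β ∉ J → (∀ v ∈ U, blk v = β) → U.card = κ →
      ∃ x' : Asg n, (∀ v, v ∉ U → x' v = x v) ∧ ∀ e ∈ E, e ⊆ insert β J → β ∈ e → good e x')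
    (hKN : K₀ ≤ N) {C : Clause n} {y : Asg n} {J₀ : Finset (Fin N)}
    (hV : Valid blk E good κ K₀ C y J₀) {z : Asg n} (hz : FalseAt C z) :
    ∃ (x : Asg n) (J : Finset (Fin N)), Valid blk E good κ K₀ C x J ∧
      hammingDist z x ≤ K₀ * κ := by
  classical
  obtain ⟨hy, hJ₀, hcl, hsat⟩ := hV
  set H : Finset (Fin N) := Finset.univ.filter (fun β => (unk blk C β).card ≤ κ) with hH
  have hHJ : H ⊆ J₀ := fun β hβ => hcl β (Finset.mem_filter.1 hβ).2
  have hHc : H.card ≤ K₀ := hJ₀ ▸ Finset.card_le_card hHJ
  -- both falsify `C`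
  have hagree : ∀ v ∈ cvars C, z v = y v := by
    intro v hv
    obtain ⟨b, hb⟩ := mem_cvars.1 hv
    have h1 := hz _ hb
    have h2 := hy _ hb
    simp only at h1 h2
    cases hzv : z v <;> cases hyv : y v <;> cases b <;> simp_all
  set x₀ : Asg n := fun v => if blk v ∈ H then y v else z v with hx₀
  have hx₀f : FalseAt C x₀ := by
    intro l hl
    simp only [hx₀]
    split_ifs
    · exact hy l hl
    · exact hz l hl
  have hd₀ : hammingDist z x₀ ≤ H.card * κ := by
    unfold hammingDist
    have hsub : (Finset.univ.filter (fun v => z v ≠ x₀ v)) ⊆ H.biUnion (fun β => unk blk C β) := by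
      intro v hv
      simp only [Finset.mem_filter, Finset.mem_univ, true_and, hx₀] at hv
      by_cases hvH : blk v ∈ H
      · rw [if_pos hvH] at hv
        rw [Finset.mem_biUnion]
        refine ⟨blk v, hvH, ?_⟩
        simp only [unk, Finset.mem_filter, Finset.mem_univ, true_and]
        exact fun hc => hv (hagree v hc)
      · rw [if_neg hvH] at hv
        exact absurd rfl hv
    refine (Finset.card_le_card hsub).trans ?_
    exact Finset.card_biUnion_le_card_mul _ _ _ (fun β hβ => (Finset.mem_filter.1 hβ).2)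
  have key : ∀ k, H.card + k ≤ K₀ → ∃ (x : Asg n) (J : Finset (Fin N)), J.card = H.card + k ∧
      H ⊆ J ∧ FalseAt C x ∧ (∀ e ∈ E, e ⊆ J → good e x) ∧
      hammingDist z x ≤ (H.card + k) * κ := by
    intro k
    induction k with
    | zero =>
      intro _
      refine ⟨x₀, H, rfl, subset_rfl, hx₀f, ?_, hd₀⟩
      intro e he heH
      refine hgood e y x₀ ?_ (hsat e he (heH.trans hHJ))
      intro v hv
      simp only [hx₀]
      rw [if_pos (heH hv)]
    | succ k ih =>
      intro hk
      obtain ⟨x, J, hJ, hHJ', hxf, hs, hd⟩ := ih (by omega)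
      obtain ⟨β, hβ⟩ : ∃ β, β ∉ J := by
        by_contra hcon
        push Not at hcon
        have : J = Finset.univ := Finset.eq_univ_iff_forall.2 hcon
        rw [this, Finset.card_univ, Fintype.card_fin] at hJ
        omega
      have hβu : κ ≤ (unk blk C β).card := by
        by_contra hcon
        apply hβ
        apply hHJ'
        rw [hH, Finset.mem_filter]
        exact ⟨Finset.mem_univ _, by omega⟩
      obtain ⟨U, hU1, hU2⟩ := Finset.exists_subset_card_eq hβu
      have hUb : ∀ v ∈ U, blk v = β ∧ v ∉ cvars C := by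
        intro v hv
        have := hU1 hv
        simpa [unk] using this
      obtain ⟨x', h1, h2⟩ := hQ x J β U (by omega) hβ (fun v hv => (hUb v hv).1) hU2
      refine ⟨x', insert β J, by rw [Finset.card_insert_of_notMem hβ, hJ]; ring,
        hHJ'.trans (Finset.subset_insert _ _), ?_, ?_, ?_⟩
      · intro l hl
        rw [h1 l.1]
        · exact hxf l hl
        · intro h
          exact (hUb _ h).2 (mem_cvars.2 ⟨l.2, hl⟩)
      · intro e he heJ
        by_cases hβe : β ∈ e
        · exact h2 e he heJ hβe
        · refine hgood e x x' ?_ (hs e he ?_)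
          · intro w hw
            apply h1
            intro h
            rw [(hUb w h).1] at hw
            exact hβe hw
          · intro γ hγ
            rcases Finset.mem_insert.1 (heJ hγ) with h | h
            · exact absurd (h ▸ hγ) hβe
            · exact h
      · have hd1 : hammingDist x x' ≤ κ := by
          rw [← hU2]
          unfold hammingDist
          apply Finset.card_le_card
          intro w hw
          simp only [Finset.mem_filter, Finset.mem_univ, true_and] at hw
          by_contra hnot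
          exact hw (h1 w hnot).symm
        have htri : hammingDist z x' ≤ hammingDist z x + hammingDist x x' :=
          hammingDist_triangle _ _ _
        calc hammingDist z x' ≤ (H.card + k) * κ + κ := by omega
          _ = (H.card + (k + 1)) * κ := by ring
  obtain ⟨x, J, h1, h2, h3, h4, h5⟩ := key (K₀ - H.card) (by omega)
  have e : H.card + (K₀ - H.card) = K₀ := by omega
  rw [e] at h1 h5
  exact ⟨x, J, ⟨h3, h1, fun β hβ => h2 (Finset.mem_filter.2 ⟨Finset.mem_univ _, hβ⟩), h4⟩, h5⟩

end play

end Pool.Agent.TH689.CK
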