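import Mathlib
import Pool.Agent.TH689.CKPlay
import Pool.Agent.H538R2.RDExist

/-!
The finite form of the bound for resolution refutations which come back to narrow clauses.
-/

namespace Pool.Agent.TH689.CK

open Finset Pool.Agent.H538R2.SB

variable {n N : ℕ}

/-- number of assignments falsifying a clause, from below -/
lemma falsify_card_ge (C : Clause n) {x : Asg n} (hx : FalseAt C x) :
    2 ^ n ≤ 2 ^ (cvars C).card * (Finset.univ.filter (fun y : Asg n => FalseAt C y)).card := by
  classical
  have h1 : Finset.univ.filter (fun y : Asg n => ∀ v, v ∉ (cvars C)ᶜ → y v = x v)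
      ⊆ Finset.univ.filter (fun y : Asg n => FalseAt C y) := by
    intro y hy
    have hy' := (Finset.mem_filter.1 hy).2
    refine Finset.mem_filter.2 ⟨Finset.mem_univ _, ?_⟩
    intro l hl
    rw [hy' l.1]
    · exact hx l hl
    · simp only [Finset.mem_compl, not_not]
      exact mem_cvars.2 ⟨l.2, hl⟩
  have h2 := Finset.card_le_card h1
  rw [card_free] at h2
  have h3 : (cvars C).card + ((cvars C)ᶜ).card = n := by
    rw [Finset.card_add_card_compl, Fintype.card_fin]
  calc 2 ^ n = 2 ^ (cvars C).card * 2 ^ ((cvars C)ᶜ).card := by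
        rw [← pow_add, h3]
    _ ≤ _ := Nat.mul_le_mul_left _ h2

lemma cvars_card_le (C : Clause n) : (cvars C).card ≤ C.card := Finset.card_image_le

/-- Counting: if all assignments falsifying a clause with at most `w` literals are close to an
assignment falsifying a wide clause, then there are many clauses. -/
lemma count_wide {lines : Finset (Clause n)} {w wmin D : ℕ} {C : Clause n} {x : Asg n}
    (hC : C.card ≤ w) (hx : FalseAt C x)
    (hkey : ∀ z : Asg n, FalseAt C z → ∃ W ∈ lines, ∃ y : Asg n, wmin ≤ (cvars W).card ∧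
      FalseAt W y ∧ hammingDist z y ≤ D)
    {l : ℝ} (hl0 : 0 < l) (hl1 : l ≤ 1) :
    2 ^ wmin * l ^ D ≤ 2 ^ w * (lines.card : ℝ) * (1 + l) ^ n := by
  classical
  set Wd := lines.filter (fun W => wmin ≤ (cvars W).card) with hWd
  have hcov : (Finset.univ.filter (fun z : Asg n => FalseAt C z)) ⊆ Wd.biUnion (fun W =>
      (Finset.univ.filter (fun y : Asg n => FalseAt W y)).biUnion (fun y =>
        Finset.univ.filter (fun z : Asg n => hammingDist z y ≤ D))) := by
    intro z hz
    obtain ⟨W, hW1, y, hW2, hW3, hW4⟩ := hkey z (Finset.mem_filter.1 hz).2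
    rw [Finset.mem_biUnion]
    refine ⟨W, Finset.mem_filter.2 ⟨hW1, hW2⟩, ?_⟩
    rw [Finset.mem_biUnion]
    exact ⟨y, Finset.mem_filter.2 ⟨Finset.mem_univ _, hW3⟩,
      Finset.mem_filter.2 ⟨Finset.mem_univ _, hW4⟩⟩
  have hc0 : ((Finset.univ.filter (fun z : Asg n => FalseAt C z)).card : ℝ)
      ≤ ∑ W ∈ Wd, ∑ y ∈ Finset.univ.filter (fun y : Asg n => FalseAt W y),
      ((Finset.univ.filter (fun z : Asg n => hammingDist z y ≤ D)).card : ℝ) := by
    have h3 : (Finset.univ.filter (fun z : Asg n => FalseAt C z)).card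
        ≤ ∑ W ∈ Wd, ∑ y ∈ Finset.univ.filter (fun y : Asg n => FalseAt W y),
        (Finset.univ.filter (fun z : Asg n => hammingDist z y ≤ D)).card := by
      have h4 := Finset.card_le_card hcov
      refine h4.trans (Finset.card_biUnion_le.trans (Finset.sum_le_sum ?_))
      intro W _
      exact Finset.card_biUnion_le
    exact_mod_cast h3
  have hc1 : (2 : ℝ) ^ n ≤ 2 ^ w * ∑ W ∈ Wd,
      ∑ y ∈ Finset.univ.filter (fun y : Asg n => FalseAt W y),
      ((Finset.univ.filter (fun z : Asg n => hammingDist z y ≤ D)).card : ℝ) := by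
    have h5 : 2 ^ n ≤ 2 ^ w * (Finset.univ.filter (fun y : Asg n => FalseAt C y)).card :=
      (falsify_card_ge C hx).trans (Nat.mul_le_mul_right _
        (Nat.pow_le_pow_right (by norm_num) ((cvars_card_le C).trans hC)))
    have h6 : (2 : ℝ) ^ n
        ≤ 2 ^ w * ((Finset.univ.filter (fun y : Asg n => FalseAt C y)).card : ℝ) := by
      exact_mod_cast h5
    exact h6.trans (mul_le_mul_of_nonneg_left hc0 (by positivity))
  have hc2 : (2 : ℝ) ^ n * (2 ^ wmin * l ^ D)
      ≤ 2 ^ n * (2 ^ w * (lines.card : ℝ) * (1 + l) ^ n) := by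
    calc (2 : ℝ) ^ n * (2 ^ wmin * l ^ D)
        ≤ (2 ^ w * ∑ W ∈ Wd, ∑ y ∈ Finset.univ.filter (fun y : Asg n => FalseAt W y),
      ((Finset.univ.filter (fun z : Asg n => hammingDist z y ≤ D)).card : ℝ))
          * (2 ^ wmin * l ^ D) := mul_le_mul_of_nonneg_right hc1 (by positivity)
      _ = 2 ^ w * ∑ W ∈ Wd, (∑ y ∈ Finset.univ.filter (fun y : Asg n => FalseAt W y),
      ((Finset.univ.filter (fun z : Asg n => hammingDist z y ≤ D)).card : ℝ) * l ^ D)
          * 2 ^ wmin := by
          rw [mul_assoc, Finset.sum_mul]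
          congr 1
          apply Finset.sum_congr rfl
          intro W _
          rw [← Finset.sum_mul]
          ring
      _ ≤ 2 ^ w * ∑ W ∈ Wd, (∑ y ∈ Finset.univ.filter (fun y : Asg n => FalseAt W y), (1 + l) ^ n)
          * 2 ^ wmin := by
          apply mul_le_mul_of_nonneg_left _ (by positivity)
          apply Finset.sum_le_sum
          intro W _
          apply mul_le_mul_of_nonneg_right _ (by positivity)
          apply Finset.sum_le_sum
          intro y _
          exact ball_bound y D hl0 hl1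
      _ ≤ 2 ^ w * ∑ W ∈ Wd, 2 ^ n * (1 + l) ^ n := by
          apply mul_le_mul_of_nonneg_left _ (by positivity)
          apply Finset.sum_le_sum
          intro W hW
          rw [Finset.sum_const, nsmul_eq_mul]
          have h5 := falsify_card W
          have h6 : (Finset.univ.filter (fun y : Asg n => FalseAt W y)).card * 2 ^ wmin
              ≤ 2 ^ n := by
            refine le_trans (Nat.mul_le_mul_left _ ?_) h5
            exact Nat.pow_le_pow_right (by norm_num) (Finset.mem_filter.1 hW).2
          have h7 : ((Finset.univ.filter (fun y : Asg n => FalseAt W y)).card : ℝ) * 2 ^ wmin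
              ≤ 2 ^ n := by exact_mod_cast h6
          calc ((Finset.univ.filter (fun y : Asg n => FalseAt W y)).card : ℝ) * (1 + l) ^ n
                * 2 ^ wmin
              = (((Finset.univ.filter (fun y : Asg n => FalseAt W y)).card : ℝ) * 2 ^ wmin)
                * (1 + l) ^ n := by ring
            _ ≤ _ := mul_le_mul_of_nonneg_right h7 (by positivity)
      _ = 2 ^ w * ((Wd.card : ℝ) * (2 ^ n * (1 + l) ^ n)) := by
          rw [Finset.sum_const, nsmul_eq_mul]
      _ ≤ 2 ^ w * ((lines.card : ℝ) * (2 ^ n * (1 + l) ^ n)) := by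
          apply mul_le_mul_of_nonneg_left _ (by positivity)
          apply mul_le_mul_of_nonneg_right _ (by positivity)
          exact_mod_cast Finset.card_filter_le _ _
      _ = _ := by ring
  exact le_of_mul_le_mul_left hc2 (by positivity)

/-- Finite form of the lower bound. -/
theorem finite_ck (blk : Fin n → Fin N) (E : Finset (Finset (Fin N)))
    {q s κ K₀ g wmin b : ℕ} (hq : 1 ≤ q) (hg : 1 ≤ g) (hsq : 2 * s ≤ q)
    (hE0 : ∀ e ∈ E, e.Nonempty)
    (hs : ∀ (J : Finset (Fin N)) (β : Fin N), J.card ≤ K₀ →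
      (E.filter (fun e => e ⊆ insert β J ∧ β ∈ e)).card ≤ s)
    (H1 : q * (n + 2) ≤ E.card)
    (H2 : 2 * n + 2 * N + 1 ≤ 2 ^ κ)
    (hK : K₀ ≤ N)
    (hb : ∀ β, b ≤ (Finset.univ.filter (fun v => blk v = β)).card)
    (hb' : ∀ β, (Finset.univ.filter (fun v => blk v = β)).card ≤ b + 1)
    (hgb : g + κ ≤ b)
    (hW : K₀ * (g + κ) + (N - K₀) * (b + 1) + wmin ≤ n) :
    ∃ F : Finset (Clause n),
      (∀ C ∈ F, ∃ e ∈ E, ∃ S ⊆ Finset.univ.filter (fun v => blk v ∈ e), clauseOf blk e S = C) ∧
      (∀ x : Asg n, ∃ C ∈ F, FalseAt C x) ∧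
      ∀ (w T : ℕ) (lines : Finset (Clause n)) (rk t : Clause n → ℕ),
        Refutation F w T lines rk t →
        ∀ D : ℕ, K₀ * κ + κ * (T + 1 + n) / g ≤ D → ∀ l : ℝ, 0 < l → l ≤ 1 →
        2 ^ wmin * l ^ D ≤ 2 ^ w * (lines.card : ℝ) * (1 + l) ^ n := by
  classical
  have : NeZero q := ⟨by omega⟩
  obtain ⟨ω, h1, h2⟩ := exists_omega_rd (q := q) blk E hsq hs H1 H2
  refine ⟨cnfRd blk E ω, ?_, ?_, ?_⟩
  · intro C hC
    obtain ⟨e, he, p, _, rfl⟩ := mem_cnfRd.1 hC
    refine ⟨e, he, _, ?_, rfl⟩
    intro v hv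
    simp only [Finset.mem_filter, Finset.mem_univ, true_and] at hv ⊢
    exact hv.1
  · intro x
    obtain ⟨e, he, hne⟩ := h1 x
    exact ⟨_, mem_cnfRd.2 ⟨e, he, x, hne, rfl⟩, (falseAt_clauseOf blk e x x).2 (Agree.refl _ _ _)⟩
  · intro w T lines rk t hRef D hD l hl0 hl1
    set good : Finset (Fin N) → Asg n → Prop := fun e x => ω (e, mask blk e x) ≠ 0 with hgooddef
    have hgood : ∀ e x y, Agree blk e x y → good e x → good e y := by
      intro e x y h hg
      simp only [hgooddef] at hg ⊢
      rwa [(mask_eq_iff blk).2 h]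
    have hF : ∀ D ∈ cnfRd blk E ω, ∃ e ∈ E, (∀ x, FalseAt D x → ¬ good e x) ∧
        ∀ v, blk v ∈ e → v ∈ cvars D := by
      intro D hD
      obtain ⟨e, he, p, hp, rfl⟩ := mem_cnfRd.1 hD
      refine ⟨e, he, ?_, fun v hv => mem_cvars_clauseOf blk e _ hv⟩
      intro x hx hgx
      have hag := (falseAt_clauseOf blk e p x).1 hx
      apply hgx
      rw [(mask_eq_iff blk).2 hag]
      exact hp
    -- a trivial case
    rcases Nat.eq_zero_or_pos wmin with hw0 | hwpos
    · have hne : (1 : ℝ) ≤ (lines.card : ℝ) := by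
        have : 1 ≤ lines.card := Finset.card_pos.2 ⟨∅, hRef.last⟩
        exact_mod_cast this
      have h3 : l ^ D ≤ 1 := pow_le_one₀ hl0.le hl1
      have h4 : (1 : ℝ) ≤ (1 + l) ^ n := one_le_pow₀ (by linarith)
      have h5 : (1 : ℝ) ≤ 2 ^ w := one_le_pow₀ (by norm_num)
      rw [hw0, pow_zero, one_mul]
      calc l ^ D ≤ 1 := h3
        _ = 1 * 1 * 1 := by norm_num
        _ ≤ 2 ^ w * (lines.card : ℝ) * (1 + l) ^ n := by
            apply mul_le_mul _ h4 (by norm_num) (by positivity)
            exact mul_le_mul h5 hne (by norm_num) (by positivity)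
    -- descent
    have hdesc : ∀ r : ℕ, ∀ C ∈ lines, rk C ≤ r → C.card ≤ w → (cvars C).card < wmin →
        (∃ x J, Valid blk E good κ K₀ C x J) →
        2 ^ wmin * l ^ D ≤ 2 ^ w * (lines.card : ℝ) * (1 + l) ^ n := by
      intro r
      induction r with
      | zero =>
        intro C hC hr hCw hCn hV
        obtain ⟨y, J₀, hV⟩ := hV
        apply count_wide hCw hV.fls _ hl0 hl1
        intro z hz
        obtain ⟨x, J, hV', hd⟩ := restart hgood h2 hK hV hz
        rcases play (B₁ := b + 1) hRef hg hgood hF h2 hb' hW T C hC (hRef.gap C hC) x J hV' hCn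
          with ⟨W, hW1, u, hW2, hW3, hW4⟩ | ⟨N', _, hN2, _⟩
        · refine ⟨W, hW1, u, hW2, hW3, ?_⟩
          have hp := pot_le (blk := blk) (g := g) (κ := κ) (fun β => hgb.trans (hb β)) C J
          have h3 : hammingDist x u ≤ κ * (T + 1 + n) / g := by
            rw [Nat.le_div_iff_mul_le (by omega), mul_comm]
            refine hW4.trans (Nat.mul_le_mul_left _ ?_)
            omega
          calc hammingDist z u ≤ hammingDist z x + hammingDist x u := hammingDist_triangle _ _ _
            _ ≤ K₀ * κ + κ * (T + 1 + n) / g := by omega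
            _ ≤ D := hD
        · omega
      | succ r ih =>
        intro C hC hr hCw hCn hV
        by_cases hall : ∃ N' ∈ lines, rk N' < rk C ∧ N'.card ≤ w ∧ (cvars N').card < wmin ∧
            ∃ x' J', Valid blk E good κ K₀ N' x' J'
        · obtain ⟨N', hN1, hN2, hN3, hN4, hN5⟩ := hall
          exact ih N' hN1 (by omega) hN3 hN4 hN5
        · obtain ⟨y, J₀, hV⟩ := hV
          apply count_wide hCw hV.fls _ hl0 hl1
          intro z hz
          obtain ⟨x, J, hV', hd⟩ := restart hgood h2 hK hV hz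
          rcases play (B₁ := b + 1) hRef hg hgood hF h2 hb' hW T C hC (hRef.gap C hC) x J hV' hCn
            with ⟨W, hW1, u, hW2, hW3, hW4⟩ | hN
          · refine ⟨W, hW1, u, hW2, hW3, ?_⟩
            have hp := pot_le (blk := blk) (g := g) (κ := κ) (fun β => hgb.trans (hb β)) C J
            have h3 : hammingDist x u ≤ κ * (T + 1 + n) / g := by
              rw [Nat.le_div_iff_mul_le (by omega), mul_comm]
              refine hW4.trans (Nat.mul_le_mul_left _ ?_)
              omega
            calc hammingDist z u ≤ hammingDist z x + hammingDist x u := hammingDist_triangle _ _ _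
              _ ≤ K₀ * κ + κ * (T + 1 + n) / g := by omega
              _ ≤ D := hD
          · exact absurd hN hall
    -- the first state
    obtain ⟨x, J, hJ, hsat, _⟩ := start (K₀ := K₀) (κ := κ) hgood hE0 h2
        (fun β => (by omega : κ ≤ b).trans (hb β)) (fun _ => false) K₀ le_rfl hK
    refine hdesc (rk ∅) ∅ hRef.last le_rfl (by simp) ?_ ⟨x, J, ?_, hJ, ?_, hsat⟩
    · have : cvars (∅ : Clause n) = ∅ := by simp [cvars]
      rw [this, Finset.card_empty]
      exact hwpos
    · intro l hl
      simp at hl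
    · intro β hβ
      exfalso
      have hunk : unk blk (∅ : Clause n) β = Finset.univ.filter (fun v => blk v = β) := by
        ext v
        simp [unk, cvars]
      rw [hunk] at hβ
      have := hb β
      omega

end Pool.Agent.TH689.CK
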