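import Mathlib
import Pool.Agent.TH689.CKMain
import Pool.Agent.H538R2.RDFinal

/-!
Choice of the parameters and the final statement for resolution refutations which come back to
narrow clauses.
-/

namespace Pool.Agent.TH689.CK

open Finset Filter Topology Pool.Agent.H538R2.SB

variable {n N : ℕ}

theorem main_CK (ε : ℝ) (hε0 : 0 < ε) (hε2 : ε < 2) (c : ℕ) :
    ∃ m n₀ : ℕ, 0 < m ∧ ∀ n : ℕ, n₀ ≤ n → ∃ F : Finset (Clause n),
      (∀ x : Asg n, ∃ C ∈ F, FalseAt C x) ∧
      ∀ (w T : ℕ) (lines : Finset (Clause n)) (rk t : Clause n → ℕ),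
        Refutation F w T lines rk t →
        m * T * (Nat.log 2 n + 1) ^ 2 ≤ n ^ 2 →
        (2 - ε) ^ n * (cnfSize F : ℝ) ^ c < 2 ^ w * lines.card := by
  set β : ℝ := 2 - ε with hβ
  have hβh0 : 0 ≤ β / 2 := by linarith
  have hβh1 : β / 2 < 1 := by linarith
  -- the constant h
  obtain ⟨h, hh1, hh8⟩ : ∃ h : ℕ, 1 ≤ h ∧ (β / 2) ^ h * 32 < 1 := by
    have h1 : Tendsto (fun m : ℕ => (β / 2) ^ m) atTop (𝓝 0) :=
      tendsto_pow_atTop_nhds_zero_of_lt_one hβh0 hβh1
    have h2 : ∀ᶠ m : ℕ in atTop, (β / 2) ^ m < 1 / 32 := h1.eventually_lt_const (by norm_num)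
    obtain ⟨m₀, hm₀⟩ := h2.exists_forall_of_atTop
    refine ⟨m₀ + 1, by omega, ?_⟩
    have := hm₀ (m₀ + 1) (by omega)
    linarith
  have hhR : (1 : ℝ) ≤ h := by exact_mod_cast hh1
  -- the constant t₁
  obtain ⟨t₁, ht₁, htr⟩ : ∃ t₁ : ℕ, 1 ≤ t₁ ∧ ((8 * h - 1 : ℝ) / (8 * h)) ^ t₁ ≤ 1 / 16 := by
    have hr0 : 0 ≤ (8 * h - 1 : ℝ) / (8 * h) := by
      apply div_nonneg <;> linarith
    have hr1 : (8 * h - 1 : ℝ) / (8 * h) < 1 := by
      rw [div_lt_one (by linarith)]; linarith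
    have h1 : Tendsto (fun m : ℕ => ((8 * h - 1 : ℝ) / (8 * h)) ^ m) atTop (𝓝 0) :=
      tendsto_pow_atTop_nhds_zero_of_lt_one hr0 hr1
    have h2 : ∀ᶠ m : ℕ in atTop, ((8 * h - 1 : ℝ) / (8 * h)) ^ m < 1 / 16 :=
      h1.eventually_lt_const (by norm_num)
    obtain ⟨m₀, hm₀⟩ := h2.exists_forall_of_atTop
    exact ⟨m₀ + 1, by omega, (hm₀ (m₀ + 1) (by omega)).le⟩
  set G : ℕ := (c + 1) * t₁ + 2 with hG
  set N₁ : ℕ := 4 * h * G with hN₁
  set K₁ : ℕ := (4 * h - 1) * G with hK₁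
  have hG2 : 2 ≤ G := by omega
  have hKG : K₁ + G = N₁ := by
    rw [hK₁, hN₁]
    obtain ⟨h', rfl⟩ : ∃ h', h = h' + 1 := ⟨h - 1, by omega⟩
    have : 4 * (h' + 1) - 1 = 4 * h' + 3 := by omega
    rw [this]; ring
  have hN₁pos : 1 ≤ N₁ := by
    rw [hN₁]; exact Nat.mul_pos (by omega) (by omega)
  have ht₁K : t₁ ≤ K₁ := by
    rw [hK₁]
    calc t₁ ≤ G := by
          have h1 : t₁ ≤ (c + 1) * t₁ := Nat.le_mul_of_pos_left _ (by omega)
          omega
      _ ≤ (4 * h - 1) * G := Nat.le_mul_of_pos_left _ (by omega)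
  -- u₀
  set ρ : ℝ := (β / 2) ^ h * 32 with hρ
  have hρ0 : 0 ≤ ρ := by rw [hρ]; positivity
  obtain ⟨u₀, hu₀⟩ := exists_rho hρ0 hh8 h (2 * c + c * (N₁ + t₁ + 1))
  obtain ⟨n₁, hn₁⟩ := exists_large (2048 * h ^ 3 * N₁)
  refine ⟨1024 * h ^ 3 * N₁, n₁ + h * u₀ + 2 * h + 1, by positivity, ?_⟩
  intro n hn
  have hlarge := hn₁ n (by omega)
  set L := Nat.log 2 n + 1 with hL
  have hL1 : 1 ≤ L := by omega
  have hlarge0 : 2048 * h ^ 3 * N₁ * (L * (L + 3)) ≤ n := by
    have e : L + 3 = Nat.log 2 n + 4 := by omega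
    rw [e]; exact hlarge
  have hh32 : 16 * h ^ 2 ≤ 2048 * h ^ 3 := by
    have : h ^ 2 ≤ h ^ 3 := Nat.pow_le_pow_right (by omega) (by norm_num)
    omega
  have hlarge : 16 * h ^ 2 * N₁ * (L * (L + 3)) ≤ n :=
    (Nat.mul_le_mul_right _ (Nat.mul_le_mul_right _ hh32)).trans hlarge0
  have hnL : n < 2 ^ L := by
    rw [hL]; exact Nat.lt_pow_succ_log_self (by norm_num) n
  have hLn : 2 ^ L ≤ 2 * n := by
    have h1 : 2 ^ Nat.log 2 n ≤ n := Nat.pow_log_le_self 2 (by omega)
    rw [hL, pow_succ]; omega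
  set t := t₁ * L with ht
  set N := N₁ * L with hN
  set K₀ := K₁ * L with hK₀
  set κ := L + 3 with hκ
  set b := n / N with hb
  set g := b / (8 * h) with hg
  set u := n / h with hu
  set s := (K₀ + 1).choose t with hs
  have hNpos : 0 < N := Nat.mul_pos (by omega) (by omega)
  have h8h : 0 < 8 * h := by omega
  -- large conditions
  have hh2 : h ≤ h ^ 2 := Nat.le_self_pow (by norm_num) h
  have hh21 : 1 ≤ h ^ 2 := Nat.one_le_pow _ _ (by omega)
  have hcA : ∀ a x : ℕ, a ≤ 16 * h ^ 2 → x ≤ L * (L + 3) → a * N₁ * x ≤ n := by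
    intro a x ha hx
    exact (Nat.mul_le_mul (Nat.mul_le_mul_right _ ha) hx).trans hlarge
  have hLL : L ≤ L * (L + 3) := Nat.le_mul_of_pos_right _ (by omega)
  have hNn : 8 * h * N ≤ n := by
    have := hcA (8 * h) L (by omega) hLL
    rw [hN]; linarith
  have hNn1 : N ≤ n := by
    have : N ≤ 8 * h * N := Nat.le_mul_of_pos_left _ h8h
    omega
  have hNb : N * b ≤ n := Nat.mul_div_le n N
  have hnb : n < N * (b + 1) := Nat.lt_mul_div_succ n hNpos
  have hb8h : 8 * h ≤ b := by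
    rw [hb, Nat.le_div_iff_mul_le hNpos]; exact hNn
  have hgb : 8 * h * g ≤ b := Nat.mul_div_le _ _
  have hbg : b < 8 * h * (g + 1) := Nat.lt_mul_div_succ b h8h
  have hg1 : 1 ≤ g := by
    rw [hg, Nat.le_div_iff_mul_le h8h]; omega
  have hκb : 2 * κ ≤ b := by
    rw [hb, Nat.le_div_iff_mul_le hNpos]
    have := hcA 2 (L * (L + 3)) (by omega) le_rfl
    calc 2 * κ * N = 2 * N₁ * (L * (L + 3)) := by rw [hκ, hN]; ring
      _ ≤ n := this
  have hgκ : g + κ ≤ b := by
    have : 2 * g ≤ b := by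
      have h2 : 8 * g ≤ 8 * h * g := Nat.mul_le_mul_right _ (by omega)
      omega
    omega
  have hhu : h * u ≤ n := Nat.mul_div_le n h
  have hnu : n < h * (u + 1) := Nat.lt_mul_div_succ n (by omega)
  have hun : u ≤ n := Nat.div_le_self _ _
  have hu1 : 1 ≤ u := by
    rw [hu, Nat.le_div_iff_mul_le (by omega)]; omega
  have huu₀ : u₀ ≤ u := by
    rw [hu, Nat.le_div_iff_mul_le (by omega)]
    calc u₀ * h = h * u₀ := mul_comm _ _
      _ ≤ n := by omega
  have hK₀N : K₀ + G * L = N := by rw [hK₀, hN, ← hKG]; ring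
  -- s and M
  have hKN1 : K₀ + 1 ≤ N := by
    have : 1 ≤ G * L := Nat.mul_pos (by omega) (by omega)
    omega
  have htK : t ≤ K₀ := Nat.mul_le_mul_right _ ht₁K
  have hs1 : 1 ≤ s := Nat.choose_pos (by omega)
  have htN : t ≤ N := by omega
  have ht1 : 1 ≤ t := Nat.mul_pos (by omega) (by omega)
  have hsM : 2 * s * (n + 2) ≤ N.choose t := by
    have h1 : (s : ℝ) * (N : ℝ) ^ t ≤ (N.choose t : ℝ) * ((K₀ : ℝ) + 1) ^ t := by
      exact_mod_cast choose_ratio hKN1 t
    have hNR : (0 : ℝ) < N := by exact_mod_cast hNpos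
    have h2 : ((K₀ : ℝ) + 1) / N ≤ (8 * h - 1 : ℝ) / (8 * h) := by
      rw [div_le_div_iff₀ hNR (by linarith)]
      have e1 : (K₀ : ℝ) + G * L = N := by exact_mod_cast hK₀N
      have e2 : (N : ℝ) = 4 * h * G * L := by rw [hN, hN₁]; push_cast; ring
      have e3 : (2 : ℝ) ≤ G := by exact_mod_cast hG2
      have e4 : (1 : ℝ) ≤ L := by exact_mod_cast hL1
      have e5 : (K₀ : ℝ) = 4 * h * G * L - G * L := by linarith
      rw [e5, e2]
      have e6 : (2 : ℝ) ≤ G * L := by
        calc (2 : ℝ) = 2 * 1 := by norm_num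
          _ ≤ G * L := mul_le_mul e3 e4 (by norm_num) (by linarith)
      have e7 : (h : ℝ) * 2 ≤ h * (G * L) := mul_le_mul_of_nonneg_left e6 (by linarith)
      linarith
    have h3 : (s : ℝ) ≤ (N.choose t : ℝ) * ((8 * h - 1 : ℝ) / (8 * h)) ^ t := by
      calc (s : ℝ) ≤ (N.choose t : ℝ) * (((K₀ : ℝ) + 1) / N) ^ t := by
            rw [div_pow, mul_div_assoc', le_div_iff₀ (by positivity)]
            exact h1
        _ ≤ _ := by
            apply mul_le_mul_of_nonneg_left _ (by positivity)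
            exact pow_le_pow_left₀ (by positivity) h2 _
    have h4 : ((8 * h - 1 : ℝ) / (8 * h)) ^ t ≤ (1 / 16) ^ L := by
      rw [ht, pow_mul]
      apply pow_le_pow_left₀ _ htr
      apply pow_nonneg
      apply div_nonneg <;> linarith
    have h5 : (2 : ℝ) * (n + 2) * (1 / 16) ^ L ≤ 1 := by
      have h6 : 2 * (n + 2) ≤ 16 ^ L := by
        have h7 : 16 ^ L = 8 ^ L * 2 ^ L := by rw [← mul_pow]; norm_num
        have h8 : 8 ≤ 8 ^ L := by
          calc 8 = 8 ^ 1 := by norm_num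
            _ ≤ 8 ^ L := Nat.pow_le_pow_right (by norm_num) hL1
        have h9 : 8 * 2 ^ L ≤ 16 ^ L := by rw [h7]; exact Nat.mul_le_mul_right _ h8
        have h10 : 1 ≤ 2 ^ L := Nat.one_le_two_pow
        omega
      have h6R : (2 : ℝ) * (n + 2) ≤ 16 ^ L := by exact_mod_cast h6
      rw [one_div, inv_pow, ← div_eq_mul_inv, div_le_one (by positivity)]
      exact h6R
    have h6 : ((2 * s * (n + 2) : ℕ) : ℝ) ≤ ((N.choose t : ℕ) : ℝ) := by
      push_cast
      calc (2 : ℝ) * s * (n + 2) ≤ 2 * ((N.choose t : ℝ) * (1 / 16) ^ L) * (n + 2) := by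
            apply mul_le_mul_of_nonneg_right _ (by positivity)
            apply mul_le_mul_of_nonneg_left _ (by norm_num)
            exact h3.trans (mul_le_mul_of_nonneg_left h4 (by positivity))
        _ = (N.choose t : ℝ) * (2 * (n + 2) * (1 / 16) ^ L) := by ring
        _ ≤ (N.choose t : ℝ) * 1 := mul_le_mul_of_nonneg_left h5 (by positivity)
        _ = _ := mul_one _
    exact_mod_cast h6
  set E := (Finset.univ : Finset (Fin N)).powersetCard t with hEdef
  have hEcard : E.card = N.choose t := by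
    rw [hEdef, Finset.card_powersetCard, Finset.card_univ, Fintype.card_fin]
  have hW : K₀ * (g + κ) + (N - K₀) * (b + 1) + (n - u) ≤ n := by
    have e0 : N - K₀ = G * L := by omega
    rw [e0]
    have e1 : 8 * h * (K₀ * g) ≤ n := by
      calc 8 * h * (K₀ * g) = K₀ * (8 * h * g) := by ring
        _ ≤ N * b := Nat.mul_le_mul (by omega) hgb
        _ ≤ n := hNb
    have e2 : 8 * h * (G * L * b) ≤ 2 * n := by
      calc 8 * h * (G * L * b) = 2 * (N * b) := by rw [hN, hN₁]; ring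
        _ ≤ 2 * n := Nat.mul_le_mul_left _ hNb
    have e3 : 8 * h * (K₀ * κ + G * L) ≤ n := by
      have e4 : K₀ * κ + G * L ≤ N₁ * (2 * (L * (L + 3))) := by
        have e5 : K₀ * κ = K₁ * (L * (L + 3)) := by rw [hK₀, hκ]; ring
        have e6 : G * L ≤ G * (L * (L + 3)) := Nat.mul_le_mul_left _ hLL
        have e7 : K₁ * (L * (L + 3)) + G * (L * (L + 3)) = N₁ * (L * (L + 3)) := by
          rw [← hKG]; ring
        have e8 : N₁ * (2 * (L * (L + 3))) = N₁ * (L * (L + 3)) + N₁ * (L * (L + 3)) := by ring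
        omega
      calc 8 * h * (K₀ * κ + G * L) ≤ 8 * h * (N₁ * (2 * (L * (L + 3)))) :=
            Nat.mul_le_mul_left _ e4
        _ = 16 * h * N₁ * (L * (L + 3)) := by ring
        _ ≤ n := hcA (16 * h) (L * (L + 3)) (by omega) le_rfl
    have e4 : 8 * (h * (u + 1)) = 8 * h * u + 8 * h := by ring
    have e5 : 8 * h * (K₀ * (g + κ) + G * L * (b + 1)) ≤ 8 * h * u := by
      have e6 : 8 * h * (K₀ * (g + κ) + G * L * (b + 1))
          = 8 * h * (K₀ * g) + 8 * h * (G * L * b) + 8 * h * (K₀ * κ + G * L) := by ring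
      rw [e6]
      omega
    have e6 : K₀ * (g + κ) + G * L * (b + 1) ≤ u := Nat.le_of_mul_le_mul_left e5 h8h
    omega
  obtain ⟨F, hF1, hF2, hF3⟩ := finite_ck (rblk n N hNpos) E (q := 2 * s) (s := s) (κ := κ)
    (K₀ := K₀) (g := g) (wmin := n - u) (b := b) (by omega) hg1 le_rfl
    (by
      intro e he
      rw [hEdef, Finset.mem_powersetCard] at he
      exact Finset.card_pos.1 (by omega))
    (by
      intro J β hJ
      have h1 : E.filter (fun e => e ⊆ insert β J ∧ β ∈ e) ⊆ (insert β J).powersetCard t := by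
        intro e he
        obtain ⟨he1, he2, _⟩ := Finset.mem_filter.1 he
        rw [hEdef, Finset.mem_powersetCard] at he1
        exact Finset.mem_powersetCard.2 ⟨he2, he1.2⟩
      refine (Finset.card_le_card h1).trans ?_
      rw [Finset.card_powersetCard]
      apply Nat.choose_le_choose
      exact (Finset.card_insert_le _ _).trans (by omega))
    (by rw [hEcard]; exact hsM)
    (by
      have : 2 ^ κ = 8 * 2 ^ L := by rw [hκ, pow_add]; ring
      rw [this]
      omega)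
    (by omega)
    (by
      intro β
      have := vars_lower (n := n) hNpos {β}
      rw [blk_card_eq]
      simpa using this)
    (by
      intro β
      have := vars_upper (n := n) hNpos {β}
      rw [blk_card_eq]
      simpa using this)
    hgκ hW
  refine ⟨F, hF2, ?_⟩
  intro w T lines rk t' hRef hdepth
  set d := T + 1 + n with hd
  have hdepth' : 512 * h ^ 3 * N₁ * d * L ^ 2 ≤ n ^ 2 := by
    have f1 : 1024 * h ^ 3 * N₁ * T * L ^ 2 ≤ n ^ 2 := hdepth
    have f2 : 1024 * h ^ 3 * N₁ * (1 + n) * L ^ 2 ≤ n ^ 2 := by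
      have hn1 : 1 + n ≤ 2 * n := by omega
      have hLsq : L ^ 2 ≤ L * (L + 3) := by
        rw [sq]; exact Nat.mul_le_mul_left _ (by omega)
      calc 1024 * h ^ 3 * N₁ * (1 + n) * L ^ 2
          ≤ 1024 * h ^ 3 * N₁ * (2 * n) * (L * (L + 3)) :=
            Nat.mul_le_mul (Nat.mul_le_mul_left _ hn1) hLsq
        _ = (2048 * h ^ 3 * N₁ * (L * (L + 3))) * n := by ring
        _ ≤ n * n := Nat.mul_le_mul_right _ hlarge0
        _ = n ^ 2 := by ring
    have f3 : 2 * (512 * h ^ 3 * N₁ * d * L ^ 2)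
        = 1024 * h ^ 3 * N₁ * T * L ^ 2 + 1024 * h ^ 3 * N₁ * (1 + n) * L ^ 2 := by
      rw [hd]; ring
    omega
  have hF1' : ∀ C ∈ F, ∃ e ∈ (Finset.univ : Finset (Fin N)).powersetCard t,
        ∃ S ⊆ vars (rblk n N hNpos) e, clauseOf (rblk n N hNpos) e S = C := hF1
  have hsize := cnfSize_bound hNpos F hF1'
  have hD : h * (K₀ * κ + κ * d / g) ≤ u := by
    have e1 : 2 * (h * (K₀ * κ)) ≤ u := by
      rw [hu, Nat.le_div_iff_mul_le (by omega)]
      calc 2 * (h * (K₀ * κ)) * h = 2 * h ^ 2 * K₁ * (L * (L + 3)) := by rw [hK₀, hκ]; ring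
        _ ≤ 2 * h ^ 2 * N₁ * (L * (L + 3)) := by
            apply Nat.mul_le_mul_right
            apply Nat.mul_le_mul_left
            omega
        _ ≤ n := hcA (2 * h ^ 2) (L * (L + 3)) (by omega) le_rfl
    have e2 : 2 * (h * (κ * d / g)) ≤ u := by
      have e3 : 2 * h * (κ * d) ≤ u * g := by
        have e4 : 64 * h ^ 2 * N * (2 * h * (κ * d)) ≤ 64 * h ^ 2 * N * (u * g) := by
          calc 64 * h ^ 2 * N * (2 * h * (κ * d)) = 128 * h ^ 3 * N₁ * d * (L * κ) := by
                rw [hN]; ring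
            _ ≤ 128 * h ^ 3 * N₁ * d * (L * (4 * L)) := by
                apply Nat.mul_le_mul_left
                apply Nat.mul_le_mul_left
                omega
            _ = 512 * h ^ 3 * N₁ * d * L ^ 2 := by ring
            _ ≤ n ^ 2 := hdepth'
            _ = n * n := by ring
            _ ≤ (2 * h * u) * (32 * h * N * g) := by
                apply Nat.mul_le_mul
                · have : h * (u + 1) ≤ 2 * h * u := by
                    calc h * (u + 1) ≤ h * (2 * u) := Nat.mul_le_mul_left _ (by omega)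
                      _ = 2 * h * u := by ring
                  omega
                · have e5 : N * (b + 1) ≤ N * (2 * b) := Nat.mul_le_mul_left _ (by omega)
                  have e6 : b ≤ 16 * h * g := by
                    have e61 : 8 * h * (g + 1) ≤ 8 * h * (2 * g) :=
                      Nat.mul_le_mul_left _ (by omega)
                    have e62 : 8 * h * (2 * g) = 16 * h * g := by ring
                    omega
                  have e7 : N * (2 * b) ≤ N * (2 * (16 * h * g)) :=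
                    Nat.mul_le_mul_left _ (by omega)
                  have e8 : N * (2 * (16 * h * g)) = 32 * h * N * g := by ring
                  omega
            _ = _ := by ring
        exact Nat.le_of_mul_le_mul_left e4 (by positivity)
      have e4 : g * (κ * d / g) ≤ κ * d := Nat.mul_div_le _ _
      have e5 : g * (2 * (h * (κ * d / g))) ≤ g * u := by
        calc g * (2 * (h * (κ * d / g))) = 2 * h * (g * (κ * d / g)) := by ring
          _ ≤ 2 * h * (κ * d) := Nat.mul_le_mul_left _ e4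
          _ ≤ u * g := e3
          _ = g * u := mul_comm _ _
      exact Nat.le_of_mul_le_mul_left e5 (by omega)
    have e3 : h * (K₀ * κ + κ * d / g) = h * (K₀ * κ) + h * (κ * d / g) := by ring
    omega
  have hmain := hF3 w T lines rk t' hRef (K₀ * κ + κ * d / g) le_rfl ((1 / 2 : ℝ) ^ h) (by positivity)
    (pow_le_one₀ (by norm_num) (by norm_num))
  -- final computation
  have hu₀' := hu₀ u huu₀
  have hlD : (1 / 2 : ℝ) ^ u ≤ ((1 / 2 : ℝ) ^ h) ^ (K₀ * κ + κ * d / g) := by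
    rw [← pow_mul]
    exact pow_le_pow_of_le_one (by norm_num) (by norm_num) hD
  have hl1 : (1 + (1 / 2 : ℝ) ^ h) ^ n ≤ 4 ^ (u + 1) := by
    have e1 : (1 + (1 / 2 : ℝ) ^ h) ^ h ≤ 4 := by
      have e2 : (1 : ℝ) + (1 / 2 : ℝ) ^ h ≤ Real.exp ((1 / 2 : ℝ) ^ h) := by
        have := Real.add_one_le_exp ((1 / 2 : ℝ) ^ h)
        linarith
      have e3 : (h : ℝ) * (1 / 2 : ℝ) ^ h ≤ 1 := by
        have e4 : (h : ℝ) ≤ 2 ^ h := by
          have : h ≤ 2 ^ h := Nat.lt_two_pow_self.le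
          exact_mod_cast this
        rw [one_div, inv_pow, ← div_eq_mul_inv, div_le_one (by positivity)]
        exact e4
      calc (1 + (1 / 2 : ℝ) ^ h) ^ h ≤ (Real.exp ((1 / 2 : ℝ) ^ h)) ^ h :=
            pow_le_pow_left₀ (by positivity) e2 _
        _ = Real.exp (h * (1 / 2 : ℝ) ^ h) := by rw [← Real.exp_nat_mul]
        _ ≤ Real.exp 1 := Real.exp_le_exp.2 e3
        _ ≤ 4 := by
            have := Real.exp_one_lt_d9
            linarith
    calc (1 + (1 / 2 : ℝ) ^ h) ^ n ≤ (1 + (1 / 2 : ℝ) ^ h) ^ (h * (u + 1)) := by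
          apply pow_le_pow_right₀
          · have : (0 : ℝ) ≤ (1 / 2 : ℝ) ^ h := by positivity
            linarith
          · omega
      _ = ((1 + (1 / 2 : ℝ) ^ h) ^ h) ^ (u + 1) := by rw [pow_mul]
      _ ≤ 4 ^ (u + 1) := pow_le_pow_left₀ (by positivity) e1 _
  have hctb : c * (t * b) ≤ u := by
    rw [hu, Nat.le_div_iff_mul_le (by omega)]
    calc c * (t * b) * h = (h * (c * t₁)) * L * b := by rw [ht]; ring
      _ ≤ N₁ * L * b := by
          apply Nat.mul_le_mul_right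
          apply Nat.mul_le_mul_right
          rw [hN₁]
          calc h * (c * t₁) ≤ h * G := by
                apply Nat.mul_le_mul_left
                have h1 : (c + 1) * t₁ = c * t₁ + t₁ := by ring
                omega
            _ ≤ 4 * h * G := Nat.mul_le_mul_right _ (by omega)
      _ = N * b := by rw [hN]
      _ ≤ n := hNb
  have hnuR : (n : ℝ) + 1 ≤ 2 * h * (u + 1) := by
    have e1 : n + 1 ≤ h * (u + 1) := hnu
    have e2 : h * (u + 1) ≤ 2 * h * (u + 1) := Nat.mul_le_mul_right _ (by omega)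
    have e3 : n + 1 ≤ 2 * h * (u + 1) := e1.trans e2
    exact_mod_cast e3
  have h2nuR : (2 : ℝ) * n ≤ 2 * h * (u + 1) := by
    have e1 : n ≤ h * (u + 1) := hnu.le
    have e2 : (n : ℝ) ≤ h * (u + 1) := by exact_mod_cast e1
    linarith
  have hsizeR : (cnfSize F : ℝ) ^ c
      ≤ ((2 * h : ℝ) * (u + 1)) ^ (2 * c + c * (N₁ + t₁ + 1)) * 2 ^ u := by
    calc (cnfSize F : ℝ) ^ c ≤ ((n + 1 : ℝ) ^ 2 * 2 ^ (N + t * (b + 1) + 1)) ^ c := by
          apply pow_le_pow_left₀ (by positivity)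
          exact_mod_cast hsize
      _ = (n + 1 : ℝ) ^ (2 * c) * (2 ^ (c * (N + t + 1)) * 2 ^ (c * (t * b))) := by
          rw [mul_pow, ← pow_mul, ← pow_mul, ← pow_add]
          congr 2
          ring
      _ ≤ ((2 * h : ℝ) * (u + 1)) ^ (2 * c) *
            (((2 * h : ℝ) * (u + 1)) ^ (c * (N₁ + t₁ + 1)) * 2 ^ u) := by
          apply mul_le_mul
          · exact pow_le_pow_left₀ (by positivity) hnuR _
          · apply mul_le_mul
            · have e1 : N + t + 1 ≤ L * (N₁ + t₁ + 1) := by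
                have h1 : L * (N₁ + t₁ + 1) = N₁ * L + t₁ * L + L := by ring
                omega
              calc (2 : ℝ) ^ (c * (N + t + 1)) ≤ 2 ^ (L * (c * (N₁ + t₁ + 1))) := by
                    apply pow_le_pow_right₀ (by norm_num)
                    calc c * (N + t + 1) ≤ c * (L * (N₁ + t₁ + 1)) := Nat.mul_le_mul_left _ e1
                      _ = _ := by ring
                _ = ((2 : ℝ) ^ L) ^ (c * (N₁ + t₁ + 1)) := by rw [pow_mul]
                _ ≤ _ := by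
                    apply pow_le_pow_left₀ (by positivity)
                    refine le_trans ?_ h2nuR
                    exact_mod_cast hLn
            · exact pow_le_pow_right₀ (by norm_num) hctb
            · positivity
            · positivity
          · positivity
          · positivity
      _ = _ := by rw [← mul_assoc, ← pow_add]
  have hβn : β ^ n ≤ (β / 2) ^ (h * u) * 2 ^ n := by
    have e1 : β ^ n = (β / 2) ^ n * 2 ^ n := by
      rw [← mul_pow]; congr 1; ring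
    rw [e1]
    apply mul_le_mul_of_nonneg_right _ (by positivity)
    exact pow_le_pow_of_le_one hβh0 hβh1.le hhu
  have hwm : (2 : ℝ) ^ (n - u) * 2 ^ u = 2 ^ n := by
    rw [← pow_add]; congr 1; omega
  -- combine
  have hfin : β ^ n * (cnfSize F : ℝ) ^ c * 4 ^ (u + 1) * 4 ^ u < 2 ^ n := by
    have e1 : (32 : ℝ) ^ u = 2 ^ u * 4 ^ u * 4 ^ u := by
      rw [← mul_pow, ← mul_pow]; norm_num
    have hβ0 : 0 ≤ β ^ n := by
      apply pow_nonneg; linarith
    calc β ^ n * (cnfSize F : ℝ) ^ c * 4 ^ (u + 1) * 4 ^ u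
        ≤ ((β / 2) ^ (h * u) * 2 ^ n) *
          (((2 * h : ℝ) * (u + 1)) ^ (2 * c + c * (N₁ + t₁ + 1)) * 2 ^ u) * 4 ^ (u + 1) * 4 ^ u := by
          apply mul_le_mul_of_nonneg_right _ (by positivity)
          apply mul_le_mul_of_nonneg_right _ (by positivity)
          apply mul_le_mul hβn hsizeR (by positivity) (by positivity)
      _ = ((β / 2) ^ (h * u) * 32 ^ u *
            ((2 * h : ℝ) * (u + 1)) ^ (2 * c + c * (N₁ + t₁ + 1)) * 4) * 2 ^ n := by
          rw [e1, pow_succ]; ring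
      _ = (ρ ^ u * ((2 * h : ℝ) * (u + 1)) ^ (2 * c + c * (N₁ + t₁ + 1)) * 4) * 2 ^ n := by
          rw [hρ, mul_pow ((β / 2) ^ h) 32 u, ← pow_mul]
      _ < 1 * 2 ^ n := mul_lt_mul_of_pos_right hu₀' (by positivity)
      _ = 2 ^ n := one_mul _
  have hlow : (2 : ℝ) ^ n ≤ (2 ^ w * (lines.card : ℝ)) * (4 ^ (u + 1) * 4 ^ u) := by
    have e1 : (2 : ℝ) ^ (n - u) * (1 / 2 : ℝ) ^ u
        ≤ (2 ^ w * (lines.card : ℝ)) * 4 ^ (u + 1) := by
      calc (2 : ℝ) ^ (n - u) * (1 / 2 : ℝ) ^ u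
          ≤ 2 ^ (n - u) * ((1 / 2 : ℝ) ^ h) ^ (K₀ * κ + κ * d / g) :=
            mul_le_mul_of_nonneg_left hlD (by positivity)
        _ ≤ (2 ^ w * (lines.card : ℝ)) * (1 + (1 / 2 : ℝ) ^ h) ^ n := hmain
        _ ≤ _ := mul_le_mul_of_nonneg_left hl1 (by positivity)
    have e2 : (2 : ℝ) ^ n = ((2 : ℝ) ^ (n - u) * (1 / 2 : ℝ) ^ u) * 4 ^ u := by
      have e3 : (1 / 2 : ℝ) ^ u * 4 ^ u = 2 ^ u := by
        rw [← mul_pow]; norm_num
      rw [mul_assoc, e3, hwm]
    rw [e2]
    calc ((2 : ℝ) ^ (n - u) * (1 / 2 : ℝ) ^ u) * 4 ^ u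
        ≤ ((2 ^ w * (lines.card : ℝ)) * 4 ^ (u + 1)) * 4 ^ u := mul_le_mul_of_nonneg_right e1 (by positivity)
      _ = _ := by ring
  have hpos : (0 : ℝ) < 4 ^ (u + 1) * 4 ^ u := by positivity
  have : (β ^ n * (cnfSize F : ℝ) ^ c) * (4 ^ (u + 1) * 4 ^ u)
      < (2 ^ w * (lines.card : ℝ)) * (4 ^ (u + 1) * 4 ^ u) := by
    calc (β ^ n * (cnfSize F : ℝ) ^ c) * (4 ^ (u + 1) * 4 ^ u)
        = β ^ n * (cnfSize F : ℝ) ^ c * 4 ^ (u + 1) * 4 ^ u := by ring
      _ < 2 ^ n := hfin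
      _ ≤ _ := hlow
  exact lt_of_mul_lt_mul_right this hpos.le

end Pool.Agent.TH689.CK
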