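import Mathlib
import Pool.Agent.TH689.LXDefs
import Pool.Agent.TH661.LRS.Cut

/-!
# Semidefinite programming formulations of the maximum satisfiability problem

The definitions used by the statement of the lower bound. `bits β` (from
`Pool/Agent/TH661/LRS/Cut.lean`) is the zero-one vector of the truth values `β`.
-/

set_option autoImplicit false

namespace Pool.Agent.TH689.SM

open Pool.Agent.H538R2.SB Matrix
open Pool.Agent.TH661.LRS (bits)

/-- A mixed-binary semidefinite programming formulation of the maximum satisfiability problem for
the CNF formulas `F ∈ 𝓕` with `n` variables, with additive error `ρ`. It has `k` binary variables,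
any number `d` of free real variables, a positive semidefinite matrix variable of order `r` and any
number `q` of linear equations `A (β, f, Z) = c`; this feasible region does not depend on the
formula. Every assignment `x` has a feasible point `y x`. Every formula has an affine objective
function, whose value at `y x` is the number of clauses of `F` which are false at `x`; the infimum
of the objective function over the feasible region is at least the least number of false clauses
minus `ρ`. -/
structure MaxSatSDP (n k r : ℕ) (ρ : ℝ) (𝓕 : Set (Finset (Clause n))) where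
  d : ℕ
  q : ℕ
  A : ((Fin k → ℝ) × (Fin d → ℝ) × Matrix (Fin r) (Fin r) ℝ) →ₗ[ℝ] (Fin q → ℝ)
  c : Fin q → ℝ
  y : Asg n → (Fin k → Bool) × (Fin d → ℝ) × Matrix (Fin r) (Fin r) ℝ
  w : Finset (Clause n) → ((Fin k → ℝ) × (Fin d → ℝ) × Matrix (Fin r) (Fin r) ℝ) →ₗ[ℝ] ℝ
  w0 : Finset (Clause n) → ℝ
  psd : ∀ x, (y x).2.2.PosSemidef
  eqn : ∀ x, A (bits (y x).1, (y x).2) = c
  value : ∀ F ∈ 𝓕, ∀ x, w F (bits (y x).1, (y x).2) + w0 F = LX.falsified F x
  bound : ∀ F ∈ 𝓕, ∀ (β : Fin k → Bool) (f : Fin d → ℝ) (Z : Matrix (Fin r) (Fin r) ℝ),
    Z.PosSemidef → A (bits β, f, Z) = c →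
    ∃ x, (LX.falsified F x : ℝ) - ρ ≤ w F (bits β, f, Z) + w0 F

end Pool.Agent.TH689.SM
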