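import Mathlib
import Pool.Agent.TH689.SMDefs
import Pool.Agent.TH689.LXCnf
import Pool.Agent.TH689.LXRank

/-!
The lower bound for semidefinite programming formulations of Max-SAT.
-/

set_option autoImplicit false

namespace Pool.Agent.TH689.SM

open Finset Matrix Pool.Agent.H538R2.SB Pool.Agent.TH661.LRS Pool.Agent.TH689.LX

/-- The lower bound for semidefinite programs, with the choice functions `S` as points and the
tables `x` as instances. -/
theorem union_bound' {m b r : ℕ} {I : Type*} [Fintype I] [DecidableEq I] (t J l : ℕ)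
    (ht : 81 ≤ t) (hl : 1 ≤ l) (hm : m = 2 * t + 1)
    (hJ : 520 * t ^ 3 ≤ J ^ 4) (hb : 7 * ((2 ^ (l + 1) - 1) * (J * (l * t))) ≤ b)
    {E F : Type*} [AddCommGroup E] [Module ℝ E] [AddCommGroup F] [Module ℝ F]
    (Zm : E →ₗ[ℝ] Matrix (Fin r) (Fin r) ℝ) (B : E →ₗ[ℝ] F) (c : I → F)
    (idx : (Fin m → Fin b) → I)
    (e : (Fin m → Fin b) → E) (he : ∀ S, (Zm (e S)).PosSemidef)
    (hB : ∀ S, B (e S) = c (idx S)) (L : (Fin m × Fin b → Bool) → E →ₗ[ℝ] ℝ)
    (w0 : (Fin m × Fin b → Bool) → I → ℝ) {h : ℝ} (h1 : h ≤ 1 / 16)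
    (hval : ∀ x S, L x (e S) + w0 x (idx S) = kf t (res S x) + h)
    (hvalid : ∀ x i z, (Zm z).PosSemidef → B z = c i → 0 ≤ L x z + w0 x i) :
    2 ^ (l * t) < Fintype.card I * (r + 1) := by
  by_contra hr
  push Not at hr
  have hdual : ∀ (x : Fin m × Fin b → Bool) (i : I), ∃ (P : Matrix (Fin r) (Fin r) ℝ) (c0 : ℝ),
      P.PosSemidef ∧ 0 ≤ c0 ∧ ∀ S, idx S = i →
        |L x (e S) + w0 x i - (P * Zm (e S)).trace - c0| ≤ 1 / (16 * (2 * t + 1)) := by
    intro x i
    by_cases hne : Nonempty {S // idx S = i}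
    · obtain ⟨P, c0, hP, hc0, hPc⟩ := dual_approx Zm B (c i) (L x) (w0 x i)
        (fun z hz hBz => hvalid x i z hz hBz) (X := {S // idx S = i}) (fun S => e S.1)
        (fun S => he S.1) (fun S => by rw [hB, S.2]) (1 / (16 * (2 * t + 1))) (by positivity)
      exact ⟨P, c0, hP, hc0, fun S hS => hPc ⟨S, hS⟩⟩
    · exact ⟨0, 0, Matrix.PosSemidef.zero, le_rfl, fun S hS => absurd ⟨⟨S, hS⟩⟩ hne⟩
  choose P c0 hP hc0 hPc using hdual
  refine no_fact (κ := (Fin r ⊕ Unit) × I) t J l ht hl hm hJ hb ?_
    (fun S => Matrix.blockDiagonal fun i => if i = idx S then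
      Matrix.fromBlocks (Zm (e S)) 0 0 (Matrix.of fun _ _ : Unit => 1) else 0)
    (fun S => psd_blockDiagonal fun i => ?_)
    (fun x => Matrix.blockDiagonal fun i =>
      Matrix.fromBlocks (P x i) 0 0 (Matrix.of fun _ _ : Unit => c0 x i))
    (fun x => psd_blockDiagonal fun i => psd_block (hP x i) (hc0 x i))
    (fun _ => h) (fun _ => h1) ?_
  · rw [Fintype.card_prod, Fintype.card_sum, Fintype.card_fin, Fintype.card_unit, mul_comm]
    exact hr
  · split_ifs
    · exact psd_block (he S) zero_le_one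
    · exact Matrix.PosSemidef.zero
  · intro S x
    rw [Matrix.trace_mul_comm, ← Matrix.blockDiagonal_mul, Matrix.trace_blockDiagonal]
    have e1 : ∑ i, (Matrix.fromBlocks (P x i) 0 0 (Matrix.of fun _ _ : Unit => c0 x i) *
        if i = idx S then
          Matrix.fromBlocks (Zm (e S)) 0 0 (Matrix.of fun _ _ : Unit => (1 : ℝ)) else 0).trace
        = (P x (idx S) * Zm (e S)).trace + c0 x (idx S) := by
      rw [Finset.sum_eq_single (idx S)]
      · rw [if_pos rfl, trace_block, mul_one]
      · intro i _ hi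
        rw [if_neg hi, Matrix.mul_zero, Matrix.trace_zero]
      · intro hx
        exact absurd (Finset.mem_univ _) hx
    rw [e1, ← abs_neg]
    refine le_trans (le_of_eq ?_) (hPc x (idx S) S rfl)
    congr 1
    have := hval x S
    linarith

/-- the number of pairs with the same bit -/
theorem viol_two {K : ℕ} (t : ℕ) (hK : K = 2 * t + 1) (y : Fin K → Bool) :
    (viol (fun i => (if y i then 1 else 0 : Fin 2)) : ℝ) = t ^ 2 + kf t y := by
  classical
  -- ordered pairs with the same bit
  set z : Fin K → Fin 2 := fun i => (if y i then 1 else 0 : Fin 2) with hz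
  have hzz : ∀ i j, z i = z j ↔ y i = y j := by
    intro i j
    simp only [hz]
    cases y i <;> cases y j <;> simp
  set A := univ.filter (fun i => y i = true) with hA
  set B := univ.filter (fun i => ¬ y i = true) with hB
  have hAw : A.card = TH661.LRS.wt y := by
    unfold TH661.LRS.wt
    rw [hA, Finset.card_filter]
  have hAB : A.card + B.card = K := by
    have := Finset.card_filter_add_card_filter_not (s := (Finset.univ : Finset (Fin K)))
      (fun i : Fin K => y i = true)
    rw [Finset.card_univ, Fintype.card_fin] at this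
    exact this
  have h1 : (univ.filter (fun p : Fin K × Fin K => z p.1 = z p.2)).card
      = A.card * A.card + B.card * B.card := by
    rw [← Finset.card_product, ← Finset.card_product, ← Finset.card_union_of_disjoint]
    · congr 1
      ext p
      simp only [Finset.mem_filter, Finset.mem_univ, true_and, Finset.mem_union,
        Finset.mem_product, hA, hB, hzz]
      cases y p.1 <;> cases y p.2 <;> simp
    · rw [Finset.disjoint_left]
      intro p hp hp'
      have e1 := (Finset.mem_filter.1 (Finset.mem_product.1 hp).1).2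
      have e2 := (Finset.mem_filter.1 (Finset.mem_product.1 hp').1).2
      exact e2 e1
  have h2 : (univ.filter (fun p : Fin K × Fin K => z p.1 = z p.2)).card
      = viol z + viol z + K := by
    have e1 : univ.filter (fun p : Fin K × Fin K => z p.1 = z p.2)
        = ((univ.filter (fun p : Fin K × Fin K => p.1 < p.2 ∧ z p.1 = z p.2))
          ∪ (univ.filter (fun p : Fin K × Fin K => p.2 < p.1 ∧ z p.1 = z p.2)))
          ∪ (univ.filter (fun p : Fin K × Fin K => p.1 = p.2)) := by
      ext p
      simp only [Finset.mem_filter, Finset.mem_univ, true_and, Finset.mem_union]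
      constructor
      · intro h
        rcases lt_trichotomy p.1 p.2 with h' | h' | h'
        · exact Or.inl (Or.inl ⟨h', h⟩)
        · exact Or.inr h'
        · exact Or.inl (Or.inr ⟨h', h⟩)
      · rintro ((h | h) | h)
        · exact h.2
        · exact h.2
        · rw [h]
    have e2 : (univ.filter (fun p : Fin K × Fin K => p.2 < p.1 ∧ z p.1 = z p.2)).card
        = (univ.filter (fun p : Fin K × Fin K => p.1 < p.2 ∧ z p.1 = z p.2)).card := by
      apply Finset.card_bij (fun p _ => (p.2, p.1))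
      · intro p hp
        have := (Finset.mem_filter.1 hp).2
        exact Finset.mem_filter.2 ⟨Finset.mem_univ _, this.1, this.2.symm⟩
      · intro p _ p' _ h
        exact Prod.ext (congrArg Prod.snd h) (congrArg Prod.fst h)
      · intro p hp
        have := (Finset.mem_filter.1 hp).2
        exact ⟨(p.2, p.1), Finset.mem_filter.2 ⟨Finset.mem_univ _, this.1, this.2.symm⟩, rfl⟩
    have e3 : (univ.filter (fun p : Fin K × Fin K => p.1 = p.2)).card = K := by
      have : univ.filter (fun p : Fin K × Fin K => p.1 = p.2)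
          = (univ : Finset (Fin K)).image (fun i => (i, i)) := by
        ext p
        simp only [Finset.mem_filter, Finset.mem_univ, true_and, Finset.mem_image]
        constructor
        · intro h
          exact ⟨p.1, Prod.ext rfl h⟩
        · rintro ⟨i, rfl⟩
          rfl
      rw [this, Finset.card_image_of_injective _ (fun i j h => congrArg Prod.fst h),
        Finset.card_univ, Fintype.card_fin]
    rw [e1, Finset.card_union_of_disjoint, Finset.card_union_of_disjoint, e2, e3]
    · rfl
    · rw [Finset.disjoint_left]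
      intro p hp hp'
      exact lt_asymm (Finset.mem_filter.1 hp).2.1 (Finset.mem_filter.1 hp').2.1
    · rw [Finset.disjoint_left]
      intro p hp hp'
      have h3 := (Finset.mem_filter.1 hp').2
      rcases Finset.mem_union.1 hp with h | h
      · exact absurd (Finset.mem_filter.1 h).2.1 (by rw [h3]; exact lt_irrefl _)
      · exact absurd (Finset.mem_filter.1 h).2.1 (by rw [h3]; exact lt_irrefl _)
  have h3 : viol z + viol z + K = A.card * A.card + B.card * B.card := by rw [← h2, h1]
  have h4 : ((viol z : ℝ) + viol z + K) = A.card * A.card + B.card * B.card := by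
    exact_mod_cast h3
  have h5 : (B.card : ℝ) = K - A.card := by
    have : (A.card : ℝ) + B.card = K := by exact_mod_cast hAB
    linarith
  have hKR : (K : ℝ) = 2 * t + 1 := by rw [hK]; push_cast; ring
  unfold kf
  rw [h5, hKR, hAw] at h4
  nlinarith

/-- the table of the instance `x` -/
noncomputable def tab {K b : ℕ} (x : Fin K × Fin (2 ^ b) → Bool) :
    Fin K → (Fin b → Bool) → Fin 2 := fun i a =>
  if x (i, (Fintype.equivOfCardEq (by simp) : (Fin b → Bool) ≃ Fin (2 ^ b)) a) then 1 else 0

/-- the assignment of the point `S` -/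
noncomputable def asg {n K b : ℕ} (S : Fin K → Fin (2 ^ b)) : Asg n :=
  unblock (n := n) (fun i => (Fintype.equivOfCardEq (by simp) : (Fin b → Bool) ≃ Fin (2 ^ b)).symm
    (S i))

theorem falsified_tab {n K b : ℕ} (t : ℕ) (hK : K = 2 * t + 1) (hb : 0 < b) (h : K * b ≤ n)
    (x : Fin K × Fin (2 ^ b) → Bool) (S : Fin K → Fin (2 ^ b)) :
    (falsified (form h (tab x)) (asg S : Asg n) : ℝ) = t ^ 2 + kf t (res S x) := by
  rw [falsified_form hb, ← viol_two t hK (res S x)]
  congr 1
  congr 1
  funext i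
  unfold LX.comp asg
  rw [blocks_unblock]
  simp only [tab, Equiv.apply_symm_apply]
  rfl

theorem falsified_tab_ge {n K b : ℕ} (t : ℕ) (hK : K = 2 * t + 1) (hb : 0 < b) (h : K * b ≤ n)
    (x : Fin K × Fin (2 ^ b) → Bool) (X : Asg n) :
    (t : ℝ) ^ 2 ≤ falsified (form h (tab x)) X := by
  rw [falsified_form hb]
  set z := LX.comp (tab x) (blocks h X) with hz
  have h1 : z = fun i => (if (decide (z i = 1)) then 1 else 0 : Fin 2) := by
    funext i
    have : z i = 0 ∨ z i = 1 := by
      rcases Fin.exists_fin_two.1 ⟨z i, rfl⟩ with h | h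
      · exact Or.inl h
      · exact Or.inr h
    rcases this with h | h
    · simp [h]
    · simp [h]
  rw [h1, viol_two t hK (fun i => decide (z i = 1))]
  have := kf_nonneg t (fun i => decide (z i = 1))
  linarith

/-- The lower bound for Max-SAT, parametrised; the formulas have the same number `μ` of copies of
all clauses, in effect. -/
theorem maxsat_gen {n k r b μ : ℕ} {ρ : ℝ} (t J l : ℕ) (ht : 81 ≤ t) (hl : 1 ≤ l)
    (hJ : 520 * t ^ 3 ≤ J ^ 4) (hb : 7 * ((2 ^ (l + 1) - 1) * (J * (l * t))) ≤ 2 ^ b)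
    (hb0 : 0 < b) (hn : (2 * t + 1) * b ≤ n) (hμ : 0 < μ) (hρ : 16 * ρ ≤ μ)
    (𝓕 : Set (Finset (Clause n))) (G : (Fin (2 * t + 1) × Fin (2 ^ b) → Bool) → Finset (Clause n))
    (hG : ∀ x X, falsified (G x) X = μ * falsified (form hn (tab x)) X)
    (hF : ∀ x, G x ∈ 𝓕) (M : MaxSatSDP n k r ρ 𝓕) :
    2 ^ (l * t) < 2 ^ k * (r + 1) := by
  have hμR : (0 : ℝ) < μ := by exact_mod_cast hμ
  have hGR : ∀ x X, (falsified (G x) X : ℝ) = μ * falsified (form hn (tab x)) X := by
    intro x X
    rw [hG x X]
    push_cast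
    ring
  have hsplit : ∀ (β : Fin k → Bool) (z : (Fin M.d → ℝ) × Matrix (Fin r) (Fin r) ℝ),
      ((bits β, z) : (Fin k → ℝ) × (Fin M.d → ℝ) × Matrix (Fin r) (Fin r) ℝ)
        = (bits β, 0) + (0, z) := by
    intro β z; simp
  have hmain := union_bound' (m := 2 * t + 1) (b := 2 ^ b) (r := r) (I := Fin k → Bool) t J l ht hl
    rfl hJ hb
    (LinearMap.snd ℝ (Fin M.d → ℝ) (Matrix (Fin r) (Fin r) ℝ))
    (M.A.comp (LinearMap.inr ℝ (Fin k → ℝ) ((Fin M.d → ℝ) × Matrix (Fin r) (Fin r) ℝ)))
    (fun β => M.c - M.A (bits β, 0))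
    (fun S => (M.y (asg S)).1)
    (fun S => (M.y (asg S)).2) (fun S => M.psd _)
    (fun S => by
      have h1 := M.eqn (asg S)
      rw [hsplit, map_add] at h1
      rw [LinearMap.comp_apply, LinearMap.inr_apply, ← h1]
      abel)
    (fun x => (1 / (μ : ℝ)) • (M.w (G x)).comp
      (LinearMap.inr ℝ (Fin k → ℝ) ((Fin M.d → ℝ) × Matrix (Fin r) (Fin r) ℝ)))
    (fun x β => (1 / (μ : ℝ)) * (M.w0 (G x) + M.w (G x) (bits β, 0) + ρ) - t ^ 2)
    (h := (1 / (μ : ℝ)) * ρ) ?_ ?_ ?_
  · rw [Fintype.card_fun, Fintype.card_bool, Fintype.card_fin] at hmain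
    exact hmain
  · rw [one_div, inv_mul_eq_div, div_le_iff₀ hμR]
    linarith
  · intro x S
    have h1 := M.value (G x) (hF x) (asg S)
    have h2 := falsified_tab t rfl hb0 hn x S
    rw [hsplit, map_add, hGR, h2] at h1
    rw [LinearMap.smul_apply, LinearMap.comp_apply, LinearMap.inr_apply, smul_eq_mul]
    have h3 : (M.w (G x)) (0, (M.y (asg S)).2)
        = μ * (t ^ 2 + kf t (res S x)) - M.w0 (G x) - (M.w (G x)) (bits (M.y (asg S)).1, 0) := by
      linarith
    rw [h3]
    field_simp
    ring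
  · intro x β z hz hA
    have hA' : M.A (bits β, z) = M.c := by
      rw [hsplit, map_add]
      rw [LinearMap.comp_apply, LinearMap.inr_apply] at hA
      rw [hA]
      abel
    obtain ⟨X, hX⟩ := M.bound (G x) (hF x) β z.1 z.2 hz hA'
    have h1 := falsified_tab_ge t rfl hb0 hn x X
    have e : ((bits β, z.1, z.2) : (Fin k → ℝ) × (Fin M.d → ℝ) × Matrix (Fin r) (Fin r) ℝ)
        = (bits β, z) := rfl
    rw [e, hsplit, map_add, hGR] at hX
    rw [LinearMap.smul_apply, LinearMap.comp_apply, LinearMap.inr_apply, smul_eq_mul]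
    have h4 : (t : ℝ) ^ 2 ≤ (1 / (μ : ℝ)) * ((M.w (G x)) (bits β, 0) + (M.w (G x)) (0, z)
        + M.w0 (G x) + ρ) := by
      rw [one_div, inv_mul_eq_div, le_div_iff₀ hμR]
      have h5 := mul_le_mul_of_nonneg_left h1 hμR.le
      linarith
    have h6 : (1 / (μ : ℝ)) * ((M.w (G x)) (bits β, 0) + (M.w (G x)) (0, z) + M.w0 (G x) + ρ)
        = (1 / (μ : ℝ)) * (M.w (G x)) (0, z)
          + (1 / (μ : ℝ)) * (M.w0 (G x) + M.w (G x) (bits β, 0) + ρ) := by ring
    linarith

end Pool.Agent.TH689.SM
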