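import Mathlib
import Pool.Agent.TH689.LXCnf

/-!
Multiplying the number of false clauses of a formula with the help of further variables.
-/

set_option autoImplicit false

namespace Pool.Agent.TH689.SM

open Finset Pool.Agent.H538R2.SB Pool.Agent.TH689.LX

variable {n : ℕ}

/-- the clause on the variables of `U` which is false exactly at the assignments that agree with
`X` on `U` -/
def pat (U : Finset (Fin n)) (X : Asg n) : Clause n := U.image (fun v => (v, !(X v)))

/-- all clauses with exactly one literal for each variable of some set of `u` variables of `R` -/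
def pats (R : Finset (Fin n)) (u : ℕ) : Finset (Clause n) :=
  (powersetCard u R ×ˢ (univ : Finset (Asg n))).image (fun p => pat p.1 p.2)

lemma pat_card (U : Finset (Fin n)) (X : Asg n) : (pat U X).card = U.card := by
  unfold pat
  exact card_image_of_injective _ (fun a b h => congrArg Prod.fst h)

lemma mem_pat {U : Finset (Fin n)} {X : Asg n} {l : Fin n × Bool} :
    l ∈ pat U X ↔ l.1 ∈ U ∧ l.2 = !(X l.1) := by
  unfold pat
  rw [mem_image]
  constructor
  · rintro ⟨v, hv, rfl⟩
    exact ⟨hv, rfl⟩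
  · rintro ⟨h1, h2⟩
    exact ⟨l.1, h1, Prod.ext rfl h2.symm⟩

lemma falseAt_pat {U : Finset (Fin n)} {X Y : Asg n} :
    FalseAt (pat U Y) X ↔ ∀ v ∈ U, X v = Y v := by
  unfold FalseAt
  constructor
  · intro h v hv
    have := h (v, !(Y v)) (mem_pat.2 ⟨hv, rfl⟩)
    simp only at this
    cases h1 : X v <;> cases h2 : Y v <;> simp [h1, h2] at this ⊢
  · rintro h l hl
    obtain ⟨h1, h2⟩ := mem_pat.1 hl
    rw [h2, h l.1 h1]
    cases Y l.1 <;> simp

lemma pats_card_le (R : Finset (Fin n)) (u : ℕ) : (pats R u).card ≤ (2 * n) ^ u := by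
  have h1 : pats R u ⊆ powersetCard u (univ : Finset (Fin n × Bool)) := by
    intro P hP
    obtain ⟨p, hp, rfl⟩ := mem_image.1 hP
    rw [mem_powersetCard]
    refine ⟨subset_univ _, ?_⟩
    rw [pat_card]
    exact (mem_powersetCard.1 (mem_product.1 hp).1).2
  refine (card_le_card h1).trans ?_
  rw [card_powersetCard, card_univ, Fintype.card_prod, Fintype.card_fin, Fintype.card_bool,
    mul_comm n 2]
  exact Nat.choose_le_pow _ _

/-- exactly one clause for each set of variables is false -/
lemma pats_false (R : Finset (Fin n)) (u : ℕ) (X : Asg n) :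
    ((pats R u).filter (fun P => FalseAt P X)).card = R.card.choose u := by
  have h1 : (pats R u).filter (fun P => FalseAt P X)
      = (powersetCard u R).image (fun U => pat U X) := by
    ext P
    simp only [mem_filter, mem_image, pats, mem_product, mem_univ, and_true]
    constructor
    · rintro ⟨⟨p, hp, rfl⟩, hf⟩
      refine ⟨p.1, hp, ?_⟩
      rw [falseAt_pat] at hf
      ext l
      rw [mem_pat, mem_pat]
      constructor
      · rintro ⟨h1, h2⟩
        exact ⟨h1, by rw [h2, hf l.1 h1]⟩
      · rintro ⟨h1, h2⟩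
        exact ⟨h1, by rw [h2, hf l.1 h1]⟩
    · rintro ⟨U, hU, rfl⟩
      exact ⟨⟨(U, X), hU, rfl⟩, falseAt_pat.2 (fun v _ => rfl)⟩
  rw [h1, card_image_of_injective, card_powersetCard]
  intro U U' h
  ext v
  have h2 : ∀ W : Finset (Fin n), v ∈ W ↔ (v, !(X v)) ∈ pat W X := by
    intro W
    rw [mem_pat]
    simp
  rw [h2 U, h2 U']
  simp only at h
  rw [h]

/-- the formula with multiplied clauses -/
def mult (R : Finset (Fin n)) (u : ℕ) (F : Finset (Clause n)) : Finset (Clause n) :=
  (F ×ˢ pats R u).image (fun p => p.1 ∪ p.2)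

lemma mult_card_le (R : Finset (Fin n)) (u : ℕ) (F : Finset (Clause n)) :
    (mult R u F).card ≤ F.card * (2 * n) ^ u := by
  unfold mult
  refine card_image_le.trans ?_
  rw [card_product]
  exact Nat.mul_le_mul_left _ (pats_card_le R u)

lemma mult_width {R : Finset (Fin n)} {u w : ℕ} {F : Finset (Clause n)}
    (hF : ∀ C ∈ F, C.card ≤ w) {C : Clause n} (hC : C ∈ mult R u F) : C.card ≤ w + u := by
  obtain ⟨p, hp, rfl⟩ := mem_image.1 hC
  obtain ⟨h1, h2⟩ := mem_product.1 hp
  refine (card_union_le _ _).trans (Nat.add_le_add (hF _ h1) ?_)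
  obtain ⟨q, hq, h3⟩ := mem_image.1 h2
  rw [← h3, pat_card]
  exact ((mem_powersetCard.1 (mem_product.1 hq).1).2).le

lemma falsified_mult {R : Finset (Fin n)} {u : ℕ} {F : Finset (Clause n)}
    (hF : ∀ C ∈ F, ∀ l ∈ C, l.1 ∉ R) (X : Asg n) :
    falsified (mult R u F) X = R.card.choose u * falsified F X := by
  classical
  unfold falsified
  have h1 : (mult R u F).filter (fun C => FalseAt C X)
      = ((F.filter (fun C => FalseAt C X)) ×ˢ ((pats R u).filter (fun P => FalseAt P X))).image
        (fun p => p.1 ∪ p.2) := by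
    ext C
    simp only [mem_filter, mem_image, mult, mem_product]
    have hun : ∀ A B : Clause n, FalseAt (A ∪ B) X ↔ FalseAt A X ∧ FalseAt B X := by
      intro A B
      unfold FalseAt
      constructor
      · intro h
        exact ⟨fun l hl => h l (mem_union_left _ hl), fun l hl => h l (mem_union_right _ hl)⟩
      · rintro ⟨h1, h2⟩ l hl
        rcases mem_union.1 hl with h | h
        · exact h1 l h
        · exact h2 l h
    constructor
    · rintro ⟨⟨p, ⟨hp1, hp2⟩, rfl⟩, hf⟩
      obtain ⟨h3, h4⟩ := (hun _ _).1 hf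
      exact ⟨p, ⟨⟨hp1, h3⟩, hp2, h4⟩, rfl⟩
    · rintro ⟨p, ⟨⟨hp1, h3⟩, hp2, h4⟩, rfl⟩
      exact ⟨⟨p, ⟨hp1, hp2⟩, rfl⟩, (hun _ _).2 ⟨h3, h4⟩⟩
  rw [h1, card_image_of_injOn, card_product, pats_false, mul_comm]
  -- the two parts of a clause
  have key : ∀ p ∈ F ×ˢ pats R u, p.1 = (p.1 ∪ p.2).filter (fun l => l.1 ∉ R) ∧
      p.2 = (p.1 ∪ p.2).filter (fun l => l.1 ∈ R) := by
    intro p hp
    obtain ⟨hp1, hp2⟩ := mem_product.1 hp
    obtain ⟨q, hq, h3⟩ := mem_image.1 hp2
    have hq' := (mem_powersetCard.1 (mem_product.1 hq).1).1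
    have h4 : ∀ l ∈ p.2, l.1 ∈ R := by
      intro l hl
      rw [← h3] at hl
      exact hq' (mem_pat.1 hl).1
    constructor
    · ext l
      rw [mem_filter, mem_union]
      constructor
      · intro hl
        exact ⟨Or.inl hl, hF _ hp1 l hl⟩
      · rintro ⟨hl | hl, hR⟩
        · exact hl
        · exact absurd (h4 l hl) hR
    · ext l
      rw [mem_filter, mem_union]
      constructor
      · intro hl
        exact ⟨Or.inr hl, h4 l hl⟩
      · rintro ⟨hl | hl, hR⟩
        · exact absurd hR (hF _ hp1 l hl)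
        · exact hl
  have hsub : (F.filter (fun C => FalseAt C X)) ×ˢ ((pats R u).filter (fun P => FalseAt P X))
      ⊆ F ×ˢ pats R u := product_subset_product (filter_subset _ _) (filter_subset _ _)
  intro p hp q hq h
  obtain ⟨h2, h3⟩ := key p (hsub hp)
  obtain ⟨h4, h5⟩ := key q (hsub hq)
  simp only at h
  refine Prod.ext ?_ ?_
  · rw [h2, h4, h]
  · rw [h3, h5, h]

end Pool.Agent.TH689.SM
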