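import Mathlib
import Pool.Agent.TH689.SMLower
import Pool.Agent.TH689.SMMult

/-!
Choice of the parameters for the lower bound for semidefinite formulations of Max-SAT, and the
trivial formulation.
-/

set_option autoImplicit false

namespace Pool.Agent.TH689.SM

open Finset Matrix Pool.Agent.H538R2.SB Pool.Agent.TH689.LX
open Pool.Agent.TH661.LRS (bits)

lemma sq_le_two_pow {q : ℕ} (hq : 4 ≤ q) : q ^ 2 ≤ 2 ^ q := by
  induction q, hq using Nat.le_induction with
  | base => norm_num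
  | succ q hq ih =>
    have h1 : (q + 1) ^ 2 ≤ 2 * q ^ 2 := by nlinarith
    calc (q + 1) ^ 2 ≤ 2 * q ^ 2 := h1
      _ ≤ 2 * 2 ^ q := Nat.mul_le_mul_left _ ih
      _ = 2 ^ (q + 1) := by rw [pow_succ]; ring

lemma log_small (A n : ℕ) (hn : 2 ^ (A + 4) ≤ n) : A * (Nat.log 2 n + 1) ≤ n := by
  have hn0 : n ≠ 0 := by
    have : 0 < 2 ^ (A + 4) := by positivity
    omega
  have hq : A + 4 ≤ Nat.log 2 n := by
    rw [Nat.le_log_iff_pow_le (by norm_num) hn0]
    exact hn
  set q := Nat.log 2 n with hqd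
  calc A * (q + 1) ≤ q ^ 2 := by nlinarith
    _ ≤ 2 ^ q := sq_le_two_pow (by omega)
    _ ≤ n := Nat.pow_log_le_self 2 hn0

lemma choose_large (L a s n : ℕ) (hL : 1 ≤ L) (hs : n ≤ 2 * L * s) (hs2 : 2 * (a + 1) ≤ s)
    (hn : 16 * ((a + 1).factorial * (4 * L) ^ (a + 1)) ≤ n) :
    16 * n ^ a ≤ s.choose (a + 1) := by
  have h1 : (s + 1 - (a + 1)) ^ (a + 1) ≤ s.descFactorial (a + 1) :=
    Nat.pow_sub_le_descFactorial _ _
  rw [Nat.descFactorial_eq_factorial_mul_choose] at h1
  have h2 : n ≤ 4 * L * (s + 1 - (a + 1)) := by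
    have : s ≤ 2 * (s + 1 - (a + 1)) := by omega
    calc n ≤ 2 * L * s := hs
      _ ≤ 2 * L * (2 * (s + 1 - (a + 1))) := Nat.mul_le_mul_left _ this
      _ = _ := by ring
  have h3 : n ^ (a + 1) ≤ (4 * L) ^ (a + 1) * ((a + 1).factorial * s.choose (a + 1)) := by
    calc n ^ (a + 1) ≤ (4 * L * (s + 1 - (a + 1))) ^ (a + 1) := Nat.pow_le_pow_left h2 _
      _ = (4 * L) ^ (a + 1) * (s + 1 - (a + 1)) ^ (a + 1) := by rw [mul_pow]
      _ ≤ _ := Nat.mul_le_mul_left _ h1
  have h4 : (a + 1).factorial * (4 * L) ^ (a + 1) * (16 * n ^ a)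
      ≤ (a + 1).factorial * (4 * L) ^ (a + 1) * s.choose (a + 1) := by
    calc (a + 1).factorial * (4 * L) ^ (a + 1) * (16 * n ^ a)
        = (16 * ((a + 1).factorial * (4 * L) ^ (a + 1))) * n ^ a := by ring
      _ ≤ n * n ^ a := Nat.mul_le_mul_right _ hn
      _ = n ^ (a + 1) := by rw [pow_succ]; ring
      _ ≤ _ := h3
      _ = _ := by ring
  exact Nat.le_of_mul_le_mul_left h4 (by positivity)

/-- The lower bound. -/
theorem sm_main (ε : ℝ) (hε : 0 < ε) (a : ℕ) : ∃ c n₀ : ℕ, ∀ n : ℕ, n₀ ≤ n → ∀ k r : ℕ,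
    Nonempty (MaxSatSDP n k r (n ^ a) {F | F.card ≤ n ^ c ∧ ∀ C ∈ F, C.card ≤ c * Nat.log 2 n}) →
    (2 : ℝ) ^ ((1 / 2 - ε) * n) ≤ 2 ^ k * (r + 1) := by
  obtain ⟨L, hL8, hLε⟩ : ∃ L : ℕ, 8 ≤ L ∧ 5 / (L : ℝ) ≤ ε := by
    obtain ⟨L, hL⟩ := exists_nat_gt (5 / ε)
    refine ⟨L + 8, by omega, ?_⟩
    rw [div_le_iff₀ (by positivity)]
    rw [div_lt_iff₀ hε] at hL
    push_cast
    linarith
  obtain ⟨A₀, hA₀⟩ := exists_nat_ge (3 * L / ε)
  set A := A₀ + 1300 * L with hA
  set W := 16 * ((a + 1).factorial * (4 * L) ^ (a + 1)) with hW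
  refine ⟨4 * L + 2 * (a + 1) + 2, 2 ^ (A + 4) + W + 4 * L * (a + 1), ?_⟩
  rintro n hn k r ⟨M⟩
  set c := 4 * L + 2 * (a + 1) + 2 with hc
  have hnA : 2 ^ (A + 4) ≤ n :=
    le_trans (le_trans (Nat.le_add_right _ W) (Nat.le_add_right _ (4 * L * (a + 1)))) hn
  have hnW : W ≤ n :=
    le_trans (le_trans (Nat.le_add_left W (2 ^ (A + 4))) (Nat.le_add_right _ (4 * L * (a + 1)))) hn
  have hnL : 4 * L * (a + 1) ≤ n := (Nat.le_add_left _ _).trans hn
  set g := Nat.log 2 n + 1 with hg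
  have hgA : A * g ≤ n := log_small A n hnA
  have hn16 : 16 ≤ n := by
    have : 2 ^ 4 ≤ 2 ^ (A + 4) := Nat.pow_le_pow_right (by norm_num) (by omega)
    omega
  have hlog4 : 4 ≤ Nat.log 2 n := by
    rw [Nat.le_log_iff_pow_le (by norm_num) (by omega)]
    omega
  have hg5 : 5 ≤ g := by omega
  have hng : n < 2 ^ g := by
    rw [hg]; exact Nat.lt_pow_succ_log_self (by norm_num) n
  have hg2n : 2 ^ g ≤ 2 * n := by
    rw [hg, pow_succ, mul_comm]
    exact Nat.mul_le_mul_left _ (Nat.pow_log_le_self 2 (by omega))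
  set b := L * g with hb
  have hb0 : 0 < b := Nat.mul_pos (by omega) (by omega)
  have h1300 : 1300 * b ≤ n := by
    calc 1300 * b = 1300 * L * g := by rw [hb]; ring
      _ ≤ A * g := Nat.mul_le_mul_right _ (by omega)
      _ ≤ n := hgA
  set N := n - n / L with hN
  have hNn : N ≤ n := Nat.sub_le _ _
  have hLn : L * (n / L) ≤ n := Nat.mul_div_le n L
  have hNn8 : 8 * (n / L) ≤ n := (Nat.mul_le_mul_right _ hL8).trans hLn
  have hn8N : 7 * n ≤ 8 * N := by omega
  set t := (N / b - 1) / 2 with ht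
  have hKN : (2 * t + 1) * b ≤ N := by
    have h1 : 1 ≤ N / b := by
      rw [Nat.le_div_iff_mul_le hb0]; omega
    have h2 : 2 * t + 1 ≤ N / b := by omega
    calc (2 * t + 1) * b ≤ (N / b) * b := Nat.mul_le_mul_right _ h2
      _ ≤ N := Nat.div_mul_le_self _ _
  have hKn : (2 * t + 1) * b ≤ n := hKN.trans hNn
  have hNt : N ≤ b * (2 * t + 3) := by
    have h1 : N < b * (N / b + 1) := Nat.lt_mul_div_succ _ hb0
    have h2 : N / b + 1 ≤ 2 * t + 3 := by omega
    exact h1.le.trans (Nat.mul_le_mul_left _ h2)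
  have ht520 : 520 ≤ t := by
    by_contra hcon
    push Not at hcon
    have h1 : 2 * t + 3 ≤ 1041 := by omega
    have h2 : N ≤ b * 1041 := hNt.trans (Nat.mul_le_mul_left _ h1)
    omega
  have htn : t ≤ n := by
    have h1 : 2 * t + 1 ≤ (2 * t + 1) * b := Nat.le_mul_of_pos_right _ hb0
    omega
  set l := (L - 3) * g - 4 with hl
  have hlg : (L - 4) * g ≤ l := by
    have h1 : (L - 3) * g = (L - 4) * g + g := by
      have : L - 3 = (L - 4) + 1 := by omega
      rw [this]; ring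
    omega
  have hl1 : 1 ≤ l := by
    have : 4 * g ≤ (L - 4) * g := Nat.mul_le_mul_right _ (by omega)
    omega
  have hlb : l + 4 + 3 * g = b := by
    have h1 : b = (L - 3) * g + 3 * g := by
      rw [hb]
      have : L = (L - 3) + 3 := by omega
      conv_lhs => rw [this]
      ring
    have h2 : 4 ≤ (L - 3) * g := by
      have : 5 * g ≤ (L - 3) * g := Nat.mul_le_mul_right _ (by omega)
      omega
    omega
  have hJ : 520 * t ^ 3 ≤ t ^ 4 := by
    calc 520 * t ^ 3 ≤ t * t ^ 3 := Nat.mul_le_mul_right _ ht520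
      _ = t ^ 4 := by ring
  have hbb : 7 * ((2 ^ (l + 1) - 1) * (t * (l * t))) ≤ 2 ^ b := by
    have h1 : t ≤ 2 ^ g := htn.trans hng.le
    have h2 : l ≤ 2 ^ g := by omega
    calc 7 * ((2 ^ (l + 1) - 1) * (t * (l * t)))
        ≤ 8 * (2 ^ (l + 1) * (2 ^ g * (2 ^ g * 2 ^ g))) := by
          apply Nat.mul_le_mul (by norm_num)
          apply Nat.mul_le_mul (Nat.sub_le _ _)
          exact Nat.mul_le_mul h1 (Nat.mul_le_mul h2 h1)
      _ = 2 ^ (l + 4 + 3 * g) := by
          rw [show l + 4 + 3 * g = 3 + (l + 1) + (g + (g + g)) by ring, pow_add, pow_add,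
            pow_add, pow_add]
          norm_num
          ring
      _ = 2 ^ b := by rw [hlb]
  -- the further variables
  set R : Finset (Fin n) := univ.filter (fun v : Fin n => (2 * t + 1) * b ≤ v.1) with hR
  have hRcard : R.card = n - (2 * t + 1) * b := by
    have h1 : R = Finset.univ.filter (fun v : Fin n => ¬ v.1 < (2 * t + 1) * b) := by
      ext v; simp [hR]
    have h2 := Finset.card_filter_add_card_filter_not (s := (Finset.univ : Finset (Fin n)))
      (fun v : Fin n => v.1 < (2 * t + 1) * b)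
    rw [← h1, Finset.card_univ, Fintype.card_fin] at h2
    have h3 : (Finset.univ.filter (fun v : Fin n => v.1 < (2 * t + 1) * b)).card
        = (2 * t + 1) * b := by
      have h4 : Finset.univ.filter (fun v : Fin n => v.1 < (2 * t + 1) * b)
          = (Finset.univ : Finset (Fin ((2 * t + 1) * b))).map (Fin.castLEEmb hKn) := by
        ext v
        simp only [Finset.mem_filter, Finset.mem_univ, true_and, Finset.mem_map]
        constructor
        · intro h
          exact ⟨⟨v.1, h⟩, Fin.ext rfl⟩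
        · rintro ⟨w, rfl⟩
          exact w.2
      rw [h4, Finset.card_map, Finset.card_univ, Fintype.card_fin]
    omega
  have hRL : n / L ≤ R.card := by
    rw [hRcard]; omega
  have hnR : n ≤ 2 * L * R.card := by
    have h1 : n < L * (n / L + 1) := Nat.lt_mul_div_succ _ (by omega)
    have h2 : 1 ≤ n / L := by
      rw [Nat.le_div_iff_mul_le (by omega)]
      have : L ≤ 4 * L * (a + 1) := by nlinarith
      omega
    calc n ≤ L * (n / L + 1) := h1.le
      _ ≤ L * (2 * R.card) := Nat.mul_le_mul_left _ (by omega)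
      _ = _ := by ring
  have hRa : 2 * (a + 1) ≤ R.card := by
    have h1 : 2 * (a + 1) ≤ n / L := by
      rw [Nat.le_div_iff_mul_le (by omega)]
      calc 2 * (a + 1) * L ≤ 4 * L * (a + 1) := by nlinarith
        _ ≤ n := hnL
    omega
  have hμ16 : 16 * n ^ a ≤ R.card.choose (a + 1) :=
    choose_large L a R.card n (by omega) hnR hRa hnW
  set μ := R.card.choose (a + 1) with hμ
  have hμ0 : 0 < μ := by
    have : 0 < n ^ a := Nat.pow_pos (by omega)
    omega
  -- the blocks avoid the further variables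
  have hvar : ∀ (y : Fin (2 * t + 1) → (Fin b → Bool) → Fin 2), ∀ C ∈ form hKn y, ∀ q ∈ C,
      q.1 ∉ R := by
    intro y C hC q hq
    obtain ⟨p, _, rfl⟩ := Finset.mem_image.1 hC
    have h1 : ∀ (i : Fin (2 * t + 1)) (α : Fin b → Bool), ∀ q ∈ lits hKn i α, q.1 ∉ R := by
      intro i α q hq
      obtain ⟨j, _, rfl⟩ := Finset.mem_image.1 hq
      rw [hR, Finset.mem_filter]
      rintro ⟨_, h⟩
      have h2 : (pos hKn i j).1 < (2 * t + 1) * b := by
        unfold pos
        rw [Fin.val_castLE]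
        exact Fin.is_lt _
      simp only at h
      omega
    rcases Finset.mem_union.1 hq with h | h
    · exact h1 _ _ _ h
    · exact h1 _ _ _ h
  have hmain := maxsat_gen (k := k) (r := r) (b := b) (μ := μ) (ρ := (n : ℝ) ^ a) t t l (by omega)
    hl1 hJ hbb hb0 hKn hμ0 (by exact_mod_cast hμ16)
    {F | F.card ≤ n ^ c ∧ ∀ C ∈ F, C.card ≤ c * Nat.log 2 n}
    (fun x => mult R (a + 1) (form hKn (tab x)))
    (fun x X => falsified_mult (hvar (tab x)) X)
    (fun x => by
      constructor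
      · refine (mult_card_le _ _ _).trans ?_
        have h1 := form_card hKn (tab x)
        have h2n : 2 * n ≤ n ^ 2 := by nlinarith
        have h2 : 2 ^ b ≤ (n ^ 2) ^ L := by
          calc 2 ^ b = (2 ^ g) ^ L := by rw [← pow_mul, hb, mul_comm]
            _ ≤ (n ^ 2) ^ L := Nat.pow_le_pow_left (hg2n.trans h2n) _
        have h3 : 2 * t + 1 ≤ n := by
          have h1 : 2 * t + 1 ≤ (2 * t + 1) * b := Nat.le_mul_of_pos_right _ hb0
          omega
        calc (form hKn (tab x)).card * (2 * n) ^ (a + 1)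
            ≤ ((2 * t + 1) ^ 2 * (2 ^ b) ^ 2) * (n ^ 2) ^ (a + 1) :=
              Nat.mul_le_mul h1 (Nat.pow_le_pow_left h2n _)
          _ ≤ (n ^ 2 * ((n ^ 2) ^ L) ^ 2) * (n ^ 2) ^ (a + 1) := by
              apply Nat.mul_le_mul_right
              exact Nat.mul_le_mul (Nat.pow_le_pow_left h3 _) (Nat.pow_le_pow_left h2 _)
          _ = n ^ c := by
              rw [hc, ← pow_mul, ← pow_mul, ← pow_mul, ← pow_add, ← pow_add]
              congr 1
              ring
      · intro C hC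
        refine (mult_width (w := 2 * b) (fun C hC => form_width hKn (tab x) hC) hC).trans ?_
        have h1 : g ≤ 2 * Nat.log 2 n := by omega
        have h2 : 2 * b ≤ 4 * L * Nat.log 2 n := by
          calc 2 * b = 2 * L * g := by rw [hb]; ring
            _ ≤ 2 * L * (2 * Nat.log 2 n) := Nat.mul_le_mul_left _ h1
            _ = _ := by ring
        have h3 : a + 1 ≤ (2 * (a + 1) + 2) * Nat.log 2 n := by nlinarith
        calc 2 * b + (a + 1) ≤ 4 * L * Nat.log 2 n + (2 * (a + 1) + 2) * Nat.log 2 n :=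
              Nat.add_le_add h2 h3
          _ = c * Nat.log 2 n := by rw [hc]; ring)
    M
  -- the exponent
  have hmainR : (2 : ℝ) ^ (l * t) ≤ 2 ^ k * (r + 1) := by exact_mod_cast hmain.le
  refine le_trans ?_ hmainR
  rw [← Real.rpow_natCast]
  apply Real.rpow_le_rpow_of_exponent_le (by norm_num)
  push_cast
  have hLR : (8 : ℝ) ≤ L := by exact_mod_cast hL8
  have hLpos : (0 : ℝ) < L := by linarith
  have hnR0 : (0 : ℝ) ≤ n := by positivity
  have htR : (0 : ℝ) ≤ t := by positivity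
  have hbR : (b : ℝ) = L * g := by rw [hb]; push_cast; ring
  have h1 : (L : ℝ) * g - 4 * g ≤ l := by
    have h2 : (((L - 4) * g : ℕ) : ℝ) ≤ l := by exact_mod_cast hlg
    have h3 : (((L - 4) * g : ℕ) : ℝ) = (L - 4) * g := by
      push_cast [Nat.cast_sub (show 4 ≤ L by omega)]
      ring
    rw [h3] at h2
    linarith
  have h2 : (1 - 4 / (L : ℝ)) * b ≤ l := by
    have : (1 - 4 / (L : ℝ)) * b = L * g - 4 * g := by rw [hbR]; field_simp
    rw [this]; exact h1
  have hNR : (n : ℝ) * (1 - 1 / L) ≤ b * (2 * t + 3) := by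
    have h3 : (N : ℝ) ≤ b * (2 * t + 3) := by exact_mod_cast hNt
    have h4 : (n : ℝ) * (1 - 1 / L) ≤ N := by
      rw [hN, Nat.cast_sub (Nat.div_le_self _ _)]
      have h5 : ((n / L : ℕ) : ℝ) ≤ n / L := Nat.cast_div_le
      have h6 : (n : ℝ) * (1 - 1 / L) = n - n / L := by ring
      rw [h6]
      linarith
    linarith
  have h4L : 0 ≤ 1 - 4 / (L : ℝ) := by
    have : 4 / (L : ℝ) ≤ 1 := by rw [div_le_one hLpos]; linarith
    linarith
  have h5 : (1 - 4 / (L : ℝ)) * (b * t) ≤ l * t := by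
    calc (1 - 4 / (L : ℝ)) * (b * t) = ((1 - 4 / (L : ℝ)) * b) * t := by ring
      _ ≤ l * t := mul_le_mul_of_nonneg_right h2 htR
  have h6 : ((n : ℝ) * (1 - 1 / L) - 3 * b) / 2 ≤ b * t := by linarith
  have h7 : (1 - 4 / (L : ℝ)) * (((n : ℝ) * (1 - 1 / L) - 3 * b) / 2) ≤ l * t :=
    (mul_le_mul_of_nonneg_left h6 h4L).trans h5
  refine le_trans ?_ h7
  have hbn : 3 * (b : ℝ) ≤ ε * n := by
    have h8 : (A₀ : ℝ) * g ≤ n := by
      have : A₀ * g ≤ n := (Nat.mul_le_mul_right _ (by omega)).trans hgA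
      exact_mod_cast this
    have h9 : 3 * L / ε * (g : ℝ) ≤ n := (mul_le_mul_of_nonneg_right hA₀ (by positivity)).trans h8
    rw [div_mul_eq_mul_div, div_le_iff₀ hε] at h9
    rw [hbR]
    linarith
  set i : ℝ := 1 / (L : ℝ) with hi
  have hi0 : 0 < i := by positivity
  have e4 : 4 / (L : ℝ) = 4 * i := by rw [hi]; ring
  have e5 : 5 * i ≤ ε := by
    have : 5 / (L : ℝ) = 5 * i := by rw [hi]; ring
    rw [← this]; exact hLε
  rw [e4]
  rw [e4] at h4L
  have hb0R : (0 : ℝ) ≤ b := by positivity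
  have h10 : (1 - 4 * i) * (((n : ℝ) * (1 - i) - 3 * b) / 2)
      = n / 2 - 5 * i * n / 2 + 2 * (i * i * n) - (1 - 4 * i) * (3 * b) / 2 := by ring
  rw [h10]
  have h11 : (1 - 4 * i) * (3 * (b : ℝ)) ≤ 3 * b := by
    have : 0 ≤ 4 * i * (3 * (b : ℝ)) := by positivity
    linarith
  have h12 : 0 ≤ 2 * (i * i * (n : ℝ)) := by positivity
  have h13 : 5 * i * (n : ℝ) ≤ ε * n := mul_le_mul_of_nonneg_right e5 hnR0
  linarith

/-- Exhaustive search as a linear program. -/
theorem sm_upper (n : ℕ) : Nonempty (MaxSatSDP n 0 (2 ^ n) 0 Set.univ) := by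
  classical
  have hcard : Fintype.card (Asg n) = 2 ^ n := by
    rw [Fintype.card_fun, Fintype.card_bool, Fintype.card_fin]
  let e : Asg n ≃ Fin (2 ^ n) := Fintype.equivOfCardEq (by simp [hcard])
  let tr : Matrix (Fin (2 ^ n)) (Fin (2 ^ n)) ℝ →ₗ[ℝ] ℝ := Matrix.traceLinearMap _ ℝ ℝ
  let pz : ((Fin 0 → ℝ) × (Fin 0 → ℝ) × Matrix (Fin (2 ^ n)) (Fin (2 ^ n)) ℝ) →ₗ[ℝ]
      Matrix (Fin (2 ^ n)) (Fin (2 ^ n)) ℝ := (LinearMap.snd ℝ _ _).comp (LinearMap.snd ℝ _ _)
  let wt : Finset (Clause n) → Matrix (Fin (2 ^ n)) (Fin (2 ^ n)) ℝ :=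
    fun F => Matrix.diagonal (fun i => (falsified F (e.symm i) : ℝ))
  let obj : Finset (Clause n) → Matrix (Fin (2 ^ n)) (Fin (2 ^ n)) ℝ →ₗ[ℝ] ℝ :=
    fun F => tr.comp (LinearMap.mulLeft ℝ (wt F))
  have hobj : ∀ F Z, obj F Z = ∑ i, (falsified F (e.symm i) : ℝ) * Z i i := by
    intro F Z
    show (wt F * Z).trace = _
    simp only [wt, Matrix.trace, Matrix.diag_apply, Matrix.diagonal_mul]
  refine ⟨{
    d := 0
    q := 1
    A := LinearMap.pi (fun _ => tr.comp pz)
    c := fun _ => 1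
    y := fun x => (Fin.elim0, Fin.elim0, Matrix.diagonal (Pi.single (e x) 1))
    w := fun F => (obj F).comp pz
    w0 := fun _ => 0
    psd := ?_
    eqn := ?_
    value := ?_
    bound := ?_ }⟩
  · intro x
    refine Matrix.PosSemidef.diagonal ?_
    intro i
    by_cases h : i = e x
    · rw [h]; simp
    · simp [Pi.single_eq_of_ne h]
  · intro x
    funext j
    show (Matrix.diagonal (Pi.single (e x) (1 : ℝ))).trace = 1
    rw [Matrix.trace_diagonal]
    simp
  · intro F _ x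
    rw [add_zero]
    show obj F (Matrix.diagonal (Pi.single (e x) (1 : ℝ))) = _
    rw [hobj, Finset.sum_eq_single (e x)]
    · simp
    · intro i _ hi
      rw [Matrix.diagonal_apply_eq, Pi.single_eq_of_ne hi, mul_zero]
    · intro h
      exact absurd (Finset.mem_univ _) h
  · intro F _ β f Z hZ hA
    have h1 : Z.trace = 1 := congrFun hA 0
    obtain ⟨X, _, hX⟩ := Finset.exists_min_image (Finset.univ : Finset (Asg n))
      (fun x => falsified F x) ⟨fun _ => false, Finset.mem_univ _⟩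
    refine ⟨X, ?_⟩
    rw [add_zero, sub_zero]
    show _ ≤ obj F Z
    rw [hobj]
    have h2 : ∀ i, 0 ≤ Z i i := fun i => hZ.diag_nonneg
    calc (falsified F X : ℝ) = ∑ i, (falsified F X : ℝ) * Z i i := by
          rw [← Finset.mul_sum]
          have : ∑ i, Z i i = 1 := h1
          rw [this, mul_one]
      _ ≤ ∑ i, (falsified F (e.symm i) : ℝ) * Z i i := by
          apply Finset.sum_le_sum
          intro i _
          apply mul_le_mul_of_nonneg_right _ (h2 i)
          exact_mod_cast hX (e.symm i) (Finset.mem_univ _)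

end Pool.Agent.TH689.SM
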