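import Mathlib
import Pool.Agent.TH689.CXLib

/-!
The lower bound for mixed-integer convex programming relaxations.
-/

set_option autoImplicit false

namespace Pool.Agent.TH689.CX

open Finset Pool.Agent.H538R2.SB Pool.Agent.TH689.LX

lemma card_idx {n k s r D : ℕ} (hn : 1 ≤ n) (hk : k ≤ n) (hs : s + r < 2 ^ n) :
    Fintype.card (Idx n k s r D) ≤ 2 ^ (4 * n + (8 * n + 2) * (D + 2) + 2) := by
  have h1 : Fintype.card (Idx n k s r D)
      = 2 ^ k + (2 ^ n + (s + 2 ^ (n * 2) * r) * 2 ^ k * (netM n D + 1)) := by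
    simp only [Idx, Con0, Clause, Asg, Fintype.card_prod, Fintype.card_fun, Fintype.card_sum,
      Fintype.card_fin, Fintype.card_finset, Fintype.card_bool]
  set M := netM n D with hM
  have hM2 : M = 2 ^ ((8 * n + 2) * (D + 2)) := by
    rw [hM]
    unfold netM
    rw [← pow_mul]
  have hM1 : 1 ≤ M := by rw [hM2]; exact Nat.one_le_two_pow
  have hkn : 2 ^ k ≤ 2 ^ n := Nat.pow_le_pow_right (by norm_num) hk
  have h2 : s + 2 ^ (n * 2) * r ≤ 2 ^ (3 * n) := by
    have h3 : 1 ≤ 2 ^ (n * 2) := Nat.one_le_two_pow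
    calc s + 2 ^ (n * 2) * r ≤ 2 ^ (n * 2) * s + 2 ^ (n * 2) * r := by
          apply Nat.add_le_add_right
          exact Nat.le_mul_of_pos_left _ h3
      _ = 2 ^ (n * 2) * (s + r) := by ring
      _ ≤ 2 ^ (n * 2) * 2 ^ n := Nat.mul_le_mul_left _ hs.le
      _ = 2 ^ (3 * n) := by rw [← pow_add]; congr 1; ring
  have h3 : (s + 2 ^ (n * 2) * r) * 2 ^ k * (M + 1)
      ≤ 2 * 2 ^ (4 * n + (8 * n + 2) * (D + 2)) := by
    calc (s + 2 ^ (n * 2) * r) * 2 ^ k * (M + 1) ≤ 2 ^ (3 * n) * 2 ^ n * (2 * M) :=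
          Nat.mul_le_mul (Nat.mul_le_mul h2 hkn) (by omega)
      _ = 2 * 2 ^ (4 * n + (8 * n + 2) * (D + 2)) := by
          rw [hM2, pow_add, show 4 * n = 3 * n + n by ring, pow_add]; ring
  have h4 : 2 ^ n ≤ 2 ^ (4 * n + (8 * n + 2) * (D + 2)) :=
    Nat.pow_le_pow_right (by norm_num) (by omega)
  have h6 : 2 ^ (4 * n + (8 * n + 2) * (D + 2) + 2)
      = 4 * 2 ^ (4 * n + (8 * n + 2) * (D + 2)) := by rw [pow_add]; ring
  rw [h1, ← hM, h6]
  omega

/-- The lower bound for mixed-integer convex programming relaxations. -/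
theorem cx_main (ε : ℝ) (hε : 0 < ε) : ∃ c : ℕ, 1 ≤ c ∧ ∀ n m D k s r : ℕ, c ≤ n → n ^ c ≤ m →
    m ^ c ≤ 2 ^ n → D ^ c ≤ m → ∀ P : ConvexRelaxation n k s r D,
    ∃ F : Finset (Clause n), F.card ≤ m ∧ (∀ C ∈ F, 2 ^ C.card ≤ m) ∧
      (∀ x, n ≤ c * Nat.log 2 m * falsified F x) ∧
      (P.Refutes F ((2 : ℝ) ^ (-((n : ℝ) / c))) →
        (2 : ℝ) ^ ((1 - ε) * n) ≤ 2 ^ k * (s + r + 1)) := by
  classical
  obtain ⟨c₀, hc₀, hmain⟩ := signed_main (ε / 2) (by linarith)
  obtain ⟨c₁, hc₁⟩ := exists_nat_ge (14 / ε)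
  refine ⟨4 * c₀ + 36 + c₁, by omega, ?_⟩
  intro n m D k s r hn hm1 hm2 hD P
  set c := 4 * c₀ + 36 + c₁ with hc
  have hn8 : 36 ≤ n := by omega
  have hm0 : 0 < m := lt_of_lt_of_le (Nat.pow_pos (by omega)) hm1
  have hm1' : n ^ c₀ ≤ m := (Nat.pow_le_pow_right (by omega) (by omega)).trans hm1
  have hm2' : m ^ c₀ ≤ 2 ^ n := (Nat.pow_le_pow_right (by omega) (by omega)).trans hm2
  have hmono : ∀ (F : Finset (Clause n)) (x : Asg n), n ≤ c₀ * Nat.log 2 m * falsified F x →
      n ≤ c * Nat.log 2 m * falsified F x := by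
    intro F x h
    refine h.trans ?_
    apply Nat.mul_le_mul_right
    apply Nat.mul_le_mul_right
    omega
  -- the case of many constraints or many binary variables
  by_cases hs : 2 ^ n ≤ s + r ∨ n ≤ k
  · obtain ⟨F, h1, h2, h3, _⟩ := hmain n m 0 0 (by omega) hm1' hm2'
      (by rw [Nat.zero_pow (by omega)]; exact Nat.zero_le _) (Nat.zero_le _)
      (fun j _ => j.elim0) (fun j => j.elim0)
    refine ⟨F, h1, h2, fun x => hmono F x (h3 x), ?_⟩
    intro _
    have h5 : ((2 ^ n : ℕ) : ℝ) ≤ ((2 ^ k * (s + r + 1) : ℕ) : ℝ) := by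
      rcases hs with hs | hs
      · have h6 : 2 ^ n ≤ 2 ^ k * (s + r + 1) :=
          (hs.trans (by omega : s + r ≤ s + r + 1)).trans
            (Nat.le_mul_of_pos_left _ Nat.one_le_two_pow)
        exact_mod_cast h6
      · have h6 : 2 ^ n ≤ 2 ^ k * (s + r + 1) :=
          (Nat.pow_le_pow_right (by norm_num) hs).trans (Nat.le_mul_of_pos_right _ (by omega))
        exact_mod_cast h6
    push_cast at h5
    refine le_trans ?_ h5
    rw [← Real.rpow_natCast]
    apply Real.rpow_le_rpow_of_exponent_le (by norm_num)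
    have : 0 ≤ ε * (n : ℝ) := by positivity
    linarith
  push Not at hs
  obtain ⟨hs, hk⟩ := hs
  set w := 4 * n + (8 * n + 2) * (D + 2) + 2 with hw
  have hwm : w ^ c₀ ≤ m := by
    set v := max D 1 with hv
    have hv1 : 1 ≤ v := le_max_right _ _
    have hvm : v ^ c ≤ m := by
      rcases max_choice D 1 with h | h
      · rw [hv, h]; exact hD
      · rw [hv, h, one_pow]; exact hm0
    have h1 : w ≤ n ^ 2 * v := by
      have hDv : D ≤ v := le_max_left _ _
      have h2 : w ≤ 36 * (n * v) := by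
        have h3 : n * D ≤ n * v := Nat.mul_le_mul_left _ hDv
        have h4 : n ≤ n * v := Nat.le_mul_of_pos_right _ (by omega)
        have h5 : v ≤ n * v := Nat.le_mul_of_pos_left _ (by omega)
        have h6 : (8 * n + 2) * (D + 2) = 8 * (n * D) + 16 * n + 2 * D + 4 := by ring
        rw [hw, h6]
        omega
      calc w ≤ 36 * (n * v) := h2
        _ ≤ n * (n * v) := Nat.mul_le_mul_right _ (by omega)
        _ = n ^ 2 * v := by ring
    have h2 : (w ^ c₀) ^ 4 ≤ m ^ 4 := by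
      calc (w ^ c₀) ^ 4 ≤ ((n ^ 2 * v) ^ c₀) ^ 4 :=
            Nat.pow_le_pow_left (Nat.pow_le_pow_left h1 _) _
        _ = (n ^ (4 * c₀)) ^ 2 * v ^ (4 * c₀) := by
            rw [mul_pow, mul_pow, ← pow_mul, ← pow_mul, ← pow_mul, ← pow_mul]
            congr 1
            · congr 1; ring
            · congr 1; ring
        _ ≤ (n ^ c) ^ 2 * v ^ c := by
            apply Nat.mul_le_mul
            · exact Nat.pow_le_pow_left (Nat.pow_le_pow_right (by omega) (by omega)) _
            · exact Nat.pow_le_pow_right hv1 (by omega)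
        _ ≤ m ^ 2 * m := Nat.mul_le_mul (Nat.pow_le_pow_left hm1 _) hvm
        _ = m ^ 3 := by ring
        _ ≤ m ^ 4 := Nat.pow_le_pow_right hm0 (by norm_num)
    exact (Nat.pow_le_pow_iff_left (by norm_num : (4 : ℕ) ≠ 0)).1 h2
  obtain ⟨g, hg, hgnet⟩ := exists_lib P
  let e : Idx n k s r D ≃ Fin (Fintype.card (Idx n k s r D)) := Fintype.equivFin _
  obtain ⟨F, h1, h2, h3, h4⟩ := hmain n m w (Fintype.card (Idx n k s r D)) (by omega) hm1' hm2'
    hwm (card_idx (by omega) hk.le hs) (fun j x => libf P g (e.symm j) x)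
    (fun j x => libf_bd hg _ x)
  refine ⟨F, h1, h2, fun x => hmono F x (h3 x), ?_⟩
  intro hR
  set δ : ℝ := (2 : ℝ) ^ (-((n : ℝ) / c)) with hδ
  have hcpos : (0 : ℝ) < c := by exact_mod_cast (by omega : 0 < c)
  have hnpos : (0 : ℝ) < n := by exact_mod_cast (by omega : 0 < n)
  have hcn : (c : ℝ) ≤ n := by exact_mod_cast hn
  have hc1 : (1 : ℝ) ≤ c := by exact_mod_cast (by omega : 1 ≤ c)
  have hδ0 : 0 < δ := by positivity
  have hδ1 : δ < 1 := by
    rw [hδ]
    apply Real.rpow_lt_one_of_one_lt_of_neg (by norm_num)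
    have : 0 < (n : ℝ) / c := by positivity
    linarith
  set q : ℝ := (2 : ℝ) ^ ((n : ℝ) / c) with hq
  have hq0 : 0 < q := by positivity
  have hδq : δ * q = 1 := by
    rw [hδ, hq, ← Real.rpow_add (by norm_num), neg_add_cancel, Real.rpow_zero]
  have h1δ : 1 / δ = q := by
    rw [div_eq_iff hδ0.ne', mul_comm]; exact hδq.symm
  have hq2 : 2 ≤ q := by
    rw [hq]
    calc (2 : ℝ) = 2 ^ (1 : ℝ) := (Real.rpow_one 2).symm
      _ ≤ _ := by
          apply Real.rpow_le_rpow_of_exponent_le (by norm_num)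
          rw [le_div_iff₀ hcpos, one_mul]
          exact hcn
  have hqn : q ≤ 2 ^ n := by
    rw [hq, ← Real.rpow_natCast]
    apply Real.rpow_le_rpow_of_exponent_le (by norm_num)
    exact div_le_self hnpos.le hc1
  have hmq : (m : ℝ) ≤ q := by
    have h9 : (m : ℝ) ^ c ≤ q ^ c := by
      have h10 : (m : ℝ) ^ c ≤ 2 ^ n := by exact_mod_cast hm2
      refine h10.trans (le_of_eq ?_)
      rw [hq, ← Real.rpow_natCast, ← Real.rpow_natCast, ← Real.rpow_mul (by norm_num)]
      congr 1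
      field_simp
    exact (pow_le_pow_iff_left₀ (by positivity) (by positivity) (by omega : c ≠ 0)).1 h9
  have hm1r : (1 : ℝ) ≤ m := by exact_mod_cast hm0
  have hsr : (s : ℝ) + r ≤ 2 ^ n := by
    have : s + r ≤ 2 ^ n := hs.le
    exact_mod_cast this
  have hR0 : (s : ℝ) + m * r ≤ m * (s + r) := by
    have : (s : ℝ) ≤ m * s := le_mul_of_one_le_left (by positivity) hm1r
    linarith
  have hkr : (2 : ℝ) ^ k ≤ 2 ^ n := pow_le_pow_right₀ (by norm_num) hk.le
  have hE : 2 * 2 ^ n * (2 ^ k * ((s : ℝ) + m * r) * (2 * m / δ) * ((2 : ℝ) ^ (8 * n))⁻¹) ≤ 1 := by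
    have e1 : 2 * (m : ℝ) / δ = 2 * m * q := by rw [← h1δ]; ring
    rw [e1]
    have hA : (1 : ℝ) ≤ 2 ^ n := one_le_pow₀ (by norm_num)
    set A : ℝ := 2 ^ n with hAd
    have hA6 : (2 : ℝ) ^ (8 * n) = A ^ 8 := by rw [hAd, ← pow_mul]; congr 1; ring
    have hA4 : 4 ≤ A := by
      calc (4 : ℝ) = 2 ^ 2 := by norm_num
        _ ≤ 2 ^ n := pow_le_pow_right₀ (by norm_num) (by omega)
    have hmA : (m : ℝ) ≤ A := hmq.trans hqn
    rw [hA6]
    have h5 : (2 : ℝ) ^ k * ((s : ℝ) + m * r) * (2 * m * q) ≤ A * (A * A) * (2 * A * A) := by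
      apply mul_le_mul
      · apply mul_le_mul hkr _ (by positivity) (by positivity)
        exact hR0.trans (mul_le_mul hmA hsr (by positivity) (by positivity))
      · exact mul_le_mul (mul_le_mul_of_nonneg_left hmA (by norm_num)) hqn hq0.le (by positivity)
      · positivity
      · positivity
    have hA0 : 0 < A := by linarith
    calc 2 * A * (2 ^ k * ((s : ℝ) + m * r) * (2 * m * q) * (A ^ 8)⁻¹)
        ≤ 2 * A * (A * (A * A) * (2 * A * A) * (A ^ 8)⁻¹) := by
          apply mul_le_mul_of_nonneg_left _ (by positivity)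
          exact mul_le_mul_of_nonneg_right h5 (by positivity)
      _ = 4 / (A * A) := by
          field_simp
          ring
      _ ≤ 1 := by
          rw [div_le_one (by positivity)]
          nlinarith
  obtain ⟨μ, u, hu, hid, hmass, hsize⟩ := static_of_refutes P hgnet F h1 hm0 hδ0 hδ1 hE hR
  have hre : ∀ φ : Idx n k s r D → ℝ, ∑ j, φ (e.symm j) = ∑ j, φ j := fun φ => Equiv.sum_comp _ _
  have h5 := h4 (fun C j => μ C (e.symm j)) (fun j => u (e.symm j)) (fun j => hu _) (by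
      intro x
      rw [hre (fun j => u j * libf P g j x), ← hid x]
      apply Finset.sum_congr rfl
      intro C _
      exact hre (fun j => μ C j * (libf P g j x * LX.isFalse C x))) (by
      refine le_trans (le_of_eq ?_) (hmass.trans ?_)
      · apply Finset.sum_congr rfl
        intro x _
        apply Finset.sum_congr rfl
        intro C _
        exact hre (fun j => |μ C j| * (libf P g j x * LX.isFalse C x))
      · apply mul_le_mul_of_nonneg_right _ (by positivity)
        have e1 : 2 * (m : ℝ) / δ = 2 * m * q := by rw [← h1δ]; ring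
        rw [e1]
        calc 2 * (m : ℝ) * q ≤ q * q * q := by
              apply mul_le_mul_of_nonneg_right _ hq0.le
              exact mul_le_mul hq2 hmq (by positivity) hq0.le
          _ = (2 : ℝ) ^ (3 * ((n : ℝ) / c)) := by
              rw [hq, ← Real.rpow_add (by norm_num), ← Real.rpow_add (by norm_num)]
              congr 1; ring
          _ ≤ (2 : ℝ) ^ ((n : ℝ) / c₀) := by
              apply Real.rpow_le_rpow_of_exponent_le (by norm_num)
              have hc₀pos : (0 : ℝ) < c₀ := by exact_mod_cast hc₀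
              have h6 : (3 : ℝ) * c₀ ≤ c := by exact_mod_cast (by omega : 3 * c₀ ≤ c)
              rw [mul_div_assoc', div_le_div_iff₀ hcpos hc₀pos]
              have := mul_le_mul_of_nonneg_left h6 hnpos.le
              linarith)
  have h6 : ∑ C ∈ F, ∑ j, |μ C (e.symm j)| + ∑ j, u (e.symm j)
      = ∑ C ∈ F, ∑ j, |μ C j| + ∑ j, u j := by
    rw [hre u]
    congr 1
    apply Finset.sum_congr rfl
    intro C _
    exact hre (fun j => |μ C j|)
  rw [h6] at h5
  have h7 := h5.trans hsize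
  -- the factor is small
  have h8 : 2 ^ k * (2 * (m : ℝ) / δ) * ((s : ℝ) + m * r + 5)
      ≤ q ^ 7 * (2 ^ k * (s + r + 1)) := by
    have e1 : 2 * (m : ℝ) / δ = 2 * m * q := by rw [← h1δ]; ring
    have h9 : (s : ℝ) + m * r + 5 ≤ q ^ 4 * (s + r + 1) := by
      have hq1 : 1 ≤ q := by linarith
      have h10 : (m : ℝ) ≤ q ^ 4 := hmq.trans (le_self_pow₀ hq1 (by norm_num))
      have h11 : (5 : ℝ) ≤ q ^ 4 := by
        calc (5 : ℝ) ≤ 2 ^ 4 := by norm_num
          _ ≤ q ^ 4 := pow_le_pow_left₀ (by norm_num) hq2 4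
      have h12 : (m : ℝ) * (s + r) ≤ q ^ 4 * (s + r) :=
        mul_le_mul_of_nonneg_right h10 (by positivity)
      have h13 : q ^ 4 * (s + r + 1) = q ^ 4 * (s + r) + q ^ 4 := by ring
      linarith
    rw [e1]
    calc 2 ^ k * (2 * (m : ℝ) * q) * ((s : ℝ) + m * r + 5)
        ≤ 2 ^ k * (q * q * q) * (q ^ 4 * (s + r + 1)) := by
          apply mul_le_mul _ h9 (by positivity) (by positivity)
          apply mul_le_mul_of_nonneg_left _ (by positivity)
          apply mul_le_mul_of_nonneg_right _ hq0.le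
          exact mul_le_mul hq2 hmq (by positivity) hq0.le
      _ = q ^ 7 * (2 ^ k * (s + r + 1)) := by ring
  have h9 : q ^ 7 ≤ (2 : ℝ) ^ (ε / 2 * n) := by
    rw [hq, ← Real.rpow_natCast, ← Real.rpow_mul (by norm_num)]
    apply Real.rpow_le_rpow_of_exponent_le (by norm_num)
    have h10 : 14 / ε ≤ (c : ℝ) := by
      refine hc₁.trans ?_
      exact_mod_cast (by omega : c₁ ≤ c)
    rw [div_le_iff₀ hε] at h10
    rw [div_mul_eq_mul_div, div_le_iff₀ hcpos]
    push_cast
    have h11 : (n : ℝ) * 14 ≤ n * (c * ε) := mul_le_mul_of_nonneg_left h10 hnpos.le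
    linarith
  have h10 : (2 : ℝ) ^ ((1 - ε) * n) * (2 : ℝ) ^ (ε / 2 * n)
      ≤ (2 ^ k * ((s : ℝ) + r + 1)) * (2 : ℝ) ^ (ε / 2 * n) := by
    rw [← Real.rpow_add (by norm_num)]
    have e1 : (1 - ε) * (n : ℝ) + ε / 2 * n = (1 - ε / 2) * n := by ring
    rw [e1]
    refine h7.trans (h8.trans ?_)
    rw [mul_comm]
    exact mul_le_mul_of_nonneg_left h9 (by positivity)
  exact le_of_mul_le_mul_right h10 (by positivity)

end Pool.Agent.TH689.CX
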