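import Mathlib
import Pool.Agent.TH689.LXRank

/-!
Classes of colourings: all colourings with the same numbers of points of every colour.
-/

set_option autoImplicit false
set_option linter.unusedSectionVars false

namespace Pool.Agent.TH689.RX

open Finset Pool.Agent.TH689.LX

variable {K H : ℕ} {V : Type*} [Fintype V] [DecidableEq V]

/-- the numbers of points of every colour -/
def prof (y : Fin K → V → Fin H) : Fin K → Fin H → Fin (Fintype.card V + 1) := fun i h =>
  ⟨Fintype.card {v // y i v = h}, Nat.lt_succ_of_le (Fintype.card_subtype_le _)⟩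

/-- functions with the same numbers of points of every colour differ by a permutation -/
lemma exists_perm {f g : V → Fin H}
    (h : ∀ c, Fintype.card {v // f v = c} = Fintype.card {v // g v = c}) :
    ∃ σ : Equiv.Perm V, ∀ v, g v = f (σ v) := by
  classical
  let e : ∀ c, {v // g v = c} ≃ {v // f v = c} := fun c => Fintype.equivOfCardEq (h c).symm
  let σ : V ≃ V := (Equiv.sigmaFiberEquiv g).symm.trans
    ((Equiv.sigmaCongrRight e).trans (Equiv.sigmaFiberEquiv f))
  refine ⟨σ, fun v => ?_⟩
  have h1 : σ v = (e (g v) ⟨v, rfl⟩ : V) := rfl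
  rw [h1]
  exact (e (g v) ⟨v, rfl⟩).2.symm

lemma prof_perm (y : Fin K → V → Fin H) (σ : Fin K → Equiv.Perm V) :
    prof (fun i v => y i (σ i v)) = prof y := by
  funext i h
  apply Fin.ext
  simp only [prof]
  apply Fintype.card_congr
  exact (σ i).subtypeEquiv (fun v => Iff.rfl)

/-- the sum over the assignments -/
noncomputable def rowSum (y : Fin K → V → Fin H) : ℝ := ∑ x : Fin K → V, ell (comp y x)

lemma rowSum_perm (y : Fin K → V → Fin H) (σ : Fin K → Equiv.Perm V) :
    rowSum (fun i v => y i (σ i v)) = rowSum y := by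
  unfold rowSum
  exact Equiv.sum_comp (Equiv.piCongrRight σ) (fun x : Fin K → V => ell (comp y x))

lemma rowSum_congr {y y' : Fin K → V → Fin H} (h : prof y = prof y') : rowSum y = rowSum y' := by
  have h1 : ∀ i, ∃ σ : Equiv.Perm V, ∀ v, y' i v = y i (σ v) := by
    intro i
    apply exists_perm
    intro c
    have h2 := congrFun (congrFun h i) c
    simpa [prof] using h2
  choose σ hσ using h1
  have h2 : y' = fun i v => y i (σ i v) := by
    funext i v
    exact hσ i v
  rw [h2, rowSum_perm]

lemma rowSum_le (hH : 1 ≤ H) (y : Fin K → V → Fin H) :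
    rowSum y ≤ (4 * H : ℝ) ^ K * (Fintype.card (Fin K → V) : ℝ) := by
  unfold rowSum
  calc ∑ x : Fin K → V, ell (comp y x) ≤ ∑ _x : Fin K → V, (4 * H : ℝ) ^ K := by
        apply Finset.sum_le_sum
        intro x _
        have h1 := ell_abs_le hH (comp y x)
        rw [Fintype.card_fin] at h1
        exact (le_abs_self _).trans h1
    _ = _ := by
        rw [Finset.sum_const, Finset.card_univ, nsmul_eq_mul, mul_comm]

/-- the total sum -/
lemma total (hH : 1 ≤ H) : ∑ y : Fin K → V → Fin H, rowSum y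
    = (Fintype.card (Fin K → V) : ℝ) * (Fintype.card (Fin K → V → Fin H) : ℝ) := by
  unfold rowSum
  rw [Finset.sum_comm]
  have h1 : ∀ x : Fin K → V, ∑ y : Fin K → V → Fin H, ell (comp y x)
      = (Fintype.card (Fin K → V → Fin H) : ℝ) := by
    intro x
    have h2 := sum_comp x (fun z : Fin K → Fin H => ell z)
    rw [sum_ell (by omega), Fintype.card_fin, Fintype.card_fin] at h2
    have hHK : (0 : ℝ) < (H : ℝ) ^ K := by
      apply pow_pos
      exact_mod_cast (by omega : 0 < H)
    have h3 : (H : ℝ) ^ K * ∑ y : Fin K → V → Fin H, ell (comp y x)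
        = (H : ℝ) ^ K * (Fintype.card (Fin K → V → Fin H) : ℝ) := by
      rw [h2]; ring
    exact mul_left_cancel₀ hHK.ne' h3
  rw [Finset.sum_congr rfl (fun x _ => h1 x), Finset.sum_const, Finset.card_univ, nsmul_eq_mul]

/-- a large class of colourings for which all averages are the same -/
theorem exists_class (K : ℕ) (V : Type*) [Fintype V] [DecidableEq V] (hH : 1 ≤ H)
    (hV : 1 ≤ Fintype.card V) :
    ∃ (B : Finset (Fin K → V → Fin H)) (a : ℝ), 1 / 2 ≤ a ∧ B.Nonempty ∧
      (∀ y ∈ B, ∑ x : Fin K → V, ell (comp y x) = a * (Fintype.card (Fin K → V) : ℝ)) ∧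
      (∀ x : Fin K → V, ∑ y ∈ B, ell (comp y x) = a * (B.card : ℝ)) ∧
      (Fintype.card (Fin K → V → Fin H) : ℝ)
        ≤ (2 * (4 * H : ℝ) ^ K * ((Fintype.card V : ℝ) + 1) ^ (K * H)) * B.card := by
  classical
  set X : ℝ := (Fintype.card (Fin K → V) : ℝ) with hX
  set Y : ℝ := (Fintype.card (Fin K → V → Fin H) : ℝ) with hY
  obtain ⟨v₀⟩ : Nonempty V := Fintype.card_pos_iff.1 hV
  have hneX : Nonempty (Fin K → V) := ⟨fun _ => v₀⟩
  have hneY : Nonempty (Fin K → V → Fin H) := ⟨fun _ _ => ⟨0, by omega⟩⟩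
  have hXpos : 0 < X := by rw [hX]; exact_mod_cast Fintype.card_pos
  have hYpos : 0 < Y := by rw [hY]; exact_mod_cast Fintype.card_pos
  set Λ : ℝ := (4 * H : ℝ) ^ K with hΛ
  have hΛ0 : 0 ≤ Λ := by positivity
  set Q : ℝ := ((Fintype.card V : ℝ) + 1) ^ (K * H) with hQ
  have hQ0 : 0 < Q := by positivity
  have hcardQ : (Fintype.card (Fin K → Fin H → Fin (Fintype.card V + 1)) : ℝ) = Q := by
    rw [Fintype.card_fun, Fintype.card_fun, Fintype.card_fin, Fintype.card_fin, Fintype.card_fin,
      hQ, ← pow_mul, mul_comm H K]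
    push_cast
    rfl
  -- a class for which the excess is large
  obtain ⟨π, hπ⟩ : ∃ π : Fin K → Fin H → Fin (Fintype.card V + 1),
      X * Y / (2 * Q) ≤ ∑ y ∈ Finset.univ.filter (fun y : Fin K → V → Fin H => prof y = π),
        (rowSum y - X / 2) := by
    by_contra hcon
    push Not at hcon
    have h1 : ∑ π : Fin K → Fin H → Fin (Fintype.card V + 1),
        ∑ y ∈ Finset.univ.filter (fun y : Fin K → V → Fin H => prof y = π), (rowSum y - X / 2)
        = ∑ y : Fin K → V → Fin H, (rowSum y - X / 2) :=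
      Finset.sum_fiberwise (s := (Finset.univ : Finset (Fin K → V → Fin H)))
        (g := fun y => prof y) (f := fun y => rowSum y - X / 2)
    have h2 : ∑ y : Fin K → V → Fin H, (rowSum y - X / 2) = X * Y / 2 := by
      rw [Finset.sum_sub_distrib, total hH, Finset.sum_const, Finset.card_univ, nsmul_eq_mul,
        ← hX, ← hY]
      ring
    have h3 : ∑ π : Fin K → Fin H → Fin (Fintype.card V + 1),
        ∑ y ∈ Finset.univ.filter (fun y : Fin K → V → Fin H => prof y = π), (rowSum y - X / 2)
        < ∑ _π : Fin K → Fin H → Fin (Fintype.card V + 1), X * Y / (2 * Q) :=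
      Finset.sum_lt_sum_of_nonempty ⟨fun _ _ => 0, Finset.mem_univ _⟩ (fun π _ => hcon π)
    rw [Finset.sum_const, Finset.card_univ, nsmul_eq_mul, hcardQ, h1, h2] at h3
    have h4 : Q * (X * Y / (2 * Q)) = X * Y / 2 := by field_simp
    linarith
  set B := Finset.univ.filter (fun y : Fin K → V → Fin H => prof y = π) with hB
  have hpos : 0 < X * Y / (2 * Q) := by positivity
  have hBne : B.Nonempty := by
    by_contra hcon
    rw [Finset.not_nonempty_iff_eq_empty] at hcon
    rw [hcon, Finset.sum_empty] at hπ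
    linarith
  obtain ⟨y₀, hy₀⟩ := hBne
  have hrow : ∀ y ∈ B, rowSum y = rowSum y₀ := by
    intro y hy
    apply rowSum_congr
    rw [(Finset.mem_filter.1 hy).2, (Finset.mem_filter.1 hy₀).2]
  have hBpos : (0 : ℝ) < B.card := by exact_mod_cast Finset.card_pos.2 ⟨y₀, hy₀⟩
  rw [Finset.sum_congr rfl (fun y hy => by rw [hrow y hy]), Finset.sum_const, nsmul_eq_mul] at hπ
  set S := rowSum y₀ with hS
  have hS1 : X / 2 ≤ S := by
    by_contra hcon
    push Not at hcon
    have : (B.card : ℝ) * (S - X / 2) ≤ 0 := mul_nonpos_of_nonneg_of_nonpos hBpos.le (by linarith)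
    linarith
  have hS2 : S ≤ Λ * X := rowSum_le hH y₀
  -- the sum over the colourings
  have hcol : ∀ x x' : Fin K → V, ∑ y ∈ B, ell (comp y x) = ∑ y ∈ B, ell (comp y x') := by
    intro x x'
    let σ : Fin K → Equiv.Perm V := fun i => Equiv.swap (x i) (x' i)
    apply Finset.sum_nbij' (fun y => fun i v => y i (σ i v)) (fun y => fun i v => y i (σ i v))
    · intro y hy
      rw [hB, Finset.mem_filter] at hy ⊢
      exact ⟨Finset.mem_univ _, by rw [prof_perm]; exact hy.2⟩
    · intro y hy
      rw [hB, Finset.mem_filter] at hy ⊢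
      exact ⟨Finset.mem_univ _, by rw [prof_perm]; exact hy.2⟩
    · intro y _
      funext i v
      simp only [σ, Equiv.swap_apply_self]
    · intro y _
      funext i v
      simp only [σ, Equiv.swap_apply_self]
    · intro y _
      congr 1
      funext i
      simp only [comp, σ, Equiv.swap_apply_right]
  refine ⟨B, S / X, ?_, ⟨y₀, hy₀⟩, ?_, ?_, ?_⟩
  · rw [le_div_iff₀ hXpos]
    linarith
  · intro y hy
    rw [div_mul_cancel₀ _ hXpos.ne']
    exact hrow y hy
  · intro x
    have h1 : ∑ x' : Fin K → V, ∑ y ∈ B, ell (comp y x') = X * ∑ y ∈ B, ell (comp y x) := by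
      rw [Finset.sum_congr rfl (fun x' _ => hcol x' x), Finset.sum_const, Finset.card_univ,
        nsmul_eq_mul]
    have h2 : ∑ x' : Fin K → V, ∑ y ∈ B, ell (comp y x') = B.card * S := by
      have h3 : ∑ y ∈ B, ∑ x : Fin K → V, ell (comp y x) = ∑ _y ∈ B, S :=
        Finset.sum_congr rfl (fun y hy => hrow y hy)
      rw [Finset.sum_comm, h3, Finset.sum_const, nsmul_eq_mul]
    rw [h2] at h1
    rw [div_mul_eq_mul_div, eq_div_iff hXpos.ne']
    linarith
  · have h1 : (B.card : ℝ) * (S - X / 2) ≤ B.card * (Λ * X) :=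
      mul_le_mul_of_nonneg_left (by linarith) hBpos.le
    have h2 : X * Y / (2 * Q) ≤ B.card * (Λ * X) := hπ.trans h1
    rw [div_le_iff₀ (by positivity)] at h2
    have h3 : X * Y ≤ X * (2 * Λ * Q * B.card) := by
      refine h2.trans (le_of_eq ?_)
      ring
    exact le_of_mul_le_mul_left h3 hXpos

end Pool.Agent.TH689.RX
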