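import Mathlib
import Pool.Agent.TH689.LVRank
import Pool.Agent.TH689.RXClass

/-!
Representations of a nonnegative function with signed multiples of collisions, for some of the
colourings of a class.
-/

set_option autoImplicit false
set_option linter.unusedSectionVars false

namespace Pool.Agent.TH689.RX

open Finset Pool.Agent.TH689.LX

variable {K H : ℕ} {V : Type*} [Fintype V] [DecidableEq V]

/-- representations of the function `v`, for the colourings with `cc y = 1` -/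
theorem factor_core (hH : 2 ≤ H) (hV : 1 ≤ Fintype.card V) {r l : ℝ} (hr : 0 < r)
    (hr1 : r ≤ 1) (hl : 0 ≤ l) {m₀ D : ℕ} (hD : D + m₀ ≤ H + 1) (hm₀ : 1 ≤ m₀) (hlr : l * r ≤ 1)
    (hsm : (1 + 2 * H * (l * r)) ^ K ≤ 2)
    (hrq : 1 ≤ r ^ 2 * Fintype.card V) {B T : ℝ} (hT0 : 0 ≤ T) {κ : Type} [Fintype κ]
    (w : κ → (Fin K → V) → ℝ) (hw0 : ∀ j x, 0 ≤ w j x) (hw1 : ∀ j x, w j x ≤ 1)
    (cc : (Fin K → V → Fin H) → ℝ) (hcc0 : ∀ y, 0 ≤ cc y) (hcc1 : ∀ y, cc y ≤ 1)
    (v : (Fin K → V) → ℝ) (hv0 : ∀ x, 0 ≤ v x)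
    (lam : (Fin K × Fin K) × (V × V) → κ → (Fin K → V → Fin H) → ℝ)
    (hlam : ∀ e j y, lam e j y ≠ 0 → e.1.1 ≠ e.1.2 ∧ y e.1.1 e.2.1 = y e.1.2 e.2.2)
    (u : κ → (Fin K → V → Fin H) → ℝ) (hu : ∀ j y, 0 ≤ u j y)
    (hfac : ∀ y x, ∑ e, ∑ j, lam e j y * (w j x * hit e x) = cc y * v x + ∑ j, u j y * w j x)
    (hmass : ∀ y, ∑ x, ∑ e, ∑ j, |lam e j y| * (w j x * hit e x)
      ≤ B * (Fintype.card (Fin K → V) : ℝ) * cc y)
    (hsize : ∀ y, ∑ e, ∑ j, |lam e j y| + ∑ j, u j y ≤ T * cc y) :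
    ∑ y, cc y * ∑ x, v x * ell (comp y x)
      ≤ 2 * (B * farE K H m₀ (l * r)) * ((Fintype.card (Fin K → V) : ℝ) * ∑ y, cc y)
      + (2 * (Fintype.card ((Fin K × Fin K) × (V × V)) : ℝ) + 1) * Fintype.card κ
        * (T * ((4 * H : ℝ) ^ K * tailB K H (Fintype.card V) l))
        * ((Fintype.card (Fin K → V) : ℝ) * (Fintype.card (Fin K → V → Fin H) : ℝ))
      + T * ((4 * H : ℝ) ^ K * (1 / (r ^ 2 * Fintype.card V) ^ D))
        * ((Fintype.card (Fin K → V) : ℝ) * ∑ y, cc y) := by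
  classical
  set Y : ℝ := (Fintype.card (Fin K → V → Fin H) : ℝ) with hY
  set X : ℝ := (Fintype.card (Fin K → V) : ℝ) with hX
  set W : ℝ := ∑ y, cc y with hW
  obtain ⟨v₀⟩ : Nonempty V := Fintype.card_pos_iff.1 hV
  have hneX : Nonempty (Fin K → V) := ⟨fun _ => v₀⟩
  have hneY : Nonempty (Fin K → V → Fin H) := ⟨fun _ _ => ⟨0, by omega⟩⟩
  have hYpos : 0 < Y := by rw [hY]; exact_mod_cast Fintype.card_pos
  have hXpos : 0 < X := by rw [hX]; exact_mod_cast Fintype.card_pos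
  have hXq : X = (Fintype.card V : ℝ) ^ K := by
    rw [hX, Fintype.card_fun, Fintype.card_fin]; push_cast; rfl
  have hfar0 : 0 ≤ farE K H m₀ (l * r) := by unfold farE; positivity
  have htail0 : 0 ≤ tailB K H (Fintype.card V) l := by unfold tailB; positivity
  set θ : ℝ := (4 * H : ℝ) ^ K * (tailB K H (Fintype.card V) l * Y) with hθ
  have hθ0 : 0 ≤ θ := by positivity
  have hrqD : 0 < (r ^ 2 * (Fintype.card V : ℝ)) ^ D := by
    apply pow_pos
    exact lt_of_lt_of_le one_pos hrq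
  set ρ : ℝ := (4 * H : ℝ) ^ K * ((Fintype.card V : ℝ) ^ K / (r ^ 2 * Fintype.card V) ^ D) with hρ
  have hρ0 : 0 ≤ ρ := by positivity
  -- the two sides
  set cp : ((Fin K × Fin K) × (V × V)) × κ → (Fin K → V → Fin H) → ℝ :=
    fun p y => lam p.1 p.2 y with hcp
  set vp : ((Fin K × Fin K) × (V × V)) × κ → (Fin K → V) → ℝ :=
    fun p x => w p.2 x * hit p.1 x with hvp
  have hvp0 : ∀ p x, 0 ≤ vp p x := fun p x => mul_nonneg (hw0 _ _) (hit_nonneg _ _)
  have hvp1 : ∀ p x, vp p x ≤ 1 := fun p x =>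
    mul_le_one₀ (hw1 _ _) (hit_nonneg _ _) (hit_le_one _ _)
  have hfac' : ∀ y x, ∑ p, cp p y * vp p x = cc y * v x + ∑ j, u j y * w j x := by
    intro y x
    rw [← hfac y x, Fintype.sum_prod_type]
  have hmass' : ∀ y, ∑ x, ∑ p, |cp p y| * vp p x ≤ B * X * cc y := by
    intro y
    refine le_trans (le_of_eq ?_) (hmass y)
    apply Finset.sum_congr rfl
    intro x _
    rw [Fintype.sum_prod_type]
  have hsize' : ∀ y, ∑ p, |cp p y| + ∑ j, u j y ≤ T * cc y := by
    intro y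
    refine le_trans (le_of_eq ?_) (hsize y)
    rw [Fintype.sum_prod_type]
  have hsizeT : ∀ y, ∑ p, |cp p y| + ∑ j, u j y ≤ T := by
    intro y
    exact (hsize' y).trans (mul_le_of_le_one_right hT0 (hcc1 y))
  have hmassu : ∀ y, ∑ x, ∑ j, u j y * w j x ≤ B * X * cc y := by
    intro y
    refine le_trans ?_ (hmass' y)
    apply Finset.sum_le_sum
    intro x _
    have h1 : ∑ j, u j y * w j x = ∑ p, cp p y * vp p x - cc y * v x := by rw [hfac']; ring
    have h2 : ∑ p, cp p y * vp p x ≤ ∑ p, |cp p y| * vp p x := by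
      apply Finset.sum_le_sum
      intro p _
      exact mul_le_mul_of_nonneg_right (le_abs_self _) (hvp0 p x)
    have h3 : 0 ≤ cc y * v x := mul_nonneg (hcc0 y) (hv0 x)
    linarith
  have hL : ∑ y : Fin K → V → Fin H, ∑ x : Fin K → V,
      (∑ p, cp p y * vp p x) * ell (comp y x)
      = ∑ p, ∑ y, cp p y * ∑ x, vp p x * ell (comp y x) := by
    rw [Finset.sum_comm (s := (Finset.univ : Finset (((Fin K × Fin K) × (V × V)) × κ)))]
    apply Finset.sum_congr rfl
    intro y _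
    simp only [Finset.sum_mul, Finset.mul_sum]
    rw [Finset.sum_comm]
    apply Finset.sum_congr rfl
    intro p _
    apply Finset.sum_congr rfl
    intro x _
    ring
  have hR : ∑ y : Fin K → V → Fin H, ∑ x : Fin K → V,
      (∑ p, cp p y * vp p x) * ell (comp y x)
      = ∑ y, cc y * ∑ x, v x * ell (comp y x)
        + ∑ j, ∑ y, u j y * ∑ x, w j x * ell (comp y x) := by
    rw [Finset.sum_comm (s := (Finset.univ : Finset κ)), ← Finset.sum_add_distrib]
    apply Finset.sum_congr rfl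
    intro y _
    have h1 : ∑ j, u j y * ∑ x, w j x * ell (comp y x)
        = ∑ x, (∑ j, u j y * w j x) * ell (comp y x) := by
      simp only [Finset.sum_mul, Finset.mul_sum]
      rw [Finset.sum_comm]
      apply Finset.sum_congr rfl
      intro x _
      apply Finset.sum_congr rfl
      intro j _
      ring
    rw [h1, Finset.mul_sum, ← Finset.sum_add_distrib]
    apply Finset.sum_congr rfl
    intro x _
    rw [hfac' y x]
    ring
  have hsumv : ∀ v : (Fin K → V) → ℝ, (∀ x, v x ≤ 1) → ∑ x, v x ≤ X := by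
    intro v hv
    calc ∑ x, v x ≤ ∑ _x : Fin K → V, (1 : ℝ) := Finset.sum_le_sum (fun x _ => hv x)
      _ = X := by rw [Finset.sum_const, Finset.card_univ, nsmul_eq_mul, mul_one]
  -- the left hand side
  have hLp : ∀ p, ∑ y, cp p y * ∑ x, vp p x * ell (comp y x)
      ≤ farE K H m₀ (l * r) * ((∑ x, vp p x) * ∑ y, |cp p y|) + X * (2 * T * θ)
        + ρ * ∑ y, |cp p y| := by
    intro p
    have hE : 0 ≤ farE K H m₀ (l * r) * ((∑ x, vp p x) * ∑ y, |cp p y|) + X * (2 * T * θ)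
        + ρ * ∑ y, |cp p y| := by
      have h1 : 0 ≤ ∑ x, vp p x := Finset.sum_nonneg (fun x _ => hvp0 p x)
      have h2 : 0 ≤ ∑ y, |cp p y| := Finset.sum_nonneg (fun y _ => abs_nonneg _)
      positivity
    by_cases hp : p.1.1.1 = p.1.1.2
    · have hz : ∀ y, cp p y = 0 := by
        intro y
        by_contra hcon
        exact (hlam p.1 p.2 y hcon).1 hp
      simp only [hz, zero_mul, Finset.sum_const_zero] at hE ⊢
      exact hE
    · have h1 := signed_rank (K := K) (H := H) (V := V) (by omega) hV hr hr1 hl hD hm₀ hlr hrq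
        (i₀ := p.1.1.1) (j₀ := p.1.1.2) hp p.1.2.1 p.1.2.2 (cp p) (vp p)
        (fun y hy => (hlam p.1 p.2 y hy).2) (hvp0 p) (hvp1 p)
        (by
          intro x hx
          by_contra hcon
          apply hx
          simp only [hvp, hit]
          rw [if_neg hcon, mul_zero])
        (U := T) (fun y => by
          refine le_trans ?_ (hsizeT y)
          have h2 : |cp p y| ≤ ∑ p, |cp p y| :=
            Finset.single_le_sum (f := fun p => |cp p y|) (fun p _ => abs_nonneg _)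
              (Finset.mem_univ p)
          have h3 : 0 ≤ ∑ j, u j y := Finset.sum_nonneg (fun j _ => hu j y)
          linarith)
      refine (le_abs_self _).trans (h1.trans ?_)
      have h2 : (∑ x, vp p x) * (2 * T * θ) ≤ X * (2 * T * θ) :=
        mul_le_mul_of_nonneg_right (hsumv _ (hvp1 p)) (by positivity)
      have e1 : (∑ x, vp p x) * (farE K H m₀ (l * r) * ∑ y, |cp p y|
          + 2 * T * ((4 * H : ℝ) ^ K * (tailB K H (Fintype.card V) l * Y)))
          + (4 * H : ℝ) ^ K * (∑ y, |cp p y|)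
            * ((Fintype.card V : ℝ) ^ K / (r ^ 2 * Fintype.card V) ^ D)
          = farE K H m₀ (l * r) * ((∑ x, vp p x) * ∑ y, |cp p y|) + (∑ x, vp p x) * (2 * T * θ)
            + ρ * ∑ y, |cp p y| := by
        rw [hθ, hρ]; ring
      rw [e1]
      linarith
  have hRj : ∀ j, -(farE K H m₀ (l * r) * ((∑ x, w j x) * ∑ y, u j y) + X * (T * θ)
        + ρ * ∑ y, u j y) ≤ ∑ y, u j y * ∑ x, w j x * ell (comp y x) := by
    intro j
    have h1 := pos_rank (K := K) (H := H) (V := V) (by omega) hV hr hl hD hm₀ hlr hsm hrq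
      (u j) (w j) (hu j) (hw0 j) (hw1 j) (U := T) (fun y => by
          refine le_trans ?_ (hsizeT y)
          have h2 : u j y ≤ ∑ j, u j y :=
            Finset.single_le_sum (f := fun j => u j y) (fun j _ => hu j y) (Finset.mem_univ j)
          have h3 : 0 ≤ ∑ p, |cp p y| := Finset.sum_nonneg (fun j _ => abs_nonneg _)
          linarith)
    refine le_trans ?_ h1
    rw [neg_le_neg_iff]
    have h2 : (∑ x, w j x) * (T * θ) ≤ X * (T * θ) :=
      mul_le_mul_of_nonneg_right (hsumv _ (hw1 j)) (by positivity)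
    have e1 : (∑ x, w j x) * (farE K H m₀ (l * r) * ∑ y, u j y
        + T * ((4 * H : ℝ) ^ K * (tailB K H (Fintype.card V) l * Y)))
        + (4 * H : ℝ) ^ K * (∑ y, u j y)
          * ((Fintype.card V : ℝ) ^ K / (r ^ 2 * Fintype.card V) ^ D)
        = farE K H m₀ (l * r) * ((∑ x, w j x) * ∑ y, u j y) + (∑ x, w j x) * (T * θ)
          + ρ * ∑ y, u j y := by
      rw [hθ, hρ]; ring
    rw [e1]
    linarith
  have hLtot := Finset.sum_le_sum
    (fun p (_ : p ∈ (Finset.univ : Finset (((Fin K × Fin K) × (V × V)) × κ))) => hLp p)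
  have hRtot := Finset.sum_le_sum (fun j (_ : j ∈ (Finset.univ : Finset κ)) => hRj j)
  rw [← hL, hR, Finset.sum_add_distrib, Finset.sum_add_distrib, ← Finset.mul_sum, Finset.sum_const,
    Finset.card_univ, nsmul_eq_mul, ← Finset.mul_sum] at hLtot
  rw [Finset.sum_neg_distrib, Finset.sum_add_distrib, Finset.sum_add_distrib, ← Finset.mul_sum,
    Finset.sum_const, Finset.card_univ, nsmul_eq_mul, ← Finset.mul_sum] at hRtot
  -- the masses
  have hm1 : ∑ p, (∑ x, vp p x) * ∑ y, |cp p y| ≤ B * X * W := by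
    have h1 : ∑ p, (∑ x, vp p x) * ∑ y, |cp p y|
        = ∑ y : Fin K → V → Fin H, ∑ x, ∑ p, |cp p y| * vp p x := by
      rw [Finset.sum_congr rfl (fun y _ => Finset.sum_comm), Finset.sum_comm]
      apply Finset.sum_congr rfl
      intro p _
      rw [mul_comm, Finset.sum_mul]
      apply Finset.sum_congr rfl
      intro y _
      rw [Finset.mul_sum]
    rw [h1]
    calc ∑ y : Fin K → V → Fin H, ∑ x, ∑ p, |cp p y| * vp p x
        ≤ ∑ y : Fin K → V → Fin H, B * X * cc y := Finset.sum_le_sum (fun y _ => hmass' y)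
      _ = _ := by rw [← Finset.mul_sum]
  have hm2 : ∑ j, (∑ x, w j x) * ∑ y, u j y ≤ B * X * W := by
    have h1 : ∑ j, (∑ x, w j x) * ∑ y, u j y
        = ∑ y : Fin K → V → Fin H, ∑ x, ∑ j, u j y * w j x := by
      rw [Finset.sum_congr rfl (fun y _ => Finset.sum_comm), Finset.sum_comm]
      apply Finset.sum_congr rfl
      intro p _
      rw [mul_comm, Finset.sum_mul]
      apply Finset.sum_congr rfl
      intro y _
      rw [Finset.mul_sum]
    rw [h1]
    calc ∑ y : Fin K → V → Fin H, ∑ x, ∑ j, u j y * w j x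
        ≤ ∑ y : Fin K → V → Fin H, B * X * cc y := Finset.sum_le_sum (fun y _ => hmassu y)
      _ = _ := by rw [← Finset.mul_sum]
  have hs1 : ∑ p, ∑ y, |cp p y| + ∑ j, ∑ y, u j y ≤ T * W := by
    rw [Finset.sum_comm, Finset.sum_comm (s := (Finset.univ : Finset κ)),
      ← Finset.sum_add_distrib]
    calc ∑ y : Fin K → V → Fin H, (∑ p, |cp p y| + ∑ j, u j y)
        ≤ ∑ y : Fin K → V → Fin H, T * cc y := Finset.sum_le_sum (fun y _ => hsize' y)
      _ = _ := by rw [← Finset.mul_sum]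
  have hm1' := mul_le_mul_of_nonneg_left hm1 hfar0
  have hm2' := mul_le_mul_of_nonneg_left hm2 hfar0
  have hs1' := mul_le_mul_of_nonneg_left hs1 hρ0
  have hcardP : (Fintype.card (((Fin K × Fin K) × (V × V)) × κ) : ℝ)
      = (Fintype.card ((Fin K × Fin K) × (V × V)) : ℝ) * Fintype.card κ := by
    rw [Fintype.card_prod]; push_cast; rfl
  rw [hcardP] at hLtot
  have e : 2 * (B * farE K H m₀ (l * r)) * (X * W)
      + (2 * (Fintype.card ((Fin K × Fin K) × (V × V)) : ℝ) + 1) * Fintype.card κ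
        * (T * ((4 * H : ℝ) ^ K * tailB K H (Fintype.card V) l)) * (X * Y)
      + T * ((4 * H : ℝ) ^ K * (1 / (r ^ 2 * Fintype.card V) ^ D)) * (X * W)
      = farE K H m₀ (l * r) * (B * X * W) + farE K H m₀ (l * r) * (B * X * W)
        + ((Fintype.card ((Fin K × Fin K) × (V × V)) : ℝ) * Fintype.card κ * (X * (2 * T * θ))
        + Fintype.card κ * (X * (T * θ))) + ρ * (T * W) := by
    rw [hθ, hρ, ← hXq]; ring
  rw [e]
  have e2 : ρ * (∑ p, ∑ y, |cp p y| + ∑ j, ∑ y, u j y)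
      = ρ * ∑ p, ∑ y, |cp p y| + ρ * ∑ j, ∑ y, u j y := by ring
  rw [e2] at hs1'
  linarith

/-- The bound for a class of colourings. -/
theorem factor_avg (hH : 2 ≤ H) (hV : 1 ≤ Fintype.card V) {r l : ℝ} (hr : 0 < r)
    (hr1 : r ≤ 1) (hl : 0 ≤ l) {m₀ D : ℕ} (hD : D + m₀ ≤ H + 1) (hm₀ : 1 ≤ m₀) (hlr : l * r ≤ 1)
    (hsm : (1 + 2 * H * (l * r)) ^ K ≤ 2)
    (hrq : 1 ≤ r ^ 2 * Fintype.card V) {B T : ℝ} (hB0 : 0 ≤ B) (hT0 : 0 ≤ T) {κ : Type}
    [Fintype κ]
    (w : κ → (Fin K → V) → ℝ) (hw0 : ∀ j x, 0 ≤ w j x) (hw1 : ∀ j x, w j x ≤ 1)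
    (A 𝒴 : Finset (Fin K → V → Fin H)) (hsub : 𝒴 ⊆ A) {a : ℝ}
    (hrow : ∀ y ∈ A, ∑ x : Fin K → V, ell (comp y x) = a * (Fintype.card (Fin K → V) : ℝ))
    (hcol : ∀ x : Fin K → V, ∑ y ∈ A, ell (comp y x) = a * (A.card : ℝ))
    (v : (Fin K → V) → ℝ) (hv0 : ∀ x, 0 ≤ v x) (hv1 : ∀ x, v x ≤ 1)
    (lam : (Fin K × Fin K) × (V × V) → κ → (Fin K → V → Fin H) → ℝ)
    (hlam : ∀ e j, ∀ y ∈ 𝒴, lam e j y ≠ 0 → e.1.1 ≠ e.1.2 ∧ y e.1.1 e.2.1 = y e.1.2 e.2.2)
    (u : κ → (Fin K → V → Fin H) → ℝ) (hu : ∀ j, ∀ y ∈ 𝒴, 0 ≤ u j y)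
    (hfac : ∀ y ∈ 𝒴, ∀ x, ∑ e, ∑ j, lam e j y * (w j x * hit e x) = v x + ∑ j, u j y * w j x)
    (hmass : ∀ y ∈ 𝒴, ∑ x, ∑ e, ∑ j, |lam e j y| * (w j x * hit e x)
      ≤ B * (Fintype.card (Fin K → V) : ℝ))
    (hsize : ∀ y ∈ 𝒴, ∑ e, ∑ j, |lam e j y| + ∑ j, u j y ≤ T) :
    a * ((Fintype.card (Fin K → V) : ℝ) * 𝒴.card + A.card * ∑ x, v x
        - A.card * (Fintype.card (Fin K → V) : ℝ))
      ≤ (2 * (B * farE K H m₀ (l * r)) + farE K H m₀ (l * r))
        * ((Fintype.card (Fin K → V) : ℝ) * A.card)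
      + ((2 * (Fintype.card ((Fin K × Fin K) × (V × V)) : ℝ) + 1) * Fintype.card κ * T + 1)
        * ((4 * H : ℝ) ^ K * tailB K H (Fintype.card V) l)
        * ((Fintype.card (Fin K → V) : ℝ) * (Fintype.card (Fin K → V → Fin H) : ℝ))
      + (T + 1) * ((4 * H : ℝ) ^ K * (1 / (r ^ 2 * Fintype.card V) ^ D))
        * ((Fintype.card (Fin K → V) : ℝ) * A.card) := by
  classical
  set Y : ℝ := (Fintype.card (Fin K → V → Fin H) : ℝ) with hY
  set X : ℝ := (Fintype.card (Fin K → V) : ℝ) with hX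
  have hXq : X = (Fintype.card V : ℝ) ^ K := by
    rw [hX, Fintype.card_fun, Fintype.card_fin]; push_cast; rfl
  have hX0 : 0 ≤ X := by rw [hX]; positivity
  have hfar0 : 0 ≤ farE K H m₀ (l * r) := by unfold farE; positivity
  have htail0 : 0 ≤ tailB K H (Fintype.card V) l := by unfold tailB; positivity
  have hrqD : 0 < (r ^ 2 * (Fintype.card V : ℝ)) ^ D := by
    apply pow_pos
    exact lt_of_lt_of_le one_pos hrq
  let cc : (Fin K → V → Fin H) → ℝ := fun y => if y ∈ 𝒴 then 1 else 0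
  have hcc : ∑ y, cc y = 𝒴.card := by
    simp only [cc]
    rw [Finset.sum_ite_mem, Finset.univ_inter, Finset.sum_const, nsmul_eq_mul, mul_one]
  have h1 := factor_core (K := K) (H := H) (V := V) hH hV hr hr1 hl hD hm₀ hlr hsm hrq (B := B)
    (T := T) hT0 w hw0 hw1 cc (fun y => by simp only [cc]; split_ifs <;> norm_num)
    (fun y => by simp only [cc]; split_ifs <;> norm_num) v hv0
    (fun e j y => if y ∈ 𝒴 then lam e j y else 0)
    (by
      intro e j y hne
      by_cases hy : y ∈ 𝒴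
      · rw [if_pos hy] at hne
        exact hlam e j y hy hne
      · exact absurd (if_neg hy) hne)
    (fun j y => if y ∈ 𝒴 then u j y else 0)
    (by
      intro j y
      by_cases hy : y ∈ 𝒴
      · simp only [if_pos hy]; exact hu j y hy
      · simp only [if_neg hy]; exact le_rfl)
    (by
      intro y x
      by_cases hy : y ∈ 𝒴
      · simp only [cc, if_pos hy, one_mul]; exact hfac y hy x
      · simp only [cc, if_neg hy, zero_mul, Finset.sum_const_zero, add_zero])
    (by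
      intro y
      by_cases hy : y ∈ 𝒴
      · simp only [cc, if_pos hy, mul_one]; exact hmass y hy
      · simp only [cc, if_neg hy, mul_zero, abs_zero, zero_mul, Finset.sum_const_zero]
        exact le_rfl)
    (by
      intro y
      by_cases hy : y ∈ 𝒴
      · simp only [cc, if_pos hy, mul_one]; exact hsize y hy
      · simp only [cc, if_neg hy, mul_zero, abs_zero, Finset.sum_const_zero, add_zero]
        exact le_rfl)
  rw [hcc] at h1
  -- the pairing
  have h2 := pos_rank (K := K) (H := H) (V := V) (by omega) hV hr hl hD hm₀ hlr hsm hrq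
    (fun y => (if y ∈ A then (1 : ℝ) else 0) - cc y) (fun x => 1 - v x)
    (by
      intro y
      simp only [cc]
      by_cases hy : y ∈ 𝒴
      · rw [if_pos (hsub hy), if_pos hy]; norm_num
      · rw [if_neg hy]; split_ifs <;> norm_num)
    (fun x => by have := hv1 x; linarith)
    (fun x => by have := hv0 x; linarith) (U := 1)
    (by
      intro y
      simp only [cc]
      split_ifs <;> norm_num)
  have hA : ∑ y : Fin K → V → Fin H, (if y ∈ A then (1 : ℝ) else 0) = A.card := by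
    rw [Finset.sum_ite_mem, Finset.univ_inter, Finset.sum_const, nsmul_eq_mul, mul_one]
  have hdiff : ∑ y : Fin K → V → Fin H, ((if y ∈ A then (1 : ℝ) else 0) - cc y) ≤ A.card := by
    rw [Finset.sum_sub_distrib, hA, hcc]
    have : (0 : ℝ) ≤ 𝒴.card := by positivity
    linarith
  have hdiff0 : 0 ≤ ∑ y : Fin K → V → Fin H, ((if y ∈ A then (1 : ℝ) else 0) - cc y) := by
    apply Finset.sum_nonneg
    intro y _
    simp only [cc]
    by_cases hy : y ∈ 𝒴
    · rw [if_pos (hsub hy), if_pos hy]; norm_num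
    · rw [if_neg hy]; split_ifs <;> norm_num
  have hv' : ∑ x : Fin K → V, (1 - v x) ≤ X := by
    calc ∑ x : Fin K → V, (1 - v x) ≤ ∑ _x : Fin K → V, (1 : ℝ) := by
          apply Finset.sum_le_sum
          intro x _
          have := hv0 x
          linarith
      _ = X := by rw [Finset.sum_const, Finset.card_univ, nsmul_eq_mul, mul_one]
  have hv'0 : 0 ≤ ∑ x : Fin K → V, (1 - v x) :=
    Finset.sum_nonneg (fun x _ => by have := hv1 x; linarith)
  have e1 : ∑ y, ((if y ∈ A then (1 : ℝ) else 0) - cc y) * ∑ x, (1 - v x) * ell (comp y x)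
      = ∑ y, cc y * ∑ x, v x * ell (comp y x)
        - a * (X * 𝒴.card + A.card * ∑ x, v x - A.card * X) := by
    have e2 : ∀ y, ((if y ∈ A then (1 : ℝ) else 0) - cc y) * ∑ x, (1 - v x) * ell (comp y x)
        = (if y ∈ A then ∑ x, (1 - v x) * ell (comp y x) else 0)
          - cc y * ∑ x, ell (comp y x) + cc y * ∑ x, v x * ell (comp y x) := by
      intro y
      have e3 : ∑ x, (1 - v x) * ell (comp y x)
          = ∑ x, ell (comp y x) - ∑ x, v x * ell (comp y x) := by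
        rw [← Finset.sum_sub_distrib]
        exact Finset.sum_congr rfl (fun x _ => by ring)
      split_ifs
      · rw [e3]; ring
      · rw [e3]; ring
    rw [Finset.sum_congr rfl (fun y _ => e2 y), Finset.sum_add_distrib, Finset.sum_sub_distrib]
    have e4 : ∑ y, (if y ∈ A then ∑ x, (1 - v x) * ell (comp y x) else 0)
        = (X - ∑ x, v x) * (a * A.card) := by
      rw [Finset.sum_ite_mem, Finset.univ_inter, Finset.sum_comm]
      have e5 : ∀ x : Fin K → V, ∑ y ∈ A, (1 - v x) * ell (comp y x)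
          = (1 - v x) * (a * A.card) := by
        intro x
        rw [← Finset.mul_sum, hcol x]
      rw [Finset.sum_congr rfl (fun x _ => e5 x), ← Finset.sum_mul, Finset.sum_sub_distrib,
        Finset.sum_const, Finset.card_univ, nsmul_eq_mul, mul_one]
    have e5 : ∑ y, cc y * ∑ x, ell (comp y x) = 𝒴.card * (a * X) := by
      have e6 : ∀ y, cc y * ∑ x, ell (comp y x) = cc y * (a * X) := by
        intro y
        simp only [cc]
        by_cases hy : y ∈ 𝒴
        · rw [hrow y (hsub hy)]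
        · rw [if_neg hy, zero_mul, zero_mul]
      rw [Finset.sum_congr rfl (fun y _ => e6 y), ← Finset.sum_mul, hcc]
    rw [e4, e5]
    ring
  rw [e1] at h2
  -- the error
  set ρ : ℝ := (4 * H : ℝ) ^ K * (1 / (r ^ 2 * Fintype.card V) ^ D) with hρ
  have hρ0 : 0 ≤ ρ := by positivity
  set τ : ℝ := (4 * H : ℝ) ^ K * tailB K H (Fintype.card V) l with hτ
  have hτ0 : 0 ≤ τ := by positivity
  set f : ℝ := farE K H m₀ (l * r) with hf
  set s₁ : ℝ := ∑ x : Fin K → V, (1 - v x) with hs₁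
  set s₂ : ℝ := ∑ y : Fin K → V → Fin H, ((if y ∈ A then (1 : ℝ) else 0) - cc y) with hs₂
  have hY0 : 0 ≤ Y := by rw [hY]; positivity
  have e7 : s₁ * (f * s₂ + 1 * ((4 * H : ℝ) ^ K * (tailB K H (Fintype.card V) l * Y)))
      + (4 * H : ℝ) ^ K * s₂ * ((Fintype.card V : ℝ) ^ K / (r ^ 2 * Fintype.card V) ^ D)
      = f * (s₁ * s₂) + τ * (s₁ * Y) + ρ * (X * s₂) := by
    rw [hρ, hτ, hXq]; ring
  rw [e7] at h2
  have h3 : f * (s₁ * s₂) ≤ f * (X * A.card) :=
    mul_le_mul_of_nonneg_left (mul_le_mul hv' hdiff hdiff0 hX0) hfar0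
  have h4 : τ * (s₁ * Y) ≤ τ * (X * Y) :=
    mul_le_mul_of_nonneg_left (mul_le_mul_of_nonneg_right hv' hY0) hτ0
  have h5 : ρ * (X * s₂) ≤ ρ * (X * A.card) :=
    mul_le_mul_of_nonneg_left (mul_le_mul_of_nonneg_left hdiff hX0) hρ0
  have hYA : (𝒴.card : ℝ) ≤ A.card := by exact_mod_cast Finset.card_le_card hsub
  have h6 : 2 * (B * f) * (X * 𝒴.card) ≤ 2 * (B * f) * (X * A.card) :=
    mul_le_mul_of_nonneg_left (mul_le_mul_of_nonneg_left hYA hX0) (by positivity)
  have h7 : T * ρ * (X * 𝒴.card) ≤ T * ρ * (X * A.card) :=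
    mul_le_mul_of_nonneg_left (mul_le_mul_of_nonneg_left hYA hX0) (by positivity)
  have e8 : (2 * (Fintype.card ((Fin K × Fin K) × (V × V)) : ℝ) + 1) * Fintype.card κ
        * (T * τ) * (X * Y) + τ * (X * Y)
      = ((2 * (Fintype.card ((Fin K × Fin K) × (V × V)) : ℝ) + 1) * Fintype.card κ * T + 1)
        * τ * (X * Y) := by ring
  have e9 : (T + 1) * ρ * (X * A.card) = T * ρ * (X * A.card) + ρ * (X * A.card) := by ring
  have e10 : (2 * (B * f) + f) * (X * A.card)
      = 2 * (B * f) * (X * A.card) + f * (X * A.card) := by ring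
  rw [e9, e10, ← e8]
  linarith

end Pool.Agent.TH689.RX
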