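import Mathlib
import Pool.Agent.TH689.GXLib
import Pool.Agent.TH689.RXRank

/-!
Static proofs for instances whose constraints are covered by collisions of colours.
-/

set_option autoImplicit false
set_option linter.unusedSectionVars false

namespace Pool.Agent.TH689.GX

open Finset Pool.Agent.TH689.LX

variable {X 𝒞 : Type} {K H : ℕ} {V : Type} [Fintype V] [DecidableEq V]

/-- the constraint `C` is covered by the collision `e` of the colouring `y` -/
def Cov (Viol : 𝒞 → X → Prop) (big : (Fin K → V) → X) (y : Fin K → V → Fin H) (C : 𝒞)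
    (e : (Fin K × Fin K) × (V × V)) : Prop :=
  e.1.1 ≠ e.1.2 ∧ y e.1.1 e.2.1 = y e.1.2 e.2.2 ∧ ∀ x, Viol C (big x) → hit e x = 1

open Classical in
/-- the coefficients of the collisions -/
noncomputable def lamc (Viol : 𝒞 → X → Prop) (big : (Fin K → V) → X)
    (F : Finset 𝒞) (y : Fin K → V → Fin H) {J : Type} (ν : 𝒞 → J → ℝ)
    (e : (Fin K × Fin K) × (V × V)) : J ⊕ (J × 𝒞) → ℝ :=
  Sum.elim (fun _ => 0) (fun p =>
    if h : p.2 ∈ F ∧ ∃ e, Cov Viol big y p.2 e then (if e = h.2.choose then ν p.2 p.1 else 0)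
    else 0)

/-- the weights -/
noncomputable def wc (Viol : 𝒞 → X → Prop) (big : (Fin K → V) → X) {J : Type}
    (G : J → X → ℝ) : J ⊕ (J × 𝒞) → (Fin K → V) → ℝ :=
  Sum.elim (fun j x => G j (big x)) (fun p x => G p.1 (big x) * isBad Viol p.2 (big x))

lemma wc_bd (Viol : 𝒞 → X → Prop) (big : (Fin K → V) → X) {J : Type} {G : J → X → ℝ}
    (hG0 : ∀ j x, 0 ≤ G j x) (hG1 : ∀ j x, G j x ≤ 1) (p : J ⊕ (J × 𝒞)) (x : Fin K → V) :
    0 ≤ wc Viol big G p x ∧ wc Viol big G p x ≤ 1 := by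
  rcases p with j | p
  · exact ⟨hG0 _ _, hG1 _ _⟩
  · exact ⟨mul_nonneg (hG0 _ _) (isBad_bd _ _ _).1,
      mul_le_one₀ (hG1 _ _) (isBad_bd _ _ _).1 (isBad_bd _ _ _).2⟩

lemma lamc_ne (Viol : 𝒞 → X → Prop) (big : (Fin K → V) → X) (F : Finset 𝒞)
    (y : Fin K → V → Fin H) {J : Type} (ν : 𝒞 → J → ℝ) (e : (Fin K × Fin K) × (V × V))
    (p : J ⊕ (J × 𝒞)) (h : lamc Viol big F y ν e p ≠ 0) :
    e.1.1 ≠ e.1.2 ∧ y e.1.1 e.2.1 = y e.1.2 e.2.2 := by
  classical
  rcases p with j | p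
  · exact absurd rfl h
  · simp only [lamc, Sum.elim_inr] at h
    split_ifs at h with h1 h2
    · rw [h2]
      exact ⟨h1.2.choose_spec.1, h1.2.choose_spec.2.1⟩
    · exact absurd rfl h
    · exact absurd rfl h

lemma abs_lamc (Viol : 𝒞 → X → Prop) (big : (Fin K → V) → X) (F : Finset 𝒞)
    (y : Fin K → V → Fin H) {J : Type} (ν : 𝒞 → J → ℝ) (e : (Fin K × Fin K) × (V × V))
    (p : J ⊕ (J × 𝒞)) :
    |lamc Viol big F y ν e p| = lamc Viol big F y (fun C j => |ν C j|) e p := by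
  classical
  rcases p with j | p
  · simp only [lamc, Sum.elim_inl, abs_zero]
  · simp only [lamc, Sum.elim_inr]
    split_ifs
    · rfl
    · exact abs_zero
    · exact abs_zero

/-- the sum over the collisions and the indices -/
lemma sum_lamc [Fintype 𝒞] (Viol : 𝒞 → X → Prop) (big : (Fin K → V) → X) (F : Finset 𝒞)
    (y : Fin K → V → Fin H)
    (hcov : ∀ C ∈ F, (∃ e, Cov Viol big y C e) ∨ ∀ x, ¬ Viol C (big x))
    {J : Type} [Fintype J] (ν : 𝒞 → J → ℝ) (G : J → X → ℝ) (x : Fin K → V) :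
    ∑ e, ∑ p, lamc Viol big F y ν e p * (wc Viol big G p x * hit e x)
      = ∑ C ∈ F, ∑ j, ν C j * (G j (big x) * isBad Viol C (big x)) := by
  classical
  rw [Finset.sum_comm, Fintype.sum_sum_type, Fintype.sum_prod_type]
  have h1 : ∑ j : J, ∑ e, lamc Viol big F y ν e (Sum.inl j) * (wc Viol big G (Sum.inl j) x * hit e x)
      = 0 := by
    apply Finset.sum_eq_zero
    intro j _
    apply Finset.sum_eq_zero
    intro e _
    simp only [lamc, Sum.elim_inl, zero_mul]
  have h2 : ∀ (j : J) (C : 𝒞), ∑ e, lamc Viol big F y ν e (Sum.inr (j, C))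
      * (wc Viol big G (Sum.inr (j, C)) x * hit e x)
      = if C ∈ F then ν C j * (G j (big x) * isBad Viol C (big x)) else 0 := by
    intro j C
    by_cases hC : C ∈ F
    · rw [if_pos hC]
      by_cases he : ∃ e, Cov Viol big y C e
      · have h3 : C ∈ F ∧ ∃ e, Cov Viol big y C e := ⟨hC, he⟩
        simp only [lamc, Sum.elim_inr, dif_pos h3, wc]
        rw [Finset.sum_eq_single h3.2.choose]
        · rw [if_pos rfl]
          by_cases hv : Viol C (big x)
          · rw [h3.2.choose_spec.2.2 x hv, mul_one]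
          · have h4 : isBad Viol C (big x) = 0 := if_neg hv
            rw [h4, mul_zero, zero_mul]
        · intro e _ hne
          rw [if_neg hne, zero_mul]
        · intro h
          exact absurd (Finset.mem_univ _) h
      · have h3 : ¬ (C ∈ F ∧ ∃ e, Cov Viol big y C e) := fun h => he h.2
        have h5 : isBad Viol C (big x) = 0 := by
          rcases hcov C hC with h | h
          · exact absurd h he
          · exact if_neg (h x)
        simp only [lamc, Sum.elim_inr, dif_neg h3, zero_mul, Finset.sum_const_zero, h5, mul_zero]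
    · rw [if_neg hC]
      have h3 : ¬ (C ∈ F ∧ ∃ e, Cov Viol big y C e) := fun h => hC h.1
      simp only [lamc, Sum.elim_inr, dif_neg h3, zero_mul, Finset.sum_const_zero]
  rw [h1, zero_add, Finset.sum_congr rfl (fun j _ => Finset.sum_congr rfl (fun C _ => h2 j C)),
    Finset.sum_comm]
  have h3 : ∀ C : 𝒞, ∑ j : J, (if C ∈ F then ν C j * (G j (big x) * isBad Viol C (big x)) else 0)
      = if C ∈ F then ∑ j, ν C j * (G j (big x) * isBad Viol C (big x)) else 0 := by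
    intro C
    split_ifs
    · rfl
    · exact Finset.sum_const_zero
  rw [Finset.sum_congr rfl (fun C _ => h3 C), Finset.sum_ite_mem, Finset.univ_inter]

lemma sum_abs_lamc [Fintype 𝒞] (Viol : 𝒞 → X → Prop) (big : (Fin K → V) → X) (F : Finset 𝒞)
    (y : Fin K → V → Fin H) {J : Type} [Fintype J] (ν : 𝒞 → J → ℝ) :
    ∑ e, ∑ p, |lamc Viol big F y ν e p| ≤ ∑ C ∈ F, ∑ j, |ν C j| := by
  classical
  rw [Finset.sum_comm, Fintype.sum_sum_type, Fintype.sum_prod_type]
  have h1 : ∑ j : J, ∑ e, |lamc Viol big F y ν e (Sum.inl j)| = 0 := by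
    apply Finset.sum_eq_zero
    intro j _
    apply Finset.sum_eq_zero
    intro e _
    simp only [lamc, Sum.elim_inl, abs_zero]
  have h2 : ∀ (j : J) (C : 𝒞), ∑ e, |lamc Viol big F y ν e (Sum.inr (j, C))|
      ≤ if C ∈ F then |ν C j| else 0 := by
    intro j C
    by_cases h3 : C ∈ F ∧ ∃ e, Cov Viol big y C e
    · rw [if_pos h3.1]
      simp only [lamc, Sum.elim_inr, dif_pos h3]
      rw [Finset.sum_eq_single h3.2.choose]
      · rw [if_pos rfl]
      · intro e _ hne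
        rw [if_neg hne, abs_zero]
      · intro h
        exact absurd (Finset.mem_univ _) h
    · simp only [lamc, Sum.elim_inr, dif_neg h3, abs_zero, Finset.sum_const_zero]
      split_ifs
      · exact abs_nonneg _
      · exact le_rfl
  rw [h1, zero_add]
  calc ∑ j : J, ∑ C, ∑ e, |lamc Viol big F y ν e (Sum.inr (j, C))|
      ≤ ∑ j : J, ∑ C, (if C ∈ F then |ν C j| else 0) :=
        Finset.sum_le_sum (fun j _ => Finset.sum_le_sum (fun C _ => h2 j C))
    _ = ∑ C ∈ F, ∑ j, |ν C j| := by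
        rw [Finset.sum_comm]
        have h3 : ∀ C : 𝒞, ∑ j : J, (if C ∈ F then |ν C j| else 0)
            = if C ∈ F then ∑ j, |ν C j| else 0 := by
          intro C
          split_ifs
          · rfl
          · exact Finset.sum_const_zero
        rw [Finset.sum_congr rfl (fun C _ => h3 C), Finset.sum_ite_mem, Finset.univ_inter]

/-- The finite form of the lower bound. -/
theorem cover_avg [Fintype 𝒞] (hH : 2 ≤ H) (hV : 1 ≤ Fintype.card V) {r l : ℝ} (hr : 0 < r)
    (hr1 : r ≤ 1) (hl : 0 ≤ l) {m₀ D : ℕ} (hD : D + m₀ ≤ H + 1) (hm₀ : 1 ≤ m₀) (hlr : l * r ≤ 1)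
    (hsm : (1 + 2 * H * (l * r)) ^ K ≤ 2)
    (hrq : 1 ≤ r ^ 2 * Fintype.card V) {B T : ℝ} (hB0 : 0 ≤ B) (hT0 : 0 ≤ T) {J : Type}
    [Fintype J] (Viol : 𝒞 → X → Prop) (big : (Fin K → V) → X) (G : J → X → ℝ)
    (hG0 : ∀ j x, 0 ≤ G j x) (hG1 : ∀ j x, G j x ≤ 1)
    (F : (Fin K → V → Fin H) → Finset 𝒞)
    (hcov : ∀ y, ∀ C ∈ F y, (∃ e, Cov Viol big y C e) ∨ ∀ x, ¬ Viol C (big x))
    (A 𝒴 : Finset (Fin K → V → Fin H)) (hsub : 𝒴 ⊆ A) {a : ℝ}
    (hrow : ∀ y ∈ A, ∑ x : Fin K → V, ell (comp y x) = a * (Fintype.card (Fin K → V) : ℝ))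
    (hcol : ∀ x : Fin K → V, ∑ y ∈ A, ell (comp y x) = a * (A.card : ℝ))
    (v : X → ℝ) (hv0 : ∀ x, 0 ≤ v x) (hv1 : ∀ x, v x ≤ 1)
    (hrep : ∀ y ∈ 𝒴, ∃ (μ : 𝒞 → J → ℝ) (u : J → ℝ), (∀ j, 0 ≤ u j) ∧
      (∀ x, ∑ C ∈ F y, ∑ j, μ C j * (G j x * isBad Viol C x) = v x + ∑ j, u j * G j x) ∧
      (∀ x, ∑ C ∈ F y, ∑ j, |μ C j| * (G j x * isBad Viol C x) ≤ B) ∧
      ∑ C ∈ F y, ∑ j, |μ C j| + ∑ j, u j ≤ T) :
    a * ((𝒴.card : ℝ) - A.card
        * ((∑ x : Fin K → V, (1 - v (big x))) / (Fintype.card (Fin K → V) : ℝ)))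
      ≤ (2 * (B * farE K H m₀ (l * r)) + farE K H m₀ (l * r)) * A.card
      + ((2 * (Fintype.card ((Fin K × Fin K) × (V × V)) : ℝ) + 1)
          * Fintype.card (J ⊕ (J × 𝒞)) * T + 1)
        * ((4 * H : ℝ) ^ K * tailB K H (Fintype.card V) l)
        * (Fintype.card (Fin K → V → Fin H) : ℝ)
      + (T + 1) * ((4 * H : ℝ) ^ K * (1 / (r ^ 2 * Fintype.card V) ^ D)) * A.card := by
  classical
  have hrep' : ∀ y, ∃ (μ : 𝒞 → J → ℝ) (u : J → ℝ), y ∈ 𝒴 → (∀ j, 0 ≤ u j) ∧
      (∀ x, ∑ C ∈ F y, ∑ j, μ C j * (G j x * isBad Viol C x) = v x + ∑ j, u j * G j x) ∧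
      (∀ x, ∑ C ∈ F y, ∑ j, |μ C j| * (G j x * isBad Viol C x) ≤ B) ∧
      ∑ C ∈ F y, ∑ j, |μ C j| + ∑ j, u j ≤ T := by
    intro y
    by_cases hy : y ∈ 𝒴
    · obtain ⟨μ, u, h⟩ := hrep y hy
      exact ⟨μ, u, fun _ => h⟩
    · exact ⟨fun _ _ => 0, fun _ => 0, fun h => absurd h hy⟩
  choose μ u hall using hrep'
  have hmain := RX.factor_avg (K := K) (H := H) (V := V) hH hV hr hr1 hl hD hm₀
    hlr hsm hrq (B := B) (T := T) hB0 hT0 (κ := J ⊕ (J × 𝒞))
    (wc Viol big G) (fun p x => (wc_bd Viol big hG0 hG1 p x).1)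
    (fun p x => (wc_bd Viol big hG0 hG1 p x).2) A 𝒴 hsub hrow hcol
    (fun x => v (big x)) (fun x => hv0 _) (fun x => hv1 _)
    (fun e p y => lamc Viol big (F y) y (μ y) e p)
    (fun e p y _ hne => lamc_ne Viol big (F y) y (μ y) e p hne)
    (fun p y => Sum.elim (u y) (fun _ => 0) p)
    (by
      intro p y hy
      rcases p with j | p
      · exact (hall y hy).1 j
      · exact le_rfl)
    (by
      intro y hy x
      rw [sum_lamc Viol big (F y) y (hcov y) (μ y) G x, (hall y hy).2.1 (big x),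
        Fintype.sum_sum_type]
      simp only [Sum.elim_inl, Sum.elim_inr, zero_mul, Finset.sum_const_zero, add_zero, wc])
    (by
      intro y hy
      simp only [abs_lamc]
      have h1 : ∀ x, ∑ e, ∑ p, lamc Viol big (F y) y (fun C j => |μ y C j|) e p
          * (wc Viol big G p x * hit e x) ≤ B := by
        intro x
        rw [sum_lamc Viol big (F y) y (hcov y) (fun C j => |μ y C j|) G x]
        exact (hall y hy).2.2.1 (big x)
      calc ∑ x, ∑ e, ∑ p, lamc Viol big (F y) y (fun C j => |μ y C j|) e p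
            * (wc Viol big G p x * hit e x) ≤ ∑ _x : Fin K → V, B :=
            Finset.sum_le_sum (fun x _ => h1 x)
        _ = B * (Fintype.card (Fin K → V) : ℝ) := by
            rw [Finset.sum_const, Finset.card_univ, nsmul_eq_mul, mul_comm])
    (by
      intro y hy
      refine le_trans ?_ (hall y hy).2.2.2
      rw [Fintype.sum_sum_type]
      simp only [Sum.elim_inl, Sum.elim_inr, Finset.sum_const_zero, add_zero]
      have := sum_abs_lamc Viol big (F y) y (μ y)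
      linarith)
  obtain ⟨v₀⟩ : Nonempty V := Fintype.card_pos_iff.1 hV
  have hneX : Nonempty (Fin K → V) := ⟨fun _ => v₀⟩
  have hXpos : (0 : ℝ) < (Fintype.card (Fin K → V) : ℝ) := by exact_mod_cast Fintype.card_pos
  set Z : ℝ := (Fintype.card (Fin K → V) : ℝ) with hZ
  have e3 : ∑ x : Fin K → V, (1 - v (big x)) = Z - ∑ x, v (big x) := by
    rw [Finset.sum_sub_distrib, Finset.sum_const, Finset.card_univ, nsmul_eq_mul, mul_one]
  rw [e3]
  have e4 : a * (Z * 𝒴.card + A.card * ∑ x, v (big x) - A.card * Z)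
      = Z * (a * ((𝒴.card : ℝ) - A.card * ((Z - ∑ x, v (big x)) / Z))) := by
    field_simp
    ring
  rw [e4] at hmain
  refine le_of_mul_le_mul_left (hmain.trans (le_of_eq ?_)) hXpos
  ring

end Pool.Agent.TH689.GX
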