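import Mathlib
import Pool.Agent.TH689.GXFact

/-!
The graph of a colouring: it has no clique with `h + 1` vertices, and every pair of vertices which
are not adjacent is covered by a collision of colours.
-/

set_option autoImplicit false
set_option linter.unusedSectionVars false

namespace Pool.Agent.TH689.GX

open Finset Pool.Agent.TH689.LX

variable {k N L q H : ℕ}

/-- the vertex number of a block -/
def enc (hq : q ^ L ≤ N) (a : Fin L → Fin q) : Fin N := Fin.castLE hq (finFunctionFinEquiv a)

lemma enc_inj (hq : q ^ L ≤ N) : Function.Injective (enc hq) := by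
  intro a b h
  apply finFunctionFinEquiv.injective
  exact Fin.castLE_injective hq h

/-- the choice of vertices which is given by all blocks -/
def big (k : ℕ) (hq : q ^ L ≤ N) (x : Fin (k * L) → Fin q) : Fin k → Fin N :=
  fun i => enc hq (fun t => x (finProdFinEquiv (i, t)))

lemma big_inj (hq : q ^ L ≤ N) : Function.Injective (big k hq) := by
  intro x y h
  funext z
  obtain ⟨⟨i, t⟩, rfl⟩ := finProdFinEquiv.surjective z
  exact congrFun (enc_inj hq (congrFun h i)) t

/-- the colour of a coordinate of a block -/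
def col (y : Fin (k * L) → Fin q → Fin H) (i : Fin k) (a : Fin L → Fin q) (t : Fin L) : Fin H :=
  y (finProdFinEquiv (i, t)) (a t)

/-- the graph of a colouring -/
def gr (hq : q ^ L ≤ N) (y : Fin (k * L) → Fin q → Fin H) : SimpleGraph (Vtx k N) where
  Adj u v := u.1 ≠ v.1 ∧ ∃ a b : Fin L → Fin q, u.2 = enc hq a ∧ v.2 = enc hq b ∧
    Function.Injective (col y u.1 a) ∧ Function.Injective (col y v.1 b) ∧
    ∀ t t', col y u.1 a t ≠ col y v.1 b t'
  symm := ⟨by
    rintro u v ⟨h1, a, b, ha, hb, h2, h3, h4⟩
    exact ⟨h1.symm, b, a, hb, ha, h3, h2, fun t t' h => h4 t' t h.symm⟩⟩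
  loopless := ⟨fun u h => h.1 rfl⟩

/-- there is no large clique -/
lemma gr_cliqueFree (hq : q ^ L ≤ N) (y : Fin (k * L) → Fin q → Fin H) {h : ℕ} (hh : 1 ≤ h)
    (hH : H < (h + 1) * L) : (gr hq y).CliqueFree (h + 1) := by
  classical
  intro S hS
  have hcl := hS.isClique
  have hex : ∀ u : {u // u ∈ S}, ∃ a : Fin L → Fin q, u.1.2 = enc hq a ∧
      Function.Injective (col y u.1.1 a) := by
    intro u
    have hc : 1 < S.card := by rw [hS.card_eq]; omega
    obtain ⟨v, hv, hne⟩ := Finset.exists_mem_ne hc u.1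
    obtain ⟨_, a, b, ha, _, hi, _, _⟩ := hcl u.2 hv (Ne.symm hne)
    exact ⟨a, ha, hi⟩
  choose a ha hai using hex
  have hinj : Function.Injective (fun p : {u // u ∈ S} × Fin L => col y p.1.1.1 (a p.1) p.2) := by
    rintro ⟨u, t⟩ ⟨v, t'⟩ huv
    simp only at huv
    by_cases hne : u = v
    · subst hne
      rw [hai u huv]
    · exfalso
      have hne' : u.1 ≠ v.1 := fun h => hne (Subtype.ext h)
      obtain ⟨_, a', b', ha', hb', _, _, h4⟩ := hcl u.2 v.2 hne'
      have e1 : a u = a' := enc_inj hq ((ha u).symm.trans ha')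
      have e2 : a v = b' := enc_inj hq ((ha v).symm.trans hb')
      rw [e1, e2] at huv
      exact h4 t t' huv
  have hcard := Fintype.card_le_of_injective _ hinj
  rw [Fintype.card_prod, Fintype.card_coe, hS.card_eq, Fintype.card_fin, Fintype.card_fin] at hcard
  omega

/-- pairs which are not adjacent are covered -/
lemma gr_cov (hq : q ^ L ≤ N) (y : Fin (k * L) → Fin q → Fin H) (C : Vtx k N × Vtx k N)
    (hC : C ∈ nonEdges (gr hq y)) :
    (∃ e, Cov Both (big k hq) y C e) ∨ ∀ x, ¬ Both C (big k hq x) := by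
  classical
  obtain ⟨u, v⟩ := C
  unfold nonEdges at hC
  rw [Finset.mem_filter] at hC
  obtain ⟨_, hlt, hadj⟩ := hC
  simp only at hlt hadj
  by_cases hab : ∃ a b : Fin L → Fin q, u.2 = enc hq a ∧ v.2 = enc hq b
  · left
    obtain ⟨a, b, ha, hb⟩ := hab
    have hboth : ∀ x, Both (u, v) (big k hq x) →
        (∀ t, x (finProdFinEquiv (u.1, t)) = a t) ∧ ∀ t, x (finProdFinEquiv (v.1, t)) = b t := by
      intro x hx
      have h1 : (fun t => x (finProdFinEquiv (u.1, t))) = a := enc_inj hq (hx.1.trans ha)
      have h2 : (fun t => x (finProdFinEquiv (v.1, t))) = b := enc_inj hq (hx.2.trans hb)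
      exact ⟨fun t => congrFun h1 t, fun t => congrFun h2 t⟩
    by_cases h1 : Function.Injective (col y u.1 a)
    · by_cases h2 : Function.Injective (col y v.1 b)
      · have h3 : ¬ ∀ t t', col y u.1 a t ≠ col y v.1 b t' := by
          intro h3
          exact hadj ⟨hlt.ne, a, b, ha, hb, h1, h2, h3⟩
        push Not at h3
        obtain ⟨t, t', htt⟩ := h3
        refine ⟨((finProdFinEquiv (u.1, t), finProdFinEquiv (v.1, t')), (a t, b t')), ?_, htt, ?_⟩
        · intro h
          have := congrArg Prod.fst (finProdFinEquiv.injective h)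
          exact hlt.ne this
        · intro x hx
          obtain ⟨h5, h6⟩ := hboth x hx
          exact if_pos ⟨h5 t, h6 t'⟩
      · unfold Function.Injective at h2
        push Not at h2
        obtain ⟨t, t', htt, hne⟩ := h2
        refine ⟨((finProdFinEquiv (v.1, t), finProdFinEquiv (v.1, t')), (b t, b t')), ?_, htt, ?_⟩
        · intro h
          exact hne (congrArg Prod.snd (finProdFinEquiv.injective h))
        · intro x hx
          obtain ⟨h5, h6⟩ := hboth x hx
          exact if_pos ⟨h6 t, h6 t'⟩
    · unfold Function.Injective at h1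
      push Not at h1
      obtain ⟨t, t', htt, hne⟩ := h1
      refine ⟨((finProdFinEquiv (u.1, t), finProdFinEquiv (u.1, t')), (a t, a t')), ?_, htt, ?_⟩
      · intro h
        exact hne (congrArg Prod.snd (finProdFinEquiv.injective h))
      · intro x hx
        obtain ⟨h5, h6⟩ := hboth x hx
        exact if_pos ⟨h5 t, h5 t'⟩
  · right
    intro x hx
    apply hab
    exact ⟨_, _, hx.1.symm, hx.2.symm⟩

/-- a choice of vertices contains few pairs which are not adjacent -/
lemma violated_le (G : SimpleGraph (Vtx k N)) (x : Fin k → Fin N) :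
    violated Both (nonEdges G) x ≤ k ^ 2 := by
  classical
  unfold violated
  have h1 : ((nonEdges G).filter fun C => Both C x).card
      ≤ (Finset.univ : Finset (Fin k × Fin k)).card := by
    apply Finset.card_le_card_of_injOn (fun C => (C.1.1, C.2.1)) (fun C _ => Finset.mem_univ _)
    intro C hC C' hC' h
    have h2 : Both C x := (Finset.mem_filter.1 hC).2
    have h3 : Both C' x := (Finset.mem_filter.1 hC').2
    simp only [Prod.mk.injEq] at h
    obtain ⟨h4, h5⟩ := h
    apply Prod.ext
    · apply Prod.ext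
      · exact h4
      · rw [← h2.1, ← h3.1, h4]
    · apply Prod.ext
      · exact h5
      · rw [← h2.2, ← h3.2, h5]
  rw [Finset.card_univ, Fintype.card_prod, Fintype.card_fin] at h1
  rw [pow_two]
  exact h1

lemma card_nonEdges_le (G : SimpleGraph (Vtx k N)) : (nonEdges G).card ≤ (k * N) ^ 2 := by
  classical
  have h1 := Finset.card_le_univ (nonEdges G)
  rw [Fintype.card_prod, Fintype.card_prod, Fintype.card_fin, Fintype.card_fin] at h1
  rw [pow_two]
  exact h1

/-- the wrong choices on the blocks -/
lemma sum_big_le {K : ℕ} {bg : (Fin K → Fin q) → Fin k → Fin N} (hbg : Function.Injective bg)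
    (v : (Fin k → Fin N) → ℝ) (hv1 : ∀ x, v x ≤ 1) :
    ∑ x : Fin K → Fin q, (1 - v (bg x)) ≤ ∑ x, (1 - v x) := by
  classical
  have h1 : ∑ x : Fin K → Fin q, (1 - v (bg x))
      = ∑ x ∈ Finset.univ.map ⟨bg, hbg⟩, (1 - v x) := by
    rw [Finset.sum_map]
    rfl
  rw [h1]
  apply Finset.sum_le_sum_of_subset_of_nonneg (Finset.subset_univ _)
  intro x _ _
  have := hv1 x
  linarith

end Pool.Agent.TH689.GX
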