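import Mathlib
import Pool.Agent.TH689.GXGraph

/-!
Numerical estimates for the lower bound for cliques.
-/

set_option autoImplicit false

namespace Pool.Agent.TH689.GX

open Finset Pool.Agent.TH689.LX

lemma card_idx {k N p a s r D : ℕ} (hN : (N : ℝ) ^ k ≤ 2 ^ p) (ha : (2 : ℝ) ^ a ≤ 2 ^ p)
    (hs : (2 : ℝ) ^ a * (s + r * (k * N) ^ 2) ≤ 2 ^ p) :
    (Fintype.card (Idx (Fin k → Fin N) (Vtx k N × Vtx k N) p a s r D) : ℝ)
      ≤ 4 * (2 ^ p * 2 ^ ((8 * p + 2) * (D + 2))) := by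
  have h1 : Fintype.card (Idx (Fin k → Fin N) (Vtx k N × Vtx k N) p a s r D)
      = 2 ^ a + (N ^ k + (s + (k * N) ^ 2 * r) * 2 ^ a * (netM p D + 1)) := by
    simp only [Idx, Con0, Vtx, Fintype.card_prod, Fintype.card_fun, Fintype.card_sum,
      Fintype.card_fin, Fintype.card_bool]
    ring
  have h2 : (netM p D : ℝ) = 2 ^ ((8 * p + 2) * (D + 2)) := by
    unfold netM
    push_cast
    rw [← pow_mul]
  rw [h1]
  push_cast
  rw [h2]
  set Z : ℝ := 2 ^ ((8 * p + 2) * (D + 2)) with hZ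
  have hZ1 : 1 ≤ Z := one_le_pow₀ (by norm_num)
  set P : ℝ := 2 ^ p with hP
  have hP0 : 0 < P := by positivity
  have h3 : ((s : ℝ) + (k * N) ^ 2 * r) * 2 ^ a * (Z + 1) ≤ P * (Z + 1) := by
    apply mul_le_mul_of_nonneg_right _ (by linarith)
    refine le_trans (le_of_eq ?_) hs
    ring
  have h4 : P ≤ P * Z := le_mul_of_one_le_right hP0.le hZ1
  have h5 : P * (Z + 1) = P * Z + P := by ring
  linarith

lemma one_add_pow_le {K : ℕ} {t : ℝ} (ht : 0 ≤ t) (hK : K * t ≤ 1 / 2) : (1 + t) ^ K ≤ 2 := by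
  have h1 : (1 + t) ^ K ≤ Real.exp (K * t) := by
    rw [Real.exp_nat_mul]
    apply pow_le_pow_left₀ (by linarith)
    have := Real.add_one_le_exp t
    linarith
  have h2 : Real.exp (K * t) ≤ Real.exp (1 / 2) := Real.exp_le_exp.2 hK
  have h3 : Real.exp (1 / 2) ≤ 2 := by
    have h4 : Real.exp (1 / 2) ^ 2 ≤ 2 ^ 2 := by
      rw [← Real.exp_nat_mul]
      have h5 : ((2 : ℕ) : ℝ) * (1 / 2) = 1 := by norm_num
      rw [h5]
      have := Real.exp_one_lt_d9
      linarith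
    exact (pow_le_pow_iff_left₀ (Real.exp_pos _).le (by norm_num) (by norm_num)).1 h4
  linarith

/-- a product of small factors -/
lemma one_add_pow_le' {K : ℕ} {t : ℝ} (ht : 0 ≤ t) (hK : K * t ≤ 1) :
    (1 + t) ^ K ≤ 1 + 2 * (K * t) := by
  have h1 : (1 + t) ^ K ≤ Real.exp (K * t) := by
    rw [Real.exp_nat_mul]
    apply pow_le_pow_left₀ (by linarith)
    have := Real.add_one_le_exp t
    linarith
  have h0 : 0 ≤ K * t := by positivity
  have h2 : |Real.exp (K * t) - 1 - K * t| ≤ (K * t) ^ 2 :=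
    Real.abs_exp_sub_one_sub_id_le (by rw [abs_of_nonneg h0]; exact hK)
  have h3 := (abs_le.1 h2).2
  have h4 : (K * t) ^ 2 ≤ K * t := by
    rw [pow_two]
    exact mul_le_of_le_one_left h0 hK
  linarith

/-- the errors of the far part -/
lemma num_far {K H k : ℕ} {x : ℝ} (hx : 1 ≤ x) (h1 : 4 * (k : ℝ) ^ 2 + 1 ≤ x)
    (h2 : 2 ^ K * (4 * H : ℝ) ^ K ≤ x) :
    2 * (2 * (k : ℝ) ^ 2 * x * farE K H 1 (x ^ 6)⁻¹) + farE K H 1 (x ^ 6)⁻¹ ≤ (x ^ 3)⁻¹ := by
  unfold farE
  rw [pow_one]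
  set C : ℝ := 2 ^ K * (4 * H : ℝ) ^ K with hC
  have hC0 : 0 ≤ C := by positivity
  have hx0 : 0 < x := by linarith
  have e : 2 * (2 * (k : ℝ) ^ 2 * x * (C * (x ^ 6)⁻¹)) + C * (x ^ 6)⁻¹
      = (4 * k ^ 2 * x + 1) * C * (x ^ 6)⁻¹ := by ring
  rw [e]
  have h3 : 4 * (k : ℝ) ^ 2 * x + 1 ≤ x * x := by
    have h4 : (4 * (k : ℝ) ^ 2 + 1) * x ≤ x * x := mul_le_mul_of_nonneg_right h1 hx0.le
    linarith
  calc (4 * (k : ℝ) ^ 2 * x + 1) * C * (x ^ 6)⁻¹ ≤ (x * x) * x * (x ^ 6)⁻¹ := by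
        apply mul_le_mul_of_nonneg_right _ (by positivity)
        exact mul_le_mul h3 h2 hC0 (by positivity)
    _ = (x ^ 3)⁻¹ := by
        field_simp

/-- the errors of the tails -/
lemma num_tail {K H q : ℕ} {x A1 A2 T Y : ℝ} (hx : 40 ≤ x) (hK : (K : ℝ) ≤ x)
    (hKH : ((K * H : ℕ) : ℝ) ≤ x) (hq : (q : ℝ) ≤ Real.exp x)
    (hA1 : A1 ≤ Real.exp (3 * x)) (hA2 : A2 ≤ Real.exp (2 + x + (8 * x + 2) * (x + 2) + 3 * x))
    (hT0 : 0 ≤ T) (hT : T ≤ Real.exp (3 * x)) (hA20 : 0 ≤ A2)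
    (h4 : (4 * H : ℝ) ^ K ≤ x) (h5 : 2 ^ K * (H : ℝ) ^ K * (2 * (K * (H : ℝ) ^ K)) ≤ x)
    (h6 : (2 : ℝ) ^ (K * H) ≤ x) (hY0 : 0 ≤ Y) (hY : Y ≤ 2 * (4 * H : ℝ) ^ K * ((q : ℝ) + 1) ^ (K * H)) :
    (A1 * A2 * T + 1) * ((4 * H : ℝ) ^ K * tailB K H q (x ^ 2)) * Y ≤ (x ^ 3)⁻¹ := by
  have hx0 : 0 < x := by linarith
  have hex : x ≤ Real.exp x := by
    have := Real.add_one_le_exp x
    linarith
  have hE1 : 1 ≤ Real.exp x := Real.one_le_exp hx0.le
  have htail0 : 0 ≤ tailB K H q (x ^ 2) := by unfold tailB; positivity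
  -- the tail bound
  have h7 : tailB K H q (x ^ 2) ≤ Real.exp (x + K * x - x ^ 4 / 2) := by
    have e1 : tailB K H q (x ^ 2)
        = (2 ^ K * (H : ℝ) ^ K * (2 * (K * (H : ℝ) ^ K))) * (q : ℝ) ^ K
          * Real.exp (-(x ^ 4 / 2)) := by
      unfold tailB
      push_cast
      rw [mul_pow (q : ℝ)]
      have e2 : (x ^ 2) ^ 2 = x ^ 4 := by ring
      rw [e2]
      ring
    rw [e1]
    have e3 : Real.exp (x + K * x - x ^ 4 / 2)
        = Real.exp x * Real.exp (K * x) * Real.exp (-(x ^ 4 / 2)) := by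
      rw [← Real.exp_add, ← Real.exp_add]
      congr 1
    rw [e3]
    apply mul_le_mul_of_nonneg_right _ (Real.exp_pos _).le
    apply mul_le_mul (h5.trans hex) _ (by positivity) (by positivity)
    rw [Real.exp_nat_mul]
    exact pow_le_pow_left₀ (by positivity) hq K
  -- the number of colourings
  have h8 : Y ≤ Real.exp (4 * x + ((K * H : ℕ) : ℝ) * x) := by
    refine hY.trans ?_
    have h9 : ((q : ℝ) + 1) ^ (K * H) ≤ Real.exp x * Real.exp (((K * H : ℕ) : ℝ) * x) := by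
      calc ((q : ℝ) + 1) ^ (K * H) ≤ (2 * Real.exp x) ^ (K * H) := by
            apply pow_le_pow_left₀ (by positivity)
            linarith
        _ = 2 ^ (K * H) * Real.exp x ^ (K * H) := mul_pow _ _ _
        _ ≤ Real.exp x * Real.exp (((K * H : ℕ) : ℝ) * x) := by
            rw [Real.exp_nat_mul]
            exact mul_le_mul_of_nonneg_right (h6.trans hex) (by positivity)
    have h10 : (2 : ℝ) ≤ Real.exp x := by
      have := Real.add_one_le_exp x
      linarith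
    calc 2 * (4 * H : ℝ) ^ K * ((q : ℝ) + 1) ^ (K * H)
        ≤ (Real.exp x * Real.exp x) * (Real.exp x * Real.exp (((K * H : ℕ) : ℝ) * x)) := by
          apply mul_le_mul _ h9 (by positivity) (by positivity)
          exact mul_le_mul h10 (h4.trans hex) (by positivity) (by positivity)
      _ = Real.exp (3 * x + ((K * H : ℕ) : ℝ) * x) := by
          rw [← Real.exp_add, ← Real.exp_add, ← Real.exp_add]
          congr 1
          ring
      _ ≤ Real.exp (4 * x + ((K * H : ℕ) : ℝ) * x) := by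
          apply Real.exp_le_exp.2
          linarith
  have h9 : A1 * A2 * T + 1 ≤ Real.exp (1 + 3 * x
      + (2 + x + (8 * x + 2) * (x + 2) + 3 * x) + 3 * x) := by
    have e1 : Real.exp (1 + 3 * x + (2 + x + (8 * x + 2) * (x + 2) + 3 * x) + 3 * x)
        = Real.exp 1 * (Real.exp (3 * x) * Real.exp (2 + x + (8 * x + 2) * (x + 2) + 3 * x)
          * Real.exp (3 * x)) := by
      rw [← Real.exp_add, ← Real.exp_add, ← Real.exp_add]
      congr 1
      ring
    set W : ℝ := Real.exp (3 * x) * Real.exp (2 + x + (8 * x + 2) * (x + 2) + 3 * x)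
          * Real.exp (3 * x) with hW
    have h10 : A1 * A2 * T ≤ W :=
      mul_le_mul (mul_le_mul hA1 hA2 hA20 (by positivity)) hT hT0 (by positivity)
    have h11 : 1 ≤ W := by
      rw [hW, ← Real.exp_add, ← Real.exp_add]
      apply Real.one_le_exp
      positivity
    have h12 : (2 : ℝ) ≤ Real.exp 1 := by
      have := Real.add_one_le_exp (1 : ℝ)
      linarith
    rw [e1]
    have h13 : 2 * W ≤ Real.exp 1 * W := mul_le_mul_of_nonneg_right h12 (by linarith)
    linarith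
  have h10 : (A1 * A2 * T + 1) * ((4 * H : ℝ) ^ K * tailB K H q (x ^ 2)) * Y
      ≤ Real.exp (1 + 3 * x + (2 + x + (8 * x + 2) * (x + 2) + 3 * x) + 3 * x)
        * (Real.exp x * Real.exp (x + K * x - x ^ 4 / 2))
        * Real.exp (4 * x + ((K * H : ℕ) : ℝ) * x) := by
    apply mul_le_mul _ h8 hY0 (by positivity)
    apply mul_le_mul h9 _ (by positivity) (by positivity)
    exact mul_le_mul (h4.trans hex) h7 htail0 (by positivity)
  refine h10.trans ?_
  rw [← Real.exp_add, ← Real.exp_add, ← Real.exp_add]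
  have h11 : Real.exp (-(3 * x)) ≤ (x ^ 3)⁻¹ := by
    rw [Real.exp_neg]
    apply inv_anti₀ (by positivity)
    calc x ^ 3 ≤ Real.exp x ^ 3 := pow_le_pow_left₀ hx0.le hex 3
      _ = Real.exp (3 * x) := by
          rw [← Real.exp_nat_mul]
          norm_num
  refine le_trans (Real.exp_le_exp.2 ?_) h11
  have h12 : (K : ℝ) * x ≤ x * x := mul_le_mul_of_nonneg_right hK hx0.le
  have h13 : ((K * H : ℕ) : ℝ) * x ≤ x * x := mul_le_mul_of_nonneg_right hKH hx0.le
  have h14 : 1600 * (x * x) ≤ x ^ 4 := by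
    have h15 : 1600 ≤ x * x := by nlinarith
    calc 1600 * (x * x) ≤ (x * x) * (x * x) := mul_le_mul_of_nonneg_right h15 (by positivity)
      _ = x ^ 4 := by ring
  have h15 : 40 * x ≤ x * x := mul_le_mul_of_nonneg_right hx hx0.le
  have e5 : (8 * x + 2) * (x + 2) = 8 * (x * x) + 18 * x + 4 := by ring
  rw [e5]
  linarith

/-- the errors of the rank argument -/
lemma num_last {K H c' : ℕ} {x ρ T e : ℝ} (hx : 1 ≤ x)
    (hT : T + 1 ≤ x ^ 2 * x ^ e) (h4 : (4 * H : ℝ) ^ K ≤ x) (hρ : x ^ c' ≤ ρ)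
    (he : e + 6 ≤ ((c' * H : ℕ) : ℝ)) :
    (T + 1) * ((4 * H : ℝ) ^ K * (1 / ρ ^ H)) ≤ (x ^ 3)⁻¹ := by
  have hx0 : 0 < x := by linarith
  have h1 : x ^ (c' * H) ≤ ρ ^ H := by
    rw [pow_mul]
    exact pow_le_pow_left₀ (by positivity) hρ H
  have h2 : 1 / ρ ^ H ≤ 1 / x ^ (c' * H) := one_div_le_one_div_of_le (by positivity) h1
  calc (T + 1) * ((4 * H : ℝ) ^ K * (1 / ρ ^ H))
      ≤ (x ^ 2 * x ^ e) * (x * (1 / x ^ (c' * H))) := by
        apply mul_le_mul hT _ _ (by positivity)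
        · apply mul_le_mul h4 h2 _ hx0.le
          apply div_nonneg (by norm_num)
          exact le_trans (by positivity) h1
        · apply mul_nonneg (by positivity)
          apply div_nonneg (by norm_num)
          exact le_trans (by positivity) h1
    _ = x ^ (e + 3) / x ^ ((c' * H : ℕ) : ℝ) := by
        rw [Real.rpow_natCast, Real.rpow_add hx0]
        have e1 : x ^ (3 : ℝ) = x ^ 3 := by
          rw [← Real.rpow_natCast]
          norm_num
        rw [e1]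
        ring
    _ ≤ (x ^ 3)⁻¹ := by
        rw [← Real.rpow_sub hx0, ← Real.rpow_natCast, ← Real.rpow_neg hx0.le]
        apply Real.rpow_le_rpow_of_exponent_le hx
        push_cast at he ⊢
        linarith

/-- the logarithm -/
lemma num_log {k c N : ℕ} {x : ℝ} (hN : 1 ≤ N) (hk : 1 ≤ k) (hc : 1 ≤ c) (hx : 0 < x) (hxN : x ^ c = N)
    (h : (8 * k * c : ℝ) ^ 2 ≤ x) : ((k * (Nat.log 2 N + 1) : ℕ) : ℝ) ≤ x := by
  have hkr : (1 : ℝ) ≤ k := by exact_mod_cast hk
  have hcr : (1 : ℝ) ≤ c := by exact_mod_cast hc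
  set y : ℝ := Real.sqrt x with hy
  have hy0 : 0 < y := Real.sqrt_pos.2 hx
  have hyx : y * y = x := Real.mul_self_sqrt hx.le
  have hy1 : 8 * k * c ≤ y := Real.le_sqrt_of_sq_le h
  have h1 : (Nat.log 2 N : ℝ) * Real.log 2 ≤ Real.log N := by
    rw [← Real.log_pow]
    apply Real.log_le_log (by positivity)
    exact_mod_cast Nat.pow_log_le_self 2 (by omega)
  have h2 : Real.log N = c * (2 * Real.log y) := by
    rw [← hxN, Real.log_pow, ← hyx, Real.log_mul hy0.ne' hy0.ne']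
    ring
  have h3 : Real.log y ≤ y := by
    have := Real.log_le_sub_one_of_pos hy0
    linarith
  have h4 : (1 : ℝ) / 2 ≤ Real.log 2 := by
    have := Real.log_two_gt_d9
    linarith
  have h5 : (Nat.log 2 N : ℝ) * (1 / 2) ≤ c * (2 * y) := by
    calc (Nat.log 2 N : ℝ) * (1 / 2) ≤ Nat.log 2 N * Real.log 2 :=
          mul_le_mul_of_nonneg_left h4 (by positivity)
      _ ≤ c * (2 * Real.log y) := by rw [← h2]; exact h1
      _ ≤ c * (2 * y) := by
          apply mul_le_mul_of_nonneg_left _ (by positivity)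
          linarith
  push_cast
  have h6 : (k : ℝ) * (Nat.log 2 N + 1) ≤ k * (4 * c * y + 1) :=
    mul_le_mul_of_nonneg_left (by linarith) (by positivity)
  have h7 : (k : ℝ) * (4 * c * y + 1) ≤ 8 * k * c * y := by
    have h8 : (1 : ℝ) ≤ c * y := by
      have h9 : (1 : ℝ) ≤ y := by
        have h10 : (1 : ℝ) ≤ 8 * k * c := by nlinarith
        linarith
      calc (1 : ℝ) = 1 * 1 := by ring
        _ ≤ c * y := mul_le_mul hcr h9 (by norm_num) (by positivity)
    have h9 : (k : ℝ) * 1 ≤ k * (c * y) := mul_le_mul_of_nonneg_left h8 (by positivity)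
    have e1 : (k : ℝ) * (4 * c * y + 1) = 4 * (k * (c * y)) + k * 1 := by ring
    have e2 : 8 * (k : ℝ) * c * y = 8 * (k * (c * y)) := by ring
    rw [e1, e2]
    have h10 : 0 ≤ (k : ℝ) * (c * y) := by positivity
    linarith
  have h8 : 8 * (k : ℝ) * c * y ≤ y * y := mul_le_mul_of_nonneg_right hy1 hy0.le
  linarith

end Pool.Agent.TH689.GX
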