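import Mathlib
import Pool.Agent.TH689.GXNum

/-!
The lower bound for mixed-integer convex relaxations of the clique problem.
-/

set_option autoImplicit false

namespace Pool.Agent.TH689.GX

open Finset Pool.Agent.TH689.LX

lemma correct_sum {k N a s r D : ℕ} (P : Scheme (Fin k → Fin N) (Vtx k N × Vtx k N) a s r D) :
    P.correctRate Both = (∑ x, vld P Both x) / (N : ℝ) ^ k := by
  classical
  unfold Scheme.correctRate vld
  have h1 : (Nat.card (Fin k → Fin N) : ℝ) = (N : ℝ) ^ k := by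
    rw [Nat.card_eq_fintype_card, Fintype.card_fun, Fintype.card_fin, Fintype.card_fin]
    push_cast
    rfl
  rw [h1]
  congr 1
  rw [Finset.sum_boole, Set.ncard_eq_toFinset_card']
  congr 2
  ext x
  simp

/-- the wrong choices among the blocks -/
lemma rate_part {k K N q c' : ℕ} {x : ℝ} (hx : 40 ≤ x) (hc' : 20 ≤ c')
    (hqx16 : x ^ (c' - 17) * x ^ 16 ≤ q) (hN1 : 0 < (N : ℝ)) (hKx : (K : ℝ) ≤ x)
    (hNq : (N : ℝ) ^ k ≤ ((q : ℝ) + 1) ^ K)
    {bg : (Fin K → Fin q) → Fin k → Fin N} (hbg : Function.Injective bg)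
    (v : (Fin k → Fin N) → ℝ) (hv : ∀ x, 0 ≤ v x ∧ v x ≤ 1) :
    (∑ x : Fin K → Fin q, (1 - v (bg x))) / (Fintype.card (Fin K → Fin q) : ℝ)
      ≤ (1 - (∑ x, v x) / (N : ℝ) ^ k) + 1 / x ^ 2 := by
  classical
  have hx0 : 0 < x := by linarith
  have hx1 : 1 ≤ x := by linarith
  have hq0 : (0 : ℝ) < q := lt_of_lt_of_le (by positivity) hqx16
  have hNk0 : (0 : ℝ) < (N : ℝ) ^ k := by positivity
  obtain ⟨cR, hcR⟩ : ∃ cR : ℝ, cR = (∑ x, v x) / (N : ℝ) ^ k := ⟨_, rfl⟩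
  rw [← hcR]
  have hsumv : ∑ x, v x = (N : ℝ) ^ k * cR := by
    rw [hcR]
    field_simp
  have hcardX : (∑ _x : Fin k → Fin N, (1 : ℝ)) = (N : ℝ) ^ k := by
    rw [Finset.sum_const, Finset.card_univ, nsmul_eq_mul, mul_one, Fintype.card_fun,
      Fintype.card_fin, Fintype.card_fin]
    push_cast
    rfl
  have hsum1 : ∑ x, (1 - v x) = (N : ℝ) ^ k * (1 - cR) := by
    rw [Finset.sum_sub_distrib, hcardX, hsumv]
    ring
  have hcR1 : 0 ≤ 1 - cR := by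
    have h5 : 0 ≤ ∑ x, (1 - v x) :=
      Finset.sum_nonneg (fun x _ => by have := (hv x).2; linarith)
    rw [hsum1] at h5
    by_contra hneg
    push Not at hneg
    have := mul_neg_of_pos_of_neg hNk0 hneg
    linarith
  have hcR0 : 0 ≤ cR := by
    have h5 : 0 ≤ ∑ x, v x := Finset.sum_nonneg (fun x _ => (hv x).1)
    rw [hsumv] at h5
    by_contra hneg
    push Not at hneg
    have := mul_neg_of_pos_of_neg hNk0 hneg
    linarith
  have hcardq : (Fintype.card (Fin K → Fin q) : ℝ) = (q : ℝ) ^ K := by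
    rw [Fintype.card_fun, Fintype.card_fin, Fintype.card_fin]
    push_cast
    rfl
  have hKq : (K : ℝ) * (1 / q) ≤ 1 / (4 * x ^ 2) := by
    rw [mul_one_div, div_le_div_iff₀ hq0 (by positivity)]
    have h5 : x ^ 4 ≤ q := by
      refine le_trans ?_ hqx16
      calc x ^ 4 ≤ x ^ 16 := pow_le_pow_right₀ hx1 (by norm_num)
        _ ≤ x ^ (c' - 17) * x ^ 16 := le_mul_of_one_le_left (by positivity) (one_le_pow₀ hx1)
    have h6 : (K : ℝ) * (4 * x ^ 2) ≤ x * (4 * x ^ 2) := mul_le_mul_of_nonneg_right hKx (by positivity)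
    have h7 : x * (4 * x ^ 2) ≤ x * x ^ 3 := by
      apply mul_le_mul_of_nonneg_left _ hx0.le
      calc 4 * x ^ 2 ≤ x * x ^ 2 := mul_le_mul_of_nonneg_right (by linarith) (by positivity)
        _ = x ^ 3 := by ring
    calc (K : ℝ) * (4 * x ^ 2) ≤ x * x ^ 3 := h6.trans h7
      _ = x ^ 4 := by ring
      _ ≤ 1 * q := by linarith
  have h5 : ∑ x : Fin K → Fin q, (1 - v (bg x)) ≤ (N : ℝ) ^ k * (1 - cR) := by
    rw [← hsum1]
    exact sum_big_le hbg (v) (fun x => (hv x).2)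
  have h6 : (N : ℝ) ^ k ≤ (q : ℝ) ^ K * (1 + 2 * (K * (1 / q))) := by
    have h7 : (1 + (1 / q : ℝ)) ^ K ≤ 1 + 2 * (K * (1 / q)) := by
      apply one_add_pow_le' (by positivity)
      refine hKq.trans ?_
      rw [div_le_one (by positivity)]
      have : (1 : ℝ) ≤ x ^ 2 := one_le_pow₀ hx1
      linarith
    calc (N : ℝ) ^ k ≤ ((q : ℝ) + 1) ^ K := hNq
      _ = (q : ℝ) ^ K * (1 + (1 / q : ℝ)) ^ K := by
          rw [← mul_pow]
          congr 1
          field_simp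
      _ ≤ _ := mul_le_mul_of_nonneg_left h7 (by positivity)
  rw [hcardq, div_le_iff₀ (by positivity)]
  have h8 : (N : ℝ) ^ k * (1 - cR) ≤ (q : ℝ) ^ K * (1 + 2 * (K * (1 / q))) * (1 - cR) :=
    mul_le_mul_of_nonneg_right h6 hcR1
  have h9 : (1 + 2 * ((K : ℝ) * (1 / q))) * (1 - cR) ≤ (1 - cR) + 1 / x ^ 2 := by
    have h10 : 2 * ((K : ℝ) * (1 / q)) * (1 - cR) ≤ 2 * ((K : ℝ) * (1 / q)) :=
      mul_le_of_le_one_right (by positivity) (by linarith)
    have h11 : 2 * ((K : ℝ) * (1 / q)) ≤ 1 / x ^ 2 := by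
      have e1 : 1 / x ^ 2 = 4 * (1 / (4 * x ^ 2)) := by field_simp
      have h12 : 0 ≤ 1 / (4 * x ^ 2) := by positivity
      rw [e1]
      linarith
    have e2 : (1 + 2 * ((K : ℝ) * (1 / q))) * (1 - cR)
        = (1 - cR) + 2 * ((K : ℝ) * (1 / q)) * (1 - cR) := by ring
    rw [e2]
    linarith
  calc ∑ x : Fin K → Fin q, (1 - v (bg x))
      ≤ (q : ℝ) ^ K * ((1 + 2 * (K * (1 / q))) * (1 - cR)) := by
        rw [← mul_assoc]
        exact h5.trans h8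
    _ ≤ (q : ℝ) ^ K * ((1 - cR) + 1 / x ^ 2) := mul_le_mul_of_nonneg_left h9 (by positivity)
    _ = _ := by ring

/-- the end of the proof -/
lemma num_end {x ac aa w cR rc E1 E2 Y E3 Yn : ℝ} (hx : 40 ≤ x) (hac0 : 0 < ac)
    (haa : 1 / 2 ≤ aa) (hw1 : w ≤ (1 - cR) + 1 / x ^ 2) (hrate : 1 + 1 / x ≤ cR + rc / ac)
    (hmain : aa * (rc - ac * w) ≤ E1 * ac + E2 * Yn + E3 * ac) (hYn : Yn ≤ Y * ac)
    (hE2 : 0 ≤ E2) (err1 : E1 ≤ (x ^ 3)⁻¹) (err2 : E2 * Y ≤ (x ^ 3)⁻¹)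
    (err3 : E3 ≤ (x ^ 3)⁻¹) : False := by
  have hx0 : 0 < x := by linarith
  have hx1 : 1 ≤ x := by linarith
  obtain ⟨rR, hrR⟩ : ∃ rR : ℝ, rR = rc / ac := ⟨_, rfl⟩
  have hYc : rc = ac * rR := by rw [hrR]; field_simp
  rw [← hrR] at hrate
  rw [hYc] at hmain
  have hleft : (1 / 2) * (ac * (1 / x - 1 / x ^ 2)) ≤ aa * (ac * rR - ac * w) := by
    have h5 : 1 / x - 1 / x ^ 2 ≤ rR - w := by linarith
    have h6 : 0 ≤ 1 / x - 1 / x ^ 2 := by
      have : 1 / x ^ 2 ≤ 1 / x := by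
        apply one_div_le_one_div_of_le hx0
        exact le_self_pow₀ hx1 (by norm_num)
      linarith
    have h7 : ac * (1 / x - 1 / x ^ 2) ≤ ac * rR - ac * w := by
      have := mul_le_mul_of_nonneg_left h5 hac0.le
      linarith
    have h8 : 0 ≤ ac * (1 / x - 1 / x ^ 2) := mul_nonneg hac0.le h6
    exact mul_le_mul haa h7 h8 (by linarith)
  have hright : aa * (ac * rR - ac * w) ≤ (x ^ 3)⁻¹ * ac + (x ^ 3)⁻¹ * ac + (x ^ 3)⁻¹ * ac := by
    refine hmain.trans ?_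
    apply add_le_add
    · apply add_le_add
      · exact mul_le_mul_of_nonneg_right err1 hac0.le
      · refine le_trans (mul_le_mul_of_nonneg_left hYn hE2) ?_
        rw [← mul_assoc]
        exact mul_le_mul_of_nonneg_right err2 hac0.le
    · exact mul_le_mul_of_nonneg_right err3 hac0.le
  have hfin : (1 / 2) * (1 / x - 1 / x ^ 2) ≤ 3 * (x ^ 3)⁻¹ := by
    have h5 : ac * ((1 / 2) * (1 / x - 1 / x ^ 2)) ≤ ac * (3 * (x ^ 3)⁻¹) := by
      have h6 := hleft.trans hright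
      linarith
    exact le_of_mul_le_mul_left h5 hac0
  have h5 : (x ^ 3) * ((1 / 2) * (1 / x - 1 / x ^ 2)) ≤ x ^ 3 * (3 * (x ^ 3)⁻¹) :=
    mul_le_mul_of_nonneg_left hfin (by positivity)
  have e1 : (x ^ 3) * ((1 / 2) * (1 / x - 1 / x ^ 2)) = (x * x - x) / 2 := by
    field_simp
  have e2 : x ^ 3 * (3 * (x ^ 3)⁻¹) = 3 := by
    field_simp
  rw [e1, e2] at h5
  nlinarith

/-- The estimate for one value of `N`. -/
theorem gx_point {k h K H c c' N q p D a s r : ℕ} {x ε : ℝ} (hk2 : 2 ≤ k) (hhk : h + 1 ≤ k)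
    (hε : 0 < ε) (hH3 : 3 ≤ H) (hK4 : 4 ≤ K) (hc1 : 1 ≤ c)
    (hc' : 20 ≤ c') (hx : 40 ≤ x) (hxN : x ^ c = N)
    (hqN : q ≤ N) (hNq : (N : ℝ) ^ k ≤ ((q : ℝ) + 1) ^ K) (hqx : x ^ c' / 2 ≤ q)
    (hNp : (N : ℝ) ^ k ≤ 2 ^ p) (hpx : (p : ℝ) ≤ x) (hDx : (D : ℝ) ≤ x)
    (b1 : 8 * (k : ℝ) ^ 2 + 1 ≤ x)
    (b2 : 2 ^ K * (4 * (H : ℝ)) ^ K ≤ x)
    (b3 : 4 * (K : ℝ) * (H : ℝ) ≤ x)
    (b4 : 2 * (K : ℝ) ^ 2 + 1 ≤ x)
    (b5 : 2 ^ K * (H : ℝ) ^ K * (2 * ((K : ℝ) * (H : ℝ) ^ K)) ≤ x)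
    (b6 : (2 : ℝ) ^ (K * H) ≤ x)
    (he : (c : ℝ) * ((1 - ε) * (h + 1)) + 6 ≤ (((c' - 17) * H : ℕ) : ℝ))
    (A : Finset (Fin K → Fin q → Fin H)) (aa : ℝ) (haa : 1 / 2 ≤ aa)
    (hA : A.Nonempty)
    (hrow : ∀ y ∈ A, ∑ x : Fin K → Fin q, ell (comp y x)
      = aa * (Fintype.card (Fin K → Fin q) : ℝ))
    (hcol : ∀ x : Fin K → Fin q, ∑ y ∈ A, ell (comp y x) = aa * (A.card : ℝ))
    (hAc : (Fintype.card (Fin K → Fin q → Fin H) : ℝ)
      ≤ (2 * (4 * (H : ℝ)) ^ K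
        * ((Fintype.card (Fin q) : ℝ) + 1) ^ (K * H)) * A.card)
    (P : Scheme (Fin k → Fin N) (Vtx k N × Vtx k N) a s r D)
    (bg : (Fin K → Fin q) → Fin k → Fin N) (hbg : Function.Injective bg)
    (Fy : (Fin K → Fin q → Fin H) → Finset (Vtx k N × Vtx k N))
    (hFc : ∀ y, (Fy y).card ≤ (k * N) ^ 2) (hFv : ∀ y x, violated Both (Fy y) x ≤ k ^ 2)
    (hFcov : ∀ y, ∀ C ∈ Fy y, (∃ e, Cov Both bg y C e) ∨ ∀ x, ¬ Both C (bg x))
    (𝒴 : Finset (Fin K → Fin q → Fin H)) (hsub : 𝒴 ⊆ A)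
    (h𝒴 : ∀ y ∈ 𝒴, P.Refutes Both (Fy y) (1 / x))
    (hrate : 1 + 1 / x ≤ P.correctRate Both + (𝒴.card : ℝ) / A.card) :
    (N : ℝ) ^ ((1 - ε) * (h + 1)) ≤ 2 ^ a * (s + (r + 1) * (k * N) ^ 2) := by
  classical
  by_contra hcon
  push Not at hcon
  have hx0 : 0 < x := by linarith
  have hx1 : 1 ≤ x := by linarith
  have hH1r : (1 : ℝ) ≤ H := by exact_mod_cast (by omega : 1 ≤ H)
  have hK1r : (1 : ℝ) ≤ K := by exact_mod_cast (by omega : 1 ≤ K)
  have hk1r : (1 : ℝ) ≤ k := by exact_mod_cast (by omega : 1 ≤ k)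
  -- `N`
  have hN1 : (1 : ℝ) ≤ N := by rw [← hxN]; exact one_le_pow₀ hx1
  have hN1' : 1 ≤ N := by exact_mod_cast hN1
  have hxlN : x ≤ N := by
    rw [← hxN]
    exact le_self_pow₀ hx1 (by omega)
  obtain ⟨Pp, hPp⟩ : ∃ Pp : ℝ, Pp = 2 ^ p := ⟨_, rfl⟩
  have hNP : (N : ℝ) ≤ Pp := by
    rw [hPp]
    exact (le_self_pow₀ hN1 (by omega)).trans hNp
  have hPexp : Pp ≤ Real.exp x := by
    rw [hPp]
    have h2 : (2 : ℝ) ≤ Real.exp 1 := by
      have := Real.add_one_le_exp (1 : ℝ)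
      linarith
    calc (2 : ℝ) ^ p ≤ Real.exp 1 ^ p := pow_le_pow_left₀ (by norm_num) h2 p
      _ = Real.exp p := by rw [← Real.exp_nat_mul, mul_one]
      _ ≤ Real.exp x := Real.exp_le_exp.2 hpx
  have hNexp : (N : ℝ) ≤ Real.exp x := hNP.trans hPexp
  have hxexp : x ≤ Real.exp x := hxlN.trans hNexp
  -- the number of constraints
  obtain ⟨m, hm⟩ : ∃ m : ℕ, m = (k * N) ^ 2 := ⟨_, rfl⟩
  have hmr : (m : ℝ) = ((k : ℝ) * N) ^ 2 := by rw [hm]; push_cast; rfl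
  have hm1 : (1 : ℝ) ≤ m := by
    rw [hmr]
    apply one_le_pow₀
    calc (1 : ℝ) = 1 * 1 := by ring
      _ ≤ k * N := mul_le_mul hk1r hN1 (by norm_num) (by positivity)
  obtain ⟨S, hS⟩ : ∃ S : ℝ, S = 2 ^ a * (s + (r + 1) * m) := ⟨_, rfl⟩
  obtain ⟨e, hee⟩ : ∃ e : ℝ, e = (c : ℝ) * ((1 - ε) * (h + 1)) := ⟨_, rfl⟩
  have hxe : (N : ℝ) ^ ((1 - ε) * (h + 1)) = x ^ e := by
    rw [← hxN, ← Real.rpow_natCast, ← Real.rpow_mul hx0.le, hee]
  have hSlt : S < x ^ e := by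
    rw [← hxe, hS, hmr]
    exact hcon
  have h2a : (1 : ℝ) ≤ 2 ^ a := one_le_pow₀ (by norm_num)
  have hr0 : (0 : ℝ) ≤ r := by positivity
  have hs0 : (0 : ℝ) ≤ s := by positivity
  have hin1 : (1 : ℝ) ≤ s + (r + 1) * m := by
    have : (1 : ℝ) * 1 ≤ (r + 1) * m := mul_le_mul (by linarith) hm1 (by norm_num) (by positivity)
    linarith
  have hS1 : 2 ^ a ≤ S := by
    rw [hS]
    exact le_mul_of_one_le_right (by positivity) hin1
  have hS1' : 1 ≤ S := h2a.trans hS1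
  have hxeN : x ^ e ≤ Pp := by
    rw [← hxe, hPp]
    refine le_trans ?_ hNp
    rw [← Real.rpow_natCast]
    apply Real.rpow_le_rpow_of_exponent_le hN1
    have h3 : (h : ℝ) + 1 ≤ k := by exact_mod_cast hhk
    have h4 : 0 ≤ ε * ((h : ℝ) + 1) := by positivity
    linarith
  have hSP : S ≤ Pp := hSlt.le.trans hxeN
  -- the library
  obtain ⟨g, hg, hgnet⟩ := exists_lib P Both p
  have hkx : 2 * (k : ℝ) ^ 2 ≤ x := by
    have : 0 ≤ (k : ℝ) ^ 2 := by positivity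
    linarith
  have hE : 2 * 2 ^ p * (2 ^ a * ((s : ℝ) + m * r) * (2 * ((k ^ 2 : ℕ) : ℝ) / (1 / x))
      * ((2 : ℝ) ^ (8 * p))⁻¹) ≤ 1 := by
    have e1 : (2 : ℝ) ^ (8 * p) = Pp ^ 8 := by rw [hPp, ← pow_mul]; congr 1; ring
    rw [e1, ← hPp]
    have e2 : 2 * ((k ^ 2 : ℕ) : ℝ) / (1 / x) = 2 * (k : ℝ) ^ 2 * x := by
      push_cast
      field_simp
    rw [e2]
    have hPx : x ≤ Pp := hxlN.trans hNP
    have hP0 : 0 < Pp := by linarith
    have h5 : 2 ^ a * ((s : ℝ) + m * r) ≤ Pp := by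
      refine le_trans ?_ hSP
      rw [hS]
      apply mul_le_mul_of_nonneg_left _ (by positivity)
      have : 0 ≤ (m : ℝ) := by positivity
      have e3 : ((r : ℝ) + 1) * m = m * r + m := by ring
      rw [e3]
      linarith
    have h6 : 2 * (k : ℝ) ^ 2 * x ≤ Pp * Pp :=
      mul_le_mul (hkx.trans hPx) hPx hx0.le hP0.le
    calc 2 * Pp * (2 ^ a * ((s : ℝ) + m * r) * (2 * (k : ℝ) ^ 2 * x) * (Pp ^ 8)⁻¹)
        ≤ 2 * Pp * (Pp * (Pp * Pp) * (Pp ^ 8)⁻¹) := by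
          apply mul_le_mul_of_nonneg_left _ (by positivity)
          apply mul_le_mul_of_nonneg_right _ (by positivity)
          exact mul_le_mul h5 h6 (by positivity) hP0.le
      _ = 2 / Pp ^ 4 := by field_simp
      _ ≤ 1 := by
          rw [div_le_one (by positivity)]
          calc (2 : ℝ) ≤ Pp := by linarith
            _ ≤ Pp ^ 4 := le_self_pow₀ (by linarith) (by norm_num)
  have hX : (Fintype.card (Fin k → Fin N) : ℝ) ≤ 2 ^ p := by
    rw [Fintype.card_fun, Fintype.card_fin, Fintype.card_fin]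
    push_cast
    exact hNp
  obtain ⟨T, hT⟩ : ∃ T : ℝ, T = 2 ^ a * (2 * ((k ^ 2 : ℕ) : ℝ) / (1 / x))
      * ((s : ℝ) + m * (r + 1) + 3) := ⟨_, rfl⟩
  have hT' : T = (2 * (k : ℝ) ^ 2 * x) * (2 ^ a * ((s : ℝ) + m * (r + 1) + 3)) := by
    rw [hT]
    push_cast
    field_simp
  have hT0 : 0 ≤ T := by rw [hT']; positivity
  have hTx : T + 1 ≤ x ^ 2 * x ^ e := by
    have h5 : 2 ^ a * ((s : ℝ) + m * (r + 1) + 3) ≤ 4 * S := by
      rw [hS]
      have : (s : ℝ) + m * (r + 1) + 3 ≤ 4 * (s + (r + 1) * m) := by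
        have e3 : (m : ℝ) * (r + 1) = (r + 1) * m := by ring
        rw [e3]
        linarith
      calc 2 ^ a * ((s : ℝ) + m * (r + 1) + 3) ≤ 2 ^ a * (4 * (s + (r + 1) * m)) :=
            mul_le_mul_of_nonneg_left this (by positivity)
        _ = _ := by ring
    have h6 : T ≤ (8 * (k : ℝ) ^ 2 * x) * x ^ e := by
      rw [hT']
      calc (2 * (k : ℝ) ^ 2 * x) * (2 ^ a * ((s : ℝ) + m * (r + 1) + 3))
          ≤ (2 * (k : ℝ) ^ 2 * x) * (4 * S) := mul_le_mul_of_nonneg_left h5 (by positivity)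
        _ = (8 * (k : ℝ) ^ 2 * x) * S := by ring
        _ ≤ (8 * (k : ℝ) ^ 2 * x) * x ^ e := mul_le_mul_of_nonneg_left hSlt.le (by positivity)
    have h7 : 1 ≤ x * x ^ e := by
      calc (1 : ℝ) = 1 * 1 := by ring
        _ ≤ x * x ^ e := mul_le_mul hx1 (by linarith) (by norm_num) hx0.le
    have h8 : (8 * (k : ℝ) ^ 2 + 1) * (x * x ^ e) ≤ x * (x * x ^ e) :=
      mul_le_mul_of_nonneg_right b1 (by positivity)
    have e4 : (8 * (k : ℝ) ^ 2 + 1) * (x * x ^ e) = (8 * (k : ℝ) ^ 2 * x) * x ^ e + x * x ^ e := by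
      ring
    have e5 : x * (x * x ^ e) = x ^ 2 * x ^ e := by ring
    linarith
  have hTexp : T ≤ Real.exp (3 * x) := by
    calc T ≤ x ^ 2 * x ^ e := by linarith
      _ ≤ Real.exp x ^ 2 * Real.exp x := by
          apply mul_le_mul (pow_le_pow_left₀ hx0.le hxexp 2) (hxeN.trans hPexp) (by positivity)
            (by positivity)
      _ = Real.exp (3 * x) := by
          rw [← Real.exp_nat_mul, ← Real.exp_add]
          congr 1
          push_cast
          ring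
  obtain ⟨B, hB⟩ : ∃ B : ℝ, B = 2 * (k : ℝ) ^ 2 * x := ⟨_, rfl⟩
  have hB0 : 0 ≤ B := by rw [hB]; positivity
  have hB' : 2 * ((k ^ 2 : ℕ) : ℝ) / (1 / x) = B := by
    rw [hB]
    push_cast
    field_simp
  -- the size of the blocks
  have hqx16 : x ^ (c' - 17) * x ^ 16 ≤ q := by
    refine le_trans ?_ hqx
    have e1 : x ^ c' = x ^ (c' - 17) * x ^ 16 * x := by
      rw [mul_assoc, ← pow_succ, ← pow_add]
      congr 1
      omega
    rw [e1]
    have h5 : 0 < x ^ (c' - 17) * x ^ 16 := by positivity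
    have h6 : (x ^ (c' - 17) * x ^ 16) * 2 ≤ (x ^ (c' - 17) * x ^ 16) * x :=
      mul_le_mul_of_nonneg_left (by linarith) h5.le
    linarith
  have hq0 : (0 : ℝ) < q := lt_of_lt_of_le (by positivity) hqx16
  have hq1 : 1 ≤ q := by exact_mod_cast hq0
  have hρ : x ^ (c' - 17) ≤ ((x ^ 8)⁻¹) ^ 2 * (q : ℝ) := by
    have e1 : ((x ^ 8)⁻¹) ^ 2 * (q : ℝ) = q / x ^ 16 := by
      rw [inv_pow, ← pow_mul]
      norm_num
      rw [mul_comm, div_eq_mul_inv]
    rw [e1, le_div_iff₀ (by positivity)]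
    exact hqx16
  have hqexp : (q : ℝ) ≤ Real.exp x := by
    refine le_trans ?_ hNexp
    exact_mod_cast hqN
  have hlr : x ^ 2 * (x ^ 8)⁻¹ = (x ^ 6)⁻¹ := by
    field_simp
  have hlr1 : (x ^ 6)⁻¹ ≤ 1 := inv_le_one_of_one_le₀ (one_le_pow₀ hx1)
  have hKx : (K : ℝ) ≤ x := by
    have h5 : (K : ℝ) * 1 ≤ K * K := mul_le_mul_of_nonneg_left hK1r (by positivity)
    have e1 : 2 * (K : ℝ) ^ 2 = 2 * (K * K) := by ring
    have h6 : 0 ≤ (K : ℝ) * K := by positivity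
    linarith
  have hKHx : ((K * H : ℕ) : ℝ) ≤ x := by
    push_cast
    have h6 : 0 ≤ (K : ℝ) * H := by positivity
    linarith
  have hsm : (1 + 2 * H * (x ^ 2 * (x ^ 8)⁻¹)) ^ K ≤ 2 := by
    rw [hlr]
    apply one_add_pow_le (by positivity)
    have h5 : (K : ℝ) * (2 * H * (x ^ 6)⁻¹) = (4 * K * H) / (2 * x ^ 6) := by
      field_simp
      ring
    rw [h5, div_le_div_iff₀ (by positivity) (by norm_num)]
    have h6 : x ≤ x ^ 6 := le_self_pow₀ hx1 (by norm_num)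
    linarith
  have h4K : (4 * (H : ℝ)) ^ K ≤ x := by
    refine le_trans ?_ b2
    apply le_mul_of_one_le_left (by positivity)
    exact one_le_pow₀ (by norm_num)
  have hr1 : (x ^ 8)⁻¹ ≤ 1 := inv_le_one_of_one_le₀ (one_le_pow₀ hx1)
  have hrq : 1 ≤ ((x ^ 8)⁻¹) ^ 2 * (Fintype.card (Fin q) : ℝ) := by
    rw [Fintype.card_fin]
    exact (one_le_pow₀ hx1).trans hρ
  have hmain := cover_avg (K := K) (H := H) (V := Fin q) (by omega : 2 ≤ H)
    (by rw [Fintype.card_fin]; exact hq1) (r := (x ^ 8)⁻¹) (l := x ^ 2) (by positivity) hr1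
    (by positivity) (m₀ := 1) (D := H) le_rfl le_rfl (by rw [hlr]; exact hlr1) hsm hrq
    (B := B) (T := T) hB0 hT0 (Both (k := k) (N := N)) (bg)
    (fun j x => libf P Both g j x) (fun j x => (libf_bd hg j x).1) (fun j x => (libf_bd hg j x).2)
    (fun y => Fy y) (fun y C hC => hFcov y C hC) A 𝒴 hsub hrow hcol
    (vld P Both) (fun x => (vld_bd P Both x).1) (fun x => (vld_bd P Both x).2)
    (by
      intro y hy
      obtain ⟨μ, u, hu, hid, hmass, hsize⟩ := static_of_refutes (m := m) (M := k ^ 2) P Both hgnet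
        (Fy y) (by rw [hm]; exact hFc y) (hFv y)
        (Nat.pow_pos (by omega)) hX (by positivity)
        (by rw [div_lt_one hx0]; linarith) hE (h𝒴 y hy)
      refine ⟨μ, u, hu, hid, ?_, ?_⟩
      · intro x
        rw [← hB']
        exact hmass x
      · rw [hT]
        exact hsize)
  rw [Fintype.card_fin, hlr] at hmain
  rw [Fintype.card_fin] at hAc
  have hAc0 : (0 : ℝ) < A.card := by exact_mod_cast Finset.card_pos.2 hA
  -- the three errors
  have err1 : 2 * (B * farE K H 1 (x ^ 6)⁻¹) + farE K H 1 (x ^ 6)⁻¹ ≤ (x ^ 3)⁻¹ := by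
    rw [hB]
    apply num_far hx1 _ b2
    have : 0 ≤ (k : ℝ) ^ 2 := by positivity
    linarith
  have err3 : (T + 1) * ((4 * (H : ℝ)) ^ K * (1 / (((x ^ 8)⁻¹) ^ 2 * (q : ℝ)) ^ H))
      ≤ (x ^ 3)⁻¹ := by
    apply num_last hx1 hTx h4K hρ
    rw [hee]
    exact he
  have h2exp : ∀ n : ℕ, (2 : ℝ) ^ n ≤ Real.exp n := by
    intro n
    have h2 : (2 : ℝ) ≤ Real.exp 1 := by
      have := Real.add_one_le_exp (1 : ℝ)
      linarith
    calc (2 : ℝ) ^ n ≤ Real.exp 1 ^ n := pow_le_pow_left₀ (by norm_num) h2 n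
      _ = Real.exp n := by rw [← Real.exp_nat_mul, mul_one]
  have hcJ : (Fintype.card (Idx (Fin k → Fin N) (Vtx k N × Vtx k N) p a s r D) : ℝ)
      ≤ Real.exp (2 + x + (8 * x + 2) * (x + 2)) := by
    have h5 := card_idx (k := k) (N := N) (p := p) (a := a) (s := s) (r := r) (D := D) hNp
      (by rw [← hPp]; exact hS1.trans hSP)
      (by
        rw [← hPp]
        refine le_trans ?_ hSP
        rw [hS, hmr]
        apply mul_le_mul_of_nonneg_left _ (by positivity)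
        have : 0 ≤ ((k : ℝ) * N) ^ 2 := by positivity
        have e3 : ((r : ℝ) + 1) * (k * N) ^ 2 = r * (k * N) ^ 2 + (k * N) ^ 2 := by ring
        rw [e3]
        linarith)
    refine h5.trans ?_
    rw [Real.exp_add, Real.exp_add]
    have h6 : (2 : ℝ) ^ ((8 * p + 2) * (D + 2)) ≤ Real.exp ((8 * x + 2) * (x + 2)) := by
      refine (h2exp _).trans (Real.exp_le_exp.2 ?_)
      push_cast
      apply mul_le_mul (by linarith) (by linarith) (by positivity) (by linarith)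
    have h7 : (4 : ℝ) ≤ Real.exp 2 := by
      have := h2exp 2
      norm_num at this
      exact this
    calc 4 * (2 ^ p * 2 ^ ((8 * p + 2) * (D + 2)))
        = 4 * 2 ^ p * 2 ^ ((8 * p + 2) * (D + 2)) := by ring
      _ ≤ Real.exp 2 * Real.exp x * Real.exp ((8 * x + 2) * (x + 2)) := by
          apply mul_le_mul _ h6 (by positivity) (by positivity)
          apply mul_le_mul h7 _ (by positivity) (by positivity)
          rw [← hPp]
          exact hPexp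
  have hA1 : 2 * (Fintype.card ((Fin K × Fin K) × (Fin q × Fin q)) : ℝ) + 1
      ≤ Real.exp (3 * x) := by
    have e1 : (Fintype.card ((Fin K × Fin K) × (Fin q × Fin q)) : ℝ) = (K : ℝ) ^ 2 * (q : ℝ) ^ 2 := by
      rw [Fintype.card_prod, Fintype.card_prod, Fintype.card_prod, Fintype.card_fin,
        Fintype.card_fin]
      push_cast
      ring
    rw [e1]
    have h5 : (q : ℝ) ^ 2 ≤ Real.exp x ^ 2 := pow_le_pow_left₀ hq0.le hqexp 2
    have h6 : (1 : ℝ) ≤ Real.exp x ^ 2 := one_le_pow₀ (Real.one_le_exp hx0.le)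
    have h7 : (K : ℝ) ^ 2 * (q : ℝ) ^ 2 ≤ (K : ℝ) ^ 2 * Real.exp x ^ 2 :=
      mul_le_mul_of_nonneg_left h5 (by positivity)
    calc 2 * ((K : ℝ) ^ 2 * (q : ℝ) ^ 2) + 1 ≤ (2 * (K : ℝ) ^ 2 + 1) * Real.exp x ^ 2 := by
          have e2 : (2 * (K : ℝ) ^ 2 + 1) * Real.exp x ^ 2
              = 2 * ((K : ℝ) ^ 2 * Real.exp x ^ 2) + Real.exp x ^ 2 := by ring
          rw [e2]
          linarith
      _ ≤ Real.exp x * Real.exp x ^ 2 :=
          mul_le_mul_of_nonneg_right (b4.trans hxexp) (by positivity)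
      _ = Real.exp (3 * x) := by
          rw [← Real.exp_nat_mul, ← Real.exp_add]
          congr 1
          push_cast
          ring
  have hA2 : (Fintype.card (Idx (Fin k → Fin N) (Vtx k N × Vtx k N) p a s r D
        ⊕ (Idx (Fin k → Fin N) (Vtx k N × Vtx k N) p a s r D × (Vtx k N × Vtx k N))) : ℝ)
      ≤ Real.exp (2 + x + (8 * x + 2) * (x + 2) + 3 * x) := by
    rw [Fintype.card_sum, Fintype.card_prod]
    have e1 : (Fintype.card (Vtx k N × Vtx k N) : ℝ) = ((k : ℝ) * N) ^ 2 := by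
      simp only [Vtx, Fintype.card_prod, Fintype.card_fin]
      push_cast
      ring
    push_cast
    rw [e1]
    set cJ : ℝ := (Fintype.card (Idx (Fin k → Fin N) (Vtx k N × Vtx k N) p a s r D) : ℝ) with hcJd
    have hcJ0 : 0 ≤ cJ := by rw [hcJd]; positivity
    have e2 : cJ + cJ * ((k : ℝ) * N) ^ 2 = cJ * (1 + (k * N) ^ 2) := by ring
    rw [e2, Real.exp_add (2 + x + (8 * x + 2) * (x + 2))]
    apply mul_le_mul hcJ _ (by positivity) (by positivity)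
    have h5 : (N : ℝ) ^ 2 ≤ Real.exp x ^ 2 := pow_le_pow_left₀ (by positivity) hNexp 2
    have h6 : (1 : ℝ) ≤ Real.exp x ^ 2 := one_le_pow₀ (Real.one_le_exp hx0.le)
    have h7 : (k : ℝ) ^ 2 * (N : ℝ) ^ 2 ≤ (k : ℝ) ^ 2 * Real.exp x ^ 2 :=
      mul_le_mul_of_nonneg_left h5 (by positivity)
    calc 1 + ((k : ℝ) * N) ^ 2 ≤ (k ^ 2 + 1) * Real.exp x ^ 2 := by
          have e3 : ((k : ℝ) ^ 2 + 1) * Real.exp x ^ 2 = k ^ 2 * Real.exp x ^ 2 + Real.exp x ^ 2 := by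
            ring
          have e4 : ((k : ℝ) * N) ^ 2 = k ^ 2 * N ^ 2 := by ring
          rw [e3, e4]
          linarith
      _ ≤ Real.exp x * Real.exp x ^ 2 := by
          apply mul_le_mul_of_nonneg_right _ (by positivity)
          have : 0 ≤ (k : ℝ) ^ 2 := by positivity
          linarith
      _ = Real.exp (3 * x) := by
          rw [← Real.exp_nat_mul, ← Real.exp_add]
          congr 1
          push_cast
          ring
  have err2 := num_tail (K := K) (H := H) (q := q) (x := x)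
    (Y := 2 * (4 * (H : ℝ)) ^ K * ((q : ℝ) + 1) ^ (K * H)) hx hKx hKHx hqexp hA1 hA2 hT0 hTexp
    (by positivity) h4K b5 b6 (by positivity) le_rfl
  -- the left side
  obtain ⟨cR, hcR⟩ : ∃ cR : ℝ, cR = P.correctRate Both := ⟨_, rfl⟩
  rw [← hcR] at hrate
  obtain ⟨w, hw⟩ : ∃ w : ℝ, w = (∑ x : Fin K → Fin q, (1 - vld P Both (bg x)))
      / (Fintype.card (Fin K → Fin q) : ℝ) := ⟨_, rfl⟩
  have hw1 : w ≤ (1 - cR) + 1 / x ^ 2 := by
    rw [hw, hcR, correct_sum]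
    exact rate_part hx hc' hqx16 (by exact_mod_cast hN1') hKx hNq hbg (vld P Both) (vld_bd P Both)
  rw [← hw] at hmain
  have htail0 : 0 ≤ tailB K H q (x ^ 2) := by unfold tailB; positivity
  exact num_end hx (by exact_mod_cast Finset.card_pos.2 hA) haa hw1 hrate hmain hAc
    (by positivity) err1 err2 err3

end Pool.Agent.TH689.GX
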