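import Mathlib
import Pool.Agent.TH689.GXFinal

/-!
The lower bound for mixed-integer convex relaxations of the clique problem: all parameters.
-/

set_option autoImplicit false

namespace Pool.Agent.TH689.GX

open Finset Pool.Agent.TH689.LX

/-- the exponents -/
lemma exp_ineq {h L c' H : ℕ} {ε : ℝ} (hε : 0 < ε) (hL : 2 / ε ≤ (L : ℝ)) (hc' : 50 / ε ≤ (c' : ℝ))
    (hc20 : 20 ≤ c') (hh : 1 ≤ h) (hH : H + 1 = (h + 1) * L) (hL2 : 2 ≤ L) :
    ((L * c' : ℕ) : ℝ) * ((1 - ε) * (h + 1)) + 6 ≤ (((c' - 17) * H : ℕ) : ℝ) := by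
  have hHr : (H : ℝ) = (h + 1) * L - 1 := by
    have : ((H + 1 : ℕ) : ℝ) = (((h + 1) * L : ℕ) : ℝ) := by rw [hH]
    push_cast at this
    linarith
  have hcr : ((c' - 17 : ℕ) : ℝ) = (c' : ℝ) - 17 := by
    rw [Nat.cast_sub (by omega)]
    norm_num
  push_cast
  rw [hcr, hHr]
  rw [div_le_iff₀ hε] at hL hc'
  have hh1 : (1 : ℝ) ≤ h := by exact_mod_cast hh
  have hL2' : (2 : ℝ) ≤ L := by exact_mod_cast hL2
  have hc0 : (20 : ℝ) ≤ c' := by exact_mod_cast hc20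
  -- `c' ≤ (ε / 2) c' L (h + 1)` and `25 (h + 1) L ≤ (ε / 2) c' L (h + 1)`
  have h1 : (c' : ℝ) * 2 ≤ c' * (L * ε) := mul_le_mul_of_nonneg_left hL (by linarith)
  have h2 : (c' : ℝ) * (L * ε) * 1 ≤ c' * (L * ε) * h :=
    mul_le_mul_of_nonneg_left hh1 (by positivity)
  have h3 : ((h : ℝ) + 1) * L * 50 ≤ (h + 1) * L * (c' * ε) :=
    mul_le_mul_of_nonneg_left hc' (by positivity)
  have h4 : (2 : ℝ) * 2 ≤ (h + 1) * L := mul_le_mul (by linarith) hL2' (by norm_num) (by linarith)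
  have e1 : (L : ℝ) * c' * ((1 - ε) * (h + 1))
      = L * c' * (h + 1) - (c' * (L * ε) + c' * (L * ε) * h) := by ring
  have e2 : ((c' : ℝ) - 17) * ((h + 1) * L - 1)
      = L * c' * (h + 1) - c' - 17 * ((h + 1) * L) + 17 := by ring
  have e3 : ((h : ℝ) + 1) * L * (c' * ε) = c' * (L * ε) + c' * (L * ε) * h := by ring
  rw [e1, e2]
  rw [e3] at h3
  linarith

open Classical in
lemma refuted_eq {k N a s r D : ℕ} {Y : Type} (P : Scheme (Fin k → Fin N) (Vtx k N × Vtx k N) a s r D)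
    (A : Finset Y) (Fy : Y → Finset (Vtx k N × Vtx k N)) (δ : ℝ) :
    P.refutedRate Both (fun i : Fin A.card => Fy (A.equivFin.symm i).1) δ
      = ((A.filter fun y => P.Refutes Both (Fy y) δ).card : ℝ) / A.card := by
  unfold Scheme.refutedRate
  congr 2
  rw [Set.ncard_eq_toFinset_card']
  apply Finset.card_bij (fun i _ => (A.equivFin.symm i).1)
  · intro i hi
    rw [Set.mem_toFinset] at hi
    exact Finset.mem_filter.2 ⟨(A.equivFin.symm i).2, hi⟩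
  · intro i _ j _ hij
    exact A.equivFin.symm.injective (Subtype.ext hij)
  · intro y hy
    obtain ⟨h1, h2⟩ := Finset.mem_filter.1 hy
    refine ⟨A.equivFin ⟨y, h1⟩, ?_, ?_⟩
    · rw [Set.mem_toFinset]
      simp only [Set.mem_setOf_eq, Equiv.symm_apply_apply]
      exact h2
    · simp only [Equiv.symm_apply_apply]

/-- The lower bound for one scheme. -/
theorem gx_det (k h : ℕ) (hh : 1 ≤ h) (hk : h < k) (ε : ℝ) (hε : 0 < ε) :
    ∃ c : ℕ, 1 ≤ c ∧ ∀ᶠ N : ℕ in Filter.atTop,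
      ∃ (M : ℕ) (G : Fin M → SimpleGraph (Vtx k N)), 0 < M ∧ (∀ i, (G i).CliqueFree (h + 1)) ∧
      ∀ (D : ℕ), D ^ c ≤ N →
      ∀ (a s r : ℕ) (P : Scheme (Fin k → Fin N) (Vtx k N × Vtx k N) a s r D),
        1 + (N : ℝ) ^ (-(1 / (c : ℝ)))
          ≤ P.correctRate Both
            + P.refutedRate Both (fun i => nonEdges (G i)) ((N : ℝ) ^ (-(1 / (c : ℝ)))) →
        (N : ℝ) ^ ((1 - ε) * (h + 1)) ≤ 2 ^ a * (s + (r + 1) * (k * N) ^ 2) := by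
  classical
  obtain ⟨L₀, hL₀⟩ := exists_nat_ge (2 / ε)
  obtain ⟨c₀, hc₀⟩ := exists_nat_ge (50 / ε)
  obtain ⟨L, hLd⟩ : ∃ L, L = L₀ + 2 := ⟨_, rfl⟩
  obtain ⟨c', hc'd⟩ : ∃ c', c' = c₀ + 20 := ⟨_, rfl⟩
  have hL : 2 / ε ≤ (L : ℝ) := by rw [hLd]; push_cast; linarith
  have hc' : 50 / ε ≤ (c' : ℝ) := by rw [hc'd]; push_cast; linarith
  have hL2 : 2 ≤ L := by omega
  have hc20 : 20 ≤ c' := by omega
  obtain ⟨H, hH⟩ : ∃ H, H + 1 = (h + 1) * L := by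
    have : 1 ≤ (h + 1) * L := Nat.mul_pos (by omega) (by omega)
    exact ⟨(h + 1) * L - 1, by omega⟩
  have hH3 : 3 ≤ H := by
    have : 2 * 2 ≤ (h + 1) * L := Nat.mul_le_mul (by omega) hL2
    omega
  have hK4 : 4 ≤ k * L := Nat.mul_le_mul (by omega : 2 ≤ k) hL2
  have hcpos : 1 ≤ L * c' := Nat.mul_pos (by omega) (by omega)
  have he := exp_ineq (h := h) (H := H) hε hL hc' hc20 hh hH hL2
  obtain ⟨c, hc⟩ : ∃ c, c = L * c' := ⟨_, rfl⟩
  rw [← hc] at he hcpos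
  refine ⟨c, hcpos, ?_⟩
  have hcr : (0 : ℝ) < c := by exact_mod_cast hcpos
  obtain ⟨X₀, hX₀⟩ : ∃ X₀ : ℝ, X₀ = 40 + (8 * (k : ℝ) ^ 2 + 1)
    + 2 ^ (k * L) * (4 * (H : ℝ)) ^ (k * L) + 4 * ((k * L : ℕ) : ℝ) * (H : ℝ)
    + (2 * ((k * L : ℕ) : ℝ) ^ 2 + 1)
    + 2 ^ (k * L) * (H : ℝ) ^ (k * L) * (2 * (((k * L : ℕ) : ℝ) * (H : ℝ) ^ (k * L)))
    + (2 : ℝ) ^ (k * L * H) + (8 * (k : ℝ) * c) ^ 2 := ⟨_, rfl⟩
  have hev : ∀ᶠ N : ℕ in Filter.atTop, X₀ ≤ (N : ℝ) ^ (1 / (c : ℝ)) :=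
    ((tendsto_rpow_atTop (by positivity : (0 : ℝ) < 1 / (c : ℝ))).comp
      tendsto_natCast_atTop_atTop).eventually_ge_atTop X₀
  filter_upwards [hev] with N hN
  obtain ⟨x, hx⟩ : ∃ x : ℝ, x = (N : ℝ) ^ (1 / (c : ℝ)) := ⟨_, rfl⟩
  rw [← hx] at hN
  have n1 : 0 ≤ (8 * (k : ℝ) ^ 2 + 1) := by positivity
  have n2 : 0 ≤ 2 ^ (k * L) * (4 * (H : ℝ)) ^ (k * L) := by positivity
  have n3 : 0 ≤ 4 * ((k * L : ℕ) : ℝ) * (H : ℝ) := by positivity
  have n4 : 0 ≤ (2 * ((k * L : ℕ) : ℝ) ^ 2 + 1) := by positivity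
  have n5 : 0 ≤ 2 ^ (k * L) * (H : ℝ) ^ (k * L)
    * (2 * (((k * L : ℕ) : ℝ) * (H : ℝ) ^ (k * L))) := by positivity
  have n6 : 0 ≤ (2 : ℝ) ^ (k * L * H) := by positivity
  have n7 : 0 ≤ (8 * (k : ℝ) * c) ^ 2 := by positivity
  have hx40 : 40 ≤ x := by linarith
  have hx0 : 0 < x := by linarith
  have hx1 : 1 ≤ x := by linarith
  have hxN : x ^ c = N := by
    rw [hx, ← Real.rpow_natCast, ← Real.rpow_mul (by positivity), one_div,
      inv_mul_cancel₀ hcr.ne', Real.rpow_one]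
  have hxinv : (N : ℝ) ^ (-(1 / (c : ℝ))) = 1 / x := by
    rw [Real.rpow_neg (by positivity), ← hx, one_div]
  have hN1 : 1 ≤ N := by
    have : (1 : ℝ) ≤ N := by rw [← hxN]; exact one_le_pow₀ hx1
    exact_mod_cast this
  -- the blocks
  obtain ⟨q, hq⟩ : ∃ q : ℕ, q = ⌊x ^ c'⌋₊ := ⟨_, rfl⟩
  have hxc0 : 0 ≤ x ^ c' := by positivity
  have hq1 : (q : ℝ) ≤ x ^ c' := by rw [hq]; exact Nat.floor_le hxc0
  have hq2 : x ^ c' < (q : ℝ) + 1 := by rw [hq]; exact Nat.lt_floor_add_one _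
  have hxL : (x ^ c') ^ L = N := by
    rw [← pow_mul, ← hxN, hc, mul_comm]
  have hqL : q ^ L ≤ N := by
    have h1 : ((q : ℝ)) ^ L ≤ N := by
      rw [← hxL]
      exact pow_le_pow_left₀ (by positivity) hq1 L
    exact_mod_cast h1
  have hNq : (N : ℝ) ^ k ≤ ((q : ℝ) + 1) ^ (k * L) := by
    rw [← hxL, ← pow_mul, mul_comm k L]
    exact pow_le_pow_left₀ hxc0 hq2.le _
  have hx2 : 2 ≤ x ^ c' := by
    calc (2 : ℝ) ≤ x := by linarith
      _ ≤ x ^ c' := le_self_pow₀ hx1 (by omega)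
  have hqx : x ^ c' / 2 ≤ q := by linarith
  have hqpos : 1 ≤ q := by
    have : (0 : ℝ) < q := by linarith
    exact_mod_cast this
  -- the class
  obtain ⟨A, aa, haa, hA, hrow, hcol, hAc⟩ := RX.exists_class (k * L) (Fin q)
    (H := H) (by omega) (by rw [Fintype.card_fin]; exact hqpos)
  refine ⟨A.card, fun i => gr hqL (A.equivFin.symm i).1, Finset.card_pos.2 hA, ?_, ?_⟩
  · intro i
    exact gr_cliqueFree hqL _ hh (by omega)
  intro D hD a s r P hrate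
  rw [hxinv, refuted_eq P A (fun y => nonEdges (gr hqL y)) (1 / x)] at hrate
  have hDx : (D : ℝ) ≤ x := by
    have h1 : (D : ℝ) ^ c ≤ x ^ c := by
      rw [hxN]
      exact_mod_cast hD
    exact (pow_le_pow_iff_left₀ (by positivity) hx0.le (by omega : c ≠ 0)).1 h1
  have hNp : (N : ℝ) ^ k ≤ 2 ^ (k * (Nat.log 2 N + 1)) := by
    have h1 : (N : ℝ) ≤ 2 ^ (Nat.log 2 N + 1) := by
      exact_mod_cast (Nat.lt_pow_succ_log_self (by norm_num) N).le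
    rw [mul_comm, pow_mul]
    exact pow_le_pow_left₀ (by positivity) h1 k
  exact gx_point (K := k * L) (H := H) (q := q) (p := k * (Nat.log 2 N + 1)) (by omega) (by omega)
    hε hH3 hK4 hcpos hc20 hx40 hxN ((Nat.le_self_pow (by omega) q).trans hqL) hNq hqx hNp
    (num_log hN1 (by omega) hcpos hx0 hxN (by linarith)) hDx (by linarith) (by linarith)
    (by linarith) (by linarith) (by linarith) (by linarith) he A aa haa hA hrow hcol hAc P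
    (big k hqL) (big_inj hqL) (fun y => nonEdges (gr hqL y)) (fun y => card_nonEdges_le _)
    (fun y x => violated_le _ x) (fun y C hC => gr_cov hqL y C hC) _ (Finset.filter_subset _ _)
    (fun y hy => (Finset.mem_filter.1 hy).2) hrate

/-- The lower bound for randomized schemes. -/
theorem gx_main (k h : ℕ) (hh : 1 ≤ h) (hk : h < k) (ε : ℝ) (hε : 0 < ε) :
    ∃ c : ℕ, 1 ≤ c ∧ ∀ᶠ N : ℕ in Filter.atTop,
      ∃ (M : ℕ) (G : Fin M → SimpleGraph (Vtx k N)), 0 < M ∧ (∀ i, (G i).CliqueFree (h + 1)) ∧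
      ∀ (D : ℕ), D ^ c ≤ N → ∀ (Ω : Type) [Fintype Ω] (p : Ω → ℝ), (∀ ω, 0 ≤ p ω) →
        ∑ ω, p ω = 1 → ∀ (a s r : Ω → ℕ)
        (P : ∀ ω, Scheme (Fin k → Fin N) (Vtx k N × Vtx k N) (a ω) (s ω) (r ω) D),
        (∀ ω, (2 : ℝ) ^ a ω * (s ω + (r ω + 1) * (k * N) ^ 2) < (N : ℝ) ^ ((1 - ε) * (h + 1))) →
        ∑ ω, p ω * ((P ω).correctRate Both
            + (P ω).refutedRate Both (fun i => nonEdges (G i)) ((N : ℝ) ^ (-(1 / (c : ℝ)))))
          < 1 + (N : ℝ) ^ (-(1 / (c : ℝ))) := by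
  obtain ⟨c, hc, hmain⟩ := gx_det k h hh hk ε hε
  refine ⟨c, hc, ?_⟩
  filter_upwards [hmain] with N hN
  obtain ⟨M, G, hM, hG, hdet⟩ := hN
  refine ⟨M, G, hM, hG, ?_⟩
  intro D hD Ω _ p hp hp1 a s r P hP
  obtain ⟨δ, hδ⟩ : ∃ δ : ℝ, δ = (N : ℝ) ^ (-(1 / (c : ℝ))) := ⟨_, rfl⟩
  rw [← hδ] at hdet ⊢
  have hlt : ∀ ω, (P ω).correctRate Both + (P ω).refutedRate Both (fun i => nonEdges (G i)) δ
      < 1 + δ := by
    intro ω
    by_contra hcon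
    push Not at hcon
    exact absurd (hdet D hD (a ω) (s ω) (r ω) (P ω) hcon) (not_le.2 (hP ω))
  obtain ⟨ω₀, hω₀⟩ : ∃ ω, 0 < p ω := by
    by_contra hcon
    push Not at hcon
    have h4 : ∑ ω, p ω ≤ 0 := Finset.sum_nonpos (fun ω _ => hcon ω)
    linarith
  calc ∑ ω, p ω * ((P ω).correctRate Both
          + (P ω).refutedRate Both (fun i => nonEdges (G i)) δ)
      < ∑ ω, p ω * (1 + δ) := by
        apply Finset.sum_lt_sum
        · intro ω _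
          exact mul_le_mul_of_nonneg_left (hlt ω).le (hp ω)
        · exact ⟨ω₀, Finset.mem_univ _, mul_lt_mul_of_pos_left (hlt ω₀) hω₀⟩
    _ = 1 + δ := by rw [← Finset.sum_mul, hp1, one_mul]

end Pool.Agent.TH689.GX
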