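import Mathlib
import Pool.Agent.TH689.LXLin
import Pool.Agent.H538R2.RDFinal

/-!
Choice of the parameters and the final statement for linear programs.
-/

set_option autoImplicit false

namespace Pool.Agent.TH689.LX

open Finset Filter Pool.Agent.H538R2.SB

/-- the parameters; `g` is the number of bits of `n` -/
theorem lp_param (L : ℕ) (hL : 8 ≤ L) : ∃ n₀ : ℕ, ∀ n : ℕ, n₀ ≤ n →
    ∀ (s : ℕ) (P : LPFormulation n s),
      (∀ F : Finset (Clause n),
        F.card ≤ n ^ (8 * L * (2 * L * (8 * L + 1)) + 4 + 4 * (2 * L * (8 * L + 1))) →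
        (∀ C ∈ F, C.card ≤
          (8 * L * (2 * L * (8 * L + 1)) + 4 + 4 * (2 * L * (8 * L + 1))) * Nat.log 2 n) →
        (∀ x, n ≤ (8 * L * (2 * L * (8 * L + 1)) + 4 + 4 * (2 * L * (8 * L + 1)))
          * Nat.log 2 n * falsified F x) →
        P.Certifies F ((2 : ℝ) ^ (-(n / ((2 * L * (8 * L + 1) : ℕ) : ℝ)) : ℝ))) →
      (2 : ℝ) ^ ((1 - 8 / (L : ℝ)) * n + 1 : ℝ) ≤ ((s + 1 : ℕ) : ℝ) := by
  set A := 8 * L + 1 with hA
  set Bc := 2 * L * A with hBc
  set c := 8 * L * Bc + 4 + 4 * Bc with hc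
  obtain ⟨n₁, hn₁⟩ := exists_large (16 * Bc ^ 2 * L + 16 * L * Bc + 64 * L ^ 2 * Bc)
  refine ⟨n₁ + 8, ?_⟩
  intro n hn s P hP
  have hlarge := hn₁ n (by omega)
  set g := Nat.log 2 n + 1 with hg
  have hg4 : g + 3 = Nat.log 2 n + 4 := by omega
  rw [← hg4] at hlarge
  have hlog3 : 3 ≤ Nat.log 2 n := by
    rw [Nat.le_log_iff_pow_le (by norm_num) (by omega)]
    omega
  have hg2 : 4 ≤ g := by omega
  have hng : n < 2 ^ g := by
    rw [hg]; exact Nat.lt_pow_succ_log_self (by norm_num) n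
  have hgn : 2 ^ (g - 1) ≤ n := by
    have : g - 1 = Nat.log 2 n := by omega
    rw [this]
    exact Nat.pow_log_le_self 2 (by omega)
  have hgg : g ≤ g * (g + 3) := Nat.le_mul_of_pos_right _ (by omega)
  have hgg2 : g * g ≤ g * (g + 3) := Nat.mul_le_mul_left _ (by omega)
  have hlin : ∀ X : ℕ, X ≤ (16 * Bc ^ 2 * L + 16 * L * Bc + 64 * L ^ 2 * Bc) → X * g ≤ n := by
    intro X hX
    exact (Nat.mul_le_mul hX hgg).trans hlarge
  have hquad : ∀ X : ℕ, X ≤ (16 * Bc ^ 2 * L + 16 * L * Bc + 64 * L ^ 2 * Bc) →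
      X * (g * g) ≤ n := by
    intro X hX
    exact (Nat.mul_le_mul hX hgg2).trans hlarge
  have hLpos : 0 < L := by omega
  have hBc1 : 2 * L * 65 ≤ Bc := Nat.mul_le_mul_left _ (by omega)
  have hBcpos : 0 < Bc := by omega
  set a := A * g with ha
  set b := Bc * g with hb
  have hba : b = 2 * L * a := by rw [hb, hBc, ha]; ring
  have hbpos : 0 < b := Nat.mul_pos hBcpos (by omega)
  set K := n / b with hK
  have hKb : K * b ≤ n := Nat.div_mul_le_self n b
  have hKn : K ≤ n := Nat.div_le_self _ _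
  have hnK : n < b * (K + 1) := Nat.lt_mul_div_succ n hbpos
  have hK1 : 2 * L ≤ K := by
    rw [hK, Nat.le_div_iff_mul_le hbpos]
    have := hlin (2 * L * Bc) (by
      have h0 : 2 * L * Bc ≤ 16 * L * Bc := Nat.mul_le_mul_right _ (by omega)
      exact h0.trans ((Nat.le_add_left _ _).trans (Nat.le_add_right _ _)))
    calc 2 * L * b = 2 * L * Bc * g := by rw [hb]; ring
      _ ≤ n := this
  have hK2 : 4 + 6 * g + 4 * b ≤ K := by
    rw [hK, Nat.le_div_iff_mul_le hbpos]
    have h1 := hquad (16 * Bc ^ 2) (by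
      have : 16 * Bc ^ 2 ≤ 16 * Bc ^ 2 * L := Nat.le_mul_of_pos_right _ hLpos
      omega)
    have h2 : 4 + 6 * g + 4 * b ≤ 16 * b := by
      have : g ≤ b := by rw [hb]; exact Nat.le_mul_of_pos_left _ hBcpos
      omega
    calc (4 + 6 * g + 4 * b) * b ≤ 16 * b * b := Nat.mul_le_mul_right _ h2
      _ = 16 * Bc ^ 2 * (g * g) := by rw [hb]; ring
      _ ≤ n := h1
  set m₀ := K / L with hm₀
  have hm₀1 : 1 ≤ m₀ := by
    rw [hm₀, Nat.le_div_iff_mul_le hLpos]; omega
  have hLm : L * m₀ ≤ K := Nat.mul_div_le K L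
  have hKL : K < L * (m₀ + 1) := Nat.lt_mul_div_succ K hLpos
  have h8m : 8 * m₀ ≤ K := (Nat.mul_le_mul_right _ hL).trans hLm
  set H := K - m₀ with hH
  set D := K - 2 * m₀ with hD
  have hHK : H ≤ K := by omega
  have hK2g : K < 2 ^ g := lt_of_le_of_lt hKn hng
  -- reals
  have hK2gR : (K : ℝ) ≤ 2 ^ g := by exact_mod_cast hK2g.le
  have hHR : (H : ℝ) ≤ 2 ^ g := by exact_mod_cast (hHK.trans hK2g.le)
  have hag : g ≤ a := by rw [ha]; exact Nat.le_mul_of_pos_left _ (by omega)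
  have ha5 : 5 * g ≤ a := by rw [ha]; exact Nat.mul_le_mul_right _ (by omega)
  set r : ℝ := (1 / 2 : ℝ) ^ a with hr
  have hr0 : 0 < r := by rw [hr]; positivity
  have hra : r * 2 ^ a = 1 := by
    rw [hr, ← mul_pow]; norm_num
  set l : ℝ := (K : ℝ) with hl
  have hl0 : 0 ≤ l := by rw [hl]; positivity
  have hlr : l * r ≤ (1 / 2 : ℝ) ^ (a - g) := by
    have e1 : (1 / 2 : ℝ) ^ (a - g) = 2 ^ g * r := by
      have e2 : a = (a - g) + g := by omega
      rw [hr]
      conv_rhs => rw [e2, pow_add]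
      have e3 : (1 / 2 : ℝ) ^ g * 2 ^ g = 1 := by rw [← mul_pow]; norm_num
      calc (1 / 2 : ℝ) ^ (a - g) = (1 / 2 : ℝ) ^ (a - g) * ((1 / 2 : ℝ) ^ g * 2 ^ g) := by
            rw [e3, mul_one]
        _ = _ := by ring
    rw [e1]
    exact mul_le_mul_of_nonneg_right hK2gR hr0.le
  have hlr1 : l * r ≤ 1 := hlr.trans (pow_le_one₀ (by norm_num) (by norm_num))
  have hlr0 : 0 ≤ l * r := by positivity
  -- smallness
  have hsm : (1 + 2 * H * (l * r)) ^ K ≤ 2 := by
    have h1 : 2 * (H : ℝ) * (l * r) * K ≤ 1 / 2 := by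
      calc 2 * (H : ℝ) * (l * r) * K ≤ 2 * 2 ^ g * (2 ^ g * r) * 2 ^ g := by
            apply mul_le_mul _ hK2gR (by positivity) (by positivity)
            apply mul_le_mul _ _ hlr0 (by positivity)
            · exact mul_le_mul_of_nonneg_left hHR (by norm_num)
            · exact mul_le_mul_of_nonneg_right hK2gR hr0.le
        _ = 2 * (2 ^ g) ^ 3 * r := by ring
        _ ≤ 1 / 2 := by
            have h2 : 4 * ((2 : ℝ) ^ g) ^ 3 ≤ 2 ^ a := by
              have h3 : 4 * (2 ^ g) ^ 3 ≤ 2 ^ a := by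
                calc 4 * (2 ^ g) ^ 3 = 2 ^ (2 + g * 3) := by
                      rw [← pow_mul, pow_add]; norm_num
                  _ ≤ 2 ^ a := Nat.pow_le_pow_right (by norm_num) (by omega)
              exact_mod_cast h3
            have h4 := mul_le_mul_of_nonneg_right h2 hr0.le
            have h5 : (2 : ℝ) ^ a * r = 1 := by rw [mul_comm]; exact hra
            rw [h5] at h4
            linarith
    have h2 : (1 + 2 * (H : ℝ) * (l * r)) ≤ Real.exp (2 * (H : ℝ) * (l * r)) := by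
      have := Real.add_one_le_exp (2 * (H : ℝ) * (l * r))
      linarith
    calc (1 + 2 * (H : ℝ) * (l * r)) ^ K ≤ (Real.exp (2 * (H : ℝ) * (l * r))) ^ K :=
          pow_le_pow_left₀ (by positivity) h2 _
      _ = Real.exp (K * (2 * (H : ℝ) * (l * r))) := by rw [← Real.exp_nat_mul]
      _ ≤ Real.exp (1 / 2) := by
          apply Real.exp_le_exp.2
          calc (K : ℝ) * (2 * (H : ℝ) * (l * r)) = 2 * (H : ℝ) * (l * r) * K := by ring
            _ ≤ _ := h1
      _ ≤ 2 := by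
          have h3 : Real.exp (1 / 2) ^ 2 ≤ 2 ^ 2 := by
            rw [← Real.exp_nat_mul]
            have : ((2 : ℕ) : ℝ) * (1 / 2) = 1 := by norm_num
            rw [this]
            have := Real.exp_one_lt_d9
            linarith
          exact le_of_sq_le_sq h3 (by norm_num)
  have hrq : (r ^ 2 * ((2 ^ b : ℕ) : ℝ)) = 2 ^ (b - 2 * a) := by
    have e1 : b = (b - 2 * a) + 2 * a := by
      have : 2 * a ≤ b := by
        rw [hba]; exact Nat.mul_le_mul_right a (by omega)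
      omega
    have e2 : ((2 ^ b : ℕ) : ℝ) = 2 ^ (b - 2 * a) * (2 ^ a) ^ 2 := by
      push_cast
      rw [← pow_mul, ← pow_add]
      congr 1
      omega
    rw [e2]
    calc r ^ 2 * (2 ^ (b - 2 * a) * (2 ^ a) ^ 2) = 2 ^ (b - 2 * a) * (r * 2 ^ a) ^ 2 := by ring
      _ = _ := by rw [hra]; ring
  have hrq1 : 1 ≤ r ^ 2 * ((2 ^ b : ℕ) : ℝ) := by
    rw [hrq]; exact one_le_pow₀ (by norm_num)
  set δ : ℝ := (2 : ℝ) ^ (-(n / (Bc : ℝ)) : ℝ) with hδ
  have hδ0 : 0 < δ := by rw [hδ]; positivity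
  -- the finite bound
  have hfin := lp_finite (n := n) (K := K) (b := b) (H := H) hbpos hKb (by omega) hr0 hl0
    (m₀ := m₀) (D := D) (by omega) hm₀1 hlr1 hsm hrq1 hδ0.le P (by
      intro F h1 h2 h3
      apply hP F
      · refine h1.trans ?_
        have h4 : K ^ 2 * (2 ^ b) ^ 2 ≤ (2 ^ (g - 1)) ^ (4 + 4 * Bc) := by
          calc K ^ 2 * (2 ^ b) ^ 2 ≤ (2 ^ g) ^ 2 * (2 ^ b) ^ 2 :=
                Nat.mul_le_mul_right _ (Nat.pow_le_pow_left hK2g.le _)
            _ = 2 ^ (g * 2 + b * 2) := by rw [← pow_mul, ← pow_mul, ← pow_add]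
            _ ≤ 2 ^ ((g - 1) * (4 + 4 * Bc)) := by
                apply Nat.pow_le_pow_right (by norm_num)
                have h5 : g ≤ 2 * (g - 1) := by omega
                calc g * 2 + b * 2 = g * (2 + 2 * Bc) := by rw [hb]; ring
                  _ ≤ 2 * (g - 1) * (2 + 2 * Bc) := Nat.mul_le_mul_right _ h5
                  _ = (g - 1) * (4 + 4 * Bc) := by ring
            _ = _ := by rw [pow_mul]
        refine h4.trans ((Nat.pow_le_pow_left hgn _).trans ?_)
        exact Nat.pow_le_pow_right (by omega) (by omega)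
      · intro C hC
        refine (h2 C hC).trans ?_
        have h5 : g ≤ 2 * Nat.log 2 n := by omega
        calc 2 * b = 2 * Bc * g := by rw [hb]; ring
          _ ≤ 2 * Bc * (2 * Nat.log 2 n) := Nat.mul_le_mul_left _ h5
          _ = 4 * Bc * Nat.log 2 n := by ring
          _ ≤ c * Nat.log 2 n := Nat.mul_le_mul_right _ (by omega)
      · intro x
        have h4 : m₀ ≤ falsified F x := by
          have := h3 x
          omega
        have h5 : g ≤ 2 * Nat.log 2 n := by omega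
        have h6 : n ≤ 8 * L * Bc * Nat.log 2 n * m₀ := by
          calc n ≤ b * (K + 1) := hnK.le
            _ ≤ b * (2 * (L * (2 * m₀))) := by
                apply Nat.mul_le_mul_left
                have : L * (m₀ + 1) ≤ L * (2 * m₀) := Nat.mul_le_mul_left _ (by omega)
                omega
            _ = 4 * L * Bc * m₀ * g := by rw [hb]; ring
            _ ≤ 4 * L * Bc * m₀ * (2 * Nat.log 2 n) := Nat.mul_le_mul_left _ h5
            _ = _ := by ring
        calc n ≤ 8 * L * Bc * Nat.log 2 n * m₀ := h6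
          _ ≤ c * Nat.log 2 n * falsified F x := by
              apply Nat.mul_le_mul _ h4
              exact Nat.mul_le_mul_right _ (by omega))
  -- real exponents
  have hLR : (8 : ℝ) ≤ L := by exact_mod_cast hL
  have hgR : (4 : ℝ) ≤ g := by exact_mod_cast hg2
  have hBcR : (0 : ℝ) < Bc := by exact_mod_cast hBcpos
  have hnR0 : (0 : ℝ) ≤ n := by positivity
  have hgK : (n : ℝ) / Bc ≤ g * K + g := by
    rw [div_le_iff₀ hBcR]
    have h1 : (n : ℝ) ≤ b * (K + 1) := by exact_mod_cast hnK.le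
    have h2 : (b : ℝ) = Bc * g := by rw [hb]; push_cast; ring
    rw [h2] at h1
    calc (n : ℝ) ≤ Bc * g * (K + 1) := h1
      _ = _ := by ring
  have hgK' : (g : ℝ) * K ≤ n / Bc := by
    rw [le_div_iff₀ hBcR]
    have h1 : (K : ℝ) * b ≤ n := by exact_mod_cast hKb
    have h2 : (b : ℝ) = Bc * g := by rw [hb]; push_cast; ring
    rw [h2] at h1
    calc (g : ℝ) * K * Bc = K * (Bc * g) := by ring
      _ ≤ n := h1
  have hpow4H : (4 * (H : ℝ)) ^ K ≤ (2 : ℝ) ^ (((g : ℝ) + 2) * K : ℝ) := by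
    have h1 : (4 * (H : ℝ)) ≤ 2 ^ (g + 2) := by
      rw [pow_add]; linarith
    calc (4 * (H : ℝ)) ^ K ≤ (2 ^ (g + 2)) ^ K := pow_le_pow_left₀ (by positivity) h1 _
      _ = (2 : ℝ) ^ (((g : ℝ) + 2) * K : ℝ) := by
          rw [← pow_mul, ← Real.rpow_natCast]
          congr 1
          push_cast
          ring
  have hKsq : (K : ℝ) ^ 2 ≤ (2 : ℝ) ^ (2 * (g : ℝ)) := by
    calc (K : ℝ) ^ 2 ≤ (2 ^ g) ^ 2 := pow_le_pow_left₀ (by positivity) hK2gR _
      _ = (2 : ℝ) ^ (2 * (g : ℝ)) := by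
          rw [← pow_mul, ← Real.rpow_natCast]
          congr 1
          push_cast
          ring
  -- the far part
  have hfar : (K : ℝ) ^ 2 * farE K H m₀ (l * r) ≤ δ / 2 := by
    have h1 : (l * r) ^ m₀ ≤ (2 : ℝ) ^ (-(8 * L * g * m₀) : ℝ) := by
      calc (l * r) ^ m₀ ≤ ((1 / 2 : ℝ) ^ (a - g)) ^ m₀ := pow_le_pow_left₀ hlr0 hlr _
        _ = (2 : ℝ) ^ (-(8 * L * g * m₀) : ℝ) := by
            have e1 : a - g = 8 * L * g := by
              rw [ha, hA]
              have : (8 * L + 1) * g = 8 * L * g + g := by ring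
              omega
            rw [e1, ← pow_mul, one_div, inv_pow, Real.rpow_neg (by norm_num), ← Real.rpow_natCast]
            congr 2
            push_cast
            ring
    have h2 : (2 : ℝ) ^ K = (2 : ℝ) ^ (K : ℝ) := (Real.rpow_natCast _ _).symm
    unfold farE
    calc (K : ℝ) ^ 2 * (2 ^ K * (4 * (H : ℝ)) ^ K * (l * r) ^ m₀)
        ≤ (2 : ℝ) ^ (2 * (g : ℝ)) * ((2 : ℝ) ^ (K : ℝ) * (2 : ℝ) ^ (((g : ℝ) + 2) * K : ℝ)
          * (2 : ℝ) ^ (-(8 * L * g * m₀) : ℝ)) := by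
          rw [h2]
          apply mul_le_mul hKsq _ (by positivity) (by positivity)
          apply mul_le_mul _ h1 (by positivity) (by positivity)
          exact mul_le_mul_of_nonneg_left hpow4H (by positivity)
      _ = (2 : ℝ) ^ (2 * (g : ℝ) + ((K : ℝ) + ((g : ℝ) + 2) * K + (-(8 * L * g * m₀)))) := by
          rw [← Real.rpow_add (by norm_num), ← Real.rpow_add (by norm_num),
            ← Real.rpow_add (by norm_num)]
      _ ≤ (2 : ℝ) ^ (-(n / (Bc : ℝ)) - 1 : ℝ) := by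
          apply Real.rpow_le_rpow_of_exponent_le (by norm_num)
          have h3 : (K : ℝ) ≤ L * m₀ + L := by
            have : K ≤ L * m₀ + L := by
              have : L * (m₀ + 1) = L * m₀ + L := by ring
              omega
            exact_mod_cast this
          have h4 : (g : ℝ) * K ≤ g * (L * m₀) + g * L := by
            have := mul_le_mul_of_nonneg_left h3 (by linarith : (0 : ℝ) ≤ g)
            linarith
          have h5 : 3 * (K : ℝ) ≤ 3 * (g * K) := by
            have : (1 : ℝ) * K ≤ g * K := mul_le_mul_of_nonneg_right (by linarith) (by positivity)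
            linarith
          have h6 : ((Bc : ℝ) * ((10 + 8 * L) * g)) ≤ n := by
            have h7 := hlin (Bc * (10 + 8 * L)) (by
              have h0 : Bc * (10 + 8 * L) ≤ 16 * L * Bc := by
                calc Bc * (10 + 8 * L) ≤ Bc * (16 * L) := Nat.mul_le_mul_left _ (by omega)
                  _ = 16 * L * Bc := by ring
              exact h0.trans ((Nat.le_add_left _ _).trans (Nat.le_add_right _ _)))
            have h8 : ((Bc * (10 + 8 * L) * g : ℕ) : ℝ) ≤ n := by exact_mod_cast h7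
            push_cast at h8
            linarith
          have h7 : (10 + 8 * (L : ℝ)) * g ≤ n / Bc := by
            rw [le_div_iff₀ hBcR]
            linarith
          have h8 : 0 ≤ (n : ℝ) / Bc := by positivity
          linarith
      _ = δ / 2 := by
          rw [Real.rpow_sub (by norm_num), Real.rpow_one]
  -- the tail
  have htail : tailB K H (2 ^ b) l ≤ 1 / (r ^ 2 * ((2 ^ b : ℕ) : ℝ)) ^ D := by
    rw [hrq, le_div_iff₀ (by positivity)]
    have hexp : Real.exp (-(l ^ 2 / 2)) ≤ (2 : ℝ) ^ (-((K : ℝ) ^ 2 / 2) : ℝ) := by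
      rw [hl, Real.exp_neg, Real.rpow_neg (by norm_num)]
      apply inv_anti₀ (by positivity)
      rw [← Real.exp_one_rpow]
      apply Real.rpow_le_rpow (by norm_num) _ (by positivity)
      have := Real.exp_one_gt_d9
      linarith
    have h1 : (2 : ℝ) ^ K = (2 : ℝ) ^ (K : ℝ) := (Real.rpow_natCast _ _).symm
    have h2 : (H : ℝ) ^ K ≤ (2 : ℝ) ^ ((g : ℝ) * K) := by
      calc (H : ℝ) ^ K ≤ (2 ^ g) ^ K := pow_le_pow_left₀ (by positivity) hHR _
        _ = _ := by rw [← pow_mul, ← Real.rpow_natCast]; push_cast; rfl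
    have h3 : (K : ℝ) ≤ (2 : ℝ) ^ (g : ℝ) := by rw [Real.rpow_natCast]; exact hK2gR
    have h4 : ((2 ^ b * H : ℕ) : ℝ) ^ K ≤ (2 : ℝ) ^ (((b : ℝ) + g) * K) := by
      have h5 : ((2 ^ b * H : ℕ) : ℝ) ≤ 2 ^ (b + g) := by
        push_cast
        rw [pow_add]
        exact mul_le_mul_of_nonneg_left hHR (by positivity)
      calc ((2 ^ b * H : ℕ) : ℝ) ^ K ≤ (2 ^ (b + g)) ^ K := pow_le_pow_left₀ (by positivity) h5 _
        _ = _ := by rw [← pow_mul, ← Real.rpow_natCast]; push_cast; rfl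
    have h5 : ((2 : ℝ) ^ (b - 2 * a)) ^ D ≤ (2 : ℝ) ^ ((b : ℝ) * K) := by
      calc ((2 : ℝ) ^ (b - 2 * a)) ^ D ≤ ((2 : ℝ) ^ b) ^ K := by
            rw [← pow_mul, ← pow_mul]
            apply pow_le_pow_right₀ (by norm_num)
            exact Nat.mul_le_mul (by omega) (by omega)
        _ = _ := by rw [← pow_mul, ← Real.rpow_natCast]; push_cast; rfl
    unfold tailB
    calc 2 ^ K * (H : ℝ) ^ K * (2 * Real.exp (-(l ^ 2 / 2)) * (K * ((2 ^ b * H : ℕ) : ℝ) ^ K))
          * ((2 : ℝ) ^ (b - 2 * a)) ^ D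
        ≤ ((2 : ℝ) ^ (K : ℝ) * (2 : ℝ) ^ ((g : ℝ) * K) * (2 * (2 : ℝ) ^ (-((K : ℝ) ^ 2 / 2) : ℝ)
          * ((2 : ℝ) ^ (g : ℝ) * (2 : ℝ) ^ (((b : ℝ) + g) * K)))) * (2 : ℝ) ^ ((b : ℝ) * K) := by
          rw [h1]
          apply mul_le_mul _ h5 (by positivity) (by positivity)
          apply mul_le_mul
          · exact mul_le_mul_of_nonneg_left h2 (by positivity)
          · apply mul_le_mul
            · exact mul_le_mul_of_nonneg_left hexp (by norm_num)
            · exact mul_le_mul h3 h4 (by positivity) (by positivity)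
            · positivity
            · positivity
          · positivity
          · positivity
      _ = (2 : ℝ) ^ ((K : ℝ) + g * K + (1 + -((K : ℝ) ^ 2 / 2) + (g + ((b : ℝ) + g) * K))
          + b * K) := by
          rw [Real.rpow_add (by norm_num), Real.rpow_add (by norm_num),
            Real.rpow_add (by norm_num), Real.rpow_add (by norm_num),
            Real.rpow_add (by norm_num), Real.rpow_add (by norm_num), Real.rpow_one]
      _ ≤ (2 : ℝ) ^ (0 : ℝ) := by
          apply Real.rpow_le_rpow_of_exponent_le (by norm_num)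
          have h6 : (4 + 6 * g + 4 * b : ℝ) ≤ K := by exact_mod_cast hK2
          have hK0 : (1 : ℝ) ≤ K := by
            have : (0 : ℝ) ≤ b := by positivity
            linarith
          have h7 : (4 + 6 * g + 4 * b : ℝ) * K ≤ K * K :=
            mul_le_mul_of_nonneg_right h6 (by linarith)
          have h8 : (2 + 2 * g : ℝ) * 1 ≤ (2 + 2 * g) * K :=
            mul_le_mul_of_nonneg_left hK0 (by linarith)
          linarith
      _ = 1 := Real.rpow_zero _
  have herr : (K : ℝ) ^ 2 * errE K H (2 ^ b) D r l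
      ≤ (2 : ℝ) ^ (2 * (g : ℝ) + ((g : ℝ) + 2) * K + 1 - ((b : ℝ) - 2 * a) * D) := by
    unfold errE
    have h1 : 1 / (r ^ 2 * ((2 ^ b : ℕ) : ℝ)) ^ D = (2 : ℝ) ^ (-(((b : ℝ) - 2 * a) * D)) := by
      rw [hrq, ← pow_mul, one_div, Real.rpow_neg (by norm_num), ← Real.rpow_natCast]
      congr 2
      have : 2 * a ≤ b := by
        rw [hba]; exact Nat.mul_le_mul_right a (by omega)
      push_cast [Nat.cast_sub this]
      ring
    calc (K : ℝ) ^ 2 * ((4 * (H : ℝ)) ^ K * (tailB K H (2 ^ b) l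
          + 1 / (r ^ 2 * ((2 ^ b : ℕ) : ℝ)) ^ D))
        ≤ (2 : ℝ) ^ (2 * (g : ℝ)) * ((2 : ℝ) ^ (((g : ℝ) + 2) * K : ℝ)
          * (2 * (2 : ℝ) ^ (-(((b : ℝ) - 2 * a) * D)))) := by
          have hT0 : 0 ≤ tailB K H (2 ^ b) l := by unfold tailB; positivity
          have h2 : tailB K H (2 ^ b) l + 1 / (r ^ 2 * ((2 ^ b : ℕ) : ℝ)) ^ D
              ≤ 2 * (2 : ℝ) ^ (-(((b : ℝ) - 2 * a) * D)) := by
            rw [← h1]; linarith
          have h3 : 0 ≤ tailB K H (2 ^ b) l + 1 / (r ^ 2 * ((2 ^ b : ℕ) : ℝ)) ^ D := by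
            rw [h1]; positivity
          apply mul_le_mul hKsq _ (mul_nonneg (by positivity) h3) (by positivity)
          exact mul_le_mul hpow4H h2 h3 (by positivity)
      _ = _ := by
          have e : (2 * (g : ℝ) + ((g : ℝ) + 2) * K + 1 - ((b : ℝ) - 2 * a) * D)
              = 2 * (g : ℝ) + (((g : ℝ) + 2) * K + (1 + -(((b : ℝ) - 2 * a) * D))) := by ring
          rw [e, Real.rpow_add (by norm_num), Real.rpow_add (by norm_num),
            Real.rpow_add (by norm_num), Real.rpow_one]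
  have hmain : δ / 2 ≤ ((s + 1 : ℕ) : ℝ)
      * (2 : ℝ) ^ (2 * (g : ℝ) + ((g : ℝ) + 2) * K + 1 - ((b : ℝ) - 2 * a) * D) := by
    have h1 := mul_le_mul_of_nonneg_left herr (show (0 : ℝ) ≤ ((s + 1 : ℕ) : ℝ) by positivity)
    linarith
  set E2 : ℝ := 2 * (g : ℝ) + ((g : ℝ) + 2) * K + 1 - ((b : ℝ) - 2 * a) * D with hE2
  have hs : (2 : ℝ) ^ (-(n / (Bc : ℝ)) - 1 - E2 : ℝ) ≤ ((s + 1 : ℕ) : ℝ) := by
    have e1 : (2 : ℝ) ^ (-(n / (Bc : ℝ)) - 1 - E2 : ℝ) = (δ / 2) / (2 : ℝ) ^ E2 := by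
      rw [Real.rpow_sub (by norm_num), Real.rpow_sub (by norm_num), Real.rpow_one]
    rw [e1, div_le_iff₀ (by positivity)]
    exact hmain
  refine le_trans ?_ hs
  apply Real.rpow_le_rpow_of_exponent_le (by norm_num)
  -- the exponent
  have hLR0 : (0 : ℝ) < L := by linarith
  have hbR : (b : ℝ) = 2 * L * a := by rw [hba]; push_cast; ring
  have hbgR : (b : ℝ) = Bc * g := by rw [hb]; push_cast; ring
  have hDR : (D : ℝ) = K - 2 * m₀ := by
    rw [hD]
    push_cast [Nat.cast_sub (show 2 * m₀ ≤ K by omega)]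
    ring
  have hm₀R : (m₀ : ℝ) ≤ K / L := by
    rw [le_div_iff₀ hLR0]
    have : (L : ℝ) * m₀ ≤ K := by exact_mod_cast hLm
    linarith
  have ha0 : (0 : ℝ) ≤ a := by positivity
  have hK0 : (0 : ℝ) ≤ K := by positivity
  have hD1 : (K : ℝ) * (1 - 2 / L) ≤ D := by
    rw [hDR]
    have : (K : ℝ) * (1 - 2 / L) = K - 2 * (K / L) := by ring
    linarith
  have hb1 : (b : ℝ) - 2 * a = b * (1 - 1 / L) := by
    rw [hbR]; field_simp
  have h1L : 1 / (L : ℝ) ≤ 1 / 8 := by
    apply one_div_le_one_div_of_le (by norm_num) hLR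
  have h1L0 : 0 ≤ 1 / (L : ℝ) := by positivity
  have hbD : (b : ℝ) * K * (1 - 3 * (1 / L)) ≤ ((b : ℝ) - 2 * a) * D := by
    rw [hb1]
    calc (b : ℝ) * K * (1 - 3 * (1 / L)) ≤ (b : ℝ) * K * ((1 - 1 / L) * (1 - 2 / L)) := by
          apply mul_le_mul_of_nonneg_left _ (by positivity)
          have : (1 - 1 / (L : ℝ)) * (1 - 2 / L) = 1 - 3 * (1 / L) + 2 * (1 / L) ^ 2 := by ring
          rw [this]
          have : 0 ≤ 2 * (1 / (L : ℝ)) ^ 2 := by positivity
          linarith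
      _ = (b : ℝ) * (1 - 1 / L) * (K * (1 - 2 / L)) := by ring
      _ ≤ (b : ℝ) * (1 - 1 / L) * D := by
          apply mul_le_mul_of_nonneg_left hD1
          apply mul_nonneg (by positivity)
          linarith
  have hbK : (n : ℝ) - b ≤ b * K := by
    have h1 : (n : ℝ) ≤ b * (K + 1) := by exact_mod_cast hnK.le
    linarith
  have hbK2 : ((n : ℝ) - b) * (1 - 3 * (1 / L)) ≤ (b : ℝ) * K * (1 - 3 * (1 / L)) :=
    mul_le_mul_of_nonneg_right hbK (by linarith)
  have hg3 : ((g : ℝ) + 2) * K ≤ 3 * (n / Bc) := by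
    have h2 : 2 * (K : ℝ) ≤ 2 * (g * K) := by
      have : (1 : ℝ) * K ≤ g * K := mul_le_mul_of_nonneg_right (by linarith) hK0
      linarith
    linarith
  have hnBc : 4 * ((n : ℝ) / Bc) ≤ n * (1 / L) := by
    have h3 : (4 * L : ℝ) ≤ Bc := by exact_mod_cast (by omega : 4 * L ≤ Bc)
    have h4 : 4 * ((n : ℝ) / Bc) = n * (4 / Bc) := by ring
    rw [h4]
    apply mul_le_mul_of_nonneg_left _ hnR0
    rw [div_le_div_iff₀ hBcR hLR0]
    linarith
  have hlast : (3 : ℝ) + 2 * g + b ≤ 4 * (n * (1 / L)) := by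
    have h5 := hlin (L * (3 + Bc)) (by
      have h0 : L * (3 + Bc) ≤ 16 * L * Bc := by
        calc L * (3 + Bc) ≤ L * (16 * Bc) := Nat.mul_le_mul_left _ (by omega)
          _ = 16 * L * Bc := by ring
      exact h0.trans ((Nat.le_add_left _ _).trans (Nat.le_add_right _ _)))
    have h6 : ((L * (3 + Bc) * g : ℕ) : ℝ) ≤ n := by exact_mod_cast h5
    push_cast at h6
    have h7 : (3 + (Bc : ℝ)) * g ≤ n * (1 / L) := by
      rw [mul_one_div, le_div_iff₀ hLR0]
      linarith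
    have h8 : 0 ≤ (n : ℝ) * (1 / L) := by positivity
    have h9 : (3 + (Bc : ℝ)) * g = 3 * g + b := by rw [hbgR]; ring
    linarith
  have hb0 : (0 : ℝ) ≤ b := by positivity
  have h3b : (n : ℝ) * (1 - 3 * (1 / L)) - b ≤ ((n : ℝ) - b) * (1 - 3 * (1 / L)) := by
    have : 0 ≤ (b : ℝ) * (3 * (1 / L)) := by positivity
    linarith
  have e8 : (1 - 8 / (L : ℝ)) * n + 1 = n * (1 - 3 * (1 / L)) - 5 * (n * (1 / L)) + 1 := by ring
  rw [e8, hE2]
  linarith

/-- The strong exponential time hypothesis for linear programming formulations. -/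
theorem lp_main (ε : ℝ) (hε : 0 < ε) : ∃ (c : ℕ) (η : ℝ), 0 < η ∧ ∀ᶠ n : ℕ in atTop,
    ∀ (s : ℕ) (P : LPFormulation n s),
      (∀ F : Finset (Clause n), F.card ≤ n ^ c → (∀ C ∈ F, C.card ≤ c * Nat.log 2 n) →
        (∀ x, n ≤ c * Nat.log 2 n * falsified F x) →
        P.Certifies F ((2 : ℝ) ^ (-(η * n)))) →
      (2 : ℝ) ^ ((1 - ε) * n) ≤ s := by
  obtain ⟨L, hL8, hLε⟩ : ∃ L : ℕ, 8 ≤ L ∧ 8 / (L : ℝ) ≤ min ε 1 := by
    obtain ⟨L, hL⟩ := exists_nat_gt (8 / min ε 1)
    have hm : 0 < min ε 1 := lt_min hε one_pos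
    refine ⟨L + 8, by omega, ?_⟩
    rw [div_le_iff₀ (by positivity)]
    rw [div_lt_iff₀ hm] at hL
    push_cast
    linarith
  obtain ⟨n₀, hn₀⟩ := lp_param L hL8
  refine ⟨8 * L * (2 * L * (8 * L + 1)) + 4 + 4 * (2 * L * (8 * L + 1)),
    1 / ((2 * L * (8 * L + 1) : ℕ) : ℝ), ?_, ?_⟩
  · have : 0 < 2 * L * (8 * L + 1) := by positivity
    have h2 : (0 : ℝ) < ((2 * L * (8 * L + 1) : ℕ) : ℝ) := by exact_mod_cast this
    positivity
  · filter_upwards [eventually_ge_atTop n₀] with n hn s P hP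
    have h1 := hn₀ n hn s P (by
      intro F h1 h2 h3
      have := hP F h1 h2 h3
      have e : -(1 / ((2 * L * (8 * L + 1) : ℕ) : ℝ) * (n : ℝ))
          = -((n : ℝ) / ((2 * L * (8 * L + 1) : ℕ) : ℝ)) := by ring
      rw [e] at this
      exact this)
    have hn0 : (0 : ℝ) ≤ n := by positivity
    have h2 : (2 : ℝ) ^ ((1 - min ε 1) * n + 1 : ℝ) ≤ ((s + 1 : ℕ) : ℝ) := by
      refine le_trans ?_ h1
      apply Real.rpow_le_rpow_of_exponent_le (by norm_num)
      have : (1 - min ε 1) * (n : ℝ) ≤ (1 - 8 / (L : ℝ)) * n :=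
        mul_le_mul_of_nonneg_right (by linarith) hn0
      linarith
    rw [Real.rpow_add (by norm_num), Real.rpow_one] at h2
    have h3 : (1 : ℝ) ≤ (2 : ℝ) ^ ((1 - min ε 1) * n : ℝ) := by
      apply Real.one_le_rpow (by norm_num)
      apply mul_nonneg _ hn0
      have := min_le_right ε 1
      linarith
    push_cast at h2
    have h4 : (2 : ℝ) ^ ((1 - min ε 1) * n : ℝ) ≤ s := by linarith
    refine le_trans ?_ h4
    apply Real.rpow_le_rpow_of_exponent_le (by norm_num)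
    apply mul_le_mul_of_nonneg_right _ hn0
    have := min_le_left ε 1
    linarith

end Pool.Agent.TH689.LX
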