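import Mathlib
import Pool.Agent.TH689.LXDefs

/-!
The trivial linear programming formulation: the simplex whose vertices are the assignments.
-/

set_option autoImplicit false

namespace Pool.Agent.TH689.LX

open Finset Pool.Agent.H538R2.SB

/-- exhaustive search as a linear programming formulation -/
theorem lp_upper (n : ℕ) : ∃ P : LPFormulation n (2 ^ n), ∀ (F : Finset (Clause n)) (δ : ℝ),
    (∀ x, δ ≤ falsified F x) → P.Certifies F δ := by
  classical
  have hcard : Fintype.card (Asg n) = 2 ^ n := by
    rw [Fintype.card_fun, Fintype.card_bool, Fintype.card_fin]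
  let e : Asg n ≃ Fin (2 ^ n) := Fintype.equivFinOfCardEq hcard
  refine ⟨{ d := 2 ^ n, t := 1, A := fun i j => if j = i then -1 else 0, b := fun _ => 0,
            A' := fun _ _ => 1, b' := fun _ => 1,
            point := fun x j => if j = e x then 1 else 0,
            feasible := ?_ }, ?_⟩
  · intro x
    refine ⟨fun i => ?_, fun _ => ?_⟩
    · simp only [ite_mul, zero_mul, Finset.sum_ite_eq', Finset.mem_univ, if_true]
      split_ifs <;> norm_num
    · simp
  · intro F δ hF
    refine ⟨fun j => falsified F (e.symm j), 0, ?_, ?_⟩
    · intro x
      simp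
    · intro u hu hu'
      have h0 : ∀ j, 0 ≤ u j := by
        intro j
        have := hu j
        simp only [ite_mul, zero_mul, Finset.sum_ite_eq', Finset.mem_univ, if_true] at this
        linarith
      have h1 : ∑ j, u j = 1 := by
        have := hu' 0
        simpa using this
      simp only [add_zero]
      calc δ = ∑ j, δ * u j := by rw [← Finset.mul_sum, h1, mul_one]
        _ ≤ ∑ j, (falsified F (e.symm j) : ℝ) * u j :=
          Finset.sum_le_sum (fun j _ => mul_le_mul_of_nonneg_right (hF _) (h0 j))

end Pool.Agent.TH689.LX
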