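import Mathlib
import Pool.Agent.TH689.QXBound

/-!
Relaxations for a subfamily of the hypotheses, and relaxations which are correct at every hypothesis
with high probability.
-/

set_option autoImplicit false

namespace Pool.Agent.TH689.QX

open Finset Pool.Agent.TH689.GX

variable {X X' 𝒞 : Type} {a s r D T : ℕ}

/-- the scheme for a family of hypotheses -/
def comap (P : Scheme X 𝒞 a s r D) (ι : X' → X) : Scheme X' 𝒞 a s r D where
  d := P.d
  space := P.space
  bin := P.bin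
  map := P.map
  set := P.set
  set_convex := P.set_convex
  locMap := P.locMap
  locSet := P.locSet
  locSet_convex := P.locSet_convex
  point := fun x => P.point (ι x)

lemma comap_correct (P : Scheme X 𝒞 a s r D) (ι : X' → X) (Viol : 𝒞 → X → Prop) (x : X') :
    (comap P ι).CorrectAt (fun c x => Viol c (ι x)) x ↔ P.CorrectAt Viol (ι x) := Iff.rfl

lemma comap_near (P : Scheme X 𝒞 a s r D) (ι : X' → X) (Viol : 𝒞 → X → Prop) (c : 𝒞) (i : Fin r)
    (δ : ℝ) (u : Fin P.d → ℝ)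
    (h : (comap P ι).Near (fun c x => Viol c (ι x)) c i δ u) : P.Near Viol c i δ u := by
  obtain ⟨θ, h0, h1, a, ha, b, hb, hab⟩ := h
  refine ⟨θ, h0, h1, a, ha, b, ?_, hab⟩
  refine convexHull_mono ?_ hb
  rintro _ ⟨x, hx, rfl⟩
  exact ⟨ι x, (comap_correct P ι Viol x).1 hx, rfl⟩

lemma comap_fits (P : Scheme X 𝒞 a s r D) (ι : X' → X) (Viol : 𝒞 → X → Prop) (y : Fin T → 𝒞)
    (δ : ℝ) (u : Fin P.d → ℝ)
    (h : Fits (comap P ι) (fun c x => Viol c (ι x)) y δ u) : Fits P Viol y δ u :=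
  ⟨h.1, h.2.1, h.2.2.1, fun t i => comap_near P ι Viol (y t) i δ u (h.2.2.2 t i)⟩

lemma comap_rejects (P : Scheme X 𝒞 a s r D) (ι : X' → X) (Viol : 𝒞 → X → Prop) (y : Fin T → 𝒞)
    (δ : ℝ) (h : Rejects P Viol y δ) : Rejects (comap P ι) (fun c x => Viol c (ι x)) y δ := by
  rcases h with h | ⟨f, hf, h⟩
  · exact Or.inl fun u hu => h u (comap_fits P ι Viol y δ u hu)
  · right
    refine ⟨f, ?_, fun u hu => h u (comap_fits P ι Viol y δ u hu)⟩
    intro x hx
    exact hf (ι x) ((comap_correct P ι Viol x).1 hx)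

lemma comap_rate [Fintype 𝒞] (P : Scheme X 𝒞 a s r D) (ι : X' → X) (Viol : 𝒞 → X → Prop) (δ : ℝ) :
    rejectRate P Viol T δ ≤ rejectRate (comap P ι) (fun c x => Viol c (ι x)) T δ := by
  unfold rejectRate
  apply div_le_div_of_nonneg_right _ (Nat.cast_nonneg _)
  have h1 : {y : Fin T → 𝒞 | Rejects P Viol y δ}
      ⊆ {y : Fin T → 𝒞 | Rejects (comap P ι) (fun c x => Viol c (ι x)) y δ} :=
    fun y hy => comap_rejects P ι Viol y δ hy
  exact_mod_cast Set.ncard_le_ncard h1 (Set.toFinite _)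

lemma rejectRate_bd [Fintype 𝒞] (P : Scheme X 𝒞 a s r D) (Viol : 𝒞 → X → Prop) (δ : ℝ) :
    0 ≤ rejectRate P Viol T δ ∧ rejectRate P Viol T δ ≤ 1 := by
  unfold rejectRate
  refine ⟨by positivity, ?_⟩
  apply div_le_one_of_le₀ _ (Nat.cast_nonneg _)
  have h1 := Set.ncard_le_ncard (Set.subset_univ {y : Fin T → 𝒞 | Rejects P Viol y δ})
    (Set.toFinite _)
  rw [Set.ncard_univ] at h1
  exact_mod_cast h1

open Classical in
/-- The lower bound for schemes which are correct at every hypothesis with high probability. -/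
theorem learn_worst [Fintype X'] [Nonempty X'] [Fintype 𝒞] [Nonempty 𝒞]
    (Viol : 𝒞 → X → Prop) (ι : X' → X) {ψ : 𝒞 → X' → ℝ} {κ : ℝ}
    (htw : Twist (fun c x => Viol c (ι x)) ψ κ)
    (hT : 1 ≤ T) {δ : ℝ} (hδ0 : 0 < δ) (hδ1 : δ < 1) (Ω : Type) [Fintype Ω] (p : Ω → ℝ)
    (hp : ∀ ω, 0 ≤ p ω) (hp1 : ∑ ω, p ω = 1) (a s r D : Ω → ℕ) (M : ℝ)
    (hM : ∀ ω, (2 : ℝ) ^ a ω * (s ω + (r ω + 1) * T + 1) * (D ω + 2) ≤ M)
    (P : ∀ ω, Scheme X 𝒞 (a ω) (s ω) (r ω) (D ω)) (η : ℝ)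
    (hη : ∀ x, ∑ ω with ¬ (P ω).CorrectAt Viol (ι x), p ω ≤ η) :
    ∑ ω, p ω * rejectRate (P ω) Viol T δ ≤ η + 2 * (T : ℝ) ^ 3 * κ / δ ^ 2 * M := by
  set Viol' : 𝒞 → X' → Prop := fun c x => Viol c (ι x) with hViol'
  have h1 := learn_random Viol' htw hT hδ0 hδ1 Ω p hp hp1 a s r D M hM (fun ω => comap (P ω) ι)
  have hX : (0 : ℝ) < Fintype.card X' := by exact_mod_cast Fintype.card_pos
  have hterm : ∀ ω, p ω * rejectRate (P ω) Viol T δ
      ≤ p ω * ((comap (P ω) ι).correctRate Viol' * rejectRate (comap (P ω) ι) Viol' T δ)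
        + p ω * (1 - (comap (P ω) ι).correctRate Viol') := by
    intro ω
    rw [← mul_add]
    apply mul_le_mul_of_nonneg_left _ (hp ω)
    have h2 := comap_rate (T := T) (P ω) ι Viol δ
    obtain ⟨h3, h4⟩ := rejectRate_bd (T := T) (comap (P ω) ι) Viol' δ
    have h5 : (comap (P ω) ι).correctRate Viol' ≤ 1 := by
      rw [correct_sum]
      apply div_le_one_of_le₀ _ hX.le
      calc ∑ x, vld (comap (P ω) ι) Viol' x ≤ ∑ _x : X', (1 : ℝ) :=
            Finset.sum_le_sum (fun x _ => (vld_bd _ _ x).2)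
        _ = _ := by rw [Finset.sum_const, Finset.card_univ, nsmul_eq_mul, mul_one]
    have h6 := mul_le_mul_of_nonneg_left h4 (sub_nonneg.2 h5)
    have h7 : rejectRate (P ω) Viol T δ ≤ rejectRate (comap (P ω) ι) Viol' T δ := h2
    linarith
  have hmiss : ∑ ω, p ω * (1 - (comap (P ω) ι).correctRate Viol') ≤ η := by
    have h2 : ∀ ω, p ω * (1 - (comap (P ω) ι).correctRate Viol')
        = (∑ x, p ω * (1 - vld (comap (P ω) ι) Viol' x)) / Fintype.card X' := by
      intro ω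
      rw [correct_sum, ← Finset.mul_sum, Finset.sum_sub_distrib, Finset.sum_const,
        Finset.card_univ, nsmul_eq_mul, mul_one]
      field_simp
    rw [Finset.sum_congr rfl (fun ω _ => h2 ω), ← Finset.sum_div, Finset.sum_comm,
      div_le_iff₀ hX]
    have h3 : ∀ x, ∑ ω, p ω * (1 - vld (comap (P ω) ι) Viol' x) ≤ η := by
      intro x
      refine le_trans (le_of_eq ?_) (hη x)
      rw [Finset.sum_filter]
      apply Finset.sum_congr rfl
      intro ω _
      unfold vld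
      by_cases hc : (P ω).CorrectAt Viol (ι x)
      · rw [if_pos ((comap_correct (P ω) ι Viol x).2 hc), if_neg (not_not.2 hc)]
        ring
      · rw [if_neg (fun h => hc ((comap_correct (P ω) ι Viol x).1 h)), if_pos hc]
        ring
    calc ∑ x, ∑ ω, p ω * (1 - vld (comap (P ω) ι) Viol' x) ≤ ∑ _x : X', η :=
          Finset.sum_le_sum (fun x _ => h3 x)
      _ = _ := by rw [Finset.sum_const, Finset.card_univ, nsmul_eq_mul]; ring
  calc ∑ ω, p ω * rejectRate (P ω) Viol T δ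
      ≤ ∑ ω, (p ω * ((comap (P ω) ι).correctRate Viol' * rejectRate (comap (P ω) ι) Viol' T δ)
        + p ω * (1 - (comap (P ω) ι).correctRate Viol')) :=
        Finset.sum_le_sum (fun ω _ => hterm ω)
    _ = _ := Finset.sum_add_distrib
    _ ≤ _ := by linarith

end Pool.Agent.TH689.QX
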