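import Mathlib
import Pool.Agent.TH689.QXComap
import Pool.Agent.TH689.QXJunta
import Pool.Agent.TH689.QXUpper

/-!
Convex programming relaxations of the Exact Triangle problem and of 3SUM.
-/

set_option autoImplicit false

namespace Pool.Agent.TH689.QX

open Finset Pool.Agent.TH689.GX

/-! ### Sums over one digit of all numbers -/

section
variable {X E : Type} [Fintype E] [DecidableEq E]

/-- the four bits which are seen by `x` -/
def see (loc : Fin 4 → X → E) (c : Fin 4 × E → Bool) (x : X) : Fin 4 → Bool :=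
  fun l => c (l, loc l x)

/-- flips of the bits which are seen by `x` -/
def flp (loc : Fin 4 → X → E) (x : X) (m : Fin 4 → Bool) (c : Fin 4 × E → Bool) :
    Fin 4 × E → Bool := fun p => if p.2 = loc p.1 x then xor (c p) (m p.1) else c p

omit [Fintype E] in
lemma flp_invol (loc : Fin 4 → X → E) (x : X) (m : Fin 4 → Bool) :
    Function.Involutive (flp loc x m) := by
  intro c
  funext p
  unfold flp
  by_cases hp : p.2 = loc p.1 x
  · simp only [if_pos hp, Bool.xor_assoc, Bool.xor_self, Bool.xor_false]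
  · simp only [if_neg hp]

omit [Fintype E] in
lemma see_flp (loc : Fin 4 → X → E) (x : X) (m : Fin 4 → Bool) (c : Fin 4 × E → Bool) :
    see loc (flp loc x m c) x = fun l => xor (see loc c x l) (m l) := by
  funext l
  simp [see, flp]

omit [Fintype E] in
lemma see_flp_other (loc : Fin 4 → X → E) (x x' : X) (m : Fin 4 → Bool) (c : Fin 4 × E → Bool)
    (h : ∀ l, m l = true → loc l x' ≠ loc l x) :
    see loc (flp loc x m c) x' = see loc c x' := by
  funext l
  unfold see flp
  simp only
  by_cases hl : loc l x' = loc l x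
  · rw [if_pos hl]
    have h1 : m l = false := by
      by_contra hcon
      rw [Bool.not_eq_false] at hcon
      exact h l hcon hl
    rw [h1, Bool.xor_false]
  · rw [if_neg hl]

/-- functions of the seen bits which vanish in the mean over flips are orthogonal -/
lemma orth_of {M : Type} [Fintype M] [Nonempty M] (loc : Fin 4 → X → E) (μ : M → Fin 4 → Bool)
    (F : (Fin 4 → Bool) → ℝ) (hF : ∀ v : Fin 4 → Bool, ∑ m, F (fun l => xor (v l) (μ m l)) = 0) (x x' : X)
    (hloc : ∀ m l, μ m l = true → loc l x' ≠ loc l x) :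
    ∑ c : Fin 4 × E → Bool, F (see loc c x) * F (see loc c x') = 0 := by
  have h1 : ∀ m, ∑ c : Fin 4 × E → Bool, F (see loc c x) * F (see loc c x')
      = ∑ c : Fin 4 × E → Bool, F (fun l => xor (see loc c x l) (μ m l)) * F (see loc c x') := by
    intro m
    have h2 := (Equiv.sum_comp (flp_invol loc x (μ m)).toPerm
      (fun c : Fin 4 × E → Bool => F (see loc c x) * F (see loc c x'))).symm
    refine h2.trans ?_
    apply Finset.sum_congr rfl
    intro c _
    change F (see loc (flp loc x (μ m) c) x) * F (see loc (flp loc x (μ m) c) x') = _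
    rw [see_flp, see_flp_other loc x x' (μ m) c (hloc m)]
  have h2 : ∑ _m : M, ∑ c : Fin 4 × E → Bool, F (see loc c x) * F (see loc c x') = 0 := by
    rw [Finset.sum_congr rfl (fun m _ => h1 m), Finset.sum_comm]
    apply Finset.sum_eq_zero
    intro c _
    rw [← Finset.sum_mul, hF, zero_mul]
  rw [Finset.sum_const, Finset.card_univ, nsmul_eq_mul] at h2
  rcases mul_eq_zero.1 h2 with h3 | h3
  · have : 0 < Fintype.card M := Fintype.card_pos
    exact absurd h3 (by exact_mod_cast this.ne')
  · exact h3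

/-- the mean of a function of the seen bits -/
lemma mean_of {M : Type} [Fintype M] (loc : Fin 4 → X → E) (μ : M → Fin 4 → Bool)
    (F : (Fin 4 → Bool) → ℝ) (K : ℝ) (hF : ∀ v : Fin 4 → Bool, ∑ m, F (fun l => xor (v l) (μ m l)) = K) (x : X) :
    (Fintype.card M : ℝ) * ∑ c : Fin 4 × E → Bool, F (see loc c x)
      = Fintype.card (Fin 4 × E → Bool) * K := by
  have h1 : ∀ m, ∑ c : Fin 4 × E → Bool, F (see loc c x)
      = ∑ c : Fin 4 × E → Bool, F (fun l => xor (see loc c x l) (μ m l)) := by
    intro m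
    have h2 := (Equiv.sum_comp (flp_invol loc x (μ m)).toPerm
      (fun c : Fin 4 × E → Bool => F (see loc c x))).symm
    refine h2.trans ?_
    apply Finset.sum_congr rfl
    intro c _
    change F (see loc (flp loc x (μ m) c) x) = _
    rw [see_flp]
  have h2 : ∑ _m : M, ∑ c : Fin 4 × E → Bool, F (see loc c x)
      = Fintype.card (Fin 4 × E → Bool) * K := by
    rw [Finset.sum_congr rfl (fun m _ => h1 m), Finset.sum_comm,
      Finset.sum_congr rfl (fun c _ => hF _), Finset.sum_const, Finset.card_univ, nsmul_eq_mul]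
  rw [Finset.sum_const, Finset.card_univ, nsmul_eq_mul] at h2
  exact h2

end

/-! ### The twist -/

/-- the twist of the equation `a + b = c + d` for bits -/
def eqTw (a b c d : Bool) : ℤ :=
  if a = b ∧ b = c ∧ c = d then 3 else if a ≠ b ∧ c ≠ d then 1 else -1

/-- the twist as a function of the four seen bits -/
def etw (v : Fin 4 → Bool) : ℝ := (eqTw (v 0) (v 1) (v 2) (v 3) : ℤ)

/-- the equation -/
def Balance (v : Fin 4 → Bool) : Prop :=
  (v 0).toNat + (v 1).toNat = (v 2).toNat + (v 3).toNat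

instance (v : Fin 4 → Bool) : Decidable (Balance v) := by unfold Balance; infer_instance

/-- flips of the first two bits -/
def mA (m : Bool × Bool) : Fin 4 → Bool := ![m.1, m.2, false, false]
/-- flips of all bits but the second one -/
def mB (m : Bool × Bool × Bool) : Fin 4 → Bool := ![m.1, false, m.2.1, m.2.2]
/-- flips of all bits but the first one -/
def mC (m : Bool × Bool × Bool) : Fin 4 → Bool := ![false, m.1, m.2.1, m.2.2]
/-- all flips -/
def mD (m : (Bool × Bool) × Bool × Bool) : Fin 4 → Bool := ![m.1.1, m.1.2, m.2.1, m.2.2]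

lemma eqTw_A : ∀ a b c d : Bool, ∑ m : Bool × Bool, eqTw (xor a m.1) (xor b m.2) c d = 0 := by
  decide

lemma eqTw_B : ∀ a b c d : Bool, ∑ m : Bool × Bool × Bool,
    eqTw (xor a m.1) b (xor c m.2.1) (xor d m.2.2) = 0 := by
  decide

lemma eqTw_C : ∀ a b c d : Bool, ∑ m : Bool × Bool × Bool,
    eqTw a (xor b m.1) (xor c m.2.1) (xor d m.2.2) = 0 := by
  decide

lemma eqTw_D : ∀ a b c d : Bool, ∑ m : (Bool × Bool) × Bool × Bool,
    eqTw (xor a m.1.1) (xor b m.1.2) (xor c m.2.1) (xor d m.2.2) ^ 2 = 32 := by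
  decide

lemma eqTw_bal : ∀ a b c d : Bool,
    (a.toNat + b.toNat = c.toNat + d.toNat → 0 ≤ eqTw a b c d) ∧
    (a.toNat + b.toNat ≠ c.toNat + d.toNat → eqTw a b c d = -1) := by
  decide

lemma count_D : ∀ a b c d : Bool, ∑ m : (Bool × Bool) × Bool × Bool,
    (if (xor a m.1.1).toNat + (xor b m.1.2).toNat = (xor c m.2.1).toNat + (xor d m.2.2).toNat
      then (1 : ℤ) else 0) = 6 := by
  decide

lemma etw_A (v : Fin 4 → Bool) : ∑ m, etw (fun l => xor (v l) (mA m l)) = 0 := by
  unfold etw mA
  simp only [Matrix.cons_val, Bool.xor_false]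
  exact_mod_cast eqTw_A (v 0) (v 1) (v 2) (v 3)

lemma etw_B (v : Fin 4 → Bool) : ∑ m, etw (fun l => xor (v l) (mB m l)) = 0 := by
  unfold etw mB
  simp only [Matrix.cons_val, Bool.xor_false]
  exact_mod_cast eqTw_B (v 0) (v 1) (v 2) (v 3)

lemma etw_C (v : Fin 4 → Bool) : ∑ m, etw (fun l => xor (v l) (mC m l)) = 0 := by
  unfold etw mC
  simp only [Matrix.cons_val, Bool.xor_false]
  exact_mod_cast eqTw_C (v 0) (v 1) (v 2) (v 3)

lemma etw_D (v : Fin 4 → Bool) : ∑ m, etw (fun l => xor (v l) (mD m l)) ^ 2 = 32 := by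
  unfold etw mD
  simp only [Matrix.cons_val]
  exact_mod_cast eqTw_D (v 0) (v 1) (v 2) (v 3)

lemma count_etw (v : Fin 4 → Bool) :
    ∑ m, (if Balance (fun l => xor (v l) (mD m l)) then (1 : ℝ) else 0) = 6 := by
  unfold Balance mD
  simp only [Matrix.cons_val]
  exact_mod_cast count_D (v 0) (v 1) (v 2) (v 3)

section
variable {X E : Type} [Fintype X] [Nonempty X] [Fintype E] [DecidableEq E]

/-- the equation does not hold for the bits which are seen by `x` -/
def Unbal (loc : Fin 4 → X → E) (c : Fin 4 × E → Bool) (x : X) : Prop :=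
  ¬ Balance (see loc c x)

omit [Fintype X] [Nonempty X] [Fintype E] [DecidableEq E] in
lemma etw_bad (loc : Fin 4 → X → E) (c : Fin 4 × E → Bool) (x : X) :
    isBad (Unbal loc) c x * (1 + etw (see loc c x)) = 0 := by
  unfold isBad
  by_cases h : Unbal loc c x
  · rw [if_pos h, one_mul]
    have h1 := (eqTw_bal (see loc c x 0) (see loc c x 1) (see loc c x 2) (see loc c x 3)).2 h
    unfold etw
    rw [h1]
    norm_num
  · rw [if_neg h, zero_mul]

omit [Fintype X] [Nonempty X] [Fintype E] [DecidableEq E] in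
lemma etw_nonneg (loc : Fin 4 → X → E) (c : Fin 4 × E → Bool) (x : X) :
    0 ≤ 1 + etw (see loc c x) := by
  have h1 := eqTw_bal (see loc c x 0) (see loc c x 1) (see loc c x 2) (see loc c x 3)
  have h2 : -1 ≤ eqTw (see loc c x 0) (see loc c x 1) (see loc c x 2) (see loc c x 3) := by
    by_cases h : (see loc c x 0).toNat + (see loc c x 1).toNat
        = (see loc c x 2).toNat + (see loc c x 3).toNat
    · have := h1.1 h
      omega
    · exact (h1.2 h).ge
  unfold etw
  have h3 : (-1 : ℝ) ≤ ((eqTw (see loc c x 0) (see loc c x 1) (see loc c x 2) (see loc c x 3) : ℤ) : ℝ) := by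
    exact_mod_cast h2
  linarith

omit [Fintype X] [Nonempty X] in
lemma etw_mean (loc : Fin 4 → X → E) (x : X) :
    ∑ c : Fin 4 × E → Bool, etw (see loc c x) = 0 := by
  have h1 := mean_of loc mA etw 0 etw_A x
  rw [mul_zero] at h1
  rcases mul_eq_zero.1 h1 with h2 | h2
  · simp at h2
  · exact h2

omit [Fintype X] [Nonempty X] in
lemma etw_sq (loc : Fin 4 → X → E) (x : X) :
    ∑ c : Fin 4 × E → Bool, etw (see loc c x) ^ 2 = 2 * Fintype.card (Fin 4 × E → Bool) := by
  have h1 := mean_of loc mD (fun v => etw v ^ 2) 32 etw_D x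
  have h2 : (Fintype.card ((Bool × Bool) × Bool × Bool) : ℝ) = 16 := by
    norm_num [Fintype.card_prod, Fintype.card_bool]
  rw [h2] at h1
  linarith

omit [Fintype X] [Nonempty X] in
/-- choices which share at most one number -/
lemma etw_orth (loc : Fin 4 → X → E) (x x' : X)
    (h : (loc 0 x' ≠ loc 0 x ∧ loc 1 x' ≠ loc 1 x) ∨
      (loc 0 x' ≠ loc 0 x ∧ loc 2 x' ≠ loc 2 x ∧ loc 3 x' ≠ loc 3 x) ∨
      (loc 1 x' ≠ loc 1 x ∧ loc 2 x' ≠ loc 2 x ∧ loc 3 x' ≠ loc 3 x)) :
    ∑ c : Fin 4 × E → Bool, etw (see loc c x) * etw (see loc c x') = 0 := by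
  rcases h with ⟨h0, h1⟩ | ⟨h0, h2, h3⟩ | ⟨h1, h2, h3⟩
  · apply orth_of loc mA etw etw_A
    intro m l hl
    fin_cases l
    · exact h0
    · exact h1
    · simp [mA] at hl
    · simp [mA] at hl
  · apply orth_of loc mB etw etw_B
    intro m l hl
    fin_cases l
    · exact h0
    · simp [mB] at hl
    · exact h2
    · exact h3
  · apply orth_of loc mC etw etw_C
    intro m l hl
    fin_cases l
    · simp [mC] at hl
    · exact h1
    · exact h2
    · exact h3

omit [Nonempty X] in
/-- The twist for a system of equations. -/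
theorem twist_eq (loc : Fin 4 → X → E) {κ : ℝ} (hκ0 : 0 ≤ κ)
    (hcorr : ∀ x, ∑ x', |∑ c : Fin 4 × E → Bool, etw (see loc c x) * etw (see loc c x')|
      ≤ κ * Fintype.card (Fin 4 × E → Bool) * Fintype.card X) :
    Twist (Unbal loc) (fun c x => etw (see loc c x)) κ := by
  refine ⟨etw_bad loc, etw_nonneg loc, etw_mean loc, hκ0, ?_⟩
  intro Ψ
  rw [sq_corr (fun c x => etw (see loc c x)) Ψ]
  exact schur (fun x x' => ∑ c : Fin 4 × E → Bool, etw (see loc c x) * etw (see loc c x'))
    (fun x x' => Finset.sum_congr rfl (fun c _ => mul_comm _ _)) hcorr Ψ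

omit [Fintype X] [Nonempty X] in
/-- the columns in which the equation holds for `x` -/
lemma unbal_count (loc : Fin 4 → X → E) (x : X) :
    ({c : Fin 4 × E → Bool | ¬ Unbal loc c x}.ncard : ℝ)
      ≤ 3 / 8 * Fintype.card (Fin 4 × E → Bool) := by
  classical
  have h1 := mean_of loc mD (fun v => if Balance v then (1 : ℝ) else 0) 6 count_etw x
  have h2 : (Fintype.card ((Bool × Bool) × Bool × Bool) : ℝ) = 16 := by
    norm_num [Fintype.card_prod, Fintype.card_bool]
  rw [h2, Finset.sum_boole] at h1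
  have h3 : {c : Fin 4 × E → Bool | ¬ Unbal loc c x}.ncard
      = (Finset.univ.filter fun c : Fin 4 × E → Bool => Balance (see loc c x)).card := by
    rw [Set.ncard_eq_toFinset_card']
    congr 1
    ext c
    simp [Unbal]
  rw [h3]
  linarith

end

/-! ### Exact Triangle -/

/-- the three pairs of the triangle with the vertices `i, j, k`; the weight of the third pair is
the sum of two numbers -/
def triLoc {N : ℕ} (l : Fin 4) (x : Fin N × Fin N × Fin N) : Fin N × Fin N :=
  if l = 0 then (x.1, x.2.1) else if l = 1 then (x.2.1, x.2.2) else (x.1, x.2.2)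

lemma tri_orth {N : ℕ} (x x' : Fin N × Fin N × Fin N) (hx : x' ≠ x) :
    ∑ c : Fin 4 × (Fin N × Fin N) → Bool, etw (see triLoc c x) * etw (see triLoc c x') = 0 := by
  apply etw_orth
  obtain ⟨i, j, k⟩ := x
  obtain ⟨i', j', k'⟩ := x'
  simp only [triLoc, ne_eq, Prod.mk.injEq, not_and] at hx ⊢
  by_cases hi : i' = i
  · subst hi
    by_cases hj : j' = j
    · subst hj
      have hk : ¬ k' = k := hx rfl rfl
      right; right
      simp [hk]
    · left
      simp [hj]
  · right; left
    simp [hi]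

/-- The twist of the Exact Triangle problem. -/
theorem twist_tri {N : ℕ} (hN : 0 < N) :
    Twist (Unbal (triLoc (N := N))) (fun c x => etw (see triLoc c x)) (2 / (N : ℝ) ^ 3) := by
  have : Nonempty (Fin N × Fin N × Fin N) := ⟨(⟨0, hN⟩, ⟨0, hN⟩, ⟨0, hN⟩)⟩
  have hNr : (0 : ℝ) < N := by exact_mod_cast hN
  apply twist_eq _ (by positivity)
  intro x
  rw [Finset.sum_eq_single x]
  · have h1 : ∑ c : Fin 4 × (Fin N × Fin N) → Bool, etw (see triLoc c x) * etw (see triLoc c x)
        = 2 * Fintype.card (Fin 4 × (Fin N × Fin N) → Bool) := by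
      rw [← etw_sq triLoc x]
      exact Finset.sum_congr rfl (fun c _ => by ring)
    have h2 : (Fintype.card (Fin N × Fin N × Fin N) : ℝ) = (N : ℝ) ^ 3 := by
      rw [Fintype.card_prod, Fintype.card_prod, Fintype.card_fin]
      push_cast
      ring
    rw [h1, abs_of_nonneg (by positivity), h2]
    apply le_of_eq
    field_simp
  · intro x' _ hx'
    rw [tri_orth x x' hx', abs_zero]
  · intro hh
    exact absurd (Finset.mem_univ _) hh

/-! ### The weights -/

/-- numbers with small digits -/
lemma digits_inj : ∀ (T : ℕ) (f g : Fin T → ℕ), (∀ t, f t < 3) → (∀ t, g t < 3) →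
    ∑ t, f t * 3 ^ (t : ℕ) = ∑ t, g t * 3 ^ (t : ℕ) → f = g := by
  intro T
  induction T with
  | zero => intro f g _ _ _; funext t; exact t.elim0
  | succ T ih =>
    intro f g hf hg h
    rw [Fin.sum_univ_succ, Fin.sum_univ_succ] at h
    have h1 : ∀ q : Fin (T + 1) → ℕ, ∑ t : Fin T, q t.succ * 3 ^ ((t.succ : Fin (T + 1)) : ℕ)
        = 3 * ∑ t : Fin T, q t.succ * 3 ^ (t : ℕ) := by
      intro q
      rw [Finset.mul_sum]
      apply Finset.sum_congr rfl
      intro t _
      rw [Fin.val_succ, pow_succ]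
      ring
    rw [h1 f, h1 g] at h
    simp only [Fin.val_zero, pow_zero, mul_one] at h
    have h2 := hf 0
    have h3 := hg 0
    have h4 : f 0 = g 0 := by omega
    have h5 : ∑ t : Fin T, f t.succ * 3 ^ (t : ℕ) = ∑ t : Fin T, g t.succ * 3 ^ (t : ℕ) := by omega
    have h6 := ih (fun t => f t.succ) (fun t => g t.succ) (fun t => hf _) (fun t => hg _) h5
    funext t
    refine Fin.cases h4 (fun t => ?_) t
    exact congrFun h6 t

section
variable {T N : ℕ}

/-- the weight of the edge between the vertex `i` of the first part and `j` of the second part -/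
def w12 (y : Fin T → (Fin 4 × (Fin N × Fin N) → Bool)) (i j : Fin N) : ℤ :=
  ∑ t, ((y t (0, (i, j))).toNat : ℤ) * 3 ^ (t : ℕ)

/-- the weight of the edge between the vertex `j` of the second part and `k` of the third part -/
def w23 (y : Fin T → (Fin 4 × (Fin N × Fin N) → Bool)) (j k : Fin N) : ℤ :=
  ∑ t, ((y t (1, (j, k))).toNat : ℤ) * 3 ^ (t : ℕ)

/-- the weight of the edge between the vertex `i` of the first part and `k` of the third part -/
def w13 (y : Fin T → (Fin 4 × (Fin N × Fin N) → Bool)) (i k : Fin N) : ℤ :=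
  - ∑ t, (((y t (2, (i, k))).toNat : ℤ) + ((y t (3, (i, k))).toNat : ℤ)) * 3 ^ (t : ℕ)

/-- the triangles of weight zero -/
lemma zero_iff (y : Fin T → (Fin 4 × (Fin N × Fin N) → Bool)) (i j k : Fin N) :
    w12 y i j + w23 y j k + w13 y i k = 0 ↔ ∀ t, ¬ Unbal triLoc (y t) (i, j, k) := by
  have hb : ∀ b : Bool, b.toNat ≤ 1 := Bool.toNat_le
  have h1 : w12 y i j + w23 y j k + w13 y i k
      = ((∑ t, ((y t (0, (i, j))).toNat + (y t (1, (j, k))).toNat) * 3 ^ (t : ℕ) : ℕ) : ℤ)
        - ((∑ t, ((y t (2, (i, k))).toNat + (y t (3, (i, k))).toNat) * 3 ^ (t : ℕ) : ℕ) : ℤ) := by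
    unfold w12 w23 w13
    push_cast
    rw [← Finset.sum_add_distrib, ← sub_eq_add_neg]
    congr 1
    apply Finset.sum_congr rfl
    intro t _
    ring
  have h2 : ∀ t, ¬ Unbal triLoc (y t) (i, j, k) ↔
      (y t (0, (i, j))).toNat + (y t (1, (j, k))).toNat
        = (y t (2, (i, k))).toNat + (y t (3, (i, k))).toNat := by
    intro t
    unfold Unbal Balance see triLoc
    simp
  rw [h1, sub_eq_zero, Nat.cast_inj]
  constructor
  · intro h t
    rw [h2]
    have h3 := digits_inj T
      (fun t => (y t (0, (i, j))).toNat + (y t (1, (j, k))).toNat)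
      (fun t => (y t (2, (i, k))).toNat + (y t (3, (i, k))).toNat)
      (fun t => by have := hb (y t (0, (i, j))); have := hb (y t (1, (j, k))); omega)
      (fun t => by have := hb (y t (2, (i, k))); have := hb (y t (3, (i, k))); omega) h
    exact congrFun h3 t
  · intro h
    apply Finset.sum_congr rfl
    intro t _
    rw [(h2 t).1 (h t)]

end

end Pool.Agent.TH689.QX
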