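import Mathlib
import Pool.Agent.TH689.QXTri

/-!
Convex programming relaxations of 3SUM.
-/

set_option autoImplicit false

namespace Pool.Agent.TH689.QX

open Finset Pool.Agent.TH689.GX

/-! ### Relaxations which exclude parts of the solutions -/

section
variable {X Y 𝒞 : Type} {n S T : ℕ}

lemma brute_space (e : Y ≃ Fin n) (x : Y) (h : pt e S x ∈ spc S) : (e x : ℕ) < S := by
  have h2 : ∑ j, pt e S x j = 1 := h
  by_contra hcon
  have h3 : ∑ j, pt e S x j = 0 := by
    apply Finset.sum_eq_zero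
    intro j _
    apply if_neg
    intro h
    apply hcon
    rw [h]
    exact j.2
  rw [h3] at h2
  norm_num at h2

/-- the relaxation in which every `x` is represented by its part `π x` -/
lemma part_correct (K : 𝒞 → Y → Prop) (Viol : 𝒞 → X → Prop) (π : X → Y)
    (hK : ∀ c x, K c (π x) → Viol c x) (e : Y ≃ Fin n) (hS : S ≤ n) (x : X) :
    (comap (brute K e hS) π).CorrectAt Viol x ↔ (e (π x) : ℕ) < S := by
  constructor
  · rintro ⟨h1, -, -, -⟩
    exact brute_space e (π x) h1
  · intro hx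
    obtain ⟨h1, h2, h3, h4⟩ := (brute_correct K e hS (π x)).2 hx
    exact ⟨h1, h2, h3, fun c i hc => h4 c i (fun h => hc (hK c x h))⟩

/-- the relaxation has no solution if all parts are excluded -/
lemma part_rejects (K : 𝒞 → Y → Prop) (Viol : 𝒞 → X → Prop) (π : X → Y)
    (hK : ∀ c x, K c (π x) → Viol c x) (e : Y ≃ Fin n) (hS : S ≤ n) (y : Fin T → 𝒞) {δ : ℝ}
    (hδ : T * δ < 1) (hy : ∀ x, ∃ t, K (y t) x) :
    Rejects (comap (brute K e hS) π) Viol y δ := by
  classical
  left
  suffices hmain : ∀ u : Fin S → ℝ, ¬ Fits (comap (brute K e hS) π) Viol y δ u from hmain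
  rintro u ⟨hsp, -, hmap, hcl⟩
  have hsum : ∑ j, u j = 1 := hsp
  have hnn : ∀ j, 0 ≤ u j := by
    intro j
    have h1 : 0 ≤ aff (Pi.single j 1) u 0 := hmap j
    rw [aff_apply, Finset.sum_eq_single j] at h1
    · rwa [Pi.single_eq_same, one_mul] at h1
    · intro i _ hi
      rw [Pi.single_eq_of_ne hi, zero_mul]
    · intro h
      exact absurd (Finset.mem_univ _) h
  let w : 𝒞 → Fin S → ℝ := fun c j => if K c (e.symm (Fin.castLE hS j)) then 1 else 0
  have hw0 : ∀ c j, 0 ≤ w c j := by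
    intro c j; simp only [w]; split_ifs <;> norm_num
  have hw1 : ∀ c j, w c j ≤ 1 := by
    intro c j; simp only [w]; split_ifs <;> norm_num
  have hclause : ∀ t, ∑ j, w (y t) j * u j ≤ δ := by
    intro t
    obtain ⟨θ, hθ0, hθδ, a, ha, p, hp, hap⟩ := hcl t 0
    have h1 : aff (cf K e hS (y t)) u = (1 - θ) • a + θ • p := hap
    have h2 := congrFun h1 0
    have h3 : ∑ j, cf K e hS (y t) j * u j = - ∑ j, w (y t) j * u j := by
      rw [← Finset.sum_neg_distrib]
      apply Finset.sum_congr rfl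
      intro j _
      simp only [cf, w]
      ring
    rw [aff_apply, h3] at h2
    have ha0 : 0 ≤ a 0 := ha
    have hp1 : -1 ≤ p 0 := by
      have h4 : convexHull ℝ ((fun x => aff (cf K e hS (y t)) (pt e S (π x))) ''
          {x | (comap (brute K e hS) π).CorrectAt Viol x}) ⊆ {z : Fin 1 → ℝ | -1 ≤ z 0} := by
        apply convexHull_min _ (half_convex (-1))
        rintro _ ⟨x, hx, rfl⟩
        change -1 ≤ aff (cf K e hS (y t)) (pt e S (π x)) 0
        rw [aff_apply, cf_val K e hS _ (π x) ((part_correct K Viol π hK e hS x).1 hx)]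
        split_ifs <;> norm_num
      exact h4 hp
    simp only [Pi.add_apply, Pi.smul_apply, smul_eq_mul] at h2
    by_cases hθ1 : θ ≤ 1
    · have h5 := mul_nonneg (sub_nonneg.2 hθ1) ha0
      have h6 := mul_le_mul_of_nonneg_left hp1 hθ0
      linarith
    · push Not at hθ1
      have h7 : ∑ j, w (y t) j * u j ≤ ∑ j, u j :=
        Finset.sum_le_sum (fun j _ => mul_le_of_le_one_left (hnn j) (hw1 _ _))
      linarith
  have hcover : ∀ j : Fin S, u j ≤ ∑ t, w (y t) j * u j := by
    intro j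
    obtain ⟨t, ht⟩ := hy (e.symm (Fin.castLE hS j))
    have h3 := Finset.single_le_sum (f := fun t => w (y t) j * u j)
      (s := (Finset.univ : Finset (Fin T))) (by
          intro t _
          exact mul_nonneg (hw0 _ _) (hnn j)) (Finset.mem_univ t)
    have h4 : w (y t) j = 1 := if_pos ht
    simp only [h4, one_mul] at h3
    exact h3
  have h1 : (1 : ℝ) ≤ T * δ := by
    calc (1 : ℝ) = ∑ j, u j := hsum.symm
      _ ≤ ∑ j, ∑ t, w (y t) j * u j := Finset.sum_le_sum (fun j _ => hcover j)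
      _ = ∑ t, ∑ j, w (y t) j * u j := Finset.sum_comm
      _ ≤ ∑ _t : Fin T, δ := Finset.sum_le_sum (fun t _ => hclause t)
      _ = T * δ := by rw [Finset.sum_const, Finset.card_univ, Fintype.card_fin, nsmul_eq_mul]
  linarith

open Classical in
/-- in most instances all parts are excluded -/
lemma part_rate [Fintype Y] [Fintype 𝒞] [Nonempty 𝒞] (K : 𝒞 → Y → Prop) (Viol : 𝒞 → X → Prop)
    {a s r D : ℕ} (P : Scheme X 𝒞 a s r D) {δ ρ : ℝ}
    (hP : ∀ y : Fin T → 𝒞, (∀ x, ∃ t, K (y t) x) → Rejects P Viol y δ)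
    (hρ : ∀ x, ((Finset.univ.filter fun c => ¬ K c x).card : ℝ) ≤ ρ * Fintype.card 𝒞) :
    1 - Fintype.card Y * ρ ^ T ≤ rejectRate P Viol T δ := by
  let R : Finset (Fin T → 𝒞) := Finset.univ.filter fun y => Rejects P Viol y δ
  let B : Y → Finset (Fin T → 𝒞) := fun x =>
    Fintype.piFinset fun _ => Finset.univ.filter fun c => ¬ K c x
  have hrr : rejectRate P Viol T δ = (R.card : ℝ) / Fintype.card (Fin T → 𝒞) := by
    unfold rejectRate
    rw [Nat.card_eq_fintype_card, Set.ncard_eq_toFinset_card']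
    congr 3
    ext y
    simp [R]
  have h1 : (Finset.univ : Finset (Fin T → 𝒞)) ⊆ R ∪ Finset.univ.biUnion B := by
    intro y _
    rw [Finset.mem_union]
    by_cases hy : ∀ x, ∃ t, K (y t) x
    · exact Or.inl (Finset.mem_filter.2 ⟨Finset.mem_univ _, hP y hy⟩)
    · push Not at hy
      obtain ⟨x, hx⟩ := hy
      right
      rw [Finset.mem_biUnion]
      refine ⟨x, Finset.mem_univ _, ?_⟩
      simp only [B, Fintype.mem_piFinset]
      intro t
      exact Finset.mem_filter.2 ⟨Finset.mem_univ _, hx t⟩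
  have h2 : (Fintype.card (Fin T → 𝒞) : ℝ) ≤ R.card + ∑ x, ((B x).card : ℝ) := by
    have h3 := (Finset.card_le_card h1).trans (Finset.card_union_le _ _)
    have h4 := h3.trans (Nat.add_le_add_left Finset.card_biUnion_le _)
    rw [Finset.card_univ] at h4
    exact_mod_cast h4
  have h3 : ∀ x, ((B x).card : ℝ) ≤ ρ ^ T * Fintype.card (Fin T → 𝒞) := by
    intro x
    have h4 : ((B x).card : ℝ)
        = ((Finset.univ.filter fun c => ¬ K c x).card : ℝ) ^ T := by
      simp only [B]
      rw [Fintype.card_piFinset_const]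
      push_cast
      rfl
    rw [h4, Fintype.card_fun, Fintype.card_fin]
    push_cast
    rw [← mul_pow]
    exact pow_le_pow_left₀ (by positivity) (hρ x) T
  have h4 : ∑ x, ((B x).card : ℝ)
      ≤ Fintype.card Y * ρ ^ T * Fintype.card (Fin T → 𝒞) := by
    calc ∑ x, ((B x).card : ℝ) ≤ ∑ _x : Y, ρ ^ T * Fintype.card (Fin T → 𝒞) :=
          Finset.sum_le_sum (fun x _ => h3 x)
      _ = _ := by rw [Finset.sum_const, Finset.card_univ, nsmul_eq_mul]; ring
  have hY : (0 : ℝ) < Fintype.card (Fin T → 𝒞) := by exact_mod_cast Fintype.card_pos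
  rw [hrr, le_div_iff₀ hY]
  nlinarith

end

/-! ### 3SUM -/

variable {N T S : ℕ}

/-- the three numbers with the indices `i, j, k`; the third one is the sum of two numbers -/
def sumLoc (l : Fin 4) (x : Fin N × Fin N × Fin N) : Fin N :=
  if l = 0 then x.1 else if l = 1 then x.2.1 else x.2.2

lemma sum_orth (x x' : Fin N × Fin N × Fin N)
    (h : (x'.1 ≠ x.1 ∧ x'.2.1 ≠ x.2.1) ∨ (x'.1 ≠ x.1 ∧ x'.2.2 ≠ x.2.2) ∨
      (x'.2.1 ≠ x.2.1 ∧ x'.2.2 ≠ x.2.2)) :
    ∑ c : Fin 4 × Fin N → Bool, etw (see sumLoc c x) * etw (see sumLoc c x') = 0 := by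
  apply etw_orth
  rcases h with h | h | h
  · left
    simpa [sumLoc] using h
  · right; left
    simpa [sumLoc] using h
  · right; right
    simpa [sumLoc] using h

lemma sum_near (x x' : Fin N × Fin N × Fin N) :
    |∑ c : Fin 4 × Fin N → Bool, etw (see sumLoc c x) * etw (see sumLoc c x')|
      ≤ 2 * Fintype.card (Fin 4 × Fin N → Bool) := by
  have h1 := etw_sq (E := Fin N) sumLoc x
  have h2 := etw_sq (E := Fin N) sumLoc x'
  calc |∑ c : Fin 4 × Fin N → Bool, etw (see sumLoc c x) * etw (see sumLoc c x')|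
      ≤ ∑ c : Fin 4 × Fin N → Bool, |etw (see sumLoc c x) * etw (see sumLoc c x')| :=
        Finset.abs_sum_le_sum_abs _ _
    _ ≤ ∑ c : Fin 4 × Fin N → Bool, (etw (see sumLoc c x) ^ 2 + etw (see sumLoc c x') ^ 2) / 2 := by
        apply Finset.sum_le_sum
        intro c _
        rw [abs_mul]
        have := two_mul_le_add_sq (|etw (see sumLoc c x)|) (|etw (see sumLoc c x')|)
        rw [sq_abs, sq_abs] at this
        linarith
    _ = _ := by
        rw [← Finset.sum_div, Finset.sum_add_distrib, h1, h2]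
        ring

/-- there are few triples which share two indices with a given one -/
lemma sum_close (x : Fin N × Fin N × Fin N) :
    (Finset.univ.filter fun x' : Fin N × Fin N × Fin N =>
      ¬ ((x'.1 ≠ x.1 ∧ x'.2.1 ≠ x.2.1) ∨ (x'.1 ≠ x.1 ∧ x'.2.2 ≠ x.2.2) ∨
        (x'.2.1 ≠ x.2.1 ∧ x'.2.2 ≠ x.2.2))).card ≤ 3 * N := by
  classical
  have h1 : (Finset.univ.filter fun x' : Fin N × Fin N × Fin N =>
      ¬ ((x'.1 ≠ x.1 ∧ x'.2.1 ≠ x.2.1) ∨ (x'.1 ≠ x.1 ∧ x'.2.2 ≠ x.2.2) ∨
        (x'.2.1 ≠ x.2.1 ∧ x'.2.2 ≠ x.2.2)))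
      ⊆ (Finset.univ.image fun i : Fin N => ((i, x.2.1, x.2.2) : Fin N × Fin N × Fin N))
        ∪ ((Finset.univ.image fun j : Fin N => ((x.1, j, x.2.2) : Fin N × Fin N × Fin N))
        ∪ (Finset.univ.image fun k : Fin N => ((x.1, x.2.1, k) : Fin N × Fin N × Fin N))) := by
    rintro ⟨i, j, k⟩ hx'
    have h2 := (Finset.mem_filter.1 hx').2
    simp only [Finset.mem_union, Finset.mem_image, Finset.mem_univ, true_and, Prod.mk.injEq]
    simp only at h2
    by_cases hi : i = x.1
    · by_cases hj : j = x.2.1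
      · exact Or.inr (Or.inr ⟨k, hi.symm, hj.symm, rfl⟩)
      · by_cases hk : k = x.2.2
        · exact Or.inr (Or.inl ⟨j, hi.symm, rfl, hk.symm⟩)
        · exact absurd (Or.inr (Or.inr ⟨hj, hk⟩)) h2
    · by_cases hj : j = x.2.1
      · by_cases hk : k = x.2.2
        · exact Or.inl ⟨i, rfl, hj.symm, hk.symm⟩
        · exact absurd (Or.inr (Or.inl ⟨hi, hk⟩)) h2
      · exact absurd (Or.inl ⟨hi, hj⟩) h2
  refine (Finset.card_le_card h1).trans ?_
  have h3 := Finset.card_union_le
    (Finset.univ.image fun i : Fin N => ((i, x.2.1, x.2.2) : Fin N × Fin N × Fin N))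
    ((Finset.univ.image fun j : Fin N => ((x.1, j, x.2.2) : Fin N × Fin N × Fin N))
        ∪ (Finset.univ.image fun k : Fin N => ((x.1, x.2.1, k) : Fin N × Fin N × Fin N)))
  have h4 := Finset.card_union_le
    (Finset.univ.image fun j : Fin N => ((x.1, j, x.2.2) : Fin N × Fin N × Fin N))
    (Finset.univ.image fun k : Fin N => ((x.1, x.2.1, k) : Fin N × Fin N × Fin N))
  have h5 := Finset.card_image_le (s := (Finset.univ : Finset (Fin N)))
    (f := fun i : Fin N => ((i, x.2.1, x.2.2) : Fin N × Fin N × Fin N))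
  have h6 := Finset.card_image_le (s := (Finset.univ : Finset (Fin N)))
    (f := fun j : Fin N => ((x.1, j, x.2.2) : Fin N × Fin N × Fin N))
  have h7 := Finset.card_image_le (s := (Finset.univ : Finset (Fin N)))
    (f := fun k : Fin N => ((x.1, x.2.1, k) : Fin N × Fin N × Fin N))
  rw [Finset.card_univ, Fintype.card_fin] at h5 h6 h7
  omega

/-- The twist of 3SUM. -/
theorem twist_sum (hN : 0 < N) :
    Twist (Unbal (sumLoc (N := N))) (fun c x => etw (see sumLoc c x)) (6 / (N : ℝ) ^ 2) := by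
  classical
  have : Nonempty (Fin N × Fin N × Fin N) := ⟨(⟨0, hN⟩, ⟨0, hN⟩, ⟨0, hN⟩)⟩
  have hNr : (0 : ℝ) < N := by exact_mod_cast hN
  apply twist_eq _ (by positivity)
  intro x
  let far : Fin N × Fin N × Fin N → Prop := fun x' =>
    (x'.1 ≠ x.1 ∧ x'.2.1 ≠ x.2.1) ∨ (x'.1 ≠ x.1 ∧ x'.2.2 ≠ x.2.2) ∨
      (x'.2.1 ≠ x.2.1 ∧ x'.2.2 ≠ x.2.2)
  have h1 : ∀ x', |∑ c : Fin 4 × Fin N → Bool, etw (see sumLoc c x) * etw (see sumLoc c x')|
      ≤ if ¬ far x' then (2 * Fintype.card (Fin 4 × Fin N → Bool) : ℝ) else 0 := by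
    intro x'
    by_cases h : far x'
    · rw [if_neg (not_not.2 h), sum_orth x x' h, abs_zero]
    · rw [if_pos h]
      exact sum_near x x'
  refine (Finset.sum_le_sum (fun x' _ => h1 x')).trans ?_
  rw [← Finset.sum_filter, Finset.sum_const, nsmul_eq_mul]
  have h2 : ((Finset.univ.filter fun x' => ¬ far x').card : ℝ) ≤ 3 * N := by
    have h3 := sum_close x
    have h4 : (Finset.univ.filter fun x' => ¬ far x').card ≤ 3 * N := by
      convert h3
    exact_mod_cast h4
  have h3 : (Fintype.card (Fin N × Fin N × Fin N) : ℝ) = (N : ℝ) ^ 3 := by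
    rw [Fintype.card_prod, Fintype.card_prod, Fintype.card_fin]
    push_cast
    ring
  rw [h3]
  have e : 6 / (N : ℝ) ^ 2 * Fintype.card (Fin 4 × Fin N → Bool) * (N : ℝ) ^ 3
      = 3 * N * (2 * Fintype.card (Fin 4 × Fin N → Bool)) := by
    field_simp
    ring
  rw [e]
  exact mul_le_mul_of_nonneg_right h2 (by positivity)

/-! ### The numbers -/

/-- the numbers of the first list -/
def numA (y : Fin T → (Fin 4 × Fin N → Bool)) (i : Fin N) : ℤ :=
  ∑ t, ((y t (0, i)).toNat : ℤ) * 3 ^ (t : ℕ)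

/-- the numbers of the second list -/
def numB (y : Fin T → (Fin 4 × Fin N → Bool)) (j : Fin N) : ℤ :=
  ∑ t, ((y t (1, j)).toNat : ℤ) * 3 ^ (t : ℕ)

/-- the numbers of the third list -/
def numC (y : Fin T → (Fin 4 × Fin N → Bool)) (k : Fin N) : ℤ :=
  - ∑ t, (((y t (2, k)).toNat : ℤ) + ((y t (3, k)).toNat : ℤ)) * 3 ^ (t : ℕ)

/-- the triples with the sum zero -/
lemma sum_iff (y : Fin T → (Fin 4 × Fin N → Bool)) (i j k : Fin N) :
    numA y i + numB y j + numC y k = 0 ↔ ∀ t, ¬ Unbal sumLoc (y t) (i, j, k) := by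
  have hb : ∀ b : Bool, b.toNat ≤ 1 := Bool.toNat_le
  have h1 : numA y i + numB y j + numC y k
      = ((∑ t, ((y t (0, i)).toNat + (y t (1, j)).toNat) * 3 ^ (t : ℕ) : ℕ) : ℤ)
        - ((∑ t, ((y t (2, k)).toNat + (y t (3, k)).toNat) * 3 ^ (t : ℕ) : ℕ) : ℤ) := by
    unfold numA numB numC
    push_cast
    rw [← Finset.sum_add_distrib, ← sub_eq_add_neg]
    congr 1
    apply Finset.sum_congr rfl
    intro t _
    ring
  have h2 : ∀ t, ¬ Unbal sumLoc (y t) (i, j, k) ↔
      (y t (0, i)).toNat + (y t (1, j)).toNat = (y t (2, k)).toNat + (y t (3, k)).toNat := by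
    intro t
    unfold Unbal Balance see sumLoc
    simp
  rw [h1, sub_eq_zero, Nat.cast_inj]
  constructor
  · intro h t
    rw [h2]
    have h3 := digits_inj T
      (fun t => (y t (0, i)).toNat + (y t (1, j)).toNat)
      (fun t => (y t (2, k)).toNat + (y t (3, k)).toNat)
      (fun t => by have := hb (y t (0, i)); have := hb (y t (1, j)); omega)
      (fun t => by have := hb (y t (2, k)); have := hb (y t (3, k)); omega) h
    exact congrFun h3 t
  · intro h
    apply Finset.sum_congr rfl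
    intro t _
    rw [(h2 t).1 (h t)]

/-! ### Excluding pairs -/

/-- the digit of the second number is not possible for the digit of the third number -/
def PairBad (c : Fin 4 × Fin N → Bool) (x : Fin N × Fin N) : Prop :=
  ∀ a : Bool, a.toNat + (c (1, x.1)).toNat ≠ (c (2, x.2)).toNat + (c (3, x.2)).toNat

lemma pair_bad (c : Fin 4 × Fin N → Bool) (x : Fin N × Fin N × Fin N) (h : PairBad c x.2) :
    Unbal sumLoc c x := h (c (0, x.1))

lemma count_pair : ∀ b c d : Bool, ∑ m : (Bool × Bool) × Bool × Bool,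
    (if ¬ ∀ a : Bool, a.toNat + (xor b m.1.2).toNat ≠ (xor c m.2.1).toNat + (xor d m.2.2).toNat
      then (1 : ℤ) else 0) = 12 := by
  decide

instance (v : Fin 4 → Bool) : Decidable (¬ ∀ a : Bool, a.toNat + (v 1).toNat
    ≠ (v 2).toNat + (v 3).toNat) := inferInstance

lemma pair_count (x : Fin N × Fin N) :
    ({c : Fin 4 × Fin N → Bool | ¬ PairBad c x}.ncard : ℝ)
      ≤ 3 / 4 * Fintype.card (Fin 4 × Fin N → Bool) := by
  classical
  have h0 : ∀ v : Fin 4 → Bool, ∑ m, (if ¬ ∀ a : Bool, a.toNat + (xor (v 1) (mD m 1)).toNat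
      ≠ (xor (v 2) (mD m 2)).toNat + (xor (v 3) (mD m 3)).toNat then (1 : ℝ) else 0) = 12 := by
    intro v
    unfold mD
    simp only [Matrix.cons_val]
    exact_mod_cast count_pair (v 1) (v 2) (v 3)
  have h1 := mean_of (X := Fin N × Fin N × Fin N) sumLoc mD
    (fun v => if ¬ ∀ a : Bool, a.toNat + (v 1).toNat ≠ (v 2).toNat + (v 3).toNat
      then (1 : ℝ) else 0) 12 h0 (x.1, x.1, x.2)
  have h2 : (Fintype.card ((Bool × Bool) × Bool × Bool) : ℝ) = 16 := by
    norm_num [Fintype.card_prod, Fintype.card_bool]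
  rw [h2, Finset.sum_boole] at h1
  have h3 : {c : Fin 4 × Fin N → Bool | ¬ PairBad c x}.ncard
      = (Finset.univ.filter fun c : Fin 4 × Fin N → Bool =>
        ¬ ∀ a : Bool, a.toNat + (see sumLoc c (x.1, x.1, x.2) 1).toNat
          ≠ (see sumLoc c (x.1, x.1, x.2) 2).toNat + (see sumLoc c (x.1, x.1, x.2) 3).toNat).card := by
    rw [Set.ncard_eq_toFinset_card']
    congr 1
    ext c
    simp [PairBad, see, sumLoc]
  rw [h3]
  linarith

/-- the fraction of the triples which are represented -/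
lemma pair_rate (hN : 0 < N) (e : Fin N × Fin N ≃ Fin (N ^ 2)) (hS : S ≤ N ^ 2) :
    (comap (brute (PairBad (N := N)) e hS) (fun x : Fin N × Fin N × Fin N => x.2)).correctRate
      (Unbal sumLoc) = (S : ℝ) / N ^ 2 := by
  unfold Scheme.correctRate
  have h1 : {x : Fin N × Fin N × Fin N |
      (comap (brute (PairBad (N := N)) e hS) (fun x : Fin N × Fin N × Fin N => x.2)).CorrectAt
        (Unbal sumLoc) x}
      = (fun p : Fin N × Fin S => ((p.1, e.symm (Fin.castLE hS p.2)) : Fin N × Fin N × Fin N))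
        '' Set.univ := by
    ext x
    rw [Set.mem_ofPred_eq, part_correct PairBad (Unbal sumLoc) (fun x => x.2) pair_bad e hS x]
    constructor
    · intro hx
      refine ⟨(x.1, ⟨_, hx⟩), Set.mem_univ _, ?_⟩
      have h2 : Fin.castLE hS ⟨_, hx⟩ = e x.2 := by
        apply Fin.ext; rfl
      simp only [h2, Equiv.symm_apply_apply]
    · rintro ⟨p, _, rfl⟩
      change ((e (e.symm (Fin.castLE hS p.2)) : Fin (N ^ 2)) : ℕ) < S
      rw [Equiv.apply_symm_apply]
      exact p.2.2
  have hinj : Function.Injective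
      (fun p : Fin N × Fin S => ((p.1, e.symm (Fin.castLE hS p.2)) : Fin N × Fin N × Fin N)) := by
    intro p p' hp
    have h2 := congrArg Prod.fst hp
    have h3 := congrArg Prod.snd hp
    exact Prod.ext h2 (Fin.castLE_injective hS (e.symm.injective h3))
  rw [h1, Set.ncard_image_of_injective _ hinj, Set.ncard_univ, Nat.card_eq_fintype_card,
    Nat.card_eq_fintype_card, Fintype.card_prod, Fintype.card_prod, Fintype.card_prod,
    Fintype.card_fin, Fintype.card_fin]
  have hN' : (N : ℝ) ≠ 0 := by exact_mod_cast hN.ne'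
  push_cast
  field_simp

/-- `N ^ 2` inequalities suffice for random numbers. -/
theorem sum_upper (hN : 0 < N) (S : ℕ) (hS : S ≤ N ^ 2) :
    ∃ P : Scheme (Fin N × Fin N × Fin N) (Fin 4 × Fin N → Bool) 0 S 1 1,
      P.correctRate (Unbal sumLoc) = (S : ℝ) / N ^ 2 ∧
      ∀ (T : ℕ) (δ : ℝ), 0 ≤ δ → T * δ < 1 →
        1 - (N : ℝ) ^ 2 * (3 / 4) ^ T ≤ rejectRate P (Unbal sumLoc) T δ := by
  classical
  have hcard : Fintype.card (Fin N × Fin N) = N ^ 2 := by
    rw [Fintype.card_prod, Fintype.card_fin]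
    ring
  let e : Fin N × Fin N ≃ Fin (N ^ 2) := Fintype.equivFinOfCardEq hcard
  refine ⟨comap (brute PairBad e hS) (fun x => x.2), pair_rate hN e hS, ?_⟩
  intro T δ hδ0 hδ
  have h1 := part_rate (T := T) PairBad (Unbal (sumLoc (N := N)))
    (comap (brute PairBad e hS) (fun x => x.2)) (δ := δ) (ρ := 3 / 4)
    (fun y hy => part_rejects PairBad (Unbal sumLoc) (fun x => x.2) pair_bad e hS y hδ hy) (by
      intro x
      have h2 := pair_count x
      rw [Set.ncard_eq_toFinset_card'] at h2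
      refine le_trans (le_of_eq ?_) h2
      congr 2
      ext c
      simp)
  rw [hcard] at h1
  refine le_trans (le_of_eq ?_) h1
  push_cast
  rfl

end Pool.Agent.TH689.QX
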