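import Mathlib
import Pool.Agent.TH689.QXSum

/-!
Convex programming relaxations of 3SUM for numbers in any base.
-/

set_option autoImplicit false

namespace Pool.Agent.TH689.QX

open Finset Pool.Agent.TH689.GX

/-! ### Averages over single coordinates -/

section
variable {ι V : Type} [DecidableEq ι] [Fintype ι] [Fintype V]

lemma resample1 (p : ι) (G : (ι → V) → ℝ) :
    (Fintype.card V : ℝ) * ∑ c, G c = ∑ c, ∑ v, G (Function.update c p v) := by
  classical
  let f : (ι → V) × V → (ι → V) × V := fun q => (Function.update q.1 p q.2, q.1 p)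
  have hf : Function.Involutive f := by
    rintro ⟨c, v⟩
    simp only [f, Function.update_self, Function.update_idem, Function.update_eq_self]
  have h1 : ∑ q : (ι → V) × V, G q.1 = ∑ q : (ι → V) × V, G (f q).1 :=
    (Equiv.sum_comp hf.toPerm (fun q : (ι → V) × V => G q.1)).symm
  rw [Fintype.sum_prod_type, Fintype.sum_prod_type] at h1
  have h2 : ∑ c : ι → V, ∑ _v : V, G c = (Fintype.card V : ℝ) * ∑ c, G c := by
    rw [Finset.mul_sum]
    apply Finset.sum_congr rfl
    intro c _
    rw [Finset.sum_const, Finset.card_univ, nsmul_eq_mul]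
  rw [← h2]
  exact h1

/-- averaging over one coordinate -/
lemma step (p : ι) (K : V → (ι → V) → ℝ)
    (hK : ∀ v c v', K v (Function.update c p v') = K v c) :
    (Fintype.card V : ℝ) * ∑ c, K (c p) c = ∑ c, ∑ v, K v c := by
  rw [resample1 p (fun c => K (c p) c)]
  apply Finset.sum_congr rfl
  intro c _
  apply Finset.sum_congr rfl
  intro v _
  rw [Function.update_self, hK]

end

/-! ### The twist -/

section
variable {H : ℕ}

/-- the number of the representations of `s` -/
def reps (H s : ℕ) : ℕ :=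
  ((Finset.univ : Finset (Fin H × Fin H)).filter fun q => (q.1 : ℕ) + q.2 = s).card

/-- the density of the planted distribution -/
noncomputable def dens (a b c d : Fin H) : ℝ :=
  if (a : ℕ) + b = c + d then (H : ℝ) ^ 2 / reps H (a + b) else 0

lemma dens_nonneg (a b c d : Fin H) : 0 ≤ dens a b c d := by
  unfold dens
  split_ifs <;> positivity

lemma reps_pos (a b : Fin H) : 0 < reps H (a + b) := by
  unfold reps
  rw [Finset.card_pos]
  exact ⟨(a, b), Finset.mem_filter.2 ⟨Finset.mem_univ _, rfl⟩⟩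

lemma dens_symm (a b c d : Fin H) : dens a b c d = dens c d a b := by
  unfold dens
  by_cases h : (a : ℕ) + b = c + d
  · rw [if_pos h, if_pos h.symm, h]
  · rw [if_neg h, if_neg (fun h' => h h'.symm)]

/-- for given numbers `a, b` the density of `c, d` has mean `1` -/
lemma dens_right (a b : Fin H) : ∑ c, ∑ d, dens a b c d = (H : ℝ) ^ 2 := by
  have h1 : ∑ c, ∑ d, dens a b c d = ∑ q : Fin H × Fin H, dens a b q.1 q.2 := by
    rw [Fintype.sum_prod_type]
  rw [h1]
  unfold dens
  rw [← Finset.sum_filter, Finset.sum_const, nsmul_eq_mul]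
  have h2 : ((Finset.univ : Finset (Fin H × Fin H)).filter fun q => (a : ℕ) + b = q.1 + q.2).card
      = reps H (a + b) := by
    unfold reps
    congr 1
    ext q
    simp [eq_comm]
  rw [h2]
  have h3 : (reps H (a + b) : ℝ) ≠ 0 := by exact_mod_cast (reps_pos a b).ne'
  field_simp

lemma dens_left (c d : Fin H) : ∑ a, ∑ b, dens a b c d = (H : ℝ) ^ 2 := by
  rw [← dens_right c d]
  exact Finset.sum_congr rfl (fun a _ => Finset.sum_congr rfl (fun b _ => dens_symm a b c d))

/-- the number of the sums -/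
lemma sum_reps (hH : 0 < H) : ∑ a : Fin H, ∑ b : Fin H, (1 : ℝ) / reps H (a + b) ≤ 2 * H - 1 := by
  have h1 : ∑ a : Fin H, ∑ b : Fin H, (1 : ℝ) / reps H (a + b)
      = ∑ q : Fin H × Fin H, (1 : ℝ) / reps H (q.1 + q.2) := by
    rw [Fintype.sum_prod_type]
  have hmaps : ∀ q ∈ (Finset.univ : Finset (Fin H × Fin H)),
      (q.1 : ℕ) + q.2 ∈ Finset.range (2 * H - 1) := by
    intro q _
    have h2 := q.1.2
    have h3 := q.2.2
    rw [Finset.mem_range]
    omega
  rw [h1, ← Finset.sum_fiberwise_of_maps_to hmaps]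
  have h2 : ∀ s ∈ Finset.range (2 * H - 1),
      ∑ q ∈ (Finset.univ : Finset (Fin H × Fin H)) with (q.1 : ℕ) + q.2 = s,
        (1 : ℝ) / reps H (q.1 + q.2) ≤ 1 := by
    intro s _
    have h3 : ∑ q ∈ (Finset.univ : Finset (Fin H × Fin H)) with (q.1 : ℕ) + q.2 = s,
        (1 : ℝ) / reps H (q.1 + q.2)
        = ∑ q ∈ (Finset.univ : Finset (Fin H × Fin H)) with (q.1 : ℕ) + q.2 = s,
        (1 : ℝ) / reps H s := by
      apply Finset.sum_congr rfl
      intro q hq
      rw [(Finset.mem_filter.1 hq).2]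
    rw [h3, Finset.sum_const, nsmul_eq_mul]
    change (reps H s : ℝ) * (1 / reps H s) ≤ 1
    rw [mul_one_div]
    exact div_self_le_one _
  refine (Finset.sum_le_sum h2).trans ?_
  rw [Finset.sum_const, Finset.card_range, nsmul_eq_mul, mul_one]
  have h4 : 1 ≤ 2 * H := by omega
  rw [Nat.cast_sub h4]
  push_cast
  exact le_refl _

lemma dens_sq (hH : 0 < H) : ∑ a : Fin H, ∑ b : Fin H, ∑ c : Fin H, ∑ d : Fin H,
    dens a b c d ^ 2 ≤ (H : ℝ) ^ 4 * (2 * H - 1) := by
  have h1 : ∀ a b : Fin H, ∑ c, ∑ d, dens a b c d ^ 2 = (H : ℝ) ^ 4 * (1 / reps H (a + b)) := by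
    intro a b
    have h2 : ∀ c d, dens a b c d ^ 2 = dens a b c d * ((H : ℝ) ^ 2 / reps H (a + b)) := by
      intro c d
      unfold dens
      split_ifs
      · ring
      · ring
    simp only [h2]
    simp only [← Finset.sum_mul]
    rw [dens_right]
    ring
  simp only [h1]
  simp only [← Finset.mul_sum]
  exact mul_le_mul_of_nonneg_left (sum_reps hH) (by positivity)

/-- equal numbers are forced -/
lemma dens_cross1 (b c d : Fin H) : ∑ a, ∑ a', dens a b c d * dens a' b c d
    = ∑ a, dens a b c d ^ 2 := by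
  apply Finset.sum_congr rfl
  intro a _
  rw [Finset.sum_eq_single a]
  · ring
  · intro a' _ ha'
    by_cases h : (a : ℕ) + b = c + d
    · have h2 : dens a' b c d = 0 := if_neg (fun h' => ha' (Fin.ext (by omega)))
      rw [h2, mul_zero]
    · have h2 : dens a b c d = 0 := if_neg h
      rw [h2, zero_mul]
  · intro h
    exact absurd (Finset.mem_univ _) h

lemma dens_cross2 (a c d : Fin H) : ∑ b, ∑ b', dens a b c d * dens a b' c d
    = ∑ b, dens a b c d ^ 2 := by
  apply Finset.sum_congr rfl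
  intro b _
  rw [Finset.sum_eq_single b]
  · ring
  · intro b' _ hb'
    by_cases h : (a : ℕ) + b = c + d
    · have h2 : dens a b' c d = 0 := if_neg (fun h' => hb' (Fin.ext (by omega)))
      rw [h2, mul_zero]
    · have h2 : dens a b c d = 0 := if_neg h
      rw [h2, zero_mul]
  · intro h
    exact absurd (Finset.mem_univ _) h

end

/-! ### The columns -/

section
variable {H N : ℕ}

/-- the `t`-th digits of the numbers with the indices `i, j, k` do not balance -/
def Off (c : Fin 4 × Fin N → Fin H) (x : Fin N × Fin N × Fin N) : Prop :=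
  (c (0, x.1) : ℕ) + c (1, x.2.1) ≠ c (2, x.2.2) + c (3, x.2.2)

/-- the density at the digits which are seen by `x` -/
noncomputable def rr (c : Fin 4 × Fin N → Fin H) (x : Fin N × Fin N × Fin N) : ℝ :=
  dens (c (0, x.1)) (c (1, x.2.1)) (c (2, x.2.2)) (c (3, x.2.2))

lemma mean4 (G : Fin H → Fin H → Fin H → Fin H → ℝ) (x : Fin N × Fin N × Fin N) :
    (H : ℝ) ^ 4 * ∑ c : Fin 4 × Fin N → Fin H,
      G (c (0, x.1)) (c (1, x.2.1)) (c (2, x.2.2)) (c (3, x.2.2))
      = Fintype.card (Fin 4 × Fin N → Fin H) * ∑ a, ∑ b, ∑ u, ∑ v, G a b u v := by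
  have h3 := step (V := Fin H) ((3, x.2.2) : Fin 4 × Fin N)
    (fun v c => G (c (0, x.1)) (c (1, x.2.1)) (c (2, x.2.2)) v) (by intro v c v'; simp)
  have h2 := step (V := Fin H) ((2, x.2.2) : Fin 4 × Fin N)
    (fun u c => ∑ v, G (c (0, x.1)) (c (1, x.2.1)) u v) (by intro v c v'; simp)
  have h1 := step (V := Fin H) ((1, x.2.1) : Fin 4 × Fin N)
    (fun b c => ∑ u, ∑ v, G (c (0, x.1)) b u v) (by intro v c v'; simp)
  have h0 := step (V := Fin H) ((0, x.1) : Fin 4 × Fin N)
    (fun a _ => ∑ b, ∑ u, ∑ v, G a b u v) (by intro v c v'; simp)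
  rw [Fintype.card_fin] at h0 h1 h2 h3
  have e : (H : ℝ) ^ 4 * ∑ c : Fin 4 × Fin N → Fin H,
      G (c (0, x.1)) (c (1, x.2.1)) (c (2, x.2.2)) (c (3, x.2.2))
      = H * (H * (H * (H * ∑ c : Fin 4 × Fin N → Fin H,
      G (c (0, x.1)) (c (1, x.2.1)) (c (2, x.2.2)) (c (3, x.2.2))))) := by ring
  rw [e, h3, h2, h1, h0, Finset.sum_const, Finset.card_univ, nsmul_eq_mul]

/-- the sum of the density over one column -/
lemma rr_sum (hH : 0 < H) (x : Fin N × Fin N × Fin N) :
    ∑ c : Fin 4 × Fin N → Fin H, rr c x = Fintype.card (Fin 4 × Fin N → Fin H) := by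
  have hHr : (0 : ℝ) < H := by exact_mod_cast hH
  have h1 := mean4 (H := H) (fun a b u v => dens a b u v) x
  have h2 : ∑ a : Fin H, ∑ b, ∑ u, ∑ v, dens a b u v = (H : ℝ) ^ 4 := by
    simp only [dens_right]
    rw [Finset.sum_const, Finset.sum_const, Finset.card_univ, Fintype.card_fin, nsmul_eq_mul,
      nsmul_eq_mul]
    ring
  rw [h2, mul_comm (Fintype.card (Fin 4 × Fin N → Fin H) : ℝ)] at h1
  exact mul_left_cancel₀ (by positivity) h1

/-- the mean square of the density -/
lemma rr_sq (hH : 0 < H) (x : Fin N × Fin N × Fin N) :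
    ∑ c : Fin 4 × Fin N → Fin H, rr c x ^ 2
      ≤ (2 * H - 1) * Fintype.card (Fin 4 × Fin N → Fin H) := by
  have hHr : (0 : ℝ) < H := by exact_mod_cast hH
  have h1 := mean4 (H := H) (fun a b u v => dens a b u v ^ 2) x
  have h2 := mul_le_mul_of_nonneg_left (dens_sq hH)
    (Nat.cast_nonneg (α := ℝ) (Fintype.card (Fin 4 × Fin N → Fin H)))
  rw [← h1] at h2
  have h3 : (H : ℝ) ^ 4 * ∑ c : Fin 4 × Fin N → Fin H, rr c x ^ 2
      ≤ (H : ℝ) ^ 4 * ((2 * H - 1) * Fintype.card (Fin 4 × Fin N → Fin H)) := by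
    refine h2.trans (le_of_eq ?_)
    ring
  exact le_of_mul_le_mul_left h3 (by positivity)

/-- the third numbers are different -/
lemma rr_orthC (hH : 0 < H) (x x' : Fin N × Fin N × Fin N) (hk : x'.2.2 ≠ x.2.2) :
    ∑ c : Fin 4 × Fin N → Fin H, (rr c x - 1) * (rr c x' - 1) = 0 := by
  have hHr : (0 : ℝ) < H := by exact_mod_cast hH
  have h3 := step (V := Fin H) ((3, x.2.2) : Fin 4 × Fin N)
    (fun v c => (dens (c (0, x.1)) (c (1, x.2.1)) (c (2, x.2.2)) v - 1) * (rr c x' - 1)) (by
      intro v c v'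
      simp [rr, hk])
  have h2 := step (V := Fin H) ((2, x.2.2) : Fin 4 × Fin N)
    (fun u c => ∑ v, (dens (c (0, x.1)) (c (1, x.2.1)) u v - 1) * (rr c x' - 1)) (by
      intro v c v'
      simp [rr, hk])
  rw [Fintype.card_fin] at h2 h3
  have h4 : (H : ℝ) * (H * ∑ c : Fin 4 × Fin N → Fin H, (rr c x - 1) * (rr c x' - 1)) = 0 := by
    have h5 : (H : ℝ) * ∑ c : Fin 4 × Fin N → Fin H, (rr c x - 1) * (rr c x' - 1)
        = ∑ c : Fin 4 × Fin N → Fin H, ∑ v,
          (dens (c (0, x.1)) (c (1, x.2.1)) (c (2, x.2.2)) v - 1) * (rr c x' - 1) := h3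
    rw [h5, h2]
    apply Finset.sum_eq_zero
    intro c _
    simp only [← Finset.sum_mul]
    have h6 : ∑ u, ∑ v, (dens (c (0, x.1)) (c (1, x.2.1)) u v - 1) = 0 := by
      simp only [Finset.sum_sub_distrib]
      rw [dens_right]
      simp only [Finset.sum_const, Finset.card_univ, Fintype.card_fin, nsmul_eq_mul]
      ring
    rw [h6, zero_mul]
  rcases mul_eq_zero.1 h4 with h5 | h5
  · exact absurd h5 hHr.ne'
  · rcases mul_eq_zero.1 h5 with h6 | h6
    · exact absurd h6 hHr.ne'
    · exact h6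

/-- the first two numbers are different -/
lemma rr_orthAB (hH : 0 < H) (x x' : Fin N × Fin N × Fin N) (hi : x'.1 ≠ x.1)
    (hj : x'.2.1 ≠ x.2.1) :
    ∑ c : Fin 4 × Fin N → Fin H, (rr c x - 1) * (rr c x' - 1) = 0 := by
  have hHr : (0 : ℝ) < H := by exact_mod_cast hH
  have h3 := step (V := Fin H) ((1, x.2.1) : Fin 4 × Fin N)
    (fun v c => (dens (c (0, x.1)) v (c (2, x.2.2)) (c (3, x.2.2)) - 1) * (rr c x' - 1)) (by
      intro v c v'
      simp [rr, hj])
  have h2 := step (V := Fin H) ((0, x.1) : Fin 4 × Fin N)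
    (fun u c => ∑ v, (dens u v (c (2, x.2.2)) (c (3, x.2.2)) - 1) * (rr c x' - 1)) (by
      intro v c v'
      simp [rr, hi])
  rw [Fintype.card_fin] at h2 h3
  have h4 : (H : ℝ) * (H * ∑ c : Fin 4 × Fin N → Fin H, (rr c x - 1) * (rr c x' - 1)) = 0 := by
    have h5 : (H : ℝ) * ∑ c : Fin 4 × Fin N → Fin H, (rr c x - 1) * (rr c x' - 1)
        = ∑ c : Fin 4 × Fin N → Fin H, ∑ v,
          (dens (c (0, x.1)) v (c (2, x.2.2)) (c (3, x.2.2)) - 1) * (rr c x' - 1) := h3
    rw [h5, h2]
    apply Finset.sum_eq_zero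
    intro c _
    simp only [← Finset.sum_mul]
    have h6 : ∑ u, ∑ v, (dens u v (c (2, x.2.2)) (c (3, x.2.2)) - 1) = 0 := by
      simp only [Finset.sum_sub_distrib]
      rw [dens_left]
      simp only [Finset.sum_const, Finset.card_univ, Fintype.card_fin, nsmul_eq_mul]
      ring
    rw [h6, zero_mul]
  rcases mul_eq_zero.1 h4 with h5 | h5
  · exact absurd h5 hHr.ne'
  · rcases mul_eq_zero.1 h5 with h6 | h6
    · exact absurd h6 hHr.ne'
    · exact h6

/-- the triples share the last two numbers -/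
lemma rr_nearA (hH : 0 < H) (i i' j k : Fin N) (hi : i' ≠ i) :
    ∑ c : Fin 4 × Fin N → Fin H, rr c (i, j, k) * rr c (i', j, k)
      ≤ 2 * Fintype.card (Fin 4 × Fin N → Fin H) := by
  have hHr : (0 : ℝ) < H := by exact_mod_cast hH
  have h3 := step (V := Fin H) ((0, i') : Fin 4 × Fin N)
    (fun a' c => rr c (i, j, k) * dens a' (c (1, j)) (c (2, k)) (c (3, k))) (by
      intro v c v'
      simp [rr, hi.symm])
  have h4 := mean4 (H := H) (fun a b u v => ∑ a', dens a b u v * dens a' b u v) (i, j, k)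
  have h5 : ∑ a : Fin H, ∑ b, ∑ u, ∑ v, ∑ a', dens a b u v * dens a' b u v
      ≤ (H : ℝ) ^ 4 * (2 * H - 1) := by
    have h6 : ∀ b u v : Fin H, ∑ a, ∑ a', dens a b u v * dens a' b u v
        = ∑ a, dens a b u v ^ 2 := fun b u v => dens_cross1 b u v
    have h7 : ∑ a : Fin H, ∑ b, ∑ u, ∑ v, ∑ a', dens a b u v * dens a' b u v
        = ∑ a : Fin H, ∑ b, ∑ u, ∑ v, dens a b u v ^ 2 := by
      rw [Finset.sum_comm, Finset.sum_comm (f := fun a b => ∑ u, ∑ v, dens a b u v ^ 2)]
      apply Finset.sum_congr rfl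
      intro b _
      rw [Finset.sum_comm, Finset.sum_comm (f := fun a u => ∑ v, dens a b u v ^ 2)]
      apply Finset.sum_congr rfl
      intro u _
      rw [Finset.sum_comm, Finset.sum_comm (f := fun a v => dens a b u v ^ 2)]
      apply Finset.sum_congr rfl
      intro v _
      exact h6 b u v
    rw [h7]
    exact dens_sq hH
  rw [Fintype.card_fin] at h3
  have h6 : (H : ℝ) ^ 4 * (H * ∑ c : Fin 4 × Fin N → Fin H, rr c (i, j, k) * rr c (i', j, k))
      ≤ (H : ℝ) ^ 4 * (H * (2 * Fintype.card (Fin 4 × Fin N → Fin H))) := by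
    have h7 : (H : ℝ) * ∑ c : Fin 4 × Fin N → Fin H, rr c (i, j, k) * rr c (i', j, k)
        = ∑ c : Fin 4 × Fin N → Fin H, ∑ a',
          rr c (i, j, k) * dens a' (c (1, j)) (c (2, k)) (c (3, k)) := h3
    have h8 : (H : ℝ) ^ 4 * ∑ c : Fin 4 × Fin N → Fin H, ∑ a',
          rr c (i, j, k) * dens a' (c (1, j)) (c (2, k)) (c (3, k))
        = Fintype.card (Fin 4 × Fin N → Fin H) * ∑ a, ∑ b, ∑ u, ∑ v, ∑ a',
          dens a b u v * dens a' b u v := h4
    rw [h7, h8]
    have hc := Nat.cast_nonneg (α := ℝ) (Fintype.card (Fin 4 × Fin N → Fin H))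
    have h9 := mul_le_mul_of_nonneg_left h5 hc
    refine h9.trans ?_
    have h10 : (Fintype.card (Fin 4 × Fin N → Fin H) : ℝ) * ((H : ℝ) ^ 4 * (2 * H - 1))
        = (H : ℝ) ^ 4 * (H * (2 * Fintype.card (Fin 4 × Fin N → Fin H)))
          - (H : ℝ) ^ 4 * Fintype.card (Fin 4 × Fin N → Fin H) := by ring
    rw [h10]
    have h11 : 0 ≤ (H : ℝ) ^ 4 * Fintype.card (Fin 4 × Fin N → Fin H) := by positivity
    linarith
  have h7 := le_of_mul_le_mul_left h6 (by positivity)
  exact le_of_mul_le_mul_left h7 hHr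

/-- the triples share the first and the last number -/
lemma rr_nearB (hH : 0 < H) (i j j' k : Fin N) (hj : j' ≠ j) :
    ∑ c : Fin 4 × Fin N → Fin H, rr c (i, j, k) * rr c (i, j', k)
      ≤ 2 * Fintype.card (Fin 4 × Fin N → Fin H) := by
  have hHr : (0 : ℝ) < H := by exact_mod_cast hH
  have h3 := step (V := Fin H) ((1, j') : Fin 4 × Fin N)
    (fun b' c => rr c (i, j, k) * dens (c (0, i)) b' (c (2, k)) (c (3, k))) (by
      intro v c v'
      simp [rr, hj.symm])
  have h4 := mean4 (H := H) (fun a b u v => ∑ b', dens a b u v * dens a b' u v) (i, j, k)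
  have h5 : ∑ a : Fin H, ∑ b, ∑ u, ∑ v, ∑ b', dens a b u v * dens a b' u v
      ≤ (H : ℝ) ^ 4 * (2 * H - 1) := by
    have h6 : ∀ a u v : Fin H, ∑ b, ∑ b', dens a b u v * dens a b' u v
        = ∑ b, dens a b u v ^ 2 := fun a u v => dens_cross2 a u v
    have h7 : ∑ a : Fin H, ∑ b, ∑ u, ∑ v, ∑ b', dens a b u v * dens a b' u v
        = ∑ a : Fin H, ∑ b, ∑ u, ∑ v, dens a b u v ^ 2 := by
      apply Finset.sum_congr rfl
      intro a _
      rw [Finset.sum_comm, Finset.sum_comm (f := fun b u => ∑ v, dens a b u v ^ 2)]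
      apply Finset.sum_congr rfl
      intro u _
      rw [Finset.sum_comm, Finset.sum_comm (f := fun b v => dens a b u v ^ 2)]
      apply Finset.sum_congr rfl
      intro v _
      exact h6 a u v
    rw [h7]
    exact dens_sq hH
  rw [Fintype.card_fin] at h3
  have h6 : (H : ℝ) ^ 4 * (H * ∑ c : Fin 4 × Fin N → Fin H, rr c (i, j, k) * rr c (i, j', k))
      ≤ (H : ℝ) ^ 4 * (H * (2 * Fintype.card (Fin 4 × Fin N → Fin H))) := by
    have h7 : (H : ℝ) * ∑ c : Fin 4 × Fin N → Fin H, rr c (i, j, k) * rr c (i, j', k)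
        = ∑ c : Fin 4 × Fin N → Fin H, ∑ b',
          rr c (i, j, k) * dens (c (0, i)) b' (c (2, k)) (c (3, k)) := h3
    have h8 : (H : ℝ) ^ 4 * ∑ c : Fin 4 × Fin N → Fin H, ∑ b',
          rr c (i, j, k) * dens (c (0, i)) b' (c (2, k)) (c (3, k))
        = Fintype.card (Fin 4 × Fin N → Fin H) * ∑ a, ∑ b, ∑ u, ∑ v, ∑ b',
          dens a b u v * dens a b' u v := h4
    rw [h7, h8]
    have hc := Nat.cast_nonneg (α := ℝ) (Fintype.card (Fin 4 × Fin N → Fin H))
    have h9 := mul_le_mul_of_nonneg_left h5 hc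
    refine h9.trans ?_
    have h10 : (Fintype.card (Fin 4 × Fin N → Fin H) : ℝ) * ((H : ℝ) ^ 4 * (2 * H - 1))
        = (H : ℝ) ^ 4 * (H * (2 * Fintype.card (Fin 4 × Fin N → Fin H)))
          - (H : ℝ) ^ 4 * Fintype.card (Fin 4 × Fin N → Fin H) := by ring
    rw [h10]
    have h11 : 0 ≤ (H : ℝ) ^ 4 * Fintype.card (Fin 4 × Fin N → Fin H) := by positivity
    linarith
  have h7 := le_of_mul_le_mul_left h6 (by positivity)
  exact le_of_mul_le_mul_left h7 hHr

end

section
variable {H N T S : ℕ}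

lemma rr_expand (hH : 0 < H) (x x' : Fin N × Fin N × Fin N) :
    ∑ c : Fin 4 × Fin N → Fin H, (rr c x - 1) * (rr c x' - 1)
      = ∑ c : Fin 4 × Fin N → Fin H, rr c x * rr c x' - Fintype.card (Fin 4 × Fin N → Fin H) := by
  have h1 : ∀ c : Fin 4 × Fin N → Fin H, (rr c x - 1) * (rr c x' - 1)
      = rr c x * rr c x' - rr c x - rr c x' + 1 := fun c => by ring
  rw [Finset.sum_congr rfl (fun c _ => h1 c), Finset.sum_add_distrib, Finset.sum_sub_distrib,
    Finset.sum_sub_distrib, rr_sum hH x, rr_sum hH x', Finset.sum_const, Finset.card_univ,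
    nsmul_eq_mul]
  ring

/-- the correlations -/
lemma rr_bound (hH : 0 < H) (x x' : Fin N × Fin N × Fin N) :
    |∑ c : Fin 4 × Fin N → Fin H, (rr c x - 1) * (rr c x' - 1)|
      ≤ (if x' = x then 2 * H * (Fintype.card (Fin 4 × Fin N → Fin H) : ℝ) else 0)
        + (if x'.2 = x.2 then (Fintype.card (Fin 4 × Fin N → Fin H) : ℝ) else 0)
        + (if x'.1 = x.1 ∧ x'.2.2 = x.2.2 then (Fintype.card (Fin 4 × Fin N → Fin H) : ℝ) else 0)
      := by
  obtain ⟨i, j, k⟩ := x
  obtain ⟨i', j', k'⟩ := x'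
  set C : ℝ := (Fintype.card (Fin 4 × Fin N → Fin H) : ℝ) with hC
  have hC0 : 0 ≤ C := Nat.cast_nonneg _
  have hHr : (0 : ℝ) ≤ H := Nat.cast_nonneg _
  have hnn : 0 ≤ ∑ c : Fin 4 × Fin N → Fin H, rr c (i, j, k) * rr c (i', j', k') :=
    Finset.sum_nonneg (fun c _ => mul_nonneg (dens_nonneg _ _ _ _) (dens_nonneg _ _ _ _))
  have hrest : ∀ (p q r : Prop) [Decidable p] [Decidable q] [Decidable r],
      0 ≤ (if p then 2 * H * C else 0) + (if q then C else 0) + (if r then C else 0) := by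
    intro p q r _ _ _
    split_ifs <;> positivity
  by_cases hk : k' = k
  · subst hk
    by_cases hi : i' = i
    · subst hi
      by_cases hj : j' = j
      · subst hj
        rw [rr_expand hH, if_pos rfl, if_pos rfl, if_pos ⟨rfl, rfl⟩]
        have h1 := rr_sq hH ((i', j', k') : Fin N × Fin N × Fin N)
        rw [← hC] at h1
        have h2 : ∑ c : Fin 4 × Fin N → Fin H, rr c (i', j', k') * rr c (i', j', k')
            = ∑ c : Fin 4 × Fin N → Fin H, rr c (i', j', k') ^ 2 :=
          Finset.sum_congr rfl (fun c _ => by ring)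
        rw [h2]
        rw [h2] at hnn
        rw [abs_le]
        constructor
        · have : 0 ≤ 2 * H * C := by positivity
          linarith
        · linarith
      · rw [rr_expand hH]
        have h1 := rr_nearB hH i' j j' k' hj
        rw [← hC] at h1
        have h2 : ¬ ((i', j', k') : Fin N × Fin N × Fin N) = (i', j, k') := by
          intro h
          exact hj (congrArg (fun p => p.2.1) h)
        have h3 : ¬ (((i', j', k') : Fin N × Fin N × Fin N).2 = (i', j, k').2) := by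
          intro h
          exact hj (congrArg Prod.fst h)
        rw [if_neg h2, if_neg h3, if_pos ⟨rfl, rfl⟩, abs_le]
        constructor <;> linarith
    · by_cases hj : j' = j
      · subst hj
        rw [rr_expand hH]
        have h1 := rr_nearA hH i i' j' k' hi
        rw [← hC] at h1
        have h2 : ¬ ((i', j', k') : Fin N × Fin N × Fin N) = (i, j', k') := by
          intro h
          exact hi (congrArg Prod.fst h)
        have h3 : ¬ (((i', j', k') : Fin N × Fin N × Fin N).1 = (i, j', k').1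
            ∧ ((i', j', k') : Fin N × Fin N × Fin N).2.2 = (i, j', k').2.2) := fun h => hi h.1
        rw [if_neg h2, if_pos rfl, if_neg h3, abs_le]
        constructor <;> linarith
      · rw [rr_orthAB hH (i, j, k') (i', j', k') hi hj, abs_zero]
        exact hrest _ _ _
  · rw [rr_orthC hH (i, j, k) (i', j', k') hk, abs_zero]
    exact hrest _ _ _

/-- The twist of 3SUM in any base. -/
theorem twist_base (hH : 0 < H) (hN : 0 < N) :
    Twist (Off (H := H) (N := N)) (fun c x => rr c x - 1) (2 * (H + N) / (N : ℝ) ^ 3) := by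
  classical
  have hNr : (0 : ℝ) < N := by exact_mod_cast hN
  refine ⟨?_, ?_, ?_, by positivity, ?_⟩
  · intro c x
    unfold isBad
    by_cases h : Off c x
    · have h1 : rr c x = 0 := if_neg h
      rw [if_pos h, h1]
      norm_num
    · rw [if_neg h, zero_mul]
  · intro c x
    have h1 : 0 ≤ rr c x := dens_nonneg _ _ _ _
    linarith
  · intro x
    rw [Finset.sum_sub_distrib, rr_sum hH x, Finset.sum_const, Finset.card_univ, nsmul_eq_mul,
      mul_one, sub_self]
  · intro Ψ
    rw [sq_corr (fun c x => rr c x - 1) Ψ]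
    refine schur (fun x x' => ∑ c : Fin 4 × Fin N → Fin H, (rr c x - 1) * (rr c x' - 1))
      (fun x x' => Finset.sum_congr rfl (fun c _ => mul_comm _ _)) ?_ Ψ
    intro x
    refine (Finset.sum_le_sum (fun x' _ => rr_bound hH x x')).trans (le_of_eq ?_)
    set C : ℝ := (Fintype.card (Fin 4 × Fin N → Fin H) : ℝ) with hC
    have h1 : ∑ x' : Fin N × Fin N × Fin N, (if x' = x then 2 * H * C else 0) = 2 * H * C := by
      rw [Finset.sum_ite_eq' Finset.univ x, if_pos (Finset.mem_univ x)]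
    have h2 : ∑ x' : Fin N × Fin N × Fin N, (if x'.2 = x.2 then C else 0) = N * C := by
      rw [Fintype.sum_prod_type]
      simp only
      have h3 : ∀ i' : Fin N, ∑ q : Fin N × Fin N, (if q = x.2 then C else 0) = C := by
        intro i'
        rw [Finset.sum_ite_eq' Finset.univ x.2, if_pos (Finset.mem_univ _)]
      rw [Finset.sum_congr rfl (fun i' _ => h3 i'), Finset.sum_const, Finset.card_univ,
        Fintype.card_fin, nsmul_eq_mul]
    have h3 : ∑ x' : Fin N × Fin N × Fin N, (if x'.1 = x.1 ∧ x'.2.2 = x.2.2 then C else 0)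
        = N * C := by
      rw [Fintype.sum_prod_type, Finset.sum_eq_single x.1]
      · rw [Fintype.sum_prod_type]
        have h4 : ∀ j' : Fin N, ∑ k' : Fin N, (if x.1 = x.1 ∧ k' = x.2.2 then C else 0) = C := by
          intro j'
          rw [Finset.sum_eq_single x.2.2]
          · rw [if_pos ⟨rfl, rfl⟩]
          · intro k' _ hk'
            rw [if_neg (fun h => hk' h.2)]
          · intro h
            exact absurd (Finset.mem_univ _) h
        rw [Finset.sum_congr rfl (fun j' _ => h4 j'), Finset.sum_const, Finset.card_univ,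
          Fintype.card_fin, nsmul_eq_mul]
      · intro i' _ hi'
        apply Finset.sum_eq_zero
        intro q _
        rw [if_neg (fun h => hi' h.1)]
      · intro h
        exact absurd (Finset.mem_univ _) h
    rw [Finset.sum_add_distrib, Finset.sum_add_distrib, h1, h2, h3]
    have h4 : (Fintype.card (Fin N × Fin N × Fin N) : ℝ) = (N : ℝ) ^ 3 := by
      rw [Fintype.card_prod, Fintype.card_prod, Fintype.card_fin]
      push_cast
      ring
    rw [h4]
    field_simp
    ring

/-! ### The numbers -/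

lemma digits_injB (B : ℕ) : ∀ (T : ℕ) (f g : Fin T → ℕ), (∀ t, f t < B) → (∀ t, g t < B) →
    ∑ t, f t * B ^ (t : ℕ) = ∑ t, g t * B ^ (t : ℕ) → f = g := by
  intro T
  induction T with
  | zero => intro f g _ _ _; funext t; exact t.elim0
  | succ T ih =>
    intro f g hf hg h
    rw [Fin.sum_univ_succ, Fin.sum_univ_succ] at h
    have h1 : ∀ q : Fin (T + 1) → ℕ, ∑ t : Fin T, q t.succ * B ^ ((t.succ : Fin (T + 1)) : ℕ)
        = B * ∑ t : Fin T, q t.succ * B ^ (t : ℕ) := by
      intro q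
      rw [Finset.mul_sum]
      apply Finset.sum_congr rfl
      intro t _
      rw [Fin.val_succ, pow_succ]
      ring
    rw [h1 f, h1 g] at h
    simp only [Fin.val_zero, pow_zero, mul_one] at h
    have h2 := hf 0
    have h3 := hg 0
    have h4 : f 0 = g 0 := by
      have h5 := congrArg (fun n => n % B) h
      simpa [Nat.add_mul_mod_self_left, Nat.mod_eq_of_lt h2, Nat.mod_eq_of_lt h3] using h5
    have hB : 0 < B := lt_of_le_of_lt (Nat.zero_le _) h2
    have h5 : ∑ t : Fin T, f t.succ * B ^ (t : ℕ) = ∑ t : Fin T, g t.succ * B ^ (t : ℕ) := by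
      rw [h4] at h
      exact Nat.eq_of_mul_eq_mul_left hB (Nat.add_left_cancel h)
    have h6 := ih (fun t => f t.succ) (fun t => g t.succ) (fun t => hf _) (fun t => hg _) h5
    funext t
    refine Fin.cases h4 (fun t => ?_) t
    exact congrFun h6 t

/-- the numbers of the first list, in base `2 * H` -/
def valA (y : Fin T → (Fin 4 × Fin N → Fin H)) (i : Fin N) : ℤ :=
  ∑ t, ((y t (0, i) : ℕ) : ℤ) * (2 * H) ^ (t : ℕ)

/-- the numbers of the second list -/
def valB (y : Fin T → (Fin 4 × Fin N → Fin H)) (j : Fin N) : ℤ :=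
  ∑ t, ((y t (1, j) : ℕ) : ℤ) * (2 * H) ^ (t : ℕ)

/-- the numbers of the third list -/
def valC (y : Fin T → (Fin 4 × Fin N → Fin H)) (k : Fin N) : ℤ :=
  - ∑ t, (((y t (2, k) : ℕ) : ℤ) + ((y t (3, k) : ℕ) : ℤ)) * (2 * H) ^ (t : ℕ)

/-- the triples with the sum zero -/
lemma val_iff (y : Fin T → (Fin 4 × Fin N → Fin H)) (i j k : Fin N) :
    valA y i + valB y j + valC y k = 0 ↔ ∀ t, ¬ Off (y t) (i, j, k) := by
  have h1 : valA y i + valB y j + valC y k
      = ((∑ t, ((y t (0, i) : ℕ) + (y t (1, j) : ℕ)) * (2 * H) ^ (t : ℕ) : ℕ) : ℤ)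
        - ((∑ t, ((y t (2, k) : ℕ) + (y t (3, k) : ℕ)) * (2 * H) ^ (t : ℕ) : ℕ) : ℤ) := by
    unfold valA valB valC
    push_cast
    rw [← Finset.sum_add_distrib, ← sub_eq_add_neg]
    congr 1
    apply Finset.sum_congr rfl
    intro t _
    ring
  have h2 : ∀ t, ¬ Off (y t) (i, j, k) ↔
      (y t (0, i) : ℕ) + (y t (1, j) : ℕ) = (y t (2, k) : ℕ) + (y t (3, k) : ℕ) := by
    intro t
    unfold Off
    rw [not_not]
  rw [h1, sub_eq_zero, Nat.cast_inj]
  constructor
  · intro h t
    rw [h2]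
    have h3 := digits_injB (2 * H) T
      (fun t => (y t (0, i) : ℕ) + (y t (1, j) : ℕ))
      (fun t => (y t (2, k) : ℕ) + (y t (3, k) : ℕ))
      (fun t => by have := (y t (0, i)).2; have := (y t (1, j)).2; omega)
      (fun t => by have := (y t (2, k)).2; have := (y t (3, k)).2; omega) h
    exact congrFun h3 t
  · intro h
    apply Finset.sum_congr rfl
    intro t _
    rw [(h2 t).1 (h t)]

/-! ### Excluding pairs -/

/-- the digit of the second number is not possible for the digit of the third number -/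
def PairOff (c : Fin 4 × Fin N → Fin H) (x : Fin N × Fin N) : Prop :=
  ∀ a : Fin H, (a : ℕ) + c (1, x.1) ≠ c (2, x.2) + c (3, x.2)

lemma pair_off (c : Fin 4 × Fin N → Fin H) (x : Fin N × Fin N × Fin N) (h : PairOff c x.2) :
    Off c x := h (c (0, x.1))

/-- the fraction of the digits `b, u, v` for which some digit `a` has `a + b = u + v` -/
noncomputable def possible (H : ℕ) : ℝ :=
  ({p : Fin H × Fin H × Fin H | ∃ a : Fin H, (a : ℕ) + p.1 = p.2.1 + p.2.2}.ncard : ℝ) / H ^ 3

open Classical in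
lemma pair_off_count (hH : 0 < H) (x : Fin N × Fin N) :
    ((Finset.univ.filter fun c : Fin 4 × Fin N → Fin H => ¬ PairOff c x).card : ℝ)
      ≤ possible H * Fintype.card (Fin 4 × Fin N → Fin H) := by
  have hHr : (0 : ℝ) < H := by exact_mod_cast hH
  have h1 := mean4 (H := H) (fun _ b u v => if ∃ a : Fin H, (a : ℕ) + b = u + v
    then (1 : ℝ) else 0) ((x.1, x.1, x.2) : Fin N × Fin N × Fin N)
  have h2 : ∑ _a : Fin H, ∑ b : Fin H, ∑ u : Fin H, ∑ v : Fin H,
      (if ∃ a : Fin H, (a : ℕ) + b = u + v then (1 : ℝ) else 0)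
      = H * ({p : Fin H × Fin H × Fin H | ∃ a : Fin H, (a : ℕ) + p.1 = p.2.1 + p.2.2}.ncard : ℝ)
      := by
    rw [Finset.sum_const, Finset.card_univ, Fintype.card_fin, nsmul_eq_mul]
    congr 1
    have h3 : ∑ b : Fin H, ∑ u : Fin H, ∑ v : Fin H,
        (if ∃ a : Fin H, (a : ℕ) + b = u + v then (1 : ℝ) else 0)
        = ∑ p : Fin H × Fin H × Fin H,
          (if ∃ a : Fin H, (a : ℕ) + p.1 = p.2.1 + p.2.2 then (1 : ℝ) else 0) := by
      rw [Fintype.sum_prod_type]
      apply Finset.sum_congr rfl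
      intro b _
      rw [Fintype.sum_prod_type]
    rw [h3, Finset.sum_boole, Set.ncard_eq_toFinset_card']
    congr 2
    ext p
    simp
  rw [h2, Finset.sum_boole] at h1
  have h4 : (Finset.univ.filter fun c : Fin 4 × Fin N → Fin H => ¬ PairOff c x)
      = Finset.univ.filter fun c : Fin 4 × Fin N → Fin H =>
        ∃ a : Fin H, (a : ℕ) + c (1, x.1) = c (2, x.2) + c (3, x.2) := by
    ext c
    simp [PairOff]
  rw [h4]
  unfold possible
  rw [div_mul_eq_mul_div, le_div_iff₀ (by positivity)]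
  have h5 : (H : ℝ) * (((Finset.univ.filter fun c : Fin 4 × Fin N → Fin H =>
        ∃ a : Fin H, (a : ℕ) + c (1, x.1) = c (2, x.2) + c (3, x.2)).card : ℝ) * H ^ 3)
      = H * (({p : Fin H × Fin H × Fin H |
        ∃ a : Fin H, (a : ℕ) + p.1 = p.2.1 + p.2.2}.ncard : ℝ)
        * Fintype.card (Fin 4 × Fin N → Fin H)) := by
    have h6 : (H : ℝ) * (((Finset.univ.filter fun c : Fin 4 × Fin N → Fin H =>
        ∃ a : Fin H, (a : ℕ) + c (1, x.1) = c (2, x.2) + c (3, x.2)).card : ℝ) * H ^ 3)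
        = (H : ℝ) ^ 4 * ((Finset.univ.filter fun c : Fin 4 × Fin N → Fin H =>
        ∃ a : Fin H, (a : ℕ) + c (1, x.1) = c (2, x.2) + c (3, x.2)).card : ℝ) := by ring
    rw [h6, h1]
    ring
  exact (mul_left_cancel₀ hHr.ne' h5).le

/-- the fraction of the triples which are represented -/
lemma pair_off_rate (hN : 0 < N) (e : Fin N × Fin N ≃ Fin (N ^ 2)) (hS : S ≤ N ^ 2) :
    (comap (brute (PairOff (H := H) (N := N)) e hS)
      (fun x : Fin N × Fin N × Fin N => x.2)).correctRate Off = (S : ℝ) / N ^ 2 := by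
  unfold Scheme.correctRate
  have h1 : {x : Fin N × Fin N × Fin N |
      (comap (brute (PairOff (H := H) (N := N)) e hS)
        (fun x : Fin N × Fin N × Fin N => x.2)).CorrectAt Off x}
      = (fun p : Fin N × Fin S => ((p.1, e.symm (Fin.castLE hS p.2)) : Fin N × Fin N × Fin N))
        '' Set.univ := by
    ext x
    rw [Set.mem_ofPred_eq, part_correct PairOff Off (fun x => x.2) pair_off e hS x]
    constructor
    · intro hx
      refine ⟨(x.1, ⟨_, hx⟩), Set.mem_univ _, ?_⟩
      have h2 : Fin.castLE hS ⟨_, hx⟩ = e x.2 := by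
        apply Fin.ext; rfl
      simp only [h2, Equiv.symm_apply_apply]
    · rintro ⟨p, _, rfl⟩
      change ((e (e.symm (Fin.castLE hS p.2)) : Fin (N ^ 2)) : ℕ) < S
      rw [Equiv.apply_symm_apply]
      exact p.2.2
  have hinj : Function.Injective
      (fun p : Fin N × Fin S => ((p.1, e.symm (Fin.castLE hS p.2)) : Fin N × Fin N × Fin N)) := by
    intro p p' hp
    have h2 := congrArg Prod.fst hp
    have h3 := congrArg Prod.snd hp
    exact Prod.ext h2 (Fin.castLE_injective hS (e.symm.injective h3))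
  rw [h1, Set.ncard_image_of_injective _ hinj, Set.ncard_univ, Nat.card_eq_fintype_card,
    Nat.card_eq_fintype_card, Fintype.card_prod, Fintype.card_prod, Fintype.card_prod,
    Fintype.card_fin, Fintype.card_fin]
  have hN' : (N : ℝ) ≠ 0 := by exact_mod_cast hN.ne'
  push_cast
  field_simp

/-- `N ^ 2` inequalities suffice for random numbers with many digits. -/
theorem base_upper (hH : 0 < H) (hN : 0 < N) (S : ℕ) (hS : S ≤ N ^ 2) :
    ∃ P : Scheme (Fin N × Fin N × Fin N) (Fin 4 × Fin N → Fin H) 0 S 1 1,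
      P.correctRate Off = (S : ℝ) / N ^ 2 ∧
      ∀ (T : ℕ) (δ : ℝ), 0 ≤ δ → T * δ < 1 →
        1 - (N : ℝ) ^ 2 * possible H ^ T ≤ rejectRate P Off T δ := by
  classical
  have : Nonempty (Fin H) := ⟨⟨0, hH⟩⟩
  have hcard : Fintype.card (Fin N × Fin N) = N ^ 2 := by
    rw [Fintype.card_prod, Fintype.card_fin]
    ring
  let e : Fin N × Fin N ≃ Fin (N ^ 2) := Fintype.equivFinOfCardEq hcard
  refine ⟨comap (brute PairOff e hS) (fun x => x.2), pair_off_rate hN e hS, ?_⟩
  intro T δ hδ0 hδ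
  have h1 := part_rate (T := T) PairOff (Off (H := H) (N := N))
    (comap (brute PairOff e hS) (fun x => x.2)) (δ := δ) (ρ := possible H)
    (fun y hy => part_rejects PairOff Off (fun x => x.2) pair_off e hS y hδ hy)
    (fun x => pair_off_count hH x)
  rw [hcard] at h1
  refine le_trans (le_of_eq ?_) h1
  push_cast
  rfl

open Classical in
/-- few columns balance -/
lemma off_count (hH : 0 < H) (x : Fin N × Fin N × Fin N) :
    ({c : Fin 4 × Fin N → Fin H | ¬ Off c x}.ncard : ℝ)
      ≤ 1 / H * Fintype.card (Fin 4 × Fin N → Fin H) := by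
  have hHr : (0 : ℝ) < H := by exact_mod_cast hH
  have h1 := mean4 (H := H) (fun a b u v => if (a : ℕ) + b = u + v then (1 : ℝ) else 0) x
  have h2 : ∑ a : Fin H, ∑ b : Fin H, ∑ u : Fin H, ∑ v : Fin H,
      (if (a : ℕ) + b = u + v then (1 : ℝ) else 0) ≤ (H : ℝ) ^ 3 := by
    have h3 : ∀ a b u : Fin H, ∑ v : Fin H, (if (a : ℕ) + b = u + v then (1 : ℝ) else 0) ≤ 1 := by
      intro a b u
      rw [Finset.sum_boole]
      have h4 : (Finset.univ.filter fun v : Fin H => (a : ℕ) + b = u + v).card ≤ 1 := by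
        rw [Finset.card_le_one]
        intro v hv v' hv'
        have h5 := (Finset.mem_filter.1 hv).2
        have h6 := (Finset.mem_filter.1 hv').2
        exact Fin.ext (by omega)
      exact_mod_cast h4
    calc ∑ a : Fin H, ∑ b : Fin H, ∑ u : Fin H, ∑ v : Fin H,
        (if (a : ℕ) + b = u + v then (1 : ℝ) else 0)
        ≤ ∑ _a : Fin H, ∑ _b : Fin H, ∑ _u : Fin H, (1 : ℝ) :=
          Finset.sum_le_sum (fun a _ => Finset.sum_le_sum (fun b _ =>
            Finset.sum_le_sum (fun u _ => h3 a b u)))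
      _ = (H : ℝ) ^ 3 := by
          simp only [Finset.sum_const, Finset.card_univ, Fintype.card_fin, nsmul_eq_mul]
          ring
  have h3 : ({c : Fin 4 × Fin N → Fin H | ¬ Off c x}.ncard : ℝ)
      = ∑ c : Fin 4 × Fin N → Fin H,
        (if (c (0, x.1) : ℕ) + c (1, x.2.1) = c (2, x.2.2) + c (3, x.2.2) then (1 : ℝ) else 0) := by
    rw [Finset.sum_boole, Set.ncard_eq_toFinset_card']
    congr 2
    ext c
    simp [Off]
  rw [h3]
  have h4 : (H : ℝ) ^ 4 * ∑ c : Fin 4 × Fin N → Fin H,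
        (if (c (0, x.1) : ℕ) + c (1, x.2.1) = c (2, x.2.2) + c (3, x.2.2) then (1 : ℝ) else 0)
      ≤ (H : ℝ) ^ 4 * (1 / H * Fintype.card (Fin 4 × Fin N → Fin H)) := by
    have h5 : (H : ℝ) ^ 4 * ∑ c : Fin 4 × Fin N → Fin H,
        (if (c (0, x.1) : ℕ) + c (1, x.2.1) = c (2, x.2.2) + c (3, x.2.2) then (1 : ℝ) else 0)
        = Fintype.card (Fin 4 × Fin N → Fin H) * ∑ a : Fin H, ∑ b : Fin H, ∑ u : Fin H,
          ∑ v : Fin H, (if (a : ℕ) + b = u + v then (1 : ℝ) else 0) := h1
    rw [h5]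
    refine (mul_le_mul_of_nonneg_left h2 (Nat.cast_nonneg _)).trans (le_of_eq ?_)
    field_simp
  exact le_of_mul_le_mul_left h4 (by positivity)

lemma possible_two : possible 2 = 3 / 4 := by
  unfold possible
  have h1 : {p : Fin 2 × Fin 2 × Fin 2 | ∃ a : Fin 2, (a : ℕ) + p.1 = p.2.1 + p.2.2}.ncard = 6 := by
    rw [Set.ncard_eq_toFinset_card']
    decide
  rw [h1]
  norm_num

end

end Pool.Agent.TH689.QX
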