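import Mathlib
import Pool.Agent.TH689.QXComap
import Pool.Agent.TH689.QXJunta
import Pool.Agent.TH689.QXUpper

/-!
Convex programming relaxations for learning DNF formulas.
-/

set_option autoImplicit false

namespace Pool.Agent.TH689.QX

open Finset Pool.Agent.TH689.GX

/-- A term over `n` variables: the variable `i` does not occur if `q i = none`, and it has to be `b`
if `q i = some b`. -/
abbrev Term (n : ℕ) := Fin n → Option Bool

/-- the assignment `z` satisfies the term `q` -/
def Term.Sat {n : ℕ} (q : Term n) (z : Fin n → Bool) : Prop := ∀ i b, q i = some b → z i = b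

open Classical in
/-- the number of the literals of a term -/
noncomputable def Term.width {n : ℕ} (q : Term n) : ℕ :=
  (Finset.univ.filter fun i => q i ≠ none).card

/-- a DNF formula with `s` terms (which need not be different) over `n` variables -/
abbrev Dnf (s n : ℕ) := Fin s → Term n

open Classical in
/-- the value of a DNF formula -/
noncomputable def Dnf.eval {s n : ℕ} (F : Dnf s n) (z : Fin n → Bool) : Bool :=
  decide (∃ j, (F j).Sat z)

/-! ### Parities -/

/-- the parity of bits -/
def par {w : ℕ} (v : Fin w → Bool) : Bool := decide ((∑ i, if v i then (1 : ZMod 2) else 0) = 1)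

lemma par_flip {w : ℕ} (v : Fin w → Bool) (i : Fin w) : par (Function.update v i (!v i)) = !par v := by
  have h1 : ∑ j, (if Function.update v i (!v i) j then (1 : ZMod 2) else 0)
      = (∑ j, if v j then (1 : ZMod 2) else 0) + 1 := by
    rw [← Finset.add_sum_erase _ _ (Finset.mem_univ i),
      ← Finset.add_sum_erase _ (fun j => if v j then (1 : ZMod 2) else 0) (Finset.mem_univ i)]
    have h2 : ∑ j ∈ Finset.univ.erase i, (if Function.update v i (!v i) j then (1 : ZMod 2) else 0)
        = ∑ j ∈ Finset.univ.erase i, if v j then (1 : ZMod 2) else 0 := by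
      apply Finset.sum_congr rfl
      intro j hj
      rw [Function.update_of_ne (Finset.mem_erase.1 hj).1]
    rw [h2, Function.update_self]
    generalize ∑ j ∈ Finset.univ.erase i, (if v j then (1 : ZMod 2) else 0) = t
    cases v i
    · simp only [Bool.not_false, if_true, Bool.false_eq_true, if_false, zero_add]
      ring
    · simp only [Bool.not_true, if_true, Bool.false_eq_true, if_false, zero_add]
      revert t
      decide
  unfold par
  rw [h1]
  generalize (∑ j, if v j then (1 : ZMod 2) else 0) = t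
  revert t
  decide

/-- there are `2 ^ (w - 1)` odd vectors -/
lemma card_odd {w : ℕ} (hw : 0 < w) :
    (Finset.univ.filter fun v : Fin w → Bool => par v = true).card = 2 ^ (w - 1) := by
  have h1 := balanced_of_flip (par (w := w)) Finset.univ (c := 0)
    (by rw [Finset.card_univ, Fintype.card_fin]; exact hw) (fun i _ v => par_flip v i)
    ∅ (by simp) (fun _ => false)
  simp only [Finset.piecewise_empty] at h1
  have h2 : 2 ^ w = 2 * 2 ^ (w - 1) := by
    rw [← pow_succ', Nat.sub_add_cancel hw]
  omega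

/-- an enumeration of the odd vectors -/
lemma exists_enum {w s : ℕ} (hw : 0 < w) (hs : 2 ^ (w - 1) ≤ s) :
    ∃ α : Fin s → (Fin w → Bool), ∀ v, par v = true ↔ ∃ j, α j = v := by
  classical
  set O := Finset.univ.filter fun v : Fin w → Bool => par v = true with hO
  have hc : O.card = 2 ^ (w - 1) := card_odd hw
  have hpos : 0 < O.card := by rw [hc]; positivity
  let e := O.equivFin
  let β : Fin s → O := fun j => if h : (j : ℕ) < O.card then e.symm ⟨j, h⟩ else e.symm ⟨0, hpos⟩
  refine ⟨fun j => (β j : Fin w → Bool), ?_⟩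
  intro v
  constructor
  · intro hv
    have hvO : v ∈ O := Finset.mem_filter.2 ⟨Finset.mem_univ _, hv⟩
    refine ⟨⟨e ⟨v, hvO⟩, lt_of_lt_of_le (e ⟨v, hvO⟩).2 (hc ▸ hs)⟩, ?_⟩
    have h1 : ((⟨e ⟨v, hvO⟩, lt_of_lt_of_le (e ⟨v, hvO⟩).2 (hc ▸ hs)⟩ : Fin s) : ℕ) < O.card :=
      (e ⟨v, hvO⟩).2
    simp only [β]
    rw [dif_pos h1]
    simp
  · rintro ⟨j, rfl⟩
    exact (Finset.mem_filter.1 (β j).2).2

variable {n w N s : ℕ}

/-- the variable `j` of the block `i` -/
def vr (h : w * N ≤ n) (p : Fin w × Fin N) : Fin n := Fin.castLE h (finProdFinEquiv p)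

lemma vr_inj (h : w * N ≤ n) : Function.Injective (vr h) := by
  intro p p' hp
  exact finProdFinEquiv.injective (Fin.castLE_injective h hp)

/-- the parity of the variables which are selected by `x` -/
def ph (h : w * N ≤ n) (x : Fin w → Fin N) (z : Fin n → Bool) : Bool :=
  par fun i => z (vr h (i, x i))

/-- different parities are orthogonal -/
lemma ph_orth (h : w * N ≤ n) (x x' : Fin w → Fin N) (hx : x ≠ x') :
    ∑ z, sg (ph h x z) * sg (ph h x' z) = 0 := by
  classical
  obtain ⟨i₀, hi₀⟩ := Function.ne_iff.1 hx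
  let f : (Fin n → Bool) → (Fin n → Bool) := fun c =>
    Function.update c (vr h (i₀, x i₀)) (!c (vr h (i₀, x i₀)))
  have hf : Function.Involutive f := by
    intro c
    simp only [f, Function.update_self, Bool.not_not, Function.update_idem,
      Function.update_eq_self]
  have h1 : ∀ z, sg (ph h x (f z)) = - sg (ph h x z) := by
    intro z
    have h2 : (fun i => f z (vr h (i, x i)))
        = Function.update (fun i => z (vr h (i, x i))) i₀ (!z (vr h (i₀, x i₀))) := by
      funext i
      by_cases hi : i = i₀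
      · subst hi
        simp only [f, Function.update_self]
      · rw [Function.update_of_ne hi]
        have hne : vr h (i, x i) ≠ vr h (i₀, x i₀) := by
          intro hh
          exact hi (congrArg Prod.fst (vr_inj h hh))
        simp only [f, Function.update_of_ne hne]
    unfold ph
    rw [h2, par_flip (fun i => z (vr h (i, x i))) i₀]
    cases par fun i => z (vr h (i, x i)) <;> norm_num [sg]
  have h2 : ∀ z, sg (ph h x' (f z)) = sg (ph h x' z) := by
    intro z
    unfold ph
    congr 2
    funext i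
    have hne : vr h (i, x' i) ≠ vr h (i₀, x i₀) := by
      intro hh
      have h3 := vr_inj h hh
      have h4 : i = i₀ := congrArg Prod.fst h3
      subst h4
      exact hi₀ (congrArg Prod.snd h3).symm
    simp only [f, Function.update_of_ne hne]
  have h3 := (Equiv.sum_comp hf.toPerm
      (fun z : Fin n → Bool => sg (ph h x z) * sg (ph h x' z))).symm
  have h4 : ∑ z, sg (ph h x (f z)) * sg (ph h x' (f z))
      = - ∑ z, sg (ph h x z) * sg (ph h x' z) := by
    rw [← Finset.sum_neg_distrib]
    apply Finset.sum_congr rfl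
    intro z _
    rw [h1, h2]
    ring
  have h5 : ∑ z, sg (ph h x z) * sg (ph h x' z) = - ∑ z, sg (ph h x z) * sg (ph h x' z) :=
    h3.trans h4
  linarith

/-- The twist of the parities. -/
theorem twist_par (h : w * N ≤ n) (hN : 0 < N) :
    Twist (Wrong (ph h)) (sgn (Wrong (ph h))) (1 / (N : ℝ) ^ w) := by
  classical
  have hNr : (0 : ℝ) < N := by exact_mod_cast hN
  apply twist_learn _ (by positivity)
  intro x
  rw [Finset.sum_eq_single x]
  · have h1 : ∑ z : Fin n → Bool, sg (ph h x z) * sg (ph h x z)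
        = (Fintype.card (Fin n → Bool) : ℝ) := by
      rw [Finset.sum_congr rfl (fun z _ => sg_mul_self _), Finset.sum_const, Finset.card_univ,
        nsmul_eq_mul, mul_one]
    have h3 : (Fintype.card (Fin w → Fin N) : ℝ) = (N : ℝ) ^ w := by
      rw [Fintype.card_fun, Fintype.card_fin, Fintype.card_fin]
      push_cast
      rfl
    rw [h1, abs_of_nonneg (Nat.cast_nonneg _), h3]
    apply le_of_eq
    field_simp
  · intro x' _ hx'
    rw [ph_orth h x x' (fun hh => hx' hh.symm), abs_zero]
  · intro hh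
    exact absurd (Finset.mem_univ _) hh

open Classical in
/-- the DNF formula for a parity -/
noncomputable def pdnf (h : w * N ≤ n) (α : Fin s → (Fin w → Bool)) (x : Fin w → Fin N) :
    Dnf s n := fun j v => if hv : ∃ i, vr h (i, x i) = v then some (α j hv.choose) else none

lemma pdnf_at (h : w * N ≤ n) (α : Fin s → (Fin w → Bool)) (x : Fin w → Fin N) (j : Fin s)
    (i : Fin w) : pdnf h α x j (vr h (i, x i)) = some (α j i) := by
  classical
  have hv : ∃ i', vr h (i', x i') = vr h (i, x i) := ⟨i, rfl⟩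
  unfold pdnf
  rw [dif_pos hv]
  have h1 : hv.choose = i := congrArg Prod.fst (vr_inj h hv.choose_spec)
  rw [h1]

lemma pdnf_sat (h : w * N ≤ n) (α : Fin s → (Fin w → Bool)) (x : Fin w → Fin N) (j : Fin s)
    (z : Fin n → Bool) : (pdnf h α x j).Sat z ↔ α j = fun i => z (vr h (i, x i)) := by
  classical
  constructor
  · intro hs
    funext i
    exact (hs _ _ (pdnf_at h α x j i)).symm
  · intro hα v b hb
    by_cases hv : ∃ i, vr h (i, x i) = v
    · obtain ⟨i, rfl⟩ := hv
      rw [pdnf_at] at hb
      have h1 := Option.some.inj hb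
      rw [← h1, hα]
    · unfold pdnf at hb
      rw [dif_neg hv] at hb
      exact absurd hb (by simp)

lemma pdnf_width (h : w * N ≤ n) (α : Fin s → (Fin w → Bool)) (x : Fin w → Fin N) (j : Fin s) :
    (pdnf h α x j).width ≤ w := by
  classical
  unfold Term.width
  have h1 : (Finset.univ.filter fun v => pdnf h α x j v ≠ none)
      ⊆ Finset.univ.image (fun i : Fin w => vr h (i, x i)) := by
    intro v hv
    have h2 := (Finset.mem_filter.1 hv).2
    by_contra hcon
    apply h2
    unfold pdnf
    rw [dif_neg]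
    rintro ⟨i, hi⟩
    exact hcon (Finset.mem_image.2 ⟨i, Finset.mem_univ _, hi⟩)
  refine (Finset.card_le_card h1).trans (Finset.card_image_le.trans ?_)
  rw [Finset.card_univ, Fintype.card_fin]

lemma pdnf_eval (h : w * N ≤ n) (α : Fin s → (Fin w → Bool))
    (hα : ∀ v, par v = true ↔ ∃ j, α j = v) (x : Fin w → Fin N) (z : Fin n → Bool) :
    Dnf.eval (pdnf h α x) z = ph h x z := by
  classical
  have h1 : (∃ j, (pdnf h α x j).Sat z) ↔ ph h x z = true := by
    unfold ph
    rw [hα]
    constructor
    · rintro ⟨j, hj⟩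
      exact ⟨j, (pdnf_sat h α x j z).1 hj⟩
    · rintro ⟨j, hj⟩
      exact ⟨j, (pdnf_sat h α x j z).2 hj⟩
  unfold Dnf.eval
  by_cases hh : ph h x z = true
  · rw [hh]
    exact decide_eq_true (h1.2 hh)
  · rw [Bool.not_eq_true] at hh
    rw [hh]
    apply decide_eq_false
    intro h2
    rw [h1.1 h2] at hh
    exact absurd hh (by simp)

open Classical in
/-- The lower bound for DNF formulas. -/
theorem dnf_lower (n w s T : ℕ) (hw : 1 ≤ w) (hwn : w ≤ n) (hs : 2 ^ (w - 1) ≤ s) (hT : 1 ≤ T)
    (δ : ℝ) (hδ0 : 0 < δ) (hδ1 : δ < 1) (Ω : Type) [Fintype Ω] (p : Ω → ℝ)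
    (hp : ∀ ω, 0 ≤ p ω) (hp1 : ∑ ω, p ω = 1) (a c r D : Ω → ℕ) (M : ℝ)
    (hM : ∀ ω, (2 : ℝ) ^ a ω * (c ω + (r ω + 1) * T + 1) * (D ω + 2) ≤ M)
    (P : ∀ ω, Scheme (Dnf s n) ((Fin n → Bool) × Bool) (a ω) (c ω) (r ω) (D ω)) (η : ℝ)
    (hη : ∀ F : Dnf s n, (∀ j, (F j).width ≤ w) →
      ∑ ω with ¬ (P ω).CorrectAt (Wrong Dnf.eval) F, p ω ≤ η) :
    ∑ ω, p ω * rejectRate (P ω) (Wrong Dnf.eval) T δ
      ≤ η + 2 * T ^ 3 * M / (((n / w : ℕ) : ℝ) ^ w * δ ^ 2) := by
  obtain ⟨α, hα⟩ := exists_enum (s := s) (show 0 < w by omega) hs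
  set N := n / w with hN
  have hN0 : 0 < N := Nat.div_pos hwn (by omega)
  have hle : w * N ≤ n := Nat.mul_div_le n w
  have : Nonempty (Fin w → Fin N) := ⟨fun _ => ⟨0, hN0⟩⟩
  have hV : (fun (c : (Fin n → Bool) × Bool) (x : Fin w → Fin N) =>
      Wrong (Dnf.eval (s := s) (n := n)) c (pdnf hle α x)) = Wrong (ph hle) := by
    funext c x
    unfold Wrong
    rw [pdnf_eval hle α hα]
  have htw : Twist (fun (c : (Fin n → Bool) × Bool) (x : Fin w → Fin N) =>
      Wrong (Dnf.eval (s := s) (n := n)) c (pdnf hle α x)) (sgn (Wrong (ph hle)))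
      (1 / (N : ℝ) ^ w) := by
    rw [hV]
    exact twist_par hle hN0
  have h1 := learn_worst (Wrong (Dnf.eval (s := s) (n := n))) (pdnf hle α) htw hT hδ0 hδ1 Ω p hp
    hp1 a c r D M hM P η (fun x => hη _ (fun j => pdnf_width hle α x j))
  refine h1.trans (le_of_eq ?_)
  have hN' : (N : ℝ) ≠ 0 := by exact_mod_cast hN0.ne'
  congr 1
  field_simp

end Pool.Agent.TH689.QX
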