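import Mathlib
import Pool.Agent.TH689.QXDnf

/-!
A linear programming relaxation for DNF formulas with short terms.
-/

set_option autoImplicit false

namespace Pool.Agent.TH689.QX

open Finset Pool.Agent.TH689.GX

variable {n w s T S : ℕ}

/-! ### Counting short terms -/

/-- the literals of a short term can be enumerated -/
lemma exists_lits (q : Term n) (hq : q.width ≤ w) :
    ∃ f : Fin w → Option (Fin n × Bool), ∀ i b, q i = some b ↔ ∃ j, f j = some (i, b) := by
  classical
  set A := Finset.univ.filter fun i => q i ≠ none with hA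
  have hc : A.card ≤ w := by
    unfold Term.width at hq
    convert hq
  let e := A.equivFin
  refine ⟨fun j => if h : (j : ℕ) < A.card then
      (q (e.symm ⟨j, h⟩ : A)).map (fun b => (((e.symm ⟨j, h⟩ : A) : Fin n), b)) else none, ?_⟩
  intro i b
  constructor
  · intro hib
    have hiA : i ∈ A := Finset.mem_filter.2 ⟨Finset.mem_univ _, by rw [hib]; simp⟩
    refine ⟨⟨e ⟨i, hiA⟩, lt_of_lt_of_le (e ⟨i, hiA⟩).2 hc⟩, ?_⟩
    have h1 : ((⟨e ⟨i, hiA⟩, lt_of_lt_of_le (e ⟨i, hiA⟩).2 hc⟩ : Fin w) : ℕ) < A.card :=
      (e ⟨i, hiA⟩).2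
    simp only
    rw [dif_pos h1]
    simp [hib]
  · rintro ⟨j, hj⟩
    simp only at hj
    split_ifs at hj with h1
    rw [Option.map_eq_some_iff] at hj
    obtain ⟨b', h2, h3⟩ := hj
    rw [Prod.mk.injEq] at h3
    rw [← h3.1, h2, h3.2]

/-- the short terms -/
abbrev Short (n w : ℕ) := {q : Term n // q.width ≤ w}

open Classical in
lemma card_short (n w : ℕ) : Fintype.card (Short n w) ≤ (2 * n + 1) ^ w := by
  have h1 : ∀ q : Short n w, ∃ f : Fin w → Option (Fin n × Bool),
      ∀ i b, q.1 i = some b ↔ ∃ j, f j = some (i, b) := fun q => exists_lits q.1 q.2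
  choose f hf using h1
  have hinj : Function.Injective f := by
    intro q q' hqq
    apply Subtype.ext
    funext i
    apply Option.ext
    intro b
    have h2 := hf q i b
    have h3 := hf q' i b
    rw [hqq, ← h3] at h2
    exact h2
  have h2 := Fintype.card_le_of_injective f hinj
  refine h2.trans (le_of_eq ?_)
  rw [Fintype.card_fun, Fintype.card_option, Fintype.card_prod, Fintype.card_fin,
    Fintype.card_fin, Fintype.card_bool, mul_comm n 2]

/-! ### The relaxation -/

open Classical in
/-- the vector of a formula: which of the short terms are terms of the formula -/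
noncomputable def dpt (e : Short n w ≃ Fin S) (F : Dnf s n) : Fin S → ℝ :=
  fun j => if ∃ i, F i = (e.symm j).1 then 1 else 0

open Classical in
/-- which of the short terms are satisfied by `z` -/
noncomputable def dsat (e : Short n w ≃ Fin S) (z : Fin n → Bool) (j : Fin S) : ℝ :=
  if (e.symm j).1.Sat z then 1 else 0

/-- the coefficients of the constraint of an example -/
noncomputable def dcf (e : Short n w ≃ Fin S) (c : (Fin n → Bool) × Bool) : Fin S → ℝ :=
  fun j => if c.2 then dsat e c.1 j else - dsat e c.1 j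

/-- The relaxation: the number of the satisfied terms of the formula is at least `1` for the
positive examples and at most `0` for the negative ones. -/
noncomputable def drel (s : ℕ) (e : Short n w ≃ Fin S) :
    Scheme (Dnf s n) ((Fin n → Bool) × Bool) 0 S 1 1 where
  d := S
  space := ⊤
  bin := fun i => i.elim0
  map := fun j => aff (Pi.single j 1)
  set := fun _ => half
  set_convex := fun _ => half_convex 0
  locMap := fun c _ => aff (dcf e c)
  locSet := fun c _ => {z : Fin 1 → ℝ | (if c.2 then (1 : ℝ) else 0) ≤ z 0}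
  locSet_convex := fun _ _ => half_convex _
  point := dpt e

lemma dsat_bd (e : Short n w ≃ Fin S) (z : Fin n → Bool) (j : Fin S) :
    0 ≤ dsat e z j ∧ dsat e z j ≤ 1 := by
  unfold dsat
  split_ifs <;> norm_num

lemma dpt_bd (e : Short n w ≃ Fin S) (F : Dnf s n) (j : Fin S) :
    0 ≤ dpt e F j ∧ dpt e F j ≤ 1 := by
  unfold dpt
  split_ifs <;> norm_num

lemma dsum_nonneg (e : Short n w ≃ Fin S) (z : Fin n → Bool) (F : Dnf s n) :
    0 ≤ ∑ j, dsat e z j * dpt e F j :=
  Finset.sum_nonneg (fun j _ => mul_nonneg (dsat_bd e z j).1 (dpt_bd e F j).1)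

lemma dsum_le (e : Short n w ≃ Fin S) (z : Fin n → Bool) (F : Dnf s n) :
    ∑ j, dsat e z j * dpt e F j ≤ s := by
  classical
  calc ∑ j, dsat e z j * dpt e F j ≤ ∑ j, dpt e F j :=
        Finset.sum_le_sum (fun j _ => mul_le_of_le_one_left (dpt_bd e F j).1 (dsat_bd e z j).2)
    _ ≤ ∑ j, ∑ i, (if F i = (e.symm j).1 then (1 : ℝ) else 0) := by
        apply Finset.sum_le_sum
        intro j _
        have h0 : ∀ i ∈ (Finset.univ : Finset (Fin s)),
            (0 : ℝ) ≤ if F i = (e.symm j).1 then (1 : ℝ) else 0 := by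
          intro i _
          split_ifs <;> norm_num
        unfold dpt
        split_ifs with h
        · obtain ⟨i, hi⟩ := h
          have h1 := Finset.single_le_sum h0 (Finset.mem_univ i)
          rwa [if_pos hi] at h1
        · exact Finset.sum_nonneg h0
    _ = ∑ i, ∑ j, (if F i = (e.symm j).1 then (1 : ℝ) else 0) := Finset.sum_comm
    _ ≤ ∑ _i : Fin s, (1 : ℝ) := by
        apply Finset.sum_le_sum
        intro i _
        rw [Finset.sum_boole]
        have h1 : (Finset.univ.filter fun j => F i = (e.symm j).1).card ≤ 1 := by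
          rw [Finset.card_le_one]
          intro j hj j' hj'
          have h2 := (Finset.mem_filter.1 hj).2
          have h3 := (Finset.mem_filter.1 hj').2
          exact e.symm.injective (Subtype.ext (h2.symm.trans h3))
        exact_mod_cast h1
    _ = s := by rw [Finset.sum_const, Finset.card_univ, Fintype.card_fin, nsmul_eq_mul, mul_one]

lemma dnn (e : Short n w ≃ Fin S) (u : Fin S → ℝ) (j : Fin S) :
    (drel s e).map j u ∈ (drel s e).set j ↔ 0 ≤ u j := by
  change 0 ≤ aff (Pi.single j 1) u 0 ↔ 0 ≤ u j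
  rw [aff_apply, Finset.sum_eq_single j]
  · rw [Pi.single_eq_same, one_mul]
  · intro i _ hi
    rw [Pi.single_eq_of_ne hi, zero_mul]
  · intro h
    exact absurd (Finset.mem_univ _) h

lemma drel_correct (e : Short n w ≃ Fin S) (F : Dnf s n) (hF : ∀ j, (F j).width ≤ w) :
    (drel s e).CorrectAt (Wrong Dnf.eval) F := by
  classical
  refine ⟨trivial, fun i => i.elim0, ?_, ?_⟩
  · intro j
    exact (dnn e _ j).2 (dpt_bd e F j).1
  · rintro ⟨z, b⟩ _ hc
    change (if b then (1 : ℝ) else 0) ≤ aff (dcf e (z, b)) (dpt e F) 0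
    rw [aff_apply]
    unfold Wrong at hc
    rw [not_not] at hc
    cases b with
    | false =>
      have h1 : ∀ j, dsat e z j * dpt e F j = 0 := by
        intro j
        unfold dsat dpt
        split_ifs with h2 h3
        · exfalso
          obtain ⟨i, hi⟩ := h3
          unfold Dnf.eval at hc
          apply of_decide_eq_false hc
          exact ⟨i, by rw [hi]; exact h2⟩
        all_goals norm_num
      have h2 : ∑ j, dcf e (z, false) j * dpt e F j = 0 := by
        apply Finset.sum_eq_zero
        intro j _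
        change (if (false : Bool) then dsat e z j else - dsat e z j) * dpt e F j = 0
        rw [if_neg (by simp), neg_mul, h1 j, neg_zero]
      rw [h2]
      simp
    | true =>
      unfold Dnf.eval at hc
      obtain ⟨i, hi⟩ := of_decide_eq_true hc
      have h1 : (1 : ℝ) ≤ ∑ j, dsat e z j * dpt e F j := by
        have h2 := Finset.single_le_sum (f := fun j => dsat e z j * dpt e F j)
          (s := (Finset.univ : Finset (Fin S)))
          (fun j _ => mul_nonneg (dsat_bd e z j).1 (dpt_bd e F j).1)
          (Finset.mem_univ (e ⟨F i, hF i⟩))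
        refine le_trans (le_of_eq ?_) h2
        unfold dsat dpt
        rw [if_pos, if_pos, mul_one]
        · rw [Equiv.symm_apply_apply]
          exact ⟨i, rfl⟩
        · rw [Equiv.symm_apply_apply]
          exact hi
      have h2 : ∑ j, dcf e (z, true) j * dpt e F j = ∑ j, dsat e z j * dpt e F j := by
        apply Finset.sum_congr rfl
        intro j _
        change (if (true : Bool) then dsat e z j else - dsat e z j) * dpt e F j = _
        rw [if_pos rfl]
      rw [h2]
      simpa using h1

/-- what the constraint of an example says -/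
lemma dnear (e : Short n w ≃ Fin S) (z : Fin n → Bool) (b : Bool) (δ : ℝ) (hδ1 : δ ≤ 1)
    (u : Fin S → ℝ) (h : (drel s e).Near (Wrong Dnf.eval) (z, b) 0 δ u) :
    (b = true → 1 - δ ≤ ∑ j, dsat e z j * u j) ∧ (b = false → ∑ j, dsat e z j * u j ≤ δ * s) := by
  classical
  obtain ⟨θ, hθ0, hθδ, x, hx, p, hp, hxp⟩ := h
  have h1 : aff (dcf e (z, b)) u = (1 - θ) • x + θ • p := hxp
  have h2 := congrFun h1 0
  simp only [Pi.add_apply, Pi.smul_apply, smul_eq_mul] at h2
  rw [aff_apply] at h2
  have hθ1 : θ ≤ 1 := hθδ.trans hδ1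
  constructor
  · intro hb
    subst hb
    have h3 : ∑ j, dcf e (z, true) j * u j = ∑ j, dsat e z j * u j := by
      apply Finset.sum_congr rfl
      intro j _
      change (if (true : Bool) then dsat e z j else - dsat e z j) * u j = _
      rw [if_pos rfl]
    rw [h3] at h2
    have hx1 : (if (true : Bool) then (1 : ℝ) else 0) ≤ x 0 := hx
    rw [if_pos rfl] at hx1
    have hp0 : 0 ≤ p 0 := by
      have h4 : convexHull ℝ ((fun F => aff (dcf e (z, true)) (dpt e F)) ''
          {F : Dnf s n | (drel s e).CorrectAt (Wrong Dnf.eval) F}) ⊆ {v : Fin 1 → ℝ | 0 ≤ v 0} := by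
        apply convexHull_min _ (half_convex 0)
        rintro _ ⟨F, _, rfl⟩
        change 0 ≤ aff (dcf e (z, true)) (dpt e F) 0
        rw [aff_apply]
        refine (dsum_nonneg e z F).trans (le_of_eq ?_)
        apply Finset.sum_congr rfl
        intro j _
        change _ = (if (true : Bool) then dsat e z j else - dsat e z j) * dpt e F j
        rw [if_pos rfl]
      exact h4 hp
    have h5 := mul_le_mul_of_nonneg_left hx1 (sub_nonneg.2 hθ1)
    have h6 := mul_nonneg hθ0 hp0
    linarith
  · intro hb
    subst hb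
    have h3 : ∑ j, dcf e (z, false) j * u j = - ∑ j, dsat e z j * u j := by
      rw [← Finset.sum_neg_distrib]
      apply Finset.sum_congr rfl
      intro j _
      change (if (false : Bool) then dsat e z j else - dsat e z j) * u j = _
      rw [if_neg (by simp), neg_mul]
    rw [h3] at h2
    have hx1 : (if (false : Bool) then (1 : ℝ) else 0) ≤ x 0 := hx
    rw [if_neg (by simp)] at hx1
    have hp0 : -(s : ℝ) ≤ p 0 := by
      have h4 : convexHull ℝ ((fun F => aff (dcf e (z, false)) (dpt e F)) ''
          {F : Dnf s n | (drel s e).CorrectAt (Wrong Dnf.eval) F})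
          ⊆ {v : Fin 1 → ℝ | -(s : ℝ) ≤ v 0} := by
        apply convexHull_min _ (half_convex _)
        rintro _ ⟨F, _, rfl⟩
        change -(s : ℝ) ≤ aff (dcf e (z, false)) (dpt e F) 0
        rw [aff_apply]
        have h5 : ∑ j, dcf e (z, false) j * dpt e F j = - ∑ j, dsat e z j * dpt e F j := by
          rw [← Finset.sum_neg_distrib]
          apply Finset.sum_congr rfl
          intro j _
          change (if (false : Bool) then dsat e z j else - dsat e z j) * dpt e F j = _
          rw [if_neg (by simp), neg_mul]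
        rw [h5]
        have h6 := dsum_le e z F
        linarith
      exact h4 hp
    have h5 := mul_nonneg (sub_nonneg.2 hθ1) hx1
    have h6 := mul_le_mul_of_nonneg_left hp0 hθ0
    have h7 := mul_le_mul_of_nonneg_right hθδ (Nat.cast_nonneg (α := ℝ) s)
    linarith

/-- what has to occur in the sample -/
def Kill (c : (Fin n → Bool) × Bool) (q : Option (Short n w)) : Prop :=
  match q with
  | none => c.2 = true
  | some q => c.2 = false ∧ q.1.Sat c.1

lemma drel_rejects (e : Short n w ≃ Fin S) (y : Fin T → (Fin n → Bool) × Bool) {δ : ℝ}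
    (hδ0 : 0 ≤ δ) (hδ : δ * (T * s + 1) < 1) (hy : ∀ q : Option (Short n w), ∃ t, Kill (y t) q) :
    Rejects (drel s e) (Wrong Dnf.eval) y δ := by
  classical
  left
  suffices hmain : ∀ u : Fin S → ℝ, ¬ Fits (drel s e) (Wrong Dnf.eval) y δ u from hmain
  rintro u ⟨-, -, hmap, hcl⟩
  have hnn : ∀ j, 0 ≤ u j := fun j => (dnn (s := s) e u j).1 (hmap j)
  have hTs : (0 : ℝ) ≤ T * s := by positivity
  have hδ1 : δ ≤ 1 := by nlinarith
  obtain ⟨t0, ht0⟩ := hy none
  have h0 : (y t0).2 = true := ht0
  have h1 := (dnear (s := s) e (y t0).1 (y t0).2 δ hδ1 u (hcl t0 0)).1 h0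
  have hneg : ∀ t, (y t).2 = false → ∑ j, dsat e (y t).1 j * u j ≤ δ * s :=
    fun t ht => (dnear (s := s) e (y t).1 (y t).2 δ hδ1 u (hcl t 0)).2 ht
  let v : Fin T → Fin S → ℝ := fun t j => if (y t).2 = false then dsat e (y t).1 j * u j else 0
  have hv0 : ∀ t j, 0 ≤ v t j := by
    intro t j
    simp only [v]
    split_ifs
    · exact mul_nonneg (dsat_bd _ _ _).1 (hnn j)
    · exact le_refl _
  have hcover : ∀ j : Fin S, dsat e (y t0).1 j * u j ≤ ∑ t, v t j := by
    intro j
    obtain ⟨t, ht⟩ := hy (some (e.symm j))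
    have ht' : (y t).2 = false ∧ (e.symm j).1.Sat (y t).1 := ht
    have h3 := Finset.single_le_sum (f := fun t => v t j)
      (s := (Finset.univ : Finset (Fin T))) (fun t _ => hv0 t j) (Finset.mem_univ t)
    have h4 : v t j = u j := by
      simp only [v]
      rw [if_pos ht'.1]
      unfold dsat
      rw [if_pos ht'.2, one_mul]
    have h5 := mul_le_of_le_one_left (hnn j) (dsat_bd e (y t0).1 j).2
    linarith
  have h2 : ∑ j, dsat e (y t0).1 j * u j ≤ T * (δ * s) := by
    calc ∑ j, dsat e (y t0).1 j * u j ≤ ∑ j, ∑ t, v t j :=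
          Finset.sum_le_sum (fun j _ => hcover j)
      _ = ∑ t, ∑ j, v t j := Finset.sum_comm
      _ ≤ ∑ _t : Fin T, δ * s := by
          apply Finset.sum_le_sum
          intro t _
          simp only [v]
          by_cases ht : (y t).2 = false
          · simp only [ht, if_true]
            exact hneg t ht
          · simp only [if_neg ht]
            rw [Finset.sum_const_zero]
            positivity
      _ = _ := by rw [Finset.sum_const, Finset.card_univ, Fintype.card_fin, nsmul_eq_mul]
  have h3 : δ * (T * s + 1) = T * (δ * s) + δ := by ring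
  linarith

/-! ### Counting samples -/

open Classical in
/-- in most samples all events of a family occur -/
lemma reject_many {X 𝒞 ι : Type} [Fintype ι] [Fintype 𝒞] [Nonempty 𝒞] (Viol : 𝒞 → X → Prop)
    {a s r D : ℕ} (P : Scheme X 𝒞 a s r D) {δ ρ : ℝ} (A : 𝒞 → ι → Prop)
    (hP : ∀ y : Fin T → 𝒞, (∀ j, ∃ t, A (y t) j) → Rejects P Viol y δ)
    (hρ : ∀ j, ((Finset.univ.filter fun c => ¬ A c j).card : ℝ) ≤ ρ * Fintype.card 𝒞) :
    1 - Fintype.card ι * ρ ^ T ≤ rejectRate P Viol T δ := by
  classical
  let R : Finset (Fin T → 𝒞) := Finset.univ.filter fun y => Rejects P Viol y δ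
  let B : ι → Finset (Fin T → 𝒞) := fun j =>
    Fintype.piFinset fun _ => Finset.univ.filter fun c => ¬ A c j
  have hrr : rejectRate P Viol T δ = (R.card : ℝ) / Fintype.card (Fin T → 𝒞) := by
    unfold rejectRate
    rw [Nat.card_eq_fintype_card, Set.ncard_eq_toFinset_card']
    congr 3
    ext y
    simp [R]
  have h1 : (Finset.univ : Finset (Fin T → 𝒞)) ⊆ R ∪ Finset.univ.biUnion B := by
    intro y _
    rw [Finset.mem_union]
    by_cases hy : ∀ j, ∃ t, A (y t) j
    · exact Or.inl (Finset.mem_filter.2 ⟨Finset.mem_univ _, hP y hy⟩)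
    · push Not at hy
      obtain ⟨j, hj⟩ := hy
      right
      rw [Finset.mem_biUnion]
      refine ⟨j, Finset.mem_univ _, ?_⟩
      simp only [B, Fintype.mem_piFinset]
      intro t
      exact Finset.mem_filter.2 ⟨Finset.mem_univ _, hj t⟩
  have h2 : (Fintype.card (Fin T → 𝒞) : ℝ) ≤ R.card + ∑ j, ((B j).card : ℝ) := by
    have h3 := (Finset.card_le_card h1).trans (Finset.card_union_le _ _)
    have h4 := h3.trans (Nat.add_le_add_left Finset.card_biUnion_le _)
    rw [Finset.card_univ] at h4
    exact_mod_cast h4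
  have h3 : ∀ j, ((B j).card : ℝ) ≤ ρ ^ T * Fintype.card (Fin T → 𝒞) := by
    intro j
    have h4 : ((B j).card : ℝ) = ((Finset.univ.filter fun c => ¬ A c j).card : ℝ) ^ T := by
      simp only [B]
      rw [Fintype.card_piFinset_const]
      push_cast
      rfl
    rw [h4, Fintype.card_fun, Fintype.card_fin]
    push_cast
    rw [← mul_pow]
    exact pow_le_pow_left₀ (by positivity) (hρ j) T
  have h4 : ∑ j, ((B j).card : ℝ)
      ≤ Fintype.card ι * ρ ^ T * Fintype.card (Fin T → 𝒞) := by
    calc ∑ j, ((B j).card : ℝ) ≤ ∑ _j : ι, ρ ^ T * Fintype.card (Fin T → 𝒞) :=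
          Finset.sum_le_sum (fun j _ => h3 j)
      _ = _ := by rw [Finset.sum_const, Finset.card_univ, nsmul_eq_mul]; ring
  have hY : (0 : ℝ) < Fintype.card (Fin T → 𝒞) := by exact_mod_cast Fintype.card_pos
  rw [hrr, le_div_iff₀ hY]
  nlinarith

open Classical in
/-- many assignments satisfy a short term -/
lemma card_sat (q : Term n) (hq : q.width ≤ w) :
    2 ^ n ≤ 2 ^ w * (Finset.univ.filter fun z : Fin n → Bool => q.Sat z).card := by
  obtain ⟨f, hf⟩ := exists_lits q hq
  -- an assignment is determined by the values on the literals and its modification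
  let g : (Fin n → Bool) → (Fin w → Bool) × (Fin n → Bool) := fun z =>
    (fun j => match f j with | none => true | some p => z p.1,
      fun i => (q i).getD (z i))
  have hg : Function.Injective g := by
    intro z z' h
    funext i
    cases hqi : q i with
    | none =>
      have h2 := congrFun (congrArg Prod.snd h) i
      simp only [g, hqi, Option.getD_none] at h2
      exact h2
    | some b =>
      obtain ⟨j, hj⟩ := (hf i b).1 hqi
      have h2 := congrFun (congrArg Prod.fst h) j
      simp only [g, hj] at h2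
      exact h2
  have h2 : (Finset.univ : Finset (Fin n → Bool)).image g
      ⊆ Finset.univ ×ˢ (Finset.univ.filter fun z : Fin n → Bool => q.Sat z) := by
    intro p hp
    obtain ⟨z, _, rfl⟩ := Finset.mem_image.1 hp
    rw [Finset.mem_product]
    refine ⟨Finset.mem_univ _, Finset.mem_filter.2 ⟨Finset.mem_univ _, ?_⟩⟩
    intro i b hib
    simp [g, hib]
  have h3 := Finset.card_le_card h2
  rw [Finset.card_image_of_injective _ hg, Finset.card_product, Finset.card_univ,
    Finset.card_univ, Fintype.card_fun, Fintype.card_fun, Fintype.card_bool, Fintype.card_fin,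
    Fintype.card_fin] at h3
  exact h3

open Classical in
lemma kill_count (q : Option (Short n w)) :
    ((Finset.univ.filter fun c : (Fin n → Bool) × Bool => ¬ Kill c q).card : ℝ)
      ≤ (1 - (1 / 2) ^ (w + 1)) * Fintype.card ((Fin n → Bool) × Bool) := by
  have hcard : (Fintype.card ((Fin n → Bool) × Bool) : ℝ) = 2 ^ n * 2 := by
    rw [Fintype.card_prod, Fintype.card_fun, Fintype.card_bool, Fintype.card_fin]
    push_cast
    rfl
  have h3 := Finset.card_filter_add_card_filter_not
    (s := (Finset.univ : Finset ((Fin n → Bool) × Bool))) (fun c => Kill c q)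
  rw [Finset.card_univ] at h3
  have h4 : ((Finset.univ.filter fun c : (Fin n → Bool) × Bool => Kill c q).card : ℝ)
      + ((Finset.univ.filter fun c : (Fin n → Bool) × Bool => ¬ Kill c q).card : ℝ)
      = 2 ^ n * 2 := by rw [← hcard]; exact_mod_cast h3
  have h5 : ((1 / 2 : ℝ)) ^ (w + 1) * (2 ^ n * 2)
      ≤ ((Finset.univ.filter fun c : (Fin n → Bool) × Bool => Kill c q).card : ℝ) := by
    cases q with
    | none =>
      have h6 : (Finset.univ.filter fun c : (Fin n → Bool) × Bool => Kill c (none : Option (Short n w)))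
          = (Finset.univ : Finset (Fin n → Bool)) ×ˢ {true} := by
        ext c
        rw [Finset.mem_filter, Finset.mem_product, Finset.mem_singleton]
        exact ⟨fun h => ⟨Finset.mem_univ _, h.2⟩, fun h => ⟨Finset.mem_univ _, h.2⟩⟩
      rw [h6, Finset.card_product, Finset.card_singleton, Finset.card_univ, Fintype.card_fun,
        Fintype.card_bool, Fintype.card_fin]
      push_cast
      rw [pow_succ]
      have h7 : (1 / 2 : ℝ) ^ w ≤ 1 := pow_le_one₀ (by norm_num) (by norm_num)
      have h8 : (0 : ℝ) < 2 ^ n := by positivity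
      nlinarith
    | some q =>
      have h6 : (Finset.univ.filter fun c : (Fin n → Bool) × Bool => Kill c (some q))
          = (Finset.univ.filter fun z : Fin n → Bool => q.1.Sat z) ×ˢ {false} := by
        ext c
        rw [Finset.mem_filter, Finset.mem_product, Finset.mem_singleton]
        exact ⟨fun h => ⟨Finset.mem_filter.2 ⟨Finset.mem_univ _, h.2.2⟩, h.2.1⟩,
          fun h => ⟨Finset.mem_univ _, h.2, (Finset.mem_filter.1 h.1).2⟩⟩
      rw [h6, Finset.card_product, Finset.card_singleton, mul_one]
      have h7 : (2 : ℝ) ^ n ≤ 2 ^ w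
          * ((Finset.univ.filter fun z : Fin n → Bool => q.1.Sat z).card : ℝ) := by
        exact_mod_cast card_sat q.1 q.2
      rw [one_div, inv_pow, pow_succ, mul_inv]
      have h8 : ((2 : ℝ) ^ w)⁻¹ * 2⁻¹ * (2 ^ n * 2) = ((2 : ℝ) ^ w)⁻¹ * 2 ^ n := by ring
      rw [h8, inv_mul_le_iff₀ (by positivity)]
      exact h7
  rw [hcard]
  linarith

open Classical in
/-- The upper bound for DNF formulas. -/
theorem dnf_upper (n w s : ℕ) : ∃ S : ℕ, S ≤ (2 * n + 1) ^ w ∧
    ∃ P : Scheme (Dnf s n) ((Fin n → Bool) × Bool) 0 S 1 1,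
      (∀ F : Dnf s n, (∀ j, (F j).width ≤ w) → P.CorrectAt (Wrong Dnf.eval) F) ∧
      ∀ (T : ℕ) (δ : ℝ), 0 ≤ δ → δ * (T * s + 1) < 1 →
        1 - ((2 * n + 1) ^ w + 1) * (1 - (1 / 2) ^ (w + 1)) ^ T
          ≤ rejectRate P (Wrong Dnf.eval) T δ := by
  let e := Fintype.equivFin (Short n w)
  refine ⟨Fintype.card (Short n w), card_short n w, drel s e, ?_, ?_⟩
  · intro F hF
    exact drel_correct e F hF
  · intro T δ hδ0 hδ
    have h1 := reject_many (T := T) (Wrong Dnf.eval) (drel s e) (δ := δ)
      (ρ := 1 - (1 / 2) ^ (w + 1)) (Kill (n := n) (w := w))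
      (fun y hy => drel_rejects e y hδ0 hδ hy) kill_count
    refine le_trans ?_ h1
    rw [Fintype.card_option]
    have h2 : (Fintype.card (Short n w) : ℝ) ≤ (2 * n + 1) ^ w := by exact_mod_cast card_short n w
    have h3 : (0 : ℝ) ≤ (1 - (1 / 2) ^ (w + 1)) ^ T := by
      apply pow_nonneg
      have : (1 / 2 : ℝ) ^ (w + 1) ≤ 1 := pow_le_one₀ (by norm_num) (by norm_num)
      linarith
    push_cast
    have h4 := mul_le_mul_of_nonneg_right h2 h3
    linarith

end Pool.Agent.TH689.QX
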