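import Mathlib
import Pool.Agent.TH689.QXDefs

/-!
Definitions for the approximation of dominating sets.
-/

set_option autoImplicit false

namespace Pool.Agent.TH689.QX

open Pool.Agent.TH689.GX

/-- the sets of `k` of the first `n` vertices -/
abbrev Sets (n k : ℕ) : Type := {S : Finset (Fin n) // S.card = k}

/-- the neighbours of a vertex are the `i` with `c i = true`; none of them is in `S` -/
def Misses {n k : ℕ} (c : Fin n → Bool) (S : Sets n k) : Prop := ∀ i ∈ S.1, c i = false

/-- The graph with `n + T` vertices: the first `n` vertices are a clique, the other `T` vertices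
are independent, and the neighbours of the `t`-th one are the `i` with `y t i = true`. -/
def graph {n T : ℕ} (y : Fin T → Fin n → Bool) : SimpleGraph (Fin n ⊕ Fin T) :=
  SimpleGraph.fromRel fun u v =>
    match u, v with
    | Sum.inl _, Sum.inl _ => True
    | Sum.inl i, Sum.inr t => y t i = true
    | Sum.inr _, _ => False

/-- `D` is a dominating set -/
def Dominates {V : Type} (G : SimpleGraph V) (D : Finset V) : Prop :=
  ∀ v, v ∈ D ∨ ∃ u ∈ D, G.Adj u v

/-- the domination number is at most `W` -/
def DomLe {V : Type} (G : SimpleGraph V) (W : ℕ) : Prop :=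
  ∃ D : Finset V, D.card ≤ W ∧ Dominates G D

end Pool.Agent.TH689.QX
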