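import Mathlib
import Pool.Agent.TH689.QXJunta
import Pool.Agent.TH689.QXUpper

/-!
Convex programming relaxations for learning parities.
-/

set_option autoImplicit false

namespace Pool.Agent.TH689.QX

open Finset Pool.Agent.TH689.GX

variable {n : ℕ}

lemma sg_not (b : Bool) : sg (!b) = - sg b := by
  cases b <;> norm_num [sg]

/-- the parity of the bits of `z` in `S` -/
def parOn (S : Finset (Fin n)) (z : Fin n → Bool) : Bool :=
  decide ((∑ i ∈ S, if z i then (1 : ZMod 2) else 0) = 1)

lemma parOn_flip (S : Finset (Fin n)) (z : Fin n → Bool) (i : Fin n) (hi : i ∈ S) :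
    parOn S (Function.update z i (!z i)) = !parOn S z := by
  have h1 : ∑ j ∈ S, (if Function.update z i (!z i) j then (1 : ZMod 2) else 0)
      = (∑ j ∈ S, if z j then (1 : ZMod 2) else 0) + 1 := by
    rw [← Finset.add_sum_erase _ _ hi,
      ← Finset.add_sum_erase _ (fun j => if z j then (1 : ZMod 2) else 0) hi]
    have h2 : ∑ j ∈ S.erase i, (if Function.update z i (!z i) j then (1 : ZMod 2) else 0)
        = ∑ j ∈ S.erase i, if z j then (1 : ZMod 2) else 0 := by
      apply Finset.sum_congr rfl
      intro j hj
      rw [Function.update_of_ne (Finset.mem_erase.1 hj).1]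
    rw [h2, Function.update_self]
    generalize ∑ j ∈ S.erase i, (if z j then (1 : ZMod 2) else 0) = t
    cases z i
    · simp only [Bool.not_false, if_true, Bool.false_eq_true, if_false, zero_add]
      ring
    · simp only [Bool.not_true, if_true, Bool.false_eq_true, if_false, zero_add]
      revert t
      decide
  unfold parOn
  rw [h1]
  generalize (∑ j ∈ S, if z j then (1 : ZMod 2) else 0) = t
  revert t
  decide

lemma parOn_same (S : Finset (Fin n)) (z : Fin n → Bool) (i : Fin n) (hi : i ∉ S) :
    parOn S (Function.update z i (!z i)) = parOn S z := by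
  unfold parOn
  congr 2
  apply Finset.sum_congr rfl
  intro j hj
  have hne : j ≠ i := fun h => hi (h ▸ hj)
  rw [Function.update_of_ne hne]

lemma parOn_orth1 (S S' : Finset (Fin n)) (i : Fin n) (hi : i ∈ S) (hi' : i ∉ S') :
    ∑ z, sg (parOn S z) * sg (parOn S' z) = 0 := by
  let f : (Fin n → Bool) → (Fin n → Bool) := fun z => Function.update z i (!z i)
  have hf : Function.Involutive f := by
    intro z
    simp only [f, Function.update_self, Bool.not_not, Function.update_idem,
      Function.update_eq_self]
  have h3 := (Equiv.sum_comp hf.toPerm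
      (fun z : Fin n → Bool => sg (parOn S z) * sg (parOn S' z))).symm
  have h4 : ∑ z, sg (parOn S (f z)) * sg (parOn S' (f z))
      = - ∑ z, sg (parOn S z) * sg (parOn S' z) := by
    rw [← Finset.sum_neg_distrib]
    apply Finset.sum_congr rfl
    intro z _
    simp only [f]
    rw [parOn_flip S z i hi, parOn_same S' z i hi', sg_not, neg_mul]
  have h5 : ∑ z, sg (parOn S z) * sg (parOn S' z) = - ∑ z, sg (parOn S z) * sg (parOn S' z) :=
    h3.trans h4
  linarith

/-- different parities are orthogonal -/
lemma parOn_orth (S S' : Finset (Fin n)) (h : S ≠ S') :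
    ∑ z, sg (parOn S z) * sg (parOn S' z) = 0 := by
  by_cases h1 : S ⊆ S'
  · have h2 : ¬ S' ⊆ S := fun h3 => h (Finset.Subset.antisymm h1 h3)
    obtain ⟨i, hi, hi'⟩ := Finset.not_subset.1 h2
    rw [Finset.sum_congr rfl (fun z _ => mul_comm (sg (parOn S z)) (sg (parOn S' z)))]
    exact parOn_orth1 S' S i hi hi'
  · obtain ⟨i, hi, hi'⟩ := Finset.not_subset.1 h1
    exact parOn_orth1 S S' i hi hi'

/-- The twist of a family of parities. -/
theorem twist_parOn (F : Finset (Finset (Fin n))) (hF : F.Nonempty) :
    Twist (Wrong fun S : F => parOn S.1) (sgn (Wrong fun S : F => parOn S.1))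
      (1 / (F.card : ℝ)) := by
  classical
  have hc : (0 : ℝ) < F.card := by exact_mod_cast Finset.card_pos.2 hF
  apply twist_learn _ (by positivity)
  intro x
  rw [Finset.sum_eq_single x]
  · have h1 : ∑ z : Fin n → Bool, sg (parOn x.1 z) * sg (parOn x.1 z)
        = (Fintype.card (Fin n → Bool) : ℝ) := by
      rw [Finset.sum_congr rfl (fun z _ => sg_mul_self _), Finset.sum_const, Finset.card_univ,
        nsmul_eq_mul, mul_one]
    rw [h1, abs_of_nonneg (Nat.cast_nonneg _), Fintype.card_coe]
    apply le_of_eq
    field_simp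
  · intro x' _ hx'
    rw [parOn_orth x.1 x'.1 (fun hh => hx' (Subtype.ext hh.symm)), abs_zero]
  · intro hh
    exact absurd (Finset.mem_univ _) hh

end Pool.Agent.TH689.QX
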