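import Mathlib
import Pool.Agent.TH689.QXDomDefs
import Pool.Agent.TH689.QXPar
import Pool.Agent.TH689.QXComap

/-!
Convex programming relaxations for dominating sets.
-/

set_option autoImplicit false

namespace Pool.Agent.TH689.QX

open Finset Pool.Agent.TH689.GX

variable {n k T W : ℕ}

lemma adj_inl {y : Fin T → Fin n → Bool} (i j : Fin n) :
    (graph y).Adj (Sum.inl i) (Sum.inl j) ↔ i ≠ j := by
  simp [graph, SimpleGraph.fromRel_adj]

lemma adj_mix {y : Fin T → Fin n → Bool} (i : Fin n) (t : Fin T) :
    (graph y).Adj (Sum.inl i) (Sum.inr t) ↔ y t i = true := by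
  simp [graph, SimpleGraph.fromRel_adj]

lemma adj_inr {y : Fin T → Fin n → Bool} (t t' : Fin T) :
    ¬ (graph y).Adj (Sum.inr t) (Sum.inr t') := by
  simp [graph, SimpleGraph.fromRel_adj]

/-- a set which is missed by no neighbourhood is a dominating set -/
lemma dominates_of (hk : 1 ≤ k) (y : Fin T → Fin n → Bool) (S : Sets n k)
    (h : ∀ t, ¬ Misses (y t) S) : Dominates (graph y) (S.1.map Function.Embedding.inl) := by
  rintro (i | t)
  · by_cases hi : i ∈ S.1
    · left
      exact Finset.mem_map_of_mem Function.Embedding.inl hi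
    · right
      obtain ⟨j, hj⟩ := Finset.card_pos.1 (show 0 < S.1.card by rw [S.2]; exact hk)
      refine ⟨Sum.inl j, Finset.mem_map_of_mem Function.Embedding.inl hj, ?_⟩
      rw [adj_inl]
      rintro rfl
      exact hi hj
  · right
    have h1 := h t
    unfold Misses at h1
    push Not at h1
    obtain ⟨i, hi, hi2⟩ := h1
    refine ⟨Sum.inl i, Finset.mem_map_of_mem Function.Embedding.inl hi, ?_⟩
    rw [adj_mix]
    simpa using hi2

/-- a small dominating set gives a set which is missed by no neighbourhood -/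
lemma of_dominates (hWn : W ≤ n) (y : Fin T → Fin n → Bool) (hy : ∀ t, ∃ i, y t i = true)
    (h : DomLe (graph y) W) : ∃ S : Sets n W, ∀ t, ¬ Misses (y t) S := by
  classical
  obtain ⟨D, hD, hdom⟩ := h
  choose g hg using hy
  let f : Fin n ⊕ Fin T → Fin n := fun v => Sum.elim id g v
  obtain ⟨S, hS1, hS2⟩ := Finset.exists_superset_card_eq
    (s := D.image f) (n := W) (Finset.card_image_le.trans hD) (by rw [Fintype.card_fin]; exact hWn)
  refine ⟨⟨S, hS2⟩, ?_⟩
  intro t hm
  rcases hdom (Sum.inr t) with h1 | ⟨u, hu, hadj⟩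
  · have h2 := hm (g t) (hS1 (Finset.mem_image_of_mem f h1))
    rw [hg t] at h2
    exact Bool.noConfusion h2
  · rcases u with i | t'
    · rw [adj_mix] at hadj
      have h2 := hm i (hS1 (Finset.mem_image_of_mem f hu))
      rw [hadj] at h2
      exact Bool.noConfusion h2
    · exact adj_inr t' t hadj

open Classical in
/-- the number of the neighbourhoods which meet a set -/
lemma card_meets (S : Sets n k) :
    ((Finset.univ.filter fun c : Fin n → Bool => ¬ Misses c S).card : ℝ)
      = (1 - (1 / 2) ^ k) * Fintype.card (Fin n → Bool) := by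
  classical
  have h1 : (Finset.univ.filter fun c : Fin n → Bool => Misses c S)
      = Fintype.piFinset fun i => if i ∈ S.1 then {false} else Finset.univ := by
    ext c
    rw [Finset.mem_filter, Fintype.mem_piFinset]
    constructor
    · rintro ⟨-, h⟩ i
      split_ifs with hi
      · rw [Finset.mem_singleton]
        exact h i hi
      · exact Finset.mem_univ _
    · intro h
      refine ⟨Finset.mem_univ _, fun i hi => ?_⟩
      have h2 := h i
      rw [if_pos hi, Finset.mem_singleton] at h2
      exact h2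
  have h2 : (Finset.univ.filter fun c : Fin n → Bool => Misses c S).card = 2 ^ (n - k) := by
    rw [h1, Fintype.card_piFinset]
    have h3 : ∀ i : Fin n, (if i ∈ S.1 then ({false} : Finset Bool) else Finset.univ).card
        = if i ∈ S.1 then 1 else 2 := by
      intro i
      split_ifs <;> simp
    rw [Finset.prod_congr rfl (fun i _ => h3 i), Finset.prod_ite, Finset.prod_const_one, one_mul,
      Finset.prod_const]
    congr 1
    have h4 : (Finset.univ.filter fun i : Fin n => i ∉ S.1) = S.1ᶜ := by
      ext i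
      simp
    rw [h4, Finset.card_compl, Fintype.card_fin, S.2]
  have h3 : (Finset.univ.filter fun c : Fin n → Bool => Misses c S).card
      + (Finset.univ.filter fun c : Fin n → Bool => ¬ Misses c S).card
      = Fintype.card (Fin n → Bool) := by
    rw [Finset.card_filter_add_card_filter_not, Finset.card_univ]
  have hkn : k ≤ n := by
    have := Finset.card_le_univ S.1
    rw [S.2, Fintype.card_fin] at this
    exact this
  have h4 : (Fintype.card (Fin n → Bool) : ℝ) = 2 ^ n := by
    rw [Fintype.card_fun, Fintype.card_bool, Fintype.card_fin]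
    push_cast
    rfl
  have h5 : ((2 : ℝ) ^ (n - k)) = (1 / 2) ^ k * 2 ^ n := by
    have h6 : (2 : ℝ) ^ n = 2 ^ k * 2 ^ (n - k) := by
      rw [← pow_add]
      congr 1
      omega
    rw [h6, one_div, inv_pow]
    field_simp
  have h7 : ((Finset.univ.filter fun c : Fin n → Bool => Misses c S).card : ℝ)
      + ((Finset.univ.filter fun c : Fin n → Bool => ¬ Misses c S).card : ℝ)
      = 2 ^ n := by
    rw [← h4]
    exact_mod_cast h3
  rw [h2] at h7
  push_cast at h7
  rw [h4]
  linarith [h5]

/-- The twist. -/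
theorem twist_misses (hk : 1 ≤ k) (hkn : k ≤ n) :
    Twist (Misses (n := n) (k := k)) (fun c S => - sg (parOn S.1 c)) (1 / (n.choose k : ℝ)) := by
  classical
  have hcard : Fintype.card (Sets n k) = n.choose k := by
    rw [Fintype.card_finset_len, Fintype.card_fin]
  have hc : (0 : ℝ) < n.choose k := by exact_mod_cast Nat.choose_pos hkn
  refine ⟨?_, ?_, ?_, by positivity, ?_⟩
  · intro c S
    unfold isBad
    split_ifs with h
    · have h1 : parOn S.1 c = false := by
        unfold parOn
        rw [Finset.sum_congr rfl (g := fun _ => (0 : ZMod 2))]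
        · simp
        · intro i hi
          rw [h i hi]
          simp
      rw [h1]
      norm_num [sg]
    · rw [zero_mul]
  · intro c S
    cases parOn S.1 c <;> norm_num [sg]
  · intro S
    rw [Finset.sum_neg_distrib]
    have hne : S.1 ≠ ∅ := by
      intro h
      have := S.2
      rw [h, Finset.card_empty] at this
      omega
    have h1 := parOn_orth S.1 ∅ hne
    have h2 : ∀ z : Fin n → Bool, sg (parOn (∅ : Finset (Fin n)) z) = 1 := by
      intro z
      simp [parOn, sg]
    simp only [h2, mul_one] at h1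
    rw [h1, neg_zero]
  · intro Ψ
    rw [sq_corr (fun (c : Fin n → Bool) (S : Sets n k) => - sg (parOn S.1 c)) Ψ]
    have h0 : ∀ S S' : Sets n k, ∑ c : Fin n → Bool, -sg (parOn S.1 c) * -sg (parOn S'.1 c)
        = if S' = S then (Fintype.card (Fin n → Bool) : ℝ) else 0 := by
      intro S S'
      simp only [neg_mul_neg]
      split_ifs with h
      · subst h
        rw [Finset.sum_congr rfl (fun z _ => sg_mul_self _), Finset.sum_const, Finset.card_univ,
          nsmul_eq_mul, mul_one]
      · exact parOn_orth S.1 S'.1 (fun hh => h (Subtype.ext hh.symm))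
    simp only [h0, mul_ite, mul_zero, Finset.sum_ite_eq', Finset.mem_univ, if_true]
    apply le_of_eq
    rw [hcard, Finset.mul_sum]
    apply Finset.sum_congr rfl
    intro S _
    field_simp

open Classical in
/-- most of the graphs have no small dominating set -/
lemma nodom_ge (hWn : W ≤ n) :
    (1 - ((n.choose W : ℝ) * (1 - (1 / 2) ^ W) ^ T + T * (1 / 2) ^ n))
        * Fintype.card (Fin T → Fin n → Bool)
      ≤ ((Finset.univ.filter fun y : Fin T → Fin n → Bool => ¬ DomLe (graph y) W).card : ℝ) := by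
  classical
  have hcard : Fintype.card (Sets n W) = n.choose W := by
    rw [Fintype.card_finset_len, Fintype.card_fin]
  let N : Finset (Fin T → Fin n → Bool) := Finset.univ.filter fun y => ¬ DomLe (graph y) W
  let B : Sets n W → Finset (Fin T → Fin n → Bool) := fun S =>
    Fintype.piFinset fun _ => Finset.univ.filter fun c => ¬ Misses c S
  let E : Fin T → Finset (Fin T → Fin n → Bool) := fun t =>
    Fintype.piFinset fun t' => if t' = t then {fun _ => false} else Finset.univ
  have hA : (Fintype.card (Fin n → Bool) : ℝ) = 2 ^ n := by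
    rw [Fintype.card_fun, Fintype.card_bool, Fintype.card_fin]
    push_cast
    rfl
  have hY : (Fintype.card (Fin T → Fin n → Bool) : ℝ) = (2 ^ n) ^ T := by
    rw [Fintype.card_fun, Fintype.card_fin, Nat.cast_pow, hA]
  have h1 : (Finset.univ : Finset (Fin T → Fin n → Bool))
      ⊆ (N ∪ Finset.univ.biUnion B) ∪ Finset.univ.biUnion E := by
    intro y _
    rw [Finset.mem_union, Finset.mem_union]
    by_cases hy : ∀ t, ∃ i, y t i = true
    · left
      by_cases hd : DomLe (graph y) W
      · right
        obtain ⟨S, hS⟩ := of_dominates hWn y hy hd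
        rw [Finset.mem_biUnion]
        refine ⟨S, Finset.mem_univ _, ?_⟩
        simp only [B, Fintype.mem_piFinset]
        intro t
        exact Finset.mem_filter.2 ⟨Finset.mem_univ _, hS t⟩
      · left
        exact Finset.mem_filter.2 ⟨Finset.mem_univ _, hd⟩
    · right
      push Not at hy
      obtain ⟨t, ht⟩ := hy
      rw [Finset.mem_biUnion]
      refine ⟨t, Finset.mem_univ _, ?_⟩
      simp only [E, Fintype.mem_piFinset]
      intro t'
      split_ifs with h
      · rw [Finset.mem_singleton, h]
        funext i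
        simpa using ht i
      · exact Finset.mem_univ _
  have h2 : (Fintype.card (Fin T → Fin n → Bool) : ℝ)
      ≤ N.card + ∑ S, ((B S).card : ℝ) + ∑ t, ((E t).card : ℝ) := by
    have h3 := (Finset.card_le_card h1).trans (Finset.card_union_le _ _)
    have h4 := h3.trans (Nat.add_le_add (Finset.card_union_le _ _) Finset.card_biUnion_le)
    have h5 := h4.trans (Nat.add_le_add_right (Nat.add_le_add_left Finset.card_biUnion_le _) _)
    rw [Finset.card_univ] at h5
    exact_mod_cast h5
  have h3 : ∀ S, ((B S).card : ℝ) = (1 - (1 / 2) ^ W) ^ T * (2 ^ n) ^ T := by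
    intro S
    simp only [B]
    rw [Fintype.card_piFinset_const, Nat.cast_pow, card_meets S, hA, mul_pow]
  have h4 : ∀ t, ((E t).card : ℝ) = (1 / 2) ^ n * (2 ^ n) ^ T := by
    intro t
    have h5 : (E t).card = (2 ^ n) ^ (T - 1) := by
      simp only [E]
      rw [Fintype.card_piFinset]
      have h6 : ∀ t' : Fin T, (if t' = t then ({fun _ => false} : Finset (Fin n → Bool))
          else Finset.univ).card = if t' = t then 1 else 2 ^ n := by
        intro t'
        split_ifs <;> simp
      rw [Finset.prod_congr rfl (fun i _ => h6 i), Finset.prod_ite, Finset.prod_const_one, one_mul,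
        Finset.prod_const]
      congr 1
      rw [Finset.filter_ne', Finset.card_erase_of_mem (Finset.mem_univ _), Finset.card_univ,
        Fintype.card_fin]
    rw [h5]
    have hT : T = (T - 1) + 1 := by
      have := t.2
      omega
    push_cast
    conv_rhs => rw [hT, pow_succ]
    rw [one_div, inv_pow]
    field_simp
  rw [Finset.sum_congr rfl (fun S _ => h3 S), Finset.sum_congr rfl (fun t _ => h4 t),
    Finset.sum_const, Finset.sum_const, Finset.card_univ, Finset.card_univ, hcard,
    Fintype.card_fin, nsmul_eq_mul, nsmul_eq_mul, hY] at h2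
  rw [hY]
  have h5 : (N.card : ℝ)
      = ((Finset.univ.filter fun y : Fin T → Fin n → Bool => ¬ DomLe (graph y) W).card : ℝ) := rfl
  rw [← h5]
  linarith

open Classical in
lemma rejectRate_eq {X 𝒞 : Type} [Fintype 𝒞] {a s r D : ℕ} (P : Scheme X 𝒞 a s r D)
    (Viol : 𝒞 → X → Prop) (δ : ℝ) :
    rejectRate P Viol T δ = (∑ y : Fin T → 𝒞, if Rejects P Viol y δ then (1 : ℝ) else 0)
      / Fintype.card (Fin T → 𝒞) := by
  unfold rejectRate
  rw [Nat.card_eq_fintype_card, Set.ncard_eq_toFinset_card', Finset.sum_boole]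
  congr 3
  ext y
  simp

open Classical in
/-- The lower bound for approximations. -/
theorem dom_gap (hk : 1 ≤ k) (hkn : k ≤ n) (hWn : W ≤ n) (hT : 1 ≤ T) {δ : ℝ} (hδ0 : 0 < δ)
    (hδ1 : δ < 1) (Ω : Type) [Fintype Ω] (p : Ω → ℝ) (hp : ∀ ω, 0 ≤ p ω) (hp1 : ∑ ω, p ω = 1)
    (a s r D : Ω → ℕ) (M : ℝ)
    (hM : ∀ ω, (2 : ℝ) ^ a ω * (s ω + (r ω + 1) * T + 1) * (D ω + 2) ≤ M)
    (P : ∀ ω, Scheme (Sets n k) (Fin n → Bool) (a ω) (s ω) (r ω) (D ω)) (η η' : ℝ)
    (hη' : 0 ≤ η')
    (h1 : ∀ S, ∑ ω with ¬ (P ω).CorrectAt Misses S, p ω ≤ η)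
    (h2 : ∀ y : Fin T → Fin n → Bool, ¬ DomLe (graph y) W → ∑ ω with ¬ Rejects (P ω) Misses y δ, p ω ≤ η') :
    1 - η - η' - ((n.choose W : ℝ) * (1 - (1 / 2) ^ W) ^ T + T * (1 / 2) ^ n)
      ≤ 2 * T ^ 3 * M / (n.choose k * δ ^ 2) := by
  have hcard : Fintype.card (Sets n k) = n.choose k := by
    rw [Fintype.card_finset_len, Fintype.card_fin]
  have hne : Nonempty (Sets n k) := by
    rw [← Fintype.card_pos_iff, hcard]
    exact Nat.choose_pos hkn
  have hlow := learn_worst (T := T) (Misses (n := n) (k := k)) (id : Sets n k → Sets n k)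
    (twist_misses hk hkn) hT hδ0 hδ1 Ω p hp hp1 a s r D M hM P η h1
  obtain ⟨u, hu⟩ : ∃ u : ℝ, u = (n.choose W : ℝ) * (1 - (1 / 2) ^ W) ^ T + T * (1 / 2) ^ n :=
    ⟨_, rfl⟩
  obtain ⟨nY, hnY⟩ : ∃ nY : ℝ, nY = Fintype.card (Fin T → Fin n → Bool) := ⟨_, rfl⟩
  have hnY0 : 0 < nY := by rw [hnY]; exact_mod_cast Fintype.card_pos
  let N : Finset (Fin T → Fin n → Bool) := Finset.univ.filter fun y => ¬ DomLe (graph y) W
  have hN1 : (1 - u) * nY ≤ N.card := by
    rw [hu, hnY]
    exact nodom_ge hWn
  have hN2 : (N.card : ℝ) ≤ nY := by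
    rw [hnY]
    exact_mod_cast Finset.card_le_univ N
  have hsum : ∑ ω, p ω * rejectRate (P ω) Misses T δ
      = (∑ y : Fin T → Fin n → Bool, ∑ ω, p ω * (if Rejects (P ω) Misses y δ then (1 : ℝ) else 0))
        / nY := by
    rw [Finset.sum_comm, Finset.sum_div]
    apply Finset.sum_congr rfl
    intro ω _
    rw [rejectRate_eq, ← Finset.mul_sum, hnY]
    ring
  have hy : ∀ y ∈ N, 1 - η' ≤ ∑ ω, p ω * (if Rejects (P ω) Misses y δ then (1 : ℝ) else 0) := by
    intro y hyN
    have h3 := h2 y (Finset.mem_filter.1 hyN).2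
    have h4 : ∑ ω, p ω * (if Rejects (P ω) Misses y δ then (1 : ℝ) else 0)
        + ∑ ω with ¬ Rejects (P ω) Misses y δ, p ω = 1 := by
      rw [Finset.sum_filter, ← Finset.sum_add_distrib]
      refine Eq.trans ?_ hp1
      apply Finset.sum_congr rfl
      intro ω _
      by_cases h5 : Rejects (P ω) Misses y δ
      · rw [if_pos h5, if_neg (not_not.2 h5)]; ring
      · rw [if_neg h5, if_pos h5]; ring
    linarith
  have h5 : (N.card : ℝ) * (1 - η')
      ≤ ∑ y : Fin T → Fin n → Bool,
          ∑ ω, p ω * (if Rejects (P ω) Misses y δ then (1 : ℝ) else 0) := by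
    calc (N.card : ℝ) * (1 - η') = ∑ _y ∈ N, (1 - η') := by
          rw [Finset.sum_const, nsmul_eq_mul]
      _ ≤ ∑ y ∈ N, ∑ ω, p ω * (if Rejects (P ω) Misses y δ then (1 : ℝ) else 0) :=
          Finset.sum_le_sum hy
      _ ≤ _ := by
          apply Finset.sum_le_sum_of_subset_of_nonneg (Finset.subset_univ _)
          intro y _ _
          apply Finset.sum_nonneg
          intro ω _
          apply mul_nonneg (hp ω)
          split_ifs <;> norm_num
  have h6 : (N.card : ℝ) * (1 - η') / nY ≤ ∑ ω, p ω * rejectRate (P ω) Misses T δ := by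
    rw [hsum]
    exact div_le_div_of_nonneg_right h5 hnY0.le
  have h7 : 1 - η' - u ≤ (N.card : ℝ) * (1 - η') / nY := by
    rw [le_div_iff₀ hnY0]
    have h8 : (N.card : ℝ) * η' ≤ nY * η' := mul_le_mul_of_nonneg_right hN2 hη'
    linarith
  have h9 : 2 * (T : ℝ) ^ 3 * (1 / (n.choose k : ℝ)) / δ ^ 2 * M
      = 2 * T ^ 3 * M / (n.choose k * δ ^ 2) := by
    have hc : (n.choose k : ℝ) ≠ 0 := by exact_mod_cast (Nat.choose_pos hkn).ne'
    field_simp
  rw [h9] at hlow
  rw [← hu]
  linarith

end Pool.Agent.TH689.QX
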