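import Mathlib
import Pool.Agent.TH689.QXDom

/-!
Asymptotic form of the lower bound for dominating sets.
-/

set_option autoImplicit false

namespace Pool.Agent.TH689.QX

open Finset Pool.Agent.TH689.GX

lemma log_small (C : ℝ) (hC : 0 < C) : ∀ᶠ n : ℕ in Filter.atTop,
    C * ((Nat.log 2 n + 1 : ℕ) : ℝ) ^ 10 ≤ (n : ℝ) ^ ((1 : ℝ) / 20) := by
  have h1 := isLittleO_log_rpow_rpow_atTop (10 : ℝ) (show (0 : ℝ) < 1 / 20 by norm_num)
  have h2 := h1.bound (c := 1 / (C * 3 ^ 10)) (by positivity)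
  have h3 := (tendsto_natCast_atTop_atTop (R := ℝ)).eventually h2
  filter_upwards [h3, Filter.eventually_ge_atTop 3] with n hn hn3
  have hn0 : (3 : ℝ) ≤ n := by exact_mod_cast hn3
  have hlog : 1 ≤ Real.log n := by
    rw [Real.le_log_iff_exp_le (by linarith)]
    have := Real.exp_one_lt_d9
    linarith
  have h4 : ((Nat.log 2 n : ℕ) : ℝ) ≤ 2 * Real.log n := by
    have h5 := Real.natLog_le_logb n 2
    have h6 : Real.logb 2 n ≤ 2 * Real.log n := by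
      unfold Real.logb
      have h7 := Real.log_two_gt_d9
      rw [div_le_iff₀ (by linarith)]
      nlinarith
    refine h5.trans ?_
    exact_mod_cast h6
  have h5 : ((Nat.log 2 n + 1 : ℕ) : ℝ) ≤ 3 * Real.log n := by
    push_cast
    linarith
  have h6 : ((Nat.log 2 n + 1 : ℕ) : ℝ) ^ 10 ≤ 3 ^ 10 * Real.log n ^ 10 := by
    rw [← mul_pow]
    exact pow_le_pow_left₀ (by positivity) h5 10
  have h7 : Real.log n ^ 10 ≤ 1 / (C * 3 ^ 10) * (n : ℝ) ^ ((1 : ℝ) / 20) := by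
    rw [Real.norm_of_nonneg (by positivity), Real.norm_of_nonneg (by positivity)] at hn
    have h8 : Real.log (n : ℝ) ^ (10 : ℝ) = Real.log n ^ 10 := by
      exact_mod_cast Real.rpow_natCast (Real.log n) 10
    rw [h8] at hn
    exact hn
  calc C * ((Nat.log 2 n + 1 : ℕ) : ℝ) ^ 10 ≤ C * (3 ^ 10 * Real.log n ^ 10) :=
        mul_le_mul_of_nonneg_left h6 hC.le
    _ ≤ C * (3 ^ 10 * (1 / (C * 3 ^ 10) * (n : ℝ) ^ ((1 : ℝ) / 20))) := by
        apply mul_le_mul_of_nonneg_left _ hC.le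
        exact mul_le_mul_of_nonneg_left h7 (by norm_num)
    _ = (n : ℝ) ^ ((1 : ℝ) / 20) := by
        field_simp

/-- the number of the vertices outside the clique -/
def few (n : ℕ) : ℕ := 2 ^ (Nat.log 2 n / 100) * ((Nat.log 2 n / 100 + 1) * (Nat.log 2 n + 1))

lemma few_pos (n : ℕ) : 1 ≤ few n := by
  unfold few
  exact Nat.succ_le_of_lt (by positivity)

/-- the exceptional graphs -/
lemma few_rare {n : ℕ} (hn : 1 ≤ n) :
    (n.choose (Nat.log 2 n / 100) : ℝ) * (1 - (1 / 2) ^ (Nat.log 2 n / 100)) ^ few n ≤ 1 / n := by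
  obtain ⟨W, hW⟩ : ∃ W, W = Nat.log 2 n / 100 := ⟨_, rfl⟩
  obtain ⟨L, hL⟩ : ∃ L, L = Nat.log 2 n + 1 := ⟨_, rfl⟩
  have hnL : (n : ℝ) ≤ 2 ^ L := by
    have h1 : n < 2 ^ L := by rw [hL]; exact Nat.lt_pow_succ_log_self (by norm_num) n
    exact_mod_cast h1.le
  have hf : few n = 2 ^ W * ((W + 1) * L) := by rw [few, hW, hL]
  rw [← hW, hf]
  have hn0 : (0 : ℝ) < n := by exact_mod_cast hn
  have h1 : (n.choose W : ℝ) ≤ (2 ^ L) ^ W := by
    have h2 : n.choose W ≤ n ^ W := Nat.choose_le_pow n W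
    calc (n.choose W : ℝ) ≤ (n : ℝ) ^ W := by exact_mod_cast h2
      _ ≤ _ := pow_le_pow_left₀ hn0.le hnL W
  have hq0 : (0 : ℝ) ≤ 1 - (1 / 2) ^ W := by
    have : ((1 : ℝ) / 2) ^ W ≤ 1 := pow_le_one₀ (by norm_num) (by norm_num)
    linarith
  have h2 : (1 - ((1 : ℝ) / 2) ^ W) ^ (2 ^ W) ≤ 1 / 2 := by
    have h3 := Real.one_sub_le_exp_neg (((1 : ℝ) / 2) ^ W)
    have h4 := pow_le_pow_left₀ hq0 h3 (2 ^ W)
    have h5 : Real.exp (-(((1 : ℝ) / 2) ^ W)) ^ (2 ^ W) = Real.exp (-1) := by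
      rw [← Real.exp_nat_mul]
      congr 1
      push_cast
      rw [one_div, inv_pow]
      field_simp
    rw [h5] at h4
    have h6 : Real.exp (-1) ≤ 1 / 2 := by
      rw [Real.exp_neg, one_div]
      apply inv_anti₀ (by norm_num)
      have := Real.add_one_le_exp (1 : ℝ)
      linarith
    exact h4.trans h6
  have h3 : (1 - ((1 : ℝ) / 2) ^ W) ^ (2 ^ W * ((W + 1) * L)) ≤ (1 / 2) ^ ((W + 1) * L) := by
    rw [pow_mul]
    exact pow_le_pow_left₀ (pow_nonneg hq0 _) h2 _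
  calc (n.choose W : ℝ) * (1 - (1 / 2) ^ W) ^ (2 ^ W * ((W + 1) * L))
      ≤ (2 ^ L) ^ W * (1 / 2) ^ ((W + 1) * L) :=
        mul_le_mul h1 h3 (pow_nonneg hq0 _) (by positivity)
    _ = (1 / 2) ^ L := by
        have e1 : (W + 1) * L = L * W + L := by ring
        rw [e1, pow_add, ← pow_mul, one_div, inv_pow, inv_pow]
        field_simp
    _ ≤ 1 / n := by
        rw [one_div, inv_pow, one_div]
        exact inv_anti₀ hn0 hnL

lemma small_exp (n : ℕ) (hn : 8 ≤ n) : 24 * n ≤ 2 ^ n := by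
  induction n, hn using Nat.le_induction with
  | base => norm_num
  | succ m hm ih =>
    rw [pow_succ]
    omega

/-- the parameters are small -/
lemma few_small {k n : ℕ} (hn : 1 ≤ n)
    (h : 32 * 2 ^ k * (k.factorial : ℝ) * ((Nat.log 2 n + 1 : ℕ) : ℝ) ^ 10
      ≤ (n : ℝ) ^ ((1 : ℝ) / 20)) :
    32 * 2 ^ k * (k.factorial : ℝ) * (few n : ℝ) ^ 5 ≤ (n : ℝ) ^ ((1 : ℝ) / 10) := by
  obtain ⟨W, hW⟩ : ∃ W, W = Nat.log 2 n / 100 := ⟨_, rfl⟩
  obtain ⟨L, hL⟩ : ∃ L, L = Nat.log 2 n + 1 := ⟨_, rfl⟩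
  have hf : few n = 2 ^ W * ((W + 1) * L) := by rw [few, hW, hL]
  have hn0 : (0 : ℝ) < n := by exact_mod_cast hn
  rw [← hL] at h
  have h1 : ((2 : ℝ) ^ W) ^ 100 ≤ n := by
    have h2 : 2 ^ (W * 100) ≤ n := by
      refine le_trans (Nat.pow_le_pow_right (by norm_num) ?_) (Nat.pow_log_le_self 2 (by omega))
      rw [hW]
      exact Nat.div_mul_le_self _ _
    rw [← pow_mul]
    exact_mod_cast h2
  have h2 : ((2 : ℝ) ^ W) ^ 5 ≤ (n : ℝ) ^ ((1 : ℝ) / 20) := by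
    have h3 : (((2 : ℝ) ^ W) ^ 100) ^ ((1 : ℝ) / 20) ≤ (n : ℝ) ^ ((1 : ℝ) / 20) :=
      Real.rpow_le_rpow (by positivity) h1 (by norm_num)
    have h4 : (((2 : ℝ) ^ W) ^ 100) ^ ((1 : ℝ) / 20) = ((2 : ℝ) ^ W) ^ 5 := by
      rw [← Real.rpow_natCast ((2 : ℝ) ^ W) 100, ← Real.rpow_mul (by positivity),
        ← Real.rpow_natCast ((2 : ℝ) ^ W) 5]
      norm_num
    rw [h4] at h3
    exact h3
  have h3 : (((W + 1 : ℕ) : ℝ) * (L : ℝ)) ^ 5 ≤ (L : ℝ) ^ 10 := by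
    have h4 : ((W + 1 : ℕ) : ℝ) ≤ L := by
      have : W + 1 ≤ L := by omega
      exact_mod_cast this
    have h5 : ((W + 1 : ℕ) : ℝ) * (L : ℝ) ≤ (L : ℝ) ^ 2 := by
      rw [pow_two]
      exact mul_le_mul_of_nonneg_right h4 (Nat.cast_nonneg _)
    calc (((W + 1 : ℕ) : ℝ) * (L : ℝ)) ^ 5 ≤ ((L : ℝ) ^ 2) ^ 5 :=
          pow_le_pow_left₀ (by positivity) h5 5
      _ = _ := by ring
  have h4 : (few n : ℝ) ^ 5 ≤ (n : ℝ) ^ ((1 : ℝ) / 20) * (L : ℝ) ^ 10 := by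
    rw [hf]
    push_cast
    rw [mul_pow]
    push_cast at h3
    exact mul_le_mul h2 h3 (by positivity) (by positivity)
  have h5 : (n : ℝ) ^ ((1 : ℝ) / 20) * (n : ℝ) ^ ((1 : ℝ) / 20) = (n : ℝ) ^ ((1 : ℝ) / 10) := by
    rw [← Real.rpow_add hn0]
    norm_num
  calc 32 * 2 ^ k * (k.factorial : ℝ) * (few n : ℝ) ^ 5
      ≤ 32 * 2 ^ k * (k.factorial : ℝ) * ((n : ℝ) ^ ((1 : ℝ) / 20) * (L : ℝ) ^ 10) :=
        mul_le_mul_of_nonneg_left h4 (by positivity)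
    _ = (n : ℝ) ^ ((1 : ℝ) / 20) * (32 * 2 ^ k * (k.factorial : ℝ) * (L : ℝ) ^ 10) := by ring
    _ ≤ (n : ℝ) ^ ((1 : ℝ) / 20) * (n : ℝ) ^ ((1 : ℝ) / 20) :=
        mul_le_mul_of_nonneg_left h (by positivity)
    _ = _ := h5

lemma choose_large {k n : ℕ} (h : 2 * k ≤ n) :
    (n : ℝ) ^ k ≤ 2 ^ k * k.factorial * n.choose k := by
  have h1 := Nat.pow_le_choose (α := ℝ) k n
  have h2 : (n : ℝ) / 2 ≤ ((n + 1 - k : ℕ) : ℝ) := by
    rw [div_le_iff₀ (by norm_num)]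
    have : n ≤ (n + 1 - k) * 2 := by omega
    exact_mod_cast this
  have h3 : ((n : ℝ) / 2) ^ k ≤ ((n + 1 - k : ℕ) : ℝ) ^ k :=
    pow_le_pow_left₀ (by positivity) h2 k
  have hk : (0 : ℝ) < k.factorial := by exact_mod_cast Nat.factorial_pos k
  rw [div_le_iff₀ hk] at h1
  rw [div_pow, div_le_iff₀ (by positivity)] at h3
  calc (n : ℝ) ^ k ≤ ((n + 1 - k : ℕ) : ℝ) ^ k * 2 ^ k := h3
    _ ≤ (n.choose k * k.factorial) * 2 ^ k := by
        apply mul_le_mul_of_nonneg_right _ (by positivity)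
        exact_mod_cast h1
    _ = _ := by ring

open Classical in
/-- The lower bound for approximations of dominating sets with `k` members. -/
theorem dom_asym (k : ℕ) (hk : 1 ≤ k) : ∃ n₀ : ℕ, ∀ n ≥ n₀,
    (few n : ℝ) ≤ (n : ℝ) ^ ((1 : ℝ) / 50) ∧
    ∀ δ : ℝ, 1 / (2 * few n) ≤ δ → δ < 1 →
    ∀ (Ω : Type) [Fintype Ω] (p : Ω → ℝ), (∀ ω, 0 ≤ p ω) → ∑ ω, p ω = 1 →
    ∀ (a s r D : Ω → ℕ) (M : ℝ),
      (∀ ω, (2 : ℝ) ^ a ω * (s ω + (r ω + 1) * few n + 1) * (D ω + 2) ≤ M) →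
    ∀ P : ∀ ω, Scheme (Sets n k) (Fin n → Bool) (a ω) (s ω) (r ω) (D ω),
      (∀ S, ∑ ω with ¬ (P ω).CorrectAt Misses S, p ω ≤ 1 / 3) →
      (∀ y : Fin (few n) → Fin n → Bool, ¬ DomLe (graph y) (Nat.log 2 n / 100) →
        ∑ ω with ¬ Rejects (P ω) Misses y δ, p ω ≤ 1 / 3) →
      (n : ℝ) ^ ((k : ℝ) - 1 / 10) ≤ M := by
  have hev : ∀ᶠ n : ℕ in Filter.atTop,
      32 * 2 ^ k * (k.factorial : ℝ) * ((Nat.log 2 n + 1 : ℕ) : ℝ) ^ 10
        ≤ (n : ℝ) ^ ((1 : ℝ) / 20) :=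
    log_small (32 * 2 ^ k * (k.factorial : ℝ)) (by positivity)
  obtain ⟨n₁, hn₁⟩ := Filter.eventually_atTop.1 hev
  refine ⟨max n₁ (max 24 (2 * k)), ?_⟩
  intro n hn
  have hn1 : n₁ ≤ n := (le_max_left _ _).trans hn
  have hn24 : 24 ≤ n := ((le_max_left _ _).trans (le_max_right _ _)).trans hn
  have hn2k : 2 * k ≤ n := ((le_max_right _ _).trans (le_max_right _ _)).trans hn
  have hn0 : (0 : ℝ) < n := by exact_mod_cast (show 0 < n by omega)
  have hn1' : (1 : ℝ) ≤ n := by exact_mod_cast (show 1 ≤ n by omega)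
  have h5 := few_small (k := k) (n := n) (by omega) (hn₁ n hn1)
  have hfac : (1 : ℝ) ≤ k.factorial := by exact_mod_cast Nat.factorial_pos k
  have hfew1 : (1 : ℝ) ≤ few n := by exact_mod_cast few_pos n
  have h2k : (1 : ℝ) ≤ 2 ^ k := one_le_pow₀ (by norm_num)
  have hcoef : (1 : ℝ) ≤ 32 * 2 ^ k * (k.factorial : ℝ) := by nlinarith
  have h6 : (few n : ℝ) ^ 5 ≤ (n : ℝ) ^ ((1 : ℝ) / 10) := by
    refine le_trans ?_ h5
    exact le_mul_of_one_le_left (by positivity) hcoef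
  have h7 : (few n : ℝ) ≤ (n : ℝ) ^ ((1 : ℝ) / 50) := by
    have h8 : ((few n : ℝ) ^ 5) ^ ((1 : ℝ) / 5) ≤ ((n : ℝ) ^ ((1 : ℝ) / 10)) ^ ((1 : ℝ) / 5) :=
      Real.rpow_le_rpow (by positivity) h6 (by norm_num)
    rw [← Real.rpow_mul hn0.le, ← Real.rpow_natCast, ← Real.rpow_mul (by positivity)] at h8
    norm_num at h8 ⊢
    exact h8
  refine ⟨h7, ?_⟩
  intro δ hδ hδ1 Ω _ p hp hp1 a s r D M hM P hc hr
  have hδ0 : 0 < δ := lt_of_lt_of_le (by positivity) hδ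
  have hWn : Nat.log 2 n / 100 ≤ n :=
    (Nat.div_le_self _ _).trans (Nat.log_le_self 2 n)
  have hgap := dom_gap (T := few n) (W := Nat.log 2 n / 100) hk (by omega) hWn (few_pos n) hδ0 hδ1
    Ω p hp hp1 a s r D M hM P (1 / 3) (1 / 3) (by norm_num) hc hr
  have hu1 := few_rare (n := n) (by omega)
  have hu2 : (1 : ℝ) / n ≤ 1 / 24 := by
    apply one_div_le_one_div_of_le (by norm_num)
    exact_mod_cast hn24
  have hu3 : (few n : ℝ) * (1 / 2) ^ n ≤ 1 / 24 := by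
    have h9 : (few n : ℝ) ≤ n := by
      refine h7.trans ?_
      calc (n : ℝ) ^ ((1 : ℝ) / 50) ≤ (n : ℝ) ^ (1 : ℝ) :=
            Real.rpow_le_rpow_of_exponent_le hn1' (by norm_num)
        _ = n := Real.rpow_one _
    have h10 : (24 : ℝ) * n ≤ 2 ^ n := by exact_mod_cast small_exp n (by omega)
    rw [one_div, inv_pow, ← div_eq_mul_inv, div_le_iff₀ (by positivity)]
    linarith
  have h8 : (1 : ℝ) / 4 ≤ 2 * (few n : ℝ) ^ 3 * M / (n.choose k * δ ^ 2) := by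
    linarith
  have hch : (0 : ℝ) < n.choose k := by exact_mod_cast Nat.choose_pos (by omega)
  rw [le_div_iff₀ (by positivity)] at h8
  have hM0 : 0 ≤ M := by
    by_contra hcon
    push Not at hcon
    have : 2 * (few n : ℝ) ^ 3 * M < 0 := mul_neg_of_pos_of_neg (by positivity) hcon
    have h9 : 0 < 1 / 4 * ((n.choose k : ℝ) * δ ^ 2) := by positivity
    linarith
  -- the size
  have h9 : (n.choose k : ℝ) ≤ 32 * (few n : ℝ) ^ 5 * M := by
    have h10 : 1 / (4 * (few n : ℝ) ^ 2) ≤ δ ^ 2 := by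
      have h11 := pow_le_pow_left₀ (by positivity) hδ 2
      refine le_trans (le_of_eq ?_) h11
      field_simp
      norm_num
    have h11 : 1 / 4 * ((n.choose k : ℝ) * (1 / (4 * (few n : ℝ) ^ 2)))
        ≤ 2 * (few n : ℝ) ^ 3 * M := by
      refine le_trans ?_ h8
      apply mul_le_mul_of_nonneg_left _ (by norm_num)
      exact mul_le_mul_of_nonneg_left h10 hch.le
    have h12 : (n.choose k : ℝ) = (16 * (few n : ℝ) ^ 2)
        * (1 / 4 * ((n.choose k : ℝ) * (1 / (4 * (few n : ℝ) ^ 2)))) := by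
      field_simp
      norm_num
    rw [h12]
    calc (16 * (few n : ℝ) ^ 2) * (1 / 4 * ((n.choose k : ℝ) * (1 / (4 * (few n : ℝ) ^ 2))))
        ≤ (16 * (few n : ℝ) ^ 2) * (2 * (few n : ℝ) ^ 3 * M) :=
          mul_le_mul_of_nonneg_left h11 (by positivity)
      _ = _ := by ring
  have h10 : (n : ℝ) ^ k ≤ (n : ℝ) ^ ((1 : ℝ) / 10) * M := by
    calc (n : ℝ) ^ k ≤ 2 ^ k * k.factorial * n.choose k := choose_large hn2k
      _ ≤ 2 ^ k * k.factorial * (32 * (few n : ℝ) ^ 5 * M) :=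
          mul_le_mul_of_nonneg_left h9 (by positivity)
      _ = (32 * 2 ^ k * (k.factorial : ℝ) * (few n : ℝ) ^ 5) * M := by ring
      _ ≤ _ := mul_le_mul_of_nonneg_right h5 hM0
  rw [Real.rpow_sub hn0, Real.rpow_natCast, div_le_iff₀ (by positivity)]
  rw [mul_comm M]
  exact h10

end Pool.Agent.TH689.QX
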