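import Mathlib
import Pool.Agent.TH689.QXJunta
import Pool.Agent.TH689.QXUpper

/-!
Convex programming relaxations of the Orthogonal Vectors problem.
-/

set_option autoImplicit false

namespace Pool.Agent.TH689.QX

open Finset Pool.Agent.TH689.GX

variable {k N : ℕ}

/-- `c` is one coordinate of `k` lists of `N` vectors: `c (i, j)` is the entry of the `j`-th vector
of the `i`-th list. The vectors which are chosen by `x`, one of each list, have a common `1` there. -/
def Meet (c : Fin k × Fin N → Bool) (x : Fin k → Fin N) : Prop := ∀ i, c (i, x i) = true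

/-- the sign of an entry -/
def chi (b : Bool) : ℝ := if b then 1 else -1

/-- the twist -/
def otw (c : Fin k × Fin N → Bool) (x : Fin k → Fin N) : ℝ := - ∏ i, chi (c (i, x i))

lemma chi_mul_self (b : Bool) : chi b * chi b = 1 := by
  cases b <;> norm_num [chi]

lemma chi_not (b : Bool) : chi (!b) = - chi b := by
  cases b <;> norm_num [chi]

lemma abs_chi (b : Bool) : |chi b| = 1 := by
  cases b <;> norm_num [chi]

/-- the twists of different choices are orthogonal -/
lemma otw_orth (x x' : Fin k → Fin N) (hx : x ≠ x') :
    ∑ c : Fin k × Fin N → Bool, otw c x * otw c x' = 0 := by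
  classical
  obtain ⟨i₀, hi₀⟩ := Function.ne_iff.1 hx
  let f : (Fin k × Fin N → Bool) → (Fin k × Fin N → Bool) := fun c =>
    Function.update c (i₀, x i₀) (!c (i₀, x i₀))
  have hf : Function.Involutive f := by
    intro c
    simp only [f, Function.update_self, Bool.not_not, Function.update_idem,
      Function.update_eq_self]
  have h1 : ∀ c, otw (f c) x = - otw c x := by
    intro c
    unfold otw
    rw [← Finset.mul_prod_erase _ _ (Finset.mem_univ i₀),
      ← Finset.mul_prod_erase _ (fun i => chi (c (i, x i))) (Finset.mem_univ i₀)]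
    have h2 : ∏ i ∈ Finset.univ.erase i₀, chi (f c (i, x i))
        = ∏ i ∈ Finset.univ.erase i₀, chi (c (i, x i)) := by
      apply Finset.prod_congr rfl
      intro i hi
      have hne : (i, x i) ≠ (i₀, x i₀) := by
        intro h
        exact (Finset.mem_erase.1 hi).1 (congrArg Prod.fst h)
      simp only [f, Function.update_of_ne hne]
    rw [h2]
    simp only [f, Function.update_self, chi_not]
    ring
  have h2 : ∀ c, otw (f c) x' = otw c x' := by
    intro c
    unfold otw
    congr 1
    apply Finset.prod_congr rfl
    intro i _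
    have hne : (i, x' i) ≠ (i₀, x i₀) := by
      intro h
      have h3 : i = i₀ := congrArg Prod.fst h
      subst h3
      exact hi₀ (congrArg Prod.snd h).symm
    simp only [f, Function.update_of_ne hne]
  have h3 := (Equiv.sum_comp hf.toPerm
      (fun c : Fin k × Fin N → Bool => otw c x * otw c x')).symm
  have h4 : ∑ c : Fin k × Fin N → Bool, otw (f c) x * otw (f c) x'
      = - ∑ c : Fin k × Fin N → Bool, otw c x * otw c x' := by
    rw [← Finset.sum_neg_distrib]
    apply Finset.sum_congr rfl
    intro c _
    rw [h1, h2]
    ring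
  have h5 : ∑ c : Fin k × Fin N → Bool, otw c x * otw c x'
      = - ∑ c : Fin k × Fin N → Bool, otw c x * otw c x' := h3.trans h4
  linarith

lemma otw_sq (c : Fin k × Fin N → Bool) (x : Fin k → Fin N) : otw c x * otw c x = 1 := by
  unfold otw
  rw [neg_mul_neg, ← Finset.prod_mul_distrib]
  exact Finset.prod_eq_one (fun i _ => chi_mul_self _)

lemma otw_mean (hk : 0 < k) (x : Fin k → Fin N) : ∑ c : Fin k × Fin N → Bool, otw c x = 0 := by
  classical
  let i₀ : Fin k := ⟨0, hk⟩
  let f : (Fin k × Fin N → Bool) → (Fin k × Fin N → Bool) := fun c =>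
    Function.update c (i₀, x i₀) (!c (i₀, x i₀))
  have hf : Function.Involutive f := by
    intro c
    simp only [f, Function.update_self, Bool.not_not, Function.update_idem,
      Function.update_eq_self]
  have h1 : ∀ c, otw (f c) x = - otw c x := by
    intro c
    unfold otw
    rw [← Finset.mul_prod_erase _ _ (Finset.mem_univ i₀),
      ← Finset.mul_prod_erase _ (fun i => chi (c (i, x i))) (Finset.mem_univ i₀)]
    have h2 : ∏ i ∈ Finset.univ.erase i₀, chi (f c (i, x i))
        = ∏ i ∈ Finset.univ.erase i₀, chi (c (i, x i)) := by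
      apply Finset.prod_congr rfl
      intro i hi
      have hne : (i, x i) ≠ (i₀, x i₀) := by
        intro h
        exact (Finset.mem_erase.1 hi).1 (congrArg Prod.fst h)
      simp only [f, Function.update_of_ne hne]
    rw [h2]
    simp only [f, Function.update_self, chi_not]
    ring
  have h3 := (Equiv.sum_comp hf.toPerm (fun c : Fin k × Fin N → Bool => otw c x)).symm
  have h4 : ∑ c : Fin k × Fin N → Bool, otw (f c) x = - ∑ c : Fin k × Fin N → Bool, otw c x := by
    rw [← Finset.sum_neg_distrib]
    exact Finset.sum_congr rfl (fun c _ => h1 c)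
  have h5 : ∑ c : Fin k × Fin N → Bool, otw c x = - ∑ c : Fin k × Fin N → Bool, otw c x :=
    h3.trans h4
  linarith

lemma otw_abs (c : Fin k × Fin N → Bool) (x : Fin k → Fin N) : |otw c x| = 1 := by
  unfold otw
  rw [abs_neg, Finset.abs_prod]
  exact Finset.prod_eq_one (fun i _ => abs_chi _)

/-- The twist of the Orthogonal Vectors problem. -/
theorem twist_orth (hk : 0 < k) (hN : 0 < N) :
    Twist (Meet (k := k) (N := N)) otw (1 / (N : ℝ) ^ k) := by
  classical
  have hNr : (0 : ℝ) < N := by exact_mod_cast hN
  refine ⟨?_, ?_, otw_mean hk, by positivity, ?_⟩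
  · intro c x
    unfold isBad
    by_cases h : Meet c x
    · have h1 : ∏ i, chi (c (i, x i)) = 1 := by
        apply Finset.prod_eq_one
        intro i _
        rw [h i]
        rfl
      unfold otw
      rw [h1]
      norm_num
    · rw [if_neg h, zero_mul]
  · intro c x
    have h1 := neg_abs_le (otw c x)
    rw [otw_abs] at h1
    linarith
  · intro Ψ
    rw [sq_corr (fun c x => otw c x) Ψ]
    have h1 : ∀ x x' : Fin k → Fin N, ∑ c : Fin k × Fin N → Bool, otw c x * otw c x'
        = if x = x' then (Fintype.card (Fin k × Fin N → Bool) : ℝ) else 0 := by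
      intro x x'
      split_ifs with h
      · subst h
        rw [Finset.sum_congr rfl (fun c _ => otw_sq c x), Finset.sum_const, Finset.card_univ,
          nsmul_eq_mul, mul_one]
      · exact otw_orth x x' h
    have h2 : ∑ x : Fin k → Fin N, ∑ x' : Fin k → Fin N,
        Ψ x * Ψ x' * ∑ c : Fin k × Fin N → Bool, otw c x * otw c x'
        = (Fintype.card (Fin k × Fin N → Bool) : ℝ) * ∑ x, Ψ x ^ 2 := by
      rw [Finset.mul_sum]
      apply Finset.sum_congr rfl
      intro x _
      rw [Finset.sum_eq_single x]
      · rw [h1, if_pos rfl]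
        ring
      · intro x' _ hx'
        rw [h1, if_neg (fun h => hx' h.symm), mul_zero]
      · intro h
        exact absurd (Finset.mem_univ _) h
    rw [h2]
    have h3 : (Fintype.card (Fin k → Fin N) : ℝ) = (N : ℝ) ^ k := by
      rw [Fintype.card_fun, Fintype.card_fin, Fintype.card_fin]
      push_cast
      rfl
    rw [h3]
    apply le_of_eq
    field_simp

/-- the coordinates at which `k` given vectors have no common `1` -/
lemma meet_count (x : Fin k → Fin N) :
    ({c : Fin k × Fin N → Bool | ¬ Meet c x}.ncard : ℝ)
      ≤ (1 - (1 / 2) ^ k) * Fintype.card (Fin k × Fin N → Bool) := by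
  classical
  -- the coordinates at which they have a common `1`
  have h1 : Fintype.card (Fin k × Fin N → Bool)
      ≤ 2 ^ k * (Finset.univ.filter fun c : Fin k × Fin N → Bool => Meet c x).card := by
    let f : (Fin k × Fin N → Bool) → (Fin k → Bool) × (Fin k × Fin N → Bool) := fun c =>
      (fun i => c (i, x i), fun p => if p.2 = x p.1 then true else c p)
    have hf : Function.Injective f := by
      intro c c' h
      funext p
      by_cases hp : p.2 = x p.1
      · have h2 := congrFun (congrArg Prod.fst h) p.1
        simp only [f] at h2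
        rw [show p = (p.1, x p.1) from Prod.ext rfl hp]
        exact h2
      · have h2 := congrFun (congrArg Prod.snd h) p
        simp only [f, if_neg hp] at h2
        exact h2
    have h2 : (Finset.univ : Finset (Fin k × Fin N → Bool)).image f
        ⊆ Finset.univ ×ˢ (Finset.univ.filter fun c : Fin k × Fin N → Bool => Meet c x) := by
      intro p hp
      obtain ⟨c, _, rfl⟩ := Finset.mem_image.1 hp
      rw [Finset.mem_product]
      refine ⟨Finset.mem_univ _, Finset.mem_filter.2 ⟨Finset.mem_univ _, ?_⟩⟩
      intro i
      simp [f]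
    have h3 := Finset.card_le_card h2
    rw [Finset.card_image_of_injective _ hf, Finset.card_product, Finset.card_univ,
      Finset.card_univ, Fintype.card_fun (α := Fin k), Fintype.card_bool, Fintype.card_fin] at h3
    exact h3
  have h2 : {c : Fin k × Fin N → Bool | ¬ Meet c x}.ncard
      = (Finset.univ.filter fun c : Fin k × Fin N → Bool => ¬ Meet c x).card := by
    rw [Set.ncard_eq_toFinset_card']
    congr 1
    ext c
    simp
  have h3 := Finset.card_filter_add_card_filter_not
    (s := (Finset.univ : Finset (Fin k × Fin N → Bool))) (fun c => Meet c x)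
  rw [Finset.card_univ] at h3
  rw [h2]
  have h4 : ((Finset.univ.filter fun c : Fin k × Fin N → Bool => Meet c x).card : ℝ)
      + ((Finset.univ.filter fun c : Fin k × Fin N → Bool => ¬ Meet c x).card : ℝ)
      = Fintype.card (Fin k × Fin N → Bool) := by exact_mod_cast h3
  have h5 : (Fintype.card (Fin k × Fin N → Bool) : ℝ)
      ≤ 2 ^ k * ((Finset.univ.filter fun c : Fin k × Fin N → Bool => Meet c x).card : ℝ) := by
    exact_mod_cast h1
  have h6 : (1 / 2 : ℝ) ^ k * Fintype.card (Fin k × Fin N → Bool)
      ≤ ((Finset.univ.filter fun c : Fin k × Fin N → Bool => Meet c x).card : ℝ) := by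
    rw [one_div, inv_pow, inv_mul_le_iff₀ (by positivity)]
    exact h5
  linarith

end Pool.Agent.TH689.QX
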