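import Mathlib
import Pool.Agent.TH689.CXNet
import Pool.Agent.TH689.RXRep

/-!
The library of functions of a mixed-integer convex relaxation, and the static proof given by a
refutation.
-/

set_option autoImplicit false

namespace Pool.Agent.TH689.RX

open Finset Pool.Agent.H538R2.SB Pool.Agent.TH689.LX Pool.Agent.TH689.CX

/-- the index set of all constraints -/
abbrev Con0 (n s r : ℕ) : Type := Fin s ⊕ (Clause n × Fin r)

/-- the images of the points -/
def vec0 {n k s r D : ℕ} (P : Scheme n k s r D) : Con0 n s r → Asg n → Fin D → ℝ :=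
  Sum.elim (fun i x => P.map i (P.point x)) (fun p x => P.clauseMap p.1 p.2 (P.point x))

/-- the assignments which falsify the clause of a constraint -/
noncomputable def bad0 {n s r : ℕ} : Con0 n s r → Asg n → ℝ :=
  Sum.elim (fun _ _ => 0) (fun p x => LX.isFalse p.1 x)

/-- the constraints of `F` among all constraints -/
def emb {n s r : ℕ} (F : Finset (Clause n)) : Con n s r F → Con0 n s r :=
  Sum.map id (fun p => (p.1.1, p.2))

lemma vec_emb {n k s r D : ℕ} (P : Scheme n k s r D) (F : Finset (Clause n))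
    (κ : Con n s r F) : vec P F κ = vec0 P (emb F κ) := by
  rcases κ with i | p <;> rfl

lemma bad_emb {n s r : ℕ} (F : Finset (Clause n)) (κ : Con n s r F) :
    badf F κ = bad0 (emb F κ) := by
  rcases κ with i | p <;> rfl

open Classical in
/-- the indicator function of the assignments with the binary part `b` -/
noncomputable def ind {n k s r D : ℕ} (P : Scheme n k s r D) (b : Fin k → Bool)
    (x : Asg n) : ℝ := if Pat P b x then 1 else 0

lemma ind_of {n k s r D : ℕ} {P : Scheme n k s r D} {b : Fin k → Bool}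
    {x : Asg n} (h : Pat P b x) : ind P b x = 1 := if_pos h

lemma ind_not {n k s r D : ℕ} {P : Scheme n k s r D} {b : Fin k → Bool}
    {x : Asg n} (h : ¬ Pat P b x) : ind P b x = 0 := if_neg h

lemma ind_bd {n k s r D : ℕ} (P : Scheme n k s r D) (b : Fin k → Bool)
    (x : Asg n) : 0 ≤ ind P b x ∧ ind P b x ≤ 1 := by
  unfold ind
  split_ifs <;> norm_num

lemma bval_inj {b b' : Bool} (h : bval b = bval b') : b = b' := by
  cases b <;> cases b' <;> simp [bval] at h ⊢

open Classical in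
/-- the indicator function of the assignments at which the scheme is correct -/
noncomputable def vld {n k s r D : ℕ} (P : Scheme n k s r D) (x : Asg n) : ℝ :=
  if P.CorrectAt x then 1 else 0

lemma vld_bd {n k s r D : ℕ} (P : Scheme n k s r D) (x : Asg n) :
    0 ≤ vld P x ∧ vld P x ≤ 1 := by
  unfold vld
  split_ifs <;> norm_num

/-- every correct assignment has exactly one binary part -/
lemma sum_ind {n k s r D : ℕ} (P : Scheme n k s r D) (x : Asg n) :
    ∑ b, ind P b x = vld P x := by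
  classical
  by_cases hx : P.CorrectAt x
  · have h : ∀ i, ∃ b : Bool, P.bin i (P.point x) = bval b := by
      intro i
      rcases hx.2.1 i with h | h
      · exact ⟨false, by rw [h]; rfl⟩
      · exact ⟨true, by rw [h]; rfl⟩
    choose b₀ hb₀ using h
    have hv : vld P x = 1 := if_pos hx
    rw [hv, Finset.sum_eq_single b₀]
    · exact ind_of ⟨hx, hb₀⟩
    · intro b _ hb
      apply ind_not
      intro hp
      apply hb
      funext i
      apply bval_inj
      rw [← hp.2 i, hb₀ i]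
    · intro h
      exact absurd (Finset.mem_univ _) h
  · have hv : vld P x = 0 := if_neg hx
    rw [hv]
    apply Finset.sum_eq_zero
    intro b _
    apply ind_not
    intro hp
    exact hx hp.1

lemma vld_mul_ind {n k s r D : ℕ} (P : Scheme n k s r D) (b : Fin k → Bool) (x : Asg n) :
    vld P x * ind P b x = ind P b x := by
  by_cases hx : P.CorrectAt x
  · have hv : vld P x = 1 := if_pos hx
    rw [hv, one_mul]
  · have h1 : ind P b x = 0 := ind_not (fun hp => hx hp.1)
    rw [h1, mul_zero]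

/-- spanning functions of the space of a constraint and a binary part -/
noncomputable def gens {n k s r D : ℕ} (P : Scheme n k s r D)
    (p : Con0 n s r × (Fin k → Bool)) : Option (Option (Fin D)) → Asg n → ℝ
  | none => fun x => ind P p.2 x
  | some none => fun x => ind P p.2 x * bad0 p.1 x
  | some (some j) => fun x => ind P p.2 x * vec0 P p.1 x j

/-- the space of functions of a constraint and a binary part -/
noncomputable def Wk {n k s r D : ℕ} (P : Scheme n k s r D)
    (p : Con0 n s r × (Fin k → Bool)) :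
    Submodule ℝ (Asg n → ℝ) := Submodule.span ℝ (Set.range (gens P p))

lemma finrank_Wk {n k s r D : ℕ} (P : Scheme n k s r D)
    (p : Con0 n s r × (Fin k → Bool)) :
    Module.finrank ℝ (Wk P p) ≤ D + 2 := by
  have h := finrank_range_le_card (R := ℝ) (gens P p)
  simp only [Fintype.card_option, Fintype.card_fin] at h
  exact h

/-- the bound for the size of the nets -/
def netM (n D : ℕ) : ℕ := (2 ^ (8 * n + 2)) ^ (D + 2)

theorem exists_lib {n k s r D : ℕ} (P : Scheme n k s r D) :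
    ∃ g : Con0 n s r × (Fin k → Bool) → Fin (netM n D + 1) → Asg n → ℝ,
      (∀ p i x, 0 ≤ g p i x ∧ g p i x ≤ 1) ∧
      ∀ p, ∀ f ∈ Wk P p, (∀ x, 0 ≤ f x ∧ f x ≤ 1) →
        ∃ i, ∀ x, |f x - g p i x| ≤ ((2 : ℝ) ^ (8 * n))⁻¹ := by
  have h : ∀ p : Con0 n s r × (Fin k → Bool), ∃ g : Fin (netM n D + 1) → Asg n → ℝ,
      (∀ i x, 0 ≤ g i x ∧ g i x ≤ 1) ∧ ∀ f ∈ Wk P p, (∀ x, 0 ≤ f x ∧ f x ≤ 1) →
        ∃ i, ∀ x, |f x - g i x| ≤ ((2 : ℝ) ^ (8 * n))⁻¹ := by
    intro p
    apply exists_net (Wk P p) (by positivity) (netM n D)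
    unfold netM
    push_cast
    have h1 : 2 / ((2 : ℝ) ^ (8 * n))⁻¹ + 1 ≤ 2 ^ (8 * n + 2) := by
      rw [div_inv_eq_mul, pow_add]
      have : (1 : ℝ) ≤ 2 ^ (8 * n) := one_le_pow₀ (by norm_num)
      linarith
    have h2 : (1 : ℝ) ≤ 2 ^ (8 * n + 2) := one_le_pow₀ (by norm_num)
    calc (2 / ((2 : ℝ) ^ (8 * n))⁻¹ + 1) ^ Module.finrank ℝ (Wk P p)
        ≤ (2 ^ (8 * n + 2)) ^ Module.finrank ℝ (Wk P p) :=
          pow_le_pow_left₀ (by positivity) h1 _
      _ ≤ (2 ^ (8 * n + 2)) ^ (D + 2) := pow_le_pow_right₀ h2 (finrank_Wk P p)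
  choose g hg using h
  exact ⟨g, fun p => (hg p).1, fun p => (hg p).2⟩

/-- the index set of the library -/
abbrev Idx (n k s r D : ℕ) : Type :=
  (Fin k → Bool) ⊕ (Asg n ⊕ ((Con0 n s r × (Fin k → Bool)) × Fin (netM n D + 1)))

open Classical in
/-- the library -/
noncomputable def libf {n k s r D : ℕ} (P : Scheme n k s r D)
    (g : Con0 n s r × (Fin k → Bool) → Fin (netM n D + 1) → Asg n → ℝ) :
    Idx n k s r D → Asg n → ℝ :=
  Sum.elim (fun b x => vld P x * ind P b x)
    (Sum.elim (fun y x => vld P x * if x = y then 1 else 0) (fun p x => vld P x * g p.1 p.2 x))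

lemma libf_bd {n k s r D : ℕ} {P : Scheme n k s r D}
    {g : Con0 n s r × (Fin k → Bool) → Fin (netM n D + 1) → Asg n → ℝ}
    (hg : ∀ p i x, 0 ≤ g p i x ∧ g p i x ≤ 1) (j : Idx n k s r D) (x : Asg n) :
    0 ≤ libf P g j x ∧ libf P g j x ≤ 1 := by
  have hv := vld_bd P x
  have key : ∀ t : ℝ, 0 ≤ t ∧ t ≤ 1 → 0 ≤ vld P x * t ∧ vld P x * t ≤ 1 := fun t ht =>
    ⟨mul_nonneg hv.1 ht.1, mul_le_one₀ hv.2 ht.1 ht.2⟩
  rcases j with j | j | j
  · exact key _ (ind_bd P j x)
  · simp only [libf, Sum.elim_inl, Sum.elim_inr]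
    apply key
    split_ifs <;> norm_num
  · exact key _ (hg _ _ _)

/-- a sum over the constraints of `F` -/
lemma sum_rho {n s r : ℕ} (F : Finset (Clause n)) (ρ : Con n s r F → ℝ) (x : Asg n) :
    ∑ κ, ρ κ * badf F κ x
      = ∑ C ∈ F.attach, (∑ i, ρ (Sum.inr (C, i))) * LX.isFalse C.1 x := by
  rw [Fintype.sum_sum_type]
  have h1 : ∑ i : Fin s, ρ (Sum.inl i) * badf F (Sum.inl i : Con n s r F) x = 0 := by
    apply Finset.sum_eq_zero
    intro i _
    simp [badf]
  rw [h1, zero_add, Fintype.sum_prod_type]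
  apply Finset.sum_congr rfl
  intro C _
  rw [Finset.sum_mul]
  rfl

lemma falsified_sum {n : ℕ} (F : Finset (Clause n)) (x : Asg n) :
    (falsified F x : ℝ) = ∑ C ∈ F, LX.isFalse C x := by
  unfold falsified LX.isFalse
  rw [Finset.card_filter]
  push_cast
  rfl

/-- The multipliers of a refutation, all binary parts together. -/
theorem refutes_rep' {n k s r D m : ℕ} (P : Scheme n k s r D) (F : Finset (Clause n))
    (hFm : F.card ≤ m) (hm1 : 1 ≤ m) {δ : ℝ} (hδ0 : 0 < δ) (hδ1 : δ < 1) (h : P.Refutes F δ) :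
    ∃ (ρ : (Fin k → Bool) → Con n s r F → ℝ) (ρ₀ w₀ : (Fin k → Bool) → ℝ)
      (w : (Fin k → Bool) → Con n s r F → Asg n → ℝ),
      (∀ b κ, 0 ≤ ρ b κ) ∧ (∀ b, 0 ≤ ρ₀ b) ∧ (∀ b, 0 ≤ w₀ b ∧ w₀ b ≤ m) ∧
      (∀ b, ∑ κ, ρ b κ + ρ₀ b ≤ 1) ∧ (∀ b κ x, 0 ≤ w b κ x ∧ w b κ x ≤ m) ∧
      (∀ b κ, (fun x => w b κ x / m) ∈ Wk P (emb F κ, b)) ∧
      ∀ x, ∑ b, ind P b x * (∑ κ, ρ b κ * badf F κ x + ρ₀ b * falsified F x)
        = vld P x * δ + ∑ b, ind P b x * w₀ b + ∑ b, ∑ κ, w b κ x := by
  classical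
  choose ρ ρ₀ w₀ a c hρ hρ₀ hw₀ hsum hne hnn hid using
    fun b => refutes_rep P F hδ1 h b
  have hm1' : (1 : ℝ) ≤ m := by exact_mod_cast hm1
  -- the left hand side is at most `m`
  have hLm : ∀ b x, ∑ κ, ρ b κ * badf F κ x + ρ₀ b * falsified F x ≤ m := by
    intro b x
    have hρs0 : 0 ≤ ∑ κ, ρ b κ := Finset.sum_nonneg (fun κ _ => hρ b κ)
    have h1 : ∑ κ, ρ b κ * badf F κ x ≤ ∑ κ, ρ b κ :=
      Finset.sum_le_sum (fun κ _ => mul_le_of_le_one_right (hρ b κ) (badf_bd F κ x).2)
    have h2 : (falsified F x : ℝ) ≤ m := by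
      have : falsified F x ≤ F.card := Finset.card_filter_le _ _
      exact_mod_cast this.trans hFm
    have h3 : ρ₀ b * falsified F x ≤ ρ₀ b * m := mul_le_mul_of_nonneg_left h2 (hρ₀ b)
    have h4 : ∑ κ, ρ b κ ≤ (∑ κ, ρ b κ) * m := le_mul_of_one_le_right hρs0 hm1'
    have h5 : (∑ κ, ρ b κ) * m + ρ₀ b * m ≤ m := by
      rw [← add_mul]
      exact mul_le_of_le_one_left (by linarith) (hsum b)
    linarith
  refine ⟨ρ, ρ₀, w₀, fun b κ x => ind P b x
    * (ρ b κ * badf F κ x + ∑ j, a b κ j * vec P F κ x j + c b κ), hρ, hρ₀, ?_, hsum, ?_, ?_, ?_⟩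
  · intro b
    refine ⟨hw₀ b, ?_⟩
    rcases hne b with h0 | ⟨x, hx⟩
    · rw [h0]; linarith
    · have h1 := hid b x hx
      have h2 := hLm b x
      have h3 : 0 ≤ ∑ κ, (ρ b κ * badf F κ x + ∑ j, a b κ j * vec P F κ x j + c b κ) :=
        Finset.sum_nonneg (fun κ _ => hnn b x hx κ)
      linarith
  · intro b κ x
    beta_reduce
    by_cases hx : Pat P b x
    · rw [ind_of hx, one_mul]
      refine ⟨hnn b x hx κ, ?_⟩
      have h1 := hid b x hx
      have h2 := hLm b x
      have h3 := Finset.single_le_sum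
        (f := fun κ => ρ b κ * badf F κ x + ∑ j, a b κ j * vec P F κ x j + c b κ)
        (fun κ _ => hnn b x hx κ) (Finset.mem_univ κ)
      have h4 := hw₀ b
      linarith
    · rw [ind_not hx, zero_mul]
      exact ⟨le_rfl, by linarith⟩
  · intro b κ
    have h1 : (fun x => ind P b x
        * (ρ b κ * badf F κ x + ∑ j, a b κ j * vec P F κ x j + c b κ) / m)
        = (ρ b κ / m) • gens P (emb F κ, b) (some none)
          + ∑ j, (a b κ j / m) • gens P (emb F κ, b) (some (some j))
          + (c b κ / m) • gens P (emb F κ, b) none := by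
      funext x
      rw [vec_emb, bad_emb]
      simp only [Pi.add_apply, Pi.smul_apply, smul_eq_mul, gens, Finset.sum_apply]
      rw [mul_add, mul_add, add_div, add_div, Finset.mul_sum, Finset.sum_div]
      congr 1
      · congr 1
        · ring
        · exact Finset.sum_congr rfl (fun j _ => by ring)
      · ring
    rw [h1]
    have hg' : ∀ o, gens P (emb F κ, b) o ∈ Wk P (emb F κ, b) :=
      fun o => Submodule.subset_span ⟨o, rfl⟩
    exact Submodule.add_mem _ (Submodule.add_mem _ (Submodule.smul_mem _ _ (hg' _))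
      (Submodule.sum_mem _ (fun j _ => Submodule.smul_mem _ _ (hg' _))))
      (Submodule.smul_mem _ _ (hg' _))
  · intro x
    have h1 : ∀ b, ind P b x * (∑ κ, ρ b κ * badf F κ x + ρ₀ b * falsified F x)
        = ind P b x * δ + ind P b x * w₀ b + ∑ κ, ind P b x
          * (ρ b κ * badf F κ x + ∑ j, a b κ j * vec P F κ x j + c b κ) := by
      intro b
      rw [← Finset.mul_sum]
      by_cases hx : Pat P b x
      · rw [ind_of hx, hid b x hx]; ring
      · rw [ind_not hx]; ring
    rw [Finset.sum_congr rfl (fun b _ => h1 b), Finset.sum_add_distrib, Finset.sum_add_distrib,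
      ← Finset.sum_mul, sum_ind]

/-- The static proof given by a refutation. -/
theorem static_of_refutes {n k s r D m : ℕ} (P : Scheme n k s r D)
    {g : Con0 n s r × (Fin k → Bool) → Fin (netM n D + 1) → Asg n → ℝ}
    (hgnet : ∀ p, ∀ f ∈ Wk P p, (∀ x, 0 ≤ f x ∧ f x ≤ 1) →
        ∃ i, ∀ x, |f x - g p i x| ≤ ((2 : ℝ) ^ (8 * n))⁻¹)
    (F : Finset (Clause n)) (hFm : F.card ≤ m) (hm1 : 1 ≤ m) {δ : ℝ} (hδ0 : 0 < δ) (hδ1 : δ < 1)
    (hE : 2 * 2 ^ n * (2 ^ k * ((s : ℝ) + m * r) * (2 * m / δ) * ((2 : ℝ) ^ (8 * n))⁻¹) ≤ 1)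
    (h : P.Refutes F δ) :
    ∃ (μ : Clause n → Idx n k s r D → ℝ) (u : Idx n k s r D → ℝ), (∀ j, 0 ≤ u j) ∧
      (∀ x, ∑ C ∈ F, ∑ j, μ C j * (libf P g j x * LX.isFalse C x)
        = vld P x + ∑ j, u j * libf P g j x) ∧
      (∑ x, ∑ C ∈ F, ∑ j, |μ C j| * (libf P g j x * LX.isFalse C x) ≤ (2 * m / δ) * 2 ^ n) ∧
      ∑ C ∈ F, ∑ j, |μ C j| + ∑ j, u j ≤ 2 ^ k * (2 * m / δ) * ((s : ℝ) + m * r + 5) := by
  classical
  obtain ⟨ρ, ρ₀, w₀, w, hρ, hρ₀, hw₀, hsum, hw, hspan, hid⟩ :=
    refutes_rep' P F hFm hm1 hδ0 hδ1 h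
  have hm1' : (1 : ℝ) ≤ m := by exact_mod_cast hm1
  set η : ℝ := ((2 : ℝ) ^ (8 * n))⁻¹ with hη
  have hη0 : 0 < η := by positivity
  -- the elements of the net
  have hnet : ∀ (b : Fin k → Bool) (κ : Con n s r F),
      ∃ i, ∀ x, |w b κ x / m - g (emb F κ, b) i x| ≤ η := by
    intro b κ
    apply hgnet (emb F κ, b) (fun x => w b κ x / m) (hspan b κ)
    intro x
    refine ⟨div_nonneg (hw b κ x).1 (by linarith), ?_⟩
    rw [div_le_one (by linarith)]
    exact (hw b κ x).2
  choose idx hidx using hnet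
  set T : ℝ := 2 * m / δ with hT
  have hT0 : 0 < T := by positivity
  have hT2 : 2 ≤ T := by
    rw [hT, le_div_iff₀ hδ0]
    nlinarith
  have h2δ : 2 / δ ≤ T := by
    rw [hT]
    apply div_le_div_of_nonneg_right _ hδ0.le
    linarith
  have hcard : (Fintype.card (Con n s r F) : ℝ) ≤ s + m * r := by
    rw [Fintype.card_sum, Fintype.card_prod, Fintype.card_fin, Fintype.card_fin,
      Fintype.card_coe]
    push_cast
    have : (F.card : ℝ) ≤ m := by exact_mod_cast hFm
    have h3 : (F.card : ℝ) * r ≤ m * r := mul_le_mul_of_nonneg_right this (by positivity)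
    linarith
  have hcb : (Fintype.card (Fin k → Bool) : ℝ) = 2 ^ k := by
    rw [Fintype.card_fun, Fintype.card_bool, Fintype.card_fin]
    push_cast
    rfl
  set E : ℝ := 2 ^ k * ((s : ℝ) + m * r) * T * η with hEd
  have hE0 : 0 ≤ E := by positivity
  have hE1 : E ≤ 1 := by
    have h1 : (1 : ℝ) ≤ 2 ^ n := one_le_pow₀ (by norm_num)
    have h2 : E ≤ 2 * 2 ^ n * E := le_mul_of_one_le_left hE0 (by linarith)
    linarith
  set e : Asg n → ℝ := fun x => ∑ b, ∑ κ, T * (w b κ x / m - g (emb F κ, b) (idx b κ) x) with he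
  have heE : ∀ x, |e x| ≤ E := by
    intro x
    calc |e x| ≤ ∑ b, |∑ κ, T * (w b κ x / m - g (emb F κ, b) (idx b κ) x)| :=
          Finset.abs_sum_le_sum_abs _ _
      _ ≤ ∑ b, ∑ κ, |T * (w b κ x / m - g (emb F κ, b) (idx b κ) x)| :=
          Finset.sum_le_sum (fun b _ => Finset.abs_sum_le_sum_abs _ _)
      _ ≤ ∑ _b : Fin k → Bool, ∑ _κ : Con n s r F, T * η := by
          apply Finset.sum_le_sum
          intro b _
          apply Finset.sum_le_sum
          intro κ _
          rw [abs_mul, abs_of_pos hT0]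
          exact mul_le_mul_of_nonneg_left (hidx b κ x) hT0.le
      _ = 2 ^ k * (Fintype.card (Con n s r F) * (T * η)) := by
          rw [Finset.sum_const, Finset.card_univ, nsmul_eq_mul, hcb, Finset.sum_const,
            Finset.card_univ, nsmul_eq_mul]
      _ ≤ 2 ^ k * ((s + m * r) * (T * η)) := by
          apply mul_le_mul_of_nonneg_left _ (by positivity)
          exact mul_le_mul_of_nonneg_right hcard (by positivity)
      _ = E := by rw [hEd]; ring
  -- the multipliers
  let mu : Clause n → (Fin k → Bool) → ℝ := fun C b =>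
    (2 / δ) * (ρ₀ b + if hC : C ∈ F then ∑ i, ρ b (Sum.inr (⟨C, hC⟩, i)) else 0)
  have hmu0 : ∀ C b, 0 ≤ mu C b := by
    intro C b
    apply mul_nonneg (by positivity)
    apply add_nonneg (hρ₀ b)
    split_ifs
    · exact Finset.sum_nonneg (fun i _ => hρ b _)
    · exact le_rfl
  have hmuF : ∀ (b : Fin k → Bool) (φ : Clause n → ℝ), ∑ C ∈ F, mu C b * φ C
      = (2 / δ) * (ρ₀ b * ∑ C ∈ F, φ C
        + ∑ C ∈ F.attach, (∑ i, ρ b (Sum.inr (C, i))) * φ C.1) := by
    intro b φ
    rw [← Finset.sum_attach F, ← Finset.sum_attach F (fun C => φ C), Finset.mul_sum,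
      ← Finset.sum_add_distrib, Finset.mul_sum]
    apply Finset.sum_congr rfl
    intro C _
    simp only [mu, dif_pos C.2]
    ring
  let μ : Clause n → Idx n k s r D → ℝ := fun C => Sum.elim (fun b => mu C b) (fun _ => 0)
  have hμ : ∀ (C : Clause n) (φ : Idx n k s r D → ℝ),
      ∑ j, μ C j * φ j = ∑ b, mu C b * φ (Sum.inl b) := by
    intro C φ
    rw [Fintype.sum_sum_type]
    simp [μ]
  have hμabs : ∀ (C : Clause n) (φ : Idx n k s r D → ℝ),
      ∑ j, |μ C j| * φ j = ∑ b, mu C b * φ (Sum.inl b) := by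
    intro C φ
    rw [← hμ C φ]
    apply Finset.sum_congr rfl
    rintro (j | j) _
    · simp only [μ, Sum.elim_inl, abs_of_nonneg (hmu0 C j)]
    · simp only [μ, Sum.elim_inr, abs_zero]
  have hone : ∀ b x, libf P g (Sum.inl b : Idx n k s r D) x = ind P b x :=
    fun b x => vld_mul_ind P b x
  have hL : ∀ x, ∑ C ∈ F, ∑ b, mu C b * (ind P b x * LX.isFalse C x)
      = (2 / δ) * ∑ b, ind P b x * (∑ κ, ρ b κ * badf F κ x + ρ₀ b * falsified F x) := by
    intro x
    rw [Finset.sum_comm, Finset.mul_sum]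
    apply Finset.sum_congr rfl
    intro b _
    have h1 : ∑ C ∈ F, mu C b * (ind P b x * LX.isFalse C x)
        = ind P b x * ∑ C ∈ F, mu C b * LX.isFalse C x := by
      rw [Finset.mul_sum]
      exact Finset.sum_congr rfl (fun C _ => by ring)
    rw [h1, hmuF b (fun C => LX.isFalse C x), ← falsified_sum, sum_rho]
    ring
  have hLm : ∀ x, ∑ b, ind P b x * (∑ κ, ρ b κ * badf F κ x + ρ₀ b * falsified F x) ≤ m := by
    intro x
    have h1 : ∀ b, ∑ κ, ρ b κ * badf F κ x + ρ₀ b * falsified F x ≤ m := by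
      intro b
      have hρs0 : 0 ≤ ∑ κ, ρ b κ := Finset.sum_nonneg (fun κ _ => hρ b κ)
      have h1 : ∑ κ, ρ b κ * badf F κ x ≤ ∑ κ, ρ b κ :=
        Finset.sum_le_sum (fun κ _ => mul_le_of_le_one_right (hρ b κ) (badf_bd F κ x).2)
      have h2 : (falsified F x : ℝ) ≤ m := by
        have : falsified F x ≤ F.card := Finset.card_filter_le _ _
        exact_mod_cast this.trans hFm
      have h3 : ρ₀ b * falsified F x ≤ ρ₀ b * m := mul_le_mul_of_nonneg_left h2 (hρ₀ b)
      have h4 : ∑ κ, ρ b κ ≤ (∑ κ, ρ b κ) * m := le_mul_of_one_le_right hρs0 hm1'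
      have h5 : (∑ κ, ρ b κ) * m + ρ₀ b * m ≤ m := by
        rw [← add_mul]
        exact mul_le_of_le_one_left (by linarith) (hsum b)
      linarith
    calc ∑ b, ind P b x * (∑ κ, ρ b κ * badf F κ x + ρ₀ b * falsified F x)
        ≤ ∑ b, ind P b x * m :=
          Finset.sum_le_sum (fun b _ => mul_le_mul_of_nonneg_left (h1 b) (ind_bd P b x).1)
      _ = vld P x * m := by rw [← Finset.sum_mul, sum_ind]
      _ ≤ m := mul_le_of_le_one_left (by linarith) (vld_bd P x).2
  let u3 : (Con0 n s r × (Fin k → Bool)) × Fin (netM n D + 1) → ℝ := fun p =>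
    ∑ b : Fin k → Bool, ∑ κ : Con n s r F, if ((emb F κ, b), idx b κ) = p then T else 0
  let u : Idx n k s r D → ℝ := Sum.elim (fun b => 1 - E + 2 / δ * w₀ b)
    (Sum.elim (fun y => E + e y) u3)
  have hu3 : ∀ φ : (Con0 n s r × (Fin k → Bool)) × Fin (netM n D + 1) → ℝ,
      ∑ p, u3 p * φ p = ∑ b, ∑ κ, T * φ ((emb F κ, b), idx b κ) := by
    intro φ
    simp only [u3, Finset.sum_mul]
    rw [Finset.sum_comm]
    apply Finset.sum_congr rfl
    intro b _
    rw [Finset.sum_comm]
    apply Finset.sum_congr rfl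
    intro κ _
    have : ∀ p : (Con0 n s r × (Fin k → Bool)) × Fin (netM n D + 1),
        (if ((emb F κ, b), idx b κ) = p then T else 0) * φ p
        = if ((emb F κ, b), idx b κ) = p then T * φ p else 0 := by
      intro p; split_ifs <;> ring
    simp only [this]
    rw [Finset.sum_eq_single ((emb F κ, b), idx b κ)]
    · rw [if_pos rfl]
    · intro p _ hp
      rw [if_neg (Ne.symm hp)]
    · intro h
      exact absurd (Finset.mem_univ _) h
  have h1k : (1 : ℝ) ≤ 2 ^ k := one_le_pow₀ (by norm_num)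
  refine ⟨μ, u, ?_, ?_, ?_, ?_⟩
  · rintro (j | j | j)
    · simp only [u, Sum.elim_inl]
      have : 0 ≤ 2 / δ * w₀ j := mul_nonneg (by positivity) (hw₀ j).1
      linarith
    · simp only [u, Sum.elim_inl, Sum.elim_inr]
      have := (abs_le.1 (heE j)).1
      linarith
    · simp only [u, Sum.elim_inr, u3]
      apply Finset.sum_nonneg
      intro b _
      apply Finset.sum_nonneg
      intro κ _
      split_ifs
      · exact hT0.le
      · exact le_rfl
  · intro x
    have h1 : ∀ C ∈ F, ∑ j, μ C j * (libf P g j x * LX.isFalse C x)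
        = ∑ b, mu C b * (ind P b x * LX.isFalse C x) := by
      intro C _
      rw [hμ C (fun j => libf P g j x * LX.isFalse C x)]
      exact Finset.sum_congr rfl (fun b _ => by rw [hone])
    have hsp : ∑ j, u j * libf P g j x
        = ∑ b : Fin k → Bool, u (Sum.inl b) * libf P g (Sum.inl b) x
        + (∑ y, u (Sum.inr (Sum.inl y)) * libf P g (Sum.inr (Sum.inl y)) x
        + ∑ p, u (Sum.inr (Sum.inr p)) * libf P g (Sum.inr (Sum.inr p)) x) := by
      rw [Fintype.sum_sum_type, Fintype.sum_sum_type]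
    rw [Finset.sum_congr rfl h1, hL, hid x, hsp]
    have h2 : ∑ b : Fin k → Bool, u (Sum.inl b) * libf P g (Sum.inl b) x
        = (1 - E) * vld P x + 2 / δ * ∑ b, ind P b x * w₀ b := by
      have h3 : ∀ b : Fin k → Bool, u (Sum.inl b) * libf P g (Sum.inl b) x
          = (1 - E) * ind P b x + 2 / δ * (ind P b x * w₀ b) := by
        intro b
        rw [hone b x]
        simp only [u, Sum.elim_inl]
        ring
      rw [Finset.sum_congr rfl (fun b _ => h3 b), Finset.sum_add_distrib, ← Finset.mul_sum,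
        ← Finset.mul_sum, sum_ind]
    have h3 : ∑ y, u (Sum.inr (Sum.inl y)) * libf P g (Sum.inr (Sum.inl y)) x
        = vld P x * (E + e x) := by
      simp only [u, libf, Sum.elim_inl, Sum.elim_inr]
      rw [Finset.sum_eq_single x]
      · rw [if_pos rfl, mul_one, mul_comm]
      · intro y _ hy
        rw [if_neg (Ne.symm hy), mul_zero, mul_zero]
      · intro h
        exact absurd (Finset.mem_univ _) h
    have h4 : ∑ p, u (Sum.inr (Sum.inr p)) * libf P g (Sum.inr (Sum.inr p)) x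
        = vld P x * ∑ b, ∑ κ, T * g (emb F κ, b) (idx b κ) x := by
      simp only [u, libf, Sum.elim_inr]
      rw [hu3 (fun p => vld P x * g p.1 p.2 x), Finset.mul_sum]
      apply Finset.sum_congr rfl
      intro b _
      rw [Finset.mul_sum]
      exact Finset.sum_congr rfl (fun κ _ => by ring)
    rw [h2, h3, h4]
    by_cases hx : P.CorrectAt x
    swap
    · -- nothing happens at the other assignments
      have hv : vld P x = 0 := if_neg hx
      have h7 : ∀ b, ind P b x = 0 := fun b => ind_not (fun hp => hx hp.1)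
      have h8 := hid x
      simp only [h7, zero_mul, Finset.sum_const_zero, hv, zero_add] at h8
      simp only [h7, zero_mul, Finset.sum_const_zero, hv, mul_zero, add_zero, ← h8]
    have hv : vld P x = 1 := if_pos hx
    simp only [hv, one_mul, mul_one]
    simp only [he]
    have h5 : ∑ b, ∑ κ, T * (w b κ x / m - g (emb F κ, b) (idx b κ) x)
        = (2 / δ) * ∑ b, ∑ κ, w b κ x - ∑ b, ∑ κ, T * g (emb F κ, b) (idx b κ) x := by
      rw [Finset.mul_sum, ← Finset.sum_sub_distrib]
      apply Finset.sum_congr rfl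
      intro b _
      rw [Finset.mul_sum, ← Finset.sum_sub_distrib]
      apply Finset.sum_congr rfl
      intro κ _
      rw [hT]
      field_simp
    rw [h5]
    have h6 : 2 / δ * (δ + ∑ b, ind P b x * w₀ b + ∑ b, ∑ κ, w b κ x)
        = 2 + 2 / δ * ∑ b, ind P b x * w₀ b + 2 / δ * ∑ b, ∑ κ, w b κ x := by
      field_simp
    rw [h6]
    ring
  · have h1 : ∀ x, ∑ C ∈ F, ∑ j, |μ C j| * (libf P g j x * LX.isFalse C x) ≤ T := by
      intro x
      have h2 : ∀ C ∈ F, ∑ j, |μ C j| * (libf P g j x * LX.isFalse C x)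
          = ∑ b, mu C b * (ind P b x * LX.isFalse C x) := by
        intro C _
        rw [hμabs C (fun j => libf P g j x * LX.isFalse C x)]
        exact Finset.sum_congr rfl (fun b _ => by rw [hone])
      rw [Finset.sum_congr rfl h2, hL]
      calc 2 / δ * (∑ b, ind P b x * (∑ κ, ρ b κ * badf F κ x + ρ₀ b * falsified F x))
          ≤ 2 / δ * m := mul_le_mul_of_nonneg_left (hLm x) (by positivity)
        _ = T := by rw [hT]; ring
    calc ∑ x, ∑ C ∈ F, ∑ j, |μ C j| * (libf P g j x * LX.isFalse C x) ≤ ∑ _x : Asg n, T :=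
          Finset.sum_le_sum (fun x _ => h1 x)
      _ = T * 2 ^ n := by
          rw [Finset.sum_const, Finset.card_univ, Fintype.card_fun, Fintype.card_bool,
            Fintype.card_fin, nsmul_eq_mul]
          push_cast
          ring
  · have h1 : ∑ C ∈ F, ∑ j, |μ C j| ≤ 2 ^ k * (2 * T) := by
      have h2 : ∀ C ∈ F, ∑ j, |μ C j| = ∑ b, mu C b * 1 := by
        intro C _
        have := hμabs C (fun _ => 1)
        simpa using this
      rw [Finset.sum_congr rfl h2, Finset.sum_comm]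
      have h7 : ∀ b : Fin k → Bool, ∑ C ∈ F, mu C b * 1 ≤ 2 * T := by
        intro b
        rw [hmuF b (fun _ => 1)]
        have hρ₀1 : ρ₀ b ≤ 1 := by
          have hρs0 : 0 ≤ ∑ κ, ρ b κ := Finset.sum_nonneg (fun κ _ => hρ b κ)
          have := hsum b
          linarith
        have h3 : ∑ C ∈ F.attach, (∑ i, ρ b (Sum.inr (C, i))) * 1 ≤ ∑ κ, ρ b κ := by
          rw [Fintype.sum_sum_type (fun κ : Con n s r F => ρ b κ), Fintype.sum_prod_type]
          have h4 : 0 ≤ ∑ i : Fin s, ρ b (Sum.inl i) := Finset.sum_nonneg (fun i _ => hρ b _)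
          have h5 : ∑ C ∈ F.attach, (∑ i, ρ b (Sum.inr (C, i))) * 1
              = ∑ C : {C // C ∈ F}, ∑ i, ρ b (Sum.inr (C, i)) := by
            apply Finset.sum_congr rfl
            intro C _
            rw [mul_one]
          rw [h5]
          linarith
        have h4 : ρ₀ b * ∑ _C ∈ F, (1 : ℝ) ≤ ρ₀ b * m := by
          apply mul_le_mul_of_nonneg_left _ (hρ₀ b)
          rw [Finset.sum_const, nsmul_eq_mul, mul_one]
          exact_mod_cast hFm
        have h5 : ρ₀ b * m ≤ m := mul_le_of_le_one_left (by positivity) hρ₀1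
        have h8 := hsum b
        have h9 := hρ₀ b
        have h6 : ρ₀ b * ∑ _C ∈ F, (1 : ℝ) + ∑ C ∈ F.attach, (∑ i, ρ b (Sum.inr (C, i))) * 1
            ≤ 2 * m := by linarith
        calc (2 / δ) * (ρ₀ b * ∑ _C ∈ F, (1 : ℝ)
              + ∑ C ∈ F.attach, (∑ i, ρ b (Sum.inr (C, i))) * 1)
            ≤ (2 / δ) * (2 * m) := mul_le_mul_of_nonneg_left h6 (by positivity)
          _ = 2 * T := by rw [hT]; ring
      calc ∑ b, ∑ C ∈ F, mu C b * 1 ≤ ∑ _b : Fin k → Bool, 2 * T :=
            Finset.sum_le_sum (fun b _ => h7 b)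
        _ = 2 ^ k * (2 * T) := by rw [Finset.sum_const, Finset.card_univ, nsmul_eq_mul, hcb]
    have h2 : ∑ j, u j = ∑ b, (1 - E + 2 / δ * w₀ b) + (∑ y, (E + e y)
        + 2 ^ k * (Fintype.card (Con n s r F) * T)) := by
      rw [Fintype.sum_sum_type, Fintype.sum_sum_type]
      congr 1
      congr 1
      simp only [u, Sum.elim_inr]
      have := hu3 (fun _ => 1)
      simp only [mul_one] at this
      rw [this, Finset.sum_const, Finset.card_univ, nsmul_eq_mul, hcb, Finset.sum_const,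
        Finset.card_univ, nsmul_eq_mul]
    have h3 : ∑ y, (E + e y) ≤ 1 := by
      calc ∑ y, (E + e y) ≤ ∑ _y : Asg n, 2 * E := by
            apply Finset.sum_le_sum
            intro y _
            have := (abs_le.1 (heE y)).2
            linarith
        _ = 2 * 2 ^ n * E := by
            rw [Finset.sum_const, Finset.card_univ, Fintype.card_fun, Fintype.card_bool,
              Fintype.card_fin, nsmul_eq_mul]
            push_cast
            ring
        _ ≤ 1 := hE
    have h4 : ∑ b, (1 - E + 2 / δ * w₀ b) ≤ 2 ^ k * (1 + T) := by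
      calc ∑ b, (1 - E + 2 / δ * w₀ b) ≤ ∑ _b : Fin k → Bool, (1 + T) := by
            apply Finset.sum_le_sum
            intro b _
            have : 2 / δ * w₀ b ≤ T := by
              calc 2 / δ * w₀ b ≤ 2 / δ * m :=
                    mul_le_mul_of_nonneg_left (hw₀ b).2 (by positivity)
                _ = T := by rw [hT]; ring
            linarith
        _ = 2 ^ k * (1 + T) := by rw [Finset.sum_const, Finset.card_univ, nsmul_eq_mul, hcb]
    have h5 : (2 : ℝ) ^ k * ((Fintype.card (Con n s r F) : ℝ) * T)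
        ≤ 2 ^ k * ((s + m * r) * T) :=
      mul_le_mul_of_nonneg_left (mul_le_mul_of_nonneg_right hcard hT0.le) (by positivity)
    rw [h2]
    have h6 : 2 ^ k * T * ((s : ℝ) + m * r + 5)
        = 2 ^ k * ((s + m * r) * T) + 2 ^ k * (2 * T) + 2 ^ k * (1 + T)
          + 2 ^ k * (2 * T - 1) := by ring
    have h7 : (1 : ℝ) ≤ 2 ^ k * (2 * T - 1) := by
      calc (1 : ℝ) = 1 * 1 := by ring
        _ ≤ 2 ^ k * (2 * T - 1) := mul_le_mul h1k (by linarith) (by norm_num) (by positivity)
    rw [h6]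
    linarith

end Pool.Agent.TH689.RX
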