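import Mathlib
import Pool.Agent.TH689.LVStatic
import Pool.Agent.TH689.RXRank

/-!
Static proofs which are valid for some assignments, for some of the formulas of a class.
-/

set_option autoImplicit false
set_option linter.unusedSectionVars false

namespace Pool.Agent.TH689.RX

open Finset Pool.Agent.H538R2.SB Pool.Agent.TH689.LX

variable {n K b H : ℕ}

/-- the finite form of the lower bound -/
theorem avg_finite {N : ℕ} (hKb : K * b ≤ n) (hH : 2 ≤ H) {r l : ℝ}
    (hr : 0 < r) (hr1 : r ≤ 1) (hl : 0 ≤ l) {m₀ D : ℕ} (hD : D + m₀ ≤ H + 1) (hm₀ : 1 ≤ m₀)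
    (hlr : l * r ≤ 1) (hsm : (1 + 2 * H * (l * r)) ^ K ≤ 2)
    (hrq : 1 ≤ r ^ 2 * ((2 ^ b : ℕ) : ℝ)) {B T : ℝ} (hB0 : 0 ≤ B) (hT0 : 0 ≤ T)
    (G : Fin N → Asg n → ℝ) (hG0 : ∀ j x, 0 ≤ G j x) (hG1 : ∀ j x, G j x ≤ 1)
    (A 𝒴 : Finset (Fin K → (Fin b → Bool) → Fin H)) (hsub : 𝒴 ⊆ A) {a : ℝ}
    (hrow : ∀ y ∈ A, ∑ x : Fin K → (Fin b → Bool), ell (comp y x)
      = a * (Fintype.card (Fin K → (Fin b → Bool)) : ℝ))
    (hcol : ∀ x : Fin K → (Fin b → Bool), ∑ y ∈ A, ell (comp y x) = a * (A.card : ℝ))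
    (v : Asg n → ℝ) (hv0 : ∀ x, 0 ≤ v x) (hv1 : ∀ x, v x ≤ 1)
    (hrep : ∀ y ∈ 𝒴, ∃ (μ : Clause n → Fin N → ℝ) (u : Fin N → ℝ),
      (∀ j, 0 ≤ u j) ∧
      (∀ x, ∑ C ∈ form hKb y, ∑ j, μ C j * (G j x * isFalse C x) = v x + ∑ j, u j * G j x) ∧
      (∑ x, ∑ C ∈ form hKb y, ∑ j, |μ C j| * (G j x * isFalse C x) ≤ B * 2 ^ n) ∧
      ∑ C ∈ form hKb y, ∑ j, |μ C j| + ∑ j, u j ≤ T) :
    a * ((𝒴.card : ℝ) + A.card * ((∑ x, v x) / 2 ^ n) - A.card)
      ≤ (2 * (B * farE K H m₀ (l * r)) + farE K H m₀ (l * r)) * A.card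
      + ((2 * ((K ^ 2 * (2 ^ b) ^ 2 : ℕ) : ℝ) + 1) * ((N * 2 ^ n : ℕ) : ℝ) * T + 1)
        * ((4 * H : ℝ) ^ K * tailB K H (2 ^ b) l)
        * (Fintype.card (Fin K → (Fin b → Bool) → Fin H) : ℝ)
      + (T + 1) * ((4 * H : ℝ) ^ K * (1 / (r ^ 2 * ((2 ^ b : ℕ) : ℝ)) ^ D)) * A.card := by
  classical
  have hq : Fintype.card (Fin b → Bool) = 2 ^ b := by
    rw [Fintype.card_fun, Fintype.card_bool, Fintype.card_fin]
  have hV : 1 ≤ Fintype.card (Fin b → Bool) := by rw [hq]; exact Nat.one_le_two_pow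
  have h2n : (0 : ℝ) < 2 ^ n := by positivity
  have hcardA : (Fintype.card (Asg n) : ℝ) = 2 ^ n := by
    simp only [Asg, Fintype.card_fun, Fintype.card_bool, Fintype.card_fin]
    push_cast
    rfl
  have hrep' : ∀ y, ∃ (μ : Clause n → Fin N → ℝ) (u : Fin N → ℝ), y ∈ 𝒴 →
      (∀ j, 0 ≤ u j) ∧
      (∀ x, ∑ C ∈ form hKb y, ∑ j, μ C j * (G j x * isFalse C x) = v x + ∑ j, u j * G j x) ∧
      (∑ x, ∑ C ∈ form hKb y, ∑ j, |μ C j| * (G j x * isFalse C x) ≤ B * 2 ^ n) ∧
      ∑ C ∈ form hKb y, ∑ j, |μ C j| + ∑ j, u j ≤ T := by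
    intro y
    by_cases hy : y ∈ 𝒴
    · obtain ⟨μ, u, h⟩ := hrep y hy
      exact ⟨μ, u, fun _ => h⟩
    · exact ⟨fun _ _ => 0, fun _ => 0, fun h => absurd h hy⟩
  choose μ u hall using hrep'
  -- the sum over the representatives
  have hsumE : ∀ (y : Fin K → (Fin b → Bool) → Fin H) (φ : Clause n → ℝ),
      ∑ e, (if e ∈ reps hKb y then φ (cl hKb e) else 0) = ∑ C ∈ form hKb y, φ C := by
    intro y φ
    rw [← sum_reps hKb y φ, Finset.sum_ite_mem, Finset.univ_inter]
  -- the sum over the indices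
  have hsumK : ∀ (φ : Fin N → Asg n → ℝ),
      ∑ k : Fin N × Asg n, φ k.1 k.2 = ∑ z, ∑ j, φ j z := by
    intro φ
    rw [Fintype.sum_prod_type, Finset.sum_comm]
  have hterm : ∀ (y : Fin K → (Fin b → Bool) → Fin H) (x : Fin K → (Fin b → Bool))
      (ν : Clause n → Fin N → ℝ),
      ∑ e, ∑ k : Fin N × Asg n, (if e ∈ reps hKb y then ν (cl hKb e) k.1 / 2 ^ n else 0)
        * (G k.1 (glue k.2 x) * hit e x)
      = (∑ z, ∑ C ∈ form hKb y, ∑ j, ν C j * (G j (glue z x) * isFalse C (glue z x))) / 2 ^ n := by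
    intro y x ν
    have h1 : ∀ e, ∑ k : Fin N × Asg n,
        (if e ∈ reps hKb y then ν (cl hKb e) k.1 / 2 ^ n else 0) * (G k.1 (glue k.2 x) * hit e x)
        = if e ∈ reps hKb y then
          (∑ z, ∑ j, ν (cl hKb e) j * (G j (glue z x) * isFalse (cl hKb e) (glue z x))) / 2 ^ n
          else 0 := by
      intro e
      by_cases he : e ∈ reps hKb y
      · simp only [if_pos he]
        rw [hsumK (fun j z => ν (cl hKb e) j / 2 ^ n * (G j (glue z x) * hit e x)),
          Finset.sum_div]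
        apply Finset.sum_congr rfl
        intro z _
        rw [Finset.sum_div]
        apply Finset.sum_congr rfl
        intro j _
        rw [isFalse_cl]
        ring
      · simp only [if_neg he, zero_mul, Finset.sum_const_zero]
    rw [Finset.sum_congr rfl (fun e _ => h1 e),
      hsumE y (fun C => (∑ z, ∑ j, ν C j * (G j (glue z x) * isFalse C (glue z x))) / 2 ^ n),
      ← Finset.sum_div, Finset.sum_comm]
  have hmain := factor_avg (K := K) (H := H) (V := Fin b → Bool) hH hV hr hr1 hl hD hm₀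
    hlr hsm (by rw [hq]; exact hrq) (B := B) (T := T) hB0 hT0 (κ := Fin N × Asg n)
    (fun k x => G k.1 (glue k.2 x)) (fun k x => hG0 _ _) (fun k x => hG1 _ _) A 𝒴 hsub hrow hcol
    (fun x => (∑ z : Asg n, v (glue z x)) / 2 ^ n)
    (fun x => div_nonneg (Finset.sum_nonneg (fun z _ => hv0 _)) h2n.le)
    (by
      intro x
      rw [div_le_one h2n]
      calc ∑ z : Asg n, v (glue z x) ≤ ∑ _z : Asg n, (1 : ℝ) :=
            Finset.sum_le_sum (fun z _ => hv1 _)
        _ = 2 ^ n := by rw [Finset.sum_const, Finset.card_univ, nsmul_eq_mul, mul_one, hcardA])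
    (fun e k y => if e ∈ reps hKb y then μ y (cl hKb e) k.1 / 2 ^ n else 0)
    (by
      intro e k y _ hne
      by_cases he : e ∈ reps hKb y
      · exact mem_reps hKb y he
      · exact absurd (if_neg he) hne)
    (fun k y => u y k.1 / 2 ^ n)
    (by
      intro k y hy
      exact div_nonneg ((hall y hy).1 _) h2n.le)
    (by
      intro y hy x
      obtain ⟨_, hfac, _, _⟩ := hall y hy
      rw [hterm y x (μ y), hsumK (fun j z => u y j / 2 ^ n * G j (glue z x)), Finset.sum_div,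
        Finset.sum_div, ← Finset.sum_add_distrib]
      apply Finset.sum_congr rfl
      intro z _
      rw [hfac (glue z x), add_div, Finset.sum_div]
      congr 1
      exact Finset.sum_congr rfl (fun j _ => by ring))
    (by
      intro y hy
      obtain ⟨_, _, hmass, _⟩ := hall y hy
      have h1 : ∀ x : Fin K → (Fin b → Bool), ∑ e, ∑ k : Fin N × Asg n,
          |(if e ∈ reps hKb y then μ y (cl hKb e) k.1 / 2 ^ n else 0)|
            * (G k.1 (glue k.2 x) * hit e x)
          = (∑ z, ∑ C ∈ form hKb y, ∑ j, |μ y C j| * (G j (glue z x) * isFalse C (glue z x)))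
            / 2 ^ n := by
        intro x
        rw [← hterm y x (fun C j => |μ y C j|)]
        apply Finset.sum_congr rfl
        intro e _
        apply Finset.sum_congr rfl
        intro k _
        congr 1
        split_ifs
        · rw [abs_div, abs_of_pos h2n]
        · exact abs_zero
      rw [Finset.sum_congr rfl (fun x _ => h1 x), ← Finset.sum_div, Finset.sum_comm,
        sum_glue hKb (fun X => ∑ C ∈ form hKb y, ∑ j, |μ y C j| * (G j X * isFalse C X)),
        div_le_iff₀ h2n]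
      calc (Fintype.card (Fin K → Fin b → Bool) : ℝ)
            * ∑ X, ∑ C ∈ form hKb y, ∑ j, |μ y C j| * (G j X * isFalse C X)
          ≤ (Fintype.card (Fin K → Fin b → Bool) : ℝ) * (B * 2 ^ n) :=
            mul_le_mul_of_nonneg_left hmass (by positivity)
        _ = _ := by ring)
    (by
      intro y hy
      obtain ⟨_, _, _, hsize⟩ := hall y hy
      refine le_trans (le_of_eq ?_) hsize
      congr 1
      · rw [← hsumE y]
        apply Finset.sum_congr rfl
        intro e _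
        by_cases he : e ∈ reps hKb y
        · simp only [if_pos he]
          rw [hsumK (fun j _ => |μ y (cl hKb e) j / 2 ^ n|), Finset.sum_const, Finset.card_univ,
            nsmul_eq_mul, hcardA, Finset.mul_sum]
          apply Finset.sum_congr rfl
          intro j _
          rw [abs_div, abs_of_pos h2n]
          field_simp
        · simp only [if_neg he, abs_zero, Finset.sum_const_zero]
      · rw [hsumK (fun j _ => u y j / 2 ^ n), Finset.sum_const, Finset.card_univ,
          nsmul_eq_mul, hcardA, Finset.mul_sum]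
        apply Finset.sum_congr rfl
        intro j _
        field_simp)
  rw [hq] at hmain
  have e1 : (Fintype.card ((Fin K × Fin K) × ((Fin b → Bool) × (Fin b → Bool))))
      = K ^ 2 * (2 ^ b) ^ 2 := by
    simp only [Fintype.card_prod, Fintype.card_fin, hq]
    ring
  have e2 : Fintype.card (Fin N × Asg n) = N * 2 ^ n := by
    simp only [Asg, Fintype.card_prod, Fintype.card_fin, Fintype.card_fun, Fintype.card_bool]
  rw [e1, e2] at hmain
  have hXpos : (0 : ℝ) < (Fintype.card (Fin K → (Fin b → Bool)) : ℝ) := by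
    exact_mod_cast Fintype.card_pos
  have e3 : ∑ x : Fin K → (Fin b → Bool), (∑ z : Asg n, v (glue z x)) / 2 ^ n
      = (Fintype.card (Fin K → (Fin b → Bool)) : ℝ) * ((∑ x, v x) / 2 ^ n) := by
    rw [← Finset.sum_div, Finset.sum_comm, sum_glue hKb v]
    ring
  rw [e3] at hmain
  set X : ℝ := (Fintype.card (Fin K → (Fin b → Bool)) : ℝ) with hX
  have e4 : a * (X * 𝒴.card + A.card * (X * ((∑ x, v x) / 2 ^ n)) - A.card * X)
      = X * (a * ((𝒴.card : ℝ) + A.card * ((∑ x, v x) / 2 ^ n) - A.card)) := by ring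
  rw [e4] at hmain
  refine le_of_mul_le_mul_left (hmain.trans (le_of_eq ?_)) hXpos
  ring

end Pool.Agent.TH689.RX
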