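import Mathlib
import Pool.Agent.TH689.RXPar
import Pool.Agent.TH689.RXStatic

/-!
The average-case lower bound for static proofs.
-/

set_option autoImplicit false

namespace Pool.Agent.TH689.RX

open Finset Filter Pool.Agent.H538R2.SB Pool.Agent.TH689.LX

/-- the average-case lower bound for given `n` and `m` -/
theorem avg_param (L : ℕ) (hL : 8 ≤ L) (n m : ℕ) (hn : 256 * L ^ 2 ≤ n)
    (hm1 : n ^ (256 * L ^ 2) ≤ m) (hm2 : m ^ (256 * L ^ 2) ≤ 2 ^ n) :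
    ∃ (M : ℕ) (F : Fin M → Finset (Clause n)), 0 < M ∧
      (∀ i, (F i).card ≤ m ∧ (∀ C ∈ F i, 2 ^ C.card ≤ m) ∧
        ∀ x, n ≤ L * Nat.log 2 m * falsified (F i) x) ∧
      ∀ (w N₀ : ℕ), w ^ (256 * L ^ 2) ≤ m →
        (3 * m * (N₀ * 2 ^ n * 2 ^ n) + 1) * 2 ^ (4 * n ^ 2) ≤ 2 ^ w →
      ∀ (G : Fin N₀ → Asg n → ℝ), (∀ j x, 0 ≤ G j x ∧ G j x ≤ 1) →
      ∀ (v : Asg n → ℝ), (∀ x, 0 ≤ v x ∧ v x ≤ 1) →
      ∀ (S : Finset (Fin M)),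
        1 + (2 : ℝ) ^ (-(n / (16 * L ^ 2 : ℝ)) : ℝ)
          ≤ (∑ x, v x) / 2 ^ n + (S.card : ℝ) / (M : ℝ) →
      ∀ (T : ℝ), (∀ i ∈ S, ∃ (μ : Clause n → Fin N₀ → ℝ) (u : Fin N₀ → ℝ), (∀ j, 0 ≤ u j) ∧
        (∀ x, ∑ C ∈ F i, ∑ j, μ C j * (G j x * isFalse C x) = v x + ∑ j, u j * G j x) ∧
        (∑ x, ∑ C ∈ F i, ∑ j, |μ C j| * (G j x * isFalse C x)
          ≤ (2 : ℝ) ^ (n / (16 * L ^ 2 : ℝ)) * 2 ^ n) ∧
        ∑ C ∈ F i, ∑ j, |μ C j| + ∑ j, u j ≤ T) →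
        (2 : ℝ) ^ ((1 - 8 / (L : ℝ)) * n) ≤ T := by
  obtain ⟨K, b, H, m₀, D, a, g, ν, hPar, hHm, hDm, hm₀1, hH2, hbpos, hK3, hKn, hK2g, hH2g, hgn,
    hKbm, h2bμ, hnm₀, h2ab, hwν⟩ := choose_par L hL n m hn hm1 hm2
  have hRP := hPar.toR
  have hga : 128 * g ≤ a := by exact_mod_cast hRP.ga
  obtain ⟨-, hg15, -, -, -, -, -, hKb, -, -, -, -, hν, -⟩ := hPar
  have hm0 : m ≠ 0 := by
    have : 0 < n ^ (256 * L ^ 2) := Nat.pow_pos (by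
      have : 8 ^ 2 ≤ L ^ 2 := Nat.pow_le_pow_left hL 2
      omega)
    omega
  have hμm : 2 ^ (Nat.log 2 m) ≤ m := Nat.pow_log_le_self 2 hm0
  have hK2gR : (K : ℝ) ≤ 2 ^ g := by exact_mod_cast hK2g
  have hHR : (H : ℝ) ≤ 2 ^ g := by exact_mod_cast hH2g
  have hLR : (8 : ℝ) ≤ L := by exact_mod_cast hL
  have hLpos : (0 : ℝ) < L := by linarith
  -- the parameters `r` and `l`
  obtain ⟨r, hr⟩ : ∃ r : ℝ, r = (1 / 2 : ℝ) ^ a := ⟨_, rfl⟩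
  have hr0 : 0 < r := by rw [hr]; positivity
  have hr1 : r ≤ 1 := by rw [hr]; exact pow_le_one₀ (by norm_num) (by norm_num)
  have hra : r * 2 ^ a = 1 := by
    rw [hr, ← mul_pow]; norm_num
  obtain ⟨l, hl⟩ : ∃ l : ℝ, l = (2 : ℝ) ^ ν := ⟨_, rfl⟩
  have hl0 : 0 ≤ l := by rw [hl]; positivity
  have hlr : l * r = (1 / 2 : ℝ) ^ (a - ν) := by
    have e2 : a = (a - ν) + ν := by omega
    have e3 : (1 / 2 : ℝ) ^ ν * 2 ^ ν = 1 := by rw [← mul_pow]; norm_num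
    calc l * r = 2 ^ ν * (1 / 2 : ℝ) ^ ((a - ν) + ν) := by rw [← e2, hl, hr]
      _ = (1 / 2 : ℝ) ^ (a - ν) * ((1 / 2 : ℝ) ^ ν * 2 ^ ν) := by rw [pow_add]; ring
      _ = _ := by rw [e3, mul_one]
  have hlr1 : l * r ≤ 1 := by rw [hlr]; exact pow_le_one₀ (by norm_num) (by norm_num)
  have hsm : (1 + 2 * H * (l * r)) ^ K ≤ 2 := small_num hga (by omega) hν hK2gR hHR hlr
  have hrq : (r ^ 2 * ((2 ^ b : ℕ) : ℝ)) = 2 ^ (b - 2 * a) := by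
    have e2 : ((2 ^ b : ℕ) : ℝ) = 2 ^ (b - 2 * a) * (2 ^ a) ^ 2 := by
      push_cast
      rw [← pow_mul, ← pow_add]
      congr 1
      omega
    rw [e2]
    calc r ^ 2 * (2 ^ (b - 2 * a) * (2 ^ a) ^ 2) = 2 ^ (b - 2 * a) * (r * 2 ^ a) ^ 2 := by ring
      _ = _ := by rw [hra]; ring
  have hrq1 : 1 ≤ r ^ 2 * ((2 ^ b : ℕ) : ℝ) := by
    rw [hrq]; exact one_le_pow₀ (by norm_num)
  -- the class of colourings
  have hq : Fintype.card (Fin b → Bool) = 2 ^ b := by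
    rw [Fintype.card_fun, Fintype.card_bool, Fintype.card_fin]
  obtain ⟨A, α, hα, hAne, hrow, hcol, hYA⟩ := exists_class (H := H) K (Fin b → Bool) (by omega)
    (by rw [hq]; exact Nat.one_le_two_pow)
  rw [hq] at hYA
  have hApos : 0 < A.card := Finset.card_pos.2 hAne
  have hAR : (0 : ℝ) < A.card := by exact_mod_cast hApos
  have hYA' : (Fintype.card (Fin K → (Fin b → Bool) → Fin H) : ℝ)
      ≤ 2 ^ (4 * n ^ 2) * A.card := hYA.trans (mul_le_mul_of_nonneg_right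
        (class_num hgn hbpos (by omega) hKb (by omega) hKn hHR) hAR.le)
  let f : Fin A.card → {y // y ∈ A} := A.equivFin.symm
  refine ⟨A.card, fun i => form hKb (f i).1, hApos, ?_, ?_⟩
  · intro i
    refine ⟨(form_card hKb (f i).1).trans hKbm, ?_, ?_⟩
    · intro C hC
      refine (Nat.pow_le_pow_right (by norm_num) (form_width hKb (f i).1 hC)).trans ?_
      exact (Nat.pow_le_pow_right (by norm_num) h2bμ).trans hμm
    · intro x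
      have h3 : m₀ ≤ falsified (form hKb (f i).1) x := by
        rw [falsified_form hbpos]
        have := viol_ge (comp (f i).1 (blocks hKb x))
        omega
      exact hnm₀.trans (Nat.mul_le_mul_left _ h3)
  intro w N₀ hw hN₀ G hG v hv S hSv T hrep0
  by_contra hcon
  push Not at hcon
  -- the refuted formulas
  let 𝒴 : Finset (Fin K → (Fin b → Bool) → Fin H) :=
    S.map ⟨fun i => (f i).1, fun i j hij => A.equivFin.symm.injective (Subtype.ext hij)⟩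
  have h𝒴card : 𝒴.card = S.card := Finset.card_map _
  have h𝒴sub : 𝒴 ⊆ A := by
    intro y hy
    obtain ⟨i, _, rfl⟩ := Finset.mem_map.1 hy
    exact (f i).2
  obtain ⟨T₀, hT₀⟩ : ∃ T₀ : ℝ, T₀ = (2 : ℝ) ^ ((1 - 8 / (L : ℝ)) * n) := ⟨_, rfl⟩
  rw [← hT₀] at hcon
  obtain ⟨γ, hγ⟩ : ∃ γ : ℝ, γ = (2 : ℝ) ^ (-(n / (16 * L ^ 2 : ℝ)) : ℝ) := ⟨_, rfl⟩
  rw [← hγ] at hSv
  have hγ0 : 0 < γ := by rw [hγ]; positivity
  have hγinv : (2 : ℝ) ^ (n / (16 * L ^ 2 : ℝ)) = 1 / γ := by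
    rw [hγ, Real.rpow_neg (by norm_num), one_div, inv_inv]
  rw [hγinv] at hrep0
  have hrep : ∀ y ∈ 𝒴, ∃ (ξ : Clause n → Fin N₀ → ℝ) (u : Fin N₀ → ℝ),
      (∀ j, 0 ≤ u j) ∧
      (∀ x, ∑ C ∈ form hKb y, ∑ j, ξ C j * (G j x * isFalse C x) = v x + ∑ j, u j * G j x) ∧
      (∑ x, ∑ C ∈ form hKb y, ∑ j, |ξ C j| * (G j x * isFalse C x) ≤ (1 / γ) * 2 ^ n) ∧
      ∑ C ∈ form hKb y, ∑ j, |ξ C j| + ∑ j, u j ≤ T₀ := by
    intro y hy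
    obtain ⟨i, hi, rfl⟩ := Finset.mem_map.1 hy
    obtain ⟨ξ, u, h3, h4, h5, h6⟩ := hrep0 i hi
    exact ⟨ξ, u, h3, h4, h5, h6.trans hcon.le⟩
  have hT₀1 : 1 ≤ T₀ := by
    rw [hT₀]
    apply Real.one_le_rpow (by norm_num)
    apply mul_nonneg _ (by positivity)
    have : 8 / (L : ℝ) ≤ 1 := by rw [div_le_one hLpos]; exact hLR
    linarith
  have hfin := avg_finite (n := n) (K := K) (b := b) (H := H) (N := N₀) hKb hH2
    hr0 hr1 hl0 (m₀ := m₀) (D := D) (by omega) hm₀1 hlr1 hsm hrq1 (B := 1 / γ) (T := T₀)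
    (by positivity) (by linarith) G (fun j x => (hG j x).1) (fun j x => (hG j x).2) A 𝒴 h𝒴sub
    hrow hcol v (fun x => (hv x).1) (fun x => (hv x).2) hrep
  clear hrep hrep0 hrow hcol hsm hYA
  -- the numbers
  obtain ⟨δ₀, hδ₀⟩ : ∃ δ₀ : ℝ, δ₀ = (2 : ℝ) ^ (-((n : ℝ) * (1 / (L : ℝ)) ^ 2 / 8)) := ⟨_, rfl⟩
  have hδ₀0 : 0 < δ₀ := by rw [hδ₀]; positivity
  have hγδ : γ * γ = δ₀ := by
    rw [hγ, hδ₀, ← Real.rpow_add (by norm_num)]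
    congr 1
    field_simp
    ring
  have hγ2 : γ ≤ 1 / 2 := by
    rw [hγ]
    have h3 : (1 : ℝ) ≤ n / (16 * L ^ 2 : ℝ) := by
      rw [le_div_iff₀ (by positivity)]
      have h4 : ((256 * L ^ 2 : ℕ) : ℝ) ≤ n := by exact_mod_cast hn
      push_cast at h4
      have : (0 : ℝ) ≤ (L : ℝ) ^ 2 := by positivity
      linarith
    calc (2 : ℝ) ^ (-(n / (16 * L ^ 2 : ℝ)) : ℝ) ≤ (2 : ℝ) ^ (-1 : ℝ) :=
          Real.rpow_le_rpow_of_exponent_le (by norm_num) (by linarith)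
      _ = 1 / 2 := by rw [Real.rpow_neg_one]; norm_num
  have hfar := far_num (m₀ := m₀) hRP hν hK2gR hHR hlr
  rw [← hδ₀] at hfar
  obtain ⟨N, hN⟩ : ∃ N, N = (3 * m * (N₀ * 2 ^ n * 2 ^ n) + 1) * 2 ^ (4 * n ^ 2) := ⟨_, rfl⟩
  rw [← hN] at hN₀
  have hlw : (w : ℝ) + 16 * n ≤ l ^ 2 / 2 := by
    have h9 := hwν w hw
    have h10 : ((2 * (w + 16 * n) : ℕ) : ℝ) ≤ (((2 ^ ν) ^ 2 : ℕ) : ℝ) := by exact_mod_cast h9
    push_cast at h10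
    rw [hl]
    linarith
  have htail := tail_num hRP hK2gR hHR hN₀ hlw
  rw [← hδ₀] at htail
  have hmainE : (K : ℝ) ^ 2 * ((4 * H : ℝ) ^ K * (1 / (r ^ 2 * ((2 ^ b : ℕ) : ℝ)) ^ D))
      ≤ (2 : ℝ) ^ (2 * (g : ℝ) + (((g : ℝ) + 2) * K + -(((b : ℝ) - 2 * a) * (K - 2 * m₀)))) := by
    have hDR : (D : ℝ) = K - 2 * m₀ := by
      have : ((D + 2 * m₀ : ℕ) : ℝ) = K := by exact_mod_cast hDm
      push_cast at this
      linarith
    have h3 : (1 / (r ^ 2 * ((2 ^ b : ℕ) : ℝ)) ^ D)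
        = (2 : ℝ) ^ (-(((b : ℝ) - 2 * a) * (K - 2 * m₀))) := by
      rw [hrq, ← pow_mul, one_div, Real.rpow_neg (by norm_num), ← Real.rpow_natCast, ← hDR]
      congr 2
      push_cast [Nat.cast_sub h2ab]
      ring
    rw [h3, Real.rpow_add (by norm_num), Real.rpow_add (by norm_num)]
    apply mul_le_mul (Ksq_le hK2gR) _ (by positivity) (by positivity)
    exact mul_le_mul_of_nonneg_right (pow4H_le hHR) (by positivity)
  have hfar0 : 0 ≤ farE K H m₀ (l * r) := by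
    have : 0 ≤ l * r := mul_nonneg hl0 hr0.le
    unfold farE; positivity
  have hτ0 : 0 ≤ (4 * H : ℝ) ^ K * tailB K H (2 ^ b) l := by
    unfold tailB
    positivity
  have hκ0 : 0 ≤ (4 * H : ℝ) ^ K * (1 / (r ^ 2 * ((2 ^ b : ℕ) : ℝ)) ^ D) := by
    have : 0 < r ^ 2 * ((2 ^ b : ℕ) : ℝ) := lt_of_lt_of_le one_pos hrq1
    positivity
  generalize hφ : farE K H m₀ (l * r) = φ at *
  generalize hτ : (4 * H : ℝ) ^ K * tailB K H (2 ^ b) l = τ at *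
  generalize hκ : (4 * H : ℝ) ^ K * (1 / (r ^ 2 * ((2 ^ b : ℕ) : ℝ)) ^ D) = κ at *
  clear hφ hτ hκ hrq hrq1 hlr hlr1 hra hr hr0 hr1 hl hl0 hlw
  have hK2 : (6 : ℝ) ≤ (K : ℝ) ^ 2 := by
    have h3 : (3 : ℝ) ≤ K := by exact_mod_cast hK3
    have h4 : (3 : ℝ) * 3 ≤ K * K := mul_le_mul h3 h3 (by norm_num) (by linarith)
    rw [sq]
    linarith
  have hT₀n : T₀ ≤ (2 : ℝ) ^ n := by
    rw [hT₀, ← Real.rpow_natCast]
    apply Real.rpow_le_rpow_of_exponent_le (by norm_num)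
    have : 0 ≤ 8 / (L : ℝ) * n := by positivity
    linarith
  -- the far part
  have hterm1 : 2 * (1 / γ * φ) + φ ≤ γ / 8 := by
    have h3 : 6 * φ ≤ δ₀ / 4 := (mul_le_mul_of_nonneg_right hK2 hfar0).trans hfar
    have h4 : φ ≤ 1 / γ * φ := by
      apply le_mul_of_one_le_left hfar0
      rw [le_div_iff₀ hγ0]
      linarith
    have h5 : 1 / γ * φ ≤ γ / 24 := by
      rw [one_div, inv_mul_le_iff₀ hγ0]
      have e1 : γ * (γ / 24) = δ₀ / 24 := by rw [← hγδ]; ring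
      rw [e1]
      linarith
    linarith
  -- the tail
  have hterm2 : ((2 * ((K ^ 2 * (2 ^ b) ^ 2 : ℕ) : ℝ) + 1) * ((N₀ * 2 ^ n : ℕ) : ℝ) * T₀ + 1)
      * τ * 2 ^ (4 * n ^ 2) ≤ γ / 8 := by
    have h3 : 2 * ((K ^ 2 * (2 ^ b) ^ 2 : ℕ) : ℝ) + 1 ≤ 3 * m := by
      have : 2 * (K ^ 2 * (2 ^ b) ^ 2) + 1 ≤ 3 * m := by omega
      exact_mod_cast this
    have h4 : ((2 * ((K ^ 2 * (2 ^ b) ^ 2 : ℕ) : ℝ) + 1) * ((N₀ * 2 ^ n : ℕ) : ℝ) * T₀ + 1)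
        * 2 ^ (4 * n ^ 2) ≤ ((N + 1 : ℕ) : ℝ) := by
      calc ((2 * ((K ^ 2 * (2 ^ b) ^ 2 : ℕ) : ℝ) + 1) * ((N₀ * 2 ^ n : ℕ) : ℝ) * T₀ + 1)
            * 2 ^ (4 * n ^ 2)
          ≤ ((3 * m) * ((N₀ * 2 ^ n : ℕ) : ℝ) * 2 ^ n + 1) * 2 ^ (4 * n ^ 2) := by
            apply mul_le_mul_of_nonneg_right _ (by positivity)
            have h5 : (2 * ((K ^ 2 * (2 ^ b) ^ 2 : ℕ) : ℝ) + 1) * ((N₀ * 2 ^ n : ℕ) : ℝ) * T₀
                ≤ (3 * m) * ((N₀ * 2 ^ n : ℕ) : ℝ) * 2 ^ n := by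
              apply mul_le_mul _ hT₀n (by linarith) (by positivity)
              exact mul_le_mul_of_nonneg_right h3 (by positivity)
            linarith
        _ = (N : ℝ) := by rw [hN]; push_cast; ring
        _ ≤ ((N + 1 : ℕ) : ℝ) := by push_cast; linarith
    calc ((2 * ((K ^ 2 * (2 ^ b) ^ 2 : ℕ) : ℝ) + 1) * ((N₀ * 2 ^ n : ℕ) : ℝ) * T₀ + 1)
          * τ * 2 ^ (4 * n ^ 2)
        = (((2 * ((K ^ 2 * (2 ^ b) ^ 2 : ℕ) : ℝ) + 1) * ((N₀ * 2 ^ n : ℕ) : ℝ) * T₀ + 1)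
          * 2 ^ (4 * n ^ 2)) * τ := by ring
      _ ≤ ((N + 1 : ℕ) : ℝ) * τ := mul_le_mul_of_nonneg_right h4 hτ0
      _ ≤ ((N + 1 : ℕ) : ℝ) * ((K : ℝ) ^ 2 * τ) := by
          apply mul_le_mul_of_nonneg_left _ (by positivity)
          have : 1 * τ ≤ (K : ℝ) ^ 2 * τ := mul_le_mul_of_nonneg_right (by linarith) hτ0
          linarith
      _ ≤ δ₀ / 4 := htail
      _ = γ * (γ / 4) := by rw [← hγδ]; ring
      _ ≤ (1 / 2) * (γ / 4) := mul_le_mul_of_nonneg_right hγ2 (by positivity)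
      _ = γ / 8 := by ring
  -- the left hand side
  have hleft : γ / 2 * A.card ≤ α * ((𝒴.card : ℝ) + A.card * ((∑ x, v x) / 2 ^ n) - A.card) := by
    have h3 : γ * A.card ≤ (𝒴.card : ℝ) + A.card * ((∑ x, v x) / 2 ^ n) - A.card := by
      rw [h𝒴card]
      have h4 := mul_le_mul_of_nonneg_right hSv hAR.le
      have e1 : ((∑ x, v x) / 2 ^ n + (S.card : ℝ) / (A.card : ℝ)) * A.card
          = A.card * ((∑ x, v x) / 2 ^ n) + S.card := by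
        field_simp
      rw [e1] at h4
      linarith
    calc γ / 2 * A.card = 1 / 2 * (γ * A.card) := by ring
      _ ≤ α * (γ * A.card) := mul_le_mul_of_nonneg_right hα (by positivity)
      _ ≤ _ := mul_le_mul_of_nonneg_left h3 (by linarith)
  have htail2 : ((2 * ((K ^ 2 * (2 ^ b) ^ 2 : ℕ) : ℝ) + 1) * ((N₀ * 2 ^ n : ℕ) : ℝ) * T₀ + 1)
      * τ * (Fintype.card (Fin K → (Fin b → Bool) → Fin H) : ℝ) ≤ γ / 8 * A.card := by
    refine (mul_le_mul_of_nonneg_left hYA' (by positivity)).trans ?_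
    rw [← mul_assoc]
    exact mul_le_mul_of_nonneg_right hterm2 hAR.le
  have hquarter : γ / 4 ≤ (T₀ + 1) * κ := by
    have h3 := hleft.trans hfin
    have h4 : (2 * (1 / γ * φ) + φ) * A.card ≤ γ / 8 * A.card :=
      mul_le_mul_of_nonneg_right hterm1 hAR.le
    have h5 : γ / 4 * A.card ≤ (T₀ + 1) * κ * A.card := by linarith
    exact le_of_mul_le_mul_right h5 hAR
  clear hleft hfin htail2 hYA' hterm2 hterm1 htail hfar
  obtain ⟨E2, hE2⟩ : ∃ E2 : ℝ, E2 = 2 * (g : ℝ) + (((g : ℝ) + 2) * K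
    + -(((b : ℝ) - 2 * a) * (K - 2 * m₀))) := ⟨_, rfl⟩
  rw [← hE2] at hmainE
  have h3 : δ₀ / 2 ≤ (T₀ + 1) * (2 : ℝ) ^ E2 := by
    have h4 := mul_le_mul_of_nonneg_left hmainE (show 0 ≤ T₀ + 1 by linarith)
    refine le_trans ?_ h4
    have h5 : δ₀ / 2 ≤ γ / 4 := by
      calc δ₀ / 2 = γ * (γ / 2) := by rw [← hγδ]; ring
        _ ≤ (1 / 2) * (γ / 2) := mul_le_mul_of_nonneg_right hγ2 (by positivity)
        _ = γ / 4 := by ring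
    have h6 : (T₀ + 1) * κ ≤ (T₀ + 1) * ((K : ℝ) ^ 2 * κ) := by
      apply mul_le_mul_of_nonneg_left _ (by linarith)
      have : 1 * κ ≤ (K : ℝ) ^ 2 * κ := mul_le_mul_of_nonneg_right (by linarith) hκ0
      linarith
    linarith
  have hs : (2 : ℝ) ^ (-((n : ℝ) * (1 / (L : ℝ)) ^ 2 / 8) - 1 - E2 : ℝ) ≤ T₀ + 1 := by
    have e1 : (2 : ℝ) ^ (-((n : ℝ) * (1 / (L : ℝ)) ^ 2 / 8) - 1 - E2 : ℝ)
        = (δ₀ / 2) / (2 : ℝ) ^ E2 := by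
      rw [Real.rpow_sub (by norm_num), Real.rpow_sub (by norm_num), Real.rpow_one, hδ₀]
    rw [e1, div_le_iff₀ (by positivity)]
    exact h3
  have hbig : 4 * T₀ ≤ (2 : ℝ) ^ (-((n : ℝ) * (1 / (L : ℝ)) ^ 2 / 8) - 1 - E2 : ℝ) := by
    have e1 : 4 * T₀ = (2 : ℝ) ^ ((1 - 8 * (1 / (L : ℝ))) * n + 2) := by
      rw [Real.rpow_add (by norm_num), hT₀, mul_one_div]
      norm_num
      ring
    rw [e1]
    apply Real.rpow_le_rpow_of_exponent_le (by norm_num)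
    rw [hE2]
    exact hRP.main
  linarith

end Pool.Agent.TH689.RX
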