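import Mathlib
import Pool.Agent.TH689.RXLib
import Pool.Agent.TH689.RXParam

/-!
The lower bound for mixed-integer convex programming relaxations which may be wrong.
-/

set_option autoImplicit false

namespace Pool.Agent.TH689.RX

open Finset Pool.Agent.H538R2.SB Pool.Agent.TH689.LX

lemma card_idx {n k s r D : ℕ} (hn : 1 ≤ n) (hk : k ≤ n) (hs : s + r < 2 ^ n) :
    Fintype.card (Idx n k s r D) ≤ 2 ^ (4 * n + (8 * n + 2) * (D + 2) + 2) := by
  have h1 : Fintype.card (Idx n k s r D)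
      = 2 ^ k + (2 ^ n + (s + 2 ^ (n * 2) * r) * 2 ^ k * (netM n D + 1)) := by
    simp only [Idx, Con0, Clause, Asg, Fintype.card_prod, Fintype.card_fun, Fintype.card_sum,
      Fintype.card_fin, Fintype.card_finset, Fintype.card_bool]
  set M := netM n D with hM
  have hM2 : M = 2 ^ ((8 * n + 2) * (D + 2)) := by
    rw [hM]
    unfold netM
    rw [← pow_mul]
  have hM1 : 1 ≤ M := by rw [hM2]; exact Nat.one_le_two_pow
  have hkn : 2 ^ k ≤ 2 ^ n := Nat.pow_le_pow_right (by norm_num) hk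
  have h2 : s + 2 ^ (n * 2) * r ≤ 2 ^ (3 * n) := by
    have h3 : 1 ≤ 2 ^ (n * 2) := Nat.one_le_two_pow
    calc s + 2 ^ (n * 2) * r ≤ 2 ^ (n * 2) * s + 2 ^ (n * 2) * r := by
          apply Nat.add_le_add_right
          exact Nat.le_mul_of_pos_left _ h3
      _ = 2 ^ (n * 2) * (s + r) := by ring
      _ ≤ 2 ^ (n * 2) * 2 ^ n := Nat.mul_le_mul_left _ hs.le
      _ = 2 ^ (3 * n) := by rw [← pow_add]; congr 1; ring
  have h3 : (s + 2 ^ (n * 2) * r) * 2 ^ k * (M + 1)
      ≤ 2 * 2 ^ (4 * n + (8 * n + 2) * (D + 2)) := by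
    calc (s + 2 ^ (n * 2) * r) * 2 ^ k * (M + 1) ≤ 2 ^ (3 * n) * 2 ^ n * (2 * M) :=
          Nat.mul_le_mul (Nat.mul_le_mul h2 hkn) (by omega)
      _ = 2 * 2 ^ (4 * n + (8 * n + 2) * (D + 2)) := by
          rw [hM2, pow_add, show 4 * n = 3 * n + n by ring, pow_add]; ring
  have h4 : 2 ^ n ≤ 2 ^ (4 * n + (8 * n + 2) * (D + 2)) :=
    Nat.pow_le_pow_right (by norm_num) (by omega)
  have h6 : 2 ^ (4 * n + (8 * n + 2) * (D + 2) + 2)
      = 4 * 2 ^ (4 * n + (8 * n + 2) * (D + 2)) := by rw [pow_add]; ring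
  rw [h1, ← hM, h6]
  omega

lemma correct_sum {n k s r D : ℕ} (P : Scheme n k s r D) :
    P.correctRate = (∑ x, vld P x) / 2 ^ n := by
  classical
  unfold Scheme.correctRate vld
  congr 1
  rw [Finset.sum_boole, Set.ncard_eq_toFinset_card']
  congr 2
  ext x
  simp

/-- The lower bound for one scheme. -/
theorem rx_det (ε : ℝ) (hε : 0 < ε) : ∃ c : ℕ, 1 ≤ c ∧ ∀ n m : ℕ, c ≤ n → n ^ c ≤ m →
    m ^ c ≤ 2 ^ n → ∃ (M : ℕ) (F : Fin M → Finset (Clause n)), 0 < M ∧
      (∀ i, (F i).card ≤ m ∧ (∀ C ∈ F i, 2 ^ C.card ≤ m) ∧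
        ∀ x, n ≤ c * Nat.log 2 m * falsified (F i) x) ∧
      ∀ (D : ℕ), D ^ c ≤ m → ∀ (k s r : ℕ) (P : Scheme n k s r D),
        1 + (2 : ℝ) ^ (-((n : ℝ) / c))
          ≤ P.correctRate + P.refutedRate F ((2 : ℝ) ^ (-((n : ℝ) / c))) →
        (2 : ℝ) ^ ((1 - ε) * n) ≤ 2 ^ k * (s + r + 1) := by
  classical
  obtain ⟨L, hL8, hLε⟩ : ∃ L : ℕ, 8 ≤ L ∧ 8 / (L : ℝ) ≤ ε / 2 := by
    obtain ⟨L, hL⟩ := exists_nat_gt (8 / (ε / 2))
    refine ⟨L + 8, by omega, ?_⟩
    rw [div_le_iff₀ (by positivity)]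
    rw [div_lt_iff₀ (by linarith)] at hL
    push_cast
    linarith
  have hLsq : 64 ≤ L ^ 2 := by
    calc 64 = 8 ^ 2 := by norm_num
      _ ≤ L ^ 2 := Nat.pow_le_pow_left hL8 2
  set c₀ := 256 * L ^ 2 with hc₀d
  have hc₀ : 16384 ≤ c₀ := by omega
  obtain ⟨c₁, hc₁⟩ := exists_nat_ge (14 / ε)
  refine ⟨8 * c₀ + 36 + c₁, by omega, ?_⟩
  intro n m hn hm1 hm2
  set c := 8 * c₀ + 36 + c₁ with hc
  have hn8 : 36 ≤ n := by omega
  have hm0 : 0 < m := lt_of_lt_of_le (Nat.pow_pos (by omega)) hm1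
  have hm1' : n ^ c₀ ≤ m := (Nat.pow_le_pow_right (by omega) (by omega)).trans hm1
  have hm2' : m ^ c₀ ≤ 2 ^ n := (Nat.pow_le_pow_right (by omega) (by omega)).trans hm2
  obtain ⟨M, F, hM, hF, hmain⟩ := avg_param L hL8 n m (by omega) hm1' hm2'
  refine ⟨M, F, hM, ?_, ?_⟩
  · intro i
    obtain ⟨h1, h2, h3⟩ := hF i
    refine ⟨h1, h2, fun x => (h3 x).trans ?_⟩
    apply Nat.mul_le_mul_right
    apply Nat.mul_le_mul_right
    have : L ≤ L ^ 2 := Nat.le_self_pow (by norm_num) L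
    omega
  intro D hD k s r P hR
  -- the case of many constraints or many binary variables
  by_cases hs : 2 ^ n ≤ s + r ∨ n ≤ k
  · have h5 : ((2 ^ n : ℕ) : ℝ) ≤ ((2 ^ k * (s + r + 1) : ℕ) : ℝ) := by
      rcases hs with hs | hs
      · have h6 : 2 ^ n ≤ 2 ^ k * (s + r + 1) :=
          (hs.trans (by omega : s + r ≤ s + r + 1)).trans
            (Nat.le_mul_of_pos_left _ Nat.one_le_two_pow)
        exact_mod_cast h6
      · have h6 : 2 ^ n ≤ 2 ^ k * (s + r + 1) :=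
          (Nat.pow_le_pow_right (by norm_num) hs).trans (Nat.le_mul_of_pos_right _ (by omega))
        exact_mod_cast h6
    push_cast at h5
    refine le_trans ?_ h5
    rw [← Real.rpow_natCast]
    apply Real.rpow_le_rpow_of_exponent_le (by norm_num)
    have : 0 ≤ ε * (n : ℝ) := by positivity
    linarith
  push Not at hs
  obtain ⟨hs, hk⟩ := hs
  have hmn : m ≤ 2 ^ n := by
    calc m = m ^ 1 := (pow_one m).symm
      _ ≤ m ^ c₀ := Nat.pow_le_pow_right (by omega) (by omega)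
      _ ≤ 2 ^ n := hm2'
  set w₀ := 4 * n + (8 * n + 2) * (D + 2) + 2 with hw₀
  set N₀ := Fintype.card (Idx n k s r D) with hN₀
  have hN₀w : N₀ ≤ 2 ^ w₀ := card_idx (by omega) hk.le hs
  set w := w₀ + 3 * n + 2 + 4 * n ^ 2 with hw
  have hNw : (3 * m * (N₀ * 2 ^ n * 2 ^ n) + 1) * 2 ^ (4 * n ^ 2) ≤ 2 ^ w := by
    have h1 : 3 * m * (N₀ * 2 ^ n * 2 ^ n) ≤ 3 * (2 ^ n * (2 ^ w₀ * 2 ^ n * 2 ^ n)) := by
      calc 3 * m * (N₀ * 2 ^ n * 2 ^ n) = 3 * (m * (N₀ * 2 ^ n * 2 ^ n)) := by ring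
        _ ≤ 3 * (2 ^ n * (2 ^ w₀ * 2 ^ n * 2 ^ n)) := by
            apply Nat.mul_le_mul_left
            apply Nat.mul_le_mul hmn
            exact Nat.mul_le_mul_right _ (Nat.mul_le_mul_right _ hN₀w)
    have h2 : 1 ≤ 2 ^ n * (2 ^ w₀ * 2 ^ n * 2 ^ n) := Nat.mul_pos (by positivity) (by positivity)
    have h3 : 2 ^ w = (4 * (2 ^ n * (2 ^ w₀ * 2 ^ n * 2 ^ n))) * 2 ^ (4 * n ^ 2) := by
      rw [hw]
      ring
    rw [h3]
    apply Nat.mul_le_mul_right
    omega
  have hwm : w ^ c₀ ≤ m := by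
    set v := max D 1 with hv
    have hv1 : 1 ≤ v := le_max_right _ _
    have hvm : v ^ c ≤ m := by
      rcases max_choice D 1 with h | h
      · rw [hv, h]; exact hD
      · rw [hv, h, one_pow]; exact hm0
    have h1 : w ≤ n ^ 3 * v := by
      have hDv : D ≤ v := le_max_left _ _
      have h2 : w₀ ≤ 36 * (n * v) := by
        have h3 : n * D ≤ n * v := Nat.mul_le_mul_left _ hDv
        have h4 : n ≤ n * v := Nat.le_mul_of_pos_right _ (by omega)
        have h5 : v ≤ n * v := Nat.le_mul_of_pos_left _ (by omega)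
        have h6 : (8 * n + 2) * (D + 2) = 8 * (n * D) + 16 * n + 2 * D + 4 := by ring
        rw [hw₀, h6]
        omega
      have h7 : 36 * (n * v) ≤ n * n * v := by
        calc 36 * (n * v) = 36 * n * v := by ring
          _ ≤ n * n * v := Nat.mul_le_mul_right _ (Nat.mul_le_mul_right _ hn8)
      have h8 : 3 * n + 2 + 4 * n ^ 2 ≤ 5 * (n * n) := by
        have : 36 * n ≤ n * n := Nat.mul_le_mul_right _ hn8
        have h9 : n ^ 2 = n * n := by ring
        rw [h9]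
        omega
      have h9 : 5 * (n * n) ≤ 5 * (n * n * v) :=
        Nat.mul_le_mul_left _ (Nat.le_mul_of_pos_right _ (by omega))
      calc w ≤ 6 * (n * n * v) := by omega
        _ ≤ n * (n * n * v) := Nat.mul_le_mul_right _ (by omega)
        _ = n ^ 3 * v := by ring
    have h2 : (w ^ c₀) ^ 4 ≤ m ^ 4 := by
      calc (w ^ c₀) ^ 4 ≤ ((n ^ 3 * v) ^ c₀) ^ 4 :=
            Nat.pow_le_pow_left (Nat.pow_le_pow_left h1 _) _
        _ = (n ^ (6 * c₀)) ^ 2 * v ^ (4 * c₀) := by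
            rw [mul_pow, mul_pow, ← pow_mul, ← pow_mul, ← pow_mul, ← pow_mul]
            congr 1
            · congr 1; ring
            · congr 1; ring
        _ ≤ (n ^ c) ^ 2 * v ^ c := by
            apply Nat.mul_le_mul
            · exact Nat.pow_le_pow_left (Nat.pow_le_pow_right (by omega) (by omega)) _
            · exact Nat.pow_le_pow_right hv1 (by omega)
        _ ≤ m ^ 2 * m := Nat.mul_le_mul (Nat.pow_le_pow_left hm1 _) hvm
        _ = m ^ 3 := by ring
        _ ≤ m ^ 4 := Nat.pow_le_pow_right hm0 (by norm_num)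
    exact (Nat.pow_le_pow_iff_left (by norm_num : (4 : ℕ) ≠ 0)).1 h2
  obtain ⟨g, hg, hgnet⟩ := exists_lib P
  let e : Idx n k s r D ≃ Fin N₀ := Fintype.equivFin _
  set δ : ℝ := (2 : ℝ) ^ (-((n : ℝ) / c)) with hδ
  have hcpos : (0 : ℝ) < c := by exact_mod_cast (by omega : 0 < c)
  have hnpos : (0 : ℝ) < n := by exact_mod_cast (by omega : 0 < n)
  have hcn : (c : ℝ) ≤ n := by exact_mod_cast hn
  have hc1 : (1 : ℝ) ≤ c := by exact_mod_cast (by omega : 1 ≤ c)
  have hδ0 : 0 < δ := by positivity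
  have hδ1 : δ < 1 := by
    rw [hδ]
    apply Real.rpow_lt_one_of_one_lt_of_neg (by norm_num)
    have : 0 < (n : ℝ) / c := by positivity
    linarith
  set q : ℝ := (2 : ℝ) ^ ((n : ℝ) / c) with hq
  have hq0 : 0 < q := by positivity
  have hδq : δ * q = 1 := by
    rw [hδ, hq, ← Real.rpow_add (by norm_num), neg_add_cancel, Real.rpow_zero]
  have h1δ : 1 / δ = q := by
    rw [div_eq_iff hδ0.ne', mul_comm]; exact hδq.symm
  have hq2 : 2 ≤ q := by
    rw [hq]
    calc (2 : ℝ) = 2 ^ (1 : ℝ) := (Real.rpow_one 2).symm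
      _ ≤ _ := by
          apply Real.rpow_le_rpow_of_exponent_le (by norm_num)
          rw [le_div_iff₀ hcpos, one_mul]
          exact hcn
  have hqn : q ≤ 2 ^ n := by
    rw [hq, ← Real.rpow_natCast]
    apply Real.rpow_le_rpow_of_exponent_le (by norm_num)
    exact div_le_self hnpos.le hc1
  have hmq : (m : ℝ) ≤ q := by
    have h9 : (m : ℝ) ^ c ≤ q ^ c := by
      have h10 : (m : ℝ) ^ c ≤ 2 ^ n := by exact_mod_cast hm2
      refine h10.trans (le_of_eq ?_)
      rw [hq, ← Real.rpow_natCast, ← Real.rpow_natCast, ← Real.rpow_mul (by norm_num)]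
      congr 1
      field_simp
    exact (pow_le_pow_iff_left₀ (by positivity) (by positivity) (by omega : c ≠ 0)).1 h9
  have hm1r : (1 : ℝ) ≤ m := by exact_mod_cast hm0
  have hsr : (s : ℝ) + r ≤ 2 ^ n := by
    have : s + r ≤ 2 ^ n := hs.le
    exact_mod_cast this
  have hR0 : (s : ℝ) + m * r ≤ m * (s + r) := by
    have : (s : ℝ) ≤ m * s := le_mul_of_one_le_left (by positivity) hm1r
    linarith
  have hkr : (2 : ℝ) ^ k ≤ 2 ^ n := pow_le_pow_right₀ (by norm_num) hk.le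
  have hE : 2 * 2 ^ n * (2 ^ k * ((s : ℝ) + m * r) * (2 * m / δ) * ((2 : ℝ) ^ (8 * n))⁻¹) ≤ 1 := by
    have e1 : 2 * (m : ℝ) / δ = 2 * m * q := by rw [← h1δ]; ring
    rw [e1]
    have hA : (1 : ℝ) ≤ 2 ^ n := one_le_pow₀ (by norm_num)
    set A : ℝ := 2 ^ n with hAd
    have hA6 : (2 : ℝ) ^ (8 * n) = A ^ 8 := by rw [hAd, ← pow_mul]; congr 1; ring
    have hA4 : 4 ≤ A := by
      calc (4 : ℝ) = 2 ^ 2 := by norm_num
        _ ≤ 2 ^ n := pow_le_pow_right₀ (by norm_num) (by omega)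
    have hmA : (m : ℝ) ≤ A := hmq.trans hqn
    rw [hA6]
    have h5 : (2 : ℝ) ^ k * ((s : ℝ) + m * r) * (2 * m * q) ≤ A * (A * A) * (2 * A * A) := by
      apply mul_le_mul
      · apply mul_le_mul hkr _ (by positivity) (by positivity)
        exact hR0.trans (mul_le_mul hmA hsr (by positivity) (by positivity))
      · exact mul_le_mul (mul_le_mul_of_nonneg_left hmA (by norm_num)) hqn hq0.le (by positivity)
      · positivity
      · positivity
    have hA0 : 0 < A := by linarith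
    calc 2 * A * (2 ^ k * ((s : ℝ) + m * r) * (2 * m * q) * (A ^ 8)⁻¹)
        ≤ 2 * A * (A * (A * A) * (2 * A * A) * (A ^ 8)⁻¹) := by
          apply mul_le_mul_of_nonneg_left _ (by positivity)
          exact mul_le_mul_of_nonneg_right h5 (by positivity)
      _ = 4 / (A * A) := by
          field_simp
          ring
      _ ≤ 1 := by
          rw [div_le_one (by positivity)]
          nlinarith
  have hre : ∀ φ : Idx n k s r D → ℝ, ∑ j, φ (e.symm j) = ∑ j, φ j := fun φ => Equiv.sum_comp _ _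
  have hc48 : (48 : ℝ) * L ^ 2 ≤ c := by
    have : 48 * L ^ 2 ≤ c := by omega
    exact_mod_cast this
  have hL2pos : (0 : ℝ) < (L : ℝ) ^ 2 := by
    have : (8 : ℝ) ≤ L := by exact_mod_cast hL8
    positivity
  have h7 : (2 : ℝ) ^ ((1 - 8 / (L : ℝ)) * n)
      ≤ 2 ^ k * (2 * (m : ℝ) / δ) * ((s : ℝ) + m * r + 5) := by
    refine hmain w N₀ hwm hNw (fun j x => libf P g (e.symm j) x)
      (fun j x => libf_bd hg _ x) (vld P) (fun x => vld_bd P x)
      (Finset.univ.filter fun i => P.Refutes (F i) δ) ?_ _ ?_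
    · have h1 : (((Finset.univ.filter fun i => P.Refutes (F i) δ).card : ℝ)) / (M : ℝ)
          = P.refutedRate F δ := by
        unfold Scheme.refutedRate
        congr 2
        rw [Set.ncard_eq_toFinset_card']
        congr 1
        ext x
        simp
      rw [h1, ← correct_sum]
      refine le_trans ?_ hR
      have h2 : (2 : ℝ) ^ (-(n / (16 * L ^ 2 : ℝ)) : ℝ) ≤ (2 : ℝ) ^ (-((n : ℝ) / c)) := by
        apply Real.rpow_le_rpow_of_exponent_le (by norm_num)
        rw [neg_le_neg_iff]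
        apply div_le_div_of_nonneg_left hnpos.le (by positivity)
        linarith
      linarith
    · intro i hi
      obtain ⟨μ, u, hu, hid, hmass, hsize⟩ := static_of_refutes P hgnet (F i) (hF i).1 hm0 hδ0
        hδ1 hE (Finset.mem_filter.1 hi).2
      refine ⟨fun C j => μ C (e.symm j), fun j => u (e.symm j), fun j => hu _, ?_, ?_, ?_⟩
      · intro x
        rw [hre (fun j => u j * libf P g j x), ← hid x]
        apply Finset.sum_congr rfl
        intro C _
        exact hre (fun j => μ C j * (libf P g j x * LX.isFalse C x))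
      · refine le_trans (le_of_eq ?_) (hmass.trans ?_)
        · apply Finset.sum_congr rfl
          intro x _
          apply Finset.sum_congr rfl
          intro C _
          exact hre (fun j => |μ C j| * (libf P g j x * LX.isFalse C x))
        · apply mul_le_mul_of_nonneg_right _ (by positivity)
          have e1 : 2 * (m : ℝ) / δ = 2 * m * q := by rw [← h1δ]; ring
          rw [e1]
          calc 2 * (m : ℝ) * q ≤ q * q * q := by
                apply mul_le_mul_of_nonneg_right _ hq0.le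
                exact mul_le_mul hq2 hmq (by positivity) hq0.le
            _ = (2 : ℝ) ^ (3 * ((n : ℝ) / c)) := by
                rw [hq, ← Real.rpow_add (by norm_num), ← Real.rpow_add (by norm_num)]
                congr 1; ring
            _ ≤ (2 : ℝ) ^ (n / (16 * L ^ 2 : ℝ)) := by
                apply Real.rpow_le_rpow_of_exponent_le (by norm_num)
                rw [mul_div_assoc', div_le_div_iff₀ hcpos (by positivity)]
                have := mul_le_mul_of_nonneg_left hc48 hnpos.le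
                linarith
      · refine le_trans (le_of_eq ?_) hsize
        rw [hre u]
        congr 1
        apply Finset.sum_congr rfl
        intro C _
        exact hre (fun j => |μ C j|)
  -- the factor is small
  have h8 : 2 ^ k * (2 * (m : ℝ) / δ) * ((s : ℝ) + m * r + 5)
      ≤ q ^ 7 * (2 ^ k * (s + r + 1)) := by
    have e1 : 2 * (m : ℝ) / δ = 2 * m * q := by rw [← h1δ]; ring
    have h9 : (s : ℝ) + m * r + 5 ≤ q ^ 4 * (s + r + 1) := by
      have hq1 : 1 ≤ q := by linarith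
      have h10 : (m : ℝ) ≤ q ^ 4 := hmq.trans (le_self_pow₀ hq1 (by norm_num))
      have h11 : (5 : ℝ) ≤ q ^ 4 := by
        calc (5 : ℝ) ≤ 2 ^ 4 := by norm_num
          _ ≤ q ^ 4 := pow_le_pow_left₀ (by norm_num) hq2 4
      have h12 : (m : ℝ) * (s + r) ≤ q ^ 4 * (s + r) :=
        mul_le_mul_of_nonneg_right h10 (by positivity)
      have h13 : q ^ 4 * (s + r + 1) = q ^ 4 * (s + r) + q ^ 4 := by ring
      linarith
    rw [e1]
    calc 2 ^ k * (2 * (m : ℝ) * q) * ((s : ℝ) + m * r + 5)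
        ≤ 2 ^ k * (q * q * q) * (q ^ 4 * (s + r + 1)) := by
          apply mul_le_mul _ h9 (by positivity) (by positivity)
          apply mul_le_mul_of_nonneg_left _ (by positivity)
          apply mul_le_mul_of_nonneg_right _ hq0.le
          exact mul_le_mul hq2 hmq (by positivity) hq0.le
      _ = q ^ 7 * (2 ^ k * (s + r + 1)) := by ring
  have h9 : q ^ 7 ≤ (2 : ℝ) ^ (ε / 2 * n) := by
    rw [hq, ← Real.rpow_natCast, ← Real.rpow_mul (by norm_num)]
    apply Real.rpow_le_rpow_of_exponent_le (by norm_num)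
    have h10 : 14 / ε ≤ (c : ℝ) := by
      refine hc₁.trans ?_
      exact_mod_cast (by omega : c₁ ≤ c)
    rw [div_le_iff₀ hε] at h10
    rw [div_mul_eq_mul_div, div_le_iff₀ hcpos]
    push_cast
    have h11 : (n : ℝ) * 14 ≤ n * (c * ε) := mul_le_mul_of_nonneg_left h10 hnpos.le
    linarith
  have h10 : (2 : ℝ) ^ ((1 - ε) * n) * (2 : ℝ) ^ (ε / 2 * n)
      ≤ (2 ^ k * ((s : ℝ) + r + 1)) * (2 : ℝ) ^ (ε / 2 * n) := by
    rw [← Real.rpow_add (by norm_num)]
    have e1 : (1 - ε) * (n : ℝ) + ε / 2 * n = (1 - ε / 2) * n := by ring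
    rw [e1]
    refine le_trans ?_ (h7.trans (h8.trans ?_))
    · apply Real.rpow_le_rpow_of_exponent_le (by norm_num)
      apply mul_le_mul_of_nonneg_right _ hnpos.le
      linarith
    rw [mul_comm]
    exact mul_le_mul_of_nonneg_left h9 (by positivity)
  exact le_of_mul_le_mul_right h10 (by positivity)

/-- The lower bound for randomized schemes. -/
theorem rx_main (ε : ℝ) (hε : 0 < ε) : ∃ c : ℕ, 1 ≤ c ∧ ∀ n m : ℕ, c ≤ n → n ^ c ≤ m →
    m ^ c ≤ 2 ^ n → ∃ (M : ℕ) (F : Fin M → Finset (Clause n)), 0 < M ∧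
      (∀ i, (F i).card ≤ m ∧ (∀ C ∈ F i, 2 ^ C.card ≤ m) ∧
        ∀ x, n ≤ c * Nat.log 2 m * falsified (F i) x) ∧
      ∀ (D : ℕ), D ^ c ≤ m → ∀ (Ω : Type) [Fintype Ω] (p : Ω → ℝ), (∀ ω, 0 ≤ p ω) →
        ∑ ω, p ω = 1 → ∀ (k s r : Ω → ℕ) (P : ∀ ω, Scheme n (k ω) (s ω) (r ω) D),
        (∀ ω, (2 : ℝ) ^ k ω * (s ω + r ω + 1) < (2 : ℝ) ^ ((1 - ε) * n)) →
        ∑ ω, p ω * ((P ω).correctRate + (P ω).refutedRate F ((2 : ℝ) ^ (-((n : ℝ) / c))))
          < 1 + (2 : ℝ) ^ (-((n : ℝ) / c)) := by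
  obtain ⟨c, hc, hmain⟩ := rx_det ε hε
  refine ⟨c, hc, ?_⟩
  intro n m h1 h2 h3
  obtain ⟨M, F, hM, hF, hdet⟩ := hmain n m h1 h2 h3
  refine ⟨M, F, hM, hF, ?_⟩
  intro D hD Ω _ p hp hp1 k s r P hP
  have hlt : ∀ ω, (P ω).correctRate + (P ω).refutedRate F ((2 : ℝ) ^ (-((n : ℝ) / c)))
      < 1 + (2 : ℝ) ^ (-((n : ℝ) / c)) := by
    intro ω
    by_contra hcon
    push Not at hcon
    exact absurd (hdet D hD (k ω) (s ω) (r ω) (P ω) hcon) (not_le.2 (hP ω))
  obtain ⟨ω₀, hω₀⟩ : ∃ ω, 0 < p ω := by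
    by_contra hcon
    push Not at hcon
    have h4 : ∑ ω, p ω ≤ 0 := Finset.sum_nonpos (fun ω _ => hcon ω)
    linarith
  calc ∑ ω, p ω * ((P ω).correctRate + (P ω).refutedRate F ((2 : ℝ) ^ (-((n : ℝ) / c))))
      < ∑ ω, p ω * (1 + (2 : ℝ) ^ (-((n : ℝ) / c))) := by
        apply Finset.sum_lt_sum
        · intro ω _
          exact mul_le_mul_of_nonneg_left (hlt ω).le (hp ω)
        · exact ⟨ω₀, Finset.mem_univ _, mul_lt_mul_of_pos_left (hlt ω₀) hω₀⟩
    _ = 1 + (2 : ℝ) ^ (-((n : ℝ) / c)) := by rw [← Finset.sum_mul, hp1, one_mul]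

end Pool.Agent.TH689.RX
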